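import Pool.Agent.Lib.HKDet.Defs

/-!
# Module Gd: good ideals (multihomogeneous, stable under all `E k`, `F k`)

`gr x = (single x.1 1, ±1)`, values in `(V →₀ ℕ) × ℤ`. Components: `weightedHomogeneousComponent (gr) i f`.

PROOFS.
* `bot`, `top`: trivial (`map_zero`).
* GENERAL PRINCIPLE `good_span`: let `A` be a set of elements of `T V K` such that every `f ∈ A` is weighted homogeneous for some degree (`f ∈ S K d w`) and all `E k f`, `F k f`
  are in `Ideal.span A`. Then `Ideal.span A` is good. Proof: `J = span A`. `E k`: by `Submodule.span_induction` on `f ∈ J` for all `k` at the same time: generators: hypothesis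
  (`E 0 f = f`); sums; multiples `g * f`: `E_mul`: `E k (g f) = ∑ E i g * E j f ∈ J`. Components: the set of `f` all of whose components are in `J` is a subset closed
  under sums, contains the generators (`weightedHomogeneousComponent_of_mem` / `component of a homogeneous element is itself or 0`), and for `g` arbitrary and `f ∈ A` homogeneous of degree
  `e`: write `g` as the finite sum of its components `g_j` (`exists_sum_component`); `g_j f` is homogeneous of degree `j + e`, so each component of `g f = ∑ g_j f` is a sum of some `g_j f ∈ J`.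
  (So do the induction in the form: `J` is the additive span of the products `g f`, `f ∈ A`, `g` homogeneous; e.g. `Submodule.span_induction` with the predicate
  for `smul`: not needed if one shows directly that every element of `J` is a finite sum `∑ g_i f_i`, `f_i ∈ A`, `g_i` homogeneous.)
* `nI U`: generators `a_v, b_v`, `v ∈ U`: `E k a_v = 0` or (`k = 0`) `a_v`; `E 1 b_v = a_v`, `E k b_v = 0` for `k ≥ 2` (`E_va`, `E_one_vb`, `E_vb`, ..).
* `jI R C`: generators `[i j]` are invariants (`br_mem_Inv`, `mem_Inv_iff`) in `S (e_i + e_j) 0` (`br_mem_S`).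
* `mul`: a product ideal is generated by the products `f g` (`Submodule.span_mul_span` / `Ideal.mul = span`); elements `f g`, `f ∈ I`, `g ∈ J`; by linearity in components one may take `f, g`
  homogeneous. Use: `Submodule.mul_induction_on`. `E k (f g) = ∑ E i f E j g ∈ I J`. Components of `f g`: `f = ∑ f_i`, `g = ∑ g_j` (finite sums of components, in `I`, `J` by
  goodness), the `c`-component of `f g` is `∑_{i + j = c} f_i g_j`.
* `pow`: induction (`pow_zero`: `⊤`; `Ideal.one_eq_top`). `sup`: `Submodule.mem_sup`, components and operators are additive. `inf`: trivial.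
-/

namespace HKDet

open MvPolynomial FSig

variable {V : Type*} {K : Type*} [Field K]

private lemma Gd_comp_of {f : T V K} {j : (V →₀ ℕ) × ℤ} (hf : f ∈ S K j.1 j.2) {J : Ideal (T V K)}
    (hJ : f ∈ J) (i : (V →₀ ℕ) × ℤ) : weightedHomogeneousComponent (gr (V := V)) i f ∈ J := by
  classical
  have h : f ∈ weightedHomogeneousSubmodule K (gr (V := V)) j := hf
  rw [weightedHomogeneousComponent_of_mem (m := i) h]
  split_ifs
  · exact hJ
  · exact zero_mem _

private lemma Gd_prod {m n : T V K} {M : Ideal (T V K)}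
    (h : ∀ j l, weightedHomogeneousComponent (gr (V := V)) j m *
      weightedHomogeneousComponent (gr (V := V)) l n ∈ M) (i : (V →₀ ℕ) × ℤ) :
    weightedHomogeneousComponent (gr (V := V)) i (m * n) ∈ M := by
  obtain ⟨s, hs⟩ := exists_sum_component K m
  obtain ⟨t, ht⟩ := exists_sum_component K n
  have e : m * n = ∑ j ∈ s, ∑ l ∈ t, (weightedHomogeneousComponent (gr (V := V)) j m *
      weightedHomogeneousComponent (gr (V := V)) l n) := by
    rw [← Finset.sum_mul_sum, ← hs, ← ht]
  rw [e, map_sum]
  refine sum_mem fun j _ => ?_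
  rw [map_sum]
  refine sum_mem fun l _ => ?_
  exact Gd_comp_of (j := (j.1 + l.1, j.2 + l.2))
    (mul_mem_S K (component_mem K m j.1 j.2) (component_mem K n l.1 l.2)) (h j l) i

theorem good_bot : Good (⊥ : Ideal (T V K)) := by
  refine ⟨?_, ?_, ?_⟩
  · intro f hf i
    rw [Ideal.mem_bot] at hf
    rw [hf, map_zero]
    exact zero_mem _
  · intro k f hf
    rw [Ideal.mem_bot] at hf
    rw [hf, map_zero]
    exact zero_mem _
  · intro k f hf
    rw [Ideal.mem_bot] at hf
    rw [hf, map_zero]
    exact zero_mem _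

theorem good_top : Good (⊤ : Ideal (T V K)) :=
  ⟨fun _ _ _ => Submodule.mem_top, fun _ _ _ => Submodule.mem_top, fun _ _ _ => Submodule.mem_top⟩

theorem good_span {A : Set (T V K)} (h1 : ∀ f ∈ A, ∃ d w, f ∈ S K d w)
    (h2 : ∀ f ∈ A, ∀ k, E K k f ∈ Ideal.span A ∧ F K k f ∈ Ideal.span A) : Good (Ideal.span A) := by
  refine ⟨?_, ?_, ?_⟩
  · intro f hf
    refine Submodule.span_induction (p := fun f _ => ∀ i,
      weightedHomogeneousComponent (gr (V := V)) i f ∈ Ideal.span A) ?_ ?_ ?_ ?_ hf
    · intro x hx i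
      obtain ⟨d, w, hdw⟩ := h1 x hx
      exact Gd_comp_of (j := (d, w)) hdw (Ideal.subset_span hx) i
    · intro i
      rw [map_zero]
      exact zero_mem _
    · intro x y _ _ hx hy i
      rw [map_add]
      exact add_mem (hx i) (hy i)
    · intro a x _ hx i
      rw [smul_eq_mul]
      exact Gd_prod (fun j l => Ideal.mul_mem_left _ _ (hx l)) i
  · intro k f hf
    revert k
    refine Submodule.span_induction (p := fun f _ => ∀ k, E K k f ∈ Ideal.span A) ?_ ?_ ?_ ?_ hf
    · intro x hx k
      exact (h2 x hx k).1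
    · intro k
      rw [map_zero]
      exact zero_mem _
    · intro x y _ _ hx hy k
      rw [map_add]
      exact add_mem (hx k) (hy k)
    · intro a x _ hx k
      rw [smul_eq_mul, E_mul]
      exact sum_mem fun c _ => Ideal.mul_mem_left _ _ (hx c.2)
  · intro k f hf
    revert k
    refine Submodule.span_induction (p := fun f _ => ∀ k, F K k f ∈ Ideal.span A) ?_ ?_ ?_ ?_ hf
    · intro x hx k
      exact (h2 x hx k).2
    · intro k
      rw [map_zero]
      exact zero_mem _
    · intro x y _ _ hx hy k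
      rw [map_add]
      exact add_mem (hx k) (hy k)
    · intro a x _ hx k
      rw [smul_eq_mul, F_mul]
      exact sum_mem fun c _ => Ideal.mul_mem_left _ _ (hx c.2)

private lemma Gd_nI_aux {U : Finset V} {v : V} (hv : v ∈ U) :
    va K v ∈ Ideal.span (X '' {x : V × Bool | x.1 ∈ U}) ∧
      vb K v ∈ (Ideal.span (X '' {x : V × Bool | x.1 ∈ U}) : Ideal (T V K)) :=
  ⟨Ideal.subset_span ⟨(v, false), hv, rfl⟩, Ideal.subset_span ⟨(v, true), hv, rfl⟩⟩

theorem good_nI (U : Finset V) : Good (nI K U) := by
  unfold nI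
  refine good_span ?_ ?_
  · rintro _ ⟨⟨v, b⟩, hv, rfl⟩
    cases b
    · exact ⟨_, _, va_mem_S K v⟩
    · exact ⟨_, _, vb_mem_S K v⟩
  · rintro _ ⟨⟨v, b⟩, hv, rfl⟩ k
    have hv' : v ∈ U := hv
    obtain ⟨ha, hb⟩ := Gd_nI_aux (K := K) hv'
    rcases Nat.eq_zero_or_pos k with h0 | h0
    · rw [h0, E_zero, F_zero]
      exact ⟨Ideal.subset_span ⟨(v, b), hv, rfl⟩, Ideal.subset_span ⟨(v, b), hv, rfl⟩⟩
    · cases b
      · change E K k (va K v) ∈ _ ∧ F K k (va K v) ∈ _
        refine ⟨?_, ?_⟩
        · rw [E_va K k h0 v]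
          exact zero_mem _
        · rcases Nat.eq_or_lt_of_le h0 with h1 | h1
          · rw [← h1, F_one_va]
            exact hb
          · rw [F_va K k h1 v]
            exact zero_mem _
      · change E K k (vb K v) ∈ _ ∧ F K k (vb K v) ∈ _
        refine ⟨?_, ?_⟩
        · rcases Nat.eq_or_lt_of_le h0 with h1 | h1
          · rw [← h1, E_one_vb]
            exact ha
          · rw [E_vb K k h1 v]
            exact zero_mem _
        · rw [F_vb K k h0 v]
          exact zero_mem _

theorem good_jI (R C : Finset V) : Good (jI K R C) := by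
  unfold jI
  refine good_span ?_ ?_
  · rintro _ ⟨i, _, j, _, rfl⟩
    exact ⟨_, _, br_mem_S K i j⟩
  · rintro _ ⟨i, hi, j, hj, rfl⟩ k
    rcases Nat.eq_zero_or_pos k with h0 | h0
    · rw [h0, E_zero, F_zero]
      exact ⟨Ideal.subset_span ⟨i, hi, j, hj, rfl⟩, Ideal.subset_span ⟨i, hi, j, hj, rfl⟩⟩
    · obtain ⟨h1, h2⟩ := (mem_Inv_iff K _).1 (br_mem_Inv K i j) k h0
      rw [h1, h2]
      exact ⟨zero_mem _, zero_mem _⟩

theorem Good.mul {I J : Ideal (T V K)} (hI : Good I) (hJ : Good J) : Good (I * J) := by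
  refine ⟨?_, ?_, ?_⟩
  · intro f hf i
    refine Submodule.mul_induction_on hf ?_ ?_
    · intro m hm n hn
      exact Gd_prod (fun j l => Ideal.mul_mem_mul (hI.hom m hm j) (hJ.hom n hn l)) i
    · intro x y hx hy
      rw [map_add]
      exact add_mem hx hy
  · intro k f hf
    refine Submodule.mul_induction_on hf ?_ ?_
    · intro m hm n hn
      rw [E_mul]
      exact sum_mem fun c _ => Ideal.mul_mem_mul (hI.E _ m hm) (hJ.E _ n hn)
    · intro x y hx hy
      rw [map_add]
      exact add_mem hx hy
  · intro k f hf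
    refine Submodule.mul_induction_on hf ?_ ?_
    · intro m hm n hn
      rw [F_mul]
      exact sum_mem fun c _ => Ideal.mul_mem_mul (hI.F _ m hm) (hJ.F _ n hn)
    · intro x y hx hy
      rw [map_add]
      exact add_mem hx hy

theorem Good.pow {I : Ideal (T V K)} (hI : Good I) (n : ℕ) : Good (I ^ n) := by
  induction n with
  | zero =>
    rw [pow_zero, Ideal.one_eq_top]
    exact good_top
  | succ n ih =>
    rw [pow_succ]
    exact ih.mul hI

theorem Good.sup {I J : Ideal (T V K)} (hI : Good I) (hJ : Good J) : Good (I ⊔ J) := by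
  refine ⟨?_, ?_, ?_⟩
  · intro f hf i
    obtain ⟨y, hy, z, hz, rfl⟩ := Submodule.mem_sup.1 hf
    rw [map_add]
    exact Submodule.add_mem_sup (hI.hom y hy i) (hJ.hom z hz i)
  · intro k f hf
    obtain ⟨y, hy, z, hz, rfl⟩ := Submodule.mem_sup.1 hf
    rw [map_add]
    exact Submodule.add_mem_sup (hI.E k y hy) (hJ.E k z hz)
  · intro k f hf
    obtain ⟨y, hy, z, hz, rfl⟩ := Submodule.mem_sup.1 hf
    rw [map_add]
    exact Submodule.add_mem_sup (hI.F k y hy) (hJ.F k z hz)

theorem Good.inf {I J : Ideal (T V K)} (hI : Good I) (hJ : Good J) : Good (I ⊓ J) :=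
  ⟨fun f hf i => ⟨hI.hom f hf.1 i, hJ.hom f hf.2 i⟩, fun k f hf => ⟨hI.E k f hf.1, hJ.E k f hf.2⟩,
    fun k f hf => ⟨hI.F k f hf.1, hJ.F k f hf.2⟩⟩

end HKDet
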