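import Pool.Agent.Lib.HKDet.RnE

/-!
# Module MgA: merging two vectors

* MERGING `mg v v'` = `rn` of the map `v' ↦ v`, other vectors fixed (`v ≠ v'`). Let `d v' = 0`, `α + β = d v`, `d' = d - β e_v + β e_v'` (`d' v = α`, `d' v' = β`).
  - `mg_surj`: every `y ∈ S d w` is `mg x`, `x ∈ S d' w`: a monomial of `y` has `a_v^s b_v^t`, `s + t = α + β`: take the first `β` letters of the word `a^s b^t` from `v'`: `a_v'^{s'} b_v'^{t'}`, `s' = min s β`, `t' = β - s'`, and
    `a_v^{s-s'} b_v^{t-t'}` (`t' ≤ t` as `s + t ≥ β`). Linear combination (`S_induction`).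
  - `mg_ker`: `x ∈ S d' w`, `mg x = 0` ⟹ `x = [v v'] g`, `g ∈ S (d' - e_v - e_v') w` if `α, β ≥ 1` (and `x = 0` if `α = 0` or `β = 0`). Proof: modulo `[v v'] T` one may replace `b_v a_v'` by `a_v b_v'`. Let `N` be the span of the monomials of
    `S d' w` in which not both `b_v` and `a_v'` occur. Every monomial of `S d' w` is congruent to one of `N` modulo `[v v'] S(d' - e_v - e_v') w` (induction on the exponent of `b_v`). `mg` is injective on `N`: the monomial
    `a_v^{s} b_v^{t} a_v'^{s'} b_v'^{t'} m` with `t = 0` or `s' = 0` is determined by `s + s'` and `m` (`s + t = α`, `s' + t' = β`: if `s + s' ≤ α` then `s' = 0` (otherwise `t = 0`, `s = α`, `s' ≥ 1`), else `t = 0`, `s = α`). `mg [v v'] = 0`.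
-/

namespace HKDet

open MvPolynomial FSig Finset

variable {V : Type*} {K : Type*} [Field K]

variable [DecidableEq V]

/-- merge the vector `v'` into `v` -/
noncomputable def mg (K : Type*) [Field K] (v v' : V) : T V K →ₐ[K] T V K :=
  rn K (Function.update id v' v)

/-- merged exponents -/
private noncomputable def ME (v v' : V) (μ : V × Bool →₀ ℕ) : V × Bool →₀ ℕ :=
  μ.mapDomain (Prod.map (Function.update id v' v) id)

private lemma mg_monomial (v v' : V) (μ : V × Bool →₀ ℕ) (c : K) :
    mg K v v' (monomial μ c) = monomial (ME v v' μ) c := by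
  rw [mg, rn, rename_monomial]
  rfl

private lemma ME_apply {v v' : V} (hvv : v ≠ v') (μ : V × Bool →₀ ℕ) (u : V) (b : Bool) :
    ME v v' μ (u, b) =
      if u = v' then 0 else if u = v then μ (v, b) + μ (v', b) else μ (u, b) := by
  unfold ME
  induction μ using Finsupp.induction_linear with
  | zero => simp
  | add f g hf hg =>
    rw [Finsupp.mapDomain_add, Finsupp.add_apply, hf, hg]
    simp only [Finsupp.add_apply]
    split_ifs
    · rfl
    · ring
    · rfl
  | single x n =>
    rw [Finsupp.mapDomain_single]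
    obtain ⟨y, c⟩ := x
    simp only [Prod.map, Finsupp.single_apply, Prod.mk.injEq, id]
    by_cases hy : y = v'
    · subst hy
      rw [Function.update_self]
      by_cases hu : u = y
      · subst hu
        simp [hvv]
      · by_cases hu2 : u = v
        · subst hu2
          simp [Ne.symm hvv, hu]
        · simp [hu, hu2, Ne.symm hu2, Ne.symm hu]
    · rw [Function.update_of_ne hy]
      by_cases hu : u = v'
      · subst hu
        simp [hy]
      · by_cases hu2 : u = v
        · subst hu2
          simp [hu, hy]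
        · simp [hu, hu2]

private lemma wtm_ME (v v' : V) (μ : V × Bool →₀ ℕ) : wtm (ME v v' μ) = wtm μ := by
  unfold wtm ME
  rw [Finsupp.sum_mapDomain_index]
  · rfl
  · intro x
    split_ifs <;> simp
  · intro x m n
    split_ifs <;> push_cast <;> ring

omit [DecidableEq V] in
private lemma wadd (μ ν : V × Bool →₀ ℕ) : wtm (μ + ν) = wtm μ + wtm ν := by
  unfold wtm
  rw [Finsupp.sum_add_index']
  · intro x
    split_ifs <;> simp
  · intro x m n
    split_ifs <;> push_cast <;> ring

omit [DecidableEq V] in
private lemma wsin (x : V) (b : Bool) (n : ℕ) :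
    wtm (Finsupp.single (x, b) n) = if b then -(n : ℤ) else (n : ℤ) := by
  unfold wtm
  rw [Finsupp.sum_single_index]
  split_ifs <;> simp

variable {v v' : V} {d : V →₀ ℕ} {w : ℤ} {β : ℕ}

private lemma dval (u : V) : (d - Finsupp.single v β + Finsupp.single v' β) u =
    (d u - if v = u then β else 0) + if v' = u then β else 0 := by
  simp [Finsupp.single_apply]

theorem mg_mem_S (hvv : v ≠ v') (hd : d v' = 0) (hβ : β ≤ d v) {x : T V K}
    (hx : x ∈ S K (d - Finsupp.single v β + Finsupp.single v' β) w) : mg K v v' x ∈ S K d w := by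
  refine S_induction K (fun x => mg K v v' x ∈ S K d w) ?_ ?_ ?_ hx
  · show mg K v v' 0 ∈ S K d w
    rw [map_zero]
    exact Submodule.zero_mem _
  · intro f g hf hg
    show mg K v v' (f + g) ∈ S K d w
    rw [map_add]
    exact Submodule.add_mem _ hf hg
  · intro μ c h1 h2
    show mg K v v' (monomial μ c) ∈ S K d w
    rw [mg_monomial]
    refine monomial_mem_S K c ?_ (by rw [wtm_ME, h2])
    intro u
    rw [ME_apply hvv, ME_apply hvv]
    have hv := h1 v
    have hv' := h1 v'
    have hu := h1 u
    rw [dval] at hv hv' hu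
    by_cases e1 : u = v'
    · subst e1
      simp [hd]
    · by_cases e2 : u = v
      · subst e2
        simp only [if_true, if_neg e1, if_neg (Ne.symm e1), hd] at hv hv' ⊢
        omega
      · simp only [if_neg e1, if_neg e2, if_neg (Ne.symm e1), if_neg (Ne.symm e2)] at hu ⊢
        omega

private lemma exists_pre (hvv : v ≠ v') (hd : d v' = 0) (hβ : β ≤ d v) (ν : V × Bool →₀ ℕ)
    (h1 : ∀ u, ν (u, false) + ν (u, true) = d u) :
    ∃ μ : V × Bool →₀ ℕ,
      (∀ u, μ (u, false) + μ (u, true) = (d - Finsupp.single v β + Finsupp.single v' β) u) ∧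
      ME v v' μ = ν := by
  obtain ⟨s, hs⟩ : ∃ s, s = min (ν (v, false)) β := ⟨_, rfl⟩
  obtain ⟨t, ht⟩ : ∃ t, t = β - s := ⟨_, rfl⟩
  have hv := h1 v
  have hv' := h1 v'
  rw [hd] at hv'
  have hst : s + t = β := by omega
  have hsf : s ≤ ν (v, false) := by omega
  have htf : t ≤ ν (v, true) := by omega
  have hval : ∀ u b, (ν - (Finsupp.single (v, false) s + Finsupp.single (v, true) t) +
      (Finsupp.single (v', false) s + Finsupp.single (v', true) t) : V × Bool →₀ ℕ) (u, b) =
      (ν (u, b) - ((if v = u ∧ false = b then s else 0) + if v = u ∧ true = b then t else 0)) +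
      ((if v' = u ∧ false = b then s else 0) + if v' = u ∧ true = b then t else 0) := by
    intro u b
    simp only [Finsupp.add_apply, Finsupp.tsub_apply, Finsupp.single_apply, Prod.mk.injEq]
  refine ⟨ν - (Finsupp.single (v, false) s + Finsupp.single (v, true) t) +
      (Finsupp.single (v', false) s + Finsupp.single (v', true) t), ?_, ?_⟩
  · intro u
    rw [hval, hval, dval]
    have hu := h1 u
    by_cases e1 : v' = u
    · subst e1
      simp [hvv, hd]
      omega
    · by_cases e2 : v = u
      · subst e2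
        simp [e1]
        omega
      · simp [e1, e2]
        exact hu
  · ext ⟨u, b⟩
    rw [ME_apply hvv, hval, hval, hval]
    by_cases e1 : u = v'
    · subst e1
      cases b <;> simp <;> omega
    · by_cases e2 : u = v
      · subst e2
        cases b <;> simp [hvv, Ne.symm hvv] <;> omega
      · simp [e1, e2, Ne.symm e1, Ne.symm e2]

theorem mg_surj (hvv : v ≠ v') (hd : d v' = 0) (hβ : β ≤ d v) {y : T V K} (hy : y ∈ S K d w) :
    ∃ x ∈ S K (d - Finsupp.single v β + Finsupp.single v' β) w, mg K v v' x = y := by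
  refine S_induction K (fun y => ∃ x ∈ S K (d - Finsupp.single v β + Finsupp.single v' β) w,
    mg K v v' x = y) ?_ ?_ ?_ hy
  · exact ⟨0, Submodule.zero_mem _, map_zero _⟩
  · rintro f g ⟨x1, hx1, rfl⟩ ⟨x2, hx2, rfl⟩
    exact ⟨x1 + x2, Submodule.add_mem _ hx1 hx2, map_add _ _ _⟩
  · intro ν c h1 h2
    obtain ⟨μ, hμ1, hμ2⟩ := exists_pre hvv hd hβ ν h1
    refine ⟨monomial μ c, monomial_mem_S K c hμ1 ?_, ?_⟩
    · rw [← wtm_ME v v' μ, hμ2, h2]
    · rw [mg_monomial, hμ2]

private lemma mg_br0 (v v' : V) : mg K v v' (br K v v') = 0 := by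
  by_cases h : v = v'
  · subst h
    have : br K v v = 0 := by
      unfold br
      ring
    rw [this, map_zero]
  · unfold br va vb mg rn
    rw [map_sub, map_mul, map_mul, rename_X, rename_X, rename_X, rename_X]
    simp only [Prod.map, Function.update_self, Function.update_of_ne h, id]
    ring

/-- congruence to a reduced monomial -/
private lemma reduce_mon (hvv : v ≠ v') (hd : d v' = 0) (hβ : 1 ≤ β) (hβ' : β + 1 ≤ d v)
    (c : K) : ∀ (n : ℕ) (μ : V × Bool →₀ ℕ), μ (v, true) = n →
      (∀ u, μ (u, false) + μ (u, true) = (d - Finsupp.single v β + Finsupp.single v' β) u) →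
      wtm μ = w →
      ∃ μ0 : V × Bool →₀ ℕ, (μ0 (v, true) = 0 ∨ μ0 (v', false) = 0) ∧
        (∀ u, μ0 (u, false) + μ0 (u, true) =
          (d - Finsupp.single v β + Finsupp.single v' β) u) ∧ wtm μ0 = w ∧
        ∃ g ∈ S K (d - Finsupp.single v (β + 1) + Finsupp.single v' (β - 1)) w,
          monomial μ c = monomial μ0 c + br K v v' * g := by
  intro n
  induction n with
  | zero =>
    intro μ h0 h1 h2
    exact ⟨μ, Or.inl h0, h1, h2, 0, Submodule.zero_mem _, by rw [mul_zero, add_zero]⟩
  | succ n ih =>
    intro μ h0 h1 h2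
    by_cases h3 : μ (v', false) = 0
    · exact ⟨μ, Or.inr h3, h1, h2, 0, Submodule.zero_mem _, by rw [mul_zero, add_zero]⟩
    obtain ⟨m, hm⟩ : ∃ m : V × Bool →₀ ℕ,
        μ = m + (Finsupp.single (v, true) 1 + Finsupp.single (v', false) 1) := by
      refine ⟨μ - (Finsupp.single (v, true) 1 + Finsupp.single (v', false) 1), ?_⟩
      rw [tsub_add_cancel_of_le]
      intro x
      obtain ⟨u, b⟩ := x
      simp only [Finsupp.add_apply, Finsupp.single_apply, Prod.mk.injEq]
      by_cases e1 : v' = u
      · subst e1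
        cases b
        · simp [hvv]
          omega
        · simp [hvv]
      · by_cases e2 : v = u
        · subst e2
          cases b
          · simp [e1]
          · simp [e1]
            omega
        · simp [e1, e2]
    have hmv : ∀ u b, μ (u, b) = m (u, b) + ((if v = u ∧ true = b then 1 else 0) +
        if v' = u ∧ false = b then 1 else 0) := by
      intro u b
      rw [hm]
      simp only [Finsupp.add_apply, Finsupp.single_apply, Prod.mk.injEq]
    have hwm : wtm m = w := by
      rw [hm, wadd, wadd, wsin, wsin] at h2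
      simpa using h2
    have hmd : ∀ u, m (u, false) + m (u, true) =
        (d - Finsupp.single v (β + 1) + Finsupp.single v' (β - 1)) u := by
      intro u
      have hu := h1 u
      rw [hmv, hmv, dval] at hu
      simp only [Finsupp.add_apply, Finsupp.tsub_apply, Finsupp.single_apply]
      by_cases e1 : v' = u
      · subst e1
        simp [hvv] at hu ⊢
        omega
      · by_cases e2 : v = u
        · subst e2
          simp [e1] at hu ⊢
          omega
        · simp [e1, e2] at hu ⊢
          omega
    obtain ⟨μ1, hμ1⟩ : ∃ μ1 : V × Bool →₀ ℕ,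
        μ1 = m + (Finsupp.single (v, false) 1 + Finsupp.single (v', true) 1) := ⟨_, rfl⟩
    have hμv : ∀ u b, μ1 (u, b) = m (u, b) + ((if v = u ∧ false = b then 1 else 0) +
        if v' = u ∧ true = b then 1 else 0) := by
      intro u b
      rw [hμ1]
      simp only [Finsupp.add_apply, Finsupp.single_apply, Prod.mk.injEq]
    have hμ10 : μ1 (v, true) = n := by
      rw [hμv]
      rw [hmv] at h0
      simp [Ne.symm hvv] at h0 ⊢
      omega
    have hμ11 : ∀ u, μ1 (u, false) + μ1 (u, true) =
        (d - Finsupp.single v β + Finsupp.single v' β) u := by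
      intro u
      rw [← h1 u, hμv, hμv, hmv, hmv]
      by_cases e1 : v' = u
      · subst e1
        simp [hvv]
        omega
      · by_cases e2 : v = u
        · subst e2
          simp [e1]
          omega
        · simp [e1, e2]
    have hμ12 : wtm μ1 = w := by
      rw [hμ1, wadd, wadd, wsin, wsin]
      simpa using hwm
    obtain ⟨μ0, a1, a2, a3, g, hg, hgm⟩ := ih μ1 hμ10 hμ11 hμ12
    refine ⟨μ0, a1, a2, a3, g - monomial m c, Submodule.sub_mem _ hg
      (monomial_mem_S K c hmd hwm), ?_⟩
    have e1 : (monomial μ c : T V K) = monomial m c * (vb K v * va K v') := by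
      unfold vb va
      rw [X, X, monomial_mul, monomial_mul, mul_one, mul_one, hm]
    have e2 : (monomial μ1 c : T V K) = monomial m c * (va K v * vb K v') := by
      unfold vb va
      rw [X, X, monomial_mul, monomial_mul, mul_one, mul_one, hμ1]
    have e3 : (monomial μ c : T V K) = monomial μ1 c - br K v v' * monomial m c := by
      rw [e1, e2, br]
      ring
    rw [e3, hgm]
    ring

theorem mg_ker (hvv : v ≠ v') (hd : d v' = 0) (hβ : 1 ≤ β) (hβ' : β + 1 ≤ d v) {x : T V K}
    (hx : x ∈ S K (d - Finsupp.single v β + Finsupp.single v' β) w) (h0 : mg K v v' x = 0) :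
    ∃ g ∈ S K (d - Finsupp.single v (β + 1) + Finsupp.single v' (β - 1)) w, x = br K v v' * g := by
  have key : ∃ x0 : T V K, (∀ μ, coeff μ x0 ≠ 0 → (μ (v, true) = 0 ∨ μ (v', false) = 0) ∧
      ∀ u, μ (u, false) + μ (u, true) = (d - Finsupp.single v β + Finsupp.single v' β) u) ∧
      ∃ g ∈ S K (d - Finsupp.single v (β + 1) + Finsupp.single v' (β - 1)) w,
        x = x0 + br K v v' * g := by
    refine S_induction K (fun x => ∃ x0 : T V K,
      (∀ μ, coeff μ x0 ≠ 0 → (μ (v, true) = 0 ∨ μ (v', false) = 0) ∧
      ∀ u, μ (u, false) + μ (u, true) = (d - Finsupp.single v β + Finsupp.single v' β) u) ∧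
      ∃ g ∈ S K (d - Finsupp.single v (β + 1) + Finsupp.single v' (β - 1)) w,
        x = x0 + br K v v' * g) ?_ ?_ ?_ hx
    · exact ⟨0, fun μ h => absurd (coeff_zero μ) h, 0, Submodule.zero_mem _, by
        rw [mul_zero, add_zero]⟩
    · rintro f g ⟨f0, hf0, f1, hf1, rfl⟩ ⟨g0, hg0, g1, hg1, rfl⟩
      refine ⟨f0 + g0, ?_, f1 + g1, Submodule.add_mem _ hf1 hg1, by ring⟩
      intro μ hμ
      by_cases h1 : coeff μ f0 = 0
      · by_cases h2 : coeff μ g0 = 0
        · exact absurd (by rw [coeff_add, h1, h2, add_zero]) hμ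
        · exact hg0 μ h2
      · exact hf0 μ h1
    · intro μ c h1 h2
      obtain ⟨μ0, a1, a2, a3, g, hg, hgm⟩ := reduce_mon (K := K) hvv hd hβ hβ' c _ μ rfl h1 h2
      refine ⟨monomial μ0 c, ?_, g, hg, hgm⟩
      intro ν hν
      rw [coeff_monomial] at hν
      split_ifs at hν with h3
      · subst h3
        exact ⟨a1, a2⟩
      · exact absurd rfl hν
  obtain ⟨x0, hx0, g, hg, rfl⟩ := key
  rw [map_add, map_mul, mg_br0, zero_mul, add_zero] at h0
  have h1 : mg K v v' x0 = ∑ μ ∈ x0.support, monomial (ME v v' μ) (coeff μ x0) := by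
    conv_lhs => rw [x0.as_sum]
    rw [map_sum]
    exact Finset.sum_congr rfl fun μ _ => mg_monomial v v' μ _
  have h2 : x0 = 0 := by
    by_contra hne
    obtain ⟨μ1, hμ1⟩ : ∃ μ1, coeff μ1 x0 ≠ 0 := by
      by_contra hcon
      push Not at hcon
      exact hne (MvPolynomial.ext _ _ fun m => by rw [hcon m, coeff_zero])
    have h3 := congrArg (coeff (ME v v' μ1)) h1
    rw [h0, coeff_zero, coeff_sum, Finset.sum_eq_single μ1] at h3
    · rw [coeff_monomial, if_pos rfl] at h3
      exact hμ1 h3.symm
    · intro μ hμ hne2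
      rw [mem_support_iff] at hμ
      rw [coeff_monomial, if_neg]
      intro heq
      apply hne2
      obtain ⟨b1, b2⟩ := hx0 μ hμ
      obtain ⟨c1, c2⟩ := hx0 μ1 hμ1
      have hev : ∀ u b, ME v v' μ (u, b) = ME v v' μ1 (u, b) := fun u b => by rw [heq]
      have q1 := b2 v
      have q2 := b2 v'
      have q3 := c2 v
      have q4 := c2 v'
      have r1 := hev v false
      have r2 := hev v true
      rw [ME_apply hvv, ME_apply hvv, if_neg hvv, if_pos rfl, if_neg hvv, if_pos rfl] at r1 r2
      ext ⟨u, b⟩
      by_cases e1 : u = v'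
      · subst e1
        cases b <;> omega
      · by_cases e2 : u = v
        · subst e2
          cases b <;> omega
        · have h := hev u b
          rw [ME_apply hvv, ME_apply hvv, if_neg e1, if_neg e2, if_neg e1, if_neg e2] at h
          exact h
    · intro h
      rw [mem_support_iff, not_not] at h
      exact absurd h hμ1
  exact ⟨g, hg, by rw [h2, zero_add]⟩

theorem mg_br (v v' : V) : mg K v v' (br K v v') = 0 := mg_br0 v v'

end HKDet
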