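import Pool.Agent.Lib.HKDet.TR

/-!
# Module MonI: the Frobenius powers of `nI C`, `nI {o} ^ b` and their product are monomial ideals

`V × Bool`: `(v,false) ↔ a_v`, `(v,true) ↔ b_v`.
* `mem_Fr_nI`: `f ∈ Fr p (nI K C)` iff every monomial `μ` of `f` has an exponent `≥ p` at `(c, ε)` for some `c ∈ C`.
* `mem_Fr_pow`: `f ∈ Fr p (nI K {o} ^ b)` iff every monomial `μ` of `f` has `μ(o,false)/p + μ(o,true)/p ≥ b` (`/` in `ℕ`).
* `mem_Fr_mul`: `o ∉ C`: `f ∈ Fr p (nI K C * nI K {o} ^ b)` iff every monomial satisfies both conditions.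

PROOFS. `Fr p (span (X '' s)) = span ((X · ^ p) '' s)` (`Ideal.map_span`, `expand_X`), `Fr_mul`, `Fr_pow`. Generators are monomials, so (⟸) a monomial `μ` with an exponent `≥ p` at `u` is `X u ^ p * x^(μ - p e_u)`;
a monomial with `μ(o,false)/p = s`, `μ(o,true)/p = t`, `s + t ≥ b` is divisible by `(a_o^p)^s' (b_o^p)^t'`, `s' ≤ s`, `t' ≤ t`, `s' + t' = b`, an element of `(a_o^p, b_o^p)^b`; for both conditions: the monomials `a_o^{ps'} b_o^{pt'}` and
`X u ^ p`, `u = (c, ε)`, `c ≠ o`, divide `x^μ` simultaneously. Every `f` is the sum of its monomials.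
(⟹) the set of `f` all of whose monomials satisfy the condition is an ideal (a monomial of `g * f` is a sum `ν + μ`, and the conditions are stable under adding `ν`; `support_mul`) and contains the generators: for the power: the
conditions multiply: if `f, g` satisfy the conditions with `b, b'` then `f g` satisfies it with `b + b'` (`(μ+ν)/p ≥ μ/p + ν/p`).
* `Fs_nI_small`: `c ∈ C`, `d c ≤ p - 1`: `Fs p (nI K C * nI K {o}^b) d w = Fs p (nI K (C.erase c) * nI K {o}^b) d w` (no exponent `≥ p` at `c`). * `Fs_nI_big`: `c ∈ C`, `d c ≥ 2p-1`: one of the two exponents at `c` is `≥ p`.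
* `nI_mono`.
-/

namespace HKDet

open MvPolynomial FSig Finset

variable {V : Type*} [DecidableEq V] {K : Type*} [Field K] (p : ℕ) [Fact p.Prime]

/-- the ideal of the polynomials all of whose monomials satisfy an upward closed condition -/
private def monoI (K : Type*) [Field K] (P : (V × Bool →₀ ℕ) → Prop)
    (hP : ∀ μ ν, P μ → P (ν + μ)) : Ideal (T V K) where
  carrier := {f | ∀ μ, coeff μ f ≠ 0 → P μ}
  add_mem' := by
    intro f g hf hg μ hμ
    by_cases h : coeff μ f = 0
    · refine hg μ (fun h2 => hμ ?_)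
      rw [coeff_add, h, h2, add_zero]
    · exact hf μ h
  zero_mem' := by
    intro μ hμ
    exact absurd (coeff_zero μ) hμ
  smul_mem' := by
    intro g f hf μ hμ
    rw [smul_eq_mul] at hμ
    have h1 : μ ∈ (g * f).support := mem_support_iff.2 hμ
    have h2 := support_mul g f h1
    obtain ⟨ν, hν, κ, hκ, rfl⟩ := Finset.mem_add.1 h2
    exact hP κ ν (hf κ (mem_support_iff.1 hκ))

omit [DecidableEq V] in
private lemma mem_of_monomials (I : Ideal (T V K)) (f : T V K)
    (h : ∀ μ, coeff μ f ≠ 0 → (monomial μ (1 : K) : T V K) ∈ I) : f ∈ I := by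
  rw [f.as_sum]
  refine Ideal.sum_mem _ (fun μ hμ => ?_)
  have h1 : (monomial μ (coeff μ f) : T V K) = MvPolynomial.C (coeff μ f) * monomial μ (1 : K) := by
    rw [C_mul_monomial, mul_one]
  rw [h1]
  exact Ideal.mul_mem_left _ _ (h μ (mem_support_iff.1 hμ))

omit [DecidableEq V] [Fact p.Prime] in
private lemma Fr_nI_eq (C : Finset V) : Fr p (nI K C) =
    Ideal.span ((fun x : V × Bool => (X x : T V K) ^ p) '' {x : V × Bool | x.1 ∈ C}) := by
  unfold Fr nI
  rw [Ideal.map_span, Set.image_image]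
  congr 1
  refine Set.image_congr (fun x _ => ?_)
  exact expand_X p x

omit [DecidableEq V] [Fact p.Prime] in
private lemma X_pow_mem {C : Finset V} {x : V × Bool} (hx : x.1 ∈ C) :
    (X x : T V K) ^ p ∈ Fr p (nI K C) := by
  rw [Fr_nI_eq]
  exact Ideal.subset_span ⟨x, hx, rfl⟩

omit [DecidableEq V] in
private lemma monomial_split {μ : V × Bool →₀ ℕ} {x : V × Bool} {k : ℕ} (h : k ≤ μ x) :
    (monomial μ (1 : K) : T V K) = X x ^ k * monomial (μ - Finsupp.single x k) (1 : K) := by
  have : Finsupp.single x k ≤ μ := by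
    classical
    intro y
    rw [Finsupp.single_apply]
    split_ifs with hy
    · rw [← hy]; exact h
    · exact Nat.zero_le _
  rw [X_pow_eq_monomial, monomial_mul, mul_one, add_tsub_cancel_of_le this]

theorem mem_Fr_nI {C : Finset V} {f : T V K} : f ∈ Fr p (nI K C) ↔
    ∀ μ, coeff μ f ≠ 0 → ∃ c ∈ C, ∃ ε, p ≤ μ (c, ε) := by
  constructor
  · intro hf
    have hle : Fr p (nI K C) ≤ monoI K (fun μ => ∃ c ∈ C, ∃ ε, p ≤ μ (c, ε)) (by
        rintro μ ν ⟨c, hc, ε, h⟩
        refine ⟨c, hc, ε, ?_⟩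
        rw [Finsupp.add_apply]
        omega) := by
      rw [Fr_nI_eq, Ideal.span_le]
      rintro _ ⟨x, hx, rfl⟩ μ hμ
      refine ⟨x.1, hx, x.2, ?_⟩
      simp only [X_pow_eq_monomial] at hμ
      rw [coeff_monomial] at hμ
      split_ifs at hμ with h
      · rw [← h, Finsupp.single_eq_same]
      · exact absurd rfl hμ
    exact hle hf
  · intro h
    refine mem_of_monomials _ f (fun μ hμ => ?_)
    obtain ⟨c, hc, ε, hp⟩ := h μ hμ
    rw [monomial_split hp]
    exact Ideal.mul_mem_right _ _ (X_pow_mem p hc)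

omit [DecidableEq V] [Fact p.Prime] in
private lemma Fr_pow' (I : Ideal (T V K)) (n : ℕ) : Fr p (I ^ n) = Fr p I ^ n := by
  unfold Fr
  exact Ideal.map_pow _ _ _

omit [DecidableEq V] [Fact p.Prime] in
private lemma Fr_mul' (I J : Ideal (T V K)) : Fr p (I * J) = Fr p I * Fr p J := by
  unfold Fr
  exact Ideal.map_mul _ _ _

theorem mem_Fr_pow {o : V} {b : ℕ} {f : T V K} : f ∈ Fr p (nI K {o} ^ b) ↔
    ∀ μ, coeff μ f ≠ 0 → b ≤ μ (o, false) / p + μ (o, true) / p := by
  have hp : 0 < p := (Fact.out : p.Prime).pos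
  constructor
  · revert f
    induction b with
    | zero => intro f _ μ _; exact Nat.zero_le _
    | succ b ih =>
      intro f hf
      have hle : Fr p (nI K {o} ^ (b + 1)) ≤ monoI K
          (fun μ => b + 1 ≤ μ (o, false) / p + μ (o, true) / p) (by
            intro μ ν h
            rw [Finsupp.add_apply, Finsupp.add_apply]
            have h1 : μ (o, false) / p ≤ (ν (o, false) + μ (o, false)) / p :=
              Nat.div_le_div_right (Nat.le_add_left _ _)
            have h2 : μ (o, true) / p ≤ (ν (o, true) + μ (o, true)) / p :=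
              Nat.div_le_div_right (Nat.le_add_left _ _)
            exact h.trans (add_le_add h1 h2)) := by
        rw [pow_succ, Fr_mul', Ideal.mul_le]
        intro r hr s hs μ hμ
        have h1 : μ ∈ (r * s).support := mem_support_iff.2 hμ
        obtain ⟨ν, hν, κ, hκ, rfl⟩ := Finset.mem_add.1 (support_mul r s h1)
        have a1 := ih hr ν (mem_support_iff.1 hν)
        obtain ⟨c, hc, ε, h4⟩ := (mem_Fr_nI p).1 hs κ (mem_support_iff.1 hκ)
        rw [Finset.mem_singleton] at hc
        subst hc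
        have a2 : 1 ≤ κ (c, false) / p + κ (c, true) / p := by
          have : 1 ≤ κ (c, ε) / p := (Nat.one_le_div_iff hp).2 h4
          cases ε
          · exact this.trans (Nat.le_add_right _ _)
          · exact this.trans (Nat.le_add_left _ _)
        have h5 : ν (c, false) / p + κ (c, false) / p ≤ (ν (c, false) + κ (c, false)) / p :=
          Nat.div_add_div_le_add_div
        have h6 : ν (c, true) / p + κ (c, true) / p ≤ (ν (c, true) + κ (c, true)) / p :=
          Nat.div_add_div_le_add_div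
        show b + 1 ≤ (ν + κ) (c, false) / p + (ν + κ) (c, true) / p
        rw [Finsupp.add_apply, Finsupp.add_apply]
        omega
      exact hle hf
  · intro h
    refine mem_of_monomials _ f (fun μ hμ => ?_)
    have h1 := h μ hμ
    obtain ⟨s, t, hs, ht, hst⟩ : ∃ s t, s ≤ μ (o, false) / p ∧ t ≤ μ (o, true) / p ∧ s + t = b :=
      ⟨min b (μ (o, false) / p), b - min b (μ (o, false) / p), min_le_right _ _, by
        generalize μ (o, false) / p = u at h1 ⊢
        generalize μ (o, true) / p = v at h1 ⊢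
        omega, by omega⟩
    have hs' : p * s ≤ μ (o, false) :=
      (Nat.mul_le_mul_left p hs).trans (Nat.mul_div_le _ _)
    have ht' : p * t ≤ μ (o, true) :=
      (Nat.mul_le_mul_left p ht).trans (Nat.mul_div_le _ _)
    rw [monomial_split hs', monomial_split (μ := μ - Finsupp.single (o, false) (p * s))
      (x := (o, true)) (k := p * t) (by
        rw [Finsupp.tsub_apply, Finsupp.single_eq_of_ne (by simp)]
        simpa using ht')]
    rw [← mul_assoc]
    refine Ideal.mul_mem_right _ _ ?_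
    rw [pow_mul, pow_mul, Fr_pow', ← hst, pow_add]
    exact Ideal.mul_mem_mul (Ideal.pow_mem_pow (X_pow_mem p (Finset.mem_singleton_self o)) s)
      (Ideal.pow_mem_pow (X_pow_mem p (Finset.mem_singleton_self o)) t)

theorem mem_Fr_mul {C : Finset V} {o : V} (ho : o ∉ C) {b : ℕ} {f : T V K} :
    f ∈ Fr p (nI K C * nI K {o} ^ b) ↔
      ∀ μ, coeff μ f ≠ 0 → (∃ c ∈ C, ∃ ε, p ≤ μ (c, ε)) ∧ b ≤ μ (o, false) / p + μ (o, true) / p := by
  constructor
  · intro hf μ hμ
    rw [Fr_mul'] at hf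
    have h1 := Ideal.mul_le_inf hf
    exact ⟨(mem_Fr_nI p).1 h1.1 μ hμ, (mem_Fr_pow p).1 h1.2 μ hμ⟩
  · intro h
    refine mem_of_monomials _ f (fun μ hμ => ?_)
    obtain ⟨⟨c, hc, ε, hp⟩, hb⟩ := h μ hμ
    have hco : c ≠ o := fun h => ho (h ▸ hc)
    rw [monomial_split hp, Fr_mul']
    refine Ideal.mul_mem_mul (X_pow_mem p hc) ((mem_Fr_pow p).2 (fun ν hν => ?_))
    rw [coeff_monomial] at hν
    split_ifs at hν with h2
    · rw [← h2, Finsupp.tsub_apply, Finsupp.tsub_apply,
        Finsupp.single_eq_of_ne (by simp [Prod.ext_iff, hco.symm]),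
        Finsupp.single_eq_of_ne (by simp [Prod.ext_iff, hco.symm])]
      simpa using hb
    · exact absurd rfl hν

theorem Fs_nI_small {C : Finset V} {o : V} (ho : o ∉ C) (b : ℕ) {c : V} {d : V →₀ ℕ}
    (hd : d c ≤ p - 1) (w : ℤ) :
    Fs p (nI K C * nI K {o} ^ b) d w = Fs p (nI K (C.erase c) * nI K {o} ^ b) d w := by
  have hp : 0 < p := (Fact.out : p.Prime).pos
  have ho' : o ∉ C.erase c := fun h => ho (Finset.mem_of_mem_erase h)
  ext f
  unfold Fs
  rw [Submodule.mem_inf, Submodule.mem_inf, Submodule.restrictScalars_mem,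
    Submodule.restrictScalars_mem, mem_Fr_mul p ho, mem_Fr_mul p ho']
  constructor
  · rintro ⟨h1, h2⟩
    refine ⟨fun μ hμ => ?_, h2⟩
    obtain ⟨⟨x, hx, ε, h3⟩, h4⟩ := h1 μ hμ
    refine ⟨⟨x, Finset.mem_erase.2 ⟨?_, hx⟩, ε, h3⟩, h4⟩
    rintro rfl
    have h5 := ((mem_S_iff K).1 h2 μ hμ).1 x
    cases ε
    · omega
    · omega
  · rintro ⟨h1, h2⟩
    refine ⟨fun μ hμ => ?_, h2⟩
    obtain ⟨⟨x, hx, ε, h3⟩, h4⟩ := h1 μ hμ
    exact ⟨⟨x, Finset.mem_of_mem_erase hx, ε, h3⟩, h4⟩

omit [DecidableEq V] in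
theorem Fs_nI_big {C : Finset V} {v : V} {d : V →₀ ℕ} (hv : v ∈ C) (hd : 2 * p - 1 ≤ d v) (w : ℤ) :
    Fs p (nI K C) d w = S K d w := by
  classical
  have hp : 0 < p := (Fact.out : p.Prime).pos
  unfold Fs
  refine le_antisymm inf_le_right (fun f hf => ?_)
  refine Submodule.mem_inf.2 ⟨?_, hf⟩
  rw [Submodule.restrictScalars_mem, mem_Fr_nI]
  intro μ hμ
  have h5 := ((mem_S_iff K).1 hf μ hμ).1 v
  by_cases h : p ≤ μ (v, false)
  · exact ⟨v, hv, false, h⟩
  · exact ⟨v, hv, true, by omega⟩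

omit [DecidableEq V] [Fact p.Prime] in
theorem nI_mono {A B : Finset V} (h : A ⊆ B) : nI K A ≤ nI K B := by
  unfold nI
  exact Ideal.span_mono (Set.image_mono (fun x hx => h hx))

omit [DecidableEq V] [Fact p.Prime] in
theorem nI_empty : nI K (∅ : Finset V) = ⊥ := by
  unfold nI
  simp

end HKDet
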