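import Pool.Agent.Lib.HKDet.Defs

/-!
# Module NumA: the number `mlt p b d` (recursion, small cases, value at an entry `p - 1`)

`mlt p b d = swS (hM p b) d`, `hM j = cM (j+2) - 2 cM j + cM (j-2)`, `cM j = [p(b+2) ≤ j and 2p ∣ j - p b]`. `swS g d = ∑_{q ≤ d} g (|d| - 2|q|)` (`FSig/Rec1.lean`, `Rec2.lean`), `wm d w = swS [· = w] d`, `wm_symm` (`FSig/WmRec.lean`).

PROOFS.
* `mlt_rec`: `swS_rec`. `mlt_move`: `d i = 0`, `d j = 1`: `swS g d = swS g (d + e_i - e_j)`: `swS` only depends on the multiset of the entries: `swS_split` at `j` resp. at `i` (erase gives the same Finsupp).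
* `swS_symm`: `swS g d = swS (fun j => g (-j)) d`: `q ↦ d - q` (bijection of `Icc 0 d`; `|d| - 2|d - q| = -(|d| - 2|q|)`), as `wm_symm`.
* `mlt_small`: `|j| ≤ |d| ≤ p - 2` for all weights of `d`, and `hM j = 0` for `|j| ≤ p - 2` (`j + 2 ≤ p < p(b+2)`): for `d.degree ≤ p - 2` `mlt p b d = 0`. In particular `single v k`, `k ≤ p - 2`.
* `mlt_edge`: `d v = p - 1`, `e = d.erase v`, `N = p (b+1)`: `mlt p b d = wm e (N - 1) - wm e (N + 1)`. `swS_split` at `v`: the inner function is `∑_{x < p} hM (w - 2x)`, `w = j + p - 1`; with `Δ i = cM (i+2) - cM i` one has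
  `hM i = Δ i - Δ (i-2)`, so it telescopes to `Δ w - Δ (w - 2p) = (cM (w+2) - cM (w+2-2p)) - (cM w - cM (w-2p)) = [w + 2 = p(b+2)] - [w = p(b+2)]` (`cM i - cM (i - 2p) = [i = p(b+2)]`), i.e. `[j = N-1] - [j = N+1]`.
* `inv_edge`: `o ∉ supp e`, `D = p b + p - 1 = N - 1`: `invN (e + single o D) = wm e (N-1) - wm e (N+1)`: `swS_split` at `o`: `∑_{x ≤ D} hI (j + D - 2x)` telescopes to `[j + D = 0] - [j + D = 2(D+1)] = [j = -(N-1)] - [j = N+1]`
  (see the private lemma `rec2_telI` of `Rec2.lean`); `wm_symm`.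
* `mlt_eq_inv`: combination.
-/

namespace HKDet

open FSig Finset

variable {V : Type*} (p : ℕ)

private theorem numA_degree_sub {d q : V →₀ ℕ} (h : q ≤ d) :
    ((d - q).degree : ℤ) = (d.degree : ℤ) - (q.degree : ℤ) := by
  have h1 : (d.degree : ℤ) = ((q + (d - q)).degree : ℤ) := by rw [add_tsub_cancel_of_le h]
  rw [h1, map_add]
  push_cast
  ring

theorem swS_symm (g : ℤ → ℤ) (d : V →₀ ℕ) : swS g d = swS (fun j => g (-j)) d := by
  classical
  unfold swS
  refine Finset.sum_nbij' (fun q => d - q) (fun q => d - q) ?_ ?_ ?_ ?_ ?_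
  · intro q _
    rw [Finset.mem_Icc]
    exact ⟨zero_le, tsub_le_self⟩
  · intro q _
    rw [Finset.mem_Icc]
    exact ⟨zero_le, tsub_le_self⟩
  · intro q hq
    rw [Finset.mem_Icc] at hq
    exact tsub_tsub_cancel_of_le hq.2
  · intro q hq
    rw [Finset.mem_Icc] at hq
    exact tsub_tsub_cancel_of_le hq.2
  · intro q hq
    rw [Finset.mem_Icc] at hq
    rw [numA_degree_sub hq.2]
    show g _ = g _
    congr 1
    ring

theorem mlt_rec (b : ℕ) (d : V →₀ ℕ) {i j : V} (hij : i ≠ j) (hj : d j = 1) (hi : 1 ≤ d i) :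
    mlt p b d = mlt p b (d + Finsupp.single i 1 - Finsupp.single j 1)
      + mlt p b (d - Finsupp.single i 1 - Finsupp.single j 1) :=
  swS_rec (hM p b) d hij hj hi

private theorem numA_cM_zero (hp : 2 ≤ p) (b : ℕ) {j : ℤ} (hj : j ≤ p) : cM p b j = 0 := by
  unfold cM
  rw [if_neg]
  rintro ⟨h1, -⟩
  have h2 : (0 : ℤ) ≤ p * b := by positivity
  have h3 : (2 : ℤ) ≤ p := by exact_mod_cast hp
  have h4 : (p * (b + 2) : ℤ) = p * b + 2 * p := by ring
  rw [h4] at h1
  linarith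

theorem mlt_small (hp : 2 ≤ p) (b : ℕ) {d : V →₀ ℕ} (hd : d.degree ≤ p - 2) : mlt p b d = 0 := by
  classical
  unfold mlt swS
  refine Finset.sum_eq_zero fun q _ => ?_
  have h0 : (0 : ℤ) ≤ (q.degree : ℤ) := Int.natCast_nonneg _
  have h1 : (d.degree : ℤ) - 2 * (q.degree : ℤ) + 2 ≤ p := by
    have h2 : (d.degree : ℤ) + 2 ≤ p := by
      have : d.degree + 2 ≤ p := by omega
      exact_mod_cast this
    linarith
  unfold hM
  rw [numA_cM_zero p hp b h1, numA_cM_zero p hp b (by linarith),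
    numA_cM_zero p hp b (by linarith)]
  norm_num

private theorem numA_step (hp : 2 ≤ p) (b : ℕ) (i : ℤ) :
    cM p b i - cM p b (i - 2 * p) = if i = (p * (b + 2) : ℤ) then 1 else 0 := by
  have h3 : (2 : ℤ) ≤ p := by exact_mod_cast hp
  unfold cM
  have hdvd : ((2 * p : ℤ) ∣ i - 2 * p - p * b) ↔ ((2 * p : ℤ) ∣ i - p * b) := by
    have h4 : i - 2 * p - p * b = (i - p * b) - 2 * p := by ring
    rw [h4]
    exact dvd_sub_self_right
  by_cases hi : i = (p * (b + 2) : ℤ)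
  · rw [if_pos hi, if_pos, if_neg]
    · norm_num
    · rintro ⟨h1, -⟩
      rw [hi] at h1
      linarith
    · refine ⟨hi.ge, ⟨1, ?_⟩⟩
      rw [hi]
      ring
  · rw [if_neg hi]
    by_cases hd : (2 * p : ℤ) ∣ i - p * b
    · by_cases h1 : (p * (b + 2) : ℤ) ≤ i
      · have hq : (p * (b + 2) : ℤ) ≤ i - 2 * p := by
          obtain ⟨c, hc⟩ := hd
          -- `i - p b = 2 p c`, `c ≥ 1`, `c ≠ 1`
          have h5 : i = p * b + 2 * p * c := by linarith
          have h6 : 1 ≤ c := by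
            by_contra h7
            push Not at h7
            have h8 : c ≤ 0 := by omega
            have h9 : 2 * (p : ℤ) * c ≤ 0 := mul_nonpos_of_nonneg_of_nonpos (by linarith) h8
            nlinarith
          have h7 : c ≠ 1 := by
            intro h8
            apply hi
            rw [h5, h8]
            ring
          have h8 : 2 ≤ c := by omega
          nlinarith
        rw [if_pos ⟨h1, hd⟩, if_pos ⟨hq, hdvd.2 hd⟩]
        norm_num
      · rw [if_neg (fun h => h1 h.1), if_neg (fun h => h1 (by linarith [h.1]))]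
        norm_num
    · rw [if_neg (fun h => hd h.2), if_neg (fun h => hd (hdvd.1 h.2))]
      norm_num

private theorem numA_tel (hp : 2 ≤ p) (b : ℕ) (w : ℤ) :
    ∑ x ∈ range p, hM p b (w - 2 * (x : ℤ)) =
      (if w + 2 = (p * (b + 2) : ℤ) then 1 else 0) - (if w = (p * (b + 2) : ℤ) then 1 else 0) := by
  have h1 : ∀ x : ℕ, hM p b (w - 2 * (x : ℤ)) =
      (fun y : ℕ => cM p b (w - 2 * (y : ℤ) + 2) - cM p b (w - 2 * (y : ℤ))) x -
      (fun y : ℕ => cM p b (w - 2 * (y : ℤ) + 2) - cM p b (w - 2 * (y : ℤ))) (x + 1) := by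
    intro x
    unfold hM
    have h2 : w - 2 * ((x + 1 : ℕ) : ℤ) + 2 = w - 2 * (x : ℤ) := by
      push_cast
      ring
    have h3 : w - 2 * ((x + 1 : ℕ) : ℤ) = w - 2 * (x : ℤ) - 2 := by
      push_cast
      ring
    simp only [h2, h3]
    ring
  rw [Finset.sum_congr rfl fun x _ => h1 x, Finset.sum_range_sub']
  rw [← numA_step p hp b (w + 2), ← numA_step p hp b w]
  have h4 : w - 2 * ((0 : ℕ) : ℤ) + 2 = w + 2 := by push_cast; ring
  have h5 : w - 2 * ((0 : ℕ) : ℤ) = w := by push_cast; ring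
  have h6 : w - 2 * (p : ℤ) + 2 = w + 2 - 2 * p := by ring
  rw [h4, h5, h6]
  ring

private theorem numA_swS_sub (g h : ℤ → ℤ) (d : V →₀ ℕ) :
    swS (fun j => g j - h j) d = swS g d - swS h d := by
  classical
  unfold swS
  rw [Finset.sum_sub_distrib]

theorem mlt_edge (hp : 2 ≤ p) (b : ℕ) {d : V →₀ ℕ} {v : V} (hv : d v = p - 1) :
    mlt p b d = wm (d.erase v) (p * (b + 1) - 1) - wm (d.erase v) (p * (b + 1) + 1) := by
  have hp1 : 1 ≤ p := by omega
  have hc : ((p - 1 : ℕ) : ℤ) = (p : ℤ) - 1 := by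
    rw [Nat.cast_sub hp1]
    rfl
  unfold mlt
  rw [swS_split _ d v, hv, Nat.sub_add_cancel hp1, ← swS_sum, wm_swS, wm_swS, ← numA_swS_sub]
  congr 1
  funext j
  have h2 : ∀ x : ℕ, j + (((p - 1 : ℕ) : ℤ) - 2 * (x : ℤ)) =
      (j + ((p : ℤ) - 1)) - 2 * (x : ℤ) := by
    intro x
    rw [hc]
    ring
  rw [Finset.sum_congr rfl fun x _ => by rw [h2 x], numA_tel p hp b]
  have h3 : (j + ((p : ℤ) - 1) + 2 = (p * (b + 2) : ℤ)) ↔ (j = (p * (b + 1) - 1 : ℤ)) := by
    constructor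
    · intro h
      linarith
    · intro h
      linarith
  have h4 : (j + ((p : ℤ) - 1) = (p * (b + 2) : ℤ)) ↔ (j = (p * (b + 1) + 1 : ℤ)) := by
    constructor
    · intro h
      linarith
    · intro h
      linarith
  simp only [h3, h4]

private theorem numA_telI (n : ℕ) (w : ℤ) :
    ∑ x ∈ range n, hI (w - 2 * (x : ℤ)) =
      (if w = 0 then 1 else 0) - (if w - 2 * (n : ℤ) = 0 then 1 else 0) := by
  have h1 : ∀ x : ℕ, hI (w - 2 * (x : ℤ)) =
      (fun y : ℕ => (if w - 2 * (y : ℤ) = 0 then (1 : ℤ) else 0)) x -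
      (fun y : ℕ => (if w - 2 * (y : ℤ) = 0 then (1 : ℤ) else 0)) (x + 1) := by
    intro x
    unfold hI
    have h2 : (w - 2 * (x : ℤ) = 2) ↔ (w - 2 * ((x + 1 : ℕ) : ℤ) = 0) := by
      push_cast
      constructor
      · intro h
        linarith
      · intro h
        linarith
    simp only [h2]
  rw [Finset.sum_congr rfl fun x _ => h1 x, Finset.sum_range_sub']
  rw [Nat.cast_zero, mul_zero, sub_zero]

theorem inv_edge (hp : 2 ≤ p) (b : ℕ) {e : V →₀ ℕ} {o : V} (ho : e o = 0) :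
    invN (e + Finsupp.single o (p * b + (p - 1))) = wm e (p * (b + 1) - 1) - wm e (p * (b + 1) + 1) := by
  have hp1 : 1 ≤ p := by omega
  have hc : ((p * b + (p - 1) : ℕ) : ℤ) = (p * (b + 1) : ℤ) - 1 := by
    rw [Nat.cast_add, Nat.cast_sub hp1]
    push_cast
    ring
  have h1 : (e + Finsupp.single o (p * b + (p - 1))) o = p * b + (p - 1) := by
    rw [Finsupp.add_apply, Finsupp.single_eq_same, ho, zero_add]
  have h2 : (e + Finsupp.single o (p * b + (p - 1))).erase o = e := by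
    ext w
    by_cases hw : w = o
    · rw [hw, Finsupp.erase_same, ho]
    · rw [Finsupp.erase_ne hw, Finsupp.add_apply, Finsupp.single_eq_of_ne hw, add_zero]
  rw [invN_swS, swS_split _ _ o, h1, h2, ← swS_sum, ← wm_symm e (p * (b + 1) - 1), wm_swS, wm_swS,
    ← numA_swS_sub]
  congr 1
  funext j
  have h3 : ∀ x : ℕ, j + (((p * b + (p - 1) : ℕ) : ℤ) - 2 * (x : ℤ)) =
      (j + ((p * (b + 1) : ℤ) - 1)) - 2 * (x : ℤ) := by
    intro x
    rw [hc]
    ring
  rw [Finset.sum_congr rfl fun x _ => by rw [h3 x], numA_telI]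
  have h4 : (j + ((p * (b + 1) : ℤ) - 1) = 0) ↔ (j = -(p * (b + 1) - 1 : ℤ)) := by
    constructor
    · intro h
      linarith
    · intro h
      linarith
  have h5 : (j + ((p * (b + 1) : ℤ) - 1) - 2 * ((p * b + (p - 1) + 1 : ℕ) : ℤ) = 0) ↔
      (j = (p * (b + 1) + 1 : ℤ)) := by
    rw [Nat.cast_add (p * b + (p - 1)) 1, hc, Nat.cast_one]
    constructor
    · intro h
      linarith
    · intro h
      linarith
  simp only [h4, h5]

theorem mlt_eq_inv (hp : 2 ≤ p) (b : ℕ) {d : V →₀ ℕ} {v o : V} (hv : d v = p - 1) (hvo : v ≠ o)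
    (ho : d o = 0) :
    mlt p b d = invN (d.erase v + Finsupp.single o (p * b + (p - 1))) := by
  rw [mlt_edge p hp b hv, inv_edge p hp b]
  rw [Finsupp.erase_ne hvo.symm, ho]

end HKDet
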