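import Pool.Agent.Lib.HKDet.HC
import Pool.Agent.Lib.HKDet.MgA
import Pool.Agent.Lib.HKDet.MonI
import Pool.Agent.Lib.HKDet.Gd
import Pool.Agent.Lib.HKDet.NumA

/-!
# Module BA: the pieces `S_d ⊗ S^b V^(1)` with an entry `d v = p - 1`

`o ≠ v`, `d o = 0`, `d v = p - 1`, `J = nI {o}^b`, `d₁ = d + single o (p b)`, `d₂ = d.erase v + single o (p b + (p-1))`.
* `piece_edge`: `tt ⊥ J d₁ = tt ⊥ ⊤ d₂`, `rr ⊥ J d₁ = rr ⊥ ⊤ d₂`: `transport` (module TR) with `θ = mg o v` (merge `v` into `o`, module RnE), `P = ⊥`, `Q = J`, `P' = ⊥`, `Q' = ⊤` (`Fs_bot`, `Fs_top`).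
  - a monomial of `x ∈ Fs J d₁ w` has exponents `(s, t)` at `o` with `s + t = p b` and `s/p + t/p ≥ b` (`mem_Fr_pow`), so `p ∣ s`, `p ∣ t`; exponents `(α, β)` at `v`, `α + β = p - 1`. Its image has exponents `(s+α, t+β)` at `o`, `(0,0)` at `v`, degree `d₂`.
    `θ` is injective on these monomials: `α = (s+α) % p`, `β = (t+β) % p`. So `θ x = 0 ⟹ x = 0` (the coefficient of `θ x` at the image of `μ` is the coefficient of `x` at `μ`; `coeff_rename`-type lemma or `Finsupp.mapDomain` injective on a set:
    `Finsupp.mapDomain_injOn`).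
  - surjective: a monomial of degree `d₂` has exponents `(S, T)` at `o`, `S + T = p b + p - 1`; `S % p + T % p` is `= p - 1` mod `p` and `≤ 2p-2`, so it is `p - 1`; take `α = S % p`, `β = T % p`, `s = S - α`, `t = T - β`. Use `S_induction`.
  - `E k`, `F k` commute exactly (`E_rn`, `F_rn`).
* `tt_edge`, `rr_edge`: `d₂ o + 1 = p (b+1)`: `tt_eq_rr` (HC), `rr_SS` (HB) with the vector `o`, so both are `invN d₂`, and `mlt_eq_inv` (NumA). (`d₂.degree = d.degree + p b`.)
-/

namespace HKDet

open MvPolynomial FSig Finset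

private theorem BA_pos (p : ℕ) [Fact p.Prime] : 0 < p := (Fact.out : p.Prime).pos

private theorem BA_md {V : Type*} [DecidableEq V] {v o : V} (hvo : v ≠ o) (μ : V × Bool →₀ ℕ) (ε : Bool) :
    μ.mapDomain (Prod.map (Function.update id v o) id) (o, ε) = μ (o, ε) + μ (v, ε) ∧
    μ.mapDomain (Prod.map (Function.update id v o) id) (v, ε) = 0 ∧
    ∀ u, u ≠ o → u ≠ v → μ.mapDomain (Prod.map (Function.update id v o) id) (u, ε) = μ (u, ε) := by
  induction μ using Finsupp.induction_linear with
  | zero => simp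
  | add f g hf hg =>
    obtain ⟨f1, f2, f3⟩ := hf
    obtain ⟨g1, g2, g3⟩ := hg
    refine ⟨?_, ?_, fun u hu hu' => ?_⟩
    · rw [Finsupp.mapDomain_add, Finsupp.add_apply, f1, g1, Finsupp.add_apply, Finsupp.add_apply]
      omega
    · rw [Finsupp.mapDomain_add, Finsupp.add_apply, f2, g2]
    · rw [Finsupp.mapDomain_add, Finsupp.add_apply, f3 u hu hu', g3 u hu hu', Finsupp.add_apply]
  | single y n =>
    obtain ⟨y, ε'⟩ := y
    rw [Finsupp.mapDomain_single]
    have h1 : Prod.map (Function.update id v o) id (y, ε') = (Function.update id v o y, ε') := rfl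
    rw [h1]
    by_cases hy : y = v
    · subst hy
      rw [Function.update_self]
      refine ⟨?_, ?_, fun u hu hu' => ?_⟩
      · by_cases he : ε' = ε
        · subst he
          have e2 : ¬ ((y, ε') = (o, ε')) := fun h => hvo (congrArg Prod.fst h)
          simp [Finsupp.single_apply, hvo]
        · simp [Finsupp.single_apply, he]
      · have e2 : ¬ (o = y) := fun h => hvo h.symm
        simp [Finsupp.single_apply, e2]
      · have e2 : ¬ (o = u) := fun h => hu h.symm
        have e3 : ¬ (y = u) := fun h => hu' h.symm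
        simp [Finsupp.single_apply, e2, e3]
    · rw [Function.update_of_ne hy, id]
      refine ⟨?_, ?_, fun u hu hu' => rfl⟩
      · have e2 : Finsupp.single (y, ε') n (v, ε) = 0 := by
          rw [Finsupp.single_apply, if_neg]
          exact fun h => hy (congrArg Prod.fst h)
        rw [e2, add_zero]
      · rw [Finsupp.single_apply, if_neg]
        exact fun h => hy (congrArg Prod.fst h)

private theorem BA_mdV {V : Type*} [DecidableEq V] {v o : V} (hvo : v ≠ o) (μ : V →₀ ℕ) :
    μ.mapDomain (Function.update id v o) o = μ o + μ v ∧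
    μ.mapDomain (Function.update id v o) v = 0 ∧
    ∀ u, u ≠ o → u ≠ v → μ.mapDomain (Function.update id v o) u = μ u := by
  induction μ using Finsupp.induction_linear with
  | zero => simp
  | add f g hf hg =>
    obtain ⟨f1, f2, f3⟩ := hf
    obtain ⟨g1, g2, g3⟩ := hg
    refine ⟨?_, ?_, fun u hu hu' => ?_⟩
    · rw [Finsupp.mapDomain_add, Finsupp.add_apply, f1, g1, Finsupp.add_apply, Finsupp.add_apply]
      omega
    · rw [Finsupp.mapDomain_add, Finsupp.add_apply, f2, g2]
    · rw [Finsupp.mapDomain_add, Finsupp.add_apply, f3 u hu hu', g3 u hu hu', Finsupp.add_apply]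
  | single y n =>
    rw [Finsupp.mapDomain_single]
    by_cases hy : y = v
    · subst hy
      rw [Function.update_self]
      refine ⟨?_, ?_, fun u hu hu' => ?_⟩
      · simp [Finsupp.single_apply, hvo]
      · have e2 : ¬ (o = y) := fun h => hvo h.symm
        simp [Finsupp.single_apply, e2]
      · have e2 : ¬ (o = u) := fun h => hu h.symm
        have e3 : ¬ (y = u) := fun h => hu' h.symm
        simp [Finsupp.single_apply, e2, e3]
    · rw [Function.update_of_ne hy, id]
      refine ⟨?_, ?_, fun u hu hu' => rfl⟩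
      · have e2 : Finsupp.single y n v = 0 := by
          rw [Finsupp.single_apply, if_neg hy]
        rw [e2, add_zero]
      · rw [Finsupp.single_apply, if_neg hy]

private theorem BA_inj {V : Type*} [DecidableEq V] (p : ℕ) (hp : 0 < p) {v o : V} (hvo : v ≠ o) (b : ℕ)
    {μ ν : V × Bool →₀ ℕ}
    (h : μ.mapDomain (Prod.map (Function.update id v o) id) =
      ν.mapDomain (Prod.map (Function.update id v o) id))
    (a1 : μ (o, false) + μ (o, true) = p * b) (a2 : μ (v, false) + μ (v, true) = p - 1)
    (a3 : b ≤ μ (o, false) / p + μ (o, true) / p)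
    (b1 : ν (o, false) + ν (o, true) = p * b) (b2 : ν (v, false) + ν (v, true) = p - 1)
    (b3 : b ≤ ν (o, false) / p + ν (o, true) / p) : μ = ν := by
  have key : ∀ s t : ℕ, s + t = p * b → b ≤ s / p + t / p → p ∣ s ∧ p ∣ t := by
    intro s t h1 h2
    have e1 := Nat.div_add_mod s p
    have e2 := Nat.div_add_mod t p
    have e3 := Nat.mul_le_mul_left p h2
    rw [Nat.mul_add] at e3
    exact ⟨Nat.dvd_of_mod_eq_zero (by omega), Nat.dvd_of_mod_eq_zero (by omega)⟩
  have hv1 : ∀ ε, μ (v, ε) = ν (v, ε) ∧ μ (o, ε) = ν (o, ε) := by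
    intro ε
    have e1 := (BA_md hvo μ ε).1
    have e2 := (BA_md hvo ν ε).1
    rw [h] at e1
    have e3 : μ (o, ε) + μ (v, ε) = ν (o, ε) + ν (v, ε) := by rw [← e1, ← e2]
    have e4 : p ∣ μ (o, ε) := by
      cases ε
      · exact (key _ _ a1 a3).1
      · exact (key _ _ a1 a3).2
    have e5 : p ∣ ν (o, ε) := by
      cases ε
      · exact (key _ _ b1 b3).1
      · exact (key _ _ b1 b3).2
    have e6 : μ (v, ε) < p := by cases ε <;> omega
    have e7 : ν (v, ε) < p := by cases ε <;> omega
    have e8 : (μ (o, ε) + μ (v, ε)) % p = μ (v, ε) := by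
      obtain ⟨c, hc⟩ := e4
      rw [hc, Nat.mul_add_mod, Nat.mod_eq_of_lt e6]
    have e9 : (ν (o, ε) + ν (v, ε)) % p = ν (v, ε) := by
      obtain ⟨c, hc⟩ := e5
      rw [hc, Nat.mul_add_mod, Nat.mod_eq_of_lt e7]
    have e10 : μ (v, ε) = ν (v, ε) := by rw [← e8, ← e9, e3]
    exact ⟨e10, by omega⟩
  ext ⟨u, ε⟩
  by_cases hu : u = o
  · rw [hu]
    exact (hv1 ε).2
  · by_cases hu' : u = v
    · rw [hu']
      exact (hv1 ε).1
    · rw [← (BA_md hvo μ ε).2.2 u hu hu', ← (BA_md hvo ν ε).2.2 u hu hu', h]

variable {V : Type*} [DecidableEq V] {K : Type*} [Field K] (p : ℕ) [Fact p.Prime] [CharP K p]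
  {d : V →₀ ℕ} {v o : V} (hvo : v ≠ o) (ho : d o = 0) (hv : d v = p - 1) (b : ℕ)
include hvo ho hv

omit [Fact p.Prime] in
private theorem BA_deg : (d + Finsupp.single o (p * b)).mapDomain (Function.update id v o) =
    d.erase v + Finsupp.single o (p * b + (p - 1)) := by
  obtain ⟨h1, h2, h3⟩ := BA_mdV hvo (d + Finsupp.single o (p * b))
  ext u
  by_cases hu : u = o
  · subst hu
    rw [h1, Finsupp.add_apply, Finsupp.add_apply, Finsupp.add_apply, Finsupp.erase_ne hvo.symm,
      Finsupp.single_eq_same, Finsupp.single_eq_same, ho, hv, Finsupp.single_apply, if_neg hvo.symm]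
    omega
  · by_cases hu' : u = v
    · subst hu'
      rw [h2, Finsupp.add_apply, Finsupp.erase_same, Finsupp.single_apply, if_neg hvo.symm,
        add_zero]
    · rw [h3 u hu hu', Finsupp.add_apply, Finsupp.add_apply, Finsupp.erase_ne hu',
        Finsupp.single_apply, Finsupp.single_apply, if_neg (Ne.symm hu), if_neg (Ne.symm hu)]

private theorem BA_zero {w : ℤ} {x : T V K} (hx : x ∈ Fs p (nI K {o} ^ b) (d + Finsupp.single o (p * b)) w)
    (h0 : mg K o v x = 0) : x = 0 := by
  obtain ⟨hx1, hx2⟩ := hx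
  have hx1' : x ∈ Fr p (nI K {o} ^ b) := hx1
  rw [mem_Fr_pow] at hx1'
  have hx2' := (mem_S_iff K).1 hx2
  by_contra hne
  obtain ⟨μ, hμ⟩ := MvPolynomial.ne_zero_iff.1 hne
  apply hμ
  have e1 : mg K o v x = ∑ ν ∈ x.support,
      monomial (ν.mapDomain (Prod.map (Function.update id v o) id)) (coeff ν x) := by
    conv_lhs => rw [x.as_sum]
    rw [map_sum]
    refine Finset.sum_congr rfl fun ν _ => ?_
    unfold mg rn
    rw [rename_monomial]
  have e2 := congrArg (coeff (μ.mapDomain (Prod.map (Function.update id v o) id))) e1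
  rw [h0, coeff_zero, coeff_sum] at e2
  have cond : ∀ ν, coeff ν x ≠ 0 → ν (o, false) + ν (o, true) = p * b ∧
      ν (v, false) + ν (v, true) = p - 1 ∧ b ≤ ν (o, false) / p + ν (o, true) / p := by
    intro ν hν
    obtain ⟨c1, -⟩ := hx2' ν hν
    refine ⟨?_, ?_, hx1' ν hν⟩
    · rw [c1 o, Finsupp.add_apply, ho, Finsupp.single_eq_same, zero_add]
    · rw [c1 v, Finsupp.add_apply, hv, Finsupp.single_apply, if_neg hvo.symm, add_zero]
  rw [Finset.sum_eq_single μ] at e2
  · rw [coeff_monomial, if_pos rfl] at e2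
    exact e2.symm
  · intro ν hν hne'
    rw [coeff_monomial, if_neg]
    intro heq
    apply hne'
    obtain ⟨a1, a2, a3⟩ := cond ν (mem_support_iff.1 hν)
    obtain ⟨b1, b2, b3⟩ := cond μ hμ
    exact BA_inj p (BA_pos p) hvo b heq a1 a2 a3 b1 b2 b3
  · intro hν
    rw [coeff_monomial, if_pos rfl]
    exact notMem_support_iff.1 hν

private theorem BA_surj {w : ℤ} {y : T V K}
    (hy : y ∈ S K (d.erase v + Finsupp.single o (p * b + (p - 1))) w) :
    ∃ x ∈ Fs p (nI K {o} ^ b) (d + Finsupp.single o (p * b)) w, mg K o v x = y := by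
  have hp : 0 < p := BA_pos p
  refine S_induction K (fun y => ∃ x ∈ Fs p (nI K {o} ^ b) (d + Finsupp.single o (p * b)) w,
    mg K o v x = y) ?_ ?_ ?_ hy
  · exact ⟨0, Submodule.zero_mem _, map_zero _⟩
  · rintro f g ⟨x, hx, rfl⟩ ⟨x', hx', rfl⟩
    exact ⟨x + x', Submodule.add_mem _ hx hx', map_add _ _ _⟩
  · intro μ' c hμ' hw
    -- exponents
    have hS : μ' (o, false) + μ' (o, true) = p * b + (p - 1) := by
      rw [hμ' o, Finsupp.add_apply, Finsupp.erase_ne hvo.symm, ho, Finsupp.single_eq_same, zero_add]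
    have hV : μ' (v, false) + μ' (v, true) = 0 := by
      rw [hμ' v, Finsupp.add_apply, Finsupp.erase_same, Finsupp.single_apply, if_neg hvo.symm,
        add_zero]
    have d1 := Nat.div_add_mod (μ' (o, false)) p
    have d2 := Nat.div_add_mod (μ' (o, true)) p
    have m1 := Nat.mod_lt (μ' (o, false)) hp
    have m2 := Nat.mod_lt (μ' (o, true)) hp
    have hk : μ' (o, false) / p + μ' (o, true) / p = b := by
      rcases lt_trichotomy (μ' (o, false) / p + μ' (o, true) / p) b with h | h | h
      · have h1 := Nat.mul_le_mul_left p (Nat.succ_le_of_lt h)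
        rw [Nat.succ_eq_add_one, Nat.mul_add, Nat.mul_add, mul_one] at h1
        omega
      · exact h
      · have h1 := Nat.mul_le_mul_left p (Nat.succ_le_of_lt h)
        rw [Nat.succ_eq_add_one, Nat.mul_add, Nat.mul_add, mul_one] at h1
        omega
    have hpk : p * (μ' (o, false) / p) + p * (μ' (o, true) / p) = p * b := by
      rw [← Nat.mul_add, hk]
    have hab : μ' (o, false) % p + μ' (o, true) % p = p - 1 := by omega
    set α := μ' (o, false) % p with hα
    set β := μ' (o, true) % p with hβ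
    have hovT : ∀ ε ε' : Bool, ((o, ε) : V × Bool) ≠ (v, ε') := fun ε ε' h =>
      hvo (congrArg Prod.fst h).symm
    have hvoT : ∀ ε ε' : Bool, ((v, ε) : V × Bool) ≠ (o, ε') := fun ε ε' h =>
      hvo (congrArg Prod.fst h)
    set μ : V × Bool →₀ ℕ := μ' - Finsupp.single (o, false) α - Finsupp.single (o, true) β +
      (Finsupp.single (v, false) α + Finsupp.single (v, true) β) with hμdef
    have v1 : μ (o, false) = μ' (o, false) - α := by
      simp only [hμdef, Finsupp.add_apply, Finsupp.tsub_apply, Finsupp.single_apply,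
        if_neg (hvoT _ _)]
      simp
    have v2 : μ (o, true) = μ' (o, true) - β := by
      simp only [hμdef, Finsupp.add_apply, Finsupp.tsub_apply, Finsupp.single_apply,
        if_neg (hvoT _ _)]
      simp
    have v3 : μ (v, false) = α := by
      have h0 : μ' (v, false) = 0 := by omega
      simp only [hμdef, Finsupp.add_apply, Finsupp.tsub_apply, Finsupp.single_apply,
        if_neg (hovT _ _), h0]
      simp
    have v4 : μ (v, true) = β := by
      have h0 : μ' (v, true) = 0 := by omega
      simp only [hμdef, Finsupp.add_apply, Finsupp.tsub_apply, Finsupp.single_apply,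
        if_neg (hovT _ _), h0]
      simp
    have v5 : ∀ u ε, u ≠ o → u ≠ v → μ (u, ε) = μ' (u, ε) := by
      intro u ε hu hu'
      have e1 : ∀ ε', ((o, ε') : V × Bool) ≠ (u, ε) := fun ε' h => hu (congrArg Prod.fst h).symm
      have e2 : ∀ ε', ((v, ε') : V × Bool) ≠ (u, ε) := fun ε' h => hu' (congrArg Prod.fst h).symm
      simp only [hμdef, Finsupp.add_apply, Finsupp.tsub_apply, Finsupp.single_apply,
        if_neg (e1 _), if_neg (e2 _)]
      simp
    have hmd : μ.mapDomain (Prod.map (Function.update id v o) id) = μ' := by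
      ext ⟨u, ε⟩
      obtain ⟨h1, h2, h3⟩ := BA_md hvo μ ε
      by_cases hu : u = o
      · subst hu
        rw [h1]
        cases ε
        · rw [v1, v3]
          omega
        · rw [v2, v4]
          omega
      · by_cases hu' : u = v
        · subst hu'
          rw [h2]
          cases ε <;> omega
        · rw [h3 u hu hu', v5 u ε hu hu']
    have hdeg : ∀ u, μ (u, false) + μ (u, true) = (d + Finsupp.single o (p * b)) u := by
      intro u
      by_cases hu : u = o
      · subst hu
        rw [v1, v2, Finsupp.add_apply, ho, Finsupp.single_eq_same]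
        omega
      · by_cases hu' : u = v
        · subst hu'
          rw [v3, v4, Finsupp.add_apply, hv, Finsupp.single_apply, if_neg (Ne.symm hu)]
          omega
        · rw [v5 u _ hu hu', v5 u _ hu hu', hμ' u, Finsupp.add_apply, Finsupp.add_apply,
            Finsupp.erase_ne hu', Finsupp.single_apply, Finsupp.single_apply, if_neg (Ne.symm hu),
            if_neg (Ne.symm hu)]
    have hmono : ∀ c : K, mg K o v (monomial μ c) = monomial μ' c := by
      intro c
      unfold mg rn
      rw [rename_monomial, hmd]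
    have hwt : wtm μ = w := by
      have h1 : (monomial μ (1 : K) : T V K) ∈ S K (d + Finsupp.single o (p * b)) (wtm μ) :=
        monomial_mem_S K 1 hdeg rfl
      have h2 := rn_mem_S (Function.update id v o) h1
      have h3 : rn K (Function.update id v o) (monomial μ (1 : K)) = monomial μ' 1 := hmono 1
      rw [h3] at h2
      have h4 := ((mem_S_iff K).1 h2 μ' (by rw [coeff_monomial, if_pos rfl]; exact one_ne_zero)).2
      rw [← h4, hw]
    refine ⟨monomial μ c, ⟨?_, monomial_mem_S K c hdeg hwt⟩, hmono c⟩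
    show monomial μ c ∈ Fr p (nI K {o} ^ b)
    rw [mem_Fr_pow]
    intro ν hν
    rw [coeff_monomial] at hν
    have hνμ : μ = ν := by
      by_contra hne
      rw [if_neg hne] at hν
      exact hν rfl
    rw [← hνμ, v1, v2]
    have e1 : (μ' (o, false) - α) / p = μ' (o, false) / p := by
      have : μ' (o, false) - α = p * (μ' (o, false) / p) := by omega
      rw [this, Nat.mul_div_cancel_left _ hp]
    have e2 : (μ' (o, true) - β) / p = μ' (o, true) / p := by
      have : μ' (o, true) - β = p * (μ' (o, true) / p) := by omega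
      rw [this, Nat.mul_div_cancel_left _ hp]
    rw [e1, e2, hk]

theorem piece_edge :
    tt p (⊥ : Ideal (T V K)) (nI K {o} ^ b) (d + Finsupp.single o (p * b)) =
      tt p (⊥ : Ideal (T V K)) ⊤ (d.erase v + Finsupp.single o (p * b + (p - 1))) ∧
    rr p (⊥ : Ideal (T V K)) (nI K {o} ^ b) (d + Finsupp.single o (p * b)) =
      rr p (⊥ : Ideal (T V K)) ⊤ (d.erase v + Finsupp.single o (p * b + (p - 1))) := by
  refine transport p bot_le bot_le ((good_nI {o}).pow b) good_bot good_top (mg K o v).toLinearMap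
    ?_ ?_ ?_ ?_ ?_
  · intro w x hx
    rw [Fs_top]
    have h1 := rn_mem_S (Function.update id v o) hx.2
    rw [BA_deg p hvo ho hv b] at h1
    exact h1
  · intro w y hy
    rw [Fs_top] at hy
    obtain ⟨x, hx, hxy⟩ := BA_surj p hvo ho hv b hy
    refine ⟨x, hx, ?_⟩
    have h1 : (mg K o v).toLinearMap x = y := hxy
    rw [h1, sub_self]
    exact Submodule.zero_mem _
  · intro x hx
    rw [Fs_bot, Fs_bot, Submodule.mem_bot, Submodule.mem_bot]
    constructor
    · intro h
      exact BA_zero p hvo ho hv b hx h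
    · rintro rfl
      exact map_zero _
  · intro k w x hx
    have h1 : (mg K o v).toLinearMap (E K k x) = E K k ((mg K o v).toLinearMap x) :=
      (E_rn (Function.update id v o) k x).symm
    rw [h1, sub_self]
    exact Submodule.zero_mem _
  · intro k w x hx
    have h1 : (mg K o v).toLinearMap (F K k x) = F K k ((mg K o v).toLinearMap x) :=
      (F_rn (Function.update id v o) k x).symm
    rw [h1, sub_self]
    exact Submodule.zero_mem _

omit [Fact p.Prime] in
private theorem BA_degree (hp : 0 < p) :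
    (d.erase v + Finsupp.single o (p * b + (p - 1))).degree = d.degree + p * b := by
  have h1 : d.degree = (d.erase v).degree + d v := by
    conv_lhs => rw [← Finsupp.erase_add_single v d]
    rw [map_add, Finsupp.degree_single]
  rw [map_add, Finsupp.degree_single, h1, hv]
  omega

private theorem BA_rr (hd : d.degree + p * b < 2 * p * (p - 1)) :
    rr p (⊥ : Ideal (T V K)) ⊤ (d.erase v + Finsupp.single o (p * b + (p - 1))) = mlt p b d := by
  have hp : 0 < p := BA_pos p
  have hp2 : 2 ≤ p := (Fact.out : p.Prime).two_le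
  have hdeg := BA_degree p hvo ho hv b hp
  have ho' : (d.erase v + Finsupp.single o (p * b + (p - 1))) o = p * b + (p - 1) := by
    rw [Finsupp.add_apply, Finsupp.erase_ne hvo.symm, ho, Finsupp.single_eq_same, zero_add]
  rw [rr_SS p (v := o) (by rw [ho']; omega) (by rw [hdeg]; exact hd)]
  exact (mlt_eq_inv p hp2 b hv hvo ho).symm

theorem tt_edge (hd : d.degree + p * b < 2 * p * (p - 1)) :
    tt p (⊥ : Ideal (T V K)) (nI K {o} ^ b) (d + Finsupp.single o (p * b)) = mlt p b d := by
  have hp : 0 < p := BA_pos p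
  have hdeg := BA_degree p hvo ho hv b hp
  have ho' : (d.erase v + Finsupp.single o (p * b + (p - 1))) o = p * b + (p - 1) := by
    rw [Finsupp.add_apply, Finsupp.erase_ne hvo.symm, ho, Finsupp.single_eq_same, zero_add]
  rw [(piece_edge p hvo ho hv b).1, tt_eq_rr p (l := o) bot_le good_bot good_top ?_
    (by rw [hdeg]; exact hd), BA_rr p hvo ho hv b hd]
  rw [ho']
  exact ⟨b + 1, by rw [Nat.mul_add, mul_one]; omega⟩

theorem rr_edge (hd : d.degree + p * b < 2 * p * (p - 1)) :
    rr p (⊥ : Ideal (T V K)) (nI K {o} ^ b) (d + Finsupp.single o (p * b)) = mlt p b d := by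
  rw [(piece_edge p hvo ho hv b).2, BA_rr p hvo ho hv b hd]

end HKDet
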