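import Pool.Agent.Lib.HKDet.TR
import Pool.Agent.Lib.HKDet.MonI
import Pool.Agent.Lib.HKDet.Gd

/-!
# Module BB: the pieces `L(k) ⊗ S^b V^(1)`, `k ≤ p - 2`

`v ≠ o`, `k ≤ p-2`, `J = nI {o}^b`, `d = single v k + single o (p b)`, `k + p b < 2p(p-1)`.
* weight `0` part: a monomial of `Fs J d 0` has exponents `(s, t)` at `v`, `s + t = k`, and `(p i, p (b-i))` at `o` (`mem_Fr_pow`: `s' + t' = p b`, `s'/p + t'/p ≥ b`), weight `s - t + p (2i - b) = 0`; `|s - t| ≤ k < p` so `2 i = b`, `s = t`. So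
  `Fs J d 0 = 0` unless `b` and `k` are even, and then it is the line spanned by `m = (a_v b_v)^(k/2) (a_o b_o)^(p b/2)`.
* `k ≥ 2` even, `b = 2i`: `E 1 (a_v^(k/2-1) b_v^(k/2+1) (a_o b_o)^(p i)) = (k/2+1) m` (`E 1` kills `p`-th powers), `1 ≤ k/2 + 1 < p`, the argument is in `Fs J d (-2)`: so `m ∈ gS J d` and `tt ⊥ J d = 0`.
* `k = 0`, `b = 2i ≥ 2`: `E p (a_o^(p(i-1)) b_o^(p(i+1))) = (i+1) a_o^(p i) b_o^(p i)` (`E_expand`: `= expand p (E 1 (a_o^(i-1) b_o^(i+1)))`), `i + 1 < p` because `2 p i = p b < 2p(p-1)`: `m ∈ gS J d`, `tt = 0`.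
* `k = 0`, `b = 0`: `d = 0`: `Fs ⊤ 0 0 = S 0 0` is the line of constants, `gS ⊤ 0 = ⊥` (`S 0 w = ⊥` for `w ≠ 0`, `S_eq_bot`): `tt = 1`; `NrmL 1 = 0` (`Lam 1 = 0`: `E (p-1) 1 = 0`, `p - 1 ≥ 1`; for `p = 2` as well): `rr = 0`.
* `rr ≤ tt` and `rr ≥ 0` give `rr = 0` in the other cases (`rr_le_tt`, `rr_nonneg`).
-/

namespace HKDet

open MvPolynomial FSig Finset

section aux

variable {V : Type*} {K : Type*} [Field K] (p : ℕ)

private lemma bb_wtm_add (μ ν : V × Bool →₀ ℕ) : wtm (μ + ν) = wtm μ + wtm ν := by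
  unfold wtm
  classical
  rw [Finsupp.sum_add_index']
  · intro x
    split_ifs <;> simp
  · intro x m n
    split_ifs
    · push_cast
      ring
    · push_cast
      ring

private lemma bb_wtm_single (x : V × Bool) (n : ℕ) :
    wtm (Finsupp.single x n) = if x.2 then -(n : ℤ) else (n : ℤ) := by
  unfold wtm
  rw [Finsupp.sum_single_index]
  split_ifs <;> simp

/-- the exponents `s, t` at `v` and `s', t'` at `o` -/
private noncomputable def bbm (v o : V) (s t s' t' : ℕ) : V × Bool →₀ ℕ :=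
  Finsupp.single (v, false) s + Finsupp.single (v, true) t +
    (Finsupp.single (o, false) s' + Finsupp.single (o, true) t')

private lemma bb_wtm (v o : V) (s t s' t' : ℕ) :
    wtm (bbm v o s t s' t') = (s : ℤ) - t + (s' - t') := by
  unfold bbm
  rw [bb_wtm_add, bb_wtm_add, bb_wtm_add, bb_wtm_single, bb_wtm_single, bb_wtm_single,
    bb_wtm_single]
  simp only [Bool.false_eq_true, if_false, if_true]
  ring

private lemma bb_E1 (v : V) (x y : ℕ) :
    E K 1 (va K v ^ x * vb K v ^ (y + 1)) = ((y : T V K) + 1) * (va K v ^ (x + 1) * vb K v ^ y) := by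
  have h1 : ∀ n : ℕ, E K 1 (va K v ^ n) = 0 := by
    intro n
    rw [E_apply, map_pow, Et_va, ← Polynomial.C_pow, Polynomial.coeff_C, if_neg one_ne_zero]
  have h2 : ∀ n : ℕ, E K 1 (vb K v ^ (n + 1)) = ((n : T V K) + 1) * (vb K v ^ n * va K v) := by
    intro n
    induction n with
    | zero => rw [zero_add, pow_one, E_one_vb]; simp
    | succ n ih =>
      rw [pow_succ, E_one_mul, ih, E_one_vb]
      push_cast
      ring
  rw [E_one_mul, h1, h2]
  ring

private lemma bb_mon (v o : V) (s t i j : ℕ) :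
    (monomial (bbm v o s t (p * i) (p * j)) (1 : K) : T V K) =
      expand p (va K o ^ i * vb K o ^ j) * (va K v ^ s * vb K v ^ t) := by
  unfold bbm va vb
  rw [map_mul, map_pow, map_pow, expand_X, expand_X, ← pow_mul, ← pow_mul, X_pow_eq_monomial,
    X_pow_eq_monomial, X_pow_eq_monomial, X_pow_eq_monomial, monomial_mul, monomial_mul,
    monomial_mul, add_comm (Finsupp.single (v, false) s + Finsupp.single (v, true) t)]
  simp

private lemma bb_mem_nI (o : V) (i j : ℕ) : va K o ^ i * vb K o ^ j ∈ nI K {o} ^ (i + j) := by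
  have h1 : va K o ∈ nI K {o} := Ideal.subset_span ⟨(o, false), by simp, rfl⟩
  have h2 : vb K o ∈ nI K {o} := Ideal.subset_span ⟨(o, true), by simp, rfl⟩
  rw [pow_add]
  exact Ideal.mul_mem_mul (Ideal.pow_mem_pow h1 i) (Ideal.pow_mem_pow h2 j)

variable [Fact p.Prime] [CharP K p]

omit [CharP K p] in
/-- the monomials are in the spaces -/
private lemma bb_mem_Fs (v o : V) (s t i j : ℕ) {w : ℤ} (hw : (s : ℤ) - t + p * (i - j) = w) :
    expand p (va K o ^ i * vb K o ^ j) * (va K v ^ s * vb K v ^ t) ∈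
      Fs p (nI K {o} ^ (i + j)) (Finsupp.single v (s + t) + Finsupp.single o (p * (i + j))) w := by
  unfold Fs
  rw [Submodule.mem_inf]
  constructor
  · rw [Submodule.restrictScalars_mem]
    exact Ideal.mul_mem_right _ _ (expand_mem_Fr p (bb_mem_nI o i j))
  · have h1 := expand_mem_S p (mul_mem_S K (pow_mem_S K (va_mem_S K o) i)
      (pow_mem_S K (vb_mem_S K o) j))
    have h2 := mul_mem_S K (pow_mem_S K (va_mem_S K v) s) (pow_mem_S K (vb_mem_S K v) t)
    have h3 := mul_mem_S K h1 h2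
    have e1 : p • (i • Finsupp.single o 1 + j • Finsupp.single o 1) +
        (s • Finsupp.single v 1 + t • Finsupp.single v 1) =
        Finsupp.single v (s + t) + Finsupp.single o (p * (i + j)) := by
      rw [← add_smul, ← add_smul, Finsupp.smul_single, Finsupp.smul_single, Finsupp.smul_single,
        add_comm]
      simp
    have e2 : (p : ℤ) * ((i : ℤ) * 1 + (j : ℤ) * (-1)) + ((s : ℤ) * 1 + (t : ℤ) * (-1)) = w := by
      rw [← hw]
      ring
    rw [e1, e2] at h3
    exact h3

private lemma bb_Fs_zero : Fs p (⊤ : Ideal (T V K)) (0 : V →₀ ℕ) 0 = Submodule.span K {1} := by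
  rw [Fs_top]
  apply le_antisymm
  · intro f hf
    refine S_induction K (fun g => g ∈ Submodule.span K {(1 : T V K)}) (Submodule.zero_mem _)
      (fun _ _ => Submodule.add_mem _) ?_ hf
    intro μ c h _
    have hμ : μ = 0 := by
      ext ⟨u, ε⟩
      have := h u
      rw [Finsupp.coe_zero, Pi.zero_apply] at this
      cases ε <;> simp only [Finsupp.coe_zero, Pi.zero_apply] <;> omega
    rw [hμ]
    have : (monomial (0 : V × Bool →₀ ℕ) c : T V K) = c • 1 := by
      rw [smul_eq_C_mul, mul_one]; rfl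
    rw [this]
    exact Submodule.smul_mem _ _ (Submodule.mem_span_singleton_self _)
  · rw [Submodule.span_singleton_le_iff_mem]
    exact one_mem_S K

private lemma bb_Fs_zero' {w : ℤ} (hw : w ≠ 0) : Fs p (⊤ : Ideal (T V K)) (0 : V →₀ ℕ) w = ⊥ := by
  rw [Fs_top]
  apply S_eq_bot
  rw [map_zero, Nat.cast_zero]
  exact abs_pos.2 hw

private lemma bb_gS_zero : gS p (⊤ : Ideal (T V K)) (0 : V →₀ ℕ) = ⊥ := by
  have hp : 0 < p := (Fact.out : p.Prime).pos
  have hp' : (0 : ℤ) < p := by exact_mod_cast hp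
  unfold gS
  rw [bb_Fs_zero' p (by norm_num), bb_Fs_zero' p (by norm_num), bb_Fs_zero' p (by omega),
    bb_Fs_zero' p (by omega)]
  simp

end aux

variable {V : Type*} [DecidableEq V] {K : Type*} [Field K] (p : ℕ) [Fact p.Prime] [CharP K p]
  {v o : V} (hvo : v ≠ o) {k : ℕ} (hk : k ≤ p - 2) (b : ℕ) (hd : k + p * b < 2 * p * (p - 1))
include hvo hk hd

/-- the monomials of an element of weight `0` -/
private lemma bb_supp {f : T V K} (hf : f ∈ Fs p (nI K {o} ^ b)
    (Finsupp.single v k + Finsupp.single o (p * b)) 0) {μ : V × Bool →₀ ℕ} (hμ : coeff μ f ≠ 0) :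
    ∃ s i, k = s + s ∧ b = i + i ∧ μ = bbm v o s s (p * i) (p * i) := by
  have hp2 : 2 ≤ p := (Fact.out : p.Prime).two_le
  unfold Fs at hf
  rw [Submodule.mem_inf, Submodule.restrictScalars_mem] at hf
  obtain ⟨h1, h2⟩ := hf
  have h3 := (mem_Fr_pow p).1 h1 μ hμ
  obtain ⟨h4, h5⟩ := (mem_S_iff K).1 h2 μ hμ
  have hv : μ (v, false) + μ (v, true) = k := by
    have := h4 v
    rwa [Finsupp.add_apply, Finsupp.single_eq_same, Finsupp.single_eq_of_ne hvo, add_zero] at this
  have ho : μ (o, false) + μ (o, true) = p * b := by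
    have := h4 o
    rwa [Finsupp.add_apply, Finsupp.single_eq_same, Finsupp.single_eq_of_ne (Ne.symm hvo),
      zero_add] at this
  have hu : ∀ u, u ≠ v → u ≠ o → μ (u, false) + μ (u, true) = 0 := by
    intro u huv huo
    have := h4 u
    rwa [Finsupp.add_apply, Finsupp.single_eq_of_ne huv, Finsupp.single_eq_of_ne huo,
      add_zero] at this
  have hμ' : μ = bbm v o (μ (v, false)) (μ (v, true)) (μ (o, false)) (μ (o, true)) := by
    ext ⟨u, ε⟩
    unfold bbm
    simp only [Finsupp.add_apply, Finsupp.single_apply, Prod.mk.injEq]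
    by_cases huv : u = v
    · subst huv
      cases ε <;> simp [Ne.symm hvo]
    · by_cases huo : u = o
      · subst huo
        cases ε <;> simp [hvo]
      · have h6 := hu u huv huo
        have h7 : μ (u, ε) = 0 := by cases ε <;> omega
        rw [h7]
        simp [Ne.symm huv, Ne.symm huo]
  have h8 := Nat.div_add_mod (μ (o, false)) p
  have h9 := Nat.div_add_mod (μ (o, true)) p
  set i := μ (o, false) / p with hi
  set j := μ (o, true) / p with hj
  have h10 : p * b ≤ p * (i + j) := Nat.mul_le_mul_left p h3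
  rw [mul_add] at h10
  have h11 : μ (o, false) = p * i := by omega
  have h12 : μ (o, true) = p * j := by omega
  have h13 : p * b = p * (i + j) := by rw [mul_add]; omega
  have h14 : b = i + j := Nat.eq_of_mul_eq_mul_left (by omega) h13
  rw [hμ', bb_wtm, h11, h12] at h5
  push_cast at h5
  have h15 : (p : ℤ) ∣ (μ (v, false) : ℤ) - μ (v, true) := ⟨j - i, by linarith⟩
  have h16 : (μ (v, false) : ℤ) - μ (v, true) = 0 := by
    refine Int.eq_zero_of_abs_lt_dvd h15 ?_
    rw [abs_lt]
    constructor <;> omega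
  have h17 : (p : ℤ) * (i - j) = 0 := by linarith
  have h18 : (i : ℤ) - j = 0 := by
    rcases mul_eq_zero.1 h17 with h | h
    · omega
    · exact h
  have h19 : i = j := by omega
  have h20 : μ (v, false) = μ (v, true) := by omega
  refine ⟨μ (v, true), j, by omega, by omega, hμ'.trans ?_⟩
  rw [h11, h12, h20, h19]

private lemma bb_le (h0 : ¬ (b = 0 ∧ k = 0)) : Fs p (nI K {o} ^ b)
    (Finsupp.single v k + Finsupp.single o (p * b)) 0 ≤ gS p (nI K {o} ^ b)
    (Finsupp.single v k + Finsupp.single o (p * b)) := by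
  have hp2 : 2 ≤ p := (Fact.out : p.Prime).two_le
  intro f hf
  rw [f.as_sum]
  refine Submodule.sum_mem _ fun μ hμ => ?_
  rw [mem_support_iff] at hμ
  obtain ⟨s, i, hs, hi, hμ'⟩ := bb_supp p hvo hk b hd hf hμ
  have e1 : (monomial μ (coeff μ f) : T V K) = coeff μ f • monomial μ (1 : K) := by
    rw [smul_monomial, smul_eq_mul, mul_one]
  rw [e1]
  refine Submodule.smul_mem _ _ ?_
  rw [hμ', bb_mon]
  subst hs
  subst hi
  rcases Nat.eq_zero_or_pos s with rfl | hs
  · -- `k = 0`
    obtain ⟨i, rfl⟩ : ∃ i', i = i' + 1 := ⟨i - 1, by omega⟩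
    have hne : ((i : K) + 1 + 1) ≠ 0 := by
      have h1 : ((i + 2 : ℕ) : K) ≠ 0 := by
        rw [Ne, CharP.cast_eq_zero_iff K p]
        intro h
        have h2 := Nat.le_of_dvd (by omega) h
        have h3 : p * (i + 1 + (i + 1)) = 2 * p * (i + 1) := by ring
        have h4 : 2 * p * (i + 1) < 2 * p * (p - 1) := by omega
        have h5 : i + 1 < p - 1 := Nat.lt_of_mul_lt_mul_left h4
        omega
      intro h
      apply h1
      push_cast
      linear_combination h
    have h2 : E K p (expand p (va K o ^ i * vb K o ^ (i + 1 + 1)) * (va K v ^ 0 * vb K v ^ 0)) =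
        ((i : K) + 1 + 1) •
          (expand p (va K o ^ (i + 1) * vb K o ^ (i + 1)) * (va K v ^ 0 * vb K v ^ 0)) := by
      simp only [pow_zero, mul_one]
      rw [E_expand, if_pos dvd_rfl, Nat.div_self (by omega), bb_E1, smul_eq_C_mul, map_mul]
      congr 1
      simp
    have h3 : expand p (va K o ^ (i + 1) * vb K o ^ (i + 1)) * (va K v ^ 0 * vb K v ^ 0) =
        ((i : K) + 1 + 1)⁻¹ • E K p
          (expand p (va K o ^ i * vb K o ^ (i + 1 + 1)) * (va K v ^ 0 * vb K v ^ 0)) := by
      rw [h2, smul_smul, inv_mul_cancel₀ hne, one_smul]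
    rw [h3]
    refine Submodule.smul_mem _ _ ?_
    unfold gS
    refine Submodule.mem_sup_right (Submodule.mem_sup_left ⟨_, ?_, rfl⟩)
    have h4 := bb_mem_Fs (K := K) p v o 0 0 i (i + 1 + 1) (w := -(2 * p)) (by push_cast; ring)
    have e2 : i + (i + 1 + 1) = i + 1 + (i + 1) := by ring
    rw [e2] at h4
    exact h4
  · obtain ⟨s, rfl⟩ : ∃ s', s = s' + 1 := ⟨s - 1, by omega⟩
    have hne : ((s : K) + 1 + 1) ≠ 0 := by
      have h1 : ((s + 2 : ℕ) : K) ≠ 0 := by
        rw [Ne, CharP.cast_eq_zero_iff K p]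
        intro h
        have h2 := Nat.le_of_dvd (by omega) h
        omega
      intro h
      apply h1
      push_cast
      linear_combination h
    have h2 : E K 1 (expand p (va K o ^ i * vb K o ^ i) * (va K v ^ s * vb K v ^ (s + 1 + 1))) =
        ((s : K) + 1 + 1) •
          (expand p (va K o ^ i * vb K o ^ i) * (va K v ^ (s + 1) * vb K v ^ (s + 1))) := by
      rw [E_expand_mul, Nat.div_eq_of_lt (by omega), zero_add, Finset.sum_range_one, E_zero,
        mul_zero, Nat.sub_zero, bb_E1, smul_eq_C_mul]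
      simp only [map_add, map_natCast, map_one]
      push_cast
      ring
    have h3 : expand p (va K o ^ i * vb K o ^ i) * (va K v ^ (s + 1) * vb K v ^ (s + 1)) =
        ((s : K) + 1 + 1)⁻¹ • E K 1
          (expand p (va K o ^ i * vb K o ^ i) * (va K v ^ s * vb K v ^ (s + 1 + 1))) := by
      rw [h2, smul_smul, inv_mul_cancel₀ hne, one_smul]
    rw [h3]
    refine Submodule.smul_mem _ _ ?_
    unfold gS
    refine Submodule.mem_sup_left (Submodule.mem_sup_left ⟨_, ?_, rfl⟩)
    have h4 := bb_mem_Fs (K := K) p v o s (s + 1 + 1) i i (w := -2) (by push_cast; ring)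
    have e2 : s + (s + 1 + 1) = s + 1 + (s + 1) := by ring
    rw [e2] at h4
    exact h4

theorem tt_base : tt p (⊥ : Ideal (T V K)) (nI K {o} ^ b)
    (Finsupp.single v k + Finsupp.single o (p * b)) = if b = 0 ∧ k = 0 then 1 else 0 := by
  by_cases h0 : b = 0 ∧ k = 0
  · rw [if_pos h0]
    obtain ⟨rfl, rfl⟩ := h0
    rw [mul_zero, Finsupp.single_zero, Finsupp.single_zero, add_zero, pow_zero,
      Ideal.one_eq_top]
    unfold tt
    rw [bb_gS_zero, Fs_bot, bb_Fs_zero, bot_sup_eq, finrank_bot,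
      finrank_span_singleton one_ne_zero]
    simp
  · rw [if_neg h0]
    unfold tt
    have hg : Good (nI K {o} ^ b : Ideal (T V K)) := (good_nI {o}).pow b
    have h1 : gS p (nI K {o} ^ b) (Finsupp.single v k + Finsupp.single o (p * b)) =
        Fs p (nI K {o} ^ b) (Finsupp.single v k + Finsupp.single o (p * b)) 0 :=
      le_antisymm (gS_le p hg _) (bb_le p hvo hk b hd h0)
    rw [Fs_bot, bot_sup_eq, h1, sub_self]

theorem rr_base : rr p (⊥ : Ideal (T V K)) (nI K {o} ^ b)
    (Finsupp.single v k + Finsupp.single o (p * b)) = 0 := by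
  have hp2 : 2 ≤ p := (Fact.out : p.Prime).two_le
  by_cases h0 : b = 0 ∧ k = 0
  · obtain ⟨rfl, rfl⟩ := h0
    rw [mul_zero, Finsupp.single_zero, Finsupp.single_zero, add_zero, pow_zero,
      Ideal.one_eq_top]
    unfold rr
    have h1 : (Fs p (⊤ : Ideal (T V K)) (0 : V →₀ ℕ) 0).map (NrmL p) = ⊥ := by
      rw [bb_Fs_zero, Submodule.map_span, Set.image_singleton]
      have h2 : NrmL p (1 : T V K) = 0 := by
        unfold NrmL Lam
        rw [LinearMap.comp_apply, LinearMap.comp_apply]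
        have h3 : E K (p - 1) (1 : T V K) = 0 := by
          rw [← C_1]
          exact E_C K _ (by omega) 1
        rw [h3, map_zero, map_zero]
      rw [h2, Submodule.span_zero_singleton]
    rw [h1, Fs_bot, sup_bot_eq, sub_self]
  · have hg : Good (nI K {o} ^ b : Ideal (T V K)) := (good_nI {o}).pow b
    have h1 := rr_le_tt p (bot_le : (⊥ : Ideal (T V K)) ≤ nI K {o} ^ b) good_bot hg
      (d := Finsupp.single v k + Finsupp.single o (p * b)) (by
        rw [map_add, Finsupp.degree_single, Finsupp.degree_single]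
        exact hd)
    rw [tt_base p hvo hk b hd, if_neg h0] at h1
    exact le_antisymm h1 (rr_nonneg p)

end HKDet
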