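import Pool.Agent.Lib.HKDet.FlE
import Pool.Agent.Lib.HKDet.Gd

/-!
# Module FlB: flipping the vectors of `C`

ONE VECTOR `flip_one`: `v ∉ C`, `o ∉ C`, `o ≠ v`, `p ≤ d v ≤ 2p-2`, `J = nI {o}^b`, `d' = d.update v (2p-2-d v)`: `tt (nI (insert v C) * J) J d = tt (nI C * J) J d'` and the same for `rr`: `transport` (module TR) with `θ = th p v`,
`P = nI (insert v C) * J`, `Q = J`, `P' = nI C * J`, `Q' = J` (good: `good_nI`, `Good.mul`, `Good.pow` of module Gd - imported through `Gd`).
* `hQ`: `x ∈ Fs J d w`: `th x ∈ S d' w` (`th_mem_S`); in `Fr J`: `mem_Fr_pow` and `th_support` (`flipM` does not change the exponents at `o ≠ v`).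
* `hs`: `y ∈ Fs J d' w`: `th_surj`, the preimage is in `Fr J` by `mem_Fr_pow` (exponents at `o` unchanged). `y - th x = 0`.
* `hk`: `x ∈ Fs J d 0`: if `x ∈ Fr (nI (insert v C) * J)`: by `mem_Fr_mul` every monomial of `x` has an exponent `≥ p` at `v` or at some `c ∈ C`; a monomial of `th x` comes from a monomial with exponents `≤ p-1` at `v` (`th_support`), so with an exponent `≥ p` at some
  `c ∈ C`, `c ≠ v`: `th x ∈ Fr (nI C * J)` by `mem_Fr_mul`. Conversely if `th x ∈ Fr (nI C * J)` and `μ` is a monomial of `x` with both exponents at `v` `≤ p-1`, then `flipM μ` is a monomial of `th x` (`th_ker`), so it has an exponent `≥ p` at some `c ∈ C`.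
* `hE`, `hF`: exact (`th_E`, `th_F`).
GENERAL `flip_gen`: `o ∉ C`, `d v ≤ 2p-2` for `v ∈ C`: `tt (nI C * J) J d = tt ⊥ J (barC p C d)`. Induction on `C` (for all `d`): `C = ∅`: `nI ∅ * J = ⊥`, `barC ∅ d = d`. Step `insert v C`: if `d v ≤ p-1`: `Fs_nI_small` (`tt`, `rr` depend on `P` only through `Fs P d 0`),
`barC (insert v C) d = barC C d` as `min (d v) (2p-2-d v) = d v`; if `p ≤ d v`: `flip_one`, and `barC C (d.update v (2p-2-d v)) = barC (insert v C) d`.
`tt_flip`: `b = 0` (`J = ⊤`), choose `o ∉ C` (`V` infinite).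
`tt_piece'`: `U ⊇ supp d`, entries `≤ 2p-2`, `o ∉ U`: `barC p U (d + single o (p b)) = bar p d + single o (p b)`.
-/

namespace HKDet

open MvPolynomial FSig Finset

variable {V : Type*} [DecidableEq V] {K : Type*} [Field K] (p : ℕ) [Fact p.Prime] [CharP K p]
  {d : V →₀ ℕ}

private theorem barC_apply {V : Type*} [DecidableEq V] (p : ℕ) (C : Finset V) (d : V →₀ ℕ) (v : V) :
    barC p C d v = if v ∈ C then min (d v) (2 * p - 2 - d v) else d v := rfl

private theorem flipM_ne {V : Type*} [DecidableEq V] (p : ℕ) {v u : V} (h : u ≠ v)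
    (μ : V × Bool →₀ ℕ) (e : Bool) : flipM p v μ (u, e) = μ (u, e) := by
  have h1 : ((u, e) : V × Bool) ≠ (v, true) := by
    intro h'
    exact h (Prod.ext_iff.1 h').1
  have h2 : ((u, e) : V × Bool) ≠ (v, false) := by
    intro h'
    exact h (Prod.ext_iff.1 h').1
  unfold flipM
  rw [Finsupp.coe_update, Function.update_of_ne h1, Finsupp.coe_update, Function.update_of_ne h2]

private theorem mem_Fs {V K : Type*} [Field K] {p : ℕ} {J : Ideal (T V K)} {d : V →₀ ℕ} {w : ℤ}
    {x : T V K} : x ∈ Fs p J d w ↔ x ∈ Fr p J ∧ x ∈ S K d w := by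
  unfold Fs
  rw [Submodule.mem_inf, Submodule.restrictScalars_mem]

private theorem flip_one {C : Finset V} {o v : V} (hv : v ∉ C) (ho : o ∉ C) (hov : o ≠ v) (b : ℕ)
    (h1 : p ≤ d v) (h2 : d v ≤ 2 * p - 2) :
    tt p (nI K (insert v C) * nI K {o} ^ b) (nI K {o} ^ b) d =
      tt p (nI K C * nI K {o} ^ b) (nI K {o} ^ b) (d.update v (2 * p - 2 - d v)) ∧
    rr p (nI K (insert v C) * nI K {o} ^ b) (nI K {o} ^ b) d =
      rr p (nI K C * nI K {o} ^ b) (nI K {o} ^ b) (d.update v (2 * p - 2 - d v)) := by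
  have ho' : o ∉ insert v C := by
    rw [Finset.mem_insert]
    rintro (h | h)
    · exact hov h
    · exact ho h
  have hp : 0 < p := (Fact.out : p.Prime).pos
  have hgJ : Good (nI K ({o} : Finset V) ^ b) := (good_nI {o}).pow b
  refine transport p Ideal.mul_le_right Ideal.mul_le_right hgJ ((good_nI C).mul hgJ) hgJ (th p v)
    ?_ ?_ ?_ ?_ ?_
  · intro w x hx
    rw [mem_Fs] at hx ⊢
    refine ⟨?_, th_mem_S p v h2 hx.2⟩
    rw [mem_Fr_pow]
    intro ν hν
    obtain ⟨μ, h0, -, -, rfl⟩ := th_support p v hν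
    rw [flipM_ne p hov, flipM_ne p hov]
    exact (mem_Fr_pow p).1 hx.1 μ h0
  · intro w y hy
    rw [mem_Fs] at hy
    obtain ⟨x, hxS, hxy, hx⟩ := th_surj p v h2 h1 hy.2
    refine ⟨x, ?_, ?_⟩
    · rw [mem_Fs]
      refine ⟨?_, hxS⟩
      rw [mem_Fr_pow]
      intro μ hμ
      have := (mem_Fr_pow p).1 hy.1 _ (hx μ hμ).2.2
      rwa [flipM_ne p hov, flipM_ne p hov] at this
    · rw [hxy, sub_self]
      exact Submodule.zero_mem _
  · intro x hx
    rw [mem_Fs] at hx
    rw [mem_Fs, mem_Fs]
    constructor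
    · rintro ⟨h3, h4⟩
      refine ⟨?_, hx.2⟩
      rw [mem_Fr_mul p ho']
      intro μ hμ
      refine ⟨?_, (mem_Fr_pow p).1 hx.1 μ hμ⟩
      by_cases ha : μ (v, false) ≤ p - 1
      · by_cases hb : μ (v, true) ≤ p - 1
        · obtain ⟨c, hc, e, he⟩ := ((mem_Fr_mul p ho).1 h3 _ (th_ker p v hμ ha hb)).1
          have hcv : c ≠ v := by
            rintro rfl
            exact hv hc
          rw [flipM_ne p hcv] at he
          exact ⟨c, Finset.mem_insert_of_mem hc, e, he⟩
        · exact ⟨v, Finset.mem_insert_self _ _, true, by omega⟩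
      · exact ⟨v, Finset.mem_insert_self _ _, false, by omega⟩
    · rintro ⟨h3, h4⟩
      refine ⟨?_, th_mem_S p v h2 h4⟩
      rw [mem_Fr_mul p ho]
      intro ν hν
      obtain ⟨μ, h0, ha, hb, rfl⟩ := th_support p v hν
      obtain ⟨⟨c, hc, e, he⟩, h5⟩ := (mem_Fr_mul p ho').1 h3 μ h0
      have hcv : c ≠ v := by
        rintro rfl
        cases e
        · omega
        · omega
      refine ⟨⟨c, ?_, e, ?_⟩, ?_⟩
      · rcases Finset.mem_insert.1 hc with h | h
        · exact absurd h hcv
        · exact h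
      · rw [flipM_ne p hcv]
        exact he
      · rw [flipM_ne p hov, flipM_ne p hov]
        exact h5
  · intro k w x hx
    rw [th_E p v (by omega) (mem_Fs.1 hx).2 k, sub_self]
    exact Submodule.zero_mem _
  · intro k w x hx
    rw [th_F p v (by omega) (mem_Fs.1 hx).2 k, sub_self]
    exact Submodule.zero_mem _

theorem flip_gen {C : Finset V} {o : V} (ho : o ∉ C) (b : ℕ) (hC : ∀ v ∈ C, d v ≤ 2 * p - 2) :
    tt p (nI K C * nI K {o} ^ b) (nI K {o} ^ b) d = tt p (⊥ : Ideal (T V K)) (nI K {o} ^ b) (barC p C d) ∧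
    rr p (nI K C * nI K {o} ^ b) (nI K {o} ^ b) d = rr p (⊥ : Ideal (T V K)) (nI K {o} ^ b) (barC p C d) := by
  have hp : 0 < p := (Fact.out : p.Prime).pos
  induction C using Finset.induction_on generalizing d with
  | empty =>
    have h1 : barC p ∅ d = d := by
      ext v
      rw [barC_apply]
      simp
    rw [h1, nI_empty, Ideal.bot_mul]
    exact ⟨rfl, rfl⟩
  | insert v C hv ih =>
    have ho1 : o ∉ C := fun h => ho (Finset.mem_insert_of_mem h)
    have hov : o ≠ v := by
      rintro rfl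
      exact ho (Finset.mem_insert_self _ _)
    have hdv := hC v (Finset.mem_insert_self _ _)
    by_cases hsm : d v ≤ p - 1
    · have h0 : Fs p (nI K (insert v C) * nI K {o} ^ b) d 0 = Fs p (nI K C * nI K {o} ^ b) d 0 := by
        rw [Fs_nI_small p ho b (c := v) hsm 0, Finset.erase_insert hv]
      have h1 : barC p (insert v C) d = barC p C d := by
        ext u
        rw [barC_apply, barC_apply]
        by_cases huv : u = v
        · subst huv
          rw [if_pos (Finset.mem_insert_self _ _), if_neg hv]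
          omega
        · simp only [Finset.mem_insert, huv, false_or]
      have h2 := ih ho1 (d := d) (fun u hu => hC u (Finset.mem_insert_of_mem hu))
      rw [h1]
      unfold tt rr at h2 ⊢
      rw [h0]
      exact h2
    · have h1 : barC p C (d.update v (2 * p - 2 - d v)) = barC p (insert v C) d := by
        ext u
        rw [barC_apply, barC_apply]
        by_cases huv : u = v
        · subst huv
          rw [if_pos (Finset.mem_insert_self _ _), if_neg hv, Finsupp.coe_update,
            Function.update_self]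
          omega
        · rw [Finsupp.coe_update, Function.update_of_ne huv]
          simp only [Finset.mem_insert, huv, false_or]
      have h2 := ih ho1 (d := d.update v (2 * p - 2 - d v)) (fun u hu => by
        have huv : u ≠ v := by
          rintro rfl
          exact hv hu
        rw [Finsupp.coe_update, Function.update_of_ne huv]
        exact hC u (Finset.mem_insert_of_mem hu))
      have h3 := flip_one (K := K) p (d := d) hv ho1 hov b (by omega) hdv
      rw [h3.1, h3.2, ← h1]
      exact h2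

theorem tt_flip [Infinite V] {C : Finset V} (hC : ∀ v ∈ C, d v ≤ 2 * p - 2) :
    tt p (nI K C) ⊤ d = tt p (⊥ : Ideal (T V K)) ⊤ (barC p C d) := by
  obtain ⟨o, ho⟩ := Infinite.exists_notMem_finset C
  have h := (flip_gen (K := K) p ho 0 hC).1
  rwa [pow_zero, mul_one, Ideal.one_eq_top] at h
theorem rr_flip [Infinite V] {C : Finset V} (hC : ∀ v ∈ C, d v ≤ 2 * p - 2) :
    rr p (nI K C) ⊤ d = rr p (⊥ : Ideal (T V K)) ⊤ (barC p C d) := by
  obtain ⟨o, ho⟩ := Infinite.exists_notMem_finset C
  have h := (flip_gen (K := K) p ho 0 hC).2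
  rwa [pow_zero, mul_one, Ideal.one_eq_top] at h

theorem flip_piece {U : Finset V} {o : V} (ho : o ∉ U) (hU : ∀ v, v ∉ U → d v = 0)
    (hs : ∀ v, d v ≤ 2 * p - 2) (b : ℕ) :
    tt p (nI K U * nI K {o} ^ b) (nI K {o} ^ b) (d + Finsupp.single o (p * b)) =
      tt p (⊥ : Ideal (T V K)) (nI K {o} ^ b) (bar p d + Finsupp.single o (p * b)) ∧
    rr p (nI K U * nI K {o} ^ b) (nI K {o} ^ b) (d + Finsupp.single o (p * b)) =
      rr p (⊥ : Ideal (T V K)) (nI K {o} ^ b) (bar p d + Finsupp.single o (p * b)) := by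
  have h0 : ∀ v ∈ U, Finsupp.single o (p * b) v = 0 := by
    intro v hv
    rw [Finsupp.single_eq_of_ne]
    rintro rfl
    exact ho hv
  have h1 := flip_gen (K := K) p (d := d + Finsupp.single o (p * b)) ho b (fun v hv => by
    rw [Finsupp.add_apply, h0 v hv, add_zero]
    exact hs v)
  have h2 : barC p U (d + Finsupp.single o (p * b)) = bar p d + Finsupp.single o (p * b) := by
    ext u
    rw [barC_apply, Finsupp.add_apply, Finsupp.add_apply]
    unfold bar
    rw [Finsupp.mapRange_apply]
    by_cases hu : u ∈ U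
    · rw [if_pos hu, h0 u hu, add_zero, add_zero]
    · rw [if_neg hu, hU u hu, Nat.zero_min]
  rw [h2] at h1
  exact h1

end HKDet
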