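import Pool.Agent.Lib.HKDet.NumA

/-!
# Module NumB: the numerical identities `invN = mlt 0 + fus` and (N1)

PROOFS. `hI j = [j=0] - [j=2]`, `hF p j = s j - s (j-2)`, `s j = [2p ∣ j]`.
* `inv_eq_mlt_fus`: `invN d = mlt p 0 d + fus p d`. By `swS_symm` it is enough that the symmetrisations agree: `h j + h (-j) = 0` for `h = hM p 0 + hF p - hI`. `cM p 0 j = [0 < j and 2p ∣ j]` (`2p ≤ j`, `2p ∣ j`).
  `hM 0 j = s(j+2)[j+2>0] - 2 s(j)[j>0] + s(j-2)[j-2>0]`; all of `s` is even. For `j` and `-j`: write `s(j)[j>0] + s(j)[-j>0] = s(j) - [j=0]`,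
  `s(j+2)[j+2>0] + s(-j-2)[-j-2>0] = s(j+2) - [j=-2]` (`s(-j-2)[-j-2>0]` is the third term of `hM 0 (-j)`), similarly `s(j-2)[j-2>0] + s(-j+2)[-j+2>0] = s(j-2) - [j=2]`. So
  `hM j + hM (-j) = s(j+2) + s(j-2) - 2 s(j) - [j=-2] - [j=2] + 2[j=0]`, `hF j + hF (-j) = 2 s(j) - s(j-2) - s(j+2)`, `hI j + hI (-j) = 2[j=0] - [j=2] - [j=-2]`. Sum `0`. (`split_ifs`/`omega` with divisibility: treat `s` as a function
  with `s (-j) = s j` and distinguish the signs.)
* (N1) `inv_N1`: `p ≤ d v ≤ 2p - 2`, `x = d v - p`, `e = d.erase v`, `W = wm e` (even function): `invN d = W(p+x) - W(p+x+2)` (as `inv_edge`: `invN (e + single v D) = W D - W (D+2)`, `inv_add_single`),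
  `d' = e + single v (p-2-x)` (`= d` with the entry `d v` replaced by `2p-2-d v`): `invN d' = W(p-2-x) - W(p-x)`, `d'' = e + single v x`:
  `mlt p 1 d'' = ∑_{B=3,5,..} (W(pB-2-x) - W(pB+x) - W(pB-x) + W(pB+x+2))`, `fus p d' = ∑_{B odd, B ∈ ℤ} (W(pB+x+2) - W(pB-x))`. So `fus p d' - mlt p 1 d'' = W(p+x+2) - W(p-x) + W(p-x-2) - W(p+x)` (`B = 1` and `B = -1`), hence
  `invN d = mlt p 1 d'' + invN d' - fus p d'`.
  In Lean without infinite sums: `swS_split` at `v` on all four: each is `swS G e` with `G j = ∑_{x' ≤ D} g (j + D - 2x')`. For `g = hI`: `[j=-D] - [j=D+2]`. For `g = hF p`, `D = p-2-x`: telescopes to `s(j+D) - s(j-D-2)`. For `g = hM p 1`, `D = x`: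
  `Δ(j+x) - Δ(j-x-2)`, `Δ i = cM (i+2) - cM i`, `cM p 1 i = [i ≥ 3p and 2p ∣ i - p]`. Then show that `h j + h (-j) = 0` for
  `h = G_{inv d} - G_mlt - G_{inv d'} + G_fus` and use `swS_symm`. (For odd multiples of `p`: `s(j + p - 2 - x) = [2p ∣ (j - x - 2) - p]`.)
-/

namespace HKDet

open FSig Finset

variable {V : Type*} (p : ℕ)

private theorem numB_anti (h : ℤ → ℤ) (hh : ∀ j, h j + h (-j) = 0) (d : V →₀ ℕ) : swS h d = 0 := by
  have h1 : swS (fun j => h j + h (-j)) d = swS h d + swS h d := by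
    rw [swS_add, ← swS_symm]
  have h2 : swS (fun j => h j + h (-j)) d = 0 := by
    have : (fun j => h j + h (-j)) = fun _ => (0 : ℤ) := funext hh
    rw [this]
    unfold swS
    exact Finset.sum_const_zero
  omega

private def dl (a : ℤ) : ℤ := if a = 0 then 1 else 0

private theorem dl_neg (a : ℤ) : dl (-a) = dl a := by
  unfold dl
  by_cases h : a = 0
  · simp [h]
  · rw [if_neg h, if_neg (by omega)]

private def sp (a : ℤ) : ℤ := if (2 * p : ℤ) ∣ a then 1 else 0

private theorem sp_neg (a : ℤ) : sp p (-a) = sp p a := by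
  unfold sp
  simp only [dvd_neg]

private theorem sp_add (a : ℤ) : sp p (a + 2 * p) = sp p a := by
  unfold sp
  simp only [dvd_add_self_right]

private theorem hI_dl (j : ℤ) : hI j = dl j - dl (j - 2) := by
  unfold hI dl
  have : (j - 2 = 0) ↔ (j = 2) := by omega
  simp only [this]

private theorem hF_sp (j : ℤ) : hF p j = sp p j - sp p (j - 2) := rfl

private theorem wm_dl (d : V →₀ ℕ) (w : ℤ) : wm d w = swS (fun j => dl (j - w)) d := by
  rw [wm_swS]
  congr 1
  funext j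
  unfold dl
  have : (j - w = 0) ↔ (j = w) := by omega
  simp only [this]

private theorem cM0 (hp : 2 ≤ p) (i : ℤ) : cM p 0 i + cM p 0 (-i) = sp p i - dl i := by
  unfold cM sp dl
  have hp' : (2 : ℤ) ≤ p := by exact_mod_cast hp
  have e1 : ((2 * p : ℤ) ∣ i - p * ((0 : ℕ) : ℤ)) ↔ ((2 * p : ℤ) ∣ i) := by
    simp
  have e2 : ((2 * p : ℤ) ∣ -i - p * ((0 : ℕ) : ℤ)) ↔ ((2 * p : ℤ) ∣ i) := by
    simp
  simp only [e1, e2]
  by_cases hd : (2 * p : ℤ) ∣ i
  · obtain ⟨k, hk⟩ := hd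
    have hdv : (2 * p : ℤ) ∣ i := ⟨k, hk⟩
    simp only [hdv, and_true, if_true]
    rcases lt_trichotomy k 0 with h | h | h
    · have h1 : i ≤ -(2 * p) := by rw [hk]; nlinarith
      have c1 : ¬ ((p : ℤ) * (((0 : ℕ) : ℤ) + 2) ≤ i) := by push_cast; nlinarith
      have c2 : ((p : ℤ) * (((0 : ℕ) : ℤ) + 2) ≤ -i) := by push_cast; nlinarith
      have c3 : ¬ (i = 0) := by intro h0; nlinarith
      simp only [c1, c2, c3, if_true, if_false]
      norm_num
    · have h1 : i = 0 := by rw [hk, h, mul_zero]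
      have c1 : ¬ ((p : ℤ) * (((0 : ℕ) : ℤ) + 2) ≤ i) := by rw [h1]; push_cast; nlinarith
      have c2 : ¬ ((p : ℤ) * (((0 : ℕ) : ℤ) + 2) ≤ -i) := by rw [h1]; push_cast; nlinarith
      simp only [c1, c2, h1, if_true, if_false]
      norm_num
      nlinarith
    · have h1 : 2 * (p : ℤ) ≤ i := by rw [hk]; nlinarith
      have c1 : ((p : ℤ) * (((0 : ℕ) : ℤ) + 2) ≤ i) := by push_cast; nlinarith
      have c2 : ¬ ((p : ℤ) * (((0 : ℕ) : ℤ) + 2) ≤ -i) := by push_cast; nlinarith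
      have c3 : ¬ (i = 0) := by intro h0; nlinarith
      simp only [c1, c2, c3, if_true, if_false]
      norm_num
  · have h0 : ¬ (i = 0) := by
      intro h
      exact hd (h ▸ dvd_zero _)
    simp only [hd, h0, and_false, if_false]
    norm_num

theorem inv_eq_mlt_fus (hp : 2 ≤ p) (d : V →₀ ℕ) : invN d = mlt p 0 d + fus p d := by
  have key : swS (fun j => hM p 0 j + hF p j + (-1) * hI j) d = 0 := by
    refine numB_anti _ (fun j => ?_) d
    have a1 := cM0 p hp (j + 2)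
    have a2 := cM0 p hp j
    have a3 := cM0 p hp (j - 2)
    have b1 : -(j + 2) = -j - 2 := by ring
    have b2 : -(j - 2) = -j + 2 := by ring
    rw [b1] at a1
    rw [b2] at a3
    simp only [hM, hF_sp, hI_dl]
    have c1 : sp p (-j) = sp p j := sp_neg p j
    have c2 : sp p (-j - 2) = sp p (j + 2) := by rw [← b1, sp_neg]
    have c3 : dl (-j) = dl j := dl_neg j
    have c4 : dl (-j - 2) = dl (j + 2) := by rw [← b1, dl_neg]
    rw [c1, c2, c3, c4]
    linarith
  rw [swS_add, swS_add] at key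
  have h2 : swS (fun j => (-1) * hI j) d = - swS hI d := by
    unfold swS
    rw [← Finset.mul_sum]
    ring
  rw [h2] at key
  rw [invN_swS, fus_swS]
  unfold mlt
  linarith

theorem inv_add_single {e : V →₀ ℕ} {v : V} (he : e v = 0) (D : ℕ) :
    invN (e + Finsupp.single v D) = wm e D - wm e (D + 2) := by
  unfold invN
  rw [wm_add_single he, wm_add_single he, Finset.sum_range_succ', Finset.sum_range_succ]
  have h1 : ∀ Q : ℕ, (0 : ℤ) - D + 2 * ((Q + 1 : ℕ) : ℤ) = 2 - D + 2 * (Q : ℤ) := by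
    intro Q
    push_cast
    ring
  simp only [h1]
  have h2 : (0 : ℤ) - D + 2 * ((0 : ℕ) : ℤ) = -(D : ℤ) := by push_cast; ring
  have h3 : (2 : ℤ) - D + 2 * (D : ℤ) = D + 2 := by ring
  rw [h2, h3, wm_symm]
  ring

private theorem numB_er {e : V →₀ ℕ} {v : V} (he : e v = 0) (D : ℕ) :
    (e + Finsupp.single v D).erase v = e := by
  ext u
  by_cases hu : u = v
  · subst hu
    rw [Finsupp.erase_same, he]
  · rw [Finsupp.erase_ne hu, Finsupp.add_apply, Finsupp.single_eq_of_ne hu, add_zero]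

private theorem numB_val {e : V →₀ ℕ} {v : V} (he : e v = 0) (D : ℕ) :
    (e + Finsupp.single v D) v = D := by
  rw [Finsupp.add_apply, he, Finsupp.single_eq_same, zero_add]

private theorem swS_tel (g Δ : ℤ → ℤ) (hg : ∀ j, g j = Δ j - Δ (j - 2)) {e : V →₀ ℕ} {v : V}
    (he : e v = 0) (D : ℕ) :
    swS g (e + Finsupp.single v D) = swS (fun j => Δ (j + D) - Δ (j - D - 2)) e := by
  rw [swS_split _ _ v, numB_er he, numB_val he, ← swS_sum]
  congr 1
  funext j
  have h1 : ∀ x : ℕ, g (j + ((D : ℤ) - 2 * (x : ℤ))) =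
      (fun y : ℕ => Δ (j + D - 2 * (y : ℤ))) x - (fun y : ℕ => Δ (j + D - 2 * (y : ℤ))) (x + 1) := by
    intro x
    rw [hg]
    have e1 : j + ((D : ℤ) - 2 * (x : ℤ)) = j + D - 2 * (x : ℤ) := by ring
    have e2 : j + ((D : ℤ) - 2 * (x : ℤ)) - 2 = j + D - 2 * ((x + 1 : ℕ) : ℤ) := by
      push_cast
      ring
    rw [e2, e1]
  rw [Finset.sum_congr rfl fun x _ => h1 x, Finset.sum_range_sub']
  have e3 : j + (D : ℤ) - 2 * ((0 : ℕ) : ℤ) = j + D := by push_cast; ring
  have e4 : j + (D : ℤ) - 2 * ((D + 1 : ℕ) : ℤ) = j - D - 2 := by push_cast; ring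
  rw [e3, e4]

private theorem cM1 (hp : 2 ≤ p) (i : ℤ) :
    cM p 1 i + cM p 1 (-i) = sp p (i + p) - dl (i - p) - dl (i + p) := by
  unfold cM sp dl
  have hp' : (2 : ℤ) ≤ p := by exact_mod_cast hp
  have e0 : i + (p : ℤ) = (i - p) + 2 * p := by ring
  have e1 : ((2 * p : ℤ) ∣ i - p * ((1 : ℕ) : ℤ)) ↔ ((2 * p : ℤ) ∣ i + p) := by
    rw [e0, dvd_add_self_right]
    push_cast
    rw [mul_one]
  have e2 : ((2 * p : ℤ) ∣ -i - p * ((1 : ℕ) : ℤ)) ↔ ((2 * p : ℤ) ∣ i + p) := by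
    have : -i - (p : ℤ) * ((1 : ℕ) : ℤ) = -(i + p) := by push_cast; ring
    rw [this, dvd_neg]
  simp only [e1, e2]
  by_cases hd : (2 * p : ℤ) ∣ i + p
  · obtain ⟨k, hk⟩ := hd
    have hdv : (2 * p : ℤ) ∣ i + p := ⟨k, hk⟩
    simp only [hdv, and_true, if_true]
    rcases lt_trichotomy k 0 with h | h | h
    · have h1 : i + p ≤ -(2 * p) := by rw [hk]; nlinarith
      have c1 : ¬ ((p : ℤ) * (((1 : ℕ) : ℤ) + 2) ≤ i) := by push_cast; nlinarith
      have c2 : ((p : ℤ) * (((1 : ℕ) : ℤ) + 2) ≤ -i) := by push_cast; nlinarith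
      have c3 : ¬ (i - p = 0) := by intro h0; nlinarith
      have c4 : ¬ (i + p = 0) := by intro h0; nlinarith
      simp only [c1, c2, c3, c4, if_true, if_false]
      norm_num
    · have h1 : i + p = 0 := by rw [hk, h, mul_zero]
      have c1 : ¬ ((p : ℤ) * (((1 : ℕ) : ℤ) + 2) ≤ i) := by push_cast; nlinarith
      have c2 : ¬ ((p : ℤ) * (((1 : ℕ) : ℤ) + 2) ≤ -i) := by push_cast; nlinarith
      have c3 : ¬ (i - p = 0) := by intro h0; nlinarith
      simp only [c1, c2, c3, h1, if_true, if_false]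
      norm_num
    · rcases eq_or_lt_of_le (Int.add_one_le_iff.mpr h) with h' | h'
      · have h1 : i - p = 0 := by
          have : k = 1 := by omega
          rw [this, mul_one] at hk
          linarith
        have c1 : ¬ ((p : ℤ) * (((1 : ℕ) : ℤ) + 2) ≤ i) := by push_cast; nlinarith
        have c2 : ¬ ((p : ℤ) * (((1 : ℕ) : ℤ) + 2) ≤ -i) := by push_cast; nlinarith
        have c4 : ¬ (i + p = 0) := by intro h0; nlinarith
        simp only [c1, c2, c4, h1, if_true, if_false]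
        norm_num
      · have h2 : 2 ≤ k := by omega
        have h1 : 4 * (p : ℤ) ≤ i + p := by rw [hk]; nlinarith
        have c1 : ((p : ℤ) * (((1 : ℕ) : ℤ) + 2) ≤ i) := by push_cast; nlinarith
        have c2 : ¬ ((p : ℤ) * (((1 : ℕ) : ℤ) + 2) ≤ -i) := by push_cast; nlinarith
        have c3 : ¬ (i - p = 0) := by intro h0; nlinarith
        have c4 : ¬ (i + p = 0) := by intro h0; nlinarith
        simp only [c1, c2, c3, c4, if_true, if_false]
        norm_num
  · have h0 : ¬ (i + p = 0) := by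
      intro h
      exact hd (h ▸ dvd_zero _)
    have h1 : ¬ (i - p = 0) := by
      intro h
      apply hd
      rw [e0, h, zero_add]
    simp only [hd, h0, h1, and_false, if_false]
    norm_num

/-- (N1) -/
theorem inv_N1 (hp : 2 ≤ p) {e : V →₀ ℕ} {v : V} (he : e v = 0) {x : ℕ} (hx : x + 2 ≤ p) :
    invN (e + Finsupp.single v (p + x)) = mlt p 1 (e + Finsupp.single v x)
      + invN (e + Finsupp.single v (p - 2 - x)) - fus p (e + Finsupp.single v (p - 2 - x)) := by
  have hD : ((p - 2 - x : ℕ) : ℤ) = (p : ℤ) - 2 - x := by omega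
  rw [inv_add_single he, inv_add_single he, fus_swS, swS_tel (hF p) (sp p) (hF_sp p) he]
  unfold mlt
  rw [swS_tel (hM p 1) (fun i => cM p 1 (i + 2) - cM p 1 i) (by
    intro j
    unfold hM
    have : j - 2 + 2 = j := by ring
    simp only [this]
    ring) he, hD]
  rw [wm_dl, wm_dl, wm_dl, wm_dl]
  have key : swS (fun j => (dl (j - ((p + x : ℕ) : ℤ)) + (-1) * dl (j - (((p + x : ℕ) : ℤ) + 2)))
      + (-1) * ((cM p 1 (j + x + 2) - cM p 1 (j + x)) - (cM p 1 (j - x - 2 + 2) - cM p 1 (j - x - 2)))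
      + ((-1) * dl (j - ((p : ℤ) - 2 - x)) + dl (j - ((p : ℤ) - 2 - x + 2)))
      + (sp p (j + ((p : ℤ) - 2 - x)) - sp p (j - ((p : ℤ) - 2 - x) - 2))) e = 0 := by
    refine numB_anti _ (fun j => ?_) e
    have a1 := cM1 p hp (j + x + 2)
    have a2 := cM1 p hp (j + x)
    have a3 := cM1 p hp (j - x)
    have a4 := cM1 p hp (j - x - 2)
    have r1 : -(j + x + 2) = -j - x - 2 := by ring
    have r2 : -(j + (x : ℤ)) = -j - x := by ring
    have r3 : -(j - (x : ℤ)) = -j + x := by ring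
    have r4 : -(j - x - 2) = -j + x + 2 := by ring
    rw [r1] at a1
    rw [r2] at a2
    rw [r3] at a3
    rw [r4] at a4
    have q1 : j - (x : ℤ) - 2 + 2 = j - x := by ring
    have q2 : -j - (x : ℤ) - 2 + 2 = -j - x := by ring
    simp only [q1, q2]
    -- `sp` terms
    have s1 : sp p (j + ((p : ℤ) - 2 - x)) = sp p (j - x - 2 + p) := by congr 1; ring
    have s2 : sp p (j - ((p : ℤ) - 2 - x) - 2) = sp p (j + x + p) := by
      rw [← sp_add p (j - ((p : ℤ) - 2 - x) - 2)]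
      congr 1
      ring
    have s3 : sp p (-j + ((p : ℤ) - 2 - x)) = sp p (j + x + 2 + p) := by
      rw [← sp_neg, ← sp_add]
      congr 1
      ring
    have s4 : sp p (-j - ((p : ℤ) - 2 - x) - 2) = sp p (j - x + p) := by
      rw [← sp_neg]
      congr 1
      ring
    -- `dl` terms
    have d1 : dl (j - ((p + x : ℕ) : ℤ)) = dl (j - x - p) := by congr 1; push_cast; ring
    have d2 : dl (j - (((p + x : ℕ) : ℤ) + 2)) = dl (j - x - 2 - p) := by congr 1; push_cast; ring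
    have d3 : dl (j - ((p : ℤ) - 2 - x)) = dl (j + x + 2 - p) := by congr 1; ring
    have d4 : dl (j - ((p : ℤ) - 2 - x + 2)) = dl (j + x - p) := by congr 1; ring
    have d5 : dl (-j - ((p + x : ℕ) : ℤ)) = dl (j + x + p) := by
      rw [← dl_neg]; congr 1; push_cast; ring
    have d6 : dl (-j - (((p + x : ℕ) : ℤ) + 2)) = dl (j + x + 2 + p) := by
      rw [← dl_neg]; congr 1; push_cast; ring
    have d7 : dl (-j - ((p : ℤ) - 2 - x)) = dl (j - x - 2 + p) := by
      rw [← dl_neg]; congr 1; ring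
    have d8 : dl (-j - ((p : ℤ) - 2 - x + 2)) = dl (j - x + p) := by
      rw [← dl_neg]; congr 1; ring
    rw [s1, s2, s3, s4, d1, d2, d3, d4, d5, d6, d7, d8]
    linarith
  have hneg : ∀ g : ℤ → ℤ, swS (fun j => (-1) * g j) e = - swS g e := by
    intro g
    unfold swS
    rw [← Finset.mul_sum]
    ring
  simp only [swS_add, hneg] at key
  have hsub : ∀ g h : ℤ → ℤ, swS (fun j => g j - h j) e = swS g e - swS h e := by
    intro g h
    unfold swS
    rw [Finset.sum_sub_distrib]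
  simp only [hsub] at key ⊢
  linarith

end HKDet
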