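import Pool.Agent.Lib.HKDet.SpA
import Pool.Agent.Lib.FSig.OpsGr0

/-!
# Module SpI: identities for the polarisation operators

* IDENTITIES. `x ∈ S d w`, `d j = 1`, `i ≠ j`: write `x = a_j f + b_j g`, `f = ∂_{a_j} x`, `g = ∂_{b_j} x` (Euler for `j`: `a_j ∂_{a_j} x + b_j ∂_{b_j} x = (d j) x`), where `∂_{a_j} f = ∂_{b_j} f = 0` (`f` has degree `0` in `j`)
  and the same for `g`. EULER: `x ∈ S d w`: `a_v ∂_{a_v} x + b_v ∂_{b_v} x = (d v) • x` (on monomials, `S_induction`; coefficient `μ(v,false)+μ(v,true)`).
  (1) `pol i j (pol j i x) + [i j] omg i j x = (d i + 1) x`.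
      `pol j i x = a_i f + b_i g`; `pol i j` of it `= a_j (f + a_i ∂_{a_i} f + b_i ∂_{a_i} g) + b_j (a_i ∂_{b_i} f + g + b_i ∂_{b_i} g)`; `omg i j x = ∂_{a_i} g - ∂_{b_i} f`; sum `= a_j (f + (d i) f) + b_j (g + (d i) g)`.
  (2) `y ∈ S d' w`, `d' j = 0`: `pol j i (pol i j y) = (d' i) y`; `omg i j (pol i j y) = 0`.
  (3) `z ∈ S d'' w`, `d'' j = 0`: `omg i j ([i j] z) = (d'' i + 2) z`; `pol j i ([i j] z) = 0`.
* degrees: `pol i j` maps `S d w` to `S (d - e_i + e_j) w` (`1 ≤ d i`; if `d i = 0` it is zero), `omg i j` maps `S d w` to `S (d - e_i - e_j) w`; `[i j] *` raises the degree.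
  In the form needed below with `d j = 1`.
-/

namespace HKDet

open MvPolynomial FSig

variable {V : Type*} [DecidableEq V] {K : Type*} [Field K]

private lemma spI_pd_zero {d : V →₀ ℕ} {w : ℤ} {x : T V K} (hx : x ∈ S K d w) {v : V}
    (hv : d v = 0) (b : Bool) : pderiv (v, b) x = 0 := by
  refine S_induction K (fun f => pderiv (v, b) f = 0) (map_zero _) ?_ ?_ hx
  · intro f g hf hg
    rw [map_add, hf, hg, add_zero]
  · intro μ c h1 _
    have h2 := h1 v
    have h3 : μ (v, b) = 0 := by
      cases b <;> omega
    rw [pderiv_monomial, h3, Nat.cast_zero, mul_zero, map_zero]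

private lemma spI_wtm_single (x : V × Bool) (n : ℕ) :
    wtm (Finsupp.single x n) = if x.2 then -(n : ℤ) else (n : ℤ) := by
  unfold wtm
  rw [Finsupp.sum_single_index (by split_ifs <;> simp)]

private lemma spI_wtm_add (μ ν : V × Bool →₀ ℕ) : wtm (μ + ν) = wtm μ + wtm ν := by
  unfold wtm
  rw [Finsupp.sum_add_index']
  · intro x
    split_ifs <;> simp
  · intro x m n
    split_ifs
    · push_cast
      ring
    · push_cast
      ring

private lemma spI_pd_mem {d : V →₀ ℕ} {w : ℤ} {x : T V K} (hx : x ∈ S K d w) (v : V) (b : Bool) :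
    pderiv (v, b) x ∈ S K (d - Finsupp.single v 1) (w + if b then 1 else -1) := by
  refine S_induction K (fun f => pderiv (v, b) f ∈
    S K (d - Finsupp.single v 1) (w + if b then 1 else -1)) ?_ ?_ ?_ hx
  · rw [map_zero]
    exact Submodule.zero_mem _
  · intro f g hf hg
    rw [map_add]
    exact Submodule.add_mem _ hf hg
  · intro μ c h1 h2
    rw [pderiv_monomial]
    rcases Nat.eq_zero_or_pos (μ (v, b)) with h3 | h3
    · rw [h3, Nat.cast_zero, mul_zero, map_zero]
      exact Submodule.zero_mem _
    · have hle : Finsupp.single (v, b) 1 ≤ μ := by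
        rw [Finsupp.single_le_iff]
        exact h3
      obtain ⟨ν, hν⟩ := exists_add_of_le hle
      have h4 : μ - Finsupp.single (v, b) 1 = ν := by
        rw [hν, add_tsub_cancel_left]
      rw [h4]
      refine monomial_mem_S K _ ?_ ?_
      · intro u
        have h5 := h1 u
        rw [hν, Finsupp.add_apply, Finsupp.add_apply, Finsupp.single_apply,
          Finsupp.single_apply] at h5
        rw [Finsupp.tsub_apply, Finsupp.single_apply]
        by_cases huv : v = u
        · subst huv
          rw [if_pos rfl]
          cases b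
          · rw [if_pos rfl, if_neg (by simp)] at h5
            omega
          · rw [if_neg (by simp), if_pos rfl] at h5
            omega
        · rw [if_neg huv]
          rw [if_neg (fun h => huv (congrArg Prod.fst h)),
            if_neg (fun h => huv (congrArg Prod.fst h))] at h5
          omega
      · rw [hν, spI_wtm_add, spI_wtm_single] at h2
        rw [← h2]
        cases b
        · simp
        · simp

private lemma spI_euler {d : V →₀ ℕ} {w : ℤ} {x : T V K} (hx : x ∈ S K d w) (v : V) :
    va K v * pderiv (v, false) x + vb K v * pderiv (v, true) x = ((d v : ℕ) : K) • x := by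
  refine S_induction K (fun f => va K v * pderiv (v, false) f + vb K v * pderiv (v, true) f =
    ((d v : ℕ) : K) • f) ?_ ?_ ?_ hx
  · simp
  · intro f g hf hg
    rw [map_add, map_add, smul_add, ← hf, ← hg]
    ring
  · intro μ c h1 _
    have h2 := h1 v
    unfold va vb
    rw [X_mul_pderiv_monomial, X_mul_pderiv_monomial, ← h2, Nat.cast_add, add_smul,
      Nat.cast_smul_eq_nsmul, Nat.cast_smul_eq_nsmul]

private lemma spI_pd_comm (u v : V × Bool) (x : T V K) :
    pderiv u (pderiv v x) = pderiv v (pderiv u x) := by
  have h : ⁅(pderiv u : Derivation K (T V K) (T V K)),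
      (pderiv v : Derivation K (T V K) (T V K))⁆ = (0 : Derivation K (T V K) (T V K)) := by
    apply MvPolynomial.derivation_ext
    intro k
    rw [Derivation.commutator_apply, Derivation.zero_apply]
    have h1 : ∀ a b : V × Bool, (pderiv a (pderiv b (X k : T V K))) = 0 := by
      intro a b
      rw [pderiv_X]
      by_cases hbk : k = b
      · subst hbk
        rw [Pi.single_eq_same]
        exact Derivation.map_one_eq_zero _
      · rw [Pi.single_eq_of_ne hbk, map_zero]
    rw [h1, h1, sub_zero]
  have h2 := congrArg (fun D : Derivation K (T V K) (T V K) => D x) h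
  simp only [Derivation.commutator_apply, Derivation.zero_apply] at h2
  exact sub_eq_zero.1 h2

private lemma spI_pd_a_a (v : V) (f : T V K) :
    pderiv (v, false) (va K v * f) = f + va K v * pderiv (v, false) f := by
  unfold va
  rw [Derivation.leibniz, pderiv_X_self]
  simp only [smul_eq_mul, mul_one]
  ring
private lemma spI_pd_b_b (v : V) (f : T V K) :
    pderiv (v, true) (vb K v * f) = f + vb K v * pderiv (v, true) f := by
  unfold vb
  rw [Derivation.leibniz, pderiv_X_self]
  simp only [smul_eq_mul, mul_one]
  ring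
private lemma spI_pd_ne {u v : V × Bool} (h : v ≠ u) (f : T V K) :
    pderiv u ((X v : T V K) * f) = X v * pderiv u f := by
  rw [Derivation.leibniz, pderiv_X_of_ne h]
  simp

section
variable {i j : V} (hij : i ≠ j) {d : V →₀ ℕ} {w : ℤ}
include hij

theorem split_one {x : T V K} (hx : x ∈ S K d w) (hj : d j = 1) :
    pol i j (pol j i x) + br K i j * omg i j x = ((d i + 1 : ℕ) : K) • x := by
  have e0 := spI_euler hx j
  rw [hj, Nat.cast_one, one_smul] at e0
  have hdi : (d - Finsupp.single j 1 : V →₀ ℕ) i = d i := by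
    rw [Finsupp.tsub_apply, Finsupp.single_eq_of_ne hij, Nat.sub_zero]
  have e1 := spI_euler (spI_pd_mem hx j false) i
  have e2 := spI_euler (spI_pd_mem hx j true) i
  rw [hdi] at e1 e2
  rw [pol_apply j i, pol_apply i j, omg_apply]
  generalize hf : pderiv (j, false) x = f at *
  generalize hg : pderiv (j, true) x = g at *
  have a1 : pderiv (i, false) (va K i * f + vb K i * g) =
      f + va K i * pderiv (i, false) f + vb K i * pderiv (i, false) g := by
    rw [map_add, spI_pd_a_a]
    unfold vb
    rw [spI_pd_ne (by simp)]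
  have a2 : pderiv (i, true) (va K i * f + vb K i * g) =
      va K i * pderiv (i, true) f + (g + vb K i * pderiv (i, true) g) := by
    rw [map_add, spI_pd_b_b]
    unfold va
    rw [spI_pd_ne (by simp)]
  rw [a1, a2]
  unfold br
  have e3 : ((d i + 1 : ℕ) : K) • x = va K j * (f + ((d i : ℕ) : K) • f) +
      vb K j * (g + ((d i : ℕ) : K) • g) := by
    rw [← e0]
    push_cast
    simp only [add_smul, one_smul, smul_add, mul_add, mul_smul_comm]
    ring
  rw [e3, ← e1, ← e2]
  ring

theorem split_two {y : T V K} (hy : y ∈ S K d w) (hj : d j = 0) :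
    pol j i (pol i j y) = ((d i : ℕ) : K) • y := by
  have e0 := spI_euler hy i
  have hja : ∀ b c : Bool, pderiv (j, b) (pderiv (i, c) y) = 0 := by
    intro b c
    rw [spI_pd_comm, spI_pd_zero hy hj, map_zero]
  rw [pol_apply i j, pol_apply j i]
  have a1 : pderiv (j, false) (va K j * pderiv (i, false) y + vb K j * pderiv (i, true) y) =
      pderiv (i, false) y := by
    rw [map_add, spI_pd_a_a]
    unfold vb
    rw [spI_pd_ne (by simp), hja, hja]
    ring
  have a2 : pderiv (j, true) (va K j * pderiv (i, false) y + vb K j * pderiv (i, true) y) =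
      pderiv (i, true) y := by
    rw [map_add, spI_pd_b_b]
    unfold va
    rw [spI_pd_ne (by simp), hja, hja]
    ring
  rw [a1, a2, e0]

theorem split_three {y : T V K} (hy : y ∈ S K d w) (hj : d j = 0) : omg i j (pol i j y) = 0 := by
  have hja : ∀ b c : Bool, pderiv (j, b) (pderiv (i, c) y) = 0 := by
    intro b c
    rw [spI_pd_comm, spI_pd_zero hy hj, map_zero]
  rw [pol_apply i j, omg_apply]
  have a1 : pderiv (j, false) (va K j * pderiv (i, false) y + vb K j * pderiv (i, true) y) =
      pderiv (i, false) y := by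
    rw [map_add, spI_pd_a_a]
    unfold vb
    rw [spI_pd_ne (by simp), hja, hja]
    ring
  have a2 : pderiv (j, true) (va K j * pderiv (i, false) y + vb K j * pderiv (i, true) y) =
      pderiv (i, true) y := by
    rw [map_add, spI_pd_b_b]
    unfold va
    rw [spI_pd_ne (by simp), hja, hja]
    ring
  rw [a1, a2, spI_pd_comm, sub_self]

theorem split_four {z : T V K} (hz : z ∈ S K d w) (hj : d j = 0) :
    omg i j (br K i j * z) = ((d i + 2 : ℕ) : K) • z := by
  have e0 := spI_euler hz i
  have hij' : ∀ b c : Bool, ((i, b) : V × Bool) ≠ (j, c) := by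
    intro b c h
    exact hij (congrArg Prod.fst h)
  have hbr : br K i j * z = va K i * (vb K j * z) - vb K i * (va K j * z) := by
    unfold br
    ring
  rw [hbr, omg_apply]
  have a1 : pderiv (j, true) (va K i * (vb K j * z) - vb K i * (va K j * z)) = va K i * z := by
    rw [map_sub]
    unfold va vb
    rw [spI_pd_ne (hij' _ _), spI_pd_ne (hij' _ _),
      spI_pd_ne (u := (j, true)) (v := (j, false)) (by simp), spI_pd_zero hz hj]
    have := spI_pd_b_b (K := K) j z
    unfold vb at this
    rw [this, spI_pd_zero hz hj]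
    ring
  have a2 : pderiv (j, false) (va K i * (vb K j * z) - vb K i * (va K j * z)) =
      -(vb K i * z) := by
    rw [map_sub]
    unfold va vb
    rw [spI_pd_ne (hij' _ _), spI_pd_ne (hij' _ _),
      spI_pd_ne (u := (j, false)) (v := (j, true)) (by simp), spI_pd_zero hz hj]
    have := spI_pd_a_a (K := K) j z
    unfold va at this
    rw [this, spI_pd_zero hz hj]
    ring
  rw [a1, a2, map_neg, spI_pd_a_a, spI_pd_b_b]
  push_cast
  rw [add_smul, ← e0, ofNat_smul_eq_nsmul, two_nsmul]
  ring

theorem split_five {z : T V K} (hz : z ∈ S K d w) (hj : d j = 0) : pol j i (br K i j * z) = 0 := by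
  have hij' : ∀ b c : Bool, ((i, b) : V × Bool) ≠ (j, c) := by
    intro b c h
    exact hij (congrArg Prod.fst h)
  have hbr : br K i j * z = va K i * (vb K j * z) - vb K i * (va K j * z) := by
    unfold br
    ring
  rw [hbr, pol_apply]
  have a1 : pderiv (j, true) (va K i * (vb K j * z) - vb K i * (va K j * z)) = va K i * z := by
    rw [map_sub]
    unfold va vb
    rw [spI_pd_ne (hij' _ _), spI_pd_ne (hij' _ _),
      spI_pd_ne (u := (j, true)) (v := (j, false)) (by simp), spI_pd_zero hz hj]
    have := spI_pd_b_b (K := K) j z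
    unfold vb at this
    rw [this, spI_pd_zero hz hj]
    ring
  have a2 : pderiv (j, false) (va K i * (vb K j * z) - vb K i * (va K j * z)) =
      -(vb K i * z) := by
    rw [map_sub]
    unfold va vb
    rw [spI_pd_ne (hij' _ _), spI_pd_ne (hij' _ _),
      spI_pd_ne (u := (j, false)) (v := (j, true)) (by simp), spI_pd_zero hz hj]
    have := spI_pd_a_a (K := K) j z
    unfold va at this
    rw [this, spI_pd_zero hz hj]
    ring
  rw [a1, a2]
  ring

theorem pol_mem_S {x : T V K} (hx : x ∈ S K d w) (hj : d j = 1) :
    pol j i x ∈ S K (d + Finsupp.single i 1 - Finsupp.single j 1) w := by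
  rw [pol_apply]
  have hd : Finsupp.single i 1 + (d - Finsupp.single j 1) =
      d + Finsupp.single i 1 - Finsupp.single j 1 := by
    ext v
    simp only [Finsupp.add_apply, Finsupp.tsub_apply, Finsupp.single_apply]
    by_cases h1 : j = v
    · subst h1
      rw [if_neg hij, if_pos rfl]
      omega
    · rw [if_neg h1]
      omega
  refine Submodule.add_mem _ ?_ ?_
  · have h := mul_mem_S K (va_mem_S K i) (spI_pd_mem hx j false)
    rw [hd] at h
    have hw : (1 : ℤ) + (w + if (false : Bool) then 1 else -1) = w := by simp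
    rwa [hw] at h
  · have h := mul_mem_S K (vb_mem_S K i) (spI_pd_mem hx j true)
    rw [hd] at h
    have hw : (-1 : ℤ) + (w + if (true : Bool) then 1 else -1) = w := by simp
    rwa [hw] at h

theorem pol_mem_S' {y : T V K} (hj : d j = 1)
    (hy : y ∈ S K (d + Finsupp.single i 1 - Finsupp.single j 1) w) : pol i j y ∈ S K d w := by
  rw [pol_apply]
  have hd : Finsupp.single j 1 + (d + Finsupp.single i 1 - Finsupp.single j 1 -
      Finsupp.single i 1) = d := by
    ext v
    simp only [Finsupp.add_apply, Finsupp.tsub_apply, Finsupp.single_apply]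
    by_cases h1 : j = v
    · subst h1
      rw [if_neg hij, if_pos rfl]
      omega
    · rw [if_neg h1]
      omega
  refine Submodule.add_mem _ ?_ ?_
  · have h := mul_mem_S K (va_mem_S K j) (spI_pd_mem hy i false)
    rw [hd] at h
    have hw : (1 : ℤ) + (w + if (false : Bool) then 1 else -1) = w := by simp
    rwa [hw] at h
  · have h := mul_mem_S K (vb_mem_S K j) (spI_pd_mem hy i true)
    rw [hd] at h
    have hw : (-1 : ℤ) + (w + if (true : Bool) then 1 else -1) = w := by simp
    rwa [hw] at h

theorem omg_mem_S {x : T V K} (hx : x ∈ S K d w) (hj : d j = 1) (hi : 1 ≤ d i) :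
    omg i j x ∈ S K (d - Finsupp.single i 1 - Finsupp.single j 1) w := by
  rw [omg_apply]
  have hd : d - Finsupp.single j 1 - Finsupp.single i 1 =
      d - Finsupp.single i 1 - Finsupp.single j 1 := by
    ext v
    simp only [Finsupp.tsub_apply]
    omega
  refine Submodule.sub_mem _ ?_ ?_
  · have h := spI_pd_mem (spI_pd_mem hx j true) i false
    rw [hd] at h
    have hw : w + (if (true : Bool) then 1 else -1) + (if (false : Bool) then 1 else -1) = w := by
      simp
    rwa [hw] at h
  · have h := spI_pd_mem (spI_pd_mem hx j false) i true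
    rw [hd] at h
    have hw : w + (if (false : Bool) then 1 else -1) + (if (true : Bool) then 1 else -1) = w := by
      simp
    rwa [hw] at h

theorem br_mul_mem_S {z : T V K} (hj : d j = 1) (hi : 1 ≤ d i)
    (hz : z ∈ S K (d - Finsupp.single i 1 - Finsupp.single j 1) w) : br K i j * z ∈ S K d w := by
  have hbr : br K i j ∈ S K (Finsupp.single i 1 + Finsupp.single j 1) 0 := by
    unfold br
    refine Submodule.sub_mem _ ?_ ?_
    · have h := mul_mem_S K (va_mem_S K i) (vb_mem_S K j)
      have hw : (1 : ℤ) + -1 = 0 := by norm_num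
      rwa [hw] at h
    · have h := mul_mem_S K (vb_mem_S K i) (va_mem_S K j)
      have hw : (-1 : ℤ) + 1 = 0 := by norm_num
      rwa [hw] at h
  have h := mul_mem_S K hbr hz
  have hd : Finsupp.single i 1 + Finsupp.single j 1 +
      (d - Finsupp.single i 1 - Finsupp.single j 1) = d := by
    ext v
    simp only [Finsupp.add_apply, Finsupp.tsub_apply, Finsupp.single_apply]
    by_cases h1 : j = v
    · subst h1
      rw [if_neg hij, if_pos rfl]
      omega
    · rw [if_neg h1]
      by_cases h2 : i = v
      · subst h2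
        rw [if_pos rfl]
        omega
      · rw [if_neg h2]
        omega
  rw [hd, zero_add] at h
  exact h

theorem omg_eq_zero {x : T V K} (hx : x ∈ S K d w) (hi : d i = 0) : omg i j x = 0 := by
  rw [omg_apply, spI_pd_comm, spI_pd_zero hx hi, spI_pd_comm (i, true), spI_pd_zero hx hi,
    map_zero, map_zero, sub_zero]
end

end HKDet
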