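import Pool.Agent.Lib.HKDet.TR
import Pool.Agent.Lib.HKDet.SpI

/-!
# Module SpB: the splitting `M_(w,1) = M_(w+e_i) ⊕ M_(w-e_i)`, `w_i + 1 ≠ 0` mod `p`

PROOFS.
* `finrank_split` (pure linear algebra): `A, A₁, A₂` subspaces of `X` (finite-dimensional), `θ₁ θ₂ σ₁ σ₂ : X →ₗ X`, `c ≠ 0`, `θ_k` maps `A` to `A_k`, `σ_k` maps `A_k` to `A`, on `A`: `σ₁ θ₁ x + σ₂ θ₂ x = c x`,
  on `A₁`: `θ₁ σ₁ y = c y`, `θ₂ σ₁ y = 0`; on `A₂`: `θ₂ σ₂ z = c z`, `θ₁ σ₂ z = 0`. Then `A ≃ A₁ × A₂` by `x ↦ (θ₁ x, θ₂ x)`, inverse `(y, z) ↦ c⁻¹ (σ₁ y + σ₂ z)`. `LinearEquiv.finrank_eq`, `finrank_prod`.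
* `Fr_pol`, `Fr_omg`: `pderiv` is linear over `expand p f` (`pderiv_expand`, `pderiv_mul`), so `pderiv x` maps `Fr p J` to `Fr p J` (span of the products `g * expand p f`), hence `pol`, `omg`.
* `pol_NrmL`, `omg_NrmL`: `NrmL_comm` (`pol_E`, ..).
* `tt_split`: `X = T V K`, `θ₁ = pol j i`, `θ₂ = omg i j`, `σ₁ = pol i j`, `σ₂ = br i j *`, `c = d i + 1` (not divisible by `p`). With `d₊ = d + e_i - e_j` (`d₊ i = d i + 1`, `d₊ j = 0`) and
  `d₋ = d - e_i - e_j` (`d₋ i = d i - 1`, `d₋ j = 0`): `split_one`, `split_two` (`d₊ i = c`), `split_three`, `split_four` (`d₋ i + 2 = c`), `split_five`.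
  (a) `A = Fs Q d 0`, `A₁ = Fs Q d₊ 0`, `A₂ = Fs Q d₋ 0`. (b) `A = Fs P d 0 ⊔ gS Q d`, `A₁ = Fs P d₊ 0 ⊔ gS Q d₊`, `A₂ = ..`: `θ₁ (E 1 x) = E 1 (θ₁ x)`, `x ∈ Fs Q d (-2)`, etc. The identities hold on all of
  `S d 0`, `S d₊ 0`, `S d₋ 0`.
* `rr_split`: (c) `A = Fs P d 0 ⊔ (Fs Q d 0).map (NrmL p)`, (d) `A = Fs P d 0`.
* `tt_move`, `rr_move`: `d i = 0`, `d j = 1`: `θ₁`, `σ₁` alone: `σ₁ θ₁ x = x` (`split_one` with `d i + 1 = 1` and `omg_eq_zero`), `θ₁ σ₁ y = y` (`split_two`, `d₊ i = 1`): `finrank_split` with `A₂ = ⊥`,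
  `θ₂ = σ₂ = 0`.
-/

namespace HKDet

open MvPolynomial FSig

theorem finrank_split {K X : Type*} [Field K] [AddCommGroup X] [Module K X] (A A₁ A₂ : Submodule K X)
    [FiniteDimensional K A₁] [FiniteDimensional K A₂] (θ₁ θ₂ σ₁ σ₂ : X →ₗ[K] X) (c : K) (hc : c ≠ 0)
    (h1 : ∀ x ∈ A, θ₁ x ∈ A₁) (h2 : ∀ x ∈ A, θ₂ x ∈ A₂) (h3 : ∀ y ∈ A₁, σ₁ y ∈ A)
    (h4 : ∀ z ∈ A₂, σ₂ z ∈ A) (h5 : ∀ x ∈ A, σ₁ (θ₁ x) + σ₂ (θ₂ x) = c • x)
    (h6 : ∀ y ∈ A₁, θ₁ (σ₁ y) = c • y) (h7 : ∀ y ∈ A₁, θ₂ (σ₁ y) = 0)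
    (h8 : ∀ z ∈ A₂, θ₂ (σ₂ z) = c • z) (h9 : ∀ z ∈ A₂, θ₁ (σ₂ z) = 0) :
    Module.finrank K A = Module.finrank K A₁ + Module.finrank K A₂ := by
  have e : A ≃ₗ[K] A₁ × A₂ := by
    refine LinearEquiv.ofLinear ((θ₁.restrict h1).prod (θ₂.restrict h2))
      (c⁻¹ • ((σ₁.restrict h3).coprod (σ₂.restrict h4))) ?_ ?_
    · refine LinearMap.ext fun x => ?_
      obtain ⟨y, z⟩ := x
      refine Prod.ext (Subtype.ext ?_) (Subtype.ext ?_)
      · change θ₁ (c⁻¹ • (σ₁ (y : X) + σ₂ (z : X))) = (y : X)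
        rw [map_smul, map_add, h6 _ y.2, h9 _ z.2, add_zero, smul_smul, inv_mul_cancel₀ hc,
          one_smul]
      · change θ₂ (c⁻¹ • (σ₁ (y : X) + σ₂ (z : X))) = (z : X)
        rw [map_smul, map_add, h7 _ y.2, h8 _ z.2, zero_add, smul_smul, inv_mul_cancel₀ hc,
          one_smul]
    · refine LinearMap.ext fun x => Subtype.ext ?_
      change c⁻¹ • (σ₁ (θ₁ (x : X)) + σ₂ (θ₂ (x : X))) = (x : X)
      rw [h5 _ x.2, smul_smul, inv_mul_cancel₀ hc, one_smul]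
  rw [e.finrank_eq, Module.finrank_prod]

variable {V : Type*} [DecidableEq V] {K : Type*} [Field K] (p : ℕ) [Fact p.Prime] [CharP K p]

theorem Fr_pderiv (J : Ideal (T V K)) (u : V × Bool) {f : T V K} (hf : f ∈ Fr p J) :
    pderiv u f ∈ Fr p J := by
  unfold Fr at hf ⊢
  rw [Ideal.map] at hf
  induction hf using Submodule.span_induction with
  | mem x hx =>
    obtain ⟨g, _, rfl⟩ := hx
    rw [show pderiv u ((expand p : T V K →ₐ[K] T V K) g) = 0 from pderiv_expand p u g]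
    exact Ideal.zero_mem _
  | zero =>
    rw [map_zero]
    exact Ideal.zero_mem _
  | add x y _ _ hx hy =>
    rw [map_add]
    exact Ideal.add_mem _ hx hy
  | smul a x hx hx2 =>
    rw [smul_eq_mul, pderiv_mul]
    refine Ideal.add_mem _ ?_ ?_
    · exact Ideal.mul_mem_left _ _ hx
    · exact Ideal.mul_mem_left _ _ hx2
theorem Fr_pol (J : Ideal (T V K)) (i j : V) {f : T V K} (hf : f ∈ Fr p J) : pol i j f ∈ Fr p J := by
  rw [pol_apply]
  exact Ideal.add_mem _ (Ideal.mul_mem_left _ _ (Fr_pderiv p J _ hf))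
    (Ideal.mul_mem_left _ _ (Fr_pderiv p J _ hf))
theorem Fr_omg (J : Ideal (T V K)) (i j : V) {f : T V K} (hf : f ∈ Fr p J) : omg i j f ∈ Fr p J := by
  rw [omg_apply]
  exact Ideal.sub_mem _ (Fr_pderiv p J _ (Fr_pderiv p J _ hf))
    (Fr_pderiv p J _ (Fr_pderiv p J _ hf))

theorem pol_NrmL (i j : V) (x : T V K) : pol i j (NrmL p x) = NrmL p (pol i j x) :=
  NrmL_comm p (pol i j) (fun k y => pol_E i j k y) (fun k y => pol_F i j k y) x
theorem omg_NrmL (i j : V) (x : T V K) : omg i j (NrmL p x) = NrmL p (omg i j x) :=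
  NrmL_comm p (omg i j) (fun k y => omg_E i j k y) (fun k y => omg_F i j k y) x

/-- a linear map which moves the components of all Frobenius powers and commutes with `E`, `F` -/
private def Mv (θ : T V K →ₗ[K] T V K) (d d' : V →₀ ℕ) : Prop :=
  (∀ (J : Ideal (T V K)) (w : ℤ), ∀ x ∈ Fs p J d w, θ x ∈ Fs p J d' w) ∧
    (∀ k x, θ (E K k x) = E K k (θ x)) ∧ (∀ k x, θ (F K k x) = F K k (θ x))

omit [DecidableEq V] [Fact p.Prime] [CharP K p] in
private theorem Mv_gS {θ : T V K →ₗ[K] T V K} {d d' : V →₀ ℕ} (h : Mv p θ d d')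
    (Q : Ideal (T V K)) : ∀ x ∈ gS p Q d, θ x ∈ gS p Q d' := by
  obtain ⟨h1, h2, h3⟩ := h
  have key : gS p Q d ≤ (gS p Q d').comap θ := by
    unfold gS
    refine sup_le (sup_le ?_ ?_) (sup_le ?_ ?_)
    · rintro _ ⟨x, hx, rfl⟩
      rw [Submodule.mem_comap, h2]
      exact Submodule.mem_sup_left (Submodule.mem_sup_left ⟨_, h1 Q _ x hx, rfl⟩)
    · rintro _ ⟨x, hx, rfl⟩
      rw [Submodule.mem_comap, h3]
      exact Submodule.mem_sup_left (Submodule.mem_sup_right ⟨_, h1 Q _ x hx, rfl⟩)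
    · rintro _ ⟨x, hx, rfl⟩
      rw [Submodule.mem_comap, h2]
      exact Submodule.mem_sup_right (Submodule.mem_sup_left ⟨_, h1 Q _ x hx, rfl⟩)
    · rintro _ ⟨x, hx, rfl⟩
      rw [Submodule.mem_comap, h3]
      exact Submodule.mem_sup_right (Submodule.mem_sup_right ⟨_, h1 Q _ x hx, rfl⟩)
  exact key

omit [DecidableEq V] [Fact p.Prime] [CharP K p] in
private theorem Mv_tt {θ : T V K →ₗ[K] T V K} {d d' : V →₀ ℕ} (h : Mv p θ d d')
    (P Q : Ideal (T V K)) : ∀ x ∈ Fs p P d 0 ⊔ gS p Q d, θ x ∈ Fs p P d' 0 ⊔ gS p Q d' := by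
  have key : Fs p P d 0 ⊔ gS p Q d ≤ (Fs p P d' 0 ⊔ gS p Q d').comap θ :=
    sup_le (fun x hx => Submodule.mem_sup_left (h.1 P 0 x hx))
      (fun x hx => Submodule.mem_sup_right (Mv_gS p h Q x hx))
  exact key

omit [DecidableEq V] in
private theorem Mv_rr {θ : T V K →ₗ[K] T V K} {d d' : V →₀ ℕ} (h : Mv p θ d d')
    (P Q : Ideal (T V K)) : ∀ x ∈ Fs p P d 0 ⊔ (Fs p Q d 0).map (NrmL p),
      θ x ∈ Fs p P d' 0 ⊔ (Fs p Q d' 0).map (NrmL p) := by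
  have key : Fs p P d 0 ⊔ (Fs p Q d 0).map (NrmL p)
      ≤ (Fs p P d' 0 ⊔ (Fs p Q d' 0).map (NrmL p)).comap θ := by
    refine sup_le (fun x hx => Submodule.mem_sup_left (h.1 P 0 x hx)) ?_
    rintro _ ⟨x, hx, rfl⟩
    rw [Submodule.mem_comap, NrmL_comm p θ h.2.1 h.2.2]
    exact Submodule.mem_sup_right ⟨_, h.1 Q 0 x hx, rfl⟩
  exact key

omit [DecidableEq V] [Fact p.Prime] [CharP K p] in
private theorem Fs_iff {J : Ideal (T V K)} {d : V →₀ ℕ} {w : ℤ} {x : T V K} :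
    x ∈ Fs p J d w ↔ x ∈ Fr p J ∧ x ∈ S K d w := Iff.rfl

omit [DecidableEq V] [Fact p.Prime] [CharP K p] in
private theorem Fs_le_S (J : Ideal (T V K)) (d : V →₀ ℕ) (w : ℤ) : Fs p J d w ≤ S K d w :=
  inf_le_right

omit [DecidableEq V] in
private theorem tt_le_S {P Q : Ideal (T V K)} (hQ : Good Q) (d : V →₀ ℕ) :
    Fs p P d 0 ⊔ gS p Q d ≤ S K d 0 :=
  sup_le (Fs_le_S p P d 0) ((gS_le p hQ d).trans (Fs_le_S p Q d 0))

omit [DecidableEq V] in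
private theorem rr_le_S {P Q : Ideal (T V K)} (hQ : Good Q) (d : V →₀ ℕ) :
    Fs p P d 0 ⊔ (Fs p Q d 0).map (NrmL p) ≤ S K d 0 := by
  refine sup_le (Fs_le_S p P d 0) ?_
  rintro _ ⟨x, hx, rfl⟩
  exact Fs_le_S p Q d 0 (NrmL_mem_Fs p hQ hx)

/-- multiplication by a bracket -/
private noncomputable def mbr (i j : V) : T V K →ₗ[K] T V K := LinearMap.mulLeft K (br K i j)

omit [DecidableEq V] in
private theorem mbr_apply (i j : V) (x : T V K) : mbr i j x = br K i j * x := rfl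

private theorem Mv_one {d : V →₀ ℕ} {i j : V} (hij : i ≠ j) (hj : d j = 1) :
    Mv p (pol j i : T V K →ₗ[K] T V K) d (d + Finsupp.single i 1 - Finsupp.single j 1) := by
  refine ⟨?_, fun k x => pol_E j i k x, fun k x => pol_F j i k x⟩
  intro J w x hx
  rw [Fs_iff] at hx ⊢
  exact ⟨Fr_pol p J j i hx.1, pol_mem_S hij hx.2 hj⟩

private theorem Mv_two {d : V →₀ ℕ} {i j : V} (hij : i ≠ j) (hj : d j = 1) :
    Mv p (pol i j : T V K →ₗ[K] T V K) (d + Finsupp.single i 1 - Finsupp.single j 1) d := by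
  refine ⟨?_, fun k x => pol_E i j k x, fun k x => pol_F i j k x⟩
  intro J w x hx
  rw [Fs_iff] at hx ⊢
  exact ⟨Fr_pol p J i j hx.1, pol_mem_S' hij hj hx.2⟩

private theorem Mv_three {d : V →₀ ℕ} {i j : V} (hij : i ≠ j) (hj : d j = 1) (hi : 1 ≤ d i) :
    Mv p (omg i j : T V K →ₗ[K] T V K) d (d - Finsupp.single i 1 - Finsupp.single j 1) := by
  refine ⟨?_, fun k x => omg_E i j k x, fun k x => omg_F i j k x⟩
  intro J w x hx
  rw [Fs_iff] at hx ⊢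
  exact ⟨Fr_omg p J i j hx.1, omg_mem_S hij hx.2 hj hi⟩

private theorem Mv_four {d : V →₀ ℕ} {i j : V} (hij : i ≠ j) (hj : d j = 1) (hi : 1 ≤ d i) :
    Mv p (mbr i j : T V K →ₗ[K] T V K) (d - Finsupp.single i 1 - Finsupp.single j 1) d := by
  refine ⟨?_, fun k x => ?_, fun k x => ?_⟩
  · intro J w x hx
    rw [Fs_iff] at hx ⊢
    rw [mbr_apply]
    exact ⟨Ideal.mul_mem_left _ _ hx.1, br_mul_mem_S hij hj hi hx.2⟩
  · rw [mbr_apply, mbr_apply, E_Inv_mul K (br_mem_Inv K i j)]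
  · rw [mbr_apply, mbr_apply, F_Inv_mul K (br_mem_Inv K i j)]

private theorem cast_ne {m : ℕ} (h : ¬ p ∣ m) : ((m : ℕ) : K) ≠ 0 := by
  rw [Ne, CharP.cast_eq_zero_iff K p]
  exact h

private theorem core {d : V →₀ ℕ} {i j : V} (hij : i ≠ j) (hj : d j = 1) (hi : 1 ≤ d i)
    (hi' : ¬ p ∣ d i + 1) (A A₁ A₂ : Submodule K (T V K)) (hA : A ≤ S K d 0)
    (hA₁ : A₁ ≤ S K (d + Finsupp.single i 1 - Finsupp.single j 1) 0)
    (hA₂ : A₂ ≤ S K (d - Finsupp.single i 1 - Finsupp.single j 1) 0)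
    (h1 : ∀ x ∈ A, pol j i x ∈ A₁) (h2 : ∀ x ∈ A, omg i j x ∈ A₂)
    (h3 : ∀ y ∈ A₁, pol i j y ∈ A) (h4 : ∀ z ∈ A₂, mbr i j z ∈ A) :
    Module.finrank K A = Module.finrank K A₁ + Module.finrank K A₂ := by
  have hf1 : FiniteDimensional K A₁ := by
    have := finite_S K (d + Finsupp.single i 1 - Finsupp.single j 1) 0
    exact Submodule.finiteDimensional_of_le hA₁
  have hf2 : FiniteDimensional K A₂ := by
    have := finite_S K (d - Finsupp.single i 1 - Finsupp.single j 1) 0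
    exact Submodule.finiteDimensional_of_le hA₂
  have e1 : (d + Finsupp.single i 1 - Finsupp.single j 1 : V →₀ ℕ) j = 0 := by
    simp [hj, Finsupp.single_apply, hij]
  have e2 : (d + Finsupp.single i 1 - Finsupp.single j 1 : V →₀ ℕ) i = d i + 1 := by
    simp [Finsupp.single_apply, hij.symm]
  have e3 : (d - Finsupp.single i 1 - Finsupp.single j 1 : V →₀ ℕ) j = 0 := by
    simp [hj, Finsupp.single_apply, hij]
  have e4 : (d - Finsupp.single i 1 - Finsupp.single j 1 : V →₀ ℕ) i = d i - 1 := by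
    simp [Finsupp.single_apply, hij.symm]
  refine finrank_split A A₁ A₂ (pol j i) (omg i j) (pol i j) (mbr i j) ((d i + 1 : ℕ) : K)
    (cast_ne p hi') h1 h2 h3 h4 ?_ ?_ ?_ ?_ ?_
  · intro x hx
    rw [mbr_apply]
    exact split_one hij (hA hx) hj
  · intro y hy
    rw [split_two hij (hA₁ hy) e1, e2]
  · intro y hy
    exact split_three hij (hA₁ hy) e1
  · intro z hz
    rw [mbr_apply, split_four hij (hA₂ hz) e3, e4]
    congr 2
    omega
  · intro z hz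
    rw [mbr_apply]
    exact split_five hij (hA₂ hz) e3

private theorem core_move {d : V →₀ ℕ} {i j : V} (hij : i ≠ j) (hj : d j = 1) (hi : d i = 0)
    (A A₁ : Submodule K (T V K)) (hA : A ≤ S K d 0)
    (hA₁ : A₁ ≤ S K (d + Finsupp.single i 1 - Finsupp.single j 1) 0)
    (h1 : ∀ x ∈ A, pol j i x ∈ A₁) (h3 : ∀ y ∈ A₁, pol i j y ∈ A) :
    Module.finrank K A = Module.finrank K A₁ := by
  have hf1 : FiniteDimensional K A₁ := by
    have := finite_S K (d + Finsupp.single i 1 - Finsupp.single j 1) 0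
    exact Submodule.finiteDimensional_of_le hA₁
  have e1 : (d + Finsupp.single i 1 - Finsupp.single j 1 : V →₀ ℕ) j = 0 := by
    simp [hj, Finsupp.single_apply, hij]
  have e2 : (d + Finsupp.single i 1 - Finsupp.single j 1 : V →₀ ℕ) i = 1 := by
    simp [Finsupp.single_apply, hij.symm, hi]
  have h := finrank_split A A₁ ⊥ (pol j i) 0 (pol i j) 0 (1 : K) one_ne_zero h1
    (fun x _ => Submodule.zero_mem _) h3 (fun x _ => Submodule.zero_mem _) ?_ ?_ ?_ ?_ ?_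
  · rw [finrank_bot, add_zero] at h
    exact h
  · intro x hx
    have h5 := split_one hij (hA hx) hj
    rw [omg_eq_zero hij (hA hx) hi, mul_zero, hi] at h5
    simpa using h5
  · intro y hy
    rw [split_two hij (hA₁ hy) e1, e2]
    simp
  · intro y _
    rfl
  · intro z hz
    rw [Submodule.mem_bot] at hz
    rw [hz]
    simp
  · intro z _
    simp

section
variable {P Q : Ideal (T V K)} (hPQ : P ≤ Q) (hP : Good P) (hQ : Good Q) {d : V →₀ ℕ} {i j : V}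
  (hij : i ≠ j) (hj : d j = 1)
include hPQ hP hQ hij hj

/-- (S) -/
theorem tt_split (hi : 1 ≤ d i) (hi' : ¬ p ∣ d i + 1) :
    tt p P Q d = tt p P Q (d + Finsupp.single i 1 - Finsupp.single j 1)
      + tt p P Q (d - Finsupp.single i 1 - Finsupp.single j 1) := by
  have m1 := Mv_one (K := K) p hij hj
  have m2 := Mv_two (K := K) p hij hj
  have m3 := Mv_three (K := K) p hij hj hi
  have m4 := Mv_four (K := K) p hij hj hi
  have a := core p hij hj hi hi' (Fs p Q d 0) _ _ (Fs_le_S p Q d 0) (Fs_le_S p Q _ 0)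
    (Fs_le_S p Q _ 0) (m1.1 Q 0) (m3.1 Q 0) (m2.1 Q 0) (m4.1 Q 0)
  have b := core p hij hj hi hi' (Fs p P d 0 ⊔ gS p Q d) _ _ (tt_le_S p hQ d) (tt_le_S p hQ _)
    (tt_le_S p hQ _) (Mv_tt p m1 P Q) (Mv_tt p m3 P Q) (Mv_tt p m2 P Q) (Mv_tt p m4 P Q)
  unfold tt
  rw [a, b]
  push_cast
  ring
theorem rr_split (hi : 1 ≤ d i) (hi' : ¬ p ∣ d i + 1) :
    rr p P Q d = rr p P Q (d + Finsupp.single i 1 - Finsupp.single j 1)
      + rr p P Q (d - Finsupp.single i 1 - Finsupp.single j 1) := by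
  have m1 := Mv_one (K := K) p hij hj
  have m2 := Mv_two (K := K) p hij hj
  have m3 := Mv_three (K := K) p hij hj hi
  have m4 := Mv_four (K := K) p hij hj hi
  have a := core p hij hj hi hi' (Fs p P d 0) _ _ (Fs_le_S p P d 0) (Fs_le_S p P _ 0)
    (Fs_le_S p P _ 0) (m1.1 P 0) (m3.1 P 0) (m2.1 P 0) (m4.1 P 0)
  have b := core p hij hj hi hi' (Fs p P d 0 ⊔ (Fs p Q d 0).map (NrmL p)) _ _ (rr_le_S p hQ d)
    (rr_le_S p hQ _) (rr_le_S p hQ _) (Mv_rr p m1 P Q) (Mv_rr p m3 P Q) (Mv_rr p m2 P Q)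
    (Mv_rr p m4 P Q)
  unfold rr
  rw [a, b]
  push_cast
  ring

theorem tt_move (hi : d i = 0) :
    tt p P Q d = tt p P Q (d + Finsupp.single i 1 - Finsupp.single j 1) := by
  have m1 := Mv_one (K := K) p hij hj
  have m2 := Mv_two (K := K) p hij hj
  have a := core_move hij hj hi (Fs p Q d 0) _ (Fs_le_S p Q d 0) (Fs_le_S p Q _ 0)
    (m1.1 Q 0) (m2.1 Q 0)
  have b := core_move hij hj hi (Fs p P d 0 ⊔ gS p Q d) _ (tt_le_S p hQ d) (tt_le_S p hQ _)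
    (Mv_tt p m1 P Q) (Mv_tt p m2 P Q)
  unfold tt
  rw [a, b]
theorem rr_move (hi : d i = 0) :
    rr p P Q d = rr p P Q (d + Finsupp.single i 1 - Finsupp.single j 1) := by
  have m1 := Mv_one (K := K) p hij hj
  have m2 := Mv_two (K := K) p hij hj
  have a := core_move hij hj hi (Fs p P d 0) _ (Fs_le_S p P d 0) (Fs_le_S p P _ 0)
    (m1.1 P 0) (m2.1 P 0)
  have b := core_move hij hj hi (Fs p P d 0 ⊔ (Fs p Q d 0).map (NrmL p)) _ (rr_le_S p hQ d)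
    (rr_le_S p hQ _) (Mv_rr p m1 P Q) (Mv_rr p m2 P Q)
  unfold rr
  rw [a, b]
end

end HKDet
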