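import Mathlib

/-!
# Module Uq: the uniqueness lemma with a degree bound and frozen vectors (only Mathlib)

As `FSig.uniq` (file `Pool/Agent/Lib/FSig/Rec3.lean`, complete proof there; copy and adapt): `V` infinite, `O` a finite set of frozen vectors (on which `d` is zero), everything only for `d.degree ≤ D`.

PROOF. (a) `d = single v a + 1_A`, `v ∉ A`, `v ∉ O`, `A` disjoint from `O`, `a ≤ p - 1`: induction on `card A`, as `st1` in `Rec3.lean`: `card A = 0`: `h3` or `h2`. Step: `a = p - 1`: `h2`. `a = 0`: `1_A = single w 1 + 1_{A \ w}`.
`1 ≤ a ≤ p - 2`: `h1` with `i = v`, `j = w ∈ A`: `τ(single v (a+1) + 1_{A \ w}) + τ(single v (a-1) + 1_{A\w})`; degrees do not increase (`d.degree = a + card A`).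
(b) general `d`: strong induction on `∑ (d v - 1)`; if some `d i ≥ 2` take a fresh vector `w ∉ supp d ∪ O` and apply `h1` to `d - e_i + e_w` (same degree as `d`), `j = w`: `τ(d - e_i + e_w) = τ(d) + τ(d - 2 e_i)`; both other terms have
smaller `∑ (d v - 1)` and degree `≤ D`. If all `d v ≤ 1`, `d = 1_A`: (a) with `a = 0` and a fresh `v`.
-/

namespace HKDet

private noncomputable def I {V : Type*} (A : Finset V) : V →₀ ℕ := ∑ w ∈ A, Finsupp.single w 1

private theorem I_mem {V : Type*} {A : Finset V} {u : V} (h : u ∈ A) : I A u = 1 := by
  classical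
  unfold I
  rw [Finsupp.finsetSum_apply, Finset.sum_eq_single u]
  · simp
  · intro b _ hb
    exact Finsupp.single_eq_of_ne (Ne.symm hb)
  · intro h'
    exact absurd h h'

private theorem I_nmem {V : Type*} {A : Finset V} {u : V} (h : u ∉ A) : I A u = 0 := by
  classical
  unfold I
  rw [Finsupp.finsetSum_apply]
  refine Finset.sum_eq_zero fun b hb => ?_
  refine Finsupp.single_eq_of_ne ?_
  rintro rfl
  exact h hb

private theorem I_le {V : Type*} (A : Finset V) (u : V) : I A u ≤ 1 := by
  by_cases h : u ∈ A
  · rw [I_mem h]
  · rw [I_nmem h]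
    exact Nat.zero_le _

private theorem I_deg {V : Type*} (A : Finset V) : (I A).degree = A.card := by
  unfold I
  rw [map_sum, Finset.card_eq_sum_ones]
  refine Finset.sum_congr rfl fun w _ => ?_
  exact Finsupp.degree_single w 1

private theorem st1 {V : Type*} (p : ℕ) (hp : 2 ≤ p) (O : Finset V) (D : ℕ) (τ : (V →₀ ℕ) → ℤ)
    (h1 : ∀ (d : V →₀ ℕ) (i j : V), i ∉ O → j ∉ O → i ≠ j → d j = 1 → 1 ≤ d i → d i ≤ p - 2 →
      (∀ v ∈ O, d v = 0) → (∀ v, d v ≤ p - 1) → d.degree ≤ D →
      τ d = τ (d + Finsupp.single i 1 - Finsupp.single j 1)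
        + τ (d - Finsupp.single i 1 - Finsupp.single j 1))
    (h2 : ∀ d : V →₀ ℕ, (∀ v ∈ O, d v = 0) → (∀ v, d v ≤ p - 1) → (∃ v, d v = p - 1) →
      d.degree ≤ D → τ d = 0)
    (h3 : ∀ (v : V) (k : ℕ), v ∉ O → k ≤ p - 2 → k ≤ D → τ (Finsupp.single v k) = 0) (k : ℕ) :
    ∀ (A : Finset V) (v : V) (a : ℕ), A.card = k → v ∉ A → a ≤ p - 1 → v ∉ O →
      (∀ u ∈ A, u ∉ O) → a + k ≤ D → τ (Finsupp.single v a + I A) = 0 := by
  classical
  induction k with
  | zero =>
    intro A v a hA hv ha hvO hAO hD
    have hA' : A = ∅ := Finset.card_eq_zero.1 hA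
    subst hA'
    have e : Finsupp.single v a + I (∅ : Finset V) = Finsupp.single v a := by
      unfold I
      rw [Finset.sum_empty, add_zero]
    rw [e]
    by_cases h : a = p - 1
    · refine h2 _ (fun u hu => ?_) (fun u => ?_) ⟨v, ?_⟩ ?_
      · refine Finsupp.single_eq_of_ne ?_
        rintro rfl
        exact hvO hu
      · by_cases hu : v = u
        · subst hu
          rw [Finsupp.single_eq_same]
          exact ha
        · rw [Finsupp.single_eq_of_ne (Ne.symm hu)]
          exact Nat.zero_le _
      · rw [Finsupp.single_eq_same, h]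
      · rw [Finsupp.degree_single]
        omega
    · exact h3 v a hvO (by omega) (by omega)
  | succ k ih =>
    intro A v a hA hv ha hvO hAO hD
    have hdeg : (Finsupp.single v a + I A).degree ≤ D := by
      rw [map_add, Finsupp.degree_single, I_deg, hA]
      omega
    have hOz : ∀ u ∈ O, (Finsupp.single v a + I A) u = 0 := by
      intro u hu
      rw [Finsupp.add_apply, I_nmem fun h' => hAO u h' hu, Finsupp.single_eq_of_ne, add_zero]
      rintro rfl
      exact hvO hu
    have hent : ∀ u, (Finsupp.single v a + I A) u ≤ p - 1 := by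
      intro u
      rw [Finsupp.add_apply]
      by_cases hu : v = u
      · subst hu
        rw [Finsupp.single_eq_same, I_nmem hv]
        omega
      · rw [Finsupp.single_eq_of_ne (Ne.symm hu)]
        have := I_le A u
        omega
    have hdv : (Finsupp.single v a + I A) v = a := by
      rw [Finsupp.add_apply, Finsupp.single_eq_same, I_nmem hv, add_zero]
    by_cases h : a = p - 1
    · exact h2 _ hOz hent ⟨v, by rw [hdv, h]⟩ hdeg
    · obtain ⟨w, hw⟩ : A.Nonempty := by
        rw [← Finset.card_pos]
        omega
      have hvw : v ≠ w := by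
        rintro rfl
        exact hv hw
      have hc : (A.erase w).card = k := by
        rw [Finset.card_erase_of_mem hw, hA]
        rfl
      have hIA : ∀ u, I A u = (if u = w then 1 else 0) + I (A.erase w) u := by
        intro u
        by_cases hu : u = w
        · subst hu
          rw [I_mem hw, I_nmem (Finset.notMem_erase _ _), if_pos rfl]
        · rw [if_neg hu, zero_add]
          by_cases hu' : u ∈ A
          · rw [I_mem hu', I_mem (Finset.mem_erase.2 ⟨hu, hu'⟩)]
          · rw [I_nmem hu', I_nmem fun h' => hu' (Finset.mem_of_mem_erase h')]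
      by_cases ha0 : a = 0
      · subst ha0
        have e : Finsupp.single v 0 + I A = Finsupp.single w 1 + I (A.erase w) := by
          ext u
          rw [Finsupp.add_apply, Finsupp.add_apply, hIA u, Finsupp.single_zero,
            Finsupp.coe_zero, Pi.zero_apply, zero_add, Finsupp.single_apply]
          simp only [eq_comm]
        rw [e]
        exact ih _ w 1 hc (Finset.notMem_erase _ _) (by omega) (hAO w hw)
          (fun u hu => hAO u (Finset.mem_of_mem_erase hu)) (by omega)
      · have hdw : (Finsupp.single v a + I A) w = 1 := by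
          rw [Finsupp.add_apply, Finsupp.single_eq_of_ne (Ne.symm hvw), I_mem hw]
        have hs := h1 (Finsupp.single v a + I A) v w hvO (hAO w hw) hvw hdw
          (by rw [hdv]; omega) (by rw [hdv]; omega) hOz hent hdeg
        have hAO' : ∀ u ∈ A.erase w, u ∉ O := fun u hu => hAO u (Finset.mem_of_mem_erase hu)
        have hv' : v ∉ A.erase w := fun h' => hv (Finset.mem_of_mem_erase h')
        have e1 : Finsupp.single v a + I A + Finsupp.single v 1 - Finsupp.single w 1 =
            Finsupp.single v (a + 1) + I (A.erase w) := by
          ext u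
          simp only [Finsupp.tsub_apply, Finsupp.add_apply, hIA u, Finsupp.single_apply]
          by_cases hu : u = w
          · subst hu
            rw [if_neg hvw, if_neg hvw, if_neg hvw, if_pos rfl]
            omega
          · rw [if_neg hu, if_neg (Ne.symm hu)]
            by_cases hu2 : v = u
            · rw [if_pos hu2, if_pos hu2, if_pos hu2]
              omega
            · rw [if_neg hu2, if_neg hu2, if_neg hu2]
              omega
        have e2 : Finsupp.single v a + I A - Finsupp.single v 1 - Finsupp.single w 1 =
            Finsupp.single v (a - 1) + I (A.erase w) := by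
          ext u
          simp only [Finsupp.tsub_apply, Finsupp.add_apply, hIA u, Finsupp.single_apply]
          by_cases hu : u = w
          · subst hu
            rw [if_neg hvw, if_neg hvw, if_neg hvw, if_pos rfl]
            omega
          · rw [if_neg hu, if_neg (Ne.symm hu)]
            by_cases hu2 : v = u
            · rw [if_pos hu2, if_pos hu2, if_pos hu2]
              omega
            · rw [if_neg hu2, if_neg hu2, if_neg hu2]
              omega
        rw [hs, e1, e2, ih _ v (a + 1) hc hv' (by omega) hvO hAO' (by omega),
          ih _ v (a - 1) hc hv' (by omega) hvO hAO' (by omega), add_zero]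

private noncomputable def MM {V : Type*} (d : V →₀ ℕ) : ℕ := d.sum fun _ x => x - 1

private theorem MM_lt {V : Type*} (S : Finset V) (d d' : V →₀ ℕ) (hd : d.support ⊆ S)
    (hd' : d'.support ⊆ S) (hle : ∀ v, d' v - 1 ≤ d v - 1) (i : V) (hi : d' i - 1 < d i - 1) :
    MM d' < MM d := by
  classical
  unfold MM
  rw [Finsupp.sum_of_support_subset d hd _ (fun _ _ => rfl),
    Finsupp.sum_of_support_subset d' hd' _ (fun _ _ => rfl)]
  refine Finset.sum_lt_sum (fun v _ => hle v) ⟨i, ?_, hi⟩
  refine hd (Finsupp.mem_support_iff.2 ?_)
  omega

theorem uniqB {V : Type*} [Infinite V] (p : ℕ) (hp : 2 ≤ p) (O : Finset V) (D : ℕ) (τ : (V →₀ ℕ) → ℤ)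
    (h1 : ∀ (d : V →₀ ℕ) (i j : V), i ∉ O → j ∉ O → i ≠ j → d j = 1 → 1 ≤ d i → d i ≤ p - 2 →
      (∀ v ∈ O, d v = 0) → (∀ v, d v ≤ p - 1) → d.degree ≤ D →
      τ d = τ (d + Finsupp.single i 1 - Finsupp.single j 1)
        + τ (d - Finsupp.single i 1 - Finsupp.single j 1))
    (h2 : ∀ d : V →₀ ℕ, (∀ v ∈ O, d v = 0) → (∀ v, d v ≤ p - 1) → (∃ v, d v = p - 1) →
      d.degree ≤ D → τ d = 0)
    (h3 : ∀ (v : V) (k : ℕ), v ∉ O → k ≤ p - 2 → k ≤ D → τ (Finsupp.single v k) = 0)
    (d : V →₀ ℕ) (hO : ∀ v ∈ O, d v = 0) (hd : ∀ v, d v ≤ p - 1) (hD : d.degree ≤ D) : τ d = 0 := by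
  classical
  obtain ⟨n, hn⟩ : ∃ n, MM d = n := ⟨_, rfl⟩
  induction n using Nat.strong_induction_on generalizing d with
  | _ n ih =>
    obtain ⟨w, hwOd⟩ := Infinite.exists_notMem_finset (d.support ∪ O)
    rw [Finset.mem_union, not_or] at hwOd
    obtain ⟨hw, hwO⟩ := hwOd
    have hw0 : d w = 0 := Finsupp.notMem_support_iff.1 hw
    by_cases hall : ∀ v, d v ≤ 1
    · have e : d = Finsupp.single w 0 + I d.support := by
        ext u
        rw [Finsupp.single_zero, zero_add]
        by_cases hu : u ∈ d.support
        · rw [I_mem hu]
          have h4 := hall u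
          have h5 := Finsupp.mem_support_iff.1 hu
          omega
        · rw [I_nmem hu]
          exact Finsupp.notMem_support_iff.1 hu
      have hcard : d.support.card ≤ D := by
        have h6 : d.degree = d.support.card := by
          conv_lhs => rw [e]
          rw [map_add, Finsupp.degree_single, I_deg, zero_add]
        rw [← h6]
        exact hD
      rw [e]
      exact st1 p hp O D τ h1 h2 h3 _ _ w 0 rfl hw (Nat.zero_le _) hwO
        (fun u hu hu' => Finsupp.mem_support_iff.1 hu (hO u hu')) (by omega)
    · push Not at hall
      obtain ⟨i, hi⟩ := hall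
      have hiw : i ≠ w := by
        rintro rfl
        omega
      have hdi := hd i
      have hiO : i ∉ O := by
        intro h'
        have := hO i h'
        omega
      have v1 : ∀ u, (d - Finsupp.single i 1 + Finsupp.single w 1 : V →₀ ℕ) u =
          d u - (if i = u then 1 else 0) + (if w = u then 1 else 0) := by
        intro u
        rw [Finsupp.add_apply, Finsupp.tsub_apply, Finsupp.single_apply, Finsupp.single_apply]
      have v2 : ∀ u, (d - Finsupp.single i 2 : V →₀ ℕ) u = d u - (if i = u then 2 else 0) := by
        intro u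
        rw [Finsupp.tsub_apply, Finsupp.single_apply]
      have hent : ∀ u, (d - Finsupp.single i 1 + Finsupp.single w 1 : V →₀ ℕ) u ≤ p - 1 := by
        intro u
        rw [v1 u]
        by_cases hu : w = u
        · subst hu
          rw [if_pos rfl, if_neg hiw]
          omega
        · rw [if_neg hu]
          have := hd u
          omega
      have hO1 : ∀ u ∈ O, (d - Finsupp.single i 1 + Finsupp.single w 1 : V →₀ ℕ) u = 0 := by
        intro u hu
        have h4 := hO u hu
        rw [v1 u, if_neg (fun h' : w = u => hwO (h' ▸ hu))]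
        omega
      have hO2 : ∀ u ∈ O, (d - Finsupp.single i 2 : V →₀ ℕ) u = 0 := by
        intro u hu
        have h4 := hO u hu
        rw [v2 u]
        omega
      have g1 : d = d - Finsupp.single i 1 + Finsupp.single i 1 := by
        ext u
        rw [Finsupp.add_apply, Finsupp.tsub_apply, Finsupp.single_apply]
        by_cases hu : i = u
        · subst hu
          rw [if_pos rfl]
          omega
        · rw [if_neg hu]
          omega
      have g2 : d = d - Finsupp.single i 2 + Finsupp.single i 2 := by
        ext u
        rw [Finsupp.add_apply, Finsupp.tsub_apply, Finsupp.single_apply]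
        by_cases hu : i = u
        · subst hu
          rw [if_pos rfl]
          omega
        · rw [if_neg hu]
          omega
      have hD1 : (d - Finsupp.single i 1 + Finsupp.single w 1 : V →₀ ℕ).degree ≤ D := by
        have g3 := congrArg Finsupp.degree g1
        rw [map_add, Finsupp.degree_single] at g3
        rw [map_add, Finsupp.degree_single]
        omega
      have hD2 : (d - Finsupp.single i 2 : V →₀ ℕ).degree ≤ D := by
        have g3 := congrArg Finsupp.degree g2
        rw [map_add, Finsupp.degree_single] at g3
        omega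
      have hs := h1 (d - Finsupp.single i 1 + Finsupp.single w 1) i w hiO hwO hiw
        (by rw [v1 w, if_neg hiw, if_pos rfl]; omega)
        (by rw [v1 i, if_pos rfl]; omega)
        (by rw [v1 i, if_pos rfl, if_neg (Ne.symm hiw)]; omega) hO1 hent hD1
      have e1 : d - Finsupp.single i 1 + Finsupp.single w 1 + Finsupp.single i 1 -
          Finsupp.single w 1 = d := by
        ext u
        rw [Finsupp.tsub_apply, Finsupp.add_apply, v1 u, Finsupp.single_apply,
          Finsupp.single_apply]
        by_cases hu : i = u
        · subst hu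
          rw [if_pos rfl, if_neg (Ne.symm hiw)]
          omega
        · rw [if_neg hu]
          omega
      have e2 : d - Finsupp.single i 1 + Finsupp.single w 1 - Finsupp.single i 1 -
          Finsupp.single w 1 = d - Finsupp.single i 2 := by
        ext u
        rw [Finsupp.tsub_apply, Finsupp.tsub_apply, v1 u, v2 u, Finsupp.single_apply,
          Finsupp.single_apply]
        by_cases hu : i = u
        · subst hu
          rw [if_pos rfl, if_pos rfl, if_neg (Ne.symm hiw)]
          omega
        · rw [if_neg hu, if_neg hu]
          omega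
      have hS1 : d.support ⊆ insert w d.support := Finset.subset_insert _ _
      have hS2 : (d - Finsupp.single i 1 + Finsupp.single w 1).support ⊆
          insert w d.support := by
        intro u hu
        rw [Finsupp.mem_support_iff, v1 u] at hu
        rw [Finset.mem_insert, Finsupp.mem_support_iff]
        by_cases hu2 : w = u
        · exact Or.inl hu2.symm
        · rw [if_neg hu2] at hu
          right
          omega
      have hS3 : (d - Finsupp.single i 2).support ⊆ insert w d.support := by
        intro u hu
        rw [Finsupp.mem_support_iff, v2 u] at hu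
        rw [Finset.mem_insert, Finsupp.mem_support_iff]
        right
        omega
      have m1 : MM (d - Finsupp.single i 1 + Finsupp.single w 1) < MM d := by
        refine MM_lt _ _ _ hS1 hS2 (fun u => ?_) i ?_
        · rw [v1 u]
          by_cases hu2 : w = u
          · subst hu2
            rw [if_neg hiw, if_pos rfl]
            omega
          · rw [if_neg hu2]
            omega
        · rw [v1 i, if_pos rfl, if_neg (Ne.symm hiw)]
          omega
      have m2 : MM (d - Finsupp.single i 2) < MM d := by
        refine MM_lt _ _ _ hS1 hS3 (fun u => ?_) i ?_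
        · rw [v2 u]
          omega
        · rw [v2 i, if_pos rfl]
          omega
      have t1 := ih _ (hn ▸ m1) _ hO1 hent hD1 rfl
      have t2 := ih _ (hn ▸ m2) _ hO2 (fun u => by
        rw [v2 u]
        have := hd u
        omega) hD2 rfl
      rw [e1, e2, t1, t2, add_zero] at hs
      exact hs.symm

end HKDet
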