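import Pool.Agent.Lib.HKDet.BA
import Pool.Agent.Lib.HKDet.BB
import Pool.Agent.Lib.HKDet.SpB
import Pool.Agent.Lib.HKDet.Uq
import Pool.Agent.Lib.HKDet.NumB
import Pool.Agent.Lib.HKDet.FlB

/-!
# Module BC: the pieces (B)

* `tt_small_piece`: entries of `d` `≤ p-1`, `d o = 0`: `tt ⊥ (nI {o}^b) (d + p b e_o) = mlt p b d + [b = 0] fus p d`, `rr = mlt p b d`. `uniqB` (module Uq) with `O = {o}`, `D = d.degree` (of the given `d`), for
  `τ d = tt ⊥ (nI {o}^b) (d + single o (p b)) - mlt p b d - [b = 0] fus p d`.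
  - `h1`: `tt_split` for `d + single o (p b)` (`i, j ≠ o`, `d i ≤ p - 2` so `p ∤ d i + 1`; `(d + s) + e_i - e_j = (d + e_i - e_j) + s`), `mlt_rec`, `fus_rec`.
  - `h2`: `tt_edge` (with `v ≠ o` as `d o = 0 ≠ p - 1`; if `p - 1 = 0` impossible), `fus_edge`.
  - `h3`: `tt_base` (`k ≤ p - 2`), `mlt_small`, `fus_single : fus p (single v k) = if k = 0 then 1 else 0` (in `FSig/Rec2.lean`; see there for the exact name and form).
  The same for `rr` with `rr_split`, `rr_edge`, `rr_base` (no `fus`).
* `tt_piece`, `rr_piece`: `flip_piece` and `tt_small_piece` for `bar p d` (entries `≤ p-1`).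
* `tt_SS_small`, `rr_SS_small`: `b = 0`, choose `o` with `d o = 0` (`V` infinite): `nI {o}^0 = ⊤`, `single o 0 = 0`, `inv_eq_mlt_fus`.
-/

namespace HKDet

open MvPolynomial FSig Finset

variable {V : Type*} [DecidableEq V] [Infinite V] {K : Type*} [Field K] (p : ℕ) [Fact p.Prime]
  [CharP K p] {d : V →₀ ℕ}

omit [Infinite V] in
private theorem bc_shift_add (e : V →₀ ℕ) {i j o : V} (hjo : j ≠ o) (hj : 1 ≤ e j) (c : ℕ) :
    e + Finsupp.single o c + Finsupp.single i 1 - Finsupp.single j 1 =
      (e + Finsupp.single i 1 - Finsupp.single j 1) + Finsupp.single o c := by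
  ext v
  simp only [Finsupp.coe_add, Finsupp.coe_tsub, Pi.add_apply, Pi.sub_apply, Finsupp.single_apply]
  split_ifs <;> subst_vars <;> omega

omit [Infinite V] in
private theorem bc_shift_sub (e : V →₀ ℕ) {i j o : V} (hij : i ≠ j) (hio : i ≠ o) (hjo : j ≠ o)
    (hi : 1 ≤ e i) (hj : 1 ≤ e j) (c : ℕ) :
    e + Finsupp.single o c - Finsupp.single i 1 - Finsupp.single j 1 =
      (e - Finsupp.single i 1 - Finsupp.single j 1) + Finsupp.single o c := by
  ext v
  simp only [Finsupp.coe_add, Finsupp.coe_tsub, Pi.add_apply, Pi.sub_apply, Finsupp.single_apply]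
  split_ifs <;> subst_vars <;> first | omega | exact absurd rfl hjo

omit [Infinite V] [DecidableEq V] in
private theorem bc_not_dvd (hp : 2 ≤ p) {x : ℕ} (h1 : 1 ≤ x) (h2 : x ≤ p - 2) : ¬ p ∣ x + 1 := by
  intro h
  have := Nat.le_of_dvd (by omega) h
  omega

theorem tt_small_piece {o : V} (ho : d o = 0) (hs : ∀ v, d v ≤ p - 1) (b : ℕ)
    (hd : d.degree + p * b < 2 * p * (p - 1)) :
    tt p (⊥ : Ideal (T V K)) (nI K {o} ^ b) (d + Finsupp.single o (p * b))
      = mlt p b d + if b = 0 then fus p d else 0 := by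
  have hp : 2 ≤ p := (Fact.out : p.Prime).two_le
  have key := uniqB p hp {o} d.degree
    (fun e => tt p (⊥ : Ideal (T V K)) (nI K {o} ^ b) (e + Finsupp.single o (p * b)) - mlt p b e
      - if b = 0 then fus p e else 0) ?_ ?_ ?_ d (by simpa using ho) hs le_rfl
  · linarith
  · intro e i j hi hj hij ej ei1 ei2 eo es eD
    rw [Finset.mem_singleton] at hi hj
    have h1 := tt_split p (P := (⊥ : Ideal (T V K))) (Q := nI K {o} ^ b) bot_le good_bot
      ((good_nI {o}).pow b) (d := e + Finsupp.single o (p * b)) hij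
      (by rw [Finsupp.add_apply, Finsupp.single_eq_of_ne hj, add_zero, ej])
      (by rw [Finsupp.add_apply]; omega)
      (by
        rw [Finsupp.add_apply, Finsupp.single_eq_of_ne hi, add_zero]
        exact bc_not_dvd p hp ei1 ei2)
    rw [bc_shift_add e hj (by omega), bc_shift_sub e hij hi hj ei1 (by omega)] at h1
    have h2 := mlt_rec p b e hij ej ei1
    have h3 := fus_rec p e hij ej ei1
    split_ifs <;> linarith
  · rintro e eo es ⟨v, hv⟩ eD
    have eo' : e o = 0 := eo o (Finset.mem_singleton_self o)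
    have hvo : v ≠ o := by
      rintro rfl
      omega
    have h1 := tt_edge (K := K) p hvo eo' hv b (by omega)
    have h2 := fus_edge p (by omega) e hv
    rw [h1, h2]
    simp
  · intro v k hv hk hkD
    rw [Finset.mem_singleton] at hv
    have h1 := tt_base (K := K) p hv hk b (by omega)
    have h2 := mlt_small p hp b (d := Finsupp.single v k) (by simpa using hk)
    have h3 := fus_single p v k (by omega)
    rw [h1, h2, h3]
    by_cases hb : b = 0 <;> by_cases hk0 : k = 0 <;> simp [hb, hk0]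

theorem rr_small_piece {o : V} (ho : d o = 0) (hs : ∀ v, d v ≤ p - 1) (b : ℕ)
    (hd : d.degree + p * b < 2 * p * (p - 1)) :
    rr p (⊥ : Ideal (T V K)) (nI K {o} ^ b) (d + Finsupp.single o (p * b)) = mlt p b d := by
  have hp : 2 ≤ p := (Fact.out : p.Prime).two_le
  have key := uniqB p hp {o} d.degree
    (fun e => rr p (⊥ : Ideal (T V K)) (nI K {o} ^ b) (e + Finsupp.single o (p * b)) - mlt p b e)
    ?_ ?_ ?_ d (by simpa using ho) hs le_rfl
  · linarith
  · intro e i j hi hj hij ej ei1 ei2 eo es eD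
    rw [Finset.mem_singleton] at hi hj
    have h1 := rr_split p (P := (⊥ : Ideal (T V K))) (Q := nI K {o} ^ b) bot_le good_bot
      ((good_nI {o}).pow b) (d := e + Finsupp.single o (p * b)) hij
      (by rw [Finsupp.add_apply, Finsupp.single_eq_of_ne hj, add_zero, ej])
      (by rw [Finsupp.add_apply]; omega)
      (by
        rw [Finsupp.add_apply, Finsupp.single_eq_of_ne hi, add_zero]
        exact bc_not_dvd p hp ei1 ei2)
    rw [bc_shift_add e hj (by omega), bc_shift_sub e hij hi hj ei1 (by omega)] at h1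
    have h2 := mlt_rec p b e hij ej ei1
    linarith
  · rintro e eo es ⟨v, hv⟩ eD
    have eo' : e o = 0 := eo o (Finset.mem_singleton_self o)
    have hvo : v ≠ o := by
      rintro rfl
      omega
    have h1 := rr_edge (K := K) p hvo eo' hv b (by omega)
    rw [h1]
    simp
  · intro v k hv hk hkD
    rw [Finset.mem_singleton] at hv
    have h1 := rr_base (K := K) p hv hk b (by omega)
    have h2 := mlt_small p hp b (d := Finsupp.single v k) (by simpa using hk)
    rw [h1, h2]
    simp

omit [Infinite V] [DecidableEq V] in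
private theorem bc_bar_zero {U : Finset V} {o : V} (ho : o ∉ U) (hU : ∀ v, v ∉ U → d v = 0) :
    bar p d o = 0 := by
  unfold bar
  rw [Finsupp.mapRange_apply, hU o ho]
  simp

omit [Infinite V] [DecidableEq V] in
private theorem bc_bar_le (v : V) : bar p d v ≤ p - 1 := by
  unfold bar
  rw [Finsupp.mapRange_apply]
  omega

theorem tt_piece {U : Finset V} {o : V} (ho : o ∉ U) (hU : ∀ v, v ∉ U → d v = 0)
    (hs : ∀ v, d v ≤ 2 * p - 2) (b : ℕ)
    (hd : (bar p d).degree + p * b < 2 * p * (p - 1)) :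
    tt p (nI K U * nI K {o} ^ b) (nI K {o} ^ b) (d + Finsupp.single o (p * b))
      = mlt p b (bar p d) + if b = 0 then fus p (bar p d) else 0 := by
  rw [(flip_piece p ho hU hs b).1]
  exact tt_small_piece p (bc_bar_zero p ho hU) (fun v => bc_bar_le p v) b hd
theorem rr_piece {U : Finset V} {o : V} (ho : o ∉ U) (hU : ∀ v, v ∉ U → d v = 0)
    (hs : ∀ v, d v ≤ 2 * p - 2) (b : ℕ)
    (hd : (bar p d).degree + p * b < 2 * p * (p - 1)) :
    rr p (nI K U * nI K {o} ^ b) (nI K {o} ^ b) (d + Finsupp.single o (p * b))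
      = mlt p b (bar p d) := by
  rw [(flip_piece p ho hU hs b).2]
  exact rr_small_piece p (bc_bar_zero p ho hU) (fun v => bc_bar_le p v) b hd

theorem tt_SS_small (hs : ∀ w, d w ≤ p - 1) (hd : d.degree < 2 * p * (p - 1)) :
    tt p (⊥ : Ideal (T V K)) ⊤ d = invN d := by
  have hp : 2 ≤ p := (Fact.out : p.Prime).two_le
  obtain ⟨o, ho⟩ := Infinite.exists_notMem_finset d.support
  have h := tt_small_piece (K := K) p (Finsupp.notMem_support_iff.1 ho) hs 0 (by omega)
  rw [pow_zero, Ideal.one_eq_top, mul_zero, Finsupp.single_zero, add_zero, if_pos rfl] at h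
  rw [h, inv_eq_mlt_fus p hp d]
theorem rr_SS_small (hs : ∀ w, d w ≤ p - 1) (hd : d.degree < 2 * p * (p - 1)) :
    rr p (⊥ : Ideal (T V K)) ⊤ d = invN d - fus p d := by
  have hp : 2 ≤ p := (Fact.out : p.Prime).two_le
  obtain ⟨o, ho⟩ := Infinite.exists_notMem_finset d.support
  have h := rr_small_piece (K := K) p (Finsupp.notMem_support_iff.1 ho) hs 0 (by omega)
  rw [pow_zero, Ideal.one_eq_top, mul_zero, Finsupp.single_zero, add_zero] at h
  rw [h, inv_eq_mlt_fus p hp d]
  ring

end HKDet
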