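import Pool.Agent.Lib.HKDet.HC
import Pool.Agent.Lib.HKDet.MgA
import Pool.Agent.Lib.HKDet.Gd

/-!
# Module CrB: `t(S_w) = I(w)` if two `p`-th powers fit (CR)

MAIN LEMMA `cr_inj`: `d v ≥ p`, `¬ p ∣ d v + 1`, and (some `u ≠ v` with `p ≤ d u`, or `2p ≤ d v`), `x ∈ S d 0`, `NrmL x = 0` ⟹ `x ∈ gS ⊤ d`.
PROOF. Write `d v = k p + y`, `0 ≤ y ≤ p - 2`, `k ≥ 1`. Choose a vector `v'` with `v' ≠ v`, `d v' = 0` (`V` infinite: `Infinite.exists_notMem_finset`), `β = y + 1`, so `d v - β = k p - 1` is `-1` mod `p`; `d' = d - β e_v + β e_v'`.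
`mg_surj`: `x = mg z`, `z ∈ S d' 0`. `NrmL z ∈ IS d'` (`NrmL_mem_IS`, `d'.degree = d.degree`), `mg (NrmL z) = NrmL (mg z) = NrmL x = 0` (`NrmL_comm` with `θ = mg`, `E_rn`, `F_rn`). `mg_ker` (`β ≥ 1`, `β + 1 ≤ d v`): `NrmL z = [v v'] g`,
`g ∈ S d'' 0`, `d'' = d - (β+1) e_v + (β-1) e_v'` (`d'' v = k p - 2`, `d'' v' = y`). `g` is invariant: `[v v'] E k g = E k ([v v'] g) = 0` (`E_Inv_mul`, `br_mem_Inv`), `T` is a domain and `[v v'] ≠ 0`; same for `F`. So `g ∈ IS d''`.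
Some entry of `d''` is `≥ p - 1`: `d'' u = d u ≥ p`, or `d'' v = k p - 2 ≥ 2p - 2 ≥ p - 1` (`k ≥ 2`; `2p ≤ d v`). `exists_norm`: `g = NrmL z'`, `z' ∈ S d'' 0`. `NrmL (z - [v v'] z') = 0` (`NrmL_Inv_mul`). `d' v + 1 = k p`, so (H) and `mem_of_tt_eq_rr` (`P = ⊥`, `Q = ⊤`) give
`z - [v v'] z' ∈ gS ⊤ d'`. Apply `mg`: `x = mg z = mg (z - [v v'] z') ∈ gS ⊤ d` (`mg_br`; `mg` maps `gS ⊤ d'` to `gS ⊤ d` by `E_rn`, `F_rn`, `mg_mem_S`).
* `tt_SS_two`, `tt_SS_big`: if some entry is `-1` mod `p` use `tt_eq_rr`, otherwise `tt_eq_rr_of_inj` with `cr_inj`; then `rr_SS`. (`tt_SS_big`: `2p-1 ≤ d v`: either `d v + 1 = 2p` or `2p ≤ d v`. `tt_SS_two`: if `p ∣ d v + 1` use `tt_eq_rr` at `v`.)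
-/

namespace HKDet

open MvPolynomial FSig Finset

variable {V : Type*} [DecidableEq V] [Infinite V] {K : Type*} [Field K] (p : ℕ) [Fact p.Prime]
  [CharP K p] {d : V →₀ ℕ}

omit [Infinite V] in
private lemma crb_br_ne {v w : V} (h : v ≠ w) : br K v w ≠ 0 := by
  intro h0
  have h1 := congrArg (eval (fun x : V × Bool =>
    if x = (v, false) ∨ x = (w, true) then (1 : K) else 0)) h0
  simp [br, va, vb, h, h.symm] at h1

omit [Infinite V] [Fact p.Prime] [CharP K p] in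
private lemma crb_fin {v v' : V} (hvv : v ≠ v') (hd : d v' = 0) {β : ℕ} (h1 : 1 ≤ β)
    (hβ : β + 1 ≤ d v) :
    Finsupp.single v 1 + Finsupp.single v' 1 +
      (d - Finsupp.single v (β + 1) + Finsupp.single v' (β - 1)) =
      d - Finsupp.single v β + Finsupp.single v' β := by
  ext u
  simp only [Finsupp.add_apply, Finsupp.tsub_apply, Finsupp.single_apply]
  by_cases hu : u = v
  · subst hu
    simp only [if_true, if_neg (Ne.symm hvv)]
    omega
  · by_cases hu' : u = v'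
    · subst hu'
      simp only [if_true, if_neg hvv]
      omega
    · rw [if_neg (Ne.symm hu), if_neg (Ne.symm hu'), if_neg (Ne.symm hu), if_neg (Ne.symm hu'),
        if_neg (Ne.symm hu), if_neg (Ne.symm hu')]
      omega

omit [DecidableEq V] [Infinite V] [Fact p.Prime] [CharP K p] in
private lemma crb_degree {v v' : V} {β : ℕ} (hβ : β ≤ d v) :
    (d - Finsupp.single v β + Finsupp.single v' β).degree = d.degree := by
  classical
  have h : d - Finsupp.single v β + Finsupp.single v β = d := by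
    ext u
    simp only [Finsupp.add_apply, Finsupp.tsub_apply, Finsupp.single_apply]
    split_ifs with hu
    · subst hu; omega
    · omega
  have h1 := congrArg Finsupp.degree h
  rw [map_add, Finsupp.degree_single] at h1
  rw [map_add, Finsupp.degree_single]
  exact h1

omit [Infinite V] in
private lemma crb_mg_gS {v v' : V} (hvv : v ≠ v') (hd : d v' = 0) {β : ℕ} (hβ : β ≤ d v)
    {x : T V K} (hx : x ∈ gS p (⊤ : Ideal (T V K)) (d - Finsupp.single v β + Finsupp.single v' β)) :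
    mg K v v' x ∈ gS p (⊤ : Ideal (T V K)) d := by
  have key : ∀ (O : T V K →ₗ[K] T V K) (w : ℤ), (∀ y, mg K v v' (O y) = O (mg K v v' y)) →
      ∀ y ∈ (Fs p (⊤ : Ideal (T V K)) (d - Finsupp.single v β + Finsupp.single v' β) w).map O,
      mg K v v' y ∈ (Fs p (⊤ : Ideal (T V K)) d w).map O := by
    intro O w hO y hy
    obtain ⟨z, hz, rfl⟩ := Submodule.mem_map.1 hy
    rw [hO]
    refine Submodule.mem_map_of_mem ?_
    rw [Fs_top] at hz ⊢
    exact mg_mem_S hvv hd hβ hz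
  unfold gS at hx ⊢
  obtain ⟨y, hy, z, hz, rfl⟩ := Submodule.mem_sup.1 hx
  obtain ⟨y1, hy1, y2, hy2, rfl⟩ := Submodule.mem_sup.1 hy
  obtain ⟨z1, hz1, z2, hz2, rfl⟩ := Submodule.mem_sup.1 hz
  rw [map_add, map_add, map_add]
  refine Submodule.add_mem_sup (Submodule.add_mem_sup ?_ ?_) (Submodule.add_mem_sup ?_ ?_)
  · exact key (E K 1) (-2) (fun y => (E_rn _ _ _).symm) _ hy1
  · exact key (F K 1) 2 (fun y => (F_rn _ _ _).symm) _ hy2
  · exact key (E K p) (-(2 * p)) (fun y => (E_rn _ _ _).symm) _ hz1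
  · exact key (F K p) (2 * p) (fun y => (F_rn _ _ _).symm) _ hz2

theorem cr_inj {v : V} (hv : p ≤ d v) (hv' : ¬ p ∣ d v + 1)
    (h : (∃ u, u ≠ v ∧ p ≤ d u) ∨ 2 * p ≤ d v) (hd : d.degree < 2 * p * (p - 1)) {x : T V K}
    (hx : x ∈ S K d 0) (h0 : NrmL p x = 0) : x ∈ gS p (⊤ : Ideal (T V K)) d := by
  have hp := (Fact.out : p.Prime)
  have hp2 := hp.two_le
  obtain ⟨v', hv'm⟩ := Infinite.exists_notMem_finset (insert v d.support)
  rw [Finset.mem_insert, not_or, Finsupp.notMem_support_iff] at hv'm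
  obtain ⟨hvv', hdv'⟩ := hv'm
  have hvv : v ≠ v' := fun h => hvv' h.symm
  -- division
  obtain ⟨k, y, hky, hy⟩ : ∃ k y, d v = k * p + y ∧ y < p := by
    refine ⟨d v / p, d v % p, ?_, Nat.mod_lt _ hp.pos⟩
    rw [mul_comm]
    exact (Nat.div_add_mod _ _).symm
  have hk1 : 1 ≤ k := by
    rcases Nat.eq_zero_or_pos k with hk | hk
    · subst hk
      omega
    · exact hk
  have hy2 : y + 2 ≤ p := by
    by_contra hlt
    have hyp : y + 1 = p := by omega
    apply hv'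
    refine ⟨k + 1, ?_⟩
    rw [hky, add_assoc, hyp]
    ring
  have hkp : p ≤ k * p := Nat.le_mul_of_pos_left p hk1
  have hβ : (y + 1) + 1 ≤ d v := by omega
  have hβ0 : y + 1 ≤ d v := by omega
  obtain ⟨z, hz, hzx⟩ := mg_surj (K := K) hvv hdv' hβ0 hx
  set d' := d - Finsupp.single v (y + 1) + Finsupp.single v' (y + 1) with hd'
  set d'' := d - Finsupp.single v (y + 1 + 1) + Finsupp.single v' (y + 1 - 1) with hd''
  have hdeg : d'.degree < 2 * p * (p - 1) := by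
    rw [hd', crb_degree hβ0]
    exact hd
  have hNz := NrmL_mem_IS p hdeg hz
  have hmg0 : mg K v v' (NrmL p z) = 0 := by
    have h1 := NrmL_comm p (mg K v v').toLinearMap (fun k x => (E_rn _ k x).symm)
      (fun k x => (F_rn _ k x).symm) z
    rw [AlgHom.toLinearMap_apply, AlgHom.toLinearMap_apply, hzx, h0] at h1
    exact h1
  have hNz' := (mem_IS K).1 hNz
  obtain ⟨g, hg, hgN⟩ := mg_ker (K := K) hvv hdv' (by omega) hβ hNz'.1 hmg0
  have hbr := crb_br_ne (K := K) hvv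
  have hgI : g ∈ IS K d'' := by
    refine (mem_IS K).2 ⟨hg, ?_⟩
    have hI := (mem_Inv_iff K _).1 hNz'.2
    refine (mem_Inv_iff K _).2 fun j hj => ?_
    obtain ⟨h1, h2⟩ := hI j hj
    rw [hgN, E_Inv_mul K (br_mem_Inv K v v')] at h1
    rw [hgN, F_Inv_mul K (br_mem_Inv K v v')] at h2
    exact ⟨(mul_eq_zero.1 h1).resolve_left hbr, (mul_eq_zero.1 h2).resolve_left hbr⟩
  have hex : ∃ u, p - 1 ≤ d'' u := by
    rcases h with ⟨u, huv, hu⟩ | h2
    · refine ⟨u, ?_⟩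
      have huv' : u ≠ v' := by
        rintro rfl
        omega
      simp only [hd'', Finsupp.add_apply, Finsupp.tsub_apply, Finsupp.single_apply,
        if_neg (Ne.symm huv), if_neg (Ne.symm huv')]
      omega
    · refine ⟨v, ?_⟩
      have hk2 : 2 ≤ k := by
        by_contra hlt
        have : k = 1 := by omega
        subst this
        omega
      have hkp2 : 2 * p ≤ k * p := Nat.mul_le_mul_right p hk2
      simp only [hd'', Finsupp.add_apply, Finsupp.tsub_apply, Finsupp.single_apply, if_true,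
        if_neg hvv']
      omega
  obtain ⟨u, hu⟩ := hex
  obtain ⟨z', hz', hz'g⟩ := exists_norm p hu hgI
  have hbz : br K v v' * z' ∈ S K d' 0 := by
    have h1 := mul_mem_S K (br_mem_S K v v') hz'
    rw [hd'', crb_fin hvv hdv' (by omega) hβ, add_zero] at h1
    exact h1
  have hN0 : NrmL p (z - br K v v' * z') = 0 := by
    rw [map_sub, NrmL_Inv_mul p (br_mem_Inv K v v'), hz'g, hgN, sub_self]
  have hd'v : p ∣ d' v + 1 := by
    refine ⟨k, ?_⟩
    simp only [hd', Finsupp.add_apply, Finsupp.tsub_apply, Finsupp.single_apply, if_true,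
      if_neg hvv']
    rw [mul_comm p k]
    omega
  have hH := tt_eq_rr (K := K) p (bot_le : (⊥ : Ideal (T V K)) ≤ ⊤) good_bot good_top hd'v hdeg
  have hmem := mem_of_tt_eq_rr p (bot_le : (⊥ : Ideal (T V K)) ≤ ⊤) good_bot good_top hdeg hH
    (x := z - br K v v' * z') (by rw [Fs_top]; exact Submodule.sub_mem _ hz hbz)
    (by rw [hN0]; exact Submodule.zero_mem _)
  rw [Fs_bot, bot_sup_eq] at hmem
  have hfin := crb_mg_gS p hvv hdv' hβ0 hmem
  rw [map_sub, map_mul, mg_br, zero_mul, sub_zero, hzx] at hfin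
  exact hfin

private lemma crb_inj_tt {v : V} (hv : p ≤ d v) (hv' : ¬ p ∣ d v + 1)
    (h : (∃ u, u ≠ v ∧ p ≤ d u) ∨ 2 * p ≤ d v) (hd : d.degree < 2 * p * (p - 1)) :
    tt p (⊥ : Ideal (T V K)) ⊤ d = rr p (⊥ : Ideal (T V K)) ⊤ d := by
  refine tt_eq_rr_of_inj p bot_le good_bot good_top hd fun x hx hx0 => ?_
  rw [Fs_top] at hx
  rw [Fs_bot, Submodule.mem_bot] at hx0
  rw [Fs_bot, bot_sup_eq]
  exact cr_inj p hv hv' h hd hx hx0

theorem tt_SS_two {v w : V} (hvw : v ≠ w) (hv : p ≤ d v) (hw : p ≤ d w)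
    (hd : d.degree < 2 * p * (p - 1)) : tt p (⊥ : Ideal (T V K)) ⊤ d = invN d := by
  rw [← rr_SS (K := K) p (v := v) (by omega) hd]
  by_cases h1 : p ∣ d v + 1
  · exact tt_eq_rr p bot_le good_bot good_top h1 hd
  · exact crb_inj_tt p hv h1 (Or.inl ⟨w, hvw.symm, hw⟩) hd

theorem tt_SS_big {v : V} (hv : 2 * p - 1 ≤ d v) (hd : d.degree < 2 * p * (p - 1)) :
    tt p (⊥ : Ideal (T V K)) ⊤ d = invN d := by
  have hp2 := (Fact.out : p.Prime).two_le
  rw [← rr_SS (K := K) p (v := v) (by omega) hd]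
  by_cases h1 : p ∣ d v + 1
  · exact tt_eq_rr p bot_le good_bot good_top h1 hd
  · refine crb_inj_tt p (by omega) h1 (Or.inr ?_) hd
    by_contra hlt
    apply h1
    refine ⟨2, ?_⟩
    omega

end HKDet
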