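import Pool.Agent.Lib.FSig.ProjAbs

/-!
# Module ProjE: the abstract projector kills the images of `e` and `f`

Setting of `FSig/ProjAbs.lean`: `M` a `K`-vector space, `e f : M →ₗ M`, `X : ℤ → Submodule K M`, `e (X j) ⊆ X (j+1)`, `f (X j) ⊆ X (j-1)`,
`e (f x) - f (e x) = (2 j) • x` for `x ∈ X j`; `prj e f (J+1) = prj e f J ∘ (1 - ((J+1)(J+2))⁻¹ f e)`.

PROOFS. `c = ((J+1)(J+2))⁻¹` throughout, `C_J` a constant (`C_0 = 1`, `C_{J+1} = -c C_J`).
* RULES (induction on `k`): `z ∈ X 1`: `e^k (f z) = f (e^k z) + k (k+1) e^(k-1) z` (`k ≥ 1`): step: `e^(k+1) f z = e (f e^k z) + k(k+1) e^k z = f e^(k+1) z + 2(k+1) e^k z + k(k+1) e^k z`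
  since `e^k z ∈ X (k+1)`, and `2(k+1) + k(k+1) = (k+1)(k+2)`. Mirror image: `z ∈ X (-1)`: `f^k (e z) = e (f^k z) + k (k+1) f^(k-1) z`.
* `prj_f`: `z ∈ X 1`: `prj J (f z) = C_J f^(J+1) (e^J z)` (in Lean: `∃ C, ∀ z ∈ X 1, ..`). `J = 0`: clear. Step: `prj (J+1) (f z) = prj J (f z - c f e f z) = prj J (f z')`, `z' = z - c e (f z) ∈ X 1`,
  `= C_J f^(J+1) (e^J z')`, `e^J z' = e^J z - c e^(J+1) (f z) = e^J z - c f e^(J+1) z - c (J+1)(J+2) e^J z = - c f (e^(J+1) z)`. (Here `(J+1)(J+2) ≠ 0` in `K`.)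
* `prj_e`: `z ∈ X (-1)`: `prj J (e z) = C_J e^(J+1) (f^J z)`: `e z ∈ X 0` and `f e = e f` on `X 0`, so `f e (e z) = e (f e z)`, `prj (J+1) (e z) = prj J (e z')`, `z' = z - c f (e z) ∈ X (-1)`, and
  `f^J z' = f^J z - c f^(J+1) (e z) = - c e (f^(J+1) z)` by the mirror rule.
* `prj_sub_mem'`: induction on `J` for all `x ∈ X`: `prj (J+1) x = prj J x'`, `x' = x - c f e x ∈ X`, `prj J x' - x' = f e y`, so `prj (J+1) x - x = f e (y - c x)`.
-/

namespace HKDet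

open FSig

variable {K : Type*} [Field K] {M : Type*} [AddCommGroup M] [Module K M]

private theorem ProjE_succ (e f : M →ₗ[K] M) (J : ℕ) (x : M) :
    prj e f (J + 1) x = prj e f J (x - ((((J + 1) * (J + 2) : ℕ) : K))⁻¹ • f (e x)) := rfl

private theorem ProjE_mem (e : M →ₗ[K] M) (X : ℤ → Submodule K M)
    (he : ∀ j, ∀ x ∈ X j, e x ∈ X (j + 1)) {z : M} (hz : z ∈ X 1) (k : ℕ) :
    (e ^ k) z ∈ X (k + 1) := by
  induction k with
  | zero =>
    simpa using hz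
  | succ k ih =>
    rw [pow_succ', Module.End.mul_apply]
    have h := he _ _ ih
    push_cast
    exact h

private theorem ProjE_rule (e f : M →ₗ[K] M) (X : ℤ → Submodule K M)
    (he : ∀ j, ∀ x ∈ X j, e x ∈ X (j + 1))
    (hc : ∀ j, ∀ x ∈ X j, e (f x) - f (e x) = (2 * j : ℤ) • x) {z : M} (hz : z ∈ X 1) (k : ℕ) :
    (e ^ (k + 1)) (f z) = f ((e ^ (k + 1)) z) + (((k + 1) * (k + 2) : ℕ) : K) • (e ^ k) z := by
  induction k with
  | zero =>
    have h := hc 1 z hz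
    rw [sub_eq_iff_eq_add] at h
    rw [zero_add, pow_one, pow_zero, h, Module.End.one_apply, add_comm]
    congr 1
    rw [← Int.cast_smul_eq_zsmul K]
    norm_num
  | succ k ih =>
    have h1 := ProjE_mem e X he hz (k + 1)
    have h2 := hc _ _ h1
    rw [sub_eq_iff_eq_add] at h2
    have h3 : e ((e ^ k) z) = (e ^ (k + 1)) z := by
      rw [pow_succ' e k, Module.End.mul_apply]
    have h4 : (((k + 1 + 1) * (k + 1 + 2) : ℕ) : K) =
        ((2 * (((k + 1 : ℕ) : ℤ) + 1) : ℤ) : K) + (((k + 1) * (k + 2) : ℕ) : K) := by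
      push_cast
      ring
    rw [pow_succ' e (k + 1), Module.End.mul_apply, ih, map_add, h2, map_smul, h3,
      Module.End.mul_apply, ← Int.cast_smul_eq_zsmul K, h4, add_smul]
    abel

private theorem ProjE_swap (e f : M →ₗ[K] M) (X : ℤ → Submodule K M)
    (he : ∀ j, ∀ x ∈ X j, e x ∈ X (j + 1))
    (hf : ∀ j, ∀ x ∈ X j, f x ∈ X (j - 1))
    (hc : ∀ j, ∀ x ∈ X j, e (f x) - f (e x) = (2 * j : ℤ) • x) (J : ℕ) :
    ∀ x ∈ X 0, prj e f J x = prj f e J x := by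
  induction J with
  | zero => exact fun x _ => rfl
  | succ J ih =>
    intro x hx
    have hex : e x ∈ X 1 := by
      have := he 0 x hx
      rwa [zero_add] at this
    have hfex : f (e x) ∈ X 0 := by
      have := hf 1 _ hex
      rwa [sub_self] at this
    have h1 : e (f x) = f (e x) := by
      have := hc 0 x hx
      rw [mul_zero, zero_smul, sub_eq_zero] at this
      exact this
    rw [ProjE_succ, ProjE_succ, h1]
    exact ih _ ((X 0).sub_mem hx ((X 0).smul_mem _ hfex))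

private theorem ProjE_key (e f : M →ₗ[K] M) (X : ℤ → Submodule K M)
    (he : ∀ j, ∀ x ∈ X j, e x ∈ X (j + 1))
    (hf : ∀ j, ∀ x ∈ X j, f x ∈ X (j - 1))
    (hc : ∀ j, ∀ x ∈ X j, e (f x) - f (e x) = (2 * j : ℤ) • x) (J : ℕ)
    (hJ : ∀ j : ℕ, 1 ≤ j → j ≤ J → ((j * (j + 1) : ℕ) : K) ≠ 0) :
    ∃ c : K, ∀ z ∈ X 1, prj e f J (f z) = c • (f ^ (J + 1)) ((e ^ J) z) := by
  induction J with
  | zero =>
    refine ⟨1, fun x _ => ?_⟩
    rw [one_smul, zero_add, pow_one, pow_zero]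
    rfl
  | succ J ih =>
    obtain ⟨c, hc'⟩ := ih (fun j h1 h2 => hJ j h1 (by omega))
    have ha := hJ (J + 1) (by omega) le_rfl
    obtain ⟨a, haeq⟩ : ∃ a : K, a = (((J + 1) * (J + 2) : ℕ) : K) := ⟨_, rfl⟩
    have ha' : a ≠ 0 := by
      rw [haeq]
      exact ha
    refine ⟨-(c * a⁻¹), fun z hz => ?_⟩
    have hfz : f z ∈ X 0 := by
      have := hf 1 z hz
      rwa [sub_self] at this
    have hefz : e (f z) ∈ X 1 := by
      have := he 0 _ hfz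
      rwa [zero_add] at this
    have hy : z - a⁻¹ • e (f z) ∈ X 1 := (X 1).sub_mem hz ((X 1).smul_mem _ hefz)
    have h0 : f z - a⁻¹ • f (e (f z)) = f (z - a⁻¹ • e (f z)) := by
      rw [map_sub, map_smul]
    have h1 : (e ^ J) (e (f z)) = (e ^ (J + 1)) (f z) := by
      rw [pow_succ, Module.End.mul_apply]
    have h2 : (f ^ (J + 1)) (f ((e ^ (J + 1)) z)) = (f ^ (J + 1 + 1)) ((e ^ (J + 1)) z) := by
      rw [pow_succ f (J + 1), Module.End.mul_apply]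
    rw [ProjE_succ, ← haeq, h0, hc' _ hy, map_sub, map_smul, h1,
      ProjE_rule e f X he hc hz J, ← haeq, smul_add, smul_smul, inv_mul_cancel₀ ha', one_smul,
      sub_add_cancel_right, map_neg, map_smul, smul_neg, smul_smul, h2, neg_smul]

theorem prj_f (e f : M →ₗ[K] M) (X : ℤ → Submodule K M) (he : ∀ j, ∀ x ∈ X j, e x ∈ X (j + 1))
    (hf : ∀ j, ∀ x ∈ X j, f x ∈ X (j - 1))
    (hc : ∀ j, ∀ x ∈ X j, e (f x) - f (e x) = (2 * j : ℤ) • x) (J : ℕ)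
    (hJ : ∀ j : ℕ, 1 ≤ j → j ≤ J → ((j * (j + 1) : ℕ) : K) ≠ 0) {z : M} (hz : z ∈ X 1)
    (h0 : (f ^ (J + 1)) ((e ^ J) z) = 0) : prj e f J (f z) = 0 := by
  obtain ⟨c, h⟩ := ProjE_key e f X he hf hc J hJ
  rw [h z hz, h0, smul_zero]

theorem prj_e (e f : M →ₗ[K] M) (X : ℤ → Submodule K M) (he : ∀ j, ∀ x ∈ X j, e x ∈ X (j + 1))
    (hf : ∀ j, ∀ x ∈ X j, f x ∈ X (j - 1))
    (hc : ∀ j, ∀ x ∈ X j, e (f x) - f (e x) = (2 * j : ℤ) • x) (J : ℕ)
    (hJ : ∀ j : ℕ, 1 ≤ j → j ≤ J → ((j * (j + 1) : ℕ) : K) ≠ 0) {z : M} (hz : z ∈ X (-1))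
    (h0 : (e ^ (J + 1)) ((f ^ J) z) = 0) : prj e f J (e z) = 0 := by
  rw [ProjE_swap e f X he hf hc J (e z) (by
    have := he (-1) z hz
    rwa [neg_add_cancel] at this)]
  refine prj_f f e (fun j => X (-j)) ?_ ?_ ?_ J hJ hz h0
  · intro j y hy
    have := hf _ _ hy
    have h1 : -(j + 1) = -j - 1 := by ring
    rw [h1]
    exact this
  · intro j y hy
    have := he _ _ hy
    have h1 : -(j - 1) = -j + 1 := by ring
    rw [h1]
    exact this
  · intro j y hy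
    have := hc _ _ hy
    rw [← neg_sub, this, ← neg_smul]
    congr 1
    ring

theorem prj_sub_mem' (e f : M →ₗ[K] M) (X : Submodule K M) (hX : ∀ x ∈ X, f (e x) ∈ X) (J : ℕ) {x : M}
    (hx : x ∈ X) : ∃ y ∈ X, prj e f J x - x = f (e y) := by
  induction J generalizing x with
  | zero => exact ⟨0, X.zero_mem, by rw [map_zero, map_zero]; exact sub_self x⟩
  | succ J ih =>
    obtain ⟨y, hy, h⟩ := ih (x := x - ((((J + 1) * (J + 2) : ℕ) : K))⁻¹ • f (e x))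
      (X.sub_mem hx (X.smul_mem _ (hX x hx)))
    refine ⟨y - ((((J + 1) * (J + 2) : ℕ) : K))⁻¹ • x, X.sub_mem hy (X.smul_mem _ hx), ?_⟩
    rw [ProjE_succ, map_sub e, map_sub f, map_smul e, map_smul f, ← h]
    abel

end HKDet
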