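import Pool.Agent.Lib.HKDet.FrOp
import Pool.Agent.Lib.HKDet.ProjE

/-!
# Module NrmB: properties of the norm operator `NrmL p = prj (E p) (F p) (p-2) ∘ Lam`

PROOFS. `NrmL p u = Nm K p (p-2) u` (`rfl`); `J = p - 2`, `J + 1 = p - 1 < p`.
* `Fs_E`, `Fs_F`: `f ∈ Fs p J d w ⟹ E k f ∈ Fs p J d (w + 2k)`: `E_mem_Fr`, `E_mem_S`. `Lam` preserves `Fs p J d w` (`Lam_mem_S`).
* `NrmL_mem_Fs`: `prj_mem` with `X = Fs p J d 0` (`F_p E_p` preserves it) applied to `Lam f`.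
* `NrmL_mem_IS`: `norm_mem` (`d.degree < 2 p (J+1)`).
* `NrmL_of_Lam`: `prj` fixes invariants (`norm_of_Inv`).
* `NrmL_gS`: on the four images: `Lam (E 1 x) = 0` (`Lam_E1`); `Lam (F 1 x) = 0`, `x ∈ S d 2` (`Lam_F1`, `p ∣ 2 - 2`); `x ∈ S d (-2p)`: `Lam (E p x) = E p (Lam x)` (`E_Lam_comm`, `k = 1`), `z = Lam x ∈ Xp d (-1)`
  (`Lam_mem_S`, `E1_Lam`, `F1_Lam`; `Xp K p d j` is in `FSig/OpsProj.lean`), `prj_e` with `X = Xp K p d` (`Xp_E`, `Xp_F`, `H_p`), `hJ`: `j (j+1)` is not divisible by `p` for `1 ≤ j ≤ p - 2`,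
  `h0`: `(F p)^J z ∈ S d (-2p(J+1)) = ⊥` (`S_eq_bot`, `d.degree < 2p(J+1)`; iterate `F_mem_S`). `F p x`, `x ∈ S d (2p)`: `F_Lam_comm`, `prj_f`.
* `NrmL_Inv_mul`: `Lam_Inv_mul`, `prj_comm` with `θ` = multiplication by `g`, `X = ⊤` (`E_Inv_mul`, `F_Inv_mul`).
* `exists_Lam_NrmL`: `NrmL f = Lam (prj f)` (`norm_comm`, `f ∈ S d 0`), `prj f = f + F p (E p y')` with `y' ∈ Fs p J d 0` (`prj_sub_mem'`), `y = E p y'`.
* `NrmL_comm`: `θ : T V K → T V' K` linear, commuting with all `E k`, `F k` exactly: `θ (NrmL u) = NrmL (θ u)` (`prj_comm` with `X = ⊤`).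
-/

namespace HKDet

open MvPolynomial FSig

variable {V : Type*} {K : Type*} [Field K] (p : ℕ) [Fact p.Prime] [CharP K p]

theorem Fs_E {J : Ideal (T V K)} (hJ : Good J) {d : V →₀ ℕ} {w : ℤ} {f : T V K}
    (hf : f ∈ Fs p J d w) (k : ℕ) : E K k f ∈ Fs p J d (w + 2 * k) :=
  ⟨E_mem_Fr p hJ k hf.1, E_mem_S K hf.2 k⟩
theorem Fs_F {J : Ideal (T V K)} (hJ : Good J) {d : V →₀ ℕ} {w : ℤ} {f : T V K}
    (hf : f ∈ Fs p J d w) (k : ℕ) : F K k f ∈ Fs p J d (w - 2 * k) :=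
  ⟨F_mem_Fr p hJ k hf.1, F_mem_S K hf.2 k⟩
theorem Fs_Lam {J : Ideal (T V K)} (hJ : Good J) {d : V →₀ ℕ} {w : ℤ} {f : T V K}
    (hf : f ∈ Fs p J d w) : Lam K p f ∈ Fs p J d w :=
  ⟨F_mem_Fr p hJ (p - 1) (E_mem_Fr p hJ (p - 1) hf.1), Lam_mem_S K p hf.2⟩
theorem gS_le {Q : Ideal (T V K)} (hQ : Good Q) (d : V →₀ ℕ) : gS p Q d ≤ Fs p Q d 0 := by
  unfold gS
  refine sup_le (sup_le ?_ ?_) (sup_le ?_ ?_)
  · rintro _ ⟨x, hx, rfl⟩
    have h := Fs_E p hQ hx 1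
    have e : (-2 : ℤ) + 2 * ((1 : ℕ) : ℤ) = 0 := by norm_num
    rw [e] at h
    exact h
  · rintro _ ⟨x, hx, rfl⟩
    have h := Fs_F p hQ hx 1
    have e : (2 : ℤ) - 2 * ((1 : ℕ) : ℤ) = 0 := by norm_num
    rw [e] at h
    exact h
  · rintro _ ⟨x, hx, rfl⟩
    have h := Fs_E p hQ hx p
    have e : -(2 * (p : ℤ)) + 2 * (p : ℤ) = 0 := by ring
    rw [e] at h
    exact h
  · rintro _ ⟨x, hx, rfl⟩
    have h := Fs_F p hQ hx p
    have e : 2 * (p : ℤ) - 2 * (p : ℤ) = 0 := by ring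
    rw [e] at h
    exact h
omit [Fact p.Prime] [CharP K p] in
theorem gS_mono {P Q : Ideal (T V K)} (h : P ≤ Q) (d : V →₀ ℕ) : gS p P d ≤ gS p Q d := by
  have h1 : ∀ w : ℤ, Fs p P d w ≤ Fs p Q d w := fun w x hx => ⟨Fr_mono p h hx.1, hx.2⟩
  unfold gS
  exact sup_le_sup (sup_le_sup (Submodule.map_mono (h1 _)) (Submodule.map_mono (h1 _)))
    (sup_le_sup (Submodule.map_mono (h1 _)) (Submodule.map_mono (h1 _)))

private theorem nrmb_FE {J : Ideal (T V K)} (hJ : Good J) {d : V →₀ ℕ} (x : T V K)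
    (hx : x ∈ Fs p J d 0) : F K p (E K p x) ∈ Fs p J d 0 := by
  have h := Fs_F p hJ (Fs_E p hJ hx p) p
  have e : (0 : ℤ) + 2 * (p : ℤ) - 2 * (p : ℤ) = 0 := by ring
  rw [e] at h
  exact h

omit [Fact p.Prime] [CharP K p] in
private theorem nrmb_apply (u : T V K) :
    NrmL p u = prj (E K p) (F K p) (p - 2) (Lam K p u) := rfl

omit [Fact p.Prime] [CharP K p] in
private theorem nrmb_Nm [DecidableEq V] (u : T V K) : NrmL p u = Nm K p (p - 2) u := rfl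

private theorem nrmb_ne : ∀ j : ℕ, 1 ≤ j → j ≤ p - 2 → ((j * (j + 1) : ℕ) : K) ≠ 0 := by
  have hp : p.Prime := Fact.out
  have hp2 := hp.two_le
  intro j h1 h2 h0
  rw [CharP.cast_eq_zero_iff K p] at h0
  rcases (Nat.Prime.dvd_mul hp).1 h0 with h | h
  · exact absurd (Nat.le_of_dvd (by omega) h) (by omega)
  · exact absurd (Nat.le_of_dvd (by omega) h) (by omega)

theorem NrmL_mem_Fs {J : Ideal (T V K)} (hJ : Good J) {d : V →₀ ℕ} {f : T V K}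
    (hf : f ∈ Fs p J d 0) : NrmL p f ∈ Fs p J d 0 :=
  prj_mem (E K p) (F K p) (Fs p J d 0) (nrmb_FE p hJ) (p - 2) (Fs_Lam p hJ hf)
theorem NrmL_mem_IS [DecidableEq V] {d : V →₀ ℕ} (hd : d.degree < 2 * p * (p - 1)) {f : T V K}
    (hf : f ∈ S K d 0) : NrmL p f ∈ IS K d := by
  have hp2 := (Fact.out : p.Prime).two_le
  have e : p - 2 + 1 = p - 1 := by omega
  rw [nrmb_Nm]
  exact norm_mem K p hf (by rw [e]; exact hd) (by omega)
theorem NrmL_of_Lam [DecidableEq V] {d : V →₀ ℕ} {f u : T V K} (hf : f ∈ IS K d) (hu : Lam K p u = f) :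
    NrmL p u = f := by
  rw [nrmb_apply, hu]
  exact norm_of_Inv K p ((mem_IS K).1 hf).2 (p - 2)
theorem NrmL_gS {Q : Ideal (T V K)} {d : V →₀ ℕ} (hd : d.degree < 2 * p * (p - 1)) {f : T V K}
    (hf : f ∈ gS p Q d) : NrmL p f = 0 := by
  have hp2 := (Fact.out : p.Prime).two_le
  have e1 : p - 2 + 1 = p - 1 := by omega
  have hd' : (d.degree : ℤ) < 2 * (p : ℤ) + 2 * ((p * (p - 2) : ℕ) : ℤ) := by
    have h1 : 2 * p + 2 * (p * (p - 2)) = 2 * p * (p - 1) := by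
      rw [← e1]
      ring
    have h2 : d.degree < 2 * p + 2 * (p * (p - 2)) := by
      rw [h1]
      exact hd
    exact_mod_cast h2
  have hle : gS p Q d ≤ LinearMap.ker (NrmL (V := V) (K := K) p) := by
    unfold gS
    refine sup_le (sup_le ?_ ?_) (sup_le ?_ ?_)
    · rintro _ ⟨x, hx, rfl⟩
      rw [LinearMap.mem_ker, nrmb_apply, Lam_E1, map_zero]
    · rintro _ ⟨x, hx, rfl⟩
      rw [LinearMap.mem_ker, nrmb_apply, Lam_F1 K p hx.2 (by rw [sub_self]; exact dvd_zero _),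
        map_zero]
    · rintro _ ⟨x, hx, rfl⟩
      have hw : (p : ℤ) ∣ -(2 * (p : ℤ)) := (Dvd.intro_left 2 rfl).neg_right
      have h1 := E_Lam_comm K p hx.2 hw 1
      rw [mul_one] at h1
      have hz : Lam K p x ∈ S K d (-(2 * (p : ℤ))) := Lam_mem_S K p hx.2
      rw [LinearMap.mem_ker, nrmb_apply, ← h1]
      refine prj_e (E K p) (F K p) (Xp K p d) (fun j x hx => Xp_E K p j x hx)
        (fun j x hx => Xp_F K p j x hx) (fun j x hx => H_p K p j x hx) (p - 2) (nrmb_ne p)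
        ?_ ?_
      · unfold Xp
        refine ⟨⟨?_, E1_Lam K p hx.2 hw⟩, F1_Lam K p x⟩
        have e2 : 2 * (p : ℤ) * -1 = -(2 * (p : ℤ)) := by ring
        rw [e2]
        exact hz
      · rw [F_p_pow, F_eq_zero K hz (by linarith), smul_zero, map_zero]
    · rintro _ ⟨x, hx, rfl⟩
      have hw : (p : ℤ) ∣ 2 * (p : ℤ) := Dvd.intro_left 2 rfl
      have h1 := F_Lam_comm K p hx.2 hw 1
      rw [mul_one] at h1
      have hz : Lam K p x ∈ S K d (2 * (p : ℤ)) := Lam_mem_S K p hx.2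
      rw [LinearMap.mem_ker, nrmb_apply, ← h1]
      refine prj_f (E K p) (F K p) (Xp K p d) (fun j x hx => Xp_E K p j x hx)
        (fun j x hx => Xp_F K p j x hx) (fun j x hx => H_p K p j x hx) (p - 2) (nrmb_ne p)
        ?_ ?_
      · unfold Xp
        refine ⟨⟨?_, E1_Lam K p hx.2 hw⟩, F1_Lam K p x⟩
        rw [mul_one]
        exact hz
      · rw [E_p_pow, E_eq_zero K hz (by linarith), smul_zero, map_zero]
  exact LinearMap.mem_ker.1 (hle hf)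
theorem NrmL_Inv_mul {g : T V K} (hg : g ∈ Inv (V := V) K) (u : T V K) :
    NrmL p (g * u) = g * NrmL p u := by
  rw [nrmb_apply, nrmb_apply, Lam_Inv_mul K p hg]
  symm
  refine prj_comm (E K p) (F K p) (E K p) (F K p) ⊤ (fun _ _ => Submodule.mem_top)
    (LinearMap.mulLeft K g) ?_ (p - 2) (Submodule.mem_top (x := Lam K p u))
  intro x _
  rw [LinearMap.mulLeft_apply, LinearMap.mulLeft_apply, E_Inv_mul K hg, F_Inv_mul K hg]

theorem exists_Lam_NrmL {J : Ideal (T V K)} (hJ : Good J) {d : V →₀ ℕ} {f : T V K}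
    (hf : f ∈ Fs p J d 0) : ∃ y ∈ Fs p J d (2 * p), NrmL p f = Lam K p (f + F K p y) := by
  classical
  obtain ⟨y, hy, h⟩ := prj_sub_mem' (E K p) (F K p) (Fs p J d 0) (nrmb_FE p hJ) (p - 2) hf
  have h1 := Fs_E p hJ hy p
  rw [zero_add] at h1
  refine ⟨E K p y, h1, ?_⟩
  rw [nrmb_Nm, norm_comm K p hf.2, ← h, add_sub_cancel]

theorem NrmL_comm {V' : Type*} (θ : T V K →ₗ[K] T V' K) (hE : ∀ k x, θ (E K k x) = E K k (θ x))
    (hF : ∀ k x, θ (F K k x) = F K k (θ x)) (u : T V K) : θ (NrmL p u) = NrmL p (θ u) := by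
  have h1 : Lam K p (θ u) = θ (Lam K p u) := by
    show F K (p - 1) (E K (p - 1) (θ u)) = θ (F K (p - 1) (E K (p - 1) u))
    rw [hF, hE]
  rw [nrmb_apply, nrmb_apply, h1]
  refine prj_comm (E K p) (F K p) (E K p) (F K p) ⊤ (fun _ _ => Submodule.mem_top) θ ?_ (p - 2)
    (Submodule.mem_top (x := Lam K p u))
  intro x _
  rw [hF, hE]

end HKDet
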