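import Pool.Agent.Lib.HKDet.LA
import Pool.Agent.Lib.HKDet.NrmB

/-!
# Module TR: the functors `tt` and `rr`

`tt p P Q d = tA (Fs P d 0) (Fs Q d 0) (gS Q d)` and `rr p P Q d = rA (NrmL p) (Fs P d 0) (Fs Q d 0)` (`rfl`, module LA). All spaces are in `S K d 0`, which is finite-dimensional (`finite_S`).

PROOFS.
* `tt_nonneg`, `rr_nonneg`, `tt_le`, `rr_ge`, `rr_le_tt`, `tt_add_of_eq`, `tt_add_of_inf`, `tt_eq_rr_of_inj`, `mem_of_tt_eq_rr`: the corresponding statements of module LA with `Fs_mono` (`Fr_mono`),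
  `gS_le`, `gS_mono`, `NrmL_mem_Fs`, `NrmL_gS`.
* `transport`: `tA_transport`, `rA_transport` with `θ`. Hypotheses for all weights `w`: `hQ`, `hs`, `hE`, `hF`; `hk` for weight `0`. The condition `hGG`:
  `gS Q' d'` is the sum of the four images `O (Fs Q' d' w)`, `O = E 1, F 1, E p, F p`; for `y ∈ Fs Q' d' w`, `y = θ x + z`, `z ∈ Fs P' d' w`, `O y = O (θ x) + O z = θ (O x) + (element of Fs P' d' 0)`
  (`hE`/`hF`, `Fs_E` for `P'`). The condition `hc` : `θ (NrmL x) - NrmL (θ x) ∈ Fs P' d' 0` for `x ∈ Fs Q d 0`: CLAIM: for each composition; `θ (Lam x) - Lam (θ x) ∈ Fs P' d' 0`: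
  `Lam = F (p-1) ∘ E (p-1)`: `θ F E x = F (θ E x) + z1 = F (E θ x + z2) + z1`, `z1 ∈ Fs P' d' 0`, `z2 ∈ Fs P' d' (2(p-1))`. For `prj`: by induction on `J` for all `x ∈ Fs Q d 0`:
  `θ (prj J x) - prj J (θ x) ∈ Fs P' d' 0`, using `θ (F p (E p x)) - F p (E p (θ x)) ∈ Fs P' d' 0` and that `prj J` preserves `Fs P' d' 0` (`prj_mem`).
* `transport_exact`: special case `P = P' = ⊥`-like: `θ` commutes exactly.
-/

namespace HKDet

open MvPolynomial FSig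

variable {V : Type*} {K : Type*} [Field K] (p : ℕ) [Fact p.Prime] [CharP K p]

theorem finite_Fs (J : Ideal (T V K)) (d : V →₀ ℕ) (w : ℤ) : FiniteDimensional K (Fs p J d w) := by
  have h : Module.Finite K (S K d w) := finite_S K d w
  exact Submodule.finiteDimensional_of_le (inf_le_right : Fs p J d w ≤ S K d w)
theorem Fs_mono {P Q : Ideal (T V K)} (h : P ≤ Q) (d : V →₀ ℕ) (w : ℤ) : Fs p P d w ≤ Fs p Q d w := by
  intro x hx
  exact ⟨Fr_mono p h hx.1, hx.2⟩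
theorem Fs_top (d : V →₀ ℕ) (w : ℤ) : Fs p (⊤ : Ideal (T V K)) d w = S K d w := by
  refine le_antisymm inf_le_right fun x hx => ⟨?_, hx⟩
  change x ∈ Fr p (⊤ : Ideal (T V K))
  rw [Fr_top]
  exact Submodule.mem_top
theorem Fs_bot (d : V →₀ ℕ) (w : ℤ) : Fs p (⊥ : Ideal (T V K)) d w = ⊥ := by
  rw [eq_bot_iff]
  intro x hx
  have h1 : x ∈ Fr p (⊥ : Ideal (T V K)) := hx.1
  rw [Fr_bot] at h1
  exact (Submodule.mem_bot K).2 ((Submodule.mem_bot _).1 h1)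

section
variable {P P' Q : Ideal (T V K)} {d : V →₀ ℕ}

theorem tt_nonneg (h : P ≤ Q) (hQ : Good Q) : 0 ≤ tt p P Q d := by
  have := finite_Fs p Q d 0
  exact tA_nonneg (Fs_mono p h d 0) (gS_le p hQ d)
theorem rr_nonneg : 0 ≤ rr p P Q d := by
  have := finite_Fs p Q d 0
  have := finite_Fs p P d 0
  exact rA_nonneg (NrmL p)

/-- (X1) -/
theorem tt_le (h1 : P ≤ P') (h2 : P' ≤ Q) (hP' : Good P') (hQ : Good Q) :
    tt p P Q d ≤ tt p P P' d + tt p P' Q d := by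
  have := finite_Fs p Q d 0
  exact tA_le (Fs_mono p h1 d 0) (Fs_mono p h2 d 0) (gS_le p hP' d) (gS_le p hQ d) (gS_mono p h2 d)
theorem rr_ge (h1 : P ≤ P') (h2 : P' ≤ Q) (hP' : Good P') (hQ : Good Q) :
    rr p P P' d + rr p P' Q d ≤ rr p P Q d := by
  have := finite_Fs p Q d 0
  exact rA_ge (NrmL p) (Fs_mono p h1 d 0) (Fs_mono p h2 d 0) (fun x hx => NrmL_mem_Fs p hP' hx)

theorem rr_le_tt (h : P ≤ Q) (hP : Good P) (hQ : Good Q) (hd : d.degree < 2 * p * (p - 1)) :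
    rr p P Q d ≤ tt p P Q d := by
  have := finite_Fs p Q d 0
  exact rA_le_tA (NrmL p) (Fs_mono p h d 0) (gS_le p hQ d) (fun x hx => NrmL_mem_Fs p hP hx)
    (fun x hx => NrmL_gS p hd hx)

/-- (X2) -/
theorem tt_add_of_eq (h1 : P ≤ P') (h2 : P' ≤ Q) (hP : Good P) (hP' : Good P') (hQ : Good Q)
    (hd : d.degree < 2 * p * (p - 1)) (h : tt p P P' d = rr p P P' d) :
    tt p P Q d = tt p P P' d + tt p P' Q d := by
  have := finite_Fs p Q d 0
  exact tA_add_of_eq (NrmL p) (Fs_mono p h1 d 0) (Fs_mono p h2 d 0) (gS_le p hP' d) (gS_le p hQ d)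
    (gS_mono p h2 d) (fun x hx => NrmL_mem_Fs p hP hx) (fun x hx => NrmL_gS p hd hx) h

theorem tt_add_of_inf (h1 : P ≤ P') (h2 : P' ≤ Q) (hP' : Good P') (hQ : Good Q)
    (h : ∀ x ∈ Fs p P' d 0, x ∈ Fs p P d 0 ⊔ gS p Q d → x ∈ Fs p P d 0 ⊔ gS p P' d) :
    tt p P Q d = tt p P P' d + tt p P' Q d := by
  have := finite_Fs p Q d 0
  exact tA_add_of_inf (Fs_mono p h1 d 0) (Fs_mono p h2 d 0) (gS_le p hP' d) (gS_le p hQ d)
    (gS_mono p h2 d) h

theorem tt_eq_rr_of_inj (h : P ≤ Q) (hP : Good P) (hQ : Good Q) (hd : d.degree < 2 * p * (p - 1))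
    (hinj : ∀ x ∈ Fs p Q d 0, NrmL p x ∈ Fs p P d 0 → x ∈ Fs p P d 0 ⊔ gS p Q d) :
    tt p P Q d = rr p P Q d := by
  have := finite_Fs p Q d 0
  exact tA_eq_rA (NrmL p) (Fs_mono p h d 0) (gS_le p hQ d) (fun x hx => NrmL_mem_Fs p hP hx)
    (fun x hx => NrmL_gS p hd hx) hinj

theorem mem_of_tt_eq_rr (h : P ≤ Q) (hP : Good P) (hQ : Good Q) (hd : d.degree < 2 * p * (p - 1))
    (heq : tt p P Q d = rr p P Q d) {x : T V K} (hx : x ∈ Fs p Q d 0)
    (hx0 : NrmL p x ∈ Fs p P d 0) : x ∈ Fs p P d 0 ⊔ gS p Q d := by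
  have := finite_Fs p Q d 0
  exact mem_of_tA_eq_rA (NrmL p) (Fs_mono p h d 0) (gS_le p hQ d)
    (fun x hx => NrmL_mem_Fs p hP hx) (fun x hx => NrmL_gS p hd hx) heq hx hx0
end

private lemma prj_comm_mod {M M' : Type*} [AddCommGroup M] [Module K M] [AddCommGroup M']
    [Module K M'] (e f : M →ₗ[K] M) (e' f' : M' →ₗ[K] M') (X : Submodule K M)
    (hX : ∀ x ∈ X, f (e x) ∈ X) (Z : Submodule K M') (hZ : ∀ z ∈ Z, f' (e' z) ∈ Z)
    (θ : M →ₗ[K] M') (h : ∀ x ∈ X, θ (f (e x)) - f' (e' (θ x)) ∈ Z) (J : ℕ) :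
    ∀ x ∈ X, θ (prj e f J x) - prj e' f' J (θ x) ∈ Z := by
  induction J with
  | zero =>
    intro x _
    change θ x - θ x ∈ Z
    rw [sub_self]
    exact Z.zero_mem
  | succ J ih =>
    intro x hx
    set c : K := ((((J + 1) * (J + 2) : ℕ) : K))⁻¹ with hc
    change θ (prj e f J (x - c • f (e x))) - prj e' f' J (θ x - c • f' (e' (θ x))) ∈ Z
    have h1 := ih (x - c • f (e x)) (X.sub_mem hx (X.smul_mem _ (hX x hx)))
    have h2 : prj e' f' J (c • (θ (f (e x)) - f' (e' (θ x)))) ∈ Z :=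
      prj_mem e' f' Z hZ J (Z.smul_mem _ (h x hx))
    have h3 : θ (prj e f J (x - c • f (e x))) - prj e' f' J (θ x - c • f' (e' (θ x))) =
        (θ (prj e f J (x - c • f (e x))) - prj e' f' J (θ (x - c • f (e x)))) -
          prj e' f' J (c • (θ (f (e x)) - f' (e' (θ x)))) := by
      rw [map_sub θ x, map_smul θ c, sub_sub, ← map_add (prj e' f' J)]
      congr 2
      rw [smul_sub]
      abel
    rw [h3]
    exact Z.sub_mem h1 h2

private lemma map_le_aux {X X' : Type*} [AddCommGroup X] [Module K X] [AddCommGroup X']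
    [Module K X'] (O : X →ₗ[K] X) (O' : X' →ₗ[K] X') (θ : X →ₗ[K] X') {A : Submodule K X}
    {A' B' Z : Submodule K X'} (hs : ∀ y ∈ A', ∃ x ∈ A, y - θ x ∈ B')
    (ha : ∀ x ∈ A, θ (O x) - O' (θ x) ∈ Z) (hb : ∀ z ∈ B', O' z ∈ Z) :
    A'.map O' ≤ Z ⊔ (A.map O).map θ := by
  rintro _ ⟨y, hy, rfl⟩
  obtain ⟨x, hx, hxy⟩ := hs y hy
  have h1 : O' y = (O' (y - θ x) - (θ (O x) - O' (θ x))) + θ (O x) := by
    rw [map_sub]
    abel
  rw [h1]
  exact Submodule.add_mem_sup (Z.sub_mem (hb _ hxy) (ha x hx)) ⟨_, ⟨x, hx, rfl⟩, rfl⟩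

private lemma le_map_aux {X X' : Type*} [AddCommGroup X] [Module K X] [AddCommGroup X']
    [Module K X'] (O : X →ₗ[K] X) (O' : X' →ₗ[K] X') (θ : X →ₗ[K] X') {A : Submodule K X}
    {A' Z : Submodule K X'} (hQ : ∀ x ∈ A, θ x ∈ A')
    (ha : ∀ x ∈ A, θ (O x) - O' (θ x) ∈ Z) :
    (A.map O).map θ ≤ Z ⊔ A'.map O' := by
  rintro _ ⟨_, ⟨x, hx, rfl⟩, rfl⟩
  have h1 : θ (O x) = (θ (O x) - O' (θ x)) + O' (θ x) := by abel
  rw [h1]
  exact Submodule.add_mem_sup (ha x hx) ⟨_, hQ x hx, rfl⟩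

theorem transport {V' : Type*} {P Q : Ideal (T V K)} {P' Q' : Ideal (T V' K)} {d : V →₀ ℕ}
    {d' : V' →₀ ℕ} (h : P ≤ Q) (h' : P' ≤ Q') (hgQ : Good Q) (hgP' : Good P') (hgQ' : Good Q')
    (θ : T V K →ₗ[K] T V' K) (hQ : ∀ w, ∀ x ∈ Fs p Q d w, θ x ∈ Fs p Q' d' w)
    (hs : ∀ w, ∀ y ∈ Fs p Q' d' w, ∃ x ∈ Fs p Q d w, y - θ x ∈ Fs p P' d' w)
    (hk : ∀ x ∈ Fs p Q d 0, (θ x ∈ Fs p P' d' 0 ↔ x ∈ Fs p P d 0))
    (hE : ∀ (k : ℕ) (w : ℤ), ∀ x ∈ Fs p Q d w, θ (E K k x) - E K k (θ x) ∈ Fs p P' d' (w + 2 * k))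
    (hF : ∀ (k : ℕ) (w : ℤ), ∀ x ∈ Fs p Q d w, θ (F K k x) - F K k (θ x) ∈ Fs p P' d' (w - 2 * k)) :
    tt p P Q d = tt p P' Q' d' ∧ rr p P Q d = rr p P' Q' d' := by
  have := finite_Fs p Q d 0
  have := finite_Fs p Q' d' 0
  have e1 : (-2 + 2 * ((1 : ℕ) : ℤ) : ℤ) = 0 := by norm_num
  have e2 : (2 - 2 * ((1 : ℕ) : ℤ) : ℤ) = 0 := by norm_num
  have e3 : (-(2 * (p : ℤ)) + 2 * ((p : ℕ) : ℤ) : ℤ) = 0 := by ring
  have e4 : (2 * (p : ℤ) - 2 * ((p : ℕ) : ℤ) : ℤ) = 0 := by ring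
  have a1 : ∀ x ∈ Fs p Q d (-2), θ (E K 1 x) - E K 1 (θ x) ∈ Fs p P' d' 0 := by
    intro x hx
    have := hE 1 (-2) x hx
    rwa [e1] at this
  have a2 : ∀ x ∈ Fs p Q d 2, θ (F K 1 x) - F K 1 (θ x) ∈ Fs p P' d' 0 := by
    intro x hx
    have := hF 1 2 x hx
    rwa [e2] at this
  have a3 : ∀ x ∈ Fs p Q d (-(2 * p)), θ (E K p x) - E K p (θ x) ∈ Fs p P' d' 0 := by
    intro x hx
    have := hE p (-(2 * p)) x hx
    rwa [e3] at this
  have a4 : ∀ x ∈ Fs p Q d (2 * p), θ (F K p x) - F K p (θ x) ∈ Fs p P' d' 0 := by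
    intro x hx
    have := hF p (2 * p) x hx
    rwa [e4] at this
  have b1 : ∀ z ∈ Fs p P' d' (-2), E K 1 z ∈ Fs p P' d' 0 := by
    intro z hz
    have := Fs_E p hgP' hz 1
    rwa [e1] at this
  have b2 : ∀ z ∈ Fs p P' d' 2, F K 1 z ∈ Fs p P' d' 0 := by
    intro z hz
    have := Fs_F p hgP' hz 1
    rwa [e2] at this
  have b3 : ∀ z ∈ Fs p P' d' (-(2 * p)), E K p z ∈ Fs p P' d' 0 := by
    intro z hz
    have := Fs_E p hgP' hz p
    rwa [e3] at this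
  have b4 : ∀ z ∈ Fs p P' d' (2 * p), F K p z ∈ Fs p P' d' 0 := by
    intro z hz
    have := Fs_F p hgP' hz p
    rwa [e4] at this
  have hGG : Fs p P' d' 0 ⊔ gS p Q' d' = Fs p P' d' 0 ⊔ (gS p Q d).map θ := by
    apply le_antisymm
    · refine sup_le le_sup_left ?_
      unfold gS
      rw [Submodule.map_sup, Submodule.map_sup, Submodule.map_sup]
      refine sup_le (sup_le ?_ ?_) (sup_le ?_ ?_)
      · exact (map_le_aux _ _ θ (hs _) a1 b1).trans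
          (sup_le_sup_left (le_sup_left.trans le_sup_left) _)
      · exact (map_le_aux _ _ θ (hs _) a2 b2).trans
          (sup_le_sup_left (le_sup_right.trans le_sup_left) _)
      · exact (map_le_aux _ _ θ (hs _) a3 b3).trans
          (sup_le_sup_left (le_sup_left.trans le_sup_right) _)
      · exact (map_le_aux _ _ θ (hs _) a4 b4).trans
          (sup_le_sup_left (le_sup_right.trans le_sup_right) _)
    · refine sup_le le_sup_left ?_
      unfold gS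
      rw [Submodule.map_sup, Submodule.map_sup, Submodule.map_sup]
      refine sup_le (sup_le ?_ ?_) (sup_le ?_ ?_)
      · exact (le_map_aux _ _ θ (hQ _) a1).trans
          (sup_le_sup_left (le_sup_left.trans le_sup_left) _)
      · exact (le_map_aux _ _ θ (hQ _) a2).trans
          (sup_le_sup_left (le_sup_right.trans le_sup_left) _)
      · exact (le_map_aux _ _ θ (hQ _) a3).trans
          (sup_le_sup_left (le_sup_left.trans le_sup_right) _)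
      · exact (le_map_aux _ _ θ (hQ _) a4).trans
          (sup_le_sup_left (le_sup_right.trans le_sup_right) _)
  have hEF : ∀ k : ℕ, ∀ x ∈ Fs p Q d 0,
      θ (F K k (E K k x)) - F K k (E K k (θ x)) ∈ Fs p P' d' 0 := by
    intro k x hx
    have h1 := Fs_E p hgQ hx k
    have h2 := hF k _ _ h1
    have h3 := Fs_F p hgP' (hE k 0 x hx) k
    have e5 : (0 + 2 * (k : ℤ) - 2 * (k : ℤ) : ℤ) = 0 := by ring
    rw [e5] at h2 h3
    have h4 : θ (F K k (E K k x)) - F K k (E K k (θ x)) =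
        (θ (F K k (E K k x)) - F K k (θ (E K k x))) + F K k (θ (E K k x) - E K k (θ x)) := by
      rw [map_sub (F K k)]
      abel
    rw [h4]
    exact Submodule.add_mem _ h2 h3
  have hFEQ : ∀ x ∈ Fs p Q d 0, F K p (E K p x) ∈ Fs p Q d 0 := by
    intro x hx
    have h1 := Fs_F p hgQ (Fs_E p hgQ hx p) p
    rwa [add_sub_cancel_right] at h1
  have hFEP : ∀ x ∈ Fs p P' d' 0, F K p (E K p x) ∈ Fs p P' d' 0 := by
    intro x hx
    have h1 := Fs_F p hgP' (Fs_E p hgP' hx p) p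
    rwa [add_sub_cancel_right] at h1
  have hc : ∀ x ∈ Fs p Q d 0, θ (NrmL p x) - NrmL p (θ x) ∈ Fs p P' d' 0 := by
    intro x hx
    have h1 := prj_comm_mod (E K p) (F K p) (E K p) (F K p) (Fs p Q d 0) hFEQ (Fs p P' d' 0) hFEP θ
      (hEF p) (p - 2) (Lam K p x) (Fs_Lam p hgQ hx)
    have hL1 : Lam K p x = F K (p - 1) (E K (p - 1) x) := rfl
    have hL2 : Lam K p (θ x) = F K (p - 1) (E K (p - 1) (θ x)) := rfl
    have h4 : θ (Lam K p x) - Lam K p (θ x) ∈ Fs p P' d' 0 := by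
      rw [hL1, hL2]
      exact hEF (p - 1) x hx
    have h2 : prj (E K p) (F K p) (p - 2) (θ (Lam K p x) - Lam K p (θ x)) ∈ Fs p P' d' 0 :=
      prj_mem (E K p) (F K p) (Fs p P' d' 0) hFEP (p - 2) h4
    have h3 : θ (NrmL p x) - NrmL p (θ x) =
        (θ (prj (E K p) (F K p) (p - 2) (Lam K p x)) -
          prj (E K p) (F K p) (p - 2) (θ (Lam K p x))) +
        prj (E K p) (F K p) (p - 2) (θ (Lam K p x) - Lam K p (θ x)) := by
      rw [map_sub (prj (E K p) (F K p) (p - 2))]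
      change θ (prj (E K p) (F K p) (p - 2) (Lam K p x)) -
        prj (E K p) (F K p) (p - 2) (Lam K p (θ x)) = _
      abel
    rw [h3]
    exact Submodule.add_mem _ h1 h2
  exact ⟨tA_transport θ (Fs_mono p h d 0) (Fs_mono p h' d' 0) (gS_le p hgQ d) (hQ 0) (hs 0) hk hGG,
    rA_transport θ (NrmL p) (NrmL p) (Fs_mono p h d 0) (Fs_mono p h' d' 0)
      (fun x hx => NrmL_mem_Fs p hgQ hx) (fun x hx => NrmL_mem_Fs p hgP' hx) (hQ 0) (hs 0) hk hc⟩

end HKDet
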