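import Pool.Agent.Lib.HKDet.HB
import Pool.Agent.Lib.HKDet.TR

/-!
# Module HC: a vector `l` of degree `= -1` mod `p`: `y = a^(p-1) q_(p-1)(Lam y)` modulo `E 1`, `F 1`; `tt = rr` (H)

`J` good, `y ∈ Fs p J d 0`, `p ∣ d l + 1`, `a = a_l`, `b = b_l`. `≡` means: modulo `(Fs p J d (-2)).map (E 1) ⊔ (Fs p J d 2).map (F 1)`.
1. For `q ∈ Lp ∩ Fr J` (of the right degree) and `1 ≤ α ≤ p-1`: `E 1 (a^(α-1) b^(p-α) q) = (p-α) a^α b^(p-1-α) q + a^(α-1) b^(p-α) E 1 q`, so `a^α b^(p-1-α) q ≡ α⁻¹ a^(α-1) b^(p-α) E 1 q`; by induction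
   `a^α b^(p-1-α) q ≡ b^(p-1) E α q` (`E α = (E 1)^α/α!`). With `recon`: `y ≡ b^(p-1) q'`, `q' = ∑_α E α (qe α y) ∈ Lp ∩ Fr J` (`E_Lp`, `qe_Fr`, `E_mem_Fr`). Only `E 1`-images are used, so `Lam y = Lam (b^(p-1) q')` (`Lam_E1`).
2. For `q' ∈ Lp`: `F 1 (a^α b^(p-1-α) q'') = α a^(α-1) b^(p-α) q'' + a^α b^(p-1-α) F 1 q''`; with `q'' = F (α-1) q'`, `F 1 F (α-1) = α F α`: `a^α b^(p-1-α) F α q' ≡ - a^(α-1) b^(p-α) F (α-1) q'`. By induction
   `a^(p-1) F (p-1) q' ≡ (-1)^(p-1) b^(p-1) q' = b^(p-1) q'` (`(-1)^(p-1) = 1` in `K`).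
3. `Lam (b^(p-1) q') = E (p-1) (F (p-1) (b^(p-1) q'))` (`EF_eq_Lam`, weight `0`) `= E (p-1) (b^(p-1) F (p-1) q')` (`F_mul`, `F j b^n = 0` for `j ≥ 1`) `= ∑_j binom(p-1,j) a^(p-1-j) b^j E j F (p-1) q'`, so
   `qe (p-1) (Lam (b^(p-1) q')) = F (p-1) q'` (`qe_mul`; only `j = 0` has `b`-exponent `0`).
`main`: `y ≡ b^(p-1) q' ≡ a^(p-1) F (p-1) q' = a^(p-1) qe (p-1) (Lam y)`.
(H) `tt_eq_rr`: `tt_eq_rr_of_inj`. Let `x ∈ Fs Q d 0`, `NrmL x ∈ Fs P d 0`. `exists_Lam_NrmL`: `NrmL x = Lam (x + F p y)`, `y ∈ Fs Q d (2p)`. `main` for `x + F p y ∈ Fs Q d 0`: `x + F p y ≡ a^(p-1) qe (p-1) (NrmL x) ∈ Fs P d 0` (`aq_mem_Fs`).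
So `x ∈ Fs P d 0 ⊔ gS Q d`.
-/

namespace HKDet

open MvPolynomial FSig Finset

variable {V : Type*} [DecidableEq V] {K : Type*} [Field K] (p : ℕ) [Fact p.Prime] [CharP K p]

omit [DecidableEq V] in
private lemma hc_E_apow (l : V) (n : ℕ) : E K 1 (va K l ^ n) = 0 := by
  rw [E_apply, map_pow, Et_va, ← Polynomial.C_pow, Polynomial.coeff_C, if_neg one_ne_zero]

omit [DecidableEq V] in
private lemma hc_F_bpow (l : V) (n k : ℕ) (hk : k ≠ 0) : F K k (vb K l ^ n) = 0 := by
  rw [F_apply, map_pow, Ft_vb, ← Polynomial.C_pow, Polynomial.coeff_C, if_neg hk]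

omit [DecidableEq V] in
private lemma hc_E_bpow (l : V) (m : ℕ) :
    E K 1 (vb K l ^ (m + 1)) = ((m + 1 : ℕ) : K) • (va K l * vb K l ^ m) := by
  induction m with
  | zero => simp [E_one_vb]
  | succ m ih =>
    rw [pow_succ, E_one_mul, ih, E_one_vb, Nat.cast_succ (m + 1), add_smul, one_smul,
      smul_mul_assoc]
    congr 1
    · rw [mul_assoc, ← pow_succ]
    · rw [mul_comm]

omit [DecidableEq V] in
private lemma hc_F_apow (l : V) (m : ℕ) :
    F K 1 (va K l ^ (m + 1)) = ((m + 1 : ℕ) : K) • (va K l ^ m * vb K l) := by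
  induction m with
  | zero => simp [F_one_va]
  | succ m ih =>
    rw [pow_succ, F_one_mul, ih, F_one_va, Nat.cast_succ (m + 1), add_smul, one_smul,
      smul_mul_assoc]
    congr 1
    rw [mul_right_comm, ← pow_succ]

omit [DecidableEq V] in
private lemma hc_E1 (l : V) (n m : ℕ) (q : T V K) :
    E K 1 (va K l ^ n * vb K l ^ (m + 1) * q) =
      ((m + 1 : ℕ) : K) • (va K l ^ (n + 1) * vb K l ^ m * q) +
        va K l ^ n * vb K l ^ (m + 1) * E K 1 q := by
  rw [E_one_mul, E_one_mul, hc_E_apow, hc_E_bpow, zero_mul, zero_add, mul_smul_comm,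
    smul_mul_assoc]
  congr 2
  ring

omit [DecidableEq V] in
private lemma hc_F1 (l : V) (n m : ℕ) (q : T V K) :
    F K 1 (va K l ^ (n + 1) * vb K l ^ m * q) =
      ((n + 1 : ℕ) : K) • (va K l ^ n * vb K l ^ (m + 1) * q) +
        va K l ^ (n + 1) * vb K l ^ m * F K 1 q := by
  rw [F_one_mul, F_one_mul, hc_F_apow, hc_F_bpow l m 1 one_ne_zero, mul_zero, add_zero,
    smul_mul_assoc, smul_mul_assoc]
  congr 2
  ring

private lemma hc_two : 2 ≤ p := (Fact.out : p.Prime).two_le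

omit [CharP K p] in
private lemma hc_mem {l : V} {d : V →₀ ℕ} (hl : p ∣ d l + 1) {J : Ideal (T V K)} {α β : ℕ}
    (h : α + β = p - 1) {w w' : ℤ} (hw : w = (α : ℤ) - β + w') {q : T V K}
    (hq : q ∈ Fs p J (d - Finsupp.single l (p - 1)) w') :
    va K l ^ α * vb K l ^ β * q ∈ Fs p J d w := by
  have hp := hc_two p
  obtain ⟨h1, h2⟩ := hq
  refine ⟨Ideal.mul_mem_left _ _ h1, ?_⟩
  have h3 := mul_mem_S K (mul_mem_S K (pow_mem_S K (va_mem_S K l) α)
    (pow_mem_S K (vb_mem_S K l) β)) h2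
  have hle : p - 1 ≤ d l := by
    have := Nat.le_of_dvd (Nat.succ_pos _) hl
    omega
  have e1 : α • Finsupp.single l 1 + β • Finsupp.single l 1 +
      (d - Finsupp.single l (p - 1)) = d := by
    ext v
    rw [Finsupp.add_apply, Finsupp.add_apply, Finsupp.smul_apply, Finsupp.smul_apply,
      Finsupp.tsub_apply]
    by_cases hv : v = l
    · subst hv
      rw [Finsupp.single_eq_same, Finsupp.single_eq_same, smul_eq_mul, smul_eq_mul]
      omega
    · rw [Finsupp.single_eq_of_ne hv, Finsupp.single_eq_of_ne hv, smul_zero, smul_zero]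
      omega
  have e2 : (α : ℤ) * 1 + (β : ℤ) * (-1) + w' = w := by
    rw [hw]
    ring
  rw [e1, e2] at h3
  exact h3

omit [Fact p.Prime] in
private lemma hc_cast {n : ℕ} (h0 : n ≠ 0) (hn : n < p) : (n : K) ≠ 0 := by
  intro h
  rw [CharP.cast_eq_zero_iff K p] at h
  exact absurd (Nat.le_of_dvd (Nat.pos_of_ne_zero h0) h) (by omega)

/-- step 1 -/
private lemma hc_A {l : V} {d : V →₀ ℕ} (hl : p ∣ d l + 1) {J : Ideal (T V K)} (hJ : Good J)
    (α : ℕ) (hα : α ≤ p - 1) : ∀ q ∈ Fs p J (d - Finsupp.single l (p - 1)) ((p : ℤ) - 1 - 2 * α),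
      va K l ^ α * vb K l ^ (p - 1 - α) * q - vb K l ^ (p - 1) * E K α q ∈
        (Fs p J d (-2)).map (E K 1) := by
  have hp := hc_two p
  induction α with
  | zero =>
    intro q _
    rw [E_zero, pow_zero, one_mul, Nat.sub_zero, sub_self]
    exact Submodule.zero_mem _
  | succ α ih =>
    intro q hq
    have h1 : E K 1 q ∈ Fs p J (d - Finsupp.single l (p - 1)) ((p : ℤ) - 1 - 2 * α) := by
      have h := Fs_E p hJ hq 1
      have e : (p : ℤ) - 1 - 2 * ((α + 1 : ℕ) : ℤ) + 2 * ((1 : ℕ) : ℤ) = (p : ℤ) - 1 - 2 * α := by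
        push_cast
        ring
      rwa [e] at h
    have h2 := ih (by omega) (E K 1 q) h1
    rw [E_comp, Nat.choose_succ_self_right, ← Nat.cast_smul_eq_nsmul K, mul_smul_comm] at h2
    obtain ⟨m, hm⟩ : ∃ m, p - 1 - (α + 1) = m := ⟨_, rfl⟩
    have hm1 : p - 1 - α = m + 1 := by omega
    have h3 : va K l ^ α * vb K l ^ (m + 1) * q ∈ Fs p J d (-2) := by
      refine hc_mem p hl (by omega) ?_ hq
      have : (p : ℤ) = m + α + 2 := by omega
      rw [this]
      push_cast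
      ring
    have h4 : E K 1 (va K l ^ α * vb K l ^ (m + 1) * q) ∈ (Fs p J d (-2)).map (E K 1) :=
      ⟨_, h3, rfl⟩
    rw [hc_E1] at h4
    rw [hm1] at h2
    rw [hm]
    have hc : ((α + 1 : ℕ) : K) ≠ 0 := hc_cast p (Nat.succ_ne_zero _) (by omega)
    have hs : ((m + 1 : ℕ) : K) = -((α + 1 : ℕ) : K) := by
      have h5 : ((m + 1 + (α + 1) : ℕ) : K) = 0 := by
        rw [show m + 1 + (α + 1) = p by omega]
        exact CharP.cast_eq_zero K p
      rw [Nat.cast_add] at h5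
      exact eq_neg_of_add_eq_zero_left h5
    rw [hs, neg_smul] at h4
    have h6 := Submodule.sub_mem _ h2 h4
    have h7 : ((α + 1 : ℕ) : K) • (va K l ^ (α + 1) * vb K l ^ m * q -
        vb K l ^ (p - 1) * E K (α + 1) q) ∈ (Fs p J d (-2)).map (E K 1) := by
      rw [smul_sub]
      have e : ((α + 1 : ℕ) : K) • (va K l ^ (α + 1) * vb K l ^ m * q) -
          ((α + 1 : ℕ) : K) • (vb K l ^ (p - 1) * E K (α + 1) q) =
          (va K l ^ α * vb K l ^ (m + 1) * E K 1 q -
            ((α + 1 : ℕ) : K) • (vb K l ^ (p - 1) * E K (α + 1) q)) -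
          (-(((α + 1 : ℕ) : K) • (va K l ^ (α + 1) * vb K l ^ m * q)) +
            va K l ^ α * vb K l ^ (m + 1) * E K 1 q) := by abel
      rw [e]
      exact h6
    have h8 := Submodule.smul_mem _ (((α + 1 : ℕ) : K)⁻¹) h7
    rwa [smul_smul, inv_mul_cancel₀ hc, one_smul] at h8

/-- step 2 -/
private lemma hc_B {l : V} {d : V →₀ ℕ} (hl : p ∣ d l + 1) {J : Ideal (T V K)} (hJ : Good J)
    {q : T V K} (hq : q ∈ Fs p J (d - Finsupp.single l (p - 1)) ((p : ℤ) - 1))
    (α : ℕ) (hα : α ≤ p - 1) :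
      va K l ^ α * vb K l ^ (p - 1 - α) * F K α q - ((-1 : K) ^ α) • (vb K l ^ (p - 1) * q) ∈
        (Fs p J d 2).map (F K 1) := by
  have hp := hc_two p
  induction α with
  | zero =>
    rw [F_zero, pow_zero, one_mul, Nat.sub_zero, pow_zero, one_smul, sub_self]
    exact Submodule.zero_mem _
  | succ α ih =>
    have h1 : F K α q ∈ Fs p J (d - Finsupp.single l (p - 1)) ((p : ℤ) - 1 - 2 * α) :=
      Fs_F p hJ hq α
    have h2 := ih (by omega)
    obtain ⟨m, hm⟩ : ∃ m, p - 1 - (α + 1) = m := ⟨_, rfl⟩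
    have hm1 : p - 1 - α = m + 1 := by omega
    have h3 : va K l ^ (α + 1) * vb K l ^ m * F K α q ∈ Fs p J d 2 := by
      refine hc_mem p hl (by omega) ?_ h1
      have : (p : ℤ) = m + α + 2 := by omega
      rw [this]
      push_cast
      ring
    have h4 : F K 1 (va K l ^ (α + 1) * vb K l ^ m * F K α q) ∈ (Fs p J d 2).map (F K 1) :=
      ⟨_, h3, rfl⟩
    rw [hc_F1, F_comp, show 1 + α = α + 1 by omega, Nat.choose_one_right,
      ← Nat.cast_smul_eq_nsmul K, mul_smul_comm, ← smul_add] at h4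
    rw [hm1] at h2
    rw [hm]
    have hc : ((α + 1 : ℕ) : K) ≠ 0 := hc_cast p (Nat.succ_ne_zero _) (by omega)
    have h5 := Submodule.smul_mem _ (((α + 1 : ℕ) : K)⁻¹) h4
    rw [smul_smul, inv_mul_cancel₀ hc, one_smul] at h5
    have h6 := Submodule.sub_mem _ h5 h2
    have e : va K l ^ (α + 1) * vb K l ^ m * F K (α + 1) q -
        ((-1 : K) ^ (α + 1)) • (vb K l ^ (p - 1) * q) =
        (va K l ^ α * vb K l ^ (m + 1) * F K α q +
          va K l ^ (α + 1) * vb K l ^ m * F K (α + 1) q) -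
        (va K l ^ α * vb K l ^ (m + 1) * F K α q - ((-1 : K) ^ α) • (vb K l ^ (p - 1) * q)) := by
      rw [show ((-1 : K) ^ (α + 1)) = -((-1 : K) ^ α) by rw [pow_succ (-1 : K), mul_neg, mul_one],
        neg_smul]
      abel
    rw [e]
    exact h6

omit [DecidableEq V] [Fact p.Prime] [CharP K p] in
private lemma hc_lin (a b : T V K) (k : ℕ) (q : Polynomial (T V K)) :
    ((Polynomial.C a + Polynomial.X * Polynomial.C b) * q).coeff (k + 1)
      = a * q.coeff (k + 1) + b * q.coeff k := by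
  rw [add_mul, Polynomial.coeff_add, Polynomial.coeff_C_mul, mul_assoc, Polynomial.coeff_X_mul,
    Polynomial.coeff_C_mul]

omit [DecidableEq V] [Fact p.Prime] [CharP K p] in
private lemma hc_lin0 (a b : T V K) (q : Polynomial (T V K)) :
    ((Polynomial.C a + Polynomial.X * Polynomial.C b) * q).coeff 0 = a * q.coeff 0 := by
  rw [add_mul, Polynomial.coeff_add, Polynomial.coeff_C_mul, mul_assoc,
    Polynomial.mul_coeff_zero Polynomial.X, Polynomial.coeff_X_zero, zero_mul, add_zero]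

omit [DecidableEq V] [Fact p.Prime] [CharP K p] in
private lemma hc_pow (a b : T V K) (n k : ℕ) :
    ((Polynomial.C a + Polynomial.X * Polynomial.C b) ^ n).coeff k
      = (n.choose k : T V K) * (a ^ (n - k) * b ^ k) := by
  induction n generalizing k with
  | zero =>
    rcases k with _ | k
    · simp
    · simp [Polynomial.coeff_one]
  | succ n ih =>
    rw [pow_succ']
    rcases k with _ | k
    · rw [hc_lin0, ih]
      simp only [Nat.choose_zero_right, Nat.cast_one, pow_zero, Nat.sub_zero]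
      ring
    · rw [hc_lin, ih, ih, Nat.choose_succ_succ, Nat.cast_add,
        show n + 1 - (k + 1) = n - k by omega]
      rcases Nat.lt_or_ge k n with h | h
      · rw [show n - k = (n - (k + 1)) + 1 by omega]
        ring
      · rw [Nat.choose_eq_zero_of_lt (show n < k + 1 by omega)]
        simp only [Nat.cast_zero, zero_mul, mul_zero, add_zero, zero_add]
        rw [show n - k = 0 by omega]
        ring

omit [DecidableEq V] [Fact p.Prime] [CharP K p] in
private lemma hc_Eb (l : V) (n k : ℕ) :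
    E K k (vb K l ^ n) = (n.choose k : K) • (va K l ^ k * vb K l ^ (n - k)) := by
  rw [E_apply, map_pow, Et_vb, hc_pow, MvPolynomial.smul_eq_C_mul, map_natCast,
    mul_comm (vb K l ^ (n - k))]

/-- step 3 -/
private lemma hc_C {l : V} {d : V →₀ ℕ} (hl : p ∣ d l + 1) {J : Ideal (T V K)}
    {q : T V K} (hq : q ∈ Fs p J (d - Finsupp.single l (p - 1)) ((p : ℤ) - 1))
    (hqL : q ∈ Lp p K l) :
    qe p l (p - 1) (Lam K p (vb K l ^ (p - 1) * q)) = F K (p - 1) q := by
  have hp := hc_two p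
  have h0 : vb K l ^ (p - 1) * q ∈ S K d 0 := by
    have h := hc_mem p hl (α := 0) (β := p - 1) (w := 0) (by omega) (by
      rw [Nat.cast_sub (show 1 ≤ p by omega)]
      push_cast
      ring) hq
    rw [pow_zero, one_mul] at h
    exact h.2
  rw [← EF_eq_Lam K p h0 (dvd_zero _)]
  have e1 : F K (p - 1) (vb K l ^ (p - 1) * q) = vb K l ^ (p - 1) * F K (p - 1) q := by
    rw [F_mul, Finset.sum_eq_single (0, p - 1)]
    · rw [F_zero]
    · rintro ⟨i, j⟩ hij hne
      rw [Finset.HasAntidiagonal.mem_antidiagonal] at hij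
      simp only at hij ⊢
      have hi : i ≠ 0 := by
        rintro rfl
        apply hne
        rw [zero_add] at hij
        rw [hij]
      rw [hc_F_bpow l _ _ hi, zero_mul]
    · intro h
      exact absurd (Finset.HasAntidiagonal.mem_antidiagonal.2 (by simp)) h
  rw [e1, E_mul, map_sum, Finset.sum_eq_single (p - 1, 0)]
  · rw [hc_Eb, Nat.choose_self, Nat.cast_one, one_smul, E_zero]
    have h1 := qe_mul p l (α := p - 1) (β := p - 1) (show p - 1 < p by omega) (F_Lp p l (p - 1) hqL)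
    rw [if_pos rfl] at h1
    exact h1
  · rintro ⟨i, j⟩ hij hne
    rw [Finset.HasAntidiagonal.mem_antidiagonal] at hij
    simp only at hij ⊢
    have hi : i ≠ p - 1 := by
      rintro rfl
      apply hne
      have : j = 0 := by omega
      rw [this]
    rw [hc_Eb, smul_mul_assoc, map_smul,
      qe_mul p l (show i < p by omega) (E_Lp p l j (F_Lp p l (p - 1) hqL)), if_neg hi, smul_zero]
  · intro h
    exact absurd (Finset.HasAntidiagonal.mem_antidiagonal.2 (by simp)) h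

theorem sub_aq_mem {l : V} {d : V →₀ ℕ} (hl : p ∣ d l + 1) {J : Ideal (T V K)} (hJ : Good J) {y : T V K}
    (hy : y ∈ Fs p J d 0) : y - va K l ^ (p - 1) * qe p l (p - 1) (Lam K p y) ∈
      (Fs p J d (-2)).map (E K 1) ⊔ (Fs p J d 2).map (F K 1) := by
  have hp := hc_two p
  have hqa : ∀ α < p, qe p l α y ∈ Fs p J (d - Finsupp.single l (p - 1)) ((p : ℤ) - 1 - 2 * α) := by
    intro α hα
    refine ⟨qe_Fr p l α hy.1, ?_⟩
    have h := qe_mem_S (K := K) p (l := l) hα hy.2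
    have e : (0 : ℤ) - (2 * (α : ℤ) - ((p : ℤ) - 1)) = (p : ℤ) - 1 - 2 * α := by ring
    rw [e] at h
    exact h
  set q' : T V K := ∑ α ∈ range p, E K α (qe p l α y) with hq'
  have hq'F : q' ∈ Fs p J (d - Finsupp.single l (p - 1)) ((p : ℤ) - 1) := by
    refine Submodule.sum_mem _ fun α hα => ?_
    have h := Fs_E p hJ (hqa α (mem_range.1 hα)) α
    have e : (p : ℤ) - 1 - 2 * α + 2 * (α : ℤ) = (p : ℤ) - 1 := by ring
    rwa [e] at h
  have hq'L : q' ∈ Lp p K l :=
    Submodule.sum_mem _ fun α _ => E_Lp p l α (qe_mem_Lp p l α y)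
  have h1 : y - vb K l ^ (p - 1) * q' ∈ (Fs p J d (-2)).map (E K 1) := by
    have e : y - vb K l ^ (p - 1) * q' = ∑ α ∈ range p,
        (va K l ^ α * vb K l ^ (p - 1 - α) * qe p l α y -
          vb K l ^ (p - 1) * E K α (qe p l α y)) := by
      rw [Finset.sum_sub_distrib, ← recon p hl hy.2, hq', Finset.mul_sum]
    rw [e]
    refine Submodule.sum_mem _ fun α hα => ?_
    have hα' := mem_range.1 hα
    exact hc_A p hl hJ α (by omega) _ (hqa α hα')
  have h2 : Lam K p y = Lam K p (vb K l ^ (p - 1) * q') := by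
    obtain ⟨z, _, hz⟩ := h1
    have h3 : Lam K p (y - vb K l ^ (p - 1) * q') = 0 := by
      rw [← hz, Lam_E1]
    rw [map_sub] at h3
    exact sub_eq_zero.1 h3
  have h3 := hc_B p hl hJ hq'F (p - 1) le_rfl
  have h4 : ((-1 : K) ^ (p - 1)) = 1 := by
    rcases (Fact.out : p.Prime).eq_two_or_odd' with h | h
    · have hc : CharP K 2 := by rw [← h]; infer_instance
      have h5 : ((2 : ℕ) : K) = 0 := CharP.cast_eq_zero K 2
      have h6 : (-1 : K) = 1 := by
        have h7 : (1 : K) + 1 = 0 := by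
          have := h5
          push_cast at this
          rw [← this]
          norm_num
        exact neg_eq_of_add_eq_zero_left h7
      rw [h6, one_pow]
    · obtain ⟨k, hk⟩ := h
      rw [hk, Nat.add_sub_cancel, pow_mul, neg_one_sq, one_pow]
  rw [h4, one_smul, Nat.sub_self, pow_zero, mul_one] at h3
  rw [h2, hc_C p hl hq'F hq'L]
  have e : y - va K l ^ (p - 1) * F K (p - 1) q' = (y - vb K l ^ (p - 1) * q') +
      -(va K l ^ (p - 1) * F K (p - 1) q' - vb K l ^ (p - 1) * q') := by abel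
  rw [e]
  exact Submodule.add_mem_sup h1 (Submodule.neg_mem _ h3)

/-- (H) -/
theorem tt_eq_rr {P Q : Ideal (T V K)} (hPQ : P ≤ Q) (hP : Good P) (hQ : Good Q) {d : V →₀ ℕ} {l : V}
    (hl : p ∣ d l + 1) (hd : d.degree < 2 * p * (p - 1)) : tt p P Q d = rr p P Q d := by
  refine tt_eq_rr_of_inj p hPQ hP hQ hd fun x hx hx0 => ?_
  obtain ⟨y, hy, h1⟩ := exists_Lam_NrmL p hQ hx
  have h2 : F K p y ∈ Fs p Q d 0 := by
    have h := Fs_F p hQ hy p
    have e : (2 * (p : ℤ) - 2 * ((p : ℕ) : ℤ) : ℤ) = 0 := by ring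
    rwa [e] at h
  have h3 := sub_aq_mem p hl hQ (Submodule.add_mem _ hx h2)
  rw [← h1] at h3
  have h4 := aq_mem_Fs p hl hx0
  have h5 : F K p y ∈ gS p Q d := by
    unfold gS
    exact Submodule.mem_sup_right (Submodule.mem_sup_right ⟨y, hy, rfl⟩)
  have h6 : (x + F K p y) - va K l ^ (p - 1) * qe p l (p - 1) (NrmL p x) ∈ gS p Q d := by
    unfold gS
    exact Submodule.mem_sup_left h3
  have e : x = va K l ^ (p - 1) * qe p l (p - 1) (NrmL p x) +
      (((x + F K p y) - va K l ^ (p - 1) * qe p l (p - 1) (NrmL p x)) - F K p y) := by abel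
  rw [e]
  exact Submodule.add_mem_sup h4 (Submodule.sub_mem _ h6 h5)

end HKDet
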