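import Pool.Agent.Lib.HKDet.DA
import Pool.Agent.Lib.HKDet.HC
import Pool.Agent.Lib.HKDet.SpB
import Pool.Agent.Lib.HKDet.Uq

/-!
# Module DB: (D) additivity of `tt` for `nI A ≤ nI U ≤ ⊤`, entries `≤ 2p-2`

`kD d = tt (nI A) (nI U) d + tt (nI U) ⊤ d - tt (nI A) ⊤ d`.
1. `kD d ≥ 0` for all `d` (`tt_le`; `nI_mono`, `good_nI`, `good_top`).
2. `kD` is additive: `kD d = kD (d + e_i - e_j) + kD (d - e_i - e_j)` for `d j = 1`, `1 ≤ d i`, `p ∤ d i + 1` (`tt_split`).
3. `kD d = 0` if some `d l + 1` is divisible by `p`, `d.degree < 2p(p-1)`: `tt_eq_rr` for the three pairs and `rr_ge`: `kD d ≤ 0`.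
4. `Tl ⊆ U`, `d₀ = ∑_{c ∈ Tl} single c (2p-2)`; `kD (d + d₀) = 0` for `d` zero on `Tl`, entries `≤ p-1`, `(d + d₀).degree < 2p(p-1)`: `uniqB` with `O = Tl`, `τ d = kD (d + d₀)`, `D = d.degree`: `h1` from 2. (`(d + d₀) i = d i`, `(d+d₀) j = 1`),
   `h2` from 3., `h3` = `tt_D_base`.
5. General `d` (entries `≤ 2p-2`, entries outside `U` `≤ p-1`): strong induction on `∑_{v : p ≤ d v} (2p-2-d v)` with the hypothesis `d.degree + 2 ∑_{v : p ≤ d v} (2p-2-d v) < 2p(p-1)`. If the sum is `0`: all large entries are `2p-2`: 4. with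
   `Tl = {v : p ≤ d v} ⊆ U`. Otherwise `i` with `p ≤ d i ≤ 2p-3`, a fresh `j` (`V` infinite; `j ∉ supp d`): `d' = d + e_i + e_j` satisfies the hypotheses with a smaller sum (`-1`; degree `+2`), so `kD d' = 0`, and by 2. (`d' j = 1`, `d' i + 1 = d i + 2 ≤ 2p-1`, `≥ p+2`: not divisible
   by `p`) `0 = kD d' = kD (d + 2 e_i) + kD d`, both `≥ 0`.
   Initially `2 ∑ (2p-2-d v) ≤ 2 (p-2) card U ≤ 2 p card U`.
-/

namespace HKDet

open MvPolynomial FSig Finset

variable {V : Type*} [DecidableEq V] [Infinite V] {K : Type*} [Field K] (p : ℕ) [Fact p.Prime]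
  [CharP K p] {d : V →₀ ℕ}

/-- the defect of additivity -/
private noncomputable def kD (K : Type*) [Field K] (p : ℕ) (A U : Finset V) (d : V →₀ ℕ) : ℤ :=
  tt p (nI K A) (nI K U) d + tt p (nI K U) ⊤ d - tt p (nI K A) ⊤ d

omit [Infinite V] [DecidableEq V] in
include K in
private theorem kD_nonneg {A U : Finset V} (hA : A ⊆ U) (d : V →₀ ℕ) : 0 ≤ kD K p A U d := by
  have h := tt_le (K := K) p (d := d) (nI_mono (K := K) hA) (le_top) (good_nI U) good_top
  unfold kD
  linarith

omit [Infinite V] in
private theorem kD_split {A U : Finset V} (hA : A ⊆ U) {d : V →₀ ℕ} {i j : V} (hij : i ≠ j)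
    (hj : d j = 1) (hi : 1 ≤ d i) (hi' : ¬ p ∣ d i + 1) :
    kD K p A U d = kD K p A U (d + Finsupp.single i 1 - Finsupp.single j 1)
      + kD K p A U (d - Finsupp.single i 1 - Finsupp.single j 1) := by
  have h1 := tt_split (K := K) p (nI_mono (K := K) hA) (good_nI A) (good_nI U) hij hj hi hi'
  have h2 := tt_split (K := K) p (le_top : nI K U ≤ ⊤) (good_nI U) good_top hij hj hi hi'
  have h3 := tt_split (K := K) p (le_top : nI K A ≤ ⊤) (good_nI A) good_top hij hj hi hi'
  unfold kD
  linarith

omit [Infinite V] in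
private theorem kD_zero {A U : Finset V} (hA : A ⊆ U) {d : V →₀ ℕ} {l : V} (hl : p ∣ d l + 1)
    (hd : d.degree < 2 * p * (p - 1)) : kD K p A U d = 0 := by
  have h1 := tt_eq_rr (K := K) p (nI_mono (K := K) hA) (good_nI A) (good_nI U) hl hd
  have h2 := tt_eq_rr (K := K) p (le_top : nI K U ≤ ⊤) (good_nI U) good_top hl hd
  have h3 := tt_eq_rr (K := K) p (le_top : nI K A ≤ ⊤) (good_nI A) good_top hl hd
  have h4 := rr_ge (K := K) p (d := d) (nI_mono (K := K) hA) (le_top) (good_nI U) good_top
  have h5 := kD_nonneg (K := K) p hA d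
  unfold kD at h5 ⊢
  linarith

/-- the frozen part -/
private noncomputable def dZ (p : ℕ) (Tl : Finset V) : V →₀ ℕ :=
  ∑ c ∈ Tl, Finsupp.single c (2 * p - 2)

omit [Infinite V] in
private theorem dZ_apply (Tl : Finset V) (v : V) :
    dZ p Tl v = if v ∈ Tl then 2 * p - 2 else 0 := by
  unfold dZ
  rw [Finsupp.finsetSum_apply]
  simp only [Finsupp.single_apply]
  rw [Finset.sum_ite_eq']

private theorem kD_frozen {A U Tl : Finset V} (hA : A ⊆ U) (hT : Tl ⊆ U) {d : V →₀ ℕ}
    (hO : ∀ v ∈ Tl, d v = 0) (hd : ∀ v, d v ≤ p - 1)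
    (hdeg : (d + dZ p Tl).degree < 2 * p * (p - 1)) : kD K p A U (d + dZ p Tl) = 0 := by
  have hp : 2 ≤ p := (Fact.out : p.Prime).two_le
  have hdeg' : d.degree + (dZ p Tl).degree < 2 * p * (p - 1) := by
    rwa [map_add] at hdeg
  refine uniqB p hp Tl d.degree (fun e => kD K p A U (e + dZ p Tl)) ?_ ?_ ?_ d hO hd le_rfl
  · intro e i j hi hj hij hej hei hei' _ _ _
    have hzi : dZ p Tl i = 0 := by rw [dZ_apply, if_neg hi]
    have hzj : dZ p Tl j = 0 := by rw [dZ_apply, if_neg hj]
    have h1 : (e + dZ p Tl) j = 1 := by rw [Finsupp.add_apply, hzj, hej]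
    have h2 : (e + dZ p Tl) i = e i := by rw [Finsupp.add_apply, hzi, add_zero]
    have h3 := kD_split (K := K) p hA (d := e + dZ p Tl) hij h1 (by rw [h2]; exact hei)
      (by
        rw [h2]
        intro h
        have := Nat.le_of_dvd (by omega) h
        omega)
    have e1 : e + dZ p Tl + Finsupp.single i 1 - Finsupp.single j 1 =
        e + Finsupp.single i 1 - Finsupp.single j 1 + dZ p Tl := by
      ext v
      simp only [Finsupp.coe_add, Finsupp.coe_tsub, Pi.add_apply, Pi.sub_apply,
        Finsupp.single_apply]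
      by_cases hv : j = v
      · subst hv
        rw [hzj, hej]
        simp
      · rw [if_neg hv]
        omega
    have e2 : e + dZ p Tl - Finsupp.single i 1 - Finsupp.single j 1 =
        e - Finsupp.single i 1 - Finsupp.single j 1 + dZ p Tl := by
      ext v
      simp only [Finsupp.coe_add, Finsupp.coe_tsub, Pi.add_apply, Pi.sub_apply,
        Finsupp.single_apply]
      by_cases hv : j = v
      · subst hv
        rw [hzj, hej]
        simp
      · rw [if_neg hv]
        by_cases hv' : i = v
        · subst hv'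
          rw [hzi]
          simp
        · rw [if_neg hv']
          omega
    rw [e1, e2] at h3
    exact h3
  · intro e heO _ ⟨v, hv⟩ heD
    have hvT : v ∉ Tl := by
      intro h
      have := heO v h
      omega
    have h1 : (e + dZ p Tl) v + 1 = p := by
      rw [Finsupp.add_apply, dZ_apply, if_neg hvT, hv]
      omega
    exact kD_zero (K := K) p hA (l := v) (by rw [h1]) (by rw [map_add]; omega)
  · intro v k hv hk _
    have h := tt_D_base (K := K) p hA hT hv hk
    have e1 : Finsupp.single v k + dZ p Tl =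
      ∑ c ∈ Tl, Finsupp.single c (2 * p - 2) + Finsupp.single v k := by
      rw [add_comm]
      rfl
    change kD K p A U (Finsupp.single v k + dZ p Tl) = 0
    rw [e1]
    unfold kD
    linarith

/-- the defect of the large entries -/
private def nU (p : ℕ) (U : Finset V) (d : V →₀ ℕ) : ℕ :=
  ∑ v ∈ U, if p ≤ d v then 2 * p - 2 - d v else 0

private theorem kD_all {A U : Finset V} (hA : A ⊆ U) (N : ℕ) : ∀ d : V →₀ ℕ,
    nU p U d = N → (∀ v, d v ≤ 2 * p - 2) → (∀ v, v ∉ U → d v ≤ p - 1) →
    d.degree + 2 * nU p U d < 2 * p * (p - 1) → kD K p A U d = 0 := by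
  have hp : 2 ≤ p := (Fact.out : p.Prime).two_le
  induction N with
  | zero =>
    intro d hN hs hU hdeg
    have hz : ∀ v ∈ U, p ≤ d v → d v = 2 * p - 2 := by
      intro v hv hpv
      have := (Finset.sum_eq_zero_iff.1 hN) v hv
      rw [if_pos hpv] at this
      have := hs v
      omega
    set Tl := U.filter (fun v => p ≤ d v) with hTl
    have hmem : ∀ v, v ∈ Tl ↔ v ∈ U ∧ p ≤ d v := by
      intro v
      rw [hTl, Finset.mem_filter]
    have he : d - dZ p Tl + dZ p Tl = d := by
      ext v
      simp only [Finsupp.coe_add, Finsupp.coe_tsub, Pi.add_apply, Pi.sub_apply, dZ_apply]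
      by_cases hv : v ∈ Tl
      · rw [if_pos hv, hz v ((hmem v).1 hv).1 ((hmem v).1 hv).2]
        omega
      · rw [if_neg hv]
        omega
    have h := kD_frozen (K := K) p hA (Tl := Tl) (Finset.filter_subset _ _) (d := d - dZ p Tl) ?_ ?_ ?_
    · rwa [he] at h
    · intro v hv
      rw [Finsupp.coe_tsub, Pi.sub_apply, dZ_apply, if_pos hv,
        hz v ((hmem v).1 hv).1 ((hmem v).1 hv).2, Nat.sub_self]
    · intro v
      rw [Finsupp.coe_tsub, Pi.sub_apply, dZ_apply]
      by_cases hv : v ∈ Tl
      · rw [if_pos hv]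
        have := hs v
        omega
      · rw [if_neg hv]
        by_cases hvU : v ∈ U
        · have : ¬ p ≤ d v := fun h => hv ((hmem v).2 ⟨hvU, h⟩)
          omega
        · have := hU v hvU
          omega
    · rw [he]
      omega
  | succ N ih =>
    intro d hN hs hU hdeg
    have hex : ∃ i ∈ U, p ≤ d i ∧ d i ≤ 2 * p - 3 := by
      by_contra hcon
      push Not at hcon
      have h0 : nU p U d = 0 := by
        unfold nU
        apply Finset.sum_eq_zero
        intro v hv
        by_cases hpv : p ≤ d v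
        · rw [if_pos hpv]
          have := hcon v hv hpv
          omega
        · rw [if_neg hpv]
      omega
    obtain ⟨i, hiU, hpi, hi3⟩ := hex
    obtain ⟨j, hj⟩ := Infinite.exists_notMem_finset (d.support ∪ U)
    rw [Finset.mem_union, not_or] at hj
    have hdj : d j = 0 := Finsupp.notMem_support_iff.1 hj.1
    have hij : i ≠ j := fun h => hj.2 (h ▸ hiU)
    set d' := d + Finsupp.single i 1 + Finsupp.single j 1 with hd'
    have hd'a : ∀ v, d' v = d v + (if i = v then 1 else 0) + (if j = v then 1 else 0) := by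
      intro v
      rw [hd']
      simp only [Finsupp.coe_add, Pi.add_apply, Finsupp.single_apply]
    have hd'i : d' i = d i + 1 := by
      rw [hd'a, if_pos rfl, if_neg (Ne.symm hij)]
    have hd'j : d' j = 1 := by
      rw [hd'a, if_pos rfl, if_neg hij, hdj]
    have hd'v : ∀ v, v ≠ i → v ≠ j → d' v = d v := by
      intro v h1 h2
      rw [hd'a, if_neg (Ne.symm h1), if_neg (Ne.symm h2)]
      rfl
    have hN' : nU p U d' = N := by
      have e1 : nU p U d = (2 * p - 2 - d i) + ∑ v ∈ U.erase i, if p ≤ d v then 2 * p - 2 - d v else 0 := by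
        unfold nU
        rw [← Finset.add_sum_erase _ _ hiU, if_pos hpi]
      have e2 : nU p U d' = (2 * p - 2 - (d i + 1)) +
          ∑ v ∈ U.erase i, if p ≤ d v then 2 * p - 2 - d v else 0 := by
        unfold nU
        rw [← Finset.add_sum_erase _ _ hiU, if_pos (by omega), hd'i]
        congr 1
        apply Finset.sum_congr rfl
        intro v hv
        rw [Finset.mem_erase] at hv
        rw [hd'v v hv.1 (fun h => hj.2 (h ▸ hv.2))]
      omega
    have hdeg1 : d'.degree = d.degree + 2 := by
      rw [hd', map_add, map_add, Finsupp.degree_single, Finsupp.degree_single]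
    have h0 : kD K p A U d' = 0 := by
      apply ih d' hN'
      · intro v
        by_cases h1 : v = i
        · subst h1
          omega
        · by_cases h2 : v = j
          · subst h2
            omega
          · rw [hd'v v h1 h2]
            exact hs v
      · intro v hv
        by_cases h1 : v = i
        · subst h1
          exact absurd hiU hv
        · by_cases h2 : v = j
          · subst h2
            omega
          · rw [hd'v v h1 h2]
            exact hU v hv
      · omega
    have h1 := kD_split (K := K) p hA (d := d') hij hd'j (by omega) (by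
      rw [hd'i]
      rintro ⟨k, hk⟩
      have hk1 : 1 < k := by
        by_contra h
        have : k ≤ 1 := by omega
        have := Nat.mul_le_mul_left p this
        omega
      have := Nat.mul_le_mul_left p (show 2 ≤ k by omega)
      omega)
    have e2 : d' - Finsupp.single i 1 - Finsupp.single j 1 = d := by
      ext v
      simp only [Finsupp.coe_tsub, Pi.sub_apply, hd'a, Finsupp.single_apply]
      omega
    rw [h0, e2] at h1
    have h2 := kD_nonneg (K := K) p hA (d' + Finsupp.single i 1 - Finsupp.single j 1)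
    have h3 := kD_nonneg (K := K) p hA d
    omega

/-- (D) -/
theorem tt_D {A U : Finset V} (hA : A ⊆ U) (hs : ∀ v, d v ≤ 2 * p - 2)
    (hU : ∀ v, v ∉ U → d v ≤ p - 1) (hd : d.degree + 2 * p * U.card < 2 * p * (p - 1)) :
    tt p (nI K A) (nI K U) d = tt p (nI K A) ⊤ d - tt p (nI K U) ⊤ d := by
  have hN : nU p U d ≤ p * U.card := by
    unfold nU
    calc ∑ v ∈ U, (if p ≤ d v then 2 * p - 2 - d v else 0) ≤ ∑ _v ∈ U, p := by
          apply Finset.sum_le_sum
          intro v _
          split_ifs
          · omega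
          · omega
      _ = p * U.card := by rw [Finset.sum_const, smul_eq_mul, mul_comm]
  have h := kD_all (K := K) p hA (nU p U d) d rfl hs hU (by nlinarith)
  unfold kD at h
  linarith

end HKDet
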