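import Pool.Agent.Lib.HKDet.BC

/-!
# Module F1M: `t(S_w)` if exactly one `p`-th power fits (F1)

`p ≤ d v ≤ 2p-2`, other entries `≤ p-1`. Choose `o` with `o ≠ v`, `d o = 0`. `d₁ = d - single v p` (entries `≤ p-1`, `d₁ v = d v - p ≤ p-2`).
* `big_piece`: `tt ⊥ (nI {v}) d = tt ⊥ (nI {o}^1) (d₁ + single o (p*1))`, same for `rr`: `transport` from the right side to the left side with `θ = mg v o` (merge `o` into `v`), `P = P' = ⊥`. A monomial of `Fs (nI {o}^1) (d₁ + p e_o) w` has exponents `(p,0)` or
  `(0,p)` at `o` (`mem_Fr_pow`: `s' + t' = p`, `s'/p + t'/p ≥ 1`) and `(s,t)`, `s + t = d v - p ≤ p - 2` at `v`; image: `(s+p, t)` or `(s, t+p)` at `v`: in `Fr (nI {v})` (`mem_Fr_nI`), injective on monomials (exactly one of the exponents is `≥ p`),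
  and onto: a monomial of `Fs (nI {v}) d w` has `(S,T)` at `v`, `S + T = d v ≤ 2p-2`, exactly one of them `≥ p`.
* `tt ⊥ (nI {v}) d = rr ⊥ (nI {v}) d = mlt p 1 d₁` (`tt_small_piece`, `rr_small_piece`, `b = 1`; `d₁.degree + p = d.degree`).
* (X2) `tt_add_of_eq` for `⊥ ≤ nI {v} ≤ ⊤`: `tt ⊥ ⊤ d = mlt p 1 d₁ + tt (nI {v}) ⊤ d`, and `tt_flip` (`C = {v}`): `= tt ⊥ ⊤ (bar p d) = invN (bar p d)` (`tt_SS_small`; `barC p {v} d = bar p d` because `min x (2p-2-x) = x` for `x ≤ p-1`).
* `inv_N1` with `e = d.erase v`, `x = d v - p`: `invN d = mlt p 1 d₁ + invN (bar p d) - fus p (bar p d)`.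
-/

namespace HKDet

open MvPolynomial FSig Finset

set_option linter.unusedSectionVars false
set_option linter.unusedSimpArgs false

variable {V : Type*} [DecidableEq V] [Infinite V] {K : Type*} [Field K] (p : ℕ) [Fact p.Prime]
  [CharP K p] {d : V →₀ ℕ}

private lemma F1M_tot {d : V →₀ ℕ} {w : ℤ} {J : Ideal (T V K)} {L : T V K →ₗ[K] T V K}
    (Pr : (V × Bool →₀ ℕ) → Prop)
    (hP : ∀ x ∈ Fs p J d w, ∀ μ, coeff μ x ≠ 0 → Pr μ)
    (hL : ∀ μ (c : K), Pr μ → L (monomial μ c) = monomial μ c) :
    ∀ x ∈ Fs p J d w, L x = x := by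
  intro x hx
  conv_lhs => rw [x.as_sum]
  conv_rhs => rw [x.as_sum]
  rw [map_sum]
  refine Finset.sum_congr rfl fun μ hμ => ?_
  rw [mem_support_iff] at hμ
  exact hL μ _ (hP x hx μ hμ)

/-- the inverse on exponents -/
private noncomputable def F1M_e (v o : V) (μ : V × Bool →₀ ℕ) : V × Bool →₀ ℕ :=
  if p ≤ μ (v, false) then μ - Finsupp.single (v, false) p + Finsupp.single (o, false) p
  else μ - Finsupp.single (v, true) p + Finsupp.single (o, true) p

/-- the inverse -/
private noncomputable def F1M_psi (v o : V) : T V K →ₗ[K] T V K :=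
  (basisMonomials (V × Bool) K).constr K fun μ => monomial (F1M_e p v o μ) (1 : K)

private lemma F1M_psi_mon (v o : V) (μ : V × Bool →₀ ℕ) (c : K) :
    F1M_psi p v o (monomial μ c) = monomial (F1M_e p v o μ) c := by
  have h1 : (monomial μ c : T V K) = c • (basisMonomials (V × Bool) K) μ := by
    rw [coe_basisMonomials, smul_monomial, smul_eq_mul, mul_one]
  rw [h1, map_smul]
  unfold F1M_psi
  rw [Module.Basis.constr_basis, smul_monomial, smul_eq_mul, mul_one]

private lemma F1M_mg_mon (v o : V) (μ : V × Bool →₀ ℕ) (c : K) :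
    mg K v o (monomial μ c) =
      monomial (μ.mapDomain (Prod.map (Function.update id o v) id)) c := by
  unfold mg rn
  rw [rename_monomial]

private lemma F1M_md {v o : V} {μ : V × Bool →₀ ℕ} (h : ∀ ε, μ (o, ε) = 0) :
    μ.mapDomain (Prod.map (Function.update id o v) id) = μ := by
  conv_rhs => rw [← Finsupp.mapDomain_id (v := μ)]
  refine Finsupp.mapDomain_congr ?_
  rintro ⟨w, ε⟩ hw
  rw [Finsupp.mem_support_iff] at hw
  have hwo : w ≠ o := by
    rintro rfl
    exact hw (h ε)
  simp [Function.update_of_ne hwo]

private lemma F1M_md2 {v o : V} {ν : V × Bool →₀ ℕ} (h : ∀ ε, ν (o, ε) = 0) (ε : Bool) (n : ℕ) :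
    (ν + Finsupp.single (o, ε) n).mapDomain (Prod.map (Function.update id o v) id)
      = ν + Finsupp.single (v, ε) n := by
  rw [Finsupp.mapDomain_add, F1M_md h, Finsupp.mapDomain_single]
  simp

private lemma F1M_wtm_add (μ ν : V × Bool →₀ ℕ) : wtm (μ + ν) = wtm μ + wtm ν := by
  unfold wtm
  rw [Finsupp.sum_add_index']
  · intro x
    split_ifs <;> simp
  · intro x m n
    split_ifs
    · push_cast
      ring
    · push_cast
      ring

private lemma F1M_wtm_single (v : V) (ε : Bool) (n : ℕ) :
    wtm (Finsupp.single (v, ε) n) = if ε then -(n : ℤ) else n := by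
  unfold wtm
  rw [Finsupp.sum_single_index (by split_ifs <;> simp)]

theorem big_piece {v o : V} (hvo : v ≠ o) (ho : d o = 0) (hv : p ≤ d v) (hv' : d v ≤ 2 * p - 2) :
    tt p (⊥ : Ideal (T V K)) (nI K {v}) d = tt p (⊥ : Ideal (T V K)) (nI K {o} ^ 1)
      (d - Finsupp.single v p + Finsupp.single o (p * 1)) ∧
    rr p (⊥ : Ideal (T V K)) (nI K {v}) d = rr p (⊥ : Ideal (T V K)) (nI K {o} ^ 1)
      (d - Finsupp.single v p + Finsupp.single o (p * 1)) := by
  have hp : 2 ≤ p := (Fact.out : p.Prime).two_le
  -- properties of the monomials on both sides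
  have hQ' : ∀ w, ∀ y ∈ Fs p (nI K {v}) d w, ∀ μ, coeff μ y ≠ 0 →
      (p ≤ μ (v, false) ∨ p ≤ μ (v, true)) ∧ μ (v, false) + μ (v, true) ≤ 2 * p - 2 ∧
        ∀ ε, μ (o, ε) = 0 := by
    intro w y hy μ hμ
    have h1 := (mem_Fr_nI p).1 hy.1 μ hμ
    have h2 := ((mem_S_iff K).1 hy.2 μ hμ).1
    refine ⟨?_, ?_, ?_⟩
    · obtain ⟨c, hc, ε, hε⟩ := h1
      rw [Finset.mem_singleton] at hc
      subst hc
      cases ε
      · exact Or.inl hε
      · exact Or.inr hε
    · rw [h2 v]
      exact hv'
    · have h3 := h2 o
      intro ε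
      cases ε <;> omega
  have hQ : ∀ w, ∀ x ∈ Fs p (nI K {o} ^ 1) (d - Finsupp.single v p + Finsupp.single o (p * 1)) w,
      ∀ μ, coeff μ x ≠ 0 → (μ (o, false) = p ∧ μ (o, true) = 0 ∨ μ (o, false) = 0 ∧ μ (o, true) = p)
        ∧ μ (v, false) + μ (v, true) ≤ p - 2 := by
    intro w x hx μ hμ
    have h1 := (mem_Fr_pow p).1 hx.1 μ hμ
    have h2 := ((mem_S_iff K).1 hx.2 μ hμ).1
    have h3 := h2 o
    have h4 := h2 v
    simp only [Finsupp.add_apply, Finsupp.tsub_apply, Finsupp.single_apply, if_neg hvo,
      if_neg (Ne.symm hvo), if_true, ho] at h3 h4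
    refine ⟨?_, by omega⟩
    rcases Nat.lt_or_ge (μ (o, false)) p with h5 | h5
    · rcases Nat.lt_or_ge (μ (o, true)) p with h6 | h6
      · rw [Nat.div_eq_of_lt h5, Nat.div_eq_of_lt h6] at h1
        omega
      · right
        omega
    · left
      omega
  have hpsi : ∀ w, ∀ x ∈ Fs p (nI K {o} ^ 1)
      (d - Finsupp.single v p + Finsupp.single o (p * 1)) w,
      F1M_psi p v o (mg K v o x) = x := by
    intro w x hx
    refine F1M_tot p (L := (F1M_psi p v o).comp (mg K v o).toLinearMap)
      (fun μ => (μ (o, false) = p ∧ μ (o, true) = 0 ∨ μ (o, false) = 0 ∧ μ (o, true) = p)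
        ∧ μ (v, false) + μ (v, true) ≤ p - 2) (hQ w) ?_ x hx
    intro μ c hμ
    rw [LinearMap.comp_apply, AlgHom.toLinearMap_apply, F1M_mg_mon, F1M_psi_mon]
    congr 1
    obtain ⟨h1, h2⟩ := hμ
    rcases h1 with ⟨h3, h4⟩ | ⟨h3, h4⟩
    · have e : μ = (μ - Finsupp.single (o, false) p) + Finsupp.single (o, false) p := by
        ext x
        simp only [Finsupp.add_apply, Finsupp.tsub_apply, Finsupp.single_apply]
        split_ifs with h
        · subst h
          omega
        · omega
      have h0 : ∀ ε, (μ - Finsupp.single (o, false) p) (o, ε) = 0 := by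
        intro ε
        cases ε <;> simp [h3, h4]
      rw [e, F1M_md2 h0]
      unfold F1M_e
      have hne : (o, false) ≠ (v, false) := by
        intro h
        exact hvo (congrArg Prod.fst h).symm
      rw [if_pos (by simp)]
      rw [add_tsub_cancel_right]
    · have e : μ = (μ - Finsupp.single (o, true) p) + Finsupp.single (o, true) p := by
        ext x
        simp only [Finsupp.add_apply, Finsupp.tsub_apply, Finsupp.single_apply]
        split_ifs with h
        · subst h
          omega
        · omega
      have h0 : ∀ ε, (μ - Finsupp.single (o, true) p) (o, ε) = 0 := by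
        intro ε
        cases ε <;> simp [h3, h4]
      rw [e, F1M_md2 h0]
      unfold F1M_e
      have hne : (o, true) ≠ (v, false) := by
        intro h
        exact absurd (congrArg Prod.snd h) (by simp)
      rw [if_neg]
      · rw [add_tsub_cancel_right]
      · have h5 : (μ - Finsupp.single (o, true) p + Finsupp.single (v, true) p) (v, false)
            = μ (v, false) := by
          simp [Finsupp.single_apply]
        rw [h5]
        omega
  have hmem : ∀ w, ∀ y ∈ Fs p (nI K {v}) d w, F1M_psi p v o y ∈ Fs p (nI K {o} ^ 1)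
      (d - Finsupp.single v p + Finsupp.single o (p * 1)) w ∧ mg K v o (F1M_psi p v o y) = y := by
    intro w y hy
    refine ⟨?_, ?_⟩
    · rw [y.as_sum, map_sum]
      refine Submodule.sum_mem _ fun μ hμ => ?_
      rw [mem_support_iff] at hμ
      obtain ⟨h1, h2, h3⟩ := hQ' w y hy μ hμ
      have h4 := (mem_S_iff K).1 hy.2 μ hμ
      rw [F1M_psi_mon]
      have hw : wtm (F1M_e p v o μ) = w := by
        rw [← h4.2]
        unfold F1M_e
        split_ifs with h
        · have e : μ = (μ - Finsupp.single (v, false) p) + Finsupp.single (v, false) p := by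
            ext x
            simp only [Finsupp.add_apply, Finsupp.tsub_apply, Finsupp.single_apply]
            split_ifs with h5
            · subst h5
              omega
            · omega
          conv_rhs => rw [e]
          rw [F1M_wtm_add, F1M_wtm_add, F1M_wtm_single, F1M_wtm_single]
        · have e : μ = (μ - Finsupp.single (v, true) p) + Finsupp.single (v, true) p := by
            ext x
            simp only [Finsupp.add_apply, Finsupp.tsub_apply, Finsupp.single_apply]
            split_ifs with h5
            · subst h5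
              omega
            · omega
          conv_rhs => rw [e]
          rw [F1M_wtm_add, F1M_wtm_add, F1M_wtm_single, F1M_wtm_single]
      refine ⟨?_, monomial_mem_S K _ ?_ hw⟩
      · refine (mem_Fr_pow p).2 fun ν hν => ?_
        rw [coeff_monomial] at hν
        have hν' : F1M_e p v o μ = ν := by
          by_contra h
          exact hν (if_neg h)
        rw [← hν']
        unfold F1M_e
        have h5 := h3 false
        have h6 := h3 true
        split_ifs with h
        · have e1 : (μ - Finsupp.single (v, false) p + Finsupp.single (o, false) p) (o, false)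
              = p := by
            simp [h5]
          rw [e1, Nat.div_self (by omega)]
          exact Nat.le_add_right 1 _
        · have e1 : (μ - Finsupp.single (v, true) p + Finsupp.single (o, true) p) (o, true)
              = p := by
            simp [h6]
          rw [e1, Nat.div_self (by omega)]
          exact Nat.le_add_left 1 _
      · intro u
        have h5 := h4.1 u
        have h6 := h4.1 v
        unfold F1M_e
        rw [mul_one]
        by_cases hu : u = v
        · subst hu
          split_ifs with h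
          · simp [Finsupp.single_apply, hvo, Ne.symm hvo]
            omega
          · simp [Finsupp.single_apply, hvo, Ne.symm hvo]
            omega
        · by_cases hu' : u = o
          · subst hu'
            have h7 := h3 false
            have h8 := h3 true
            split_ifs with h
            · simp [Finsupp.single_apply, hvo, h7, h8, ho]
            · simp [Finsupp.single_apply, hvo, h7, h8, ho]
          · split_ifs with h
            · simp [Finsupp.single_apply, Ne.symm hu, Ne.symm hu', h5]
            · simp [Finsupp.single_apply, Ne.symm hu, Ne.symm hu', h5]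
    · refine F1M_tot p (L := (mg K v o).toLinearMap.comp (F1M_psi p v o))
        (fun μ => (p ≤ μ (v, false) ∨ p ≤ μ (v, true)) ∧ μ (v, false) + μ (v, true) ≤ 2 * p - 2 ∧
        ∀ ε, μ (o, ε) = 0) (hQ' w) ?_ y hy
      rintro μ c ⟨h1, h2, h3⟩
      rw [LinearMap.comp_apply, AlgHom.toLinearMap_apply, F1M_psi_mon, F1M_mg_mon]
      congr 2
      unfold F1M_e
      split_ifs with h
      · rw [F1M_md2]
        · ext x
          simp only [Finsupp.add_apply, Finsupp.tsub_apply, Finsupp.single_apply]
          split_ifs with h5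
          · subst h5
            omega
          · omega
        · intro ε
          rw [Finsupp.tsub_apply, h3 ε, Nat.zero_sub]
      · rw [F1M_md2]
        · ext x
          simp only [Finsupp.add_apply, Finsupp.tsub_apply, Finsupp.single_apply]
          split_ifs with h5
          · subst h5
            omega
          · omega
        · intro ε
          rw [Finsupp.tsub_apply, h3 ε, Nat.zero_sub]
  have key := transport p (P := (⊥ : Ideal (T V K))) (Q := nI K {o} ^ 1)
    (P' := (⊥ : Ideal (T V K))) (Q' := nI K {v})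
    (d := d - Finsupp.single v p + Finsupp.single o (p * 1)) (d' := d) bot_le bot_le
    ((good_nI _).pow 1) good_bot (good_nI _) (mg K v o).toLinearMap ?_ ?_ ?_ ?_ ?_
  · exact ⟨key.1.symm, key.2.symm⟩
  · intro w x hx
    rw [AlgHom.toLinearMap_apply]
    refine ⟨?_, ?_⟩
    · unfold mg
      refine rn_Fr p _ ?_ hx.1
      rw [pow_one]
      unfold nI
      rw [Ideal.map_span, Ideal.span_le]
      rintro _ ⟨_, ⟨⟨w, ε⟩, hw, rfl⟩, rfl⟩
      refine Ideal.subset_span ⟨(v, ε), by simp, ?_⟩
      have hw' : w = o := by simpa using hw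
      subst hw'
      change _ = rename _ _
      rw [rename_X]
      simp
    · have h := hx.2
      rw [mul_one] at h
      exact mg_mem_S hvo ho hv h
  · intro w y hy
    obtain ⟨h1, h2⟩ := hmem w y hy
    refine ⟨_, h1, ?_⟩
    rw [AlgHom.toLinearMap_apply, h2, sub_self]
    exact zero_mem _
  · intro x hx
    rw [AlgHom.toLinearMap_apply, Fs_bot, Fs_bot, Submodule.mem_bot, Submodule.mem_bot]
    refine ⟨fun h => ?_, fun h => by rw [h, map_zero]⟩
    rw [← hpsi 0 x hx, h, map_zero]
  · intro k w x _
    rw [AlgHom.toLinearMap_apply, AlgHom.toLinearMap_apply]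
    unfold mg
    rw [E_rn, sub_self]
    exact zero_mem _
  · intro k w x _
    rw [AlgHom.toLinearMap_apply, AlgHom.toLinearMap_apply]
    unfold mg
    rw [F_rn, sub_self]
    exact zero_mem _

/-- (F1) -/
theorem tt_SS_one {v : V} (hv : p ≤ d v) (hv' : d v ≤ 2 * p - 2) (hs : ∀ w, w ≠ v → d w ≤ p - 1)
    (hd : d.degree < 2 * p * (p - 1)) :
    tt p (⊥ : Ideal (T V K)) ⊤ d = invN d + fus p (bar p d) := by
  have hp : 2 ≤ p := (Fact.out : p.Prime).two_le
  obtain ⟨o, ho⟩ := Infinite.exists_notMem_finset (insert v d.support)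
  rw [Finset.mem_insert, not_or, Finsupp.mem_support_iff, not_not] at ho
  obtain ⟨hov, ho⟩ := ho
  have hvo : v ≠ o := Ne.symm hov
  have hdeg : (d - Finsupp.single v p).degree + p = d.degree := by
    have e : d = (d - Finsupp.single v p) + Finsupp.single v p := by
      rw [tsub_add_cancel_of_le]
      rw [Finsupp.single_le_iff]
      exact hv
    conv_rhs => rw [e]
    rw [map_add, Finsupp.degree_single]
  have hs1 : ∀ w, (d - Finsupp.single v p) w ≤ p - 1 := by
    intro w
    rw [Finsupp.tsub_apply]
    by_cases h : w = v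
    · subst h
      rw [Finsupp.single_eq_same]
      omega
    · have := hs w h
      omega
  have ho1 : (d - Finsupp.single v p) o = 0 := by
    rw [Finsupp.tsub_apply, ho, Nat.zero_sub]
  have hd1 : (d - Finsupp.single v p).degree + p * 1 < 2 * p * (p - 1) := by
    rw [mul_one, hdeg]
    exact hd
  obtain ⟨hb1, hb2⟩ := big_piece (K := K) p hvo ho hv hv'
  have hA := tt_small_piece (K := K) p ho1 hs1 1 hd1
  have hB := rr_small_piece (K := K) p ho1 hs1 1 hd1
  rw [if_neg one_ne_zero, add_zero] at hA
  have hX := tt_add_of_eq (K := K) p (P := (⊥ : Ideal (T V K))) (P' := nI K {v}) (Q := ⊤)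
    bot_le le_top good_bot (good_nI _) good_top hd (by rw [hb1, hb2, hA, hB])
  have hFl := tt_flip (K := K) p (C := {v}) (d := d) (by
    intro w hw
    rw [Finset.mem_singleton] at hw
    rw [hw]
    exact hv')
  have hbar : barC p {v} d = bar p d := by
    ext w
    change (if w ∈ ({v} : Finset V) then min (d w) (2 * p - 2 - d w) else d w) = _
    unfold bar
    rw [Finsupp.mapRange_apply]
    split_ifs with h
    · rfl
    · rw [Finset.mem_singleton] at h
      have := hs w h
      omega
  have hbs : ∀ w, bar p d w ≤ p - 1 := by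
    intro w
    unfold bar
    rw [Finsupp.mapRange_apply]
    omega
  have hble : bar p d ≤ d := by
    intro w
    unfold bar
    rw [Finsupp.mapRange_apply]
    omega
  have hbd : (bar p d).degree < 2 * p * (p - 1) := by
    have h := tsub_add_cancel_of_le hble
    have h2 : d.degree = (d - bar p d).degree + (bar p d).degree := by
      conv_lhs => rw [← h]
      rw [map_add]
    omega
  have hSm := tt_SS_small (K := K) p hbs hbd
  have hN := inv_N1 p hp (e := d.erase v) (v := v) (by simp) (x := d v - p) (by omega)
  have e1 : d.erase v + Finsupp.single v (p + (d v - p)) = d := by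
    rw [Nat.add_sub_cancel' hv, Finsupp.erase_add_single]
  have e2 : d.erase v + Finsupp.single v (d v - p) = d - Finsupp.single v p := by
    ext w
    by_cases h : w = v
    · subst h
      simp
    · simp [Finsupp.erase_ne h, Finsupp.single_apply, Ne.symm h]
  have e3 : d.erase v + Finsupp.single v (p - 2 - (d v - p)) = bar p d := by
    ext w
    unfold bar
    rw [Finsupp.mapRange_apply]
    by_cases h : w = v
    · subst h
      simp
      omega
    · have := hs w h
      simp [Finsupp.erase_ne h, Finsupp.single_apply, Ne.symm h]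
      omega
  rw [e1, e2, e3] at hN
  rw [hX, hb1, hA, hFl, hbar, hSm, hN]
  ring

end HKDet
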