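import Pool.Agent.Lib.HKDet.Gd
import Pool.Agent.Lib.HKDet.TR
import Pool.Agent.Lib.HKDet.SpB
import Pool.Agent.Lib.HKDet.HC
import Pool.Agent.Lib.HKDet.CrB
import Pool.Agent.Lib.HKDet.BC
import Pool.Agent.Lib.HKDet.F1M
import Pool.Agent.Lib.HKDet.DB

/-!
# Interface of sections 1 and 2 of `MP_05de8f_paper97.md`

* good ideals: `good_bot`, `good_top`, `good_nI`, `good_jI`, `Good.mul`, `Good.pow`, `Good.sup`, `Good.inf` (Gd);
* Frobenius powers: `Fr_mono`, `Fr_mul`, .., `E_mem_Fr`, `F_mem_Fr`, `component_mem_Fr`, `expand_br` (FrOp); norm operator: `NrmL_mem_Fs`, `NrmL_mem_IS`, `NrmL_of_Lam`, `NrmL_gS`, `NrmL_Inv_mul` (NrmB);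
* `tt_nonneg`, `rr_nonneg`, `tt_le`, `rr_ge`, `rr_le_tt`, `tt_add_of_eq`, `tt_add_of_inf`, `tt_eq_rr_of_inj`, `mem_of_tt_eq_rr`, `transport` (TR); `tt_split`, `rr_split`, `tt_move`, `rr_move` (SpB); `tt_eq_rr` (HC);
* values: `exists_norm`, `rr_SS` (HB), `tt_SS_two`, `tt_SS_big` (CrB), `tt_SS_one` (F1M), `tt_SS_small`, `rr_SS_small`, `tt_piece`, `rr_piece` (BC), `tt_flip`, `rr_flip` (FlB), `mem_Fr_nI`, `mem_Fr_pow`, `mem_Fr_mul`, `Fs_nI_big` (MonI), `tt_D` (DB).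
-/
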