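import Pool.Agent.Lib.HKDet.TR
import Pool.Agent.Lib.HKDet.MonI
import Pool.Agent.Lib.HKDet.Gd

/-!
# Module DA: (D) at the base points `w = ((2p-2)^c ; j)`

`A ⊆ U`, `Tl ⊆ U`, `v ∉ Tl`, `j ≤ p-2`, `d = ∑_{c ∈ Tl} single c (2p-2) + single v j`. CLAIM `tt (nI A) ⊤ d = tt (nI A) (nI U) d + tt (nI U) ⊤ d`. By `tt_add_of_inf` (module TR): let `z ∈ Fs (nI U) d 0`,
`z = y + E 1 α + F 1 β + E p γ + F p δ`, `y ∈ Fs (nI A) d 0`, `α ∈ S d (-2)`, `β ∈ S d 2`, `γ ∈ S d (-2p)`, `δ ∈ S d (2p)` (`Fs ⊤ = S`). To show: `z ∈ Fs (nI A) d 0 ⊔ gS (nI U) d`.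
* A monomial of degree `d` which is NOT in `Fr (nI U)` (`mem_Fr_nI`) has all exponents at vectors of `U` `≤ p-1`, so exponents `(p-1,p-1)` at every `c ∈ Tl` (`s + t = 2p-2`), and its weight is `s - t` with `(s,t)` the exponents at `v`, `s + t = j`.
* So `γ, δ ∈ Fr (nI U)` (weight `±2p`, `|s - t| ≤ j < 2p`): `E p γ, F p δ ∈ gS (nI U) d`.
* If `j` is odd then `S d 0`.. : the weight of every monomial of degree `d` is odd, so `S d 0 = ⊥`, trivial. If `j = 0`: `α, β` (weight `∓2`) are in `Fr (nI U)`. Done.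
* `j ≥ 2` even. `M_0 = ∏_{c ∈ Tl} (a_c b_c)^(p-1)`, `m = M_0 (a_v b_v)^(j/2)`. Modulo `Fs (nI U) d (-2)` `α = λ M_0 a_v^(j/2-1) b_v^(j/2+1)`. `F 1 m = (j/2) M_0 a_v^(j/2-1) b_v^(j/2+1) + F 1 (M_0) (a_v b_v)^(j/2)` and `F 1 M_0 ∈ Fr (nI U)`
  (`F 1 (a^(p-1) b^(p-1)) = (p-1) a^(p-2) b^p`). With `ζ = λ (j/2)⁻¹ m` (`1 ≤ j/2 < p`) `α - F 1 ζ ∈ Fs (nI U) d (-2)`. `E 1 α + F 1 β = E 1 (α - F 1 ζ) + E 1 F 1 ζ + F 1 β = E 1 (α - F 1 ζ) + F 1 (β + E 1 ζ)` (`H_one`: `E 1 F 1 ζ - F 1 E 1 ζ = 0` in weight `0`).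
  So `F 1 (β + E 1 ζ) = z - y - (elements of gS (nI U) d) ∈ Fs (nI U) d 0` (`y ∈ Fs (nI A) ≤ Fs (nI U)`, `gS_le`). Modulo `Fs (nI U) d 2`: `β + E 1 ζ = κ M_0 a_v^(j/2+1) b_v^(j/2-1)`, and `F 1` of it `= κ (j/2+1) m + (Fr (nI U))`; `m ∉ Fr (nI U)` (`mem_Fr_nI`,
  exponents `p-1` and `j/2 < p`), `j/2+1 < p` invertible: `κ = 0`, `β + E 1 ζ ∈ Fs (nI U) d 2`.
-/

namespace HKDet

open MvPolynomial FSig Finset

variable {V : Type*} [DecidableEq V] {K : Type*} [Field K] (p : ℕ) [Fact p.Prime] [CharP K p]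

private lemma da_wtm_add (μ ν : V × Bool →₀ ℕ) : wtm (μ + ν) = wtm μ + wtm ν := by
  unfold wtm
  refine Finsupp.sum_add_index' ?_ ?_
  · intro x
    split_ifs <;> simp
  · intro x a b
    split_ifs <;> push_cast <;> ring

private lemma da_wtm_single (x : V × Bool) (n : ℕ) :
    wtm (Finsupp.single x n) = if x.2 then -(n : ℤ) else (n : ℤ) := by
  unfold wtm
  rw [Finsupp.sum_single_index]
  split_ifs <;> simp

/-- the exponents at the vectors of `Tl` -/
private noncomputable def mu0 (Tl : Finset V) (n : ℕ) : V × Bool →₀ ℕ :=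
  ∑ c ∈ Tl, (Finsupp.single (c, false) n + Finsupp.single (c, true) n)

private lemma wtm_mu0 (Tl : Finset V) (n : ℕ) : wtm (mu0 Tl n) = 0 := by
  unfold mu0
  induction Tl using Finset.induction_on with
  | empty => rw [Finset.sum_empty]; simp [wtm]
  | insert a s ha ih =>
    rw [Finset.sum_insert ha, da_wtm_add, ih, da_wtm_add, da_wtm_single, da_wtm_single]
    simp

private lemma mu0_apply (Tl : Finset V) (n : ℕ) (x : V) (ε : Bool) :
    mu0 Tl n (x, ε) = if x ∈ Tl then n else 0 := by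
  unfold mu0
  rw [Finsupp.finset_sum_apply]
  have h : ∀ c ∈ Tl, (Finsupp.single (c, false) n + Finsupp.single (c, true) n) (x, ε) =
      if c = x then n else 0 := by
    intro c _
    rw [Finsupp.add_apply, Finsupp.single_apply, Finsupp.single_apply]
    cases ε <;> simp [Prod.ext_iff]
  rw [Finset.sum_congr rfl h, Finset.sum_ite_eq']

/-- the exponent with `(s, t)` at `v` -/
private noncomputable def mst (p : ℕ) (Tl : Finset V) (v : V) (s t : ℕ) : V × Bool →₀ ℕ :=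
  mu0 Tl (p - 1) + (Finsupp.single (v, false) s + Finsupp.single (v, true) t)

private lemma mst_apply (p : ℕ) (Tl : Finset V) (v : V) (s t : ℕ) (x : V) (ε : Bool) :
    mst p Tl v s t (x, ε) = (if x ∈ Tl then p - 1 else 0) +
      (if v = x then (if ε then t else s) else 0) := by
  unfold mst
  rw [Finsupp.add_apply, mu0_apply, Finsupp.add_apply, Finsupp.single_apply, Finsupp.single_apply]
  congr 1
  cases ε <;> simp [Prod.ext_iff]

private lemma wtm_mst (p : ℕ) (Tl : Finset V) (v : V) (s t : ℕ) :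
    wtm (mst p Tl v s t) = (s : ℤ) - t := by
  unfold mst
  rw [da_wtm_add, wtm_mu0, da_wtm_add, da_wtm_single, da_wtm_single]
  simp
  ring

/-- the degree -/
private noncomputable def dd (p : ℕ) (Tl : Finset V) (v : V) (j : ℕ) : V →₀ ℕ :=
  ∑ c ∈ Tl, Finsupp.single c (2 * p - 2) + Finsupp.single v j

private lemma dd_apply (p : ℕ) (Tl : Finset V) (v : V) (j : ℕ) (x : V) :
    dd p Tl v j x = (if x ∈ Tl then 2 * p - 2 else 0) + (if v = x then j else 0) := by
  unfold dd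
  rw [Finsupp.add_apply, Finsupp.finset_sum_apply, Finsupp.single_apply]
  congr 1
  have h : ∀ c ∈ Tl, (Finsupp.single c (2 * p - 2) : V →₀ ℕ) x =
      if c = x then 2 * p - 2 else 0 := by
    intro c _
    rw [Finsupp.single_apply]
  rw [Finset.sum_congr rfl h, Finset.sum_ite_eq']

private lemma mst_mem (K : Type*) [Field K] {p : ℕ} (hp : 1 ≤ p) {Tl : Finset V} {v : V}
    {s t j : ℕ} (hj : s + t = j) :
    (monomial (mst p Tl v s t) 1 : T V K) ∈ S K (dd p Tl v j) ((s : ℤ) - t) := by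
  refine monomial_mem_S K 1 ?_ (wtm_mst p Tl v s t)
  intro x
  rw [mst_apply, mst_apply, dd_apply]
  simp only [if_true, Bool.false_eq_true, if_false]
  split_ifs <;> omega

/-- a monomial which is not in `Fr (nI U)` -/
private lemma bad_eq {p : ℕ} (hp : 1 ≤ p) {U Tl : Finset V} (hT : Tl ⊆ U) {v : V} (hv : v ∉ Tl)
    {j : ℕ} {μ : V × Bool →₀ ℕ} (h1 : ∀ x, μ (x, false) + μ (x, true) = dd p Tl v j x)
    (h2 : ¬ ∃ c ∈ U, ∃ ε, p ≤ μ (c, ε)) :
    μ = mst p Tl v (μ (v, false)) (μ (v, true)) := by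
  ext ⟨x, ε⟩
  rw [mst_apply]
  have h3 := h1 x
  rw [dd_apply] at h3
  by_cases hx : x ∈ Tl
  · have hxv : v ≠ x := by
      rintro rfl
      exact hv hx
    rw [if_pos hx, if_neg hxv] at h3 ⊢
    have h4 : μ (x, false) < p := by
      by_contra h
      exact h2 ⟨x, hT hx, false, by omega⟩
    have h5 : μ (x, true) < p := by
      by_contra h
      exact h2 ⟨x, hT hx, true, by omega⟩
    cases ε <;> omega
  · rw [if_neg hx] at h3 ⊢
    by_cases hxv : v = x
    · subst hxv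
      rw [if_pos rfl]
      cases ε <;> simp
    · rw [if_neg hxv] at h3 ⊢
      cases ε <;> omega

private lemma mem_Fs_iff {J : Ideal (T V K)} {d : V →₀ ℕ} {w : ℤ} {f : T V K} :
    f ∈ Fs p J d w ↔ f ∈ Fr p J ∧ f ∈ S K d w := by
  unfold Fs
  rw [Submodule.mem_inf, Submodule.restrictScalars_mem]

/-- no bad monomial of weight `w` -/
private lemma all_Fs {U Tl : Finset V} (hT : Tl ⊆ U) {v : V} (hv : v ∉ Tl) {j : ℕ} {w : ℤ}
    (hw : ∀ s t : ℕ, s + t = j → (s : ℤ) - t ≠ w) {f : T V K} (hf : f ∈ S K (dd p Tl v j) w) :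
    f ∈ Fs p (nI K U) (dd p Tl v j) w := by
  have hp : p.Prime := Fact.out
  rw [mem_Fs_iff]
  refine ⟨?_, hf⟩
  rw [mem_Fr_nI]
  intro μ hμ
  by_contra hcon
  obtain ⟨h1, h2⟩ := (mem_S_iff K).1 hf μ hμ
  have h3 := bad_eq hp.one_lt.le hT hv h1 hcon
  have h4 := h1 v
  rw [dd_apply, if_neg hv, if_pos rfl, zero_add] at h4
  rw [h3, wtm_mst] at h2
  exact hw _ _ h4 h2

/-- removing the bad monomial -/
private lemma sub_Fs {U Tl : Finset V} (hT : Tl ⊆ U) {v : V} (hv : v ∉ Tl) {j s t : ℕ}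
    (hst : s + t = j) {f : T V K} (hf : f ∈ S K (dd p Tl v j) ((s : ℤ) - t)) :
    f - coeff (mst p Tl v s t) f • (monomial (mst p Tl v s t) 1 : T V K) ∈
      Fs p (nI K U) (dd p Tl v j) ((s : ℤ) - t) := by
  have hp : p.Prime := Fact.out
  have hS : f - coeff (mst p Tl v s t) f • (monomial (mst p Tl v s t) 1 : T V K) ∈
      S K (dd p Tl v j) ((s : ℤ) - t) :=
    sub_mem hf (Submodule.smul_mem _ _ (mst_mem K hp.one_lt.le hst))
  rw [mem_Fs_iff]
  refine ⟨?_, hS⟩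
  rw [mem_Fr_nI]
  intro μ hμ
  by_contra hcon
  obtain ⟨h1, h2⟩ := (mem_S_iff K).1 hS μ hμ
  have h3 := bad_eq hp.one_lt.le hT hv h1 hcon
  have h4 := h1 v
  rw [dd_apply, if_neg hv, if_pos rfl, zero_add] at h4
  rw [h3, wtm_mst] at h2
  have h5 : μ (v, false) = s := by omega
  have h6 : μ (v, true) = t := by omega
  rw [h5, h6] at h3
  apply hμ
  rw [h3, coeff_sub, coeff_smul, coeff_monomial, if_pos rfl, smul_eq_mul, mul_one, sub_self]

private lemma mem_gS {Q : Ideal (T V K)} {d : V →₀ ℕ} {x : T V K} :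
    x ∈ gS p Q d ↔ ∃ α ∈ Fs p Q d (-2), ∃ β ∈ Fs p Q d 2, ∃ γ ∈ Fs p Q d (-(2 * p)),
      ∃ δ ∈ Fs p Q d (2 * p), x = E K 1 α + F K 1 β + (E K p γ + F K p δ) := by
  unfold gS
  constructor
  · intro h
    obtain ⟨y, hy, z, hz, rfl⟩ := Submodule.mem_sup.1 h
    obtain ⟨y1, ⟨α, hα, rfl⟩, y2, ⟨β, hβ, rfl⟩, rfl⟩ := Submodule.mem_sup.1 hy
    obtain ⟨z1, ⟨γ, hγ, rfl⟩, z2, ⟨δ, hδ, rfl⟩, rfl⟩ := Submodule.mem_sup.1 hz
    exact ⟨α, hα, β, hβ, γ, hγ, δ, hδ, rfl⟩
  · rintro ⟨α, hα, β, hβ, γ, hγ, δ, hδ, rfl⟩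
    exact Submodule.add_mem_sup
      (Submodule.add_mem_sup (Submodule.mem_map_of_mem hα) (Submodule.mem_map_of_mem hβ))
      (Submodule.add_mem_sup (Submodule.mem_map_of_mem hγ) (Submodule.mem_map_of_mem hδ))

omit [DecidableEq V] in
private lemma F_one_pow (f : T V K) (n : ℕ) :
    F K 1 (f ^ (n + 1)) = ((n + 1 : ℕ) : T V K) * f ^ n * F K 1 f := by
  induction n with
  | zero => simp
  | succ n ih =>
    rw [pow_succ, F_one_mul, ih]
    push_cast
    ring

omit [DecidableEq V] [CharP K p] in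
private lemma vb_pow_mem {U : Finset V} {c : V} (hc : c ∈ U) : (vb K c) ^ p ∈ Fr p (nI K U) := by
  have h1 : (vb K c) ^ p = (expand p : T V K →ₐ[K] T V K) (X (c, true)) := by
    rw [expand_X, vb]
  rw [h1]
  exact Ideal.mem_map_of_mem _ (Ideal.subset_span ⟨(c, true), hc, rfl⟩)

/-- the product `M_0` -/
private noncomputable def M0 (K : Type*) [Field K] (p : ℕ) (Tl : Finset V) : T V K :=
  ∏ c ∈ Tl, (va K c ^ (p - 1) * vb K c ^ (p - 1))

private lemma F_M0 {U : Finset V} {Tl : Finset V} (hT : Tl ⊆ U) :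
    F K 1 (M0 K p Tl) ∈ Fr p (nI K U) := by
  have hp : p.Prime := Fact.out
  unfold M0
  induction Tl using Finset.induction_on with
  | empty =>
    have h1 : (1 : T V K) = C 1 := by rw [map_one]
    rw [Finset.prod_empty, h1, F_C K 1 le_rfl]
    exact zero_mem _
  | insert a s ha ih =>
    rw [Finset.prod_insert ha, F_one_mul]
    refine add_mem ?_ (Ideal.mul_mem_left _ _ (ih fun x hx => hT (Finset.mem_insert_of_mem hx)))
    refine Ideal.mul_mem_right _ _ ?_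
    obtain ⟨n, hn⟩ : ∃ n, p - 1 = n + 1 := ⟨p - 2, by have := hp.two_le; omega⟩
    rw [F_one_mul, hn, F_one_pow, F_one_pow, F_vb K 1 le_rfl, mul_zero, mul_zero, add_zero,
      F_one_va]
    have h1 : ((n + 1 : ℕ) : T V K) * va K a ^ n * vb K a * vb K a ^ (n + 1) =
        (((n + 1 : ℕ) : T V K) * va K a ^ n) * vb K a ^ p := by
      have : p = n + 1 + 1 := by have := hp.two_le; omega
      rw [this]
      ring
    rw [h1]
    exact Ideal.mul_mem_left _ _ (vb_pow_mem p (hT (Finset.mem_insert_self a s)))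

private lemma mst_eq {p : ℕ} (K : Type*) [Field K] (Tl : Finset V) (v : V) (s t : ℕ) :
    (monomial (mst p Tl v s t) 1 : T V K) = M0 K p Tl * (va K v ^ s * vb K v ^ t) := by
  have h1 : (monomial (mu0 Tl (p - 1)) 1 : T V K) = M0 K p Tl := by
    unfold mu0 M0
    rw [monomial_sum_one]
    refine Finset.prod_congr rfl fun c _ => ?_
    rw [va, vb, X_pow_eq_monomial, X_pow_eq_monomial, monomial_mul, one_mul]
  rw [← h1, mst, va, vb, X_pow_eq_monomial, X_pow_eq_monomial, monomial_mul, monomial_mul,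
    one_mul, one_mul]

/-- `F 1` of a bad monomial -/
private lemma F_mst {U Tl : Finset V} (hT : Tl ⊆ U) {v : V} (s t : ℕ) :
    F K 1 (monomial (mst p Tl v (s + 1) t) 1 : T V K) -
      ((s + 1 : ℕ) : K) • (monomial (mst p Tl v s (t + 1)) 1 : T V K) ∈ Fr p (nI K U) := by
  rw [mst_eq, mst_eq, F_one_mul, F_one_mul]
  have h0 : F K 1 (vb K v ^ t) = 0 := by
    cases t with
    | zero =>
      have h1 : (vb K v ^ 0 : T V K) = C 1 := by rw [pow_zero, map_one]
      rw [h1, F_C K 1 le_rfl]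
    | succ t => rw [F_one_pow, F_vb K 1 le_rfl, mul_zero]
  rw [h0, mul_zero, add_zero, F_one_pow, F_one_va, MvPolynomial.smul_eq_C_mul]
  have h2 : (C ((s + 1 : ℕ) : K) : T V K) = ((s + 1 : ℕ) : T V K) := by rw [map_natCast]
  rw [h2]
  have h3 : F K 1 (M0 K p Tl) * (va K v ^ (s + 1) * vb K v ^ t) +
      M0 K p Tl * (((s + 1 : ℕ) : T V K) * va K v ^ s * vb K v * vb K v ^ t) -
      ((s + 1 : ℕ) : T V K) * (M0 K p Tl * (va K v ^ s * vb K v ^ (t + 1))) =
      (va K v ^ (s + 1) * vb K v ^ t) * F K 1 (M0 K p Tl) := by ring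
  rw [h3]
  exact Ideal.mul_mem_left _ _ (F_M0 p hT)

omit [CharP K p] in
private lemma mst_not_mem {U Tl : Finset V} {v : V} (hv : v ∉ Tl) {s t : ℕ}
    (hs : s < p) (ht : t < p) {κ : K} (h : κ • (monomial (mst p Tl v s t) 1 : T V K) ∈
      Fr p (nI K U)) : κ = 0 := by
  have hp : p.Prime := Fact.out
  by_contra hκ
  rw [mem_Fr_nI] at h
  obtain ⟨c, -, ε, hc⟩ := h (mst p Tl v s t) (by
    rw [coeff_smul, coeff_monomial, if_pos rfl, smul_eq_mul, mul_one]
    exact hκ)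
  rw [mst_apply] at hc
  have hp1 := hp.one_lt
  by_cases hcT : c ∈ Tl
  · have hvc : v ≠ c := by
      rintro rfl
      exact hv hcT
    rw [if_pos hcT, if_neg hvc] at hc
    omega
  · rw [if_neg hcT] at hc
    split_ifs at hc <;> omega

private lemma da_ne (n : ℕ) (h1 : 1 ≤ n) (h2 : n < p) : ((n : ℕ) : K) ≠ 0 := by
  intro h
  rw [CharP.cast_eq_zero_iff K p] at h
  have := Nat.le_of_dvd (by omega) h
  omega

theorem tt_D_base {A U Tl : Finset V} (hA : A ⊆ U) (hT : Tl ⊆ U) {v : V} (hv : v ∉ Tl) {j : ℕ}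
    (hj : j ≤ p - 2) :
    tt p (nI K A) ⊤ (∑ c ∈ Tl, Finsupp.single c (2 * p - 2) + Finsupp.single v j) =
      tt p (nI K A) (nI K U) (∑ c ∈ Tl, Finsupp.single c (2 * p - 2) + Finsupp.single v j) +
      tt p (nI K U) ⊤ (∑ c ∈ Tl, Finsupp.single c (2 * p - 2) + Finsupp.single v j) := by
  have hp : p.Prime := Fact.out
  have hp1 := hp.two_le
  change tt p (nI K A) ⊤ (dd p Tl v j) = tt p (nI K A) (nI K U) (dd p Tl v j) +
    tt p (nI K U) ⊤ (dd p Tl v j)
  have hgU : Good (nI K U) := good_nI U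
  refine tt_add_of_inf p (nI_mono hA) le_top hgU good_top ?_
  intro z hz hzs
  obtain ⟨y, hy, g, hg, rfl⟩ := Submodule.mem_sup.1 hzs
  obtain ⟨α, hα, β, hβ, γ, hγ, δ, hδ, rfl⟩ := (mem_gS p).1 hg
  rw [Fs_top] at hα hβ hγ hδ
  refine Submodule.add_mem_sup hy ?_
  have hγ' : γ ∈ Fs p (nI K U) (dd p Tl v j) (-(2 * p)) := by
    refine all_Fs p hT hv ?_ hγ
    intro s t hst h
    omega
  have hδ' : δ ∈ Fs p (nI K U) (dd p Tl v j) (2 * p) := by
    refine all_Fs p hT hv ?_ hδ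
    intro s t hst h
    omega
  by_cases hcase : ∃ i : ℕ, j = 2 * i + 2
  · obtain ⟨i, hi⟩ := hcase
    -- weights -2, 0, 2 correspond to the exponents (i, i + 2), (i + 1, i + 1), (i + 2, i)
    have w1 : ((i : ℤ) - ((i + 2 : ℕ) : ℤ)) = -2 := by push_cast; ring
    have w2 : (((i + 2 : ℕ) : ℤ) - (i : ℤ)) = 2 := by push_cast; ring
    have w0 : (((i + 1 : ℕ) : ℤ) - ((i + 1 : ℕ) : ℤ)) = 0 := by ring
    have hα1 := sub_Fs (K := K) p (U := U) hT hv (s := i) (t := i + 2) (j := j) (by omega)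
      (f := α) (by rw [w1]; exact hα)
    rw [w1] at hα1
    set a := coeff (mst p Tl v i (i + 2)) α with ha
    have hi0 : ((i + 1 : ℕ) : K) ≠ 0 := da_ne p _ (by omega) (by omega)
    have hi2 : ((i + 2 : ℕ) : K) ≠ 0 := da_ne p _ (by omega) (by omega)
    set m : T V K := monomial (mst p Tl v (i + 1) (i + 1)) 1 with hm
    have hmS : m ∈ S K (dd p Tl v j) 0 := by
      have := mst_mem K (p := p) (Tl := Tl) (v := v) (s := i + 1) (t := i + 1) (j := j)
        (by omega) (by omega)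
      rw [w0] at this
      exact this
    set ζ : T V K := (a * ((i + 1 : ℕ) : K)⁻¹) • m with hζ
    have hζS : ζ ∈ S K (dd p Tl v j) 0 := Submodule.smul_mem _ _ hmS
    have hFm := F_mst (K := K) p hT (v := v) i (i + 1)
    have hαζ : α - F K 1 ζ ∈ Fs p (nI K U) (dd p Tl v j) (-2) := by
      rw [mem_Fs_iff]
      constructor
      · have e1 : α - F K 1 ζ = (α - a • (monomial (mst p Tl v i (i + 2)) 1 : T V K)) -
            C (a * ((i + 1 : ℕ) : K)⁻¹) * (F K 1 (monomial (mst p Tl v (i + 1) (i + 1)) 1 : T V K) -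
              ((i + 1 : ℕ) : K) • (monomial (mst p Tl v i (i + 1 + 1)) 1 : T V K)) := by
          rw [hζ, map_smul, mul_sub, ← MvPolynomial.smul_eq_C_mul, ← MvPolynomial.smul_eq_C_mul,
            smul_smul, mul_assoc, inv_mul_cancel₀ hi0, mul_one]
          ring
        rw [e1]
        exact sub_mem ((mem_Fs_iff p).1 hα1).1 (Ideal.mul_mem_left _ _ hFm)
      · refine sub_mem hα ?_
        have := F_mem_S K hζS 1
        have e2 : (0 : ℤ) - 2 * ((1 : ℕ) : ℤ) = -2 := by norm_num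
        rw [e2] at this
        exact this
    have hH := H_one K hζS
    rw [zero_smul, sub_eq_zero] at hH
    set β' : T V K := β + E K 1 ζ with hβ'
    have hβS : β' ∈ S K (dd p Tl v j) 2 := by
      refine add_mem hβ ?_
      have := E_mem_S K hζS 1
      have e2 : (0 : ℤ) + 2 * ((1 : ℕ) : ℤ) = 2 := by norm_num
      rw [e2] at this
      exact this
    have hsum : E K 1 α + F K 1 β = E K 1 (α - F K 1 ζ) + F K 1 β' := by
      rw [map_sub, hβ', map_add, hH]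
      ring
    have hFβ : F K 1 β' ∈ Fr p (nI K U) := by
      have e3 : F K 1 β' = (y + (E K 1 α + F K 1 β + (E K p γ + F K p δ))) - y -
          E K 1 (α - F K 1 ζ) - E K p γ - F K p δ := by
        rw [hsum]
        ring
      rw [e3]
      refine sub_mem (sub_mem (sub_mem (sub_mem ((mem_Fs_iff p).1 hz).1 ?_) ?_) ?_) ?_
      · exact ((mem_Fs_iff p).1 (Fs_mono p (nI_mono hA) _ _ hy)).1
      · exact ((mem_Fs_iff p).1 (Fs_E p hgU hαζ 1)).1
      · exact ((mem_Fs_iff p).1 (Fs_E p hgU hγ' p)).1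
      · exact ((mem_Fs_iff p).1 (Fs_F p hgU hδ' p)).1
    have hβ1 := sub_Fs (K := K) p (U := U) hT hv (s := i + 2) (t := i) (j := j) (by omega)
      (f := β') (by rw [w2]; exact hβS)
    rw [w2] at hβ1
    set b := coeff (mst p Tl v (i + 2) i) β' with hb
    have hFm2 := F_mst (K := K) p hT (v := v) (i + 1) i
    have hb0 : b * ((i + 2 : ℕ) : K) = 0 := by
      refine mst_not_mem (K := K) p (U := U) hv (s := i + 1) (t := i + 1) (by omega) (by omega) ?_
      have e4 : (b * ((i + 2 : ℕ) : K)) • (monomial (mst p Tl v (i + 1) (i + 1)) 1 : T V K) =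
          F K 1 β' - F K 1 (β' - b • (monomial (mst p Tl v (i + 2) i) 1 : T V K)) -
          C b * (F K 1 (monomial (mst p Tl v (i + 1 + 1) i) 1 : T V K) -
              ((i + 1 + 1 : ℕ) : K) • (monomial (mst p Tl v (i + 1) (i + 1)) 1 : T V K)) := by
        rw [map_sub, map_smul, mul_sub, ← MvPolynomial.smul_eq_C_mul,
          ← MvPolynomial.smul_eq_C_mul, smul_smul]
        ring
      rw [e4]
      exact sub_mem (sub_mem hFβ ((mem_Fs_iff p).1 (Fs_F p hgU hβ1 1)).1)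
        (Ideal.mul_mem_left _ _ hFm2)
    have hb1 : b = 0 := (mul_eq_zero.1 hb0).resolve_right hi2
    rw [hb1, zero_smul, sub_zero] at hβ1
    rw [hsum]
    exact (mem_gS p).2 ⟨_, hαζ, _, hβ1, _, hγ', _, hδ', rfl⟩
  · have hα' : α ∈ Fs p (nI K U) (dd p Tl v j) (-2) := by
      refine all_Fs p hT hv ?_ hα
      intro s t hst h
      exact hcase ⟨s, by omega⟩
    have hβ' : β ∈ Fs p (nI K U) (dd p Tl v j) 2 := by
      refine all_Fs p hT hv ?_ hβ
      intro s t hst h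
      exact hcase ⟨t, by omega⟩
    exact (mem_gS p).2 ⟨_, hα', _, hβ', _, hγ', _, hδ', rfl⟩

end HKDet
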