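import Pool.Agent.Lib.FSig.Norm
import Pool.Agent.Lib.FSig.LamImage
import Pool.Agent.Lib.FSig.Rec2

/-!
# MP_05de8f_ag, Q1: Hilbert–Kunz multiplicity of `R_{m,n,3}` (definitions)

Paper: team store `MP_05de8f_paper97.md`. `T V K = K[a_v, b_v : v ∈ V]`, `V` any type (later infinite), the operators `E k`, `F k`, `Lam`, the
projector `prj` and the invariants `IS` are those of `Pool/Agent/Lib/FSig` (namespace `FSig`).

* `Fr p J` : the Frobenius power `J^[p]` (generated by the `expand p f`, `f ∈ J`) of an ideal `J` of `T V K`.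
* `Good J` : `J` is multihomogeneous and stable under all `E k`, `F k`.
* All modules of the paper are pairs `Fr P ≤ Fr Q` in a multidegree `d`: `S_w` = (`⊥`, `⊤`), `S'_w` = (`nI U`, `⊤`), `M_w` = (`jI R C`, `⊤`), ..
* `Fs p J d w` : the part of `Fr p J` of multidegree `d` and weight `w`.
* `gS p Q d` : the image of `E 1, F 1, E p, F p` in the weight `0` part of `Fr Q`.
* `NrmL p` : the norm operator `prj (Lam u)` (with `J = p - 2`), valid in total degree `< 2 p (p-1)`.
* `tt p P Q d` : dimension of the coinvariants of `(Fr Q / Fr P)_d`; `rr p P Q d` : rank of the norm operator on it (integers).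
* `nI U` = ideal of the `a_v, b_v`, `v ∈ U`; `jI R C` = ideal of the brackets `[i j]`, `i ∈ R`, `j ∈ C`.
* `mlt p b d` : the number `mult_b(d)` (multiplicity of `T(2p-2+pb)`), `barC p C d` : `x ↦ min x (2p-2-x)` for the entries in `C`.
-/

namespace HKDet

open MvPolynomial FSig

variable {V : Type*} {K : Type*} [Field K] (p : ℕ)

/-- the Frobenius power of an ideal -/
noncomputable def Fr (J : Ideal (T V K)) : Ideal (T V K) :=
  J.map (expand p : T V K →ₐ[K] T V K)

/-- multihomogeneous ideals stable under the operators -/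
structure Good (J : Ideal (T V K)) : Prop where
  hom : ∀ f ∈ J, ∀ i, weightedHomogeneousComponent (gr (V := V)) i f ∈ J
  E : ∀ k, ∀ f ∈ J, FSig.E K k f ∈ J
  F : ∀ k, ∀ f ∈ J, FSig.F K k f ∈ J

/-- the component of multidegree `d` and weight `w` of the Frobenius power -/
noncomputable def Fs (J : Ideal (T V K)) (d : V →₀ ℕ) (w : ℤ) : Submodule K (T V K) :=
  (Fr p J).restrictScalars K ⊓ S K d w

/-- the images of `E 1, F 1, E p, F p` in weight `0` -/
noncomputable def gS (Q : Ideal (T V K)) (d : V →₀ ℕ) : Submodule K (T V K) :=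
  (Fs p Q d (-2)).map (E K 1) ⊔ (Fs p Q d 2).map (F K 1) ⊔
    ((Fs p Q d (-(2 * p))).map (E K p) ⊔ (Fs p Q d (2 * p)).map (F K p))

/-- the norm operator -/
noncomputable def NrmL : T V K →ₗ[K] T V K := (prj (E K p) (F K p) (p - 2)).comp (Lam K p)

/-- dimension of the coinvariants of `(Fr Q / Fr P)_d` -/
noncomputable def tt (P Q : Ideal (T V K)) (d : V →₀ ℕ) : ℤ :=
  (Module.finrank K (Fs p Q d 0) : ℤ) - Module.finrank K ↥(Fs p P d 0 ⊔ gS p Q d)

/-- rank of the norm operator on `(Fr Q / Fr P)_d` -/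
noncomputable def rr (P Q : Ideal (T V K)) (d : V →₀ ℕ) : ℤ :=
  (Module.finrank K ↥(Fs p P d 0 ⊔ (Fs p Q d 0).map (NrmL p)) : ℤ) - Module.finrank K (Fs p P d 0)

/-- the ideal generated by the coordinates of the vectors in `U` -/
noncomputable def nI (K : Type*) [Field K] (U : Finset V) : Ideal (T V K) :=
  Ideal.span (X '' {x : V × Bool | x.1 ∈ U})

/-- the ideal generated by the brackets `[i j]`, `i ∈ R`, `j ∈ C` -/
noncomputable def jI (K : Type*) [Field K] (R C : Finset V) : Ideal (T V K) :=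
  Ideal.span {f | ∃ i ∈ R, ∃ j ∈ C, f = br K i j}

/-- `j = p B` with `B ≥ b + 2`, `B ≡ b` mod `2` -/
def cM (b : ℕ) (j : ℤ) : ℤ := if (p * (b + 2) : ℤ) ≤ j ∧ (2 * p : ℤ) ∣ j - p * b then 1 else 0

/-- `cM (j+2) - 2 cM j + cM (j-2)` -/
def hM (b : ℕ) (j : ℤ) : ℤ := cM p b (j + 2) - 2 * cM p b j + cM p b (j - 2)

/-- the number `mult_b(d)` -/
noncomputable def mlt (b : ℕ) (d : V →₀ ℕ) : ℤ := swS (hM p b) d

/-- `x ↦ min x (2p-2-x)` for the entries in `C` -/
noncomputable def barC [DecidableEq V] (C : Finset V) (d : V →₀ ℕ) : V →₀ ℕ :=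
  Finsupp.onFinset d.support (fun v => if v ∈ C then min (d v) (2 * p - 2 - d v) else d v)
    (by
      intro v hv
      rw [Finsupp.mem_support_iff]
      rintro h0
      apply hv
      simp [h0])

end HKDet
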