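import Pool.Agent.Lib.HKDet.MonI

/-!
# Module FlA: the flip operator `θ_v : a^s b^t ↦ (-1)^s s! t! a^(p-1-t) b^(p-1-s)` at one vector `v`

`th p v : T → T` is the linear map with `th (x^μ) = (-1)^s s! t! x^μ'` for `s = μ(v,false) ≤ p-1`, `t = μ(v,true) ≤ p-1`, where `μ'` is `μ` with the exponents at `v` replaced by `p-1-t`, `p-1-s`, and `th (x^μ) = 0` otherwise.

PROOFS.
* `th_monomial`: definition.
* `th_mem_S`: `x ∈ S d w`, `d v ≤ 2p - 2` ⟹ `th x ∈ S d' w`, `d' v = 2p - 2 - d v` (`d'= d.update v (2p-2-d v)`); weight: `(p-1-t) - (p-1-s) = s - t`.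
* `th_th`: `x ∈ S d w`: `th (th x) = c x` for monomials with both exponents `≤ p-1`, `c ≠ 0` depending only on... only needed: `th_surj`: for `y ∈ S d' w`, with all monomials having exponents `≤ p-1` at `v` (true if `d' v ≤ p - 2`), there is `x ∈ S d w`
  with `th x = y` and all monomials of `x` have exponents `≤ p-1` at `v`, and the exponents of `x`, `y` at the other vectors are the same.
-/

namespace HKDet

open MvPolynomial FSig Finset

variable {V : Type*} [DecidableEq V] {K : Type*} [Field K] (p : ℕ)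

/-- exponents `(s, t)` at `v` replaced by `(p-1-t, p-1-s)` -/
noncomputable def flipM (v : V) (μ : V × Bool →₀ ℕ) : V × Bool →₀ ℕ :=
  (μ.update (v, false) (p - 1 - μ (v, true))).update (v, true) (p - 1 - μ (v, false))

open Classical in
/-- the flip operator at `v` -/
noncomputable def th (v : V) : T V K →ₗ[K] T V K :=
  (basisMonomials (V × Bool) K).constr K fun μ =>
    if μ (v, false) ≤ p - 1 ∧ μ (v, true) ≤ p - 1 then
      monomial (flipM p v μ)
        ((-1 : K) ^ μ (v, false) * ((μ (v, false)).factorial * (μ (v, true)).factorial : ℕ))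
    else 0

private theorem fla_false (v : V) (μ : V × Bool →₀ ℕ) :
    flipM p v μ (v, false) = p - 1 - μ (v, true) := by
  unfold flipM
  rw [Finsupp.update_apply, if_neg (by simp), Finsupp.update_apply, if_pos rfl]

private theorem fla_true (v : V) (μ : V × Bool →₀ ℕ) :
    flipM p v μ (v, true) = p - 1 - μ (v, false) := by
  unfold flipM
  rw [Finsupp.update_apply, if_pos rfl]

private theorem fla_ne (v : V) (μ : V × Bool →₀ ℕ) {u : V} (hu : u ≠ v) (ε : Bool) :
    flipM p v μ (u, ε) = μ (u, ε) := by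
  unfold flipM
  rw [Finsupp.update_apply, if_neg (by simp [hu]), Finsupp.update_apply, if_neg (by simp [hu])]

private theorem fla_le (v : V) (μ : V × Bool →₀ ℕ) :
    flipM p v μ (v, false) ≤ p - 1 ∧ flipM p v μ (v, true) ≤ p - 1 := by
  rw [fla_false, fla_true]
  exact ⟨Nat.sub_le _ _, Nat.sub_le _ _⟩

private theorem fla_flip (v : V) {μ : V × Bool →₀ ℕ} (h1 : μ (v, false) ≤ p - 1)
    (h2 : μ (v, true) ≤ p - 1) : flipM p v (flipM p v μ) = μ := by
  ext ⟨u, ε⟩
  by_cases hu : u = v
  · subst hu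
    cases ε
    · rw [fla_false, fla_true]
      omega
    · rw [fla_true, fla_false]
      omega
  · rw [fla_ne p v _ hu, fla_ne p v _ hu]

private theorem fla_wtm_add (μ ν : V × Bool →₀ ℕ) : wtm (μ + ν) = wtm μ + wtm ν := by
  unfold wtm
  rw [Finsupp.sum_add_index']
  · intro x
    split_ifs <;> simp
  · intro x m n
    split_ifs
    · push_cast
      ring
    · push_cast
      ring

private theorem fla_wtm_single (x : V × Bool) (n : ℕ) :
    wtm (Finsupp.single x n) = if x.2 then -(n : ℤ) else (n : ℤ) := by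
  unfold wtm
  rw [Finsupp.sum_single_index]
  split_ifs <;> simp

private theorem fla_split (v : V) (μ : V × Bool →₀ ℕ) :
    μ = (μ.erase (v, false)).erase (v, true) + Finsupp.single (v, false) (μ (v, false)) +
      Finsupp.single (v, true) (μ (v, true)) := by
  ext ⟨u, ε⟩
  rw [Finsupp.add_apply, Finsupp.add_apply]
  by_cases hu : u = v
  · subst hu
    cases ε
    · rw [Finsupp.erase_ne (by simp), Finsupp.erase_same, Finsupp.single_eq_same,
        Finsupp.single_eq_of_ne (by simp)]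
      simp
    · rw [Finsupp.erase_same, Finsupp.single_eq_same,
        Finsupp.single_eq_of_ne (by simp)]
      simp
  · rw [Finsupp.erase_ne (by simp [hu]), Finsupp.erase_ne (by simp [hu]),
      Finsupp.single_eq_of_ne (by simp [hu]), Finsupp.single_eq_of_ne (by simp [hu])]
    simp

private theorem fla_erase (v : V) (μ : V × Bool →₀ ℕ) :
    ((flipM p v μ).erase (v, false)).erase (v, true) = (μ.erase (v, false)).erase (v, true) := by
  ext ⟨u, ε⟩
  by_cases hu : u = v
  · subst hu
    cases ε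
    · rw [Finsupp.erase_ne (by simp), Finsupp.erase_same, Finsupp.erase_ne (by simp),
        Finsupp.erase_same]
    · rw [Finsupp.erase_same, Finsupp.erase_same]
  · rw [Finsupp.erase_ne (by simp [hu]), Finsupp.erase_ne (by simp [hu]),
      Finsupp.erase_ne (by simp [hu]), Finsupp.erase_ne (by simp [hu]), fla_ne p v _ hu]

private theorem fla_wtm (v : V) {μ : V × Bool →₀ ℕ} (h1 : μ (v, false) ≤ p - 1)
    (h2 : μ (v, true) ≤ p - 1) : wtm (flipM p v μ) = wtm μ := by
  have e1 := congrArg wtm (fla_split v μ)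
  have e2 := congrArg wtm (fla_split v (flipM p v μ))
  rw [fla_wtm_add, fla_wtm_add, fla_wtm_single, fla_wtm_single] at e1 e2
  rw [fla_erase, fla_false, fla_true] at e2
  rw [e2, e1]
  simp only [Bool.false_eq_true, if_false, if_true]
  rw [Nat.cast_sub h1, Nat.cast_sub h2]
  ring

private theorem fla_deg (v : V) {d : V →₀ ℕ} {μ : V × Bool →₀ ℕ} (h1 : μ (v, false) ≤ p - 1)
    (h2 : μ (v, true) ≤ p - 1) (h : ∀ u, μ (u, false) + μ (u, true) = d u) (u : V) :
    flipM p v μ (u, false) + flipM p v μ (u, true) = d.update v (2 * p - 2 - d v) u := by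
  rw [Finsupp.update_apply]
  by_cases hu : u = v
  · subst hu
    rw [if_pos rfl, fla_false, fla_true, ← h u]
    omega
  · rw [if_neg hu, fla_ne p v _ hu, fla_ne p v _ hu]
    exact h u

open Classical in
/-- general flip -/
private noncomputable def gth (v : V) (c : (V × Bool →₀ ℕ) → K) : T V K →ₗ[K] T V K :=
  (basisMonomials (V × Bool) K).constr K fun μ =>
    if μ (v, false) ≤ p - 1 ∧ μ (v, true) ≤ p - 1 then monomial (flipM p v μ) (c μ) else 0

private theorem gth_monomial (v : V) (c : (V × Bool →₀ ℕ) → K) (μ : V × Bool →₀ ℕ) (a : K) :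
    gth p v c (monomial μ a) =
      if μ (v, false) ≤ p - 1 ∧ μ (v, true) ≤ p - 1 then monomial (flipM p v μ) (a * c μ)
      else 0 := by
  have h0 : (monomial μ a : T V K) = a • (basisMonomials (V × Bool) K) μ := by
    rw [coe_basisMonomials, smul_monomial, smul_eq_mul, mul_one]
  rw [h0, map_smul, gth, Module.Basis.constr_basis]
  split_ifs
  · rw [smul_monomial, smul_eq_mul]
  · rw [smul_zero]

private theorem gth_coeff (v : V) (c : (V × Bool →₀ ℕ) → K) (f : T V K) (ν : V × Bool →₀ ℕ) :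
    coeff ν (gth p v c f) = if ν (v, false) ≤ p - 1 ∧ ν (v, true) ≤ p - 1 then
      coeff (flipM p v ν) f * c (flipM p v ν) else 0 := by
  induction f using MvPolynomial.induction_on' with
  | monomial μ a =>
    rw [gth_monomial]
    by_cases hμ : μ (v, false) ≤ p - 1 ∧ μ (v, true) ≤ p - 1
    · rw [if_pos hμ, coeff_monomial, coeff_monomial]
      by_cases h : flipM p v μ = ν
      · rw [if_pos h]
        subst h
        rw [if_pos (fla_le p v μ), fla_flip p v hμ.1 hμ.2, if_pos rfl]
      · rw [if_neg h]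
        split_ifs with h1 h2
        · exact absurd (by rw [h2, fla_flip p v h1.1 h1.2]) h
        · rw [zero_mul]
        · rfl
    · rw [if_neg hμ, coeff_zero, coeff_monomial]
      split_ifs with h1 h2
      · exact absurd (by rw [h2]; exact fla_le p v ν) hμ
      · rw [zero_mul]
      · rfl
  | add f g hf hg =>
    rw [map_add, coeff_add, hf, hg, coeff_add]
    split_ifs
    · rw [add_mul]
    · rw [add_zero]

/-- the constant -/
private noncomputable def flac (K : Type*) [Field K] (v : V) (μ : V × Bool →₀ ℕ) : K :=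
  (-1 : K) ^ μ (v, false) * ((μ (v, false)).factorial * (μ (v, true)).factorial : ℕ)

private theorem th_eq_gth (v : V) : th (K := K) p v = gth p v (flac K v) := rfl

private theorem th_coeff (v : V) (f : T V K) (ν : V × Bool →₀ ℕ) :
    coeff ν (th p v f) = if ν (v, false) ≤ p - 1 ∧ ν (v, true) ≤ p - 1 then
      coeff (flipM p v ν) f * flac K v (flipM p v ν) else 0 := by
  rw [th_eq_gth, gth_coeff]

theorem th_monomial (v : V) (μ : V × Bool →₀ ℕ) (c : K) : th p v (monomial μ c) =
    if μ (v, false) ≤ p - 1 ∧ μ (v, true) ≤ p - 1 then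
      monomial (flipM p v μ)
        (c * ((-1 : K) ^ μ (v, false) * ((μ (v, false)).factorial * (μ (v, true)).factorial : ℕ)))
    else 0 := by
  rw [th_eq_gth, gth_monomial]
  rfl

variable [Fact p.Prime] [CharP K p]

omit [Fact p.Prime] [CharP K p] in
theorem th_mem_S (v : V) {d : V →₀ ℕ} {w : ℤ} (hd : d v ≤ 2 * p - 2) {x : T V K} (hx : x ∈ S K d w) :
    th p v x ∈ S K (d.update v (2 * p - 2 - d v)) w := by
  rw [mem_S_iff] at hx ⊢
  intro ν hν
  rw [th_coeff] at hν
  split_ifs at hν with hP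
  · obtain ⟨h1, h2⟩ := hx _ (left_ne_zero_of_mul hν)
    obtain ⟨h3, h4⟩ := fla_le p v ν
    have h5 := fla_deg p v h3 h4 h1
    have h6 := fla_wtm p v h3 h4
    rw [fla_flip p v hP.1 hP.2] at h5 h6
    exact ⟨h5, h6.trans h2⟩
  · exact absurd rfl hν

/-- the support of `th x` -/
theorem th_support (v : V) {x : T V K} {ν : V × Bool →₀ ℕ} (h : coeff ν (th p v x) ≠ 0) :
    ∃ μ, coeff μ x ≠ 0 ∧ μ (v, false) ≤ p - 1 ∧ μ (v, true) ≤ p - 1 ∧ ν = flipM p v μ := by
  rw [th_coeff] at h
  split_ifs at h with hP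
  · exact ⟨flipM p v ν, left_ne_zero_of_mul h, (fla_le p v ν).1, (fla_le p v ν).2,
      (fla_flip p v hP.1 hP.2).symm⟩
  · exact absurd rfl h

theorem th_eq_zero (v : V) {x : T V K}
    (h : ∀ μ, coeff μ x ≠ 0 → p ≤ μ (v, false) ∨ p ≤ μ (v, true)) : th p v x = 0 := by
  have hp : 1 < p := (Fact.out : p.Prime).one_lt
  ext ν
  rw [th_coeff, coeff_zero]
  split_ifs with hP
  · by_cases h0 : coeff (flipM p v ν) x = 0
    · rw [h0, zero_mul]
    · obtain ⟨h1, h2⟩ := fla_le p v ν
      rcases h _ h0 with h3 | h3 <;> omega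
  · rfl

private theorem flac_ne (v : V) {μ : V × Bool →₀ ℕ} (h1 : μ (v, false) ≤ p - 1)
    (h2 : μ (v, true) ≤ p - 1) : flac K v μ ≠ 0 := by
  have hp : p.Prime := Fact.out
  have hp1 : 1 < p := hp.one_lt
  unfold flac
  refine mul_ne_zero (pow_ne_zero _ (neg_ne_zero.2 one_ne_zero)) ?_
  rw [Ne, CharP.cast_eq_zero_iff K p, hp.dvd_mul, hp.dvd_factorial, hp.dvd_factorial]
  omega

/-- kernel -/
theorem th_ker (v : V) {x : T V K} {μ : V × Bool →₀ ℕ} (h0 : coeff μ x ≠ 0) (h1 : μ (v, false) ≤ p - 1)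
    (h2 : μ (v, true) ≤ p - 1) : coeff (flipM p v μ) (th p v x) ≠ 0 := by
  rw [th_coeff, if_pos (fla_le p v μ), fla_flip p v h1 h2]
  exact mul_ne_zero h0 (flac_ne p v h1 h2)

theorem th_surj (v : V) {d : V →₀ ℕ} {w : ℤ} (hd : d v ≤ 2 * p - 2) (hd' : p ≤ d v) {y : T V K}
    (hy : y ∈ S K (d.update v (2 * p - 2 - d v)) w) : ∃ x ∈ S K d w, th p v x = y ∧
      ∀ μ, coeff μ x ≠ 0 → μ (v, false) ≤ p - 1 ∧ μ (v, true) ≤ p - 1 ∧ coeff (flipM p v μ) y ≠ 0 := by
  have hp1 : 1 < p := (Fact.out : p.Prime).one_lt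
  rw [mem_S_iff] at hy
  have key : ∀ μ, coeff μ (gth p v (fun μ => (flac K v (flipM p v μ))⁻¹) y) ≠ 0 →
      μ (v, false) ≤ p - 1 ∧ μ (v, true) ≤ p - 1 ∧ coeff (flipM p v μ) y ≠ 0 := by
    intro μ hμ
    rw [gth_coeff] at hμ
    split_ifs at hμ with hP
    · exact ⟨hP.1, hP.2, left_ne_zero_of_mul hμ⟩
    · exact absurd rfl hμ
  refine ⟨gth p v (fun μ => (flac K v (flipM p v μ))⁻¹) y, ?_, ?_, key⟩
  · rw [mem_S_iff]
    intro μ hμ
    obtain ⟨h1, h2, h3⟩ := key μ hμ
    obtain ⟨h4, h5⟩ := hy _ h3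
    refine ⟨fun u => ?_, ?_⟩
    · have h6 := h4 u
      rw [Finsupp.update_apply] at h6
      by_cases hu : u = v
      · subst hu
        rw [if_pos rfl, fla_false, fla_true] at h6
        omega
      · rw [if_neg hu, fla_ne p v _ hu, fla_ne p v _ hu] at h6
        exact h6
    · rw [← fla_wtm p v h1 h2]
      exact h5
  · ext ν
    rw [th_coeff]
    split_ifs with hP
    · rw [gth_coeff, if_pos (fla_le p v ν), fla_flip p v hP.1 hP.2, mul_assoc,
        inv_mul_cancel₀ (flac_ne p v (fla_le p v ν).1 (fla_le p v ν).2), mul_one]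
    · by_contra h0
      obtain ⟨h1, -⟩ := hy ν (fun h => h0 h.symm)
      have h2 := h1 v
      rw [Finsupp.update_apply, if_pos rfl] at h2
      omega

end HKDet
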