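import Pool.Agent.Lib.HKDet.FlA
import Pool.Agent.Lib.FSig.ThetaOne

/-!
# Module FlE: the flip operator commutes with `E k`, `F k`

`th p v` from module FlA (`th_monomial`): `a^s b^t m ↦ (-1)^s s! t! a^(p-1-t) b^(p-1-s) m` for `s, t ≤ p-1`, `0` otherwise (`a = a_v`, `b = b_v`, `m` without `v`).
`th p v = FSig.thv K p v` (the factor `s! t!` is `0` in `K` when `s ≥ p` or `t ≥ p`), so `th_E`, `th_F` are `FSig.thv_E`, `FSig.thv_F`; they need degree `≥ p - 1` at `v`
(for `x = 1`: `th (E 1 1) = 0`, but `E 1 (th 1) = (p-1) a^p b^(p-2)`).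
-/

namespace HKDet

open MvPolynomial FSig Finset

variable {V : Type*} [DecidableEq V] {K : Type*} [Field K] (p : ℕ) [Fact p.Prime] [CharP K p]

omit [DecidableEq V] in
private lemma FlE_fac_zero {n : ℕ} (h : ¬ n ≤ p - 1) : ((n.factorial : ℕ) : K) = 0 := by
  have hp := (Fact.out : p.Prime).pos
  rw [CharP.cast_eq_zero_iff K p]
  exact Nat.dvd_factorial hp (by omega)

private lemma FlE_eq (v : V) : (th p v : T V K →ₗ[K] T V K) = thv K p v := by
  refine LinearMap.ext fun x => ?_
  induction x using MvPolynomial.induction_on' with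
  | add f g hf hg => rw [map_add, map_add, hf, hg]
  | monomial μ c =>
    rw [th_monomial, thv_monomial]
    split_ifs with h
    · have e : flipM p v μ = FSig.flip p v μ := rfl
      rw [e]
      congr 1
      push_cast
      ring
    · have h0 : ((μ (v, false)).factorial : K) * ((μ (v, true)).factorial : K) = 0 := by
        by_cases h1 : μ (v, false) ≤ p - 1
        · have h2 : ¬ μ (v, true) ≤ p - 1 := fun h2 => h ⟨h1, h2⟩
          rw [FlE_fac_zero (K := K) p h2, mul_zero]
        · rw [FlE_fac_zero (K := K) p h1, zero_mul]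
      have h3 : (-1 : K) ^ μ (v, false) * ((μ (v, false)).factorial : K) *
          ((μ (v, true)).factorial : K) * c = 0 := by
        rw [mul_assoc ((-1 : K) ^ μ (v, false)), h0, mul_zero, zero_mul]
      rw [h3, monomial_zero]

private lemma FlE_deg (v : V) (d : V →₀ ℕ) : d.update v 0 + Finsupp.single v (d v) = d := by
  ext u
  rw [Finsupp.add_apply, Finsupp.update_apply]
  by_cases hu : u = v
  · subst hu
    simp
  · rw [if_neg hu, Finsupp.single_eq_of_ne hu, add_zero]

theorem th_E (v : V) {d : V →₀ ℕ} {w : ℤ} (hd : p - 1 ≤ d v) {x : T V K} (hx : x ∈ S K d w)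
    (k : ℕ) : th p v (E K k x) = E K k (th p v x) := by
  rw [← FlE_deg v d] at hx
  rw [FlE_eq]
  exact thv_E K p (d := d.update v 0) (v := v) (by simp) hd hx k

theorem th_F (v : V) {d : V →₀ ℕ} {w : ℤ} (hd : p - 1 ≤ d v) {x : T V K} (hx : x ∈ S K d w)
    (k : ℕ) : th p v (F K k x) = F K k (th p v x) := by
  rw [← FlE_deg v d] at hx
  rw [FlE_eq]
  exact thv_F K p (d := d.update v 0) (v := v) (by simp) hd hx k

end HKDet
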