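import Pool.Agent.Lib.HKDet.Defs

/-!
# Module FrOp: Frobenius powers and the operators
-/

namespace HKDet

open MvPolynomial FSig Finset

variable {V : Type*} {K : Type*} [Field K] (p : ℕ) [Fact p.Prime] [CharP K p]

private theorem fr_Et (f : T V K) :
    Et K (expand p f) = Polynomial.expand (T V K) p
      (Polynomial.map ((expand p : T V K →ₐ[K] T V K) : T V K →+* T V K) (Et K f)) := by
  have key : (Et (V := V) K).comp (expand p) =
      ((Polynomial.expand (T V K) p).restrictScalars K).comp
        ((Polynomial.mapAlgHom (expand p : T V K →ₐ[K] T V K)).comp (Et K)) := by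
    apply MvPolynomial.algHom_ext
    rintro ⟨v, b⟩
    have : ExpChar (Polynomial (T V K)) p := ExpChar.prime (Fact.out : p.Prime)
    cases b
    · have h1 : Et K (X (v, false) : T V K) = Polynomial.C (X (v, false)) := Et_va K v
      change Et K (expand p (X (v, false))) = Polynomial.expand (T V K) p
        (Polynomial.map _ (Et K (X (v, false))))
      rw [expand_X, map_pow, h1, Polynomial.map_C, Polynomial.expand_C, ← Polynomial.C_pow]
      congr 1
      exact (expand_X p (v, false)).symm
    · have h1 : Et K (X (v, true) : T V K) = Polynomial.C (X (v, true)) +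
        Polynomial.X * Polynomial.C (X (v, false)) := Et_vb K v
      change Et K (expand p (X (v, true))) = Polynomial.expand (T V K) p
        (Polynomial.map _ (Et K (X (v, true))))
      rw [expand_X, map_pow, h1, add_pow_expChar, mul_pow, Polynomial.map_add, Polynomial.map_mul,
        Polynomial.map_C, Polynomial.map_C, Polynomial.map_X, map_add, map_mul,
        Polynomial.expand_C, Polynomial.expand_C, Polynomial.expand_X, ← Polynomial.C_pow,
        ← Polynomial.C_pow]
      have e1 : (expand p : T V K →ₐ[K] T V K).toRingHom (X (v, true)) =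
        X (v, true) ^ p := expand_X p (v, true)
      have e2 : (expand p : T V K →ₐ[K] T V K).toRingHom (X (v, false)) =
        X (v, false) ^ p := expand_X p (v, false)
      rw [e1, e2]
  exact DFunLike.congr_fun key f

private theorem fr_Ft (f : T V K) :
    Ft K (expand p f) = Polynomial.expand (T V K) p
      (Polynomial.map ((expand p : T V K →ₐ[K] T V K) : T V K →+* T V K) (Ft K f)) := by
  have key : (Ft (V := V) K).comp (expand p) =
      ((Polynomial.expand (T V K) p).restrictScalars K).comp
        ((Polynomial.mapAlgHom (expand p : T V K →ₐ[K] T V K)).comp (Ft K)) := by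
    apply MvPolynomial.algHom_ext
    rintro ⟨v, b⟩
    have : ExpChar (Polynomial (T V K)) p := ExpChar.prime (Fact.out : p.Prime)
    cases b
    · have h1 : Ft K (X (v, false) : T V K) = Polynomial.C (X (v, false)) +
        Polynomial.X * Polynomial.C (X (v, true)) := Ft_va K v
      change Ft K (expand p (X (v, false))) = Polynomial.expand (T V K) p
        (Polynomial.map _ (Ft K (X (v, false))))
      rw [expand_X, map_pow, h1, add_pow_expChar, mul_pow, Polynomial.map_add, Polynomial.map_mul,
        Polynomial.map_C, Polynomial.map_C, Polynomial.map_X, map_add, map_mul,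
        Polynomial.expand_C, Polynomial.expand_C, Polynomial.expand_X, ← Polynomial.C_pow,
        ← Polynomial.C_pow]
      have e1 : (expand p : T V K →ₐ[K] T V K).toRingHom (X (v, true)) =
        X (v, true) ^ p := expand_X p (v, true)
      have e2 : (expand p : T V K →ₐ[K] T V K).toRingHom (X (v, false)) =
        X (v, false) ^ p := expand_X p (v, false)
      rw [e1, e2]
    · have h1 : Ft K (X (v, true) : T V K) = Polynomial.C (X (v, true)) := Ft_vb K v
      change Ft K (expand p (X (v, true))) = Polynomial.expand (T V K) p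
        (Polynomial.map _ (Ft K (X (v, true))))
      rw [expand_X, map_pow, h1, Polynomial.map_C, Polynomial.expand_C, ← Polynomial.C_pow]
      congr 1
      exact (expand_X p (v, true)).symm
  exact DFunLike.congr_fun key f

theorem E_expand (k : ℕ) (f : T V K) :
    E K k (expand p f) = if p ∣ k then expand p (E K (k / p) f) else 0 := by
  rw [E_apply, fr_Et, Polynomial.coeff_expand (Fact.out : p.Prime).pos, Polynomial.coeff_map]
  rfl
theorem F_expand (k : ℕ) (f : T V K) :
    F K k (expand p f) = if p ∣ k then expand p (F K (k / p) f) else 0 := by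
  rw [F_apply, fr_Ft, Polynomial.coeff_expand (Fact.out : p.Prime).pos, Polynomial.coeff_map]
  rfl

private lemma fr_sum {A : Type*} [CommRing A] {q : ℕ} (hq : 0 < q) (k : ℕ) (g h : ℕ → A) :
    ∑ ij ∈ antidiagonal k, (if q ∣ ij.1 then g (ij.1 / q) else 0) * h ij.2 =
      ∑ i ∈ range (k / q + 1), g i * h (k - q * i) := by
  rw [Finset.Nat.sum_antidiagonal_eq_sum_range_succ
    (fun a b => (if q ∣ a then g (a / q) else 0) * h b) k]
  symm
  refine Finset.sum_bij_ne_zero (fun i _ _ => q * i) ?_ ?_ ?_ ?_
  · intro i hi _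
    rw [mem_range] at hi ⊢
    have h1 : q * i ≤ k := by
      calc q * i ≤ q * (k / q) := Nat.mul_le_mul_left q (Nat.lt_succ_iff.mp hi)
        _ ≤ k := Nat.mul_div_le k q
    exact Nat.lt_succ_of_le h1
  · intro i _ _ j _ _ hij
    exact Nat.eq_of_mul_eq_mul_left hq hij
  · intro j hj hne
    by_cases hd : q ∣ j
    · obtain ⟨i, rfl⟩ := hd
      rw [if_pos (dvd_mul_right q i), Nat.mul_div_cancel_left i hq] at hne
      refine ⟨i, ?_, hne, rfl⟩
      rw [mem_range] at hj ⊢
      rw [Nat.lt_succ_iff, Nat.le_div_iff_mul_le hq, mul_comm]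
      exact Nat.lt_succ_iff.mp hj
    · rw [if_neg hd, zero_mul] at hne
      exact absurd rfl hne
  · intro i _ _
    rw [if_pos (dvd_mul_right q i), Nat.mul_div_cancel_left i hq]

theorem E_expand_mul (k : ℕ) (f g : T V K) :
    E K k (expand p f * g) = ∑ i ∈ range (k / p + 1), expand p (E K i f) * E K (k - p * i) g := by
  rw [E_mul]
  simp only [E_expand p]
  exact fr_sum (Fact.out : p.Prime).pos k (fun i => expand p (E K i f)) (fun j => E K j g)
theorem F_expand_mul (k : ℕ) (f g : T V K) :
    F K k (expand p f * g) = ∑ i ∈ range (k / p + 1), expand p (F K i f) * F K (k - p * i) g := by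
  rw [F_mul]
  simp only [F_expand p]
  exact fr_sum (Fact.out : p.Prime).pos k (fun i => expand p (F K i f)) (fun j => F K j g)

omit [CharP K p] in
theorem expand_mem_S {d : V →₀ ℕ} {w : ℤ} {f : T V K} (hf : f ∈ S K d w) :
    expand p f ∈ S K (p • d) (p * w) := by
  refine S_induction K (fun f => expand p f ∈ S K (p • d) (p * w)) ?_ ?_ ?_ hf
  · rw [map_zero]
    exact zero_mem _
  · intro f g hf hg
    rw [map_add]
    exact add_mem hf hg
  · intro μ c h1 h2
    rw [expand_monomial]
    refine monomial_mem_S K c (fun v => ?_) ?_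
    · simp only [Finsupp.smul_apply, smul_eq_mul, ← h1 v]
      ring
    · rw [← h2, wtm, wtm, Finsupp.sum_smul_index', Finsupp.mul_sum]
      · refine Finsupp.sum_congr fun x _ => ?_
        split_ifs <;> simp
      · intro x
        split_ifs <;> simp

theorem pderiv_expand (x : V × Bool) (f : T V K) : pderiv x (expand p f) = 0 := by
  induction f using MvPolynomial.induction_on with
  | C a => rw [expand_C, pderiv_C]
  | add f g hf hg => rw [map_add, map_add, hf, hg, add_zero]
  | mul_X f i hf =>
    rw [map_mul, expand_X, pderiv_mul, hf, zero_mul, zero_add, pderiv_pow]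
    have : ((p : ℕ) : T V K) = 0 := CharP.cast_eq_zero _ p
    rw [this, zero_mul, zero_mul, mul_zero]

theorem expand_br (v w : V) : expand p (br K v w) = br K v w ^ p := by
  have : ExpChar (T V K) p := ExpChar.prime (Fact.out : p.Prime)
  unfold br va vb
  rw [map_sub, map_mul, map_mul, expand_X, expand_X, expand_X, expand_X, sub_pow_expChar,
    mul_pow, mul_pow]

omit [Fact p.Prime] [CharP K p] in
theorem expand_mem_Fr {J : Ideal (T V K)} {f : T V K} (hf : f ∈ J) : expand p f ∈ Fr p J :=
  Ideal.mem_map_of_mem _ hf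

omit [Fact p.Prime] [CharP K p] in
theorem Fr_mono {I J : Ideal (T V K)} (h : I ≤ J) : Fr p I ≤ Fr p J := Ideal.map_mono h
omit [Fact p.Prime] [CharP K p] in
theorem Fr_bot : Fr p (⊥ : Ideal (T V K)) = ⊥ := Ideal.map_bot
omit [Fact p.Prime] [CharP K p] in
theorem Fr_top : Fr p (⊤ : Ideal (T V K)) = ⊤ := Ideal.map_top _
omit [Fact p.Prime] [CharP K p] in
theorem Fr_mul (I J : Ideal (T V K)) : Fr p (I * J) = Fr p I * Fr p J := Ideal.map_mul _ I J
omit [Fact p.Prime] [CharP K p] in
theorem Fr_pow (I : Ideal (T V K)) (n : ℕ) : Fr p (I ^ n) = Fr p I ^ n := Ideal.map_pow _ I n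
omit [Fact p.Prime] [CharP K p] in
theorem Fr_sup (I J : Ideal (T V K)) : Fr p (I ⊔ J) = Fr p I ⊔ Fr p J := Ideal.map_sup _ I J

theorem E_mem_Fr {J : Ideal (T V K)} (hJ : Good J) (k : ℕ) {f : T V K} (hf : f ∈ Fr p J) :
    E K k f ∈ Fr p J := by
  rw [Fr, Ideal.map] at hf
  induction hf using Submodule.span_induction generalizing k with
  | mem x hx =>
    obtain ⟨g, hg, rfl⟩ := hx
    change E K k (expand p g) ∈ Fr p J
    rw [E_expand]
    split_ifs
    · exact expand_mem_Fr p (hJ.E _ g hg)
    · exact zero_mem _
  | zero => rw [map_zero]; exact zero_mem _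
  | add x y _ _ hx hy => rw [map_add]; exact add_mem (hx k) (hy k)
  | smul a x _ hx =>
    rw [smul_eq_mul, E_mul]
    exact sum_mem fun ij _ => Ideal.mul_mem_left _ _ (hx ij.2)
theorem F_mem_Fr {J : Ideal (T V K)} (hJ : Good J) (k : ℕ) {f : T V K} (hf : f ∈ Fr p J) :
    F K k f ∈ Fr p J := by
  rw [Fr, Ideal.map] at hf
  induction hf using Submodule.span_induction generalizing k with
  | mem x hx =>
    obtain ⟨g, hg, rfl⟩ := hx
    change F K k (expand p g) ∈ Fr p J
    rw [F_expand]
    split_ifs
    · exact expand_mem_Fr p (hJ.F _ g hg)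
    · exact zero_mem _
  | zero => rw [map_zero]; exact zero_mem _
  | add x y _ _ hx hy => rw [map_add]; exact add_mem (hx k) (hy k)
  | smul a x _ hx =>
    rw [smul_eq_mul, F_mul]
    exact sum_mem fun ij _ => Ideal.mul_mem_left _ _ (hx ij.2)

omit [Fact p.Prime] [CharP K p] in
private theorem comp_mem_aux {I : Ideal (T V K)} {f : T V K} {j : (V →₀ ℕ) × ℤ}
    (hf : IsWeightedHomogeneous (gr (V := V)) f j) (hI : f ∈ I) (i : (V →₀ ℕ) × ℤ) :
    weightedHomogeneousComponent (gr (V := V)) i f ∈ I := by
  by_cases h : i = j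
  · subst h
    rw [hf.weightedHomogeneousComponent_same]
    exact hI
  · rw [hf.weightedHomogeneousComponent_ne i h]
    exact zero_mem _

theorem component_mem_Fr {J : Ideal (T V K)} (hJ : Good J) {f : T V K} (hf : f ∈ Fr p J)
    (i : (V →₀ ℕ) × ℤ) : weightedHomogeneousComponent (gr (V := V)) i f ∈ Fr p J := by
  rw [Fr, Ideal.map] at hf
  induction hf using Submodule.span_induction generalizing i with
  | mem x hx =>
    obtain ⟨g, hg, rfl⟩ := hx
    change weightedHomogeneousComponent (gr (V := V)) i (expand p g) ∈ Fr p J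
    obtain ⟨s, hs⟩ := exists_sum_component K g
    rw [hs, map_sum, map_sum]
    refine sum_mem fun j _ => ?_
    exact comp_mem_aux (expand_mem_S p (component_mem K g j.1 j.2))
      (expand_mem_Fr p (hJ.hom g hg j)) i
  | zero => rw [map_zero]; exact zero_mem _
  | add x y _ _ hx hy => rw [map_add]; exact add_mem (hx i) (hy i)
  | smul a x _ hx =>
    obtain ⟨s, hs⟩ := exists_sum_component K a
    obtain ⟨t, ht⟩ := exists_sum_component K x
    have h1 : a • x = ∑ j ∈ s, ∑ l ∈ t, weightedHomogeneousComponent (gr (V := V)) j a *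
        weightedHomogeneousComponent (gr (V := V)) l x := by
      conv_lhs => rw [hs, ht]
      rw [smul_eq_mul, Finset.sum_mul_sum]
    rw [h1, map_sum]
    refine sum_mem fun j _ => ?_
    rw [map_sum]
    refine sum_mem fun l _ => ?_
    exact comp_mem_aux ((weightedHomogeneousComponent_isWeightedHomogeneous _ _).mul
      (weightedHomogeneousComponent_isWeightedHomogeneous _ _)) (Ideal.mul_mem_left _ _ (hx l)) i

end HKDet
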