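import Pool.Agent.Lib.HKDet.FrOp

/-!
# Module HA: a vector `l` of degree `= -1` mod `p`: the decomposition `x = ∑_{α<p} a^α b^(p-1-α) q_α`

`a = a_l`, `b = b_l`. `qe p l α : T → T` is the linear map which sends a monomial `x^μ` with `μ(l,false) = α`, `μ(l,true) = p-1-α` mod `p` to `x^μ / (a^α b^(p-1-α))` and all other monomials
to `0` (definition on the basis of monomials). `Lp p l` = the subspace of the `f` all of whose monomials have `a`- and `b`-exponent divisible by `p`.

PROOFS. All maps are linear: check on monomials (`MvPolynomial.basisMonomials`, `Basis.ext`, or `induction_on'`, `S_induction`).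
* `qe_monomial`: definition. `qe_mem_Lp`: the exponents of the image are `μ(l,false) - α`, `μ(l,true) - (p-1-α)`, divisible by `p`.
* `recon`: `x ∈ S d w`, `p ∣ d l + 1`: `μ(l,false) + μ(l,true) = d l = p - 1` mod `p`: with `α = μ(l,false) % p` one has `μ(l,true) % p = p - 1 - α`, so exactly one `α < p` contributes and gives back `x^μ`.
* `qe_mul`: `q ∈ Lp`: `qe α (a^α b^(p-1-α) q) = q` and `qe α (a^β b^(p-1-β) q) = 0` for `β ≠ α`, `β < p` (monomials).
* `qe_Fr`: `f ∈ Fr p J ⟹ qe α f ∈ Fr p J`: `qe α (expand p g * h) = expand p g * qe α h` (for `g` a monomial: adding multiples of `p` to the exponents does not change the residues), and `Fr p J` is the span of the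
  `h * expand p g`, `g ∈ J` (`Submodule.span_induction`).
* `qe_mem_S`: degree.
-/

namespace HKDet

open MvPolynomial FSig Finset

variable {V : Type*} [DecidableEq V] {K : Type*} [Field K] (p : ℕ)

open Classical in
/-- the coefficient of `a_l^α b_l^(p-1-α)` over `p`-th powers of `a_l, b_l` -/
noncomputable def qe (l : V) (α : ℕ) : T V K →ₗ[K] T V K :=
  (basisMonomials (V × Bool) K).constr K fun μ =>
    if μ (l, false) % p = α ∧ μ (l, true) % p = p - 1 - α then
      monomial (μ - (Finsupp.single (l, false) α + Finsupp.single (l, true) (p - 1 - α))) (1 : K)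
    else 0

/-- all exponents of `a_l` and `b_l` are divisible by `p` -/
noncomputable def Lp (K : Type*) [Field K] (l : V) : Submodule K (T V K) where
  carrier := {f | ∀ μ, coeff μ f ≠ 0 → p ∣ μ (l, false) ∧ p ∣ μ (l, true)}
  add_mem' := by
    intro f g hf hg μ h
    by_cases h1 : coeff μ f = 0
    · refine hg μ fun h2 => h ?_
      rw [coeff_add, h1, h2, add_zero]
    · exact hf μ h1
  zero_mem' := by
    intro μ h
    exact absurd (coeff_zero μ) h
  smul_mem' := by
    intro c f hf μ h
    refine hf μ fun h2 => h ?_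
    rw [coeff_smul, h2, smul_zero]

private lemma ha_wtm_add (μ ν : V × Bool →₀ ℕ) : wtm (μ + ν) = wtm μ + wtm ν := by
  unfold wtm
  rw [Finsupp.sum_add_index']
  · intro x
    split_ifs <;> simp
  · intro x m n
    split_ifs
    · push_cast
      ring
    · push_cast
      ring

private lemma ha_wtm_single (x : V × Bool) (n : ℕ) :
    wtm (Finsupp.single x n) = if x.2 then -(n : ℤ) else (n : ℤ) := by
  unfold wtm
  rw [Finsupp.sum_single_index (by split_ifs <;> simp)]

/-- the exponent of `a_l^α b_l^β` -/
private noncomputable def dlt (l : V) (α β : ℕ) : V × Bool →₀ ℕ :=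
  Finsupp.single (l, false) α + Finsupp.single (l, true) β

private lemma dlt_false (l : V) (α β : ℕ) : dlt l α β (l, false) = α := by
  simp [dlt]

private lemma dlt_true (l : V) (α β : ℕ) : dlt l α β (l, true) = β := by
  simp [dlt]

private lemma dlt_ne (l : V) (α β : ℕ) {v : V} (h : v ≠ l) (b : Bool) : dlt l α β (v, b) = 0 := by
  have h' : ¬ (l = v) := fun h2 => h h2.symm
  simp [dlt, Finsupp.single_apply, h']

private lemma dlt_le (l : V) {α β : ℕ} {μ : V × Bool →₀ ℕ} (h1 : α ≤ μ (l, false))
    (h2 : β ≤ μ (l, true)) : dlt l α β ≤ μ := by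
  intro x
  obtain ⟨v, b⟩ := x
  by_cases h : v = l
  · subst h
    cases b
    · rw [dlt_false]; exact h1
    · rw [dlt_true]; exact h2
  · rw [dlt_ne l α β h]
    exact Nat.zero_le _

private lemma mul_mono (l : V) (α β : ℕ) (ν : V × Bool →₀ ℕ) (c : K) :
    va K l ^ α * vb K l ^ β * monomial ν c = monomial (dlt l α β + ν) c := by
  rw [va, vb, X_pow_eq_monomial, X_pow_eq_monomial, monomial_mul, monomial_mul, one_mul, one_mul]
  rfl

theorem qe_monomial (l : V) (α : ℕ) (μ : V × Bool →₀ ℕ) (c : K) : qe p l α (monomial μ c) =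
    if μ (l, false) % p = α ∧ μ (l, true) % p = p - 1 - α then
      monomial (μ - (Finsupp.single (l, false) α + Finsupp.single (l, true) (p - 1 - α))) c
    else 0 := by
  have h1 : (monomial μ c : T V K) = c • basisMonomials (V × Bool) K μ := by
    rw [coe_basisMonomials, smul_monomial, smul_eq_mul, mul_one]
  rw [h1, map_smul]
  unfold qe
  rw [Module.Basis.constr_basis]
  split_ifs with h
  · rw [smul_monomial, smul_eq_mul, mul_one]
  · rw [smul_zero]

variable [Fact p.Prime]

theorem qe_mem_Lp (l : V) (α : ℕ) (f : T V K) : qe p l α f ∈ Lp p K l := by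
  rw [f.as_sum, map_sum]
  refine Submodule.sum_mem _ fun μ _ => ?_
  rw [qe_monomial]
  split_ifs with h
  · intro ν hν
    rw [coeff_monomial] at hν
    split_ifs at hν with h1
    · subst h1
      change p ∣ (μ - dlt l α (p - 1 - α)) (l, false) ∧ p ∣ (μ - dlt l α (p - 1 - α)) (l, true)
      rw [Finsupp.tsub_apply, Finsupp.tsub_apply, dlt_false, dlt_true]
      refine ⟨?_, ?_⟩
      · rw [← h.1]
        exact Nat.dvd_sub_mod _
      · rw [← h.2]
        exact Nat.dvd_sub_mod _
    · exact absurd rfl hν
  · exact Submodule.zero_mem _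

theorem recon {l : V} {d : V →₀ ℕ} {w : ℤ} (hl : p ∣ d l + 1) {x : T V K} (hx : x ∈ S K d w) :
    x = ∑ α ∈ range p, va K l ^ α * vb K l ^ (p - 1 - α) * qe p l α x := by
  have hp : 0 < p := (Fact.out : p.Prime).pos
  refine S_induction K (fun f : T V K => f = ∑ α ∈ range p, va K l ^ α * vb K l ^ (p - 1 - α) *
    qe p l α f) ?_ ?_ ?_ hx
  · simp
  · intro f g hf hg
    conv_lhs => rw [hf, hg]
    rw [← Finset.sum_add_distrib]
    refine Finset.sum_congr rfl fun α _ => ?_
    rw [map_add, mul_add]
  · intro μ c h1 _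
    have h2 := h1 l
    set α₀ := μ (l, false) % p with hα
    have hlt : α₀ < p := Nat.mod_lt _ hp
    have h3 : μ (l, true) % p = p - 1 - α₀ := by
      have h4 : p ∣ α₀ + μ (l, true) % p + 1 := by
        have h5 : (α₀ + μ (l, true) % p + 1) % p = (μ (l, false) + μ (l, true) + 1) % p := by
          rw [hα, Nat.add_mod, Nat.add_mod (μ (l, false) % p), Nat.mod_mod, Nat.mod_mod,
            ← Nat.add_mod (μ (l, false)), ← Nat.add_mod]
        rw [Nat.dvd_iff_mod_eq_zero, h5, h2]
        exact Nat.mod_eq_zero_of_dvd hl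
      have h6 : μ (l, true) % p < p := Nat.mod_lt _ hp
      obtain ⟨t, ht⟩ := h4
      have h7 : t = 1 := by
        have h8 : p * t < p * 2 := by omega
        have h9 : t < 2 := Nat.lt_of_mul_lt_mul_left h8
        have h10 : t ≠ 0 := by
          rintro rfl
          omega
        omega
      rw [h7] at ht
      omega
    rw [Finset.sum_eq_single α₀]
    · rw [qe_monomial, if_pos ⟨rfl, h3⟩, mul_mono]
      congr 1
      have h4 : dlt l α₀ (p - 1 - α₀) ≤ μ :=
        dlt_le l (Nat.mod_le _ _) (by rw [← h3]; exact Nat.mod_le _ _)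
      exact congrArg (fun ν => monomial ν) (add_tsub_cancel_of_le h4).symm
    · intro α _ hne
      rw [qe_monomial, if_neg (fun h => hne h.1.symm), mul_zero]
    · intro h
      exact absurd (Finset.mem_range.2 hlt) h

theorem qe_mul (l : V) {α β : ℕ} (hβ : β < p) {q : T V K} (hq : q ∈ Lp p K l) :
    qe p l α (va K l ^ β * vb K l ^ (p - 1 - β) * q) = if β = α then q else 0 := by
  have hp : 0 < p := (Fact.out : p.Prime).pos
  have key : ∀ ν : V × Bool →₀ ℕ, ∀ c : K, p ∣ ν (l, false) → p ∣ ν (l, true) →
      qe p l α (va K l ^ β * vb K l ^ (p - 1 - β) * monomial ν c) =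
        if β = α then monomial ν c else 0 := by
    intro ν c h1 h2
    rw [mul_mono, qe_monomial, Finsupp.add_apply, Finsupp.add_apply, dlt_false, dlt_true]
    obtain ⟨a, ha⟩ := h1
    obtain ⟨b, hb⟩ := h2
    rw [ha, hb, Nat.add_mul_mod_self_left, Nat.add_mul_mod_self_left, Nat.mod_eq_of_lt hβ,
      Nat.mod_eq_of_lt (by omega : p - 1 - β < p)]
    by_cases h : β = α
    · subst h
      rw [if_pos ⟨rfl, rfl⟩, if_pos rfl]
      congr 1
      exact congrArg (fun ν => monomial ν) (add_tsub_cancel_left (dlt l β (p - 1 - β)) ν)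
    · rw [if_neg (fun h1 => h h1.1), if_neg h]
  have h1 : ∀ s : Finset (V × Bool →₀ ℕ), (∀ μ ∈ s, p ∣ μ (l, false) ∧ p ∣ μ (l, true)) →
      qe p l α (va K l ^ β * vb K l ^ (p - 1 - β) * ∑ μ ∈ s, monomial μ (coeff μ q)) =
        if β = α then ∑ μ ∈ s, monomial μ (coeff μ q) else 0 := by
    intro s hs
    rw [Finset.mul_sum, map_sum]
    rw [Finset.sum_congr rfl fun μ hμ => key μ _ (hs μ hμ).1 (hs μ hμ).2]
    split_ifs
    · rfl
    · exact Finset.sum_const_zero
  have h2 := h1 q.support (fun μ hμ => hq μ (mem_support_iff.1 hμ))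
  rwa [← q.as_sum] at h2

theorem qe_Fr {J : Ideal (T V K)} (l : V) (α : ℕ) {f : T V K} (hf : f ∈ Fr p J) :
    qe p l α f ∈ Fr p J := by
  have hcond : ∀ g h : T V K, qe p l α (h * expand p g) = expand p g * qe p l α h := by
    intro g h
    induction h using MvPolynomial.induction_on' with
    | add h₁ h₂ ih₁ ih₂ => rw [add_mul, map_add, ih₁, ih₂, map_add, mul_add]
    | monomial ν c =>
      induction g using MvPolynomial.induction_on' with
      | add g₁ g₂ ih₁ ih₂ => rw [map_add, mul_add, map_add, ih₁, ih₂, add_mul]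
      | monomial μ e =>
        rw [expand_monomial, monomial_mul, qe_monomial, qe_monomial]
        have h1 : ∀ x, (ν + p • μ) x % p = ν x % p := by
          intro x
          rw [Finsupp.add_apply, Finsupp.smul_apply, smul_eq_mul, Nat.add_mul_mod_self_left]
        rw [h1, h1]
        split_ifs with h
        · rw [monomial_mul, mul_comm e c]
          congr 1
          refine congrArg (fun ν => monomial ν) ?_
          have h4 : dlt l α (p - 1 - α) ≤ ν :=
            dlt_le l (by rw [← h.1]; exact Nat.mod_le _ _) (by rw [← h.2]; exact Nat.mod_le _ _)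
          change ν + p • μ - dlt l α (p - 1 - α) = p • μ + (ν - dlt l α (p - 1 - α))
          rw [add_comm ν, add_tsub_assoc_of_le h4]
        · rw [mul_zero]
  have hP : ∀ h : T V K, qe p l α (h * f) ∈ Fr p J := by
    unfold Fr Ideal.map Ideal.span at hf
    refine Submodule.span_induction (p := fun x _ => ∀ h : T V K, qe p l α (h * x) ∈ Fr p J)
      ?_ ?_ ?_ ?_ hf
    · rintro _ ⟨g, hg, rfl⟩ h
      have h1 := hcond g h
      have h2 : (expand p : T V K →ₐ[K] T V K) g ∈ Fr p J := Ideal.mem_map_of_mem _ hg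
      change qe p l α (h * expand p g) ∈ Fr p J
      rw [h1]
      exact Ideal.mul_mem_right _ _ h2
    · intro h
      rw [mul_zero, map_zero]
      exact Ideal.zero_mem _
    · intro x y _ _ hx hy h
      rw [mul_add, map_add]
      exact Ideal.add_mem _ (hx h) (hy h)
    · intro a x _ hx h
      rw [smul_eq_mul, ← mul_assoc]
      exact hx (h * a)
  have h1 := hP 1
  rwa [one_mul] at h1

theorem qe_mem_S {l : V} {α : ℕ} (hα : α < p) {d : V →₀ ℕ} {w : ℤ} {f : T V K} (hf : f ∈ S K d w) :
    qe p l α f ∈ S K (d - Finsupp.single l (p - 1)) (w - (2 * (α : ℤ) - (p - 1))) := by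
  have hp : 0 < p := (Fact.out : p.Prime).pos
  refine S_induction K (fun f : T V K => qe p l α f ∈
    S K (d - Finsupp.single l (p - 1)) (w - (2 * (α : ℤ) - (p - 1)))) ?_ ?_ ?_ hf
  · rw [map_zero]
    exact Submodule.zero_mem _
  · intro f g hf hg
    rw [map_add]
    exact Submodule.add_mem _ hf hg
  · intro μ c h1 h2
    rw [qe_monomial]
    split_ifs with h
    · have h3 : α ≤ μ (l, false) := by rw [← h.1]; exact Nat.mod_le _ _
      have h4 : p - 1 - α ≤ μ (l, true) := by rw [← h.2]; exact Nat.mod_le _ _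
      change monomial (μ - dlt l α (p - 1 - α)) c ∈ _
      refine monomial_mem_S K c (fun v => ?_) ?_
      · rw [Finsupp.tsub_apply, Finsupp.tsub_apply, Finsupp.tsub_apply]
        have h5 := h1 v
        by_cases hv : v = l
        · subst hv
          rw [dlt_false, dlt_true, Finsupp.single_eq_same]
          omega
        · rw [dlt_ne l _ _ hv, dlt_ne l _ _ hv, Finsupp.single_eq_of_ne hv]
          omega
      · have h5 : μ - dlt l α (p - 1 - α) + dlt l α (p - 1 - α) = μ :=
          tsub_add_cancel_of_le (dlt_le l h3 h4)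
        have h6 := ha_wtm_add (μ - dlt l α (p - 1 - α)) (dlt l α (p - 1 - α))
        rw [h5, h2] at h6
        have h7 : wtm (dlt l α (p - 1 - α)) = 2 * (α : ℤ) - (p - 1) := by
          rw [dlt, ha_wtm_add, ha_wtm_single, ha_wtm_single]
          simp only [Bool.false_eq_true, if_false, if_true]
          omega
        rw [h7] at h6
        linarith
    · exact Submodule.zero_mem _

end HKDet
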