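import Pool.Agent.Lib.HKDet.HE
import Pool.Agent.Lib.HKDet.NrmB

/-!
# Module HB: a vector `l` of degree `= -1` mod `p`: `x = Lam (a^(p-1) q_(p-1))` for `E 1 x = F 1 x = 0`

`q_α = qe p l α x`, `x ∈ S d w`, `p ∣ d l + 1`, `p ∣ w`, `E 1 x = F 1 x = 0`. By `qe_E1`, `qe_F1`: `E 1 q_α = α q_(α-1)`, `F 1 q_α = -(α+1) q_(α+1)` (`α < p`).
* `E_q`: `E j q_(p-1) = binom(p-1, j) q_(p-1-j)` for `j < p`: `j! E j = (E 1)^j` (`factorial_smul_E`), `(E 1)^j q_(p-1) = (p-1)(p-2)⋯(p-j) q_(p-1-j)` (induction), divide by `j!` (unit).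
* `F_q`: `F 1 q_(p-1) = -p q_p = 0`, so `F j q_(p-1) = 0` for `1 ≤ j < p` (`F_of_F_one`).
* `F (p-1) (a^(p-1) q_(p-1)) = F (p-1) (a^(p-1)) q_(p-1) = b^(p-1) q_(p-1)` (`F_mul`; `F j (a^n) = binom(n,j) a^(n-j) b^j`: the coefficients of `(a + t b)^n`).
* `E (p-1) (b^(p-1) q_(p-1)) = ∑_{j ≤ p-1} E (p-1-j) (b^(p-1)) E j q_(p-1) = ∑_j binom(p-1,j)^2 a^(p-1-j) b^j q_(p-1-j)` and `binom(p-1,j)^2 = 1` in `K` (`binom(p-1,j) = (-1)^j`), so it is `∑_α a^α b^(p-1-α) q_α = x` (`recon`).
* `Lam u = E (p-1) (F (p-1) u)` for `u = a^(p-1) q_(p-1)`, whose weight is `w` (`qe_mem_S`: weight of `q_(p-1)` is `w - (p-1)`), `p ∣ w` (`EF_eq_Lam`; the multidegree of `u` is `d`: `d - single l (p-1) + single l (p-1)`, as `p - 1 ≤ d l`).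
`exists_Lam_of`: the conclusion also for elements of a Frobenius power: `u = a^(p-1) q_(p-1) ∈ Fs p J d w` if `x ∈ Fs p J d w` (`qe_Fr`).
`exists_norm`: `f ∈ IS K d`, `p - 1 ≤ d v`: if `p ≤ d v` `exists_Lam` (FSig/LamImage), otherwise `d v = p - 1`, `exists_Lam_of`; then `NrmL_of_Lam`.
`rr_SS`: `rr ⊥ ⊤ d = finrank ((S d 0).map NrmL)` (`Fs_bot`-type: `Fr ⊥ = ⊥`, `Fr ⊤ = ⊤`), and `(S d 0).map NrmL = IS K d` (`NrmL_mem_IS`, `exists_norm`), `finrank_Inv`.
-/

namespace HKDet

open MvPolynomial FSig Finset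

variable {V : Type*} [DecidableEq V] {K : Type*} [Field K] (p : ℕ) [Fact p.Prime] [CharP K p]

omit [DecidableEq V] in
private lemma hb_lin (a b : T V K) (k : ℕ) (q : Polynomial (T V K)) :
    ((Polynomial.C a + Polynomial.X * Polynomial.C b) * q).coeff (k + 1)
      = a * q.coeff (k + 1) + b * q.coeff k := by
  rw [add_mul, Polynomial.coeff_add, Polynomial.coeff_C_mul, mul_assoc, Polynomial.coeff_X_mul,
    Polynomial.coeff_C_mul]

omit [DecidableEq V] in
private lemma hb_lin0 (a b : T V K) (q : Polynomial (T V K)) :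
    ((Polynomial.C a + Polynomial.X * Polynomial.C b) * q).coeff 0 = a * q.coeff 0 := by
  rw [add_mul, Polynomial.coeff_add, Polynomial.coeff_C_mul, mul_assoc,
    Polynomial.mul_coeff_zero Polynomial.X, Polynomial.coeff_X_zero, zero_mul, add_zero]

omit [DecidableEq V] in
private lemma hb_pow (a b : T V K) (n k : ℕ) :
    ((Polynomial.C a + Polynomial.X * Polynomial.C b) ^ n).coeff k
      = (n.choose k : T V K) * (a ^ (n - k) * b ^ k) := by
  induction n generalizing k with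
  | zero =>
    rcases k with _ | k
    · simp
    · simp [Polynomial.coeff_one]
  | succ n ih =>
    rw [pow_succ']
    rcases k with _ | k
    · rw [hb_lin0, ih]
      simp only [Nat.choose_zero_right, Nat.cast_one, pow_zero, Nat.sub_zero]
      ring
    · rw [hb_lin, ih, ih, Nat.choose_succ_succ, Nat.cast_add,
        show n + 1 - (k + 1) = n - k by omega]
      rcases Nat.lt_or_ge k n with h | h
      · rw [show n - k = (n - (k + 1)) + 1 by omega]
        ring
      · rw [Nat.choose_eq_zero_of_lt (show n < k + 1 by omega)]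
        simp only [Nat.cast_zero, zero_mul, mul_zero, add_zero, zero_add]
        rw [show n - k = 0 by omega]
        ring

omit [DecidableEq V] in
private lemma hb_F (l : V) (n k : ℕ) :
    F K k (va K l ^ n) = (n.choose k : T V K) * (va K l ^ (n - k) * vb K l ^ k) := by
  rw [F_apply, map_pow, Ft_va, hb_pow]

omit [DecidableEq V] in
private lemma hb_E (l : V) (n k : ℕ) :
    E K k (vb K l ^ n) = (n.choose k : T V K) * (vb K l ^ (n - k) * va K l ^ k) := by
  rw [E_apply, map_pow, Et_vb, hb_pow]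

private lemma hb_two : 2 ≤ p := (Fact.out : p.Prime).two_le

/-- `binom(p-1,k)^2 = 1` -/
private lemma hb_choose (k : ℕ) (hk : k ≤ p - 1) :
    ((p - 1).choose k : K) * ((p - 1).choose k : K) = 1 := by
  have h2 := hb_two p
  induction k with
  | zero => simp
  | succ k ih =>
    have h3 : ((p.choose (k + 1) : ℕ) : K) = 0 := by
      rw [CharP.cast_eq_zero_iff K p]
      exact (Fact.out : p.Prime).dvd_choose_self (Nat.succ_ne_zero k) (by omega)
    have h4 : p.choose (k + 1) = (p - 1).choose k + (p - 1).choose (k + 1) := by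
      conv_lhs => rw [show p = (p - 1) + 1 by omega]
      exact Nat.choose_succ_succ _ _
    rw [h4, Nat.cast_add] at h3
    have h5 : (((p - 1).choose (k + 1) : ℕ) : K) = -((p - 1).choose k : K) := by
      linear_combination h3
    rw [h5, neg_mul_neg]
    exact ih (by omega)

variable {p}

private lemma hb_fac {k : ℕ} (hk : k < p) : (k.factorial : K) ≠ 0 := by
  intro h
  rw [CharP.cast_eq_zero_iff K p] at h
  exact absurd ((Fact.out : p.Prime).dvd_factorial.1 h) (by omega)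

section

variable {l : V} {d : V →₀ ℕ} {w : ℤ} (hl : p ∣ d l + 1) {x : T V K}
    (hx : x ∈ S K d w)

include hl hx

private lemma hb_Eq (h1 : E K 1 x = 0) {α : ℕ} (hα : α < p) :
    E K 1 (qe p l α x) = (α : K) • qe p l (α - 1) x := by
  have h := qe_E1 p hl hx hα
  rw [h1, map_zero] at h
  exact (sub_eq_zero.1 h.symm)

private lemma hb_Fq (h2 : F K 1 x = 0) : F K 1 (qe p l (p - 1) x) = 0 := by
  have hp := hb_two p
  have h := qe_F1 p hl hx (show p - 1 < p by omega)
  rw [h2, map_zero, show p - 1 + 1 = p by omega, CharP.cast_eq_zero K p, zero_smul, add_zero] at h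
  exact h.symm

private lemma hb_Epow (h1 : E K 1 x = 0) (j : ℕ) (hj : j ≤ p - 1) :
    ((E K 1) ^ j) (qe p l (p - 1) x) =
      (((p - 1).descFactorial j : ℕ) : K) • qe p l (p - 1 - j) x := by
  have hp := hb_two p
  induction j with
  | zero => simp
  | succ j ih =>
    rw [pow_succ', Module.End.mul_apply, ih (by omega), map_smul,
      hb_Eq hl hx h1 (show p - 1 - j < p by omega), smul_smul, Nat.descFactorial_succ,
      Nat.cast_mul, mul_comm, show p - 1 - j - 1 = p - 1 - (j + 1) by omega]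

private lemma hb_Ej (h1 : E K 1 x = 0) (j : ℕ) (hj : j ≤ p - 1) :
    E K j (qe p l (p - 1) x) = (((p - 1).choose j : ℕ) : K) • qe p l (p - 1 - j) x := by
  have hp := hb_two p
  have h := factorial_smul_E K j (qe p l (p - 1) x)
  rw [hb_Epow hl hx h1 j hj, Nat.descFactorial_eq_factorial_mul_choose, Nat.cast_mul, ← smul_smul,
    ← Nat.cast_smul_eq_nsmul K] at h
  have h0 : (j.factorial : K) ≠ 0 := hb_fac (show j < p by omega)
  exact smul_right_injective _ h0 h

end

variable (p)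

private lemma hb_mem {l : V} {d : V →₀ ℕ} {w : ℤ} (hl : p ∣ d l + 1) {x : T V K}
    (hx : x ∈ S K d w) : va K l ^ (p - 1) * qe p l (p - 1) x ∈ S K d w := by
  have hp := hb_two p
  have h1 := pow_mem_S K (va_mem_S K l) (p - 1)
  have h2 := qe_mem_S (K := K) p (l := l) (show p - 1 < p by omega) hx
  have h3 := mul_mem_S K h1 h2
  have hle : p - 1 ≤ d l := by
    have := Nat.le_of_dvd (Nat.succ_pos _) hl
    omega
  have e1 : (p - 1) • Finsupp.single l 1 + (d - Finsupp.single l (p - 1)) = d := by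
    ext v
    rw [Finsupp.add_apply, Finsupp.smul_apply, Finsupp.tsub_apply]
    by_cases hv : v = l
    · subst hv
      rw [Finsupp.single_eq_same, Finsupp.single_eq_same, smul_eq_mul]
      omega
    · rw [Finsupp.single_eq_of_ne hv, Finsupp.single_eq_of_ne hv, smul_zero]
      omega
  have e2 : ((p - 1 : ℕ) : ℤ) * 1 + (w - (2 * ((p - 1 : ℕ) : ℤ) - ((p : ℤ) - 1))) = w := by
    rw [Nat.cast_sub (show 1 ≤ p by omega)]
    push_cast
    ring
  rw [e1, e2] at h3
  exact h3

theorem Lam_qe {l : V} {d : V →₀ ℕ} {w : ℤ} (hl : p ∣ d l + 1) (hw : (p : ℤ) ∣ w) {x : T V K}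
    (hx : x ∈ S K d w) (h1 : E K 1 x = 0) (h2 : F K 1 x = 0) :
    Lam K p (va K l ^ (p - 1) * qe p l (p - 1) x) = x := by
  have hp := hb_two p
  rw [← EF_eq_Lam K p (hb_mem p hl hx) hw]
  have e1 : F K (p - 1) (va K l ^ (p - 1) * qe p l (p - 1) x) =
      vb K l ^ (p - 1) * qe p l (p - 1) x := by
    rw [F_mul, Finset.sum_eq_single (p - 1, 0)]
    · rw [hb_F, F_zero]
      simp
    · rintro ⟨i, j⟩ hij hne
      rw [Finset.HasAntidiagonal.mem_antidiagonal] at hij
      simp only at hij ⊢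
      have hj : j ≠ 0 := by
        rintro rfl
        apply hne
        rw [add_zero] at hij
        rw [hij]
      rw [F_of_F_one K p (hb_Fq hl hx h2) (k := j) (by omega) (by omega), mul_zero]
    · intro h
      exact absurd (Finset.HasAntidiagonal.mem_antidiagonal.2 (by simp)) h
  rw [e1, E_mul, Finset.Nat.sum_antidiagonal_eq_sum_range_succ_mk, Nat.succ_eq_add_one,
    show p - 1 + 1 = p by omega]
  conv_rhs => rw [recon p hl hx]
  refine Finset.sum_congr rfl fun i hi => ?_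
  rw [Finset.mem_range] at hi
  rw [hb_E, hb_Ej hl hx h1 (p - 1 - i) (by omega)]
  have e2 : p - 1 - (p - 1 - i) = i := by omega
  have e3 : (p - 1).choose (p - 1 - i) = (p - 1).choose i := Nat.choose_symm (by omega)
  rw [e2, e3, MvPolynomial.smul_eq_C_mul]
  have e4 : (((p - 1).choose i : ℕ) : T V K) = C (((p - 1).choose i : ℕ) : K) := by
    rw [map_natCast]
  rw [e4]
  have e5 : (C (((p - 1).choose i : ℕ) : K) : T V K) * C (((p - 1).choose i : ℕ) : K) = 1 := by
    rw [← C_mul, hb_choose p i (by omega), C_1]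
  linear_combination (va K l ^ i * vb K l ^ (p - 1 - i) * qe p l i x) * e5

theorem aq_mem_Fs {l : V} {d : V →₀ ℕ} {w : ℤ} (hl : p ∣ d l + 1) {J : Ideal (T V K)} {x : T V K}
    (hx : x ∈ Fs p J d w) : va K l ^ (p - 1) * qe p l (p - 1) x ∈ Fs p J d w := by
  unfold Fs at hx ⊢
  rw [Submodule.mem_inf, Submodule.restrictScalars_mem] at hx ⊢
  exact ⟨Ideal.mul_mem_left _ _ (qe_Fr p l (p - 1) hx.1), hb_mem p hl hx.2⟩

theorem exists_norm {d : V →₀ ℕ} {v : V} (hv : p - 1 ≤ d v) {f : T V K} (hf : f ∈ IS K d) :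
    ∃ u ∈ S K d 0, NrmL p u = f := by
  have hp := hb_two p
  by_cases h : p ≤ d v
  · obtain ⟨u, hu, h1⟩ := exists_Lam K p h hf
    exact ⟨u, hu, NrmL_of_Lam p hf h1⟩
  · have hd : d v + 1 = p := by omega
    have hl : p ∣ d v + 1 := by rw [hd]
    obtain ⟨hf1, hf2⟩ := (mem_IS K).1 hf
    have h3 := (mem_Inv_iff K f).1 hf2 1 le_rfl
    refine ⟨va K v ^ (p - 1) * qe p v (p - 1) f, hb_mem p hl hf1, ?_⟩
    exact NrmL_of_Lam p hf (Lam_qe p hl (dvd_zero _) hf1 h3.1 h3.2)

theorem rr_SS {d : V →₀ ℕ} {v : V} (hv : p - 1 ≤ d v) (hd : d.degree < 2 * p * (p - 1)) :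
    rr p (⊥ : Ideal (T V K)) ⊤ d = invN d := by
  have e1 : Fs p (⊥ : Ideal (T V K)) d 0 = ⊥ := by
    unfold Fs
    rw [Fr_bot]
    rw [eq_bot_iff]
    rintro f ⟨h1, _⟩
    exact h1
  have e2 : Fs p (⊤ : Ideal (T V K)) d 0 = S K d 0 := by
    unfold Fs
    rw [Fr_top]
    ext f
    rw [Submodule.mem_inf, Submodule.restrictScalars_mem]
    exact ⟨fun h => h.2, fun h => ⟨Submodule.mem_top, h⟩⟩
  have e3 : (S K d 0).map (NrmL p) = IS K d := by
    apply le_antisymm
    · rintro f ⟨u, hu, rfl⟩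
      exact NrmL_mem_IS p hd hu
    · intro f hf
      obtain ⟨u, hu, h⟩ := exists_norm p hv hf
      exact ⟨u, hu, h⟩
  unfold rr
  rw [e1, e2, e3, bot_sup_eq, finrank_bot, Nat.cast_zero, sub_zero, finrank_Inv K p d]

end HKDet
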