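import Pool.Agent.Lib.HKDet.HVx

/-!
# HD1: the spaces `IS` and `mm` on `Wx m n` are those on `Vx m n`

PROOF. `ι = rename Sum.inl : T (Vx m n) K → T (Wx m n) K` (on variables `X (v, c) ↦ X (inl v, c)`: `rename (Prod.map Sum.inl id)`), an injective algebra map (`rename_injective`). The monomials of `S K (emb d) w` involve only variables of vectors `inl x` (`mem_S_iff`, `emb_inr`), so `ι` maps `S K d w` bijectively onto `S K (emb d) w`
(`killCompl`/`exists_rename_eq_of_vars_subset_range`, or monomials). `ι` intertwines `Et` and `Ft` (check on the generators), so it maps `Inv` into `Inv`, and `ι f ∈ Inv` implies `f ∈ Inv` (injectivity of `Polynomial.map ι`). So `IS K (emb d) = (IS K d).map ι`. `ι (br x y) = br (inl x) (inl y)`, so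
`mm K p (rowS m n) (colS m n) (emb d) = (mmV K p d).map ι` (`e + single (inl (inl i)) p + single (inl (inr j)) p = emb d` forces `e = emb e'`, `exists_emb`, `emb_injective`). Injective linear maps preserve `finrank` (`LinearMap.finrank_map_eq`-like, `Submodule.equivMapOfInjective`).
-/

namespace HKDet

open MvPolynomial FSig Pool.HKDet

/-- the component of multidegree `d` of the ideal generated by the `x_ij^p` in the invariants -/
noncomputable def mmV (K : Type*) [Field K] (p : ℕ) {m n : ℕ} (d : Vx m n →₀ ℕ) :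
    Submodule K (T (Vx m n) K) :=
  Submodule.span K {f | ∃ (i : Fin m) (j : Fin n) (e : Vx m n →₀ ℕ), ∃ g ∈ IS K e,
    e + Finsupp.single (Sum.inl i) p + Finsupp.single (Sum.inr j) p = d ∧
      f = br K (Sum.inl i : Vx m n) (Sum.inr j) ^ p * g}

section transfer

variable {V W : Type*}

private lemma emb_notin (ι : V ↪ W) (q : V →₀ ℕ) {x : W} (hx : x ∉ Set.range ι) : q.embDomain ι x = 0 :=
  Finsupp.embDomain_of_notMem_range ι q x hx

private def prE (ι : V ↪ W) : V × Bool ↪ W × Bool := ι.prodMap (Function.Embedding.refl Bool)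

private lemma prE_apply (ι : V ↪ W) (v : V) (b : Bool) : prE ι (v, b) = (ι v, b) := rfl

private noncomputable def emR (ι : V ↪ W) (K : Type*) [CommRing K] : T V K →ₐ[K] T W K :=
  rename (prE ι)

private lemma emR_inj (ι : V ↪ W) (K : Type*) [CommRing K] : Function.Injective (emR ι K) :=
  rename_injective _ (prE ι).injective

private lemma emR_Et (ι : V ↪ W) (K : Type*) [CommRing K] (f : T V K) :
    Et K (emR ι K f) = (Et K f).map (emR ι K).toRingHom := by
  have h : (Et K).comp (emR ι K) = (Polynomial.mapAlgHom (emR ι K)).comp (Et K) := by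
    apply MvPolynomial.algHom_ext
    rintro ⟨v, b⟩
    cases b <;> simp [Et, emR, prE_apply]
  exact DFunLike.congr_fun h f

private lemma emR_Ft (ι : V ↪ W) (K : Type*) [CommRing K] (f : T V K) :
    Ft K (emR ι K f) = (Ft K f).map (emR ι K).toRingHom := by
  have h : (Ft K).comp (emR ι K) = (Polynomial.mapAlgHom (emR ι K)).comp (Ft K) := by
    apply MvPolynomial.algHom_ext
    rintro ⟨v, b⟩
    cases b <;> simp [Ft, emR, prE_apply]
  exact DFunLike.congr_fun h f

private lemma emR_E (ι : V ↪ W) (K : Type*) [CommRing K] (k : ℕ) (f : T V K) :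
    E K k (emR ι K f) = emR ι K (E K k f) := by
  rw [E_apply, emR_Et, Polynomial.coeff_map, E_apply]
  rfl

private lemma emR_F (ι : V ↪ W) (K : Type*) [CommRing K] (k : ℕ) (f : T V K) :
    F K k (emR ι K f) = emR ι K (F K k f) := by
  rw [F_apply, emR_Ft, Polynomial.coeff_map, F_apply]
  rfl

private lemma emR_Inv (ι : V ↪ W) (K : Type*) [CommRing K] (f : T V K) :
    emR ι K f ∈ Inv (V := W) K ↔ f ∈ Inv (V := V) K := by
  rw [mem_Inv_iff, mem_Inv_iff]
  constructor
  · intro h k hk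
    obtain ⟨h1, h2⟩ := h k hk
    rw [emR_E] at h1
    rw [emR_F] at h2
    exact ⟨emR_inj ι K (by rw [h1, map_zero]), emR_inj ι K (by rw [h2, map_zero])⟩
  · intro h k hk
    obtain ⟨h1, h2⟩ := h k hk
    rw [emR_E, emR_F, h1, h2, map_zero]
    exact ⟨rfl, rfl⟩

private lemma emR_monomial (ι : V ↪ W) (K : Type*) [CommRing K] (μ : V × Bool →₀ ℕ) (c : K) :
    emR ι K (monomial μ c) = monomial (μ.embDomain (prE ι)) c := by
  rw [emR, rename_monomial, Finsupp.embDomain_eq_mapDomain]

private lemma prE_notin (ι : V ↪ W) {x : W} (hx : x ∉ Set.range ι) (b : Bool) : (x, b) ∉ Set.range (prE ι) := by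
  rintro ⟨⟨v, c⟩, h⟩
  rw [prE_apply] at h
  exact hx ⟨v, congrArg Prod.fst h⟩

private lemma wtm_emb (ι : V ↪ W) (μ : V × Bool →₀ ℕ) : wtm (μ.embDomain (prE ι)) = wtm μ := by
  unfold wtm
  rw [Finsupp.sum_embDomain]
  rfl

private lemma emR_mem_S (ι : V ↪ W) (K : Type*) [CommRing K] {d : V →₀ ℕ} {w : ℤ} {f : T V K}
    (hf : f ∈ S K d w) : emR ι K f ∈ S K (d.embDomain ι) w := by
  refine S_induction K (fun f => emR ι K f ∈ S K (d.embDomain ι) w) ?_ ?_ ?_ hf
  · rw [map_zero]
    exact zero_mem _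
  · intro f g h1 h2
    rw [map_add]
    exact add_mem h1 h2
  · intro μ c h1 h2
    rw [emR_monomial]
    refine monomial_mem_S K c (fun x => ?_) (by rw [wtm_emb, h2])
    by_cases hx : x ∈ Set.range ι
    · obtain ⟨v, rfl⟩ := hx
      rw [← prE_apply, ← prE_apply, Finsupp.embDomain_apply_self, Finsupp.embDomain_apply_self,
        Finsupp.embDomain_apply_self]
      exact h1 v
    · rw [Finsupp.embDomain_of_notMem_range _ _ _ (prE_notin ι hx false),
        Finsupp.embDomain_of_notMem_range _ _ _ (prE_notin ι hx true), emb_notin ι d hx, add_zero]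

private lemma emR_onto (ι : V ↪ W) (K : Type*) [CommRing K] {d : V →₀ ℕ} {w : ℤ} {g : T W K}
    (hg : g ∈ S K (d.embDomain ι) w) : ∃ f ∈ S K d w, emR ι K f = g := by
  refine S_induction K (fun g => ∃ f ∈ S K d w, emR ι K f = g) ?_ ?_ ?_ hg
  · exact ⟨0, zero_mem _, map_zero _⟩
  · rintro f g ⟨f', h1, rfl⟩ ⟨g', h2, rfl⟩
    exact ⟨f' + g', add_mem h1 h2, map_add _ _ _⟩
  · intro μ' c h1 h2
    have hsup : (μ'.support : Set (W × Bool)) ⊆ Set.range (prE ι) := by
      rintro ⟨x, b⟩ hx
      have h3 : μ' (x, b) ≠ 0 := Finsupp.mem_support_iff.1 (Finset.mem_coe.1 hx)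
      by_cases hxr : x ∈ Set.range ι
      · obtain ⟨v, rfl⟩ := hxr
        exact ⟨(v, b), rfl⟩
      · exfalso
        have h4 := h1 x
        rw [emb_notin ι d hxr] at h4
        cases b
        · omega
        · omega
    have hemb := Finsupp.embDomain_comapDomain (f := prE ι) hsup
    refine ⟨monomial (μ'.comapDomain (prE ι) (prE ι).injective.injOn) c, ?_, ?_⟩
    · refine monomial_mem_S K c (fun v => ?_) ?_
      · have h3 := h1 (ι v)
        rw [Finsupp.embDomain_apply_self] at h3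
        exact h3
      · rw [← wtm_emb ι, hemb, h2]
    · rw [emR_monomial, hemb]


private lemma emR_br (ι : V ↪ W) (K : Type*) [CommRing K] (x y : V) :
    emR ι K (br K x y) = br K (ι x) (ι y) := by
  simp [emR, br, va, vb, prE_apply]

private lemma IS_map (ι : V ↪ W) (K : Type*) [Field K] (d : V →₀ ℕ) :
    (IS K d).map (emR ι K).toLinearMap = IS K (d.embDomain ι) := by
  ext y
  simp only [Submodule.mem_map, AlgHom.toLinearMap_apply]
  constructor
  · rintro ⟨x, ⟨hx1, hx2⟩, rfl⟩
    exact ⟨emR_mem_S ι K hx1, (emR_Inv ι K _).2 hx2⟩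
  · rintro ⟨h1, h2⟩
    obtain ⟨x, hx, rfl⟩ := emR_onto ι K h1
    exact ⟨x, ⟨hx, (emR_Inv ι K _).1 h2⟩, rfl⟩

end transfer

private def il (m n : ℕ) : Vx m n ↪ Wx m n := ⟨Sum.inl, Sum.inl_injective⟩

private lemma emb_eq {m n : ℕ} (d : Vx m n →₀ ℕ) : emb d = d.embDomain (il m n) := by
  rw [emb, Finsupp.embDomain_eq_mapDomain]
  rfl

private lemma emb_single {m n : ℕ} (x : Vx m n) (p : ℕ) :
    emb (Finsupp.single x p) = Finsupp.single (Sum.inl x : Wx m n) p := by
  rw [emb, Finsupp.mapDomain_single]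

private lemma mem_rowS {m n : ℕ} {i : Wx m n} : i ∈ rowS m n ↔ ∃ i' : Fin m, Sum.inl (Sum.inl i') = i := by
  unfold rowS
  rw [Finset.mem_map]
  simp only [Finset.mem_univ, true_and]
  rfl

private lemma mem_colS {m n : ℕ} {j : Wx m n} : j ∈ colS m n ↔ ∃ j' : Fin n, Sum.inl (Sum.inr j') = j := by
  unfold colS
  rw [Finset.mem_map]
  simp only [Finset.mem_univ, true_and]
  rfl

private lemma mm_map (K : Type*) [Field K] (p : ℕ) {m n : ℕ} (d : Vx m n →₀ ℕ) :
    (mmV K p d).map (emR (il m n) K).toLinearMap = mm K p (rowS m n) (colS m n) (emb d) := by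
  unfold mmV mm
  rw [Submodule.map_span]
  congr 1
  ext f
  simp only [Set.mem_image, Set.mem_ofPred_eq, AlgHom.toLinearMap_apply]
  constructor
  · rintro ⟨f0, ⟨i, j, e, g, hg, he, rfl⟩, rfl⟩
    refine ⟨Sum.inl (Sum.inl i), mem_rowS.2 ⟨i, rfl⟩, Sum.inl (Sum.inr j), mem_colS.2 ⟨j, rfl⟩,
      emb e, emR (il m n) K g, ?_, ?_, ?_⟩
    · rw [emb_eq, ← IS_map]
      exact ⟨g, hg, rfl⟩
    · rw [← he, emb_add, emb_add, emb_single, emb_single]
    · rw [map_mul, map_pow, emR_br]
      rfl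
  · rintro ⟨i, hi, j, hj, e, g, hg, he, rfl⟩
    obtain ⟨i', rfl⟩ := mem_rowS.1 hi
    obtain ⟨j', rfl⟩ := mem_colS.1 hj
    have h0 : ∀ k, e (Sum.inr k) = 0 := by
      intro k
      have h1 := DFunLike.congr_fun he (Sum.inr k)
      rw [emb_inr, Finsupp.add_apply, Finsupp.add_apply] at h1
      omega
    obtain ⟨e', rfl⟩ := exists_emb h0
    rw [emb_eq, ← IS_map] at hg
    obtain ⟨g', hg', rfl⟩ := hg
    refine ⟨br K (Sum.inl i' : Vx m n) (Sum.inr j') ^ p * g', ⟨i', j', e', g', hg', ?_, rfl⟩, ?_⟩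
    · apply emb_injective
      rw [emb_add, emb_add, emb_single, emb_single]
      exact he
    · rw [map_mul, map_pow, emR_br]
      rfl

theorem hh_emb (K : Type*) [Field K] (p : ℕ) {m n : ℕ} (d : Vx m n →₀ ℕ) :
    hh K p (rowS m n) (colS m n) (emb d) =
      (Module.finrank K (IS K d) : ℤ) - Module.finrank K (mmV K p d) := by
  unfold hh
  rw [← mm_map, emb_eq, ← IS_map]
  have h1 := (Submodule.equivMapOfInjective (emR (il m n) K).toLinearMap (emR_inj (il m n) K)
    (IS K d)).finrank_eq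
  have h2 := (Submodule.equivMapOfInjective (emR (il m n) K).toLinearMap (emR_inj (il m n) K)
    (mmV K p d)).finrank_eq
  rw [h1, h2]

end HKDet
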