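import Pool.Agent.Lib.HKDet.HD1
import Pool.Agent.Lib.FSig.HKGen

/-!
# HD2: `R / (x_ij^p)` is the direct sum of the spaces `IS K d / mmV K p d`, `d` balanced

`R = Rp m n K` (a subalgebra of `T = T (Vx m n) K`), `I` = the ideal of `R` generated by the `x_ij ^ p`, `x_ij = xRp m n K i j`, underlying element `br (inl i) (inr j)` (`toT`, `aeval_X`).
For `f ∈ R` let `f_d` = `weightedHomogeneousComponent gr (d, 0) f`; `f_d ∈ R` (`Rp_component`), all other components vanish (`Rp_component_zero`), so `f = ∑ f_d` over finitely many balanced `d` (`exists_sum_component`), `f_d ∈ RS K d = IS K d` (`RS_eq_IS`, `d` balanced).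
* `big_degree`: `d` balanced and some `d v > (m + n) p`: `IS K d ≤ mmV K p d`. `f ∈ IS K d = RS K d`, `f = toT g`. `g` is a sum of monomials `c ∏ x_ij^(e_ij)`; `toT` of such a monomial is in `S K d'`, `d' (inl i) = ∑_j e_ij`, `d' (inr j) = ∑_i e_ij` (compare the private lemma `toT_monomial_mem` in `Fft`); taking the component of degree `(d, 0)`, `f` is the sum of the terms with `d' = d`.
  For these some `e_ij ≥ p`: if `v = inl i`: `∑_j e_ij = d v > n (p - 1)`; if `v = inr j`: `∑_i e_ij > m (p-1)`. So the term is `br (inl i) (inr j) ^ p * g'`, `g' = toT` of the monomial divided by `x_ij^p`, `g' ∈ IS K e`, `e + single (inl i) p + single (inr j) p = d`.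
* `mem_I_iff`: for `f ∈ R`: `f ∈ I` iff `f_d ∈ mmV K p d` for all balanced `d`. `→`: `f = ∑ a_ij x_ij^p`, `a_ij ∈ R`; `f_d = ∑ (a_ij)_e x_ij^p`, `e = d - single (inl i) p - single (inr j) p` (balanced), or `0` if `d` is too small. `←`: `mmV K p d ⊆ I` for balanced `d` (in a generator `e` is balanced, `g ∈ IS K e = RS K e`), `f = ∑ f_d`.
* `finrank_quot`: let `B = boxS m n 0 L`, `L ≥ (m+n) p`. The `K`-linear map `R → ∏_{d ∈ B} (IS K d ⧸ (mmV K p d restricted to IS K d))`, `f ↦ (class of f_d)_d` is surjective (`∑_{d ∈ B} f_d` for given `f_d ∈ IS K d = RS K d ⊆ R`) with kernel `I` (`mem_I_iff`, `big_degree`: for `d ∉ B` the condition is automatic). `mmV K p d ≤ IS K d` for all `d` (`br_mem_Inv`). So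
  `finrank (R / I) = ∑_{d ∈ B} (finrank (IS K d) - finrank (mmV K p d))` (`LinearMap.quotKerEquivOfSurjective`, `Module.finrank_pi`-like `Module.finrank_pi_fintype`, `Submodule.finrank_quotient_add_finrank`, `finite_S`).
* `finrank_le`: `R / I` is spanned over `K` by the classes of `toT (∏ x_ij^(e_ij))` with all `e_ij < p`: at most `p^(m n)` elements.
-/

namespace HKDet

open MvPolynomial FSig Pool.HKDet

/-- the ideal generated by the `x_ij ^ p` in `Rp` -/
noncomputable def Ip (m n : ℕ) (K : Type*) [Field K] (p : ℕ) : Ideal (Rp m n K) :=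
  Ideal.span (Set.range fun ij : Fin m × Fin n => Pool.FSig.xRp m n K ij.1 ij.2 ^ p)

/-- the multidegree of the image of a monomial -/
private noncomputable def dg {m n : ℕ} (s : Fin m × Fin n →₀ ℕ) : Vx m n →₀ ℕ :=
  s.mapDomain (fun x => (Sum.inl x.1 : Vx m n)) + s.mapDomain (fun x => (Sum.inr x.2 : Vx m n))

private lemma dg_zero {m n : ℕ} : dg (0 : Fin m × Fin n →₀ ℕ) = 0 := by
  unfold dg
  rw [Finsupp.mapDomain_zero, Finsupp.mapDomain_zero, add_zero]

private lemma dg_add {m n : ℕ} (s t : Fin m × Fin n →₀ ℕ) : dg (s + t) = dg s + dg t := by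
  unfold dg
  rw [Finsupp.mapDomain_add, Finsupp.mapDomain_add]
  abel

private lemma dg_single {m n : ℕ} (x : Fin m × Fin n) (k : ℕ) :
    dg (Finsupp.single x k) = Finsupp.single (Sum.inl x.1) k + Finsupp.single (Sum.inr x.2) k := by
  unfold dg
  rw [Finsupp.mapDomain_single, Finsupp.mapDomain_single]

private lemma dg_inl {m n : ℕ} (s : Fin m × Fin n →₀ ℕ) (i : Fin m) :
    dg s (Sum.inl i) = ∑ j : Fin n, s (i, j) := by
  induction s using Finsupp.induction_linear with
  | zero => rw [dg_zero]; simp
  | add s t hs ht =>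
    rw [dg_add, Finsupp.add_apply, hs, ht, ← Finset.sum_add_distrib]
    rfl
  | single x k =>
    rw [dg_single, Finsupp.add_apply]
    obtain ⟨a, b⟩ := x
    by_cases h : a = i
    · subst h
      rw [Finset.sum_eq_single b]
      · simp
      · intro c _ hc
        rw [Finsupp.single_apply, if_neg]
        intro h
        exact hc (Prod.ext_iff.1 h).2.symm
      · intro h
        exact absurd (Finset.mem_univ _) h
    · rw [Finset.sum_eq_zero]
      · simp [Finsupp.single_apply, h]
      · intro c _
        rw [Finsupp.single_apply, if_neg]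
        intro h'
        exact h (Prod.ext_iff.1 h').1

private lemma dg_inr {m n : ℕ} (s : Fin m × Fin n →₀ ℕ) (j : Fin n) :
    dg s (Sum.inr j) = ∑ i : Fin m, s (i, j) := by
  induction s using Finsupp.induction_linear with
  | zero => rw [dg_zero]; simp
  | add s t hs ht =>
    rw [dg_add, Finsupp.add_apply, hs, ht, ← Finset.sum_add_distrib]
    rfl
  | single x k =>
    rw [dg_single, Finsupp.add_apply]
    obtain ⟨a, b⟩ := x
    by_cases h : b = j
    · subst h
      rw [Finset.sum_eq_single a]
      · simp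
      · intro c _ hc
        rw [Finsupp.single_apply, if_neg]
        intro h
        exact hc (Prod.ext_iff.1 h).1.symm
      · intro h
        exact absurd (Finset.mem_univ _) h
    · rw [Finset.sum_eq_zero]
      · simp [Finsupp.single_apply, h]
      · intro c _
        rw [Finsupp.single_apply, if_neg]
        intro h'
        exact h (Prod.ext_iff.1 h').2

private lemma hd_toT_X {m n : ℕ} (K : Type*) [Field K] (x : Fin m × Fin n) :
    toT m n K (X x) = br K (Sum.inl x.1 : Vx m n) (Sum.inr x.2) := by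
  unfold toT
  rw [aeval_X]

private lemma toT_mono_mem {m n : ℕ} (K : Type*) [Field K] (s : Fin m × Fin n →₀ ℕ) :
    ∀ a : K, toT m n K (monomial s a) ∈ S K (dg s) 0 := by
  induction s using Finsupp.induction_linear with
  | zero =>
    intro a
    have h1 : toT m n K (monomial 0 a) = a • (1 : T (Vx m n) K) := by
      have h := (toT m n K).commutes a
      rw [Algebra.smul_def, mul_one]
      exact h
    rw [h1, dg_zero]
    exact Submodule.smul_mem _ _ (one_mem_S K)
  | add s t hs ht =>
    intro a
    have h1 : (monomial (s + t) a : MvPolynomial (Fin m × Fin n) K) =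
        monomial s a * monomial t 1 := by rw [monomial_mul, mul_one]
    rw [h1, map_mul, dg_add]
    have h := mul_mem_S K (hs a) (ht 1)
    rwa [add_zero] at h
  | single x k =>
    intro a
    have h1 : (monomial (Finsupp.single x k) a : MvPolynomial (Fin m × Fin n) K) =
        a • X x ^ k := by
      rw [X_pow_eq_monomial, smul_monomial, smul_eq_mul, mul_one]
    rw [h1, map_smul, map_pow, hd_toT_X, dg_single]
    refine Submodule.smul_mem _ _ ?_
    have h := pow_mem_S K (br_mem_S K (Sum.inl x.1 : Vx m n) (Sum.inr x.2)) k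
    have h2 : k • (Finsupp.single (Sum.inl x.1 : Vx m n) 1 + Finsupp.single (Sum.inr x.2) 1) =
        Finsupp.single (Sum.inl x.1) k + Finsupp.single (Sum.inr x.2) k := by
      rw [smul_add, Finsupp.smul_single, Finsupp.smul_single, smul_eq_mul, mul_one]
    rw [h2, mul_zero] at h
    exact h

private lemma comp_mono {m n : ℕ} (K : Type*) [Field K] (s : Fin m × Fin n →₀ ℕ) (a : K)
    (d : Vx m n →₀ ℕ) : weightedHomogeneousComponent (gr (V := Vx m n)) (d, (0 : ℤ))
      (toT m n K (monomial s a)) = toT m n K (monomial s a) ∧ d = dg s ∨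
      weightedHomogeneousComponent (gr (V := Vx m n)) (d, (0 : ℤ))
      (toT m n K (monomial s a)) = 0 := by
  classical
  have h := weightedHomogeneousComponent_of_mem (m := (d, (0 : ℤ)))
    (show toT m n K (monomial s a) ∈
      weightedHomogeneousSubmodule K (gr (V := Vx m n)) (dg s, 0) from toT_mono_mem K s a)
  rw [h]
  split_ifs with h1
  · left
    rw [Prod.mk.injEq] at h1
    exact ⟨rfl, h1.1⟩
  · right
    rfl

private lemma toT_Rp {m n : ℕ} (K : Type*) [Field K] (g : MvPolynomial (Fin m × Fin n) K) :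
    toT m n K g ∈ Rp m n K := ⟨g, rfl⟩

private lemma mono_mem_mmV {m n : ℕ} (K : Type*) [Field K] (p : ℕ) (s : Fin m × Fin n →₀ ℕ)
    (a : K) {x : Fin m × Fin n} (hx : p ≤ s x) : toT m n K (monomial s a) ∈ mmV K p (dg s) := by
  have h0 : Finsupp.single x p ≤ s := by
    rw [Finsupp.single_le_iff]
    exact hx
  obtain ⟨t, rfl⟩ := exists_add_of_le h0
  refine Submodule.subset_span ⟨x.1, x.2, dg t, toT m n K (monomial t a), ?_, ?_, ?_⟩
  · rw [mem_IS]
    exact ⟨toT_mono_mem K t a, Rp_le_Inv K (toT_Rp K _)⟩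
  · rw [dg_add, dg_single]
    abel
  · have h1 : (monomial (Finsupp.single x p + t) a : MvPolynomial (Fin m × Fin n) K) =
        X x ^ p * monomial t a := by
      rw [X_pow_eq_monomial, monomial_mul, one_mul]
    rw [h1, map_mul, map_pow, hd_toT_X]

private lemma comp_self {m n : ℕ} (K : Type*) [Field K] {d e : Vx m n →₀ ℕ}
    {f : T (Vx m n) K} (hf : f ∈ S K e 0) :
    (d = e → weightedHomogeneousComponent (gr (V := Vx m n)) (d, (0 : ℤ)) f = f) ∧
    (d ≠ e → weightedHomogeneousComponent (gr (V := Vx m n)) (d, (0 : ℤ)) f = 0) := by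
  classical
  have h := weightedHomogeneousComponent_of_mem (m := (d, (0 : ℤ)))
    (show f ∈ weightedHomogeneousSubmodule K (gr (V := Vx m n)) (e, 0) from hf)
  rw [h]
  constructor
  · rintro rfl
    rw [if_pos rfl]
  · intro hne
    rw [if_neg]
    intro h1
    rw [Prod.mk.injEq] at h1
    exact hne h1.1

variable (m n : ℕ) (K : Type*) [Field K] (p : ℕ) [Fact p.Prime] [CharP K p]

theorem big_degree {m n : ℕ} {d : Vx m n →₀ ℕ} (hd : Bal d) {v : Vx m n} (hv : (m + n) * p < d v) :
    IS K d ≤ mmV K p d := by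
  intro f hf
  have hf' : f ∈ RS K d := by
    rw [RS_eq_IS K p hd]
    exact hf
  obtain ⟨h1, g, hg⟩ := hf'
  have hg' : toT m n K g = f := hg
  have h2 := (comp_self K (d := d) h1).1 rfl
  rw [← h2, ← hg', g.as_sum, map_sum, map_sum]
  refine Submodule.sum_mem _ fun s _ => ?_
  rcases comp_mono K s (coeff s g) d with ⟨h3, h4⟩ | h3
  · rw [h3, h4]
    have h5 : ∃ x, p ≤ s x := by
      by_contra hcon
      push Not at hcon
      rw [h4] at hv
      rcases v with i | j
      · rw [dg_inl] at hv
        have h6 : ∑ j : Fin n, s (i, j) ≤ ∑ _j : Fin n, p :=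
          Finset.sum_le_sum fun j _ => (hcon (i, j)).le
        rw [Finset.sum_const, Finset.card_univ, Fintype.card_fin, smul_eq_mul] at h6
        nlinarith
      · rw [dg_inr] at hv
        have h6 : ∑ i : Fin m, s (i, j) ≤ ∑ _i : Fin m, p :=
          Finset.sum_le_sum fun i _ => (hcon (i, j)).le
        rw [Finset.sum_const, Finset.card_univ, Fintype.card_fin, smul_eq_mul] at h6
        nlinarith
    obtain ⟨x, hx⟩ := h5
    exact mono_mem_mmV K p s _ hx
  · rw [h3]
    exact zero_mem _

omit [Fact (Nat.Prime p)] [CharP K p] in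
private lemma mmV_le_IS {m n : ℕ} (d : Vx m n →₀ ℕ) : mmV K p d ≤ IS K d := by
  unfold mmV
  rw [Submodule.span_le]
  rintro _ ⟨i, j, e, g, hg, he, rfl⟩
  obtain ⟨h1, h2⟩ := (mem_IS K).1 hg
  refine (mem_IS K).2 ⟨?_, ?_⟩
  · have h := mul_mem_S K (pow_mem_S K (br_mem_S K (Sum.inl i : Vx m n) (Sum.inr j)) p) h1
    have h3 : p • (Finsupp.single (Sum.inl i : Vx m n) 1 + Finsupp.single (Sum.inr j) 1) + e =
        d := by
      rw [← he, smul_add, Finsupp.smul_single, Finsupp.smul_single, smul_eq_mul, mul_one]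
      abel
    rw [h3, mul_zero, add_zero] at h
    exact h
  · exact Subalgebra.mul_mem _ (Subalgebra.pow_mem _ (br_mem_Inv K _ _) p) h2

omit [Fact (Nat.Prime p)] [CharP K p] in
private lemma comp_X_pow {m n : ℕ} (x : Fin m × Fin n) (g : MvPolynomial (Fin m × Fin n) K)
    (d : Vx m n →₀ ℕ) : weightedHomogeneousComponent (gr (V := Vx m n)) (d, (0 : ℤ))
      (toT m n K (X x ^ p * g)) ∈ mmV K p d := by
  induction g using MvPolynomial.induction_on' with
  | monomial s a =>
    rw [X_pow_eq_monomial, monomial_mul, one_mul]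
    rcases comp_mono K (Finsupp.single x p + s) a d with ⟨h1, h2⟩ | h1
    · rw [h1, h2]
      apply mono_mem_mmV K p _ a (x := x)
      rw [Finsupp.add_apply, Finsupp.single_eq_same]
      omega
    · rw [h1]
      exact zero_mem _
  | add f g hf hg =>
    rw [mul_add, map_add, map_add]
    exact add_mem hf hg

omit [Fact (Nat.Prime p)] [CharP K p] in
private lemma xRp_coe (i : Fin m) (j : Fin n) : ((Pool.FSig.xRp m n K i j : Rp m n K) :
    T (Vx m n) K) = toT m n K (X (i, j)) := rfl

private lemma mem_Ip_iff (f : Rp m n K) : f ∈ Ip m n K p ↔ ∀ d : Vx m n →₀ ℕ, Bal d →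
    weightedHomogeneousComponent (gr (V := Vx m n)) (d, (0 : ℤ)) (f : T (Vx m n) K) ∈
      mmV K p d := by
  constructor
  · intro hf d _
    unfold Ip at hf
    rw [Ideal.mem_span_range_iff_exists_fun] at hf
    obtain ⟨c, rfl⟩ := hf
    rw [AddSubmonoidClass.coe_finsetSum, map_sum]
    refine Submodule.sum_mem _ fun x _ => ?_
    obtain ⟨g, hg⟩ := (c x).2
    have hg' : toT m n K g = (c x : T (Vx m n) K) := hg
    have h1 : ((c x * Pool.FSig.xRp m n K x.1 x.2 ^ p : Rp m n K) : T (Vx m n) K) =
        toT m n K (X x ^ p * g) := by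
      rw [MulMemClass.coe_mul, SubmonoidClass.coe_pow, xRp_coe, ← hg', map_mul, map_pow, mul_comm]
    rw [h1]
    exact comp_X_pow K p x g d
  · intro h
    let J : Submodule K (T (Vx m n) K) :=
      ((Ip m n K p).restrictScalars K).map (Rp m n K).val.toLinearMap
    have hJ : ∀ d : Vx m n →₀ ℕ, Bal d → mmV K p d ≤ J := by
      intro d hd
      unfold mmV
      rw [Submodule.span_le]
      rintro _ ⟨i, j, e, g, hg, he, rfl⟩
      have heB : Bal e := by
        unfold Bal at hd ⊢
        rw [← he] at hd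
        simp only [Finsupp.add_apply, Finset.sum_add_distrib] at hd
        have h1 : ∑ i' : Fin m, Finsupp.single (Sum.inl i : Vx m n) p (Sum.inl i') = p := by
          rw [Finset.sum_eq_single i]
          · exact Finsupp.single_eq_same
          · intro c _ hc
            rw [Finsupp.single_apply, if_neg]
            intro h
            exact hc (Sum.inl_injective h).symm
          · intro h
            exact absurd (Finset.mem_univ _) h
        have h2 : ∑ i' : Fin m, Finsupp.single (Sum.inr j : Vx m n) p (Sum.inl i') = 0 := by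
          apply Finset.sum_eq_zero
          intro c _
          rw [Finsupp.single_apply, if_neg]
          exact Sum.inr_ne_inl
        have h3 : ∑ j' : Fin n, Finsupp.single (Sum.inl i : Vx m n) p (Sum.inr j') = 0 := by
          apply Finset.sum_eq_zero
          intro c _
          rw [Finsupp.single_apply, if_neg]
          exact Sum.inl_ne_inr
        have h4 : ∑ j' : Fin n, Finsupp.single (Sum.inr j : Vx m n) p (Sum.inr j') = p := by
          rw [Finset.sum_eq_single j]
          · exact Finsupp.single_eq_same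
          · intro c _ hc
            rw [Finsupp.single_apply, if_neg]
            intro h
            exact hc (Sum.inr_injective h).symm
          · intro h
            exact absurd (Finset.mem_univ _) h
        rw [h1, h2, h3, h4] at hd
        omega
      have hg' : g ∈ RS K e := by
        rw [RS_eq_IS K p heB]
        exact hg
      have hgR : g ∈ Rp m n K := hg'.2
      refine ⟨Pool.FSig.xRp m n K i j ^ p * ⟨g, hgR⟩, ?_, ?_⟩
      · exact Ideal.mul_mem_right _ _ (Ideal.subset_span ⟨(i, j), rfl⟩)
      · show ((Pool.FSig.xRp m n K i j ^ p * ⟨g, hgR⟩ : Rp m n K) : T (Vx m n) K) = _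
        rw [MulMemClass.coe_mul, SubmonoidClass.coe_pow, xRp_coe, hd_toT_X]
    have hfJ : (f : T (Vx m n) K) ∈ J := by
      obtain ⟨s, hs⟩ := exists_sum_component K (f : T (Vx m n) K)
      rw [hs]
      refine Submodule.sum_mem _ ?_
      rintro ⟨d, w⟩ _
      by_cases hdw : Bal d ∧ w = 0
      · obtain ⟨hd, rfl⟩ := hdw
        exact hJ d hd (h d hd)
      · rw [Rp_component_zero K f.2 d w hdw]
        exact zero_mem _
    obtain ⟨f', hf', hff⟩ := hfJ
    have h1 : f' = f := Subtype.ext hff
    rw [← h1]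
    exact hf'

omit [Fact (Nat.Prime p)] [CharP K p] in
private lemma comp_mem_IS (f : Rp m n K) (d : Vx m n →₀ ℕ) :
    weightedHomogeneousComponent (gr (V := Vx m n)) (d, (0 : ℤ)) (f : T (Vx m n) K) ∈ IS K d :=
  (mem_IS K).2 ⟨component_mem K _ d 0, Rp_le_Inv K (Rp_component K f.2 d 0)⟩

/-- the component as a linear map -/
private noncomputable def cmpI (d : Vx m n →₀ ℕ) : Rp m n K →ₗ[K] IS K d :=
  LinearMap.codRestrict (IS K d)
    ((weightedHomogeneousComponent (gr (V := Vx m n)) (d, (0 : ℤ))).comp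
      (Rp m n K).val.toLinearMap) (fun f => comp_mem_IS m n K f d)

omit [Fact (Nat.Prime p)] [CharP K p] in
private lemma cmpI_coe (d : Vx m n →₀ ℕ) (f : Rp m n K) : ((cmpI m n K d f : IS K d) :
    T (Vx m n) K) = weightedHomogeneousComponent (gr (V := Vx m n)) (d, (0 : ℤ))
      (f : T (Vx m n) K) := rfl

private lemma finrank_quot_aux {K R ι : Type*} [Field K] [CommRing R] [Algebra K R]
    [Fintype ι] (A : ι → Type*) [∀ i, AddCommGroup (A i)] [∀ i, Module K (A i)]
    [∀ i, Module.Finite K (A i)] (B : ∀ i, Submodule K (A i)) (I : Ideal R)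
    (φ : ∀ i, R →ₗ[K] A i) (hker : ∀ f, f ∈ I ↔ ∀ i, φ i f ∈ B i)
    (hsurj : ∀ y : ∀ i, A i, ∃ f, ∀ i, φ i f = y i) :
    (Module.finrank K (R ⧸ I) : ℤ) =
      ∑ i, ((Module.finrank K (A i) : ℤ) - Module.finrank K (B i)) := by
  let Φ : R →ₗ[K] (∀ i, A i ⧸ B i) := LinearMap.pi fun i => (B i).mkQ.comp (φ i)
  have hk : LinearMap.ker Φ = I.restrictScalars K := by
    ext f
    rw [LinearMap.mem_ker, Submodule.restrictScalars_mem, hker]
    constructor
    · intro h i
      have h1 := congrFun h i
      have h2 : Submodule.Quotient.mk (p := B i) (φ i f) = 0 := h1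
      rwa [Submodule.Quotient.mk_eq_zero] at h2
    · intro h
      funext i
      show Submodule.Quotient.mk (p := B i) (φ i f) = 0
      rw [Submodule.Quotient.mk_eq_zero]
      exact h i
  have hs : Function.Surjective Φ := by
    intro y
    have h1 : ∀ i, ∃ a : A i, Submodule.Quotient.mk a = y i := fun i =>
      Submodule.Quotient.mk_surjective _ (y i)
    choose a ha using h1
    obtain ⟨f, hf⟩ := hsurj a
    refine ⟨f, ?_⟩
    funext i
    show Submodule.Quotient.mk (p := B i) (φ i f) = y i
    rw [hf i, ha i]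
  have e1 : Module.finrank K (R ⧸ I) = Module.finrank K (∀ i, A i ⧸ B i) := by
    rw [← (LinearMap.quotKerEquivOfSurjective Φ hs).finrank_eq,
      (Submodule.quotEquivOfEq _ _ hk).finrank_eq]
    exact (Submodule.Quotient.restrictScalarsEquiv K I).finrank_eq.symm
  rw [e1, Module.finrank_pi_fintype, Nat.cast_sum]
  refine Finset.sum_congr rfl fun i _ => ?_
  have h2 := Submodule.finrank_quotient_add_finrank (B i)
  omega

private lemma mem_boxS' {m n L : ℕ} {d : Vx m n →₀ ℕ} :
    d ∈ boxS m n 0 L ↔ (∀ v, d v ≤ L) ∧ Bal d := by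
  unfold boxS
  simp only [Finset.mem_filter, Finset.mem_Icc]
  constructor
  · rintro ⟨⟨_, h2⟩, h3⟩
    exact ⟨fun v => h2 v, h3⟩
  · rintro ⟨h2, h3⟩
    exact ⟨⟨fun v => Nat.zero_le _, fun v => h2 v⟩, h3⟩


theorem finrank_quot {L : ℕ} (hL : (m + n) * p ≤ L) :
    (Module.finrank K (Rp m n K ⧸ Ip m n K p) : ℤ) =
      ∑ d ∈ boxS m n 0 L, ((Module.finrank K (IS K d) : ℤ) - Module.finrank K (mmV K p d)) := by
  classical
  have hfin : ∀ d : Vx m n →₀ ℕ, Module.Finite K (IS K d) := by
    intro d
    have h1 : Module.Finite K (S K d 0) := finite_S K d 0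
    exact Submodule.finiteDimensional_of_le (inf_le_left : IS K d ≤ S K d 0)
  have hfin' : ∀ d : ↥(boxS m n 0 L), Module.Finite K (IS K d.1) := fun d => hfin d.1
  have hmain := finrank_quot_aux (K := K) (fun d : ↥(boxS m n 0 L) => IS K d.1)
    (fun d => (mmV K p d.1).submoduleOf (IS K d.1)) (Ip m n K p) (fun d => cmpI m n K d.1)
    (by
      intro f
      rw [mem_Ip_iff]
      constructor
      · intro h d
        exact h d.1 (mem_boxS'.1 d.2).2
      · intro h d hd
        by_cases hdL : ∀ v, d v ≤ L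
        · exact h ⟨d, mem_boxS'.2 ⟨hdL, hd⟩⟩
        · push Not at hdL
          obtain ⟨v, hv⟩ := hdL
          exact big_degree K p hd (lt_of_le_of_lt hL hv) (comp_mem_IS m n K f d))
    (by
      intro y
      have h1 : ∀ d : ↥(boxS m n 0 L), ∃ f : Rp m n K, (f : T (Vx m n) K) = y d := by
        intro d
        have hg' : (y d : T (Vx m n) K) ∈ RS K d.1 := by
          rw [RS_eq_IS K p (mem_boxS'.1 d.2).2]
          exact (y d).2
        exact ⟨⟨y d, hg'.2⟩, rfl⟩
      choose f hf using h1
      refine ⟨∑ d, f d, fun d => ?_⟩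
      apply Subtype.ext
      rw [cmpI_coe, AddSubmonoidClass.coe_finsetSum, map_sum, Finset.sum_eq_single d]
      · rw [hf]
        exact (comp_self K ((mem_IS K).1 (y d).2).1).1 rfl
      · intro d' _ hne
        rw [hf]
        exact (comp_self K ((mem_IS K).1 (y d').2).1).2 fun h => hne (Subtype.ext h.symm)
      · intro h
        exact absurd (Finset.mem_univ _) h)
  rw [hmain, ← Finset.sum_coe_sort (boxS m n 0 L)]
  refine Finset.sum_congr rfl fun d _ => ?_
  have h3 : Module.finrank K ((mmV K p d.1).submoduleOf (IS K d.1)) =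
      Module.finrank K (mmV K p d.1) :=
    (Submodule.submoduleOfEquivOfLe (mmV_le_IS K p d.1)).finrank_eq
  rw [h3]

omit [CharP K p] in
theorem finrank_quot_le : Module.finrank K (Rp m n K ⧸ Ip m n K p) ≤ p ^ (m * n) := by
  let π : MvPolynomial (Fin m × Fin n) K →ₐ[K] (Rp m n K ⧸ Ip m n K p) :=
    (Ideal.Quotient.mkₐ K (Ip m n K p)).comp
      ((toT m n K).codRestrict (Rp m n K) (fun x => ⟨x, rfl⟩))
  have hp : 0 < p := (Fact.out : p.Prime).pos
  have hπ : Function.Surjective π := by
    intro y
    obtain ⟨⟨z, g, hg⟩, rfl⟩ := Ideal.Quotient.mk_surjective y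
    refine ⟨g, ?_⟩
    show Ideal.Quotient.mk _ _ = Ideal.Quotient.mk _ _
    congr 1
    exact Subtype.ext hg
  have h0 : ∀ (s : Fin m × Fin n →₀ ℕ) (x : Fin m × Fin n) (a : K), p ≤ s x →
      π (monomial s a) = 0 := by
    intro s x a hx
    have h1 : Finsupp.single x p ≤ s := by
      rw [Finsupp.single_le_iff]
      exact hx
    obtain ⟨t, rfl⟩ := exists_add_of_le h1
    have h2 : (monomial (Finsupp.single x p + t) a : MvPolynomial (Fin m × Fin n) K) =
        X x ^ p * monomial t a := by
      rw [X_pow_eq_monomial, monomial_mul, one_mul]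
    rw [h2, map_mul]
    have h3 : π (X x ^ p) = 0 := by
      show Ideal.Quotient.mk _ _ = 0
      rw [Ideal.Quotient.eq_zero_iff_mem]
      refine Ideal.subset_span ⟨x, ?_⟩
      apply Subtype.ext
      show ((Pool.FSig.xRp m n K x.1 x.2 ^ p : Rp m n K) : T (Vx m n) K) = toT m n K (X x ^ p)
      rw [SubmonoidClass.coe_pow, xRp_coe, map_pow]
    rw [h3, zero_mul]
  let F : (Fin m × Fin n → Fin p) → (Rp m n K ⧸ Ip m n K p) := fun c =>
    π (monomial (Finsupp.equivFunOnFinite.symm fun x => (c x : ℕ)) 1)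
  have hspan : Submodule.span K (Set.range F) = ⊤ := by
    rw [eq_top_iff]
    rintro y -
    obtain ⟨g, rfl⟩ := hπ y
    rw [g.as_sum, map_sum]
    refine Submodule.sum_mem _ fun s _ => ?_
    by_cases hs : ∀ x, s x < p
    · have h1 : (monomial s (coeff s g) : MvPolynomial (Fin m × Fin n) K) =
          coeff s g • monomial s 1 := by
        rw [smul_monomial, smul_eq_mul, mul_one]
      rw [h1, map_smul]
      refine Submodule.smul_mem _ _ (Submodule.subset_span ⟨fun x => ⟨s x, hs x⟩, ?_⟩)
      show π (monomial (Finsupp.equivFunOnFinite.symm fun x => s x) 1) = _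
      have h2 : (Finsupp.equivFunOnFinite.symm fun x => s x) = s := Finsupp.ext fun x => rfl
      rw [h2]
    · push Not at hs
      obtain ⟨x, hx⟩ := hs
      rw [h0 s x _ hx]
      exact zero_mem _
  have h1 := finrank_le_of_span_eq_top hspan
  rw [Fintype.card_fun, Fintype.card_prod, Fintype.card_fin, Fintype.card_fin,
    Fintype.card_fin] at h1
  exact h1

end HKDet
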