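import Pool.Agent.Lib.HKDet.HA

/-!
# Module HE: a vector `l` of degree `= -1` mod `p`: the operators on the decomposition

`a = a_l`, `b = b_l`; `qe`, `Lp` from module HA.
* `E_Lp`: `E k` and `F k` preserve `Lp p l`: `Lp p l` is a subalgebra (support of products) containing all `X u`, `u.1 ≠ l`, and `a^p`, `b^p`, and is generated by them; `E k (a^p) = 0`, `E k (b^p) = a^p` (`k = p`), `b^p` (`k = 0`), `0` otherwise
  (`E_pow`). For a monomial `μ` of `Lp` write `x^μ = (a^p)^s (b^p)^t x^ν`, `ν` without `l`, `E_mul` and induction; or: `f ∈ Lp` iff `pderiv`.. (not needed).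
* `qe_E1`: for `x ∈ S d w`, `p ∣ d l + 1`, `α < p`: `qe α (E 1 x) = E 1 (qe α x) - α qe (α-1) x`: insert `recon`: `E 1 (a^β b^(p-1-β) q) = (p-1-β) a^(β+1) b^(p-2-β) q + a^β b^(p-1-β) E 1 q` (`E_one_mul`, `E 1 b^n = n a b^(n-1)`), `q = qe β x`,
  `E 1 q ∈ Lp`, and apply `qe_mul`: the coefficient of `q_{α-1}` is `p - 1 - (α-1) = p - α = -α` in `K` (for `α = 0` nothing).
* `qe_F1`: `F 1 (a^β b^(p-1-β) q) = β a^(β-1) b^(p-β) q + a^β b^(p-1-β) F 1 q`: `qe α (F 1 x) = F 1 (qe α x) + (α+1) qe (α+1) x` (for `α = p-1` the last coefficient is `p = 0`).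
-/

/-!
# Module HE: a vector `l` of degree `= -1` mod `p`: the operators on the decomposition

`a = a_l`, `b = b_l`; `qe`, `Lp` from module HA.
-/

set_option linter.unusedSectionVars false

namespace HKDet

open MvPolynomial FSig Finset

variable {V : Type*} [DecidableEq V] {K : Type*} [Field K] (p : ℕ) [Fact p.Prime]

private lemma Lp_mem_iff {l : V} {f : T V K} :
    f ∈ Lp p K l ↔ ∀ μ, coeff μ f ≠ 0 → p ∣ μ (l, false) ∧ p ∣ μ (l, true) := Iff.rfl

private lemma Lp_mul {l : V} {f g : T V K} (hf : f ∈ Lp p K l) (hg : g ∈ Lp p K l) :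
    f * g ∈ Lp p K l := by
  classical
  intro μ h
  rw [coeff_mul] at h
  obtain ⟨x, hx, hne⟩ := Finset.exists_ne_zero_of_sum_ne_zero h
  rw [HasAntidiagonal.mem_antidiagonal] at hx
  have h1 := hf x.1 (left_ne_zero_of_mul hne)
  have h2 := hg x.2 (right_ne_zero_of_mul hne)
  rw [← hx, Finsupp.add_apply, Finsupp.add_apply]
  exact ⟨dvd_add h1.1 h2.1, dvd_add h1.2 h2.2⟩

private lemma Lp_monomial {l : V} {μ : V × Bool →₀ ℕ} {c : K}
    (h1 : p ∣ μ (l, false)) (h2 : p ∣ μ (l, true)) : monomial μ c ∈ Lp p K l := by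
  classical
  intro ν h
  rw [coeff_monomial] at h
  split_ifs at h with h3
  · rw [← h3]; exact ⟨h1, h2⟩
  · exact absurd rfl h

private lemma Lp_C {l : V} (c : K) : (C c : T V K) ∈ Lp p K l := by
  rw [C_apply]
  exact Lp_monomial p (by simp) (by simp)

private lemma Lp_X {l : V} {x : V × Bool} (h : x.1 ≠ l) : (X x : T V K) ∈ Lp p K l := by
  rw [X]
  refine Lp_monomial p ?_ ?_
  · rw [Finsupp.single_eq_of_ne]
    · exact dvd_zero _
    · intro h'; exact h (by rw [← h'])
  · rw [Finsupp.single_eq_of_ne]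
    · exact dvd_zero _
    · intro h'; exact h (by rw [← h'])

private lemma Lp_Xp {l : V} (x : V × Bool) : (X x ^ p : T V K) ∈ Lp p K l := by
  rw [X_pow_eq_monomial]
  refine Lp_monomial p ?_ ?_
  · rw [Finsupp.single_apply]
    split_ifs
    · exact dvd_rfl
    · exact dvd_zero _
  · rw [Finsupp.single_apply]
    split_ifs
    · exact dvd_rfl
    · exact dvd_zero _

private def LpP (P : Polynomial (T V K)) (l : V) : Prop := ∀ k, P.coeff k ∈ Lp p K l

private lemma LpP_mul {l : V} {P Q : Polynomial (T V K)} (hP : LpP p P l) (hQ : LpP p Q l) :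
    LpP p (P * Q) l := by
  intro k
  rw [Polynomial.coeff_mul]
  exact Submodule.sum_mem _ fun x _ => Lp_mul p (hP x.1) (hQ x.2)

private lemma LpP_C {l : V} {f : T V K} (hf : f ∈ Lp p K l) : LpP p (Polynomial.C f) l := by
  intro k
  rw [Polynomial.coeff_C]
  split_ifs
  · exact hf
  · exact Submodule.zero_mem _

private lemma LpP_one {l : V} : LpP p (1 : Polynomial (T V K)) l := by
  have h := LpP_C p (l := l) (Lp_C p (l := l) (1 : K))
  rwa [C_1, Polynomial.C_1] at h

private lemma LpP_pow {l : V} {P : Polynomial (T V K)} (hP : LpP p P l) (n : ℕ) :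
    LpP p (P ^ n) l := by
  induction n with
  | zero => rw [pow_zero]; exact LpP_one p
  | succ n ih => rw [pow_succ]; exact LpP_mul p ih hP

private lemma LpP_Xpow {l : V} (n : ℕ) : LpP p (Polynomial.X ^ n : Polynomial (T V K)) l := by
  intro k
  rw [Polynomial.coeff_X_pow]
  split_ifs
  · have h := Lp_C p (l := l) (1 : K)
    rwa [C_1] at h
  · exact Submodule.zero_mem _

private lemma LpP_add {l : V} {P Q : Polynomial (T V K)} (hP : LpP p P l) (hQ : LpP p Q l) :
    LpP p (P + Q) l := by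
  intro k
  rw [Polynomial.coeff_add]
  exact Submodule.add_mem _ (hP k) (hQ k)

private lemma LpP_hom {l : V} (φ : T V K →ₐ[K] Polynomial (T V K))
    (h1 : ∀ x : V × Bool, x.1 ≠ l → LpP p (φ (X x)) l)
    (h2 : ∀ x : V × Bool, x.1 = l → LpP p (φ (X x) ^ p) l) {f : T V K} (hf : f ∈ Lp p K l) :
    LpP p (φ f) l := by
  classical
  rw [f.as_sum, map_sum]
  intro k
  rw [Polynomial.finsetSum_coeff]
  refine Submodule.sum_mem _ fun μ hμ => ?_
  have hμ' := hf μ (mem_support_iff.mp hμ)
  rw [monomial_eq, map_mul]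
  have hC : LpP p (φ (C (coeff μ f))) l := by
    have h3 : φ (C (coeff μ f)) = Polynomial.C (C (coeff μ f)) := φ.commutes _
    rw [h3]
    exact LpP_C p (Lp_C p _)
  refine LpP_mul p hC ?_ k
  rw [Finsupp.prod, map_prod]
  refine Finset.prod_induction _ (fun P => LpP p P l) (fun P Q hP hQ => LpP_mul p hP hQ)
    (LpP_one p) ?_
  intro x _
  rw [map_pow]
  by_cases hx : x.1 = l
  · have hd : p ∣ μ x := by
      obtain ⟨v, b⟩ := x
      simp only at hx
      subst hx
      cases b
      · exact hμ'.1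
      · exact hμ'.2
    obtain ⟨m, hm⟩ := hd
    rw [hm, pow_mul]
    exact LpP_pow p (h2 x hx) m
  · exact LpP_pow p (h1 x hx) _

variable [CharP K p]

theorem E_Lp (l : V) (k : ℕ) {f : T V K} (hf : f ∈ Lp p K l) : E K k f ∈ Lp p K l := by
  refine LpP_hom p (Et K) ?_ ?_ hf k
  · rintro ⟨v, b⟩ hx
    simp only at hx
    cases b
    · have h3 := Et_va K v
      unfold va at h3
      rw [h3]
      exact LpP_C p (Lp_X p hx)
    · have h3 := Et_vb K v
      unfold va vb at h3
      rw [h3]
      refine LpP_add p (LpP_C p (Lp_X p hx)) (LpP_mul p ?_ (LpP_C p (Lp_X p hx)))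
      have := LpP_Xpow (K := K) p (l := l) 1
      rwa [pow_one] at this
  · rintro ⟨v, b⟩ hx
    simp only at hx
    subst hx
    cases b
    · have h3 := Et_va K v
      unfold va at h3
      rw [h3, ← map_pow]
      exact LpP_C p (Lp_Xp p _)
    · have h3 := Et_vb K v
      unfold va vb at h3
      have : CharP (Polynomial (T V K)) p := inferInstance
      rw [h3, add_pow_char, mul_pow, ← map_pow, ← map_pow]
      exact LpP_add p (LpP_C p (Lp_Xp p _)) (LpP_mul p (LpP_Xpow p p) (LpP_C p (Lp_Xp p _)))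
theorem F_Lp (l : V) (k : ℕ) {f : T V K} (hf : f ∈ Lp p K l) : F K k f ∈ Lp p K l := by
  refine LpP_hom p (Ft K) ?_ ?_ hf k
  · rintro ⟨v, b⟩ hx
    simp only at hx
    cases b
    · have h3 := Ft_va K v
      unfold va vb at h3
      rw [h3]
      refine LpP_add p (LpP_C p (Lp_X p hx)) (LpP_mul p ?_ (LpP_C p (Lp_X p hx)))
      have := LpP_Xpow (K := K) p (l := l) 1
      rwa [pow_one] at this
    · have h3 := Ft_vb K v
      unfold vb at h3
      rw [h3]
      exact LpP_C p (Lp_X p hx)
  · rintro ⟨v, b⟩ hx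
    simp only at hx
    subst hx
    cases b
    · have h3 := Ft_va K v
      unfold va vb at h3
      have : CharP (Polynomial (T V K)) p := inferInstance
      rw [h3, add_pow_char, mul_pow, ← map_pow, ← map_pow]
      exact LpP_add p (LpP_C p (Lp_Xp p _)) (LpP_mul p (LpP_Xpow p p) (LpP_C p (Lp_Xp p _)))
    · have h3 := Ft_vb K v
      unfold vb at h3
      rw [h3, ← map_pow]
      exact LpP_C p (Lp_Xp p _)

private lemma E_one_apow (l : V) (n : ℕ) : E K 1 (va K l ^ n) = 0 := by
  induction n with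
  | zero =>
    rw [pow_zero]
    have := E_C (V := V) K 1 le_rfl (1 : K)
    rwa [C_1] at this
  | succ n ih => rw [pow_succ, E_one_mul, ih, E_va K 1 le_rfl, zero_mul, mul_zero, add_zero]

private lemma F_one_bpow (l : V) (n : ℕ) : F K 1 (vb K l ^ n) = 0 := by
  induction n with
  | zero =>
    rw [pow_zero]
    have := F_C (V := V) K 1 le_rfl (1 : K)
    rwa [C_1] at this
  | succ n ih => rw [pow_succ, F_one_mul, ih, F_vb K 1 le_rfl, zero_mul, mul_zero, add_zero]

private lemma E_one_bpow (l : V) (n : ℕ) :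
    E K 1 (vb K l ^ n) = (n : K) • (va K l * vb K l ^ (n - 1)) := by
  induction n with
  | zero =>
    rw [pow_zero, Nat.cast_zero, zero_smul]
    have := E_C (V := V) K 1 le_rfl (1 : K)
    rwa [C_1] at this
  | succ n ih =>
    rw [pow_succ, E_one_mul, ih, E_one_vb, Nat.add_sub_cancel]
    rcases Nat.eq_zero_or_pos n with h0 | h0
    · subst h0
      simp
    · have h1 : vb K l ^ (n - 1) * vb K l = vb K l ^ n := by
        rw [← pow_succ]; congr 1; omega
      rw [smul_mul_assoc, mul_assoc, h1, Nat.cast_succ, add_smul, one_smul]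
      ring

private lemma F_one_apow (l : V) (n : ℕ) :
    F K 1 (va K l ^ n) = (n : K) • (va K l ^ (n - 1) * vb K l) := by
  induction n with
  | zero =>
    rw [pow_zero, Nat.cast_zero, zero_smul]
    have := F_C (V := V) K 1 le_rfl (1 : K)
    rwa [C_1] at this
  | succ n ih =>
    rw [pow_succ, F_one_mul, ih, F_one_va, Nat.add_sub_cancel]
    rcases Nat.eq_zero_or_pos n with h0 | h0
    · subst h0
      simp
    · have h1 : va K l ^ (n - 1) * va K l = va K l ^ n := by
        rw [← pow_succ]; congr 1; omega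
      rw [smul_mul_assoc, mul_right_comm, h1, Nat.cast_succ, add_smul, one_smul]

private lemma castK : ((p : ℕ) : K) = 0 := CharP.cast_eq_zero K p

theorem qe_E1 {l : V} {d : V →₀ ℕ} {w : ℤ} (hl : p ∣ d l + 1) {x : T V K} (hx : x ∈ S K d w) {α : ℕ}
    (hα : α < p) : qe p l α (E K 1 x) = E K 1 (qe p l α x) - (α : K) • qe p l (α - 1) x := by
  have hp := (Fact.out : p.Prime).pos
  have h1 : ∀ β ∈ range p, qe p l α (E K 1 (va K l ^ β * vb K l ^ (p - 1 - β) * qe p l β x)) =
      (if β + 1 = α then ((p - 1 - β : ℕ) : K) • qe p l β x else 0) +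
      (if β = α then E K 1 (qe p l β x) else 0) := by
    intro β hβ
    rw [mem_range] at hβ
    have e1 : E K 1 (va K l ^ β * vb K l ^ (p - 1 - β) * qe p l β x) =
        ((p - 1 - β : ℕ) : K) • (va K l ^ (β + 1) * vb K l ^ (p - 1 - (β + 1)) * qe p l β x) +
        va K l ^ β * vb K l ^ (p - 1 - β) * E K 1 (qe p l β x) := by
      rw [E_one_mul, E_one_mul, E_one_apow, E_one_bpow, zero_mul, zero_add, pow_succ,
        show p - 1 - (β + 1) = p - 1 - β - 1 by omega, mul_smul_comm, smul_mul_assoc]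
      congr 2
      ring
    rw [e1, map_add, map_smul]
    congr 1
    · rcases Nat.lt_or_ge (β + 1) p with h2 | h2
      · rw [qe_mul p l h2 (qe_mem_Lp p l β x), smul_ite, smul_zero]
      · have h3 : p - 1 - β = 0 := by omega
        rw [h3, Nat.cast_zero, zero_smul, zero_smul, ite_self]
    · rw [qe_mul p l hβ (E_Lp p l 1 (qe_mem_Lp p l β x))]
  conv_lhs => rw [recon p hl hx, map_sum, map_sum, sum_congr rfl h1, sum_add_distrib]
  have h2 : ∑ β ∈ range p, (if β = α then E K 1 (qe p l β x) else 0) = E K 1 (qe p l α x) := by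
    rw [Finset.sum_ite_eq' (range p) α (fun β => E K 1 (qe p l β x)), if_pos (mem_range.mpr hα)]
  have h3 : ∑ β ∈ range p, (if β + 1 = α then ((p - 1 - β : ℕ) : K) • qe p l β x else 0) =
      -((α : K) • qe p l (α - 1) x) := by
    rcases Nat.eq_zero_or_pos α with h0 | h0
    · subst h0
      rw [Finset.sum_eq_zero, Nat.cast_zero, zero_smul, neg_zero]
      intro β _
      rw [if_neg (by omega)]
    · rw [Finset.sum_eq_single (α - 1)]
      · rw [if_pos (by omega), ← neg_smul]
        congr 1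
        have h4 : p - 1 - (α - 1) = p - α := by omega
        rw [h4, Nat.cast_sub hα.le, castK, zero_sub]
      · intro β _ hβ
        rw [if_neg (by omega)]
      · intro h
        exact absurd (mem_range.mpr (by omega)) h
  rw [h2, h3]
  ring
theorem qe_F1 {l : V} {d : V →₀ ℕ} {w : ℤ} (hl : p ∣ d l + 1) {x : T V K} (hx : x ∈ S K d w) {α : ℕ}
    (hα : α < p) :
    qe p l α (F K 1 x) = F K 1 (qe p l α x) + ((α + 1 : ℕ) : K) • qe p l (α + 1) x := by
  have hp := (Fact.out : p.Prime).pos
  have h1 : ∀ β ∈ range p, qe p l α (F K 1 (va K l ^ β * vb K l ^ (p - 1 - β) * qe p l β x)) =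
      (if β = α + 1 then (β : K) • qe p l β x else 0) +
      (if β = α then F K 1 (qe p l β x) else 0) := by
    intro β hβ
    rw [mem_range] at hβ
    have e1 : F K 1 (va K l ^ β * vb K l ^ (p - 1 - β) * qe p l β x) =
        (β : K) • (va K l ^ (β - 1) * vb K l ^ (p - 1 - β + 1) * qe p l β x) +
        va K l ^ β * vb K l ^ (p - 1 - β) * F K 1 (qe p l β x) := by
      rw [F_one_mul, F_one_mul, F_one_apow, F_one_bpow, mul_zero, add_zero, pow_succ (vb K l),
        smul_mul_assoc, smul_mul_assoc]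
      congr 2
      ring
    rw [e1, map_add, map_smul]
    congr 1
    · rcases Nat.eq_zero_or_pos β with h2 | h2
      · subst h2
        rw [Nat.cast_zero, zero_smul, zero_smul, ite_self]
      · have h3 : p - 1 - β + 1 = p - 1 - (β - 1) := by omega
        rw [h3, qe_mul p l (by omega) (qe_mem_Lp p l β x), smul_ite, smul_zero]
        by_cases h4 : β = α + 1
        · rw [if_pos h4, if_pos (by omega)]
        · rw [if_neg h4, if_neg (by omega)]
    · rw [qe_mul p l hβ (F_Lp p l 1 (qe_mem_Lp p l β x))]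
  conv_lhs => rw [recon p hl hx, map_sum, map_sum, sum_congr rfl h1, sum_add_distrib]
  have h2 : ∑ β ∈ range p, (if β = α then F K 1 (qe p l β x) else 0) = F K 1 (qe p l α x) := by
    rw [Finset.sum_ite_eq' (range p) α (fun β => F K 1 (qe p l β x)), if_pos (mem_range.mpr hα)]
  have h3 : ∑ β ∈ range p, (if β = α + 1 then (β : K) • qe p l β x else 0) =
      ((α + 1 : ℕ) : K) • qe p l (α + 1) x := by
    rw [Finset.sum_ite_eq' (range p) (α + 1) (fun β => (β : K) • qe p l β x)]
    split_ifs with h4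
    · rfl
    · rw [mem_range] at h4
      have h5 : α + 1 = p := by omega
      rw [h5, castK, zero_smul]
  rw [h2, h3, add_comm]

end HKDet
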