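import Pool.Agent.Lib.HKDet.HD2

/-!
# HEx: the length of `L / m^[p]` is `dim_K Rp / (x_ij^p)`

The same as the beginning of `FSig/HKGen.lean` (module of helper11), for `e = 1` and any field `K` of characteristic `p`.
-/

namespace Pool.FSig

/-- evaluation at the origin as an algebra map -/
private noncomputable def hexE (m n : ℕ) (K : Type*) [Field K] :
    _root_.FSig.R3 m n K →ₐ[K] K :=
  { _root_.FSig.ev0 m n K with
    commutes' := by
      intro r
      have h1 : algebraMap K (_root_.FSig.R3 m n K) r =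
          Ideal.Quotient.mk (_root_.FSig.I3 m n K) (MvPolynomial.C r) := rfl
      show _root_.FSig.ev0 m n K (algebraMap K (_root_.FSig.R3 m n K) r) = _
      rw [h1, _root_.FSig.ev0, Ideal.Quotient.lift_mk, MvPolynomial.constantCoeff_C]
      rfl }

private theorem hexE_coe (m n : ℕ) (K : Type*) [Field K] :
    ((hexE m n K : _root_.FSig.R3 m n K →ₐ[K] K) : _root_.FSig.R3 m n K →+* K) =
      _root_.FSig.ev0 m n K := rfl

private theorem hex_xg_eq (m n : ℕ) (K : Type*) [Field K] (k : Fin (m * n)) :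
    xg m n K k = Ideal.Quotient.mk (_root_.FSig.I3 m n K)
      (MvPolynomial.X (finProdFinEquiv.symm k)) := by
  unfold xg xR
  rw [dif_pos ⟨(finProdFinEquiv.symm k).1.2, (finProdFinEquiv.symm k).2.2⟩]

private theorem hexE_xg (m n : ℕ) (K : Type*) [Field K] (k : Fin (m * n)) :
    hexE m n K (xg m n K k) = 0 := by
  show _root_.FSig.ev0 m n K (xg m n K k) = 0
  rw [hex_xg_eq, _root_.FSig.ev0, Ideal.Quotient.lift_mk, MvPolynomial.constantCoeff_X]

private theorem hex_jT_mk (m n : ℕ) (K : Type*) [Field K]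
    (f : MvPolynomial (Fin m × Fin n) K) :
    jT m n K (Ideal.Quotient.mk (_root_.FSig.I3 m n K) f) = _root_.FSig.toT m n K f := rfl

/-- `R3` and `Rp` are isomorphic -/
private noncomputable def hexEquiv (m n : ℕ) (K : Type*) [Field K] :
    _root_.FSig.R3 m n K ≃ₐ[K] _root_.FSig.Rp m n K :=
  AlgEquiv.ofBijective ((jT m n K).codRestrict (_root_.FSig.Rp m n K) (by
      intro x
      obtain ⟨f, rfl⟩ := Ideal.Quotient.mk_surjective x
      exact ⟨f, (hex_jT_mk m n K f).symm⟩))
    ⟨by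
      intro x y hxy
      have h := congrArg Subtype.val hxy
      exact jT_injective m n K h, by
      rintro ⟨y, f, rfl⟩
      exact ⟨Ideal.Quotient.mk _ f, Subtype.ext (hex_jT_mk m n K f)⟩⟩

private theorem hexEquiv_xg (m n : ℕ) (K : Type*) [Field K] (k : Fin (m * n)) :
    hexEquiv m n K (xg m n K k) =
      xRp m n K (finProdFinEquiv.symm k).1 (finProdFinEquiv.symm k).2 := by
  apply Subtype.ext
  rw [hex_xg_eq]
  exact hex_jT_mk m n K _

private theorem hex_finrank (m n : ℕ) (hm : 2 ≤ m) (hn : 2 ≤ n) (K : Type*) [Field K] (p : ℕ)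
    [Fact p.Prime] [CharP K p] :
    hk ((hexE m n K : _root_.FSig.R3 m n K →ₐ[K] K) : _root_.FSig.R3 m n K →+* K) (p ^ 1) =
      Module.finrank K (_root_.FSig.Rp m n K ⧸
          Ideal.span (Set.range fun ij : Fin m × Fin n => xRp m n K ij.1 ij.2 ^ p)) := by
  have h1 := frobPow_eq p (xg m n K) (isChart_jQ m n hm hn K).gen (hexE m n K)
    (hexE_xg m n K) 1
  unfold hk
  rw [h1]
  have h2 : (Ideal.span (Set.range fun ij : Fin m × Fin n => xRp m n K ij.1 ij.2 ^ p)) =
      (Ideal.span (Set.range fun k => xg m n K k ^ (p ^ 1))).map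
        ((hexEquiv m n K : _root_.FSig.R3 m n K ≃ₐ[K] _root_.FSig.Rp m n K) :
          _root_.FSig.R3 m n K →+* _root_.FSig.Rp m n K) := by
    rw [Ideal.map_span]
    congr 1
    ext z
    constructor
    · rintro ⟨ij, rfl⟩
      refine ⟨xg m n K (finProdFinEquiv ij) ^ (p ^ 1), ⟨finProdFinEquiv ij, rfl⟩, ?_⟩
      have h3 := hexEquiv_xg m n K (finProdFinEquiv ij)
      rw [Equiv.symm_apply_apply] at h3
      show hexEquiv m n K _ = _
      rw [map_pow, h3, pow_one]
    · rintro ⟨_, ⟨k, rfl⟩, rfl⟩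
      refine ⟨finProdFinEquiv.symm k, ?_⟩
      have h3 := hexEquiv_xg m n K k
      show _ = hexEquiv m n K _
      rw [map_pow, h3, pow_one]
  exact (Ideal.quotientEquivAlg _ _ (hexEquiv m n K) h2).toLinearEquiv.finrank_eq

theorem hkLen_one (m n : ℕ) (hm : 2 ≤ m) (hn : 2 ≤ n) (K : Type*) [Field K] (p : ℕ)
    [Fact p.Prime] [CharP K p] :
    hkLen (_root_.FSig.L3 m n K) p =
      (Module.finrank K (_root_.FSig.Rp m n K ⧸ HKDet.Ip m n K p) : ℕ∞) := by
  have hp2 : 2 ≤ p := (Fact.out : p.Prime).two_le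
  have hch := isChart_jQ m n hm hn K
  have hprime : (RingHom.ker ((hexE m n K : _root_.FSig.R3 m n K →ₐ[K] K) :
      _root_.FSig.R3 m n K →+* K)).IsPrime := _root_.FSig.irr_isPrime m n K
  have hloc : IsLocalization.AtPrime (_root_.FSig.L3 m n K)
      (RingHom.ker ((hexE m n K : _root_.FSig.R3 m n K →ₐ[K] K) :
      _root_.FSig.R3 m n K →+* K)) :=
    (inferInstance : IsLocalization.AtPrime (_root_.FSig.L3 m n K) (_root_.FSig.irr m n K))
  have hlen : hkLen (_root_.FSig.L3 m n K) (p ^ 1) =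
      (hk ((hexE m n K : _root_.FSig.R3 m n K →ₐ[K] K) :
        _root_.FSig.R3 m n K →+* K) (p ^ 1) : ℕ∞) :=
    length_loc (L := _root_.FSig.L3 m n K) (xg m n K) hch.gen (hexE m n K)
      (hexE_xg m n K) p 1
      (spanMod_frob hch (hexE m n K) (hexE_xg m n K) (p ^ 1) (Nat.one_le_pow _ _ (by omega)))
  rw [hex_finrank m n hm hn K p, pow_one] at hlen
  exact hlen

end Pool.FSig
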