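import Pool.Agent.Lib.HKDet.JDefs
import Pool.Agent.Lib.HKDet.Core

/-!
# JH: `rr ≤ hh ≤ tt`

`J = jI K R C`, `N = NrmL p`, `I = IS K w`. All spaces are finite dimensional (`finite_S`).
* `br_pow_expand`: `expand p (br i j) = br i j ^ p` (`sub_pow_char`-type lemma, `mul_pow`, `expand_X`).
* `mem_Fs_jI`: `Fr p J` is generated by the `expand p (br i j) = br i j ^ p` (`Ideal.map_span`). `f ∈ S K w z`, `f = ∑ a_k br_k ^ p`: take the component of degree `(w, z)` of every term: `br i j ^ p` has degree `(single i p + single j p, 0)` (`pow_mem_S`), so the component of `a * br ^ p` is `a' * br ^ p`, `a'` the component of `a` of degree `(e, z)`,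
  `e + single i p + single j p = w`, or `0` if there is no such `e`. Conversely clear.
* `norm_image`: if `p - 1 ≤ w v` for some `v`: `N` maps `S K w 0` onto `IS K w` (`NrmL_mem_IS`, `exists_norm`).
* `norm_Fs_jI`: `N (Fs J w 0) ≤ mm`: `N (br ^ p * y) = br ^ p * N y` (`NrmL_pow_mul`), `N y ∈ IS K e` (`NrmL_mem_IS`, `e.degree ≤ w.degree`).
* `mm_le`: `mm K p R C w ≤ IS K w ⊓ Fs p J w 0` (`br_mem_Inv`, `Inv` is a subalgebra, `mul_mem_S`, `pow_mem_S`, `mem_Fs_jI`).
* `rr_le_hh`: `rr J ⊤ = dim (Fs J ⊔ I) - dim (Fs J) = dim I - dim (I ⊓ Fs J) ≤ dim I - dim mm` (`Submodule.finrank_sup_add_finrank_inf_eq`, `Submodule.finrank_mono`; `Fs p ⊤ w 0 = S K w 0`, as `Fr p ⊤ = ⊤`).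
* `dim_le_tt`: let `X = Fs J w 0 ⊔ gS ⊤ w ≤ S K w 0`; `N (S) = I`, `N X = N (Fs J w 0)` (`NrmL_gS`), so `dim I - dim N (Fs J) ≤ dim S - dim X = tt J ⊤` (rank-nullity: `dim S - dim X ≥ dim N S - dim N X`, as `ker N ⊓ X ≤ ker N`).
* `hh_le_tt`: `norm_Fs_jI` and `dim_le_tt`.
* `hh_le_tt_sub`: let `r = w - single i p - single j p`, all entries `≤ p - 1`. A pair `(i', j')`, `i' ∈ R`, `j' ∈ C`, `e + single i' p + single j' p = w` has `w i' ≥ p`, `w j' ≥ p`, so `i' = i` (`i' ≠ j` since `R`, `C` are disjoint; if `i' ≠ i, j` then `w i' = r i' ≤ p - 1`), `j' = j`, `e = r`.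
  So `mm = br i j ^ p * IS K r` (image of `IS K r` under the injective map `g ↦ br i j ^ p * g`), `dim mm = invN r` (`finrank_Inv`), and `N (Fs J w 0) = br i j ^ p * N (S K r 0)` (`mem_Fs_jI`), of dimension `rr ⊥ ⊤ r = invN r - fus p r` (`rr_SS_small`; `Fs p ⊥ = ⊥`). `dim_le_tt`: `hh = dim I - invN r = (dim I - dim N (Fs J)) - fus p r ≤ tt - fus p r`.
-/

namespace HKDet

open MvPolynomial FSig

variable {V : Type*} {K : Type*} [Field K] {p : ℕ} [Fact p.Prime] [CharP K p]
variable {R C : Finset V} {w : V →₀ ℕ}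

theorem br_pow_expand (i j : V) : expand p (br K i j) = br K i j ^ p := by
  exact expand_br p i j

private lemma JH_pow_mem (i j : V) :
    br K i j ^ p ∈ S K (Finsupp.single i p + Finsupp.single j p) 0 := by
  have h := pow_mem_S K (br_mem_S K i j) p
  have e1 : p • (Finsupp.single i 1 + Finsupp.single j 1 : V →₀ ℕ) =
      Finsupp.single i p + Finsupp.single j p := by
    rw [smul_add, Finsupp.smul_single, Finsupp.smul_single, smul_eq_mul, mul_one]
  rw [e1, mul_zero] at h
  exact h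

private def JH_set (K : Type*) [Field K] (p : ℕ) (R C : Finset V) (w : V →₀ ℕ) (z : ℤ) :
    Set (T V K) :=
  {f : T V K | ∃ i ∈ R, ∃ j ∈ C, ∃ e : V →₀ ℕ, ∃ g ∈ S K e z,
      e + Finsupp.single i p + Finsupp.single j p = w ∧ f = br K i j ^ p * g}

private lemma JH_Fr (R C : Finset V) : Fr p (jI K R C) =
    Ideal.span {f : T V K | ∃ i ∈ R, ∃ j ∈ C, f = br K i j ^ p} := by
  unfold Fr jI
  rw [Ideal.map_span]
  congr 1
  ext f
  constructor
  · rintro ⟨_, ⟨i, hi, j, hj, rfl⟩, rfl⟩
    exact ⟨i, hi, j, hj, expand_br p i j⟩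
  · rintro ⟨i, hi, j, hj, rfl⟩
    exact ⟨br K i j, ⟨i, hi, j, hj, rfl⟩, expand_br p i j⟩

private lemma JH_comp (R C : Finset V) {f : T V K} (hf : f ∈ Fr p (jI K R C)) :
    ∀ (a : T V K) (w : V →₀ ℕ) (z : ℤ),
      weightedHomogeneousComponent (gr (V := V)) (w, z) (a * f) ∈
        Submodule.span K (JH_set K p R C w z) := by
  rw [JH_Fr] at hf
  refine Submodule.span_induction (p := fun f _ => ∀ (a : T V K) (w : V →₀ ℕ) (z : ℤ),
      weightedHomogeneousComponent (gr (V := V)) (w, z) (a * f) ∈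
        Submodule.span K (JH_set K p R C w z)) ?_ ?_ ?_ ?_ hf
  · rintro _ ⟨i, hi, j, hj, rfl⟩ a w z
    classical
    obtain ⟨s, hs⟩ := exists_sum_component K a
    have ha : a * br K i j ^ p = ∑ l ∈ s,
        weightedHomogeneousComponent (gr (V := V)) l a * br K i j ^ p := by
      conv_lhs => rw [hs, Finset.sum_mul]
    rw [ha, map_sum]
    refine Submodule.sum_mem _ fun l _ => ?_
    obtain ⟨e, u⟩ := l
    have h1 : br K i j ^ p * weightedHomogeneousComponent (gr (V := V)) (e, u) a ∈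
        S K (Finsupp.single i p + Finsupp.single j p + e) (0 + u) :=
      mul_mem_S K (JH_pow_mem i j) (component_mem K a e u)
    rw [mul_comm (weightedHomogeneousComponent (gr (V := V)) (e, u) a)]
    have h2 : br K i j ^ p * weightedHomogeneousComponent (gr (V := V)) (e, u) a ∈
        weightedHomogeneousSubmodule K (gr (V := V))
          (Finsupp.single i p + Finsupp.single j p + e, 0 + u) := h1
    rw [weightedHomogeneousComponent_of_mem (m := (w, z)) h2]
    split_ifs with h3
    · rw [Prod.mk.injEq] at h3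
      obtain ⟨h4, h5⟩ := h3
      refine Submodule.subset_span ⟨i, hi, j, hj, e, _, component_mem K a e z, ?_, ?_⟩
      · rw [h4]
        abel
      · rw [h5, zero_add]
    · exact Submodule.zero_mem _
  · intro a w z
    rw [mul_zero, map_zero]
    exact Submodule.zero_mem _
  · intro x y _ _ hx hy a w z
    rw [mul_add, map_add]
    exact Submodule.add_mem _ (hx a w z) (hy a w z)
  · intro b x _ hx a w z
    rw [smul_eq_mul, ← mul_assoc]
    exact hx (a * b) w z

theorem mem_Fs_jI {z : ℤ} {f : T V K} : f ∈ Fs p (jI K R C) w z ↔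
    f ∈ Submodule.span K {f : T V K | ∃ i ∈ R, ∃ j ∈ C, ∃ e : V →₀ ℕ, ∃ g ∈ S K e z,
      e + Finsupp.single i p + Finsupp.single j p = w ∧ f = br K i j ^ p * g} := by
  change _ ↔ f ∈ Submodule.span K (JH_set K p R C w z)
  constructor
  · rintro ⟨h1, h2⟩
    have h3 := JH_comp R C h1 1 w z
    have h4 : f ∈ weightedHomogeneousSubmodule K (gr (V := V)) (w, z) := h2
    classical
    rw [one_mul, weightedHomogeneousComponent_of_mem (m := (w, z)) h4, if_pos rfl] at h3
    exact h3
  · intro hf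
    refine (Submodule.span_le (p := Fs p (jI K R C) w z)).2 ?_ hf
    rintro _ ⟨i, hi, j, hj, e, g, hg, rfl, rfl⟩
    refine ⟨?_, ?_⟩
    · have h1 : expand p (br K i j) ∈ Fr p (jI K R C) :=
        expand_mem_Fr p (Ideal.subset_span ⟨i, hi, j, hj, rfl⟩)
      rw [expand_br] at h1
      exact Ideal.mul_mem_right _ _ h1
    · have h1 := mul_mem_S K (JH_pow_mem (p := p) i j) hg
      have e1 : Finsupp.single i p + Finsupp.single j p + e =
          e + Finsupp.single i p + Finsupp.single j p := by abel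
      rw [e1, zero_add] at h1
      exact h1

private lemma JH_deg {e : V →₀ ℕ} {i j : V} :
    e.degree ≤ (e + Finsupp.single i p + Finsupp.single j p).degree := by
  rw [map_add, map_add, add_assoc]
  exact Nat.le_add_right _ _

private lemma JH_Inv (i j : V) : br K i j ^ p ∈ Inv (V := V) K :=
  pow_mem (br_mem_Inv K i j) p

private lemma JH_ne {i j : V} (h : i ≠ j) : br K i j ≠ 0 := by
  classical
  intro h0
  have h1 := congrArg (MvPolynomial.eval fun x : V × Bool =>
    if x = (i, false) ∨ x = (j, true) then (1 : K) else 0) h0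
  simp [br, va, vb, h, h.symm] at h1

private lemma JH_rn (f : T V K →ₗ[K] T V K) (S : Submodule K (T V K)) [FiniteDimensional K S] :
    Module.finrank K ↥(S.map f) + Module.finrank K ↥(S ⊓ LinearMap.ker f) =
      Module.finrank K S := by
  have h := LinearMap.finrank_range_add_finrank_ker (f.domRestrict S)
  have h1 : LinearMap.range (f.domRestrict S) = S.map f := LinearMap.range_domRestrict S f
  have h2 : LinearMap.ker (f.domRestrict S) = (S ⊓ LinearMap.ker f).comap S.subtype := by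
    ext x
    simp [LinearMap.mem_ker, LinearMap.domRestrict_apply]
  have h3 : Module.finrank K ↥((S ⊓ LinearMap.ker f).comap S.subtype) =
      Module.finrank K ↥(S ⊓ LinearMap.ker f) :=
    LinearEquiv.finrank_eq (Submodule.comapSubtypeEquivOfLe inf_le_left)
  rw [h1, h2, h3] at h
  exact h

private lemma JH_mulmap {x : T V K} (hx : x ≠ 0) (S : Submodule K (T V K)) :
    Module.finrank K ↥(S.map (LinearMap.mulLeft K x)) = Module.finrank K S := by
  have hinj : Function.Injective (LinearMap.mulLeft K x) := by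
    intro a b hab
    exact mul_left_cancel₀ hx hab
  exact (LinearEquiv.finrank_eq (Submodule.equivMapOfInjective _ hinj S)).symm

variable [DecidableEq V] [Infinite V]

theorem norm_image {v : V} (hv : p - 1 ≤ w v) (hd : w.degree < 2 * p * (p - 1)) :
    (S K w 0).map (NrmL p) = IS K w := by
  apply le_antisymm
  · rintro _ ⟨f, hf, rfl⟩
    exact NrmL_mem_IS p hd hf
  · intro f hf
    obtain ⟨u, hu, hu'⟩ := exists_norm p hv hf
    exact ⟨u, hu, hu'⟩

omit [Infinite V] in
theorem norm_Fs_jI (hd : w.degree < 2 * p * (p - 1)) :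
    (Fs p (jI K R C) w 0).map (NrmL p) ≤ mm K p R C w := by
  rw [Submodule.map_le_iff_le_comap]
  intro f hf
  rw [mem_Fs_jI] at hf
  refine (Submodule.span_le.2 ?_) hf
  rintro _ ⟨i, hi, j, hj, e, g, hg, rfl, rfl⟩
  change NrmL p (br K i j ^ p * g) ∈ mm K p R C _
  rw [NrmL_Inv_mul p (JH_Inv i j)]
  exact Submodule.subset_span ⟨i, hi, j, hj, e, _,
    NrmL_mem_IS p (lt_of_le_of_lt JH_deg hd) hg, rfl, rfl⟩

omit [Infinite V] in
theorem mm_le : mm K p R C w ≤ IS K w ⊓ Fs p (jI K R C) w 0 := by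
  unfold mm
  rw [Submodule.span_le]
  rintro _ ⟨i, hi, j, hj, e, g, hg, rfl, rfl⟩
  obtain ⟨hg1, hg2⟩ := (mem_IS K).1 hg
  have h1 : br K i j ^ p * g ∈ Fs p (jI K R C)
      (e + Finsupp.single i p + Finsupp.single j p) 0 :=
    mem_Fs_jI.2 (Submodule.subset_span ⟨i, hi, j, hj, e, g, hg1, rfl, rfl⟩)
  exact ⟨(mem_IS K).2 ⟨h1.2, mul_mem (JH_Inv i j) hg2⟩, h1⟩

theorem rr_le_hh {v : V} (hv : p - 1 ≤ w v) (hd : w.degree < 2 * p * (p - 1)) :
    rr p (jI K R C) ⊤ w ≤ hh K p R C w := by
  have := finite_Fs p (jI K R C) w 0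
  have hS : Module.Finite K (S K w 0) := finite_S K w 0
  have hI : Module.Finite K (IS K w) := Submodule.finiteDimensional_of_le
    (inf_le_left : IS K w ≤ S K w 0)
  unfold rr hh
  rw [Fs_top, norm_image hv hd]
  have e1 := Submodule.finrank_sup_add_finrank_inf_eq (Fs p (jI K R C) w 0) (IS K w)
  have e2 := Submodule.finrank_mono (R := K) (mm_le (K := K) (p := p) (R := R) (C := C) (w := w))
  rw [inf_comm] at e2
  omega

theorem dim_le_tt {v : V} (hv : p - 1 ≤ w v) (hd : w.degree < 2 * p * (p - 1)) :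
    (Module.finrank K (IS K w) : ℤ) -
      Module.finrank K ↥((Fs p (jI K R C) w 0).map (NrmL p)) ≤ tt p (jI K R C) ⊤ w := by
  have := finite_Fs p (jI K R C) w 0
  have hS : Module.Finite K (S K w 0) := finite_S K w 0
  unfold tt
  rw [Fs_top]
  set X : Submodule K (T V K) := Fs p (jI K R C) w 0 ⊔ gS p ⊤ w with hX
  have hXS : X ≤ S K w 0 := by
    refine sup_le ?_ ?_
    · have := Fs_mono p (le_top : jI K R C ≤ ⊤) w 0
      rwa [Fs_top] at this
    · have := gS_le p (good_top (K := K) (V := V)) w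
      rwa [Fs_top] at this
  have hXf : Module.Finite K X := Submodule.finiteDimensional_of_le hXS
  have e1 := JH_rn (NrmL p) (S K w 0)
  have e2 := JH_rn (NrmL p) X
  have e3 : X.map (NrmL p) = (Fs p (jI K R C) w 0).map (NrmL p) := by
    rw [hX, Submodule.map_sup]
    have e4 : (gS p (⊤ : Ideal (T V K)) w).map (NrmL p) = ⊥ := by
      rw [eq_bot_iff]
      rintro _ ⟨x, hx, rfl⟩
      rw [Submodule.mem_bot]
      exact NrmL_gS p hd hx
    rw [e4, sup_bot_eq]
  have hkf : Module.Finite K ↥(S K w 0 ⊓ LinearMap.ker (NrmL p)) :=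
    Submodule.finiteDimensional_of_le inf_le_left
  have e5 := Submodule.finrank_mono (R := K)
    (inf_le_inf_right (LinearMap.ker (NrmL (K := K) (V := V) p)) hXS)
  rw [norm_image hv hd] at e1
  rw [e3] at e2
  omega

theorem hh_le_tt {v : V} (hv : p - 1 ≤ w v) (hd : w.degree < 2 * p * (p - 1)) :
    hh K p R C w ≤ tt p (jI K R C) ⊤ w := by
  have hS : Module.Finite K (S K w 0) := finite_S K w 0
  have hI : Module.Finite K (IS K w) := Submodule.finiteDimensional_of_le
    (inf_le_left : IS K w ≤ S K w 0)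
  have hM : Module.Finite K (mm K p R C w) :=
    Submodule.finiteDimensional_of_le (mm_le.trans inf_le_left)
  have e1 := Submodule.finrank_mono (R := K) (norm_Fs_jI (K := K) (R := R) (C := C) hd)
  have e2 := dim_le_tt (K := K) (R := R) (C := C) hv hd
  unfold hh
  omega

theorem hh_le_tt_sub (hRC : Disjoint R C) {i j : V} (hi : i ∈ R) (hj : j ∈ C) (hwi : p ≤ w i)
    (hwj : p ≤ w j) (hs : ∀ v, (w - Finsupp.single i p - Finsupp.single j p) v ≤ p - 1)
    (hd : w.degree < 2 * p * (p - 1)) :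
    hh K p R C w ≤ tt p (jI K R C) ⊤ w - fus p (w - Finsupp.single i p - Finsupp.single j p) := by
  have hp : 0 < p := (Fact.out : p.Prime).pos
  have hij : i ≠ j := fun h => Finset.disjoint_left.1 hRC hi (h ▸ hj)
  set r : V →₀ ℕ := w - Finsupp.single i p - Finsupp.single j p with hr
  have hrv : ∀ v, r v = w v - (Finsupp.single i p : V →₀ ℕ) v - (Finsupp.single j p : V →₀ ℕ) v :=
    fun v => rfl
  have hrw : r + Finsupp.single i p + Finsupp.single j p = w := by
    ext v
    rw [Finsupp.add_apply, Finsupp.add_apply, hrv]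
    by_cases hvi : v = i
    · subst hvi
      rw [Finsupp.single_eq_same, Finsupp.single_eq_of_ne hij]
      omega
    · by_cases hvj : v = j
      · subst hvj
        rw [Finsupp.single_eq_same, Finsupp.single_eq_of_ne hvi]
        omega
      · rw [Finsupp.single_eq_of_ne hvi, Finsupp.single_eq_of_ne hvj]
        omega
  have hbig : ∀ v, p ≤ w v → v = i ∨ v = j := by
    intro v hv
    by_contra hcon
    rw [not_or] at hcon
    have h1 := hs v
    rw [hrv, Finsupp.single_eq_of_ne hcon.1, Finsupp.single_eq_of_ne hcon.2] at h1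
    omega
  have huniq : ∀ i' ∈ R, ∀ j' ∈ C, ∀ e : V →₀ ℕ,
      e + Finsupp.single i' p + Finsupp.single j' p = w → i' = i ∧ j' = j ∧ e = r := by
    intro i' hi' j' hj' e he
    have h1 : p ≤ w i' := by
      rw [← he, Finsupp.add_apply, Finsupp.add_apply, Finsupp.single_eq_same]
      omega
    have h2 : p ≤ w j' := by
      rw [← he, Finsupp.add_apply, Finsupp.single_eq_same]
      omega
    have h3 : i' = i := by
      rcases hbig i' h1 with h | h
      · exact h
      · exact absurd (h ▸ hj) (Finset.disjoint_left.1 hRC hi')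
    have h4 : j' = j := by
      rcases hbig j' h2 with h | h
      · exact absurd hj' (Finset.disjoint_left.1 hRC (h ▸ hi))
      · exact h
    subst h3 h4
    refine ⟨rfl, rfl, ?_⟩
    rw [← hrw] at he
    exact add_right_cancel (add_right_cancel he)
  have hx0 : br K i j ^ p ≠ 0 := pow_ne_zero p (JH_ne hij)
  have hmm : mm K p R C w = (IS K r).map (LinearMap.mulLeft K (br K i j ^ p)) := by
    apply le_antisymm
    · unfold mm
      rw [Submodule.span_le]
      rintro _ ⟨i', hi', j', hj', e, g, hg, he, rfl⟩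
      obtain ⟨rfl, rfl, rfl⟩ := huniq i' hi' j' hj' e he
      exact ⟨g, hg, rfl⟩
    · rintro _ ⟨g, hg, rfl⟩
      exact Submodule.subset_span ⟨i, hi, j, hj, r, g, hg, hrw, rfl⟩
  have hFs : Fs p (jI K R C) w 0 = (S K r 0).map (LinearMap.mulLeft K (br K i j ^ p)) := by
    apply le_antisymm
    · intro f hf
      rw [mem_Fs_jI] at hf
      refine (Submodule.span_le.2 ?_) hf
      rintro _ ⟨i', hi', j', hj', e, g, hg, he, rfl⟩
      obtain ⟨rfl, rfl, rfl⟩ := huniq i' hi' j' hj' e he
      exact ⟨g, hg, rfl⟩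
    · rintro _ ⟨g, hg, rfl⟩
      exact mem_Fs_jI.2 (Submodule.subset_span ⟨i, hi, j, hj, r, g, hg, hrw, rfl⟩)
  have hN : (Fs p (jI K R C) w 0).map (NrmL p) =
      ((S K r 0).map (NrmL p)).map (LinearMap.mulLeft K (br K i j ^ p)) := by
    rw [hFs]
    apply le_antisymm
    · rintro _ ⟨_, ⟨g, hg, rfl⟩, rfl⟩
      exact ⟨NrmL p g, ⟨g, hg, rfl⟩, (NrmL_Inv_mul p (JH_Inv i j) g).symm⟩
    · rintro _ ⟨_, ⟨g, hg, rfl⟩, rfl⟩
      exact ⟨br K i j ^ p * g, ⟨g, hg, rfl⟩, NrmL_Inv_mul p (JH_Inv i j) g⟩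
  have hrd : r.degree < 2 * p * (p - 1) := by
    refine lt_of_le_of_lt ?_ hd
    rw [← hrw]
    exact JH_deg
  have e1 := rr_SS_small (K := K) p hs hrd
  unfold rr at e1
  rw [Fs_bot, Fs_top, bot_sup_eq, finrank_bot] at e1
  have e2 := dim_le_tt (K := K) (R := R) (C := C) (v := i) (by omega) hd
  rw [hN, JH_mulmap hx0] at e2
  have e3 := finrank_Inv K p r
  unfold hh
  rw [hmm, JH_mulmap hx0]
  push_cast at e1
  omega

end HKDet
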