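import Pool.Agent.Lib.HKDet.JA
import Pool.Agent.Lib.HKDet.Core

/-!
# JG: second isomorphism theorem for the pairs, lower and upper bounds for `A ⊓ B`

`Fs_inf`: `Fr_inf`. `Fs_sup`: `Fr_sup`; `f = a + b ∈ S K d w` with `a ∈ Fr A`, `b ∈ Fr B`: take the components (`component_mem_Fr`, `weightedHomogeneousComponent_of_mem`-like).
Put `X_w = Fs A d w`, `Y_w = Fs B d w`, `X = X_0`, `Y = Y_0`, `g(·)` for the images under `E 1, F 1, E p, F p` (linear and monotone in the family `Fs`), `N = NrmL p`. All spaces are finite dimensional (`finite_S`). Dimension formula: `Submodule.finrank_sup_add_finrank_inf_eq`; modular law `(gA ⊔ Y) ⊓ X = gA ⊔ (Y ⊓ X)` for `gA ≤ X` (`Submodule`-lattice is modular: `IsModularLattice`).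
* `tt_inf_eq`: `gS (A ⊔ B) = gS A ⊔ gS B` (`Fs_sup`, `Submodule.map_sup`), `gS B ≤ Y` (`E_mem_Fr`, `F_mem_Fr`, `E_mem_S`, ..), `gS A ≤ X`. `tt B (A ⊔ B) = dim (X ⊔ Y) - dim (Y ⊔ gS A ⊔ gS B) = dim (X ⊔ Y) - dim (Y ⊔ gS A)`. `dim (X ⊔ Y) = dim X + dim Y - dim (X ⊓ Y)`. `dim (Y ⊔ gS A) = dim Y + dim (gS A ⊔ (X ⊓ Y)) - dim (X ⊓ Y)`
  [since `Y ⊔ gS A = Y ⊔ (gS A ⊔ (X ⊓ Y))` and `Y ⊓ (gS A ⊔ (X ⊓ Y)) = X ⊓ Y`: `≤`: such an element is in `X` and in `Y`]. So it is `dim X - dim ((X ⊓ Y) ⊔ gS A) = tt (A ⊓ B) A`.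
* `rr_inf_eq`: `N X ≤ X`, `N Y ≤ Y` (`NrmL_mem_Fs`). `rr B (A ⊔ B) = dim (Y ⊔ N X) - dim Y = dim N X - dim (N X ⊓ Y)`, `rr (A ⊓ B) A = dim ((X ⊓ Y) ⊔ N X) - dim (X ⊓ Y) = dim N X - dim (N X ⊓ X ⊓ Y)`, equal as `N X ≤ X`.
* `tt_inf_le`: `tt_le` for `A ⊓ B ≤ A ≤ ⊤` and `tt_inf_eq`.
* `rr_inf_ge`. Let `M = N (S K d 0)`. `rr P ⊤ = dim (Fs P ⊔ M) - dim (Fs P) = dim M - dim (M ⊓ Fs P)` for every good `P`. `dim (M ⊓ X ⊓ Y) = dim (M ⊓ X) + dim (M ⊓ Y) - dim ((M ⊓ X) ⊔ (M ⊓ Y))`. So `rr (A ⊓ B) ⊤ = rr A ⊤ + rr B ⊤ - z`, `z = dim M - dim Z'`, `Z' = (M ⊓ X) ⊔ (M ⊓ Y)`. The preimage of `Z'` under `N : S K d 0 → M` (surjective) contains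
  `Fs (A ⊔ B) d 0 ⊔ gS ⊤ d` (`N X ≤ M ⊓ X`, `NrmL_gS`), so `z ≤ dim S - dim (Fs (A ⊔ B) d 0 ⊔ gS ⊤ d) = tt (A ⊔ B) ⊤`.
* `rr_inf_ge'`. Let `Z = {x ∈ S K d 0 | N x ∈ X}`, `G = gS ⊤ d`. `Z` contains `X ⊔ G`, and `dim S - dim Z = dim (N S) - dim (N S ⊓ X) = rr A ⊤`, `dim S - dim (X ⊔ G) = tt A ⊤`, so `dim Z - dim (X ⊔ G) = tt A ⊤ - rr A ⊤`. `N` maps `Z ⊔ (X ⊔ Y) ⊔ G` into `Z'`, so `z ≤ dim S - dim (Z ⊔ (X ⊔ Y ⊔ G)) = dim S - dim (X ⊔ Y ⊔ G) - (dim Z - dim (Z ⊓ (X ⊔ Y ⊔ G)))`.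
  `Z ⊓ (X ⊔ Y ⊔ G) = X ⊔ G`: let `x = y + g`, `y ∈ X ⊔ Y = Fs (A ⊔ B) d 0`, `g ∈ G`, `N x ∈ X`; `N x = N y`. By `h` (`tt A (A ⊔ B) = rr A (A ⊔ B)`) the map `Fs (A ⊔ B) / (X ⊔ gS (A ⊔ B)) → (X ⊔ N Fs (A ⊔ B)) / X` induced by `N` is injective (surjective between spaces of the same dimension), so `N y ∈ X` implies
  `y ∈ X ⊔ gS (A ⊔ B) ≤ X ⊔ G`. So `z ≤ tt (A ⊔ B) ⊤ - (tt A ⊤ - rr A ⊤)` and `rr (A ⊓ B) ⊤ ≥ rr A ⊤ + rr B ⊤ - tt (A ⊔ B) ⊤ + tt A ⊤ - rr A ⊤`.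
-/

namespace HKDet

open MvPolynomial FSig

section aux

open Module

variable {K X : Type*} [Field K] [AddCommGroup X] [Module K X]

private theorem jg_rn {Y : Type*} [AddCommGroup Y] [Module K Y] (f : X →ₗ[K] Y)
    (S : Submodule K X) [FiniteDimensional K S] :
    finrank K ↥(S.map f) + finrank K ↥(S ⊓ LinearMap.ker f) = finrank K S := by
  have h := LinearMap.finrank_range_add_finrank_ker (f.domRestrict S)
  have h1 : LinearMap.range (f.domRestrict S) = S.map f := LinearMap.range_domRestrict S f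
  have h2 : LinearMap.ker (f.domRestrict S) = (S ⊓ LinearMap.ker f).comap S.subtype := by
    ext x
    simp [LinearMap.mem_ker, LinearMap.domRestrict_apply]
  have h3 : finrank K ↥((S ⊓ LinearMap.ker f).comap S.subtype) =
      finrank K ↥(S ⊓ LinearMap.ker f) :=
    LinearEquiv.finrank_eq (Submodule.comapSubtypeEquivOfLe inf_le_left)
  rw [h1, h2, h3] at h
  exact h

private theorem jg_mk (P B : Submodule K X) [FiniteDimensional K P] [FiniteDimensional K B] :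
    finrank K ↥(B.map P.mkQ) + finrank K P = finrank K ↥(P ⊔ B) := by
  have h := jg_rn P.mkQ (P ⊔ B)
  have h1 : (P ⊔ B).map P.mkQ = B.map P.mkQ := by
    rw [Submodule.map_sup]
    have : P.map P.mkQ = ⊥ := by
      rw [eq_bot_iff]
      rintro _ ⟨x, hx, rfl⟩
      rw [Submodule.mem_bot, Submodule.mkQ_apply, Submodule.Quotient.mk_eq_zero]
      exact hx
    rw [this, bot_sup_eq]
  have h2 : (P ⊔ B) ⊓ LinearMap.ker P.mkQ = P := by
    rw [Submodule.ker_mkQ]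
    exact inf_eq_right.mpr le_sup_left
  rw [h1, h2] at h
  exact h

/-- rank-nullity for `Q → X / P` -/
private theorem jg_rA (ν : X →ₗ[K] X) (P Q : Submodule K X) [FiniteDimensional K P]
    [FiniteDimensional K Q] :
    (finrank K ↥(P ⊔ Q.map ν) : ℤ) - finrank K P + finrank K ↥(Q ⊓ P.comap ν) = finrank K Q := by
  have h := jg_rn (P.mkQ.comp ν) Q
  have h1 : Q.map (P.mkQ.comp ν) = (Q.map ν).map P.mkQ := Submodule.map_comp _ _ _
  have h2 : Q ⊓ LinearMap.ker (P.mkQ.comp ν) = Q ⊓ P.comap ν := by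
    rw [LinearMap.ker_comp, Submodule.ker_mkQ]
  rw [h1, h2] at h
  have h3 := jg_mk P (Q.map ν)
  omega

private theorem jg_core {A B G : Submodule K X} [FiniteDimensional K A] [FiniteDimensional K B]
    (hG : G ≤ A) :
    finrank K ↥(B ⊔ G) + finrank K ↥(A ⊓ B) = finrank K ↥((A ⊓ B) ⊔ G) + finrank K B := by
  have hGf : FiniteDimensional K G := Submodule.finiteDimensional_of_le hG
  have hI : FiniteDimensional K ↥(A ⊓ B) := Submodule.finiteDimensional_of_le inf_le_left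
  have e := Submodule.finrank_sup_add_finrank_inf_eq ((A ⊓ B) ⊔ G) B
  have e1 : ((A ⊓ B) ⊔ G) ⊔ B = B ⊔ G := by
    apply le_antisymm
    · exact sup_le (sup_le (inf_le_right.trans le_sup_left) le_sup_right) le_sup_left
    · exact sup_le le_sup_right (le_sup_right.trans le_sup_left)
  have e2 : ((A ⊓ B) ⊔ G) ⊓ B = A ⊓ B := by
    apply le_antisymm
    · exact le_inf (inf_le_left.trans (sup_le inf_le_left hG)) inf_le_right
    · exact le_inf le_sup_left inf_le_right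
  rw [e1, e2] at e
  omega

/-- `dim (P ⊔ M) - dim P = dim M - dim (M ⊓ P)` -/
private theorem jg_dim (P M : Submodule K X) [FiniteDimensional K P] [FiniteDimensional K M] :
    (finrank K ↥(P ⊔ M) : ℤ) - finrank K P = finrank K M - finrank K ↥(M ⊓ P) := by
  have e := Submodule.finrank_sup_add_finrank_inf_eq P M
  rw [inf_comm] at e
  omega

/-- `r(A ⊓ B) = r(A) + r(B) - z`, `z = dim S - dim (preimage of (M ⊓ A) ⊔ (M ⊓ B))` -/
private theorem jg_main (ν : X →ₗ[K] X) (A B S : Submodule K X) [FiniteDimensional K S]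
    (hA : A ≤ S) (hB : B ≤ S) :
    (finrank K ↥((A ⊓ B) ⊔ S.map ν) : ℤ) - finrank K ↥(A ⊓ B)
      = ((finrank K ↥(A ⊔ S.map ν) : ℤ) - finrank K A)
        + ((finrank K ↥(B ⊔ S.map ν) : ℤ) - finrank K B)
        - ((finrank K S : ℤ) - finrank K ↥(S ⊓ ((S.map ν ⊓ A) ⊔ (S.map ν ⊓ B)).comap ν)) := by
  have hAf : FiniteDimensional K A := Submodule.finiteDimensional_of_le hA
  have hBf : FiniteDimensional K B := Submodule.finiteDimensional_of_le hB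
  have hI : FiniteDimensional K ↥(A ⊓ B) := Submodule.finiteDimensional_of_le inf_le_left
  have hMA : FiniteDimensional K ↥(S.map ν ⊓ A) := Submodule.finiteDimensional_of_le inf_le_right
  have hMB : FiniteDimensional K ↥(S.map ν ⊓ B) := Submodule.finiteDimensional_of_le inf_le_right
  have e1 := jg_dim A (S.map ν)
  have e2 := jg_dim B (S.map ν)
  have e3 := jg_dim (A ⊓ B) (S.map ν)
  have e4 := Submodule.finrank_sup_add_finrank_inf_eq (S.map ν ⊓ A) (S.map ν ⊓ B)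
  have e5 : (S.map ν ⊓ A) ⊓ (S.map ν ⊓ B) = S.map ν ⊓ (A ⊓ B) := by
    rw [← inf_inf_distrib_left]
  rw [e5] at e4
  have e6 := jg_rA ν ((S.map ν ⊓ A) ⊔ (S.map ν ⊓ B)) S
  have e7 : ((S.map ν ⊓ A) ⊔ (S.map ν ⊓ B)) ⊔ S.map ν = S.map ν :=
    sup_eq_right.mpr (sup_le inf_le_left inf_le_left)
  rw [e7] at e6
  omega

end aux

variable {V : Type*} {K : Type*} [Field K] {p : ℕ} [Fact p.Prime] [CharP K p]
variable {A B : Ideal (T V K)} {d : V →₀ ℕ}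

private theorem jg_pos : 0 < p := (Fact.out : p.Prime).pos

theorem Fs_inf (w : ℤ) : Fs p (A ⊓ B) d w = Fs p A d w ⊓ Fs p B d w := by
  unfold Fs
  rw [Fr_inf (jg_pos (p := p))]
  ext f
  constructor
  · rintro ⟨⟨h1, h2⟩, h3⟩
    exact ⟨⟨h1, h3⟩, ⟨h2, h3⟩⟩
  · rintro ⟨⟨h1, h3⟩, ⟨h2, _⟩⟩
    exact ⟨⟨h1, h2⟩, h3⟩
theorem Fs_sup (hA : Good A) (hB : Good B) (w : ℤ) :
    Fs p (A ⊔ B) d w = Fs p A d w ⊔ Fs p B d w := by
  apply le_antisymm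
  · rintro f ⟨h1, h2⟩
    have h3 : f ∈ Fr p A ⊔ Fr p B := by
      have e : Fr p (A ⊔ B) = Fr p A ⊔ Fr p B := Ideal.map_sup _ _ _
      rw [← e]
      exact h1
    obtain ⟨a, ha, b, hb, hab⟩ := Submodule.mem_sup.1 h3
    have h4 : weightedHomogeneousComponent (gr (V := V)) (d, w) f = f := by
      have h5 : f ∈ weightedHomogeneousSubmodule K (gr (V := V)) (d, w) := h2
      rw [mem_weightedHomogeneousSubmodule] at h5
      exact h5.weightedHomogeneousComponent_same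
    rw [← h4, ← hab, map_add]
    exact Submodule.add_mem_sup ⟨component_mem_Fr p hA ha (d, w), component_mem K a d w⟩
      ⟨component_mem_Fr p hB hb (d, w), component_mem K b d w⟩
  · exact sup_le (Fs_mono p le_sup_left d w) (Fs_mono p le_sup_right d w)

theorem tt_inf_eq (hA : Good A) (hB : Good B) : tt p (A ⊓ B) A d = tt p B (A ⊔ B) d := by
  have hf1 := finite_Fs p A d 0
  have hf2 := finite_Fs p B d 0
  have e1 : gS p (A ⊔ B) d = gS p A d ⊔ gS p B d := by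
    unfold gS
    rw [Fs_sup hA hB, Fs_sup hA hB, Fs_sup hA hB, Fs_sup hA hB, Submodule.map_sup,
      Submodule.map_sup, Submodule.map_sup, Submodule.map_sup]
    ac_rfl
  have e2 : Fs p B d 0 ⊔ (gS p A d ⊔ gS p B d) = Fs p B d 0 ⊔ gS p A d := by
    apply le_antisymm
    · exact sup_le le_sup_left (sup_le le_sup_right ((gS_le p hB d).trans le_sup_left))
    · exact sup_le le_sup_left (le_sup_left.trans le_sup_right)
  have e3 := jg_core (B := Fs p B d 0) (gS_le p hA d)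
  have e4 := Submodule.finrank_sup_add_finrank_inf_eq (Fs p A d 0) (Fs p B d 0)
  unfold tt
  rw [e1, e2, Fs_inf, Fs_sup hA hB]
  omega
theorem rr_inf_eq (hA : Good A) (hB : Good B) : rr p (A ⊓ B) A d = rr p B (A ⊔ B) d := by
  have hf1 := finite_Fs p A d 0
  have hf2 := finite_Fs p B d 0
  have hNA : (Fs p A d 0).map (NrmL p) ≤ Fs p A d 0 := by
    rintro _ ⟨x, hx, rfl⟩
    exact NrmL_mem_Fs p hA hx
  have hNB : (Fs p B d 0).map (NrmL p) ≤ Fs p B d 0 := by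
    rintro _ ⟨x, hx, rfl⟩
    exact NrmL_mem_Fs p hB hx
  have e2 : Fs p B d 0 ⊔ ((Fs p A d 0).map (NrmL p) ⊔ (Fs p B d 0).map (NrmL p)) =
      Fs p B d 0 ⊔ (Fs p A d 0).map (NrmL p) := by
    apply le_antisymm
    · exact sup_le le_sup_left (sup_le le_sup_right (hNB.trans le_sup_left))
    · exact sup_le le_sup_left (le_sup_left.trans le_sup_right)
  have e3 := jg_core (B := Fs p B d 0) hNA
  unfold rr
  rw [Fs_inf, Fs_sup hA hB, Submodule.map_sup, e2]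
  omega

theorem tt_inf_le (hA : Good A) (hB : Good B) :
    tt p (A ⊓ B) ⊤ d ≤ tt p A ⊤ d + tt p B (A ⊔ B) d := by
  have h := tt_le p (P := A ⊓ B) (P' := A) (Q := ⊤) (d := d) inf_le_left le_top hA good_top
  rw [tt_inf_eq hA hB] at h
  linarith

private theorem jg_W (hA : Good A) (hB : Good B) (hd : d.degree < 2 * p * (p - 1)) :
    (Fs p A d 0 ⊔ Fs p B d 0) ⊔ gS p ⊤ d ≤ Fs p ⊤ d 0 ⊓
      (((Fs p ⊤ d 0).map (NrmL p) ⊓ Fs p A d 0) ⊔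
        ((Fs p ⊤ d 0).map (NrmL p) ⊓ Fs p B d 0)).comap (NrmL p) := by
  have hAS : Fs p A d 0 ≤ Fs p ⊤ d 0 := Fs_mono p le_top d 0
  have hBS : Fs p B d 0 ≤ Fs p ⊤ d 0 := Fs_mono p le_top d 0
  refine sup_le (sup_le (le_inf hAS ?_) (le_inf hBS ?_)) (le_inf (gS_le p good_top d) ?_)
  · intro x hx
    refine Submodule.mem_sup_left ?_
    exact ⟨⟨x, hAS hx, rfl⟩, NrmL_mem_Fs p hA hx⟩
  · intro x hx
    refine Submodule.mem_sup_right ?_
    exact ⟨⟨x, hBS hx, rfl⟩, NrmL_mem_Fs p hB hx⟩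
  · intro x hx
    rw [Submodule.mem_comap, NrmL_gS p hd hx]
    exact Submodule.zero_mem _

theorem rr_inf_ge (hA : Good A) (hB : Good B) (hd : d.degree < 2 * p * (p - 1)) :
    rr p A ⊤ d + rr p B ⊤ d - tt p (A ⊔ B) ⊤ d ≤ rr p (A ⊓ B) ⊤ d := by
  have hf := finite_Fs p (⊤ : Ideal (T V K)) d 0
  have hAS : Fs p A d 0 ≤ Fs p ⊤ d 0 := Fs_mono p le_top d 0
  have hBS : Fs p B d 0 ≤ Fs p ⊤ d 0 := Fs_mono p le_top d 0
  have e := jg_main (NrmL p) (Fs p A d 0) (Fs p B d 0) (Fs p ⊤ d 0) hAS hBS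
  have h1 : Fs p (A ⊔ B) d 0 ⊔ gS p ⊤ d ≤ Fs p ⊤ d 0 ⊓
      (((Fs p ⊤ d 0).map (NrmL p) ⊓ Fs p A d 0) ⊔
        ((Fs p ⊤ d 0).map (NrmL p) ⊓ Fs p B d 0)).comap (NrmL p) := by
    rw [Fs_sup hA hB]
    exact jg_W hA hB hd
  have h2 : FiniteDimensional K ↥(Fs p ⊤ d 0 ⊓
      (((Fs p ⊤ d 0).map (NrmL p) ⊓ Fs p A d 0) ⊔
        ((Fs p ⊤ d 0).map (NrmL p) ⊓ Fs p B d 0)).comap (NrmL p)) :=
    Submodule.finiteDimensional_of_le inf_le_left
  have h3 := Submodule.finrank_mono (R := K) h1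
  unfold rr tt
  rw [Fs_inf]
  omega

theorem rr_inf_ge' (hA : Good A) (hB : Good B) (hd : d.degree < 2 * p * (p - 1))
    (h : tt p A (A ⊔ B) d = rr p A (A ⊔ B) d) :
    tt p A ⊤ d + rr p B ⊤ d - tt p (A ⊔ B) ⊤ d ≤ rr p (A ⊓ B) ⊤ d := by
  have hf := finite_Fs p (⊤ : Ideal (T V K)) d 0
  have hAS : Fs p A d 0 ≤ Fs p ⊤ d 0 := Fs_mono p le_top d 0
  have hBS : Fs p B d 0 ≤ Fs p ⊤ d 0 := Fs_mono p le_top d 0
  have hGS : gS p (⊤ : Ideal (T V K)) d ≤ Fs p ⊤ d 0 := gS_le p good_top d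
  have hfA := finite_Fs p A d 0
  have e := jg_main (NrmL p) (Fs p A d 0) (Fs p B d 0) (Fs p ⊤ d 0) hAS hBS
  have hW := jg_W (p := p) hA hB hd
  have hZ : Fs p ⊤ d 0 ⊓ (Fs p A d 0).comap (NrmL p) ≤ Fs p ⊤ d 0 ⊓
      (((Fs p ⊤ d 0).map (NrmL p) ⊓ Fs p A d 0) ⊔
        ((Fs p ⊤ d 0).map (NrmL p) ⊓ Fs p B d 0)).comap (NrmL p) := by
    rintro x ⟨hx1, hx2⟩
    exact ⟨hx1, Submodule.mem_sup_left ⟨⟨x, hx1, rfl⟩, hx2⟩⟩
  have h2 : FiniteDimensional K ↥(Fs p ⊤ d 0 ⊓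
      (((Fs p ⊤ d 0).map (NrmL p) ⊓ Fs p A d 0) ⊔
        ((Fs p ⊤ d 0).map (NrmL p) ⊓ Fs p B d 0)).comap (NrmL p)) :=
    Submodule.finiteDimensional_of_le inf_le_left
  have hfZ : FiniteDimensional K ↥(Fs p ⊤ d 0 ⊓ (Fs p A d 0).comap (NrmL p)) :=
    Submodule.finiteDimensional_of_le inf_le_left
  have hfW : FiniteDimensional K ↥((Fs p A d 0 ⊔ Fs p B d 0) ⊔ gS p ⊤ d) :=
    Submodule.finiteDimensional_of_le (sup_le (sup_le hAS hBS) hGS)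
  have h3 := Submodule.finrank_mono (R := K) (sup_le hZ hW)
  have h4 := Submodule.finrank_sup_add_finrank_inf_eq
    (Fs p ⊤ d 0 ⊓ (Fs p A d 0).comap (NrmL p)) ((Fs p A d 0 ⊔ Fs p B d 0) ⊔ gS p ⊤ d)
  have h5 : (Fs p ⊤ d 0 ⊓ (Fs p A d 0).comap (NrmL p)) ⊓
      ((Fs p A d 0 ⊔ Fs p B d 0) ⊔ gS p ⊤ d) = Fs p A d 0 ⊔ gS p ⊤ d := by
    apply le_antisymm
    · rintro x ⟨⟨hx1, hx2⟩, hx3⟩
      obtain ⟨y, hy, g, hg, rfl⟩ := Submodule.mem_sup.1 hx3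
      rw [← Fs_sup hA hB] at hy
      have h6 : NrmL p y ∈ Fs p A d 0 := by
        have h7 : NrmL p (y + g) ∈ Fs p A d 0 := hx2
        rwa [map_add, NrmL_gS p hd hg, add_zero] at h7
      have h8 := mem_of_tt_eq_rr p le_sup_left hA (hA.sup hB) hd h hy h6
      have h9 : Fs p A d 0 ⊔ gS p (A ⊔ B) d ≤ Fs p A d 0 ⊔ gS p ⊤ d :=
        sup_le_sup_left (gS_mono p le_top d) _
      exact Submodule.add_mem _ (h9 h8) (Submodule.mem_sup_right hg)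
    · refine sup_le (le_inf (le_inf hAS ?_) (le_sup_left.trans le_sup_left))
        (le_inf (le_inf hGS ?_) le_sup_right)
      · intro x hx
        exact NrmL_mem_Fs p hA hx
      · intro x hx
        rw [Submodule.mem_comap, NrmL_gS p hd hx]
        exact Submodule.zero_mem _
  rw [h5] at h4
  have h6 := jg_rA (NrmL p) (Fs p A d 0) (Fs p ⊤ d 0)
  unfold rr tt
  rw [Fs_inf, Fs_sup hA hB]
  omega

end HKDet
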