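import Pool.Agent.Lib.HKDet.JDefs
import Pool.Agent.Lib.FSig.Rec2

/-!
# JI: the fusion number is unchanged if two entries are flipped; values of `bar`, `barC`

PROOF of `fus_flip`. Let `r = w - single i p - single j p`, `a = r i`, `b = r j ≤ p - 2`, and `e` = `w` with the entries `i, j` erased (`= r` with these entries erased `= bar p w` with these entries erased, since the other entries are `≤ p - 1`). `bar p w i = 2p-2 - (p+a) = p-2-a`, `bar p w j = p-2-b`. For a function `g` with period `2p` put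
`T a b g = fun w => ∑_{x ≤ a} ∑_{y ≤ b} g (w + (a - 2x) + (b - 2y))`; then (splitting off `i` and `j`, `swS_split` twice, or the lemma behind `swS_rec`) `fus p r = swS (T a b (hF p)) e`, `fus p (bar p w) = swS (T (p-2-a) (p-2-b) (hF p)) e`. So it is enough that `T (p-2-a) (p-2-b) (hF p) = T a b (hF p)` pointwise.
For fixed `w'`: `φ_a(w') := ∑_{x ≤ a} hF p (w' + a - 2x) = [2p ∣ w' + a] - [2p ∣ w' - a - 2]` (telescoping, `Finset.sum_range_sub'`), so `φ_(p-2-a)(w') = [2p ∣ w' + p-2-a] - [2p ∣ w' - p + a] = - φ_a(w' + p)` (`w' - p + a ≡ w' + p + a` mod `2p`). Hence `T (p-2-a) b (hF p) (w') = - T a b (hF p) (w' + p)`;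
exchange the roles of the two sums and repeat: `T (p-2-a) (p-2-b) (hF p) (w') = T a b (hF p) (w' + 2p) = T a b (hF p) (w')` (period `2p`).
`bar_of_le`, ..: pointwise (`Finsupp.ext`, `Finsupp.mapRange_apply`, `omega`); `bar_barC`: for `x ≤ 2p-2` `min x (2p-2-x) ≤ p-1`, for `x > 2p-2` it is `0`.
-/

namespace HKDet

open FSig

variable {V : Type*} {p : ℕ}

private def ji_sp (p : ℕ) (a : ℤ) : ℤ := if (2 * p : ℤ) ∣ a then 1 else 0

private theorem ji_sp_add (a : ℤ) : ji_sp p (a + 2 * p) = ji_sp p a := by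
  unfold ji_sp
  simp only [dvd_add_self_right]

private theorem ji_hF (j : ℤ) : hF p j = ji_sp p j - ji_sp p (j - 2) := rfl

private theorem ji_two (g : ℤ → ℤ) (d : V →₀ ℕ) {i j : V} (hij : i ≠ j) :
    swS g d = swS (fun w => ∑ y ∈ Finset.range (d j + 1), ∑ x ∈ Finset.range (d i + 1),
      g (w + ((d i : ℤ) - 2 * (x : ℤ)) + ((d j : ℤ) - 2 * (y : ℤ)))) ((d.erase j).erase i) := by
  rw [swS_split g d j, swS_sum]
  refine Finset.sum_congr rfl fun y _ => ?_
  rw [swS_split _ (d.erase j) i, swS_sum, Finsupp.erase_ne hij]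

private def ji_T (p a b : ℕ) (u : ℤ) : ℤ :=
  ∑ y ∈ Finset.range (b + 1), ∑ x ∈ Finset.range (a + 1),
    hF p (u + ((a : ℤ) - 2 * (x : ℤ)) + ((b : ℤ) - 2 * (y : ℤ)))

private theorem ji_tel (a : ℕ) (u : ℤ) :
    ∑ x ∈ Finset.range (a + 1), hF p (u + ((a : ℤ) - 2 * (x : ℤ))) =
      ji_sp p (u + a) - ji_sp p (u - a - 2) := by
  have h1 : ∀ x : ℕ, hF p (u + ((a : ℤ) - 2 * (x : ℤ))) =
      (fun y : ℕ => ji_sp p (u + a - 2 * (y : ℤ))) x -
        (fun y : ℕ => ji_sp p (u + a - 2 * (y : ℤ))) (x + 1) := by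
    intro x
    rw [ji_hF]
    have e1 : u + ((a : ℤ) - 2 * (x : ℤ)) = u + a - 2 * (x : ℤ) := by ring
    have e2 : u + ((a : ℤ) - 2 * (x : ℤ)) - 2 = u + a - 2 * ((x + 1 : ℕ) : ℤ) := by
      push_cast
      ring
    rw [e2, e1]
  rw [Finset.sum_congr rfl fun x _ => h1 x, Finset.sum_range_sub']
  have e3 : u + (a : ℤ) - 2 * ((0 : ℕ) : ℤ) = u + a := by push_cast; ring
  have e4 : u + (a : ℤ) - 2 * ((a + 1 : ℕ) : ℤ) = u - a - 2 := by push_cast; ring
  rw [e3, e4]

private theorem ji_T1 (a b : ℕ) (u : ℤ) : ji_T p a b u =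
    ∑ y ∈ Finset.range (b + 1), (ji_sp p (u + ((b : ℤ) - 2 * (y : ℤ)) + a) -
      ji_sp p (u + ((b : ℤ) - 2 * (y : ℤ)) - a - 2)) := by
  unfold ji_T
  refine Finset.sum_congr rfl fun y _ => ?_
  rw [← ji_tel]
  refine Finset.sum_congr rfl fun x _ => ?_
  congr 1
  ring

private theorem ji_T_comm (a b : ℕ) (u : ℤ) : ji_T p a b u = ji_T p b a u := by
  unfold ji_T
  rw [Finset.sum_comm]
  refine Finset.sum_congr rfl fun y _ => Finset.sum_congr rfl fun x _ => ?_
  congr 1
  ring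

private theorem ji_T_flip {a : ℕ} (ha : a + 2 ≤ p) (b : ℕ) (u : ℤ) :
    ji_T p (p - 2 - a) b u = - ji_T p a b (u + p) := by
  rw [ji_T1, ji_T1, ← Finset.sum_neg_distrib]
  refine Finset.sum_congr rfl fun y _ => ?_
  have hD : ((p - 2 - a : ℕ) : ℤ) = (p : ℤ) - 2 - a := by omega
  rw [hD]
  have e1 : ji_sp p (u + ((b : ℤ) - 2 * (y : ℤ)) - ((p : ℤ) - 2 - a) - 2) =
      ji_sp p (u + p + ((b : ℤ) - 2 * (y : ℤ)) + a) := by
    rw [← ji_sp_add]
    congr 1
    ring
  have e2 : ji_sp p (u + ((b : ℤ) - 2 * (y : ℤ)) + ((p : ℤ) - 2 - a)) =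
      ji_sp p (u + p + ((b : ℤ) - 2 * (y : ℤ)) - a - 2) := by
    congr 1
    ring
  rw [e1, e2]
  ring

private theorem ji_T_per (a b : ℕ) (u : ℤ) : ji_T p a b (u + p + p) = ji_T p a b u := by
  rw [ji_T1, ji_T1]
  refine Finset.sum_congr rfl fun y _ => ?_
  congr 1
  · rw [← ji_sp_add (u + ((b : ℤ) - 2 * (y : ℤ)) + a)]
    congr 1
    ring
  · rw [← ji_sp_add (u + ((b : ℤ) - 2 * (y : ℤ)) - a - 2)]
    congr 1
    ring

private theorem ji_er (d d' : V →₀ ℕ) {i j : V} (h : ∀ v, v ≠ i → v ≠ j → d' v = d v) :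
    (d'.erase j).erase i = (d.erase j).erase i := by
  ext v
  by_cases hi : v = i
  · subst hi
    rw [Finsupp.erase_same, Finsupp.erase_same]
  · rw [Finsupp.erase_ne hi, Finsupp.erase_ne hi]
    by_cases hj : v = j
    · subst hj
      rw [Finsupp.erase_same, Finsupp.erase_same]
    · rw [Finsupp.erase_ne hj, Finsupp.erase_ne hj]
      exact h v hi hj

private theorem ji_bar (w : V →₀ ℕ) (v : V) : bar p w v = min (w v) (2 * p - 2 - w v) := by
  unfold bar
  rw [Finsupp.mapRange_apply]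

theorem fus_flip (hp : 2 ≤ p) {w : V →₀ ℕ} {i j : V} (hij : i ≠ j) (hi : p ≤ w i)
    (hi' : w i ≤ 2 * p - 2) (hj : p ≤ w j) (hj' : w j ≤ 2 * p - 2)
    (hs : ∀ v, v ≠ i → v ≠ j → w v ≤ p - 1) :
    fus p (bar p w) = fus p (w - Finsupp.single i p - Finsupp.single j p) := by
  have ri : (w - Finsupp.single i p - Finsupp.single j p : V →₀ ℕ) i = w i - p := by
    rw [Finsupp.tsub_apply, Finsupp.tsub_apply, Finsupp.single_eq_same,
      Finsupp.single_eq_of_ne hij]
    omega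
  have rj : (w - Finsupp.single i p - Finsupp.single j p : V →₀ ℕ) j = w j - p := by
    rw [Finsupp.tsub_apply, Finsupp.tsub_apply, Finsupp.single_eq_same,
      Finsupp.single_eq_of_ne hij.symm]
    omega
  have rv : ∀ v, v ≠ i → v ≠ j →
      (w - Finsupp.single i p - Finsupp.single j p : V →₀ ℕ) v = w v := by
    intro v hvi hvj
    rw [Finsupp.tsub_apply, Finsupp.tsub_apply, Finsupp.single_eq_of_ne hvi,
      Finsupp.single_eq_of_ne hvj]
    omega
  have he := ji_er (w - Finsupp.single i p - Finsupp.single j p) (bar p w) (i := i) (j := j) (by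
    intro v hvi hvj
    rw [rv v hvi hvj, ji_bar]
    have := hs v hvi hvj
    omega)
  rw [fus_swS, fus_swS, ji_two (hF p) (bar p w) hij, he,
    ji_two (hF p) (w - Finsupp.single i p - Finsupp.single j p) hij, ri, rj]
  have b1 : bar p w i = p - 2 - (w i - p) := by
    rw [ji_bar]
    omega
  have b2 : bar p w j = p - 2 - (w j - p) := by
    rw [ji_bar]
    omega
  rw [b1, b2]
  congr 1
  funext u
  show ji_T p (p - 2 - (w i - p)) (p - 2 - (w j - p)) u = ji_T p (w i - p) (w j - p) u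
  rw [ji_T_flip (by omega), ji_T_comm, ji_T_flip (by omega), ji_T_comm, neg_neg, ji_T_per]

theorem bar_of_le {w : V →₀ ℕ} (h : ∀ v, w v ≤ p - 1) : bar p w = w := by
  ext v
  rw [ji_bar]
  have := h v
  omega

theorem barC_apply [DecidableEq V] (C : Finset V) (w : V →₀ ℕ) (v : V) :
    barC p C w v = if v ∈ C then min (w v) (2 * p - 2 - w v) else w v := by
  unfold barC
  rw [Finsupp.onFinset_apply]

theorem barC_of_le [DecidableEq V] {C : Finset V} {w : V →₀ ℕ} (h : ∀ v ∈ C, w v ≤ p - 1) :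
    barC p C w = w := by
  ext v
  rw [barC_apply]
  split_ifs with hv
  · have := h v hv
    omega
  · rfl

theorem barC_all [DecidableEq V] {U : Finset V} {w : V →₀ ℕ} (h : ∀ v, v ∉ U → w v ≤ p - 1) :
    barC p U w = bar p w := by
  ext v
  rw [barC_apply, ji_bar]
  split_ifs with hv
  · rfl
  · have := h v hv
    omega

theorem bar_barC [DecidableEq V] (C : Finset V) (w : V →₀ ℕ) : bar p (barC p C w) = bar p w := by
  ext v
  rw [ji_bar, ji_bar, barC_apply]
  split_ifs with hv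
  · omega
  · rfl

theorem bar_le (w : V →₀ ℕ) : bar p w ≤ w := by
  intro v
  rw [ji_bar]
  exact min_le_left _ _

theorem barC_le [DecidableEq V] (C : Finset V) (w : V →₀ ℕ) : barC p C w ≤ w := by
  intro v
  rw [barC_apply]
  split_ifs
  · exact min_le_left _ _
  · exact le_refl _

end HKDet
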