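import Pool.Agent.Lib.HKDet.JB
import Pool.Agent.Lib.HKDet.JG
import Pool.Agent.Lib.HKDet.JI

/-!
# JK1: `tt` and `rr` of `(nI R * nI C, ⊤)` if some entry is `≥ 2p-1` (cases (A), (B))

PROOFS. `nI K R * nI K C = nI K R ⊓ nI K C` (`nI_inf_nI`), `Fs_inf`: `Fs p (nI R * nI C) w z = Fs p (nI R) w z ⊓ Fs p (nI C) w z`.
* `caseB`: some `w i ≥ 2p-1`, `i ∈ R`: `Fs p (nI R) w z = S K w z` (`Fs_nI_big`), so `Fs p (nI R * nI C) w z = Fs p (nI C) w z` (`≤ S`), and `tt p (nI R * nI C) ⊤ w = tt p (nI C) ⊤ w = tt p ⊥ ⊤ (barC p C w)` (`tt_flip`, all `w j ≤ 2p-2`, `j ∈ C`) `= invN (barC p C w)` (`tt_SS_big`: `barC p C w i = w i` as `i ∉ C`; degree: `barC_le`);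
  `rr` in the same way with `rr_flip`, `rr_SS`.
* `caseB'`: exchange `R` and `C` (`mul_comm`).
* `caseA`: both: `Fs p (nI R * nI C) w z = S K w z = Fs p ⊤ w z`, so `tt = 0` (`gS ≤ Fs ⊤`: `E_mem_S`, `F_mem_S`) and `rr = 0` (`NrmL_mem_Fs`).
-/

namespace HKDet

open MvPolynomial FSig

variable {V : Type*} [DecidableEq V] [Infinite V] {K : Type*} [Field K] {p : ℕ} [Fact p.Prime]
  [CharP K p] {R C : Finset V} {w : V →₀ ℕ}

omit [DecidableEq V] [Infinite V] in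
private theorem jk_Fs_left (hRC : Disjoint R C) {i : V} (hi : i ∈ R)
    (hwi : 2 * p - 1 ≤ w i) : Fs p (nI K R * nI K C) w 0 = Fs p (nI K C) w 0 := by
  rw [← nI_inf_nI hRC, Fs_inf, Fs_nI_big p hi hwi]
  exact inf_eq_right.2 inf_le_right

omit [DecidableEq V] [Infinite V] in
private theorem jk_tt_congr {P P' : Ideal (T V K)} (h : Fs p P w 0 = Fs p P' w 0) :
    tt p P ⊤ w = tt p P' ⊤ w ∧ rr p P ⊤ w = rr p P' ⊤ w := by
  unfold tt rr
  rw [h]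
  exact ⟨rfl, rfl⟩

omit [Infinite V] [Fact p.Prime] [CharP K p] in
private theorem jk_deg (hd : w.degree < 2 * p * (p - 1)) :
    (barC p C w).degree < 2 * p * (p - 1) := by
  refine lt_of_le_of_lt ?_ hd
  have h1 : barC p C w + (w - barC p C w) = w := add_tsub_cancel_of_le (barC_le C w)
  have h2 := congrArg Finsupp.degree h1
  rw [map_add] at h2
  omega

theorem caseB (hRC : Disjoint R C) (hC : ∀ j ∈ C, w j ≤ 2 * p - 2) {i : V} (hi : i ∈ R)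
    (hwi : 2 * p - 1 ≤ w i) (hd : w.degree < 2 * p * (p - 1)) :
    tt p (nI K R * nI K C) ⊤ w = invN (barC p C w) ∧
      rr p (nI K R * nI K C) ⊤ w = invN (barC p C w) := by
  have hiC : i ∉ C := fun h => Finset.disjoint_left.1 hRC hi h
  have hb : barC p C w i = w i := by
    rw [barC_apply, if_neg hiC]
  obtain ⟨h1, h2⟩ := jk_tt_congr (K := K) (jk_Fs_left hRC hi hwi)
  have hd' := jk_deg (C := C) hd
  constructor
  · rw [h1, tt_flip p hC]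
    exact tt_SS_big p (v := i) (by rw [hb]; exact hwi) hd'
  · rw [h2, rr_flip p hC]
    exact rr_SS p (v := i) (by rw [hb]; omega) hd'

theorem caseB' (hRC : Disjoint R C) (hR : ∀ i ∈ R, w i ≤ 2 * p - 2) {j : V} (hj : j ∈ C)
    (hwj : 2 * p - 1 ≤ w j) (hd : w.degree < 2 * p * (p - 1)) :
    tt p (nI K R * nI K C) ⊤ w = invN (barC p R w) ∧
      rr p (nI K R * nI K C) ⊤ w = invN (barC p R w) := by
  rw [mul_comm]
  exact caseB hRC.symm hR hj hwj hd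

theorem caseA (hRC : Disjoint R C) {i j : V} (hi : i ∈ R) (hwi : 2 * p - 1 ≤ w i) (hj : j ∈ C)
    (hwj : 2 * p - 1 ≤ w j) (hd : w.degree < 2 * p * (p - 1)) :
    tt p (nI K R * nI K C) ⊤ w = 0 ∧ rr p (nI K R * nI K C) ⊤ w = 0 := by
  have h1 : Fs p (nI K R * nI K C) w 0 = Fs p (⊤ : Ideal (T V K)) w 0 := by
    rw [jk_Fs_left hRC hi hwi, Fs_nI_big p hj hwj, Fs_top]
  obtain ⟨h2, h3⟩ := jk_tt_congr (K := K) h1
  rw [h2, h3]
  have h4 : Fs p (⊤ : Ideal (T V K)) w 0 ⊔ gS p ⊤ w = Fs p (⊤ : Ideal (T V K)) w 0 :=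
    sup_eq_left.2 (gS_le p good_top w)
  have h5 : Fs p (⊤ : Ideal (T V K)) w 0 ⊔ (Fs p (⊤ : Ideal (T V K)) w 0).map (NrmL p) =
      Fs p (⊤ : Ideal (T V K)) w 0 := by
    refine sup_eq_left.2 ?_
    rintro _ ⟨f, hf, rfl⟩
    exact NrmL_mem_Fs p good_top hf
  unfold tt rr
  rw [h4, h5]
  exact ⟨sub_self _, sub_self _⟩

end HKDet
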