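import Pool.Agent.Lib.HKDet.JJ
import Pool.Agent.Lib.HKDet.JK1

/-!
# JK2: `tt` and `rr` of `(nI R * nI C, ⊤)` if all entries are `≤ 2p-2` (case (C))

`s` = number of the `i ∈ R` with `p ≤ w i`, `c` = number of the `j ∈ C` with `p ≤ w j`, both `≥ 1`.
PROOFS.
* `tt_one_side`: `tt p (nI C) ⊤ w = tt p ⊥ ⊤ (barC p C w)` (`tt_flip`). The entries of `barC p C w` at `C` are `≤ p-1`, those at `R` are those of `w`, all others are `0`. If `s = 1`: `tt_SS_one` with the unique `i` (`barC_apply`; `bar_barC`; degree: `barC_le`). If `s ≥ 2`: two different `i, i' ∈ R` (`Finset.one_lt_card`), `tt_SS_two`.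
* `rr_one_side`: `rr_flip`, `rr_SS` with some `i ∈ R`, `p ≤ w i`.
* `tt_all`: `tt p (nI (R ∪ C)) ⊤ w = tt p ⊥ ⊤ (barC p (R ∪ C) w)` (`tt_flip`), `barC_all`, and `tt_SS_small` for `bar p w` (entries `≤ p-1`).
* `caseC_le`: `nI R * nI C = nI C ⊓ nI R` (`nI_inf_nI`, `inf_comm`); `tt_inf_le` with `A = nI C`, `B = nI R`, `A ⊔ B = nI (R ∪ C)` (`nI_sup_nI`); `tt_D` with `A := R`, `U := R ∪ C` (`(R ∪ C).card ≤ R.card + C.card`): `tt p (nI R) (nI (R ∪ C)) w = tt p (nI R) ⊤ w - tt p (nI (R ∪ C)) ⊤ w`; `tt_one_side` twice (for `(R, C)` and `(C, R)`), `tt_all`.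
* `caseC_ge`: if `s ≥ 2` and `c ≥ 2` (no `fus` term): `rr_inf_ge` with `A = nI C`, `B = nI R`, `rr_one_side` twice, `tt_all`. If `s = 1`: `rr_inf_ge'` with `A = nI C`, `B = nI R`, hypothesis `tt_eq_rr_one`; `tt p (nI C) ⊤ w = invN (barC p C w) + fus`. If `c = 1`: the same with `R` and `C` exchanged (`A = nI R`, `B = nI C`).
-/

namespace HKDet

open MvPolynomial FSig

variable {V : Type*} [DecidableEq V] [Infinite V] {K : Type*} [Field K] {p : ℕ} [Fact p.Prime]
  [CharP K p] {R C : Finset V} {w : V →₀ ℕ}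

private theorem jk2_deg {e e' : V →₀ ℕ} (h : e ≤ e') : e.degree ≤ e'.degree := by
  obtain ⟨c, rfl⟩ := exists_add_of_le h
  rw [map_add]
  exact Nat.le_add_right _ _

private theorem jk2_nmem {C : Finset V} {v : V} (hv : v ∉ C) : barC p C w v = w v := by
  rw [barC_apply, if_neg hv]

private theorem jk2_mem {C : Finset V} {v : V} (hv : v ∈ C) : barC p C w v ≤ p - 1 := by
  rw [barC_apply, if_pos hv]
  omega

private theorem jk2_one {R : Finset V} (h : (R.filter fun i => p ≤ w i).card = 1) :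
    ∃ i ∈ R, p ≤ w i ∧ ∀ x ∈ R, x ≠ i → w x ≤ p - 1 := by
  obtain ⟨i, hi⟩ := Finset.card_eq_one.mp h
  have him : i ∈ R.filter (fun i => p ≤ w i) := by
    rw [hi]
    exact Finset.mem_singleton_self i
  rw [Finset.mem_filter] at him
  refine ⟨i, him.1, him.2, fun x hx hxi => ?_⟩
  by_contra hcon
  have hx' : x ∈ R.filter (fun i => p ≤ w i) := by
    rw [Finset.mem_filter]
    exact ⟨hx, by omega⟩
  rw [hi, Finset.mem_singleton] at hx'
  exact hxi hx'

theorem tt_one_side (hRC : Disjoint R C) (hw : ∀ v, v ∉ R → v ∉ C → w v = 0)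
    (hs : ∀ v, w v ≤ 2 * p - 2) (h1 : 1 ≤ (R.filter fun i => p ≤ w i).card)
    (hd : w.degree < 2 * p * (p - 1)) :
    tt p (nI K C) ⊤ w = invN (barC p C w) +
      if (R.filter fun i => p ≤ w i).card = 1 then fus p (bar p w) else 0 := by
  have hdeg : (barC p C w).degree < 2 * p * (p - 1) := lt_of_le_of_lt (jk2_deg (barC_le C w)) hd
  rw [tt_flip p fun v _ => hs v]
  split_ifs with h
  · obtain ⟨i, hi, hi1, hi2⟩ := jk2_one h
    have hiC : i ∉ C := Finset.disjoint_left.mp hRC hi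
    have h3 : ∀ x, x ≠ i → barC p C w x ≤ p - 1 := by
      intro x hx
      by_cases hxC : x ∈ C
      · exact jk2_mem hxC
      · rw [jk2_nmem hxC]
        by_cases hxR : x ∈ R
        · exact hi2 x hxR hx
        · rw [hw x hxR hxC]
          exact Nat.zero_le _
    rw [tt_SS_one p (v := i) (by rw [jk2_nmem hiC]; exact hi1)
      (by rw [jk2_nmem hiC]; exact hs i) h3 hdeg, bar_barC]
  · obtain ⟨i, hi, j, hj, hij⟩ := Finset.one_lt_card.mp (show 1 < (R.filter fun i => p ≤ w i).card by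
      omega)
    rw [Finset.mem_filter] at hi hj
    have hiC : i ∉ C := Finset.disjoint_left.mp hRC hi.1
    have hjC : j ∉ C := Finset.disjoint_left.mp hRC hj.1
    rw [tt_SS_two p hij (by rw [jk2_nmem hiC]; exact hi.2) (by rw [jk2_nmem hjC]; exact hj.2) hdeg,
      add_zero]

theorem rr_one_side (hRC : Disjoint R C) (hs : ∀ v, w v ≤ 2 * p - 2)
    (h1 : 1 ≤ (R.filter fun i => p ≤ w i).card) (hd : w.degree < 2 * p * (p - 1)) :
    rr p (nI K C) ⊤ w = invN (barC p C w) := by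
  have hdeg : (barC p C w).degree < 2 * p * (p - 1) := lt_of_le_of_lt (jk2_deg (barC_le C w)) hd
  obtain ⟨i, hi⟩ := Finset.card_pos.mp (show 0 < (R.filter fun i => p ≤ w i).card by omega)
  rw [Finset.mem_filter] at hi
  have hiC : i ∉ C := Finset.disjoint_left.mp hRC hi.1
  rw [rr_flip p fun v _ => hs v]
  exact rr_SS p (v := i) (by rw [jk2_nmem hiC]; exact le_trans (Nat.sub_le _ _) hi.2) hdeg

theorem tt_all (hw : ∀ v, v ∉ R → v ∉ C → w v = 0) (hs : ∀ v, w v ≤ 2 * p - 2)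
    (hd : w.degree < 2 * p * (p - 1)) : tt p (nI K (R ∪ C)) ⊤ w = invN (bar p w) := by
  have e : barC p (R ∪ C) w = bar p w := by
    refine barC_all fun v hv => ?_
    rw [Finset.mem_union, not_or] at hv
    rw [hw v hv.1 hv.2]
    exact Nat.zero_le _
  have h3 : ∀ v, bar p w v ≤ p - 1 := by
    intro v
    by_cases hv : v ∈ R ∪ C
    · rw [← e]
      exact jk2_mem hv
    · rw [← e, jk2_nmem hv]
      rw [Finset.mem_union, not_or] at hv
      rw [hw v hv.1 hv.2]
      exact Nat.zero_le _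
  rw [tt_flip p fun v _ => hs v, e]
  exact tt_SS_small p h3 (lt_of_le_of_lt (jk2_deg (bar_le w)) hd)

theorem caseC_le (hRC : Disjoint R C) (hw : ∀ v, v ∉ R → v ∉ C → w v = 0)
    (hs : ∀ v, w v ≤ 2 * p - 2) (h1 : 1 ≤ (R.filter fun i => p ≤ w i).card)
    (h2 : 1 ≤ (C.filter fun j => p ≤ w j).card)
    (hd : w.degree + 2 * p * (R.card + C.card) < 2 * p * (p - 1)) :
    tt p (nI K R * nI K C) ⊤ w ≤ invN (barC p C w) + invN (barC p R w) - invN (bar p w)
      + (if (R.filter fun i => p ≤ w i).card = 1 then fus p (bar p w) else 0)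
      + (if (C.filter fun j => p ≤ w j).card = 1 then fus p (bar p w) else 0) := by
  have hd' : w.degree < 2 * p * (p - 1) := lt_of_le_of_lt (Nat.le_add_right _ _) hd
  have h := tt_inf_le (p := p) (d := w) (good_nI (K := K) C) (good_nI (K := K) R)
  have hcard : 2 * p * (R ∪ C).card ≤ 2 * p * (R.card + C.card) :=
    Nat.mul_le_mul_left _ (Finset.card_union_le R C)
  have hD := tt_D (K := K) p (A := R) (U := R ∪ C) (d := w) Finset.subset_union_left hs
    (fun v hv => by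
      rw [Finset.mem_union, not_or] at hv
      rw [hw v hv.1 hv.2]
      exact Nat.zero_le _) (lt_of_le_of_lt (Nat.add_le_add_left hcard _) hd)
  have t1 := tt_one_side (K := K) hRC hw hs h1 hd'
  have t2 := tt_one_side (K := K) hRC.symm (fun v hv hv' => hw v hv' hv) hs h2 hd'
  rw [nI_sup_nI, Finset.union_comm, hD, t1, t2, tt_all hw hs hd', inf_comm, nI_inf_nI hRC] at h
  linarith

theorem caseC_ge (hRC : Disjoint R C) (hw : ∀ v, v ∉ R → v ∉ C → w v = 0)
    (hs : ∀ v, w v ≤ 2 * p - 2) (h1 : 1 ≤ (R.filter fun i => p ≤ w i).card)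
    (h2 : 1 ≤ (C.filter fun j => p ≤ w j).card) (hd : w.degree < 2 * p * (p - 1)) :
    invN (barC p C w) + invN (barC p R w) - invN (bar p w)
      + (if (R.filter fun i => p ≤ w i).card = 1 ∨ (C.filter fun j => p ≤ w j).card = 1 then
          fus p (bar p w) else 0) ≤ rr p (nI K R * nI K C) ⊤ w := by
  have hw' : ∀ v, v ∉ C → v ∉ R → w v = 0 := fun v hv hv' => hw v hv' hv
  have t1 := tt_one_side (K := K) hRC hw hs h1 hd
  have t2 := tt_one_side (K := K) hRC.symm hw' hs h2 hd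
  have r1 := rr_one_side (K := K) hRC hs h1 hd
  have r2 := rr_one_side (K := K) hRC.symm hs h2 hd
  have ta := tt_all (K := K) hw hs hd
  by_cases c1 : (R.filter fun i => p ≤ w i).card = 1
  · obtain ⟨i, hi, hi1, hi2⟩ := jk2_one c1
    have h := rr_inf_ge' (p := p) (d := w) (good_nI (K := K) C) (good_nI (K := K) R) hd
      (tt_eq_rr_one hRC hw hi hi1 (hs i) hi2 hd)
    rw [nI_sup_nI, Finset.union_comm, ta, t1, r2, inf_comm, nI_inf_nI hRC, if_pos c1] at h
    rw [if_pos (Or.inl c1)]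
    linarith
  · by_cases c2 : (C.filter fun j => p ≤ w j).card = 1
    · obtain ⟨j, hj, hj1, hj2⟩ := jk2_one c2
      have h := rr_inf_ge' (p := p) (d := w) (good_nI (K := K) R) (good_nI (K := K) C) hd
        (tt_eq_rr_one hRC.symm hw' hj hj1 (hs j) hj2 hd)
      rw [nI_sup_nI, ta, t2, r1, nI_inf_nI hRC, if_pos c2] at h
      rw [if_pos (Or.inr c2)]
      linarith
    · have h := rr_inf_ge (p := p) (d := w) (good_nI (K := K) C) (good_nI (K := K) R) hd
      rw [nI_sup_nI, Finset.union_comm, ta, r1, r2, inf_comm, nI_inf_nI hRC] at h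
      rw [if_neg (not_or.mpr ⟨c1, c2⟩)]
      linarith

end HKDet
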