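import Pool.Agent.Lib.HKDet.JF
import Pool.Agent.Lib.HKDet.JH
import Pool.Agent.Lib.HKDet.JK2

/-!
# JK3: formula (W)

PROOF of `hh_eq`. Let `s`, `c` be the numbers of `i ∈ R`, `j ∈ C` with entry `≥ p`.
* `hh_small`: `s = 0` or `c = 0`: `mm = ⊥` (a generator needs `w i ≥ p`, `w j ≥ p`), so `hh = dim IS K w = invN w` (`finrank_Inv`). `hkS`: `vS` is empty (an element `v` has `p * v i ≤ w i`, `v i ≠ 0`, so `w i ≥ p`, and `w j ≥ p`), `oneB` is false. If `s = 0`: all entries in `R` are `≤ p-1`: the second term is `invN (barC p R w) = invN w` (`barC_of_le`),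
  the first and the third cancel: the conditions are equivalent (`w v = 0` outside `R ∪ C`, `w i ≤ p - 1 ≤ 2p-2` on `R`), and `barC p C w = bar p w` (`barC_all`). The same if `c = 0` (first and second term exchanged).
* `sandwich`: `s, c ≥ 1`. `jI K R C ≤ nI K R * nI K C` (generators `br i j = a_i b_j - b_i a_j`). `tt_add_of_eq` with `P = jI`, `P' = nI R * nI C`, `Q = ⊤` and `tt_jI`: `tt (jI) ⊤ = P(w) + tt (nI R * nI C) ⊤`, `rr_ge`: `P(w) + rr (nI R * nI C) ⊤ ≤ rr (jI) ⊤`; with `rr_le_hh`, `hh_le_tt`.
* `hh_eq`, `s, c ≥ 1`: if some entry in `R` and some entry in `C` is `≥ 2p-1`: `caseA`, all conditions in `hkS` are false. If some entry in `R` is `≥ 2p-1` and all in `C` are `≤ 2p-2`: `caseB`, only the first condition is true. The same with `R`, `C` exchanged: `caseB'`. If all entries are `≤ 2p-2`: `caseC_le`, `caseC_ge`: upper and lower bound agree unless `s = c = 1`.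
  (`s = 1`, `c ≥ 2`: both have one `fus`; `s, c ≥ 2`: none.) If `s = c = 1`, let `i`, `j` be the unique elements: `hh_le_tt_sub` (its `hs`: `w i - p ≤ p - 1`, the others by uniqueness) and `fus_flip`: the upper bound has `2 fus - fus = fus`.
-/

namespace HKDet

open MvPolynomial FSig

variable {V : Type*} [Infinite V] {K : Type*} [Field K] {p : ℕ} [Fact p.Prime]
  [CharP K p] {R C : Finset V} {w : V →₀ ℕ}

private lemma jk3_two_le : 2 ≤ p := (Fact.out : p.Prime).two_le

private lemma jk3_mm_bot (h : (∀ i ∈ R, w i ≤ p - 1) ∨ (∀ j ∈ C, w j ≤ p - 1)) :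
    mm K p R C w = ⊥ := by
  rw [mm, Submodule.span_eq_bot]
  rintro f ⟨i, hi, j, hj, e, g, hg, he, rfl⟩
  exfalso
  have hp := jk3_two_le (p := p)
  have h1 : p ≤ w i := by
    rw [← he]
    simp only [Finsupp.add_apply, Finsupp.single_eq_same]
    omega
  have h2 : p ≤ w j := by
    rw [← he]
    simp only [Finsupp.add_apply, Finsupp.single_eq_same]
    omega
  rcases h with h | h
  · have := h i hi
    omega
  · have := h j hj
    omega

private lemma jk3_vS_empty (h : (∀ i ∈ R, w i ≤ p - 1) ∨ (∀ j ∈ C, w j ≤ p - 1)) :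
    vS p R C w = ∅ := by
  classical
  rw [vS, Finset.filter_eq_empty_iff]
  rintro v hv ⟨h1, ⟨i, hi, hvi⟩, ⟨j, hj, hvj⟩⟩
  have hp := jk3_two_le (p := p)
  have h2 : p * 1 ≤ p * v i := Nat.mul_le_mul_left p (Nat.one_le_iff_ne_zero.2 hvi)
  have h3 : p * 1 ≤ p * v j := Nat.mul_le_mul_left p (Nat.one_le_iff_ne_zero.2 hvj)
  have h4 := (h1 i).1
  have h5 := (h1 j).1
  rcases h with h | h
  · have := h i hi
    omega
  · have := h j hj
    omega

private lemma jk3_oneB (h : (∀ i ∈ R, w i ≤ p - 1) ∨ (∀ j ∈ C, w j ≤ p - 1)) :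
    ¬ oneB p R C w := by
  classical
  have hp := jk3_two_le (p := p)
  rintro ⟨h1, h2, -⟩
  rcases h with h | h
  · obtain ⟨i, hi⟩ := Finset.card_pos.1 h1
    rw [Finset.mem_filter] at hi
    have := h i hi.1
    omega
  · obtain ⟨i, hi⟩ := Finset.card_pos.1 h2
    rw [Finset.mem_filter] at hi
    have := h i hi.1
    omega

open scoped Classical in
theorem hh_small (hRC : Disjoint R C) (hw : ∀ v, v ∉ R → v ∉ C → w v = 0)
    (h : (∀ i ∈ R, w i ≤ p - 1) ∨ (∀ j ∈ C, w j ≤ p - 1)) : hh K p R C w = hkS p R C w := by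
  have hp := jk3_two_le (p := p)
  have h0 : hh K p R C w = invN w := by
    rw [hh, jk3_mm_bot h, finrank_bot, finrank_Inv K p]
    simp
  rw [h0, hkS, jk3_vS_empty h, Finset.sum_empty,
    if_neg (c := (∀ v, w v ≤ 2 * p - 2) ∧ oneB p R C w) (fun hh => jk3_oneB h hh.2)]
  rcases h with h | h
  · have e1 : (∀ i ∈ R, w i ≤ 2 * p - 2) := fun i hi => by
      have := h i hi
      omega
    have e2 : (∀ j ∈ C, w j ≤ 2 * p - 2) ↔ ∀ v, w v ≤ 2 * p - 2 := by
      constructor
      · intro h' v
        by_cases h1 : v ∈ C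
        · exact h' v h1
        · by_cases h2 : v ∈ R
          · exact e1 v h2
          · rw [hw v h2 h1]
            omega
      · intro h' j _
        exact h' j
    have e3 : barC p C w = bar p w := barC_all (fun v hv => by
      by_cases h2 : v ∈ R
      · exact h v h2
      · rw [hw v h2 hv]
        omega)
    rw [if_pos e1, barC_of_le h, e3]
    simp only [e2]
    ring
  · have e1 : (∀ i ∈ C, w i ≤ 2 * p - 2) := fun i hi => by
      have := h i hi
      omega
    have e2 : (∀ j ∈ R, w j ≤ 2 * p - 2) ↔ ∀ v, w v ≤ 2 * p - 2 := by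
      constructor
      · intro h' v
        by_cases h1 : v ∈ R
        · exact h' v h1
        · by_cases h2 : v ∈ C
          · exact e1 v h2
          · rw [hw v h1 h2]
            omega
      · intro h' j _
        exact h' j
    have e3 : barC p R w = bar p w := barC_all (fun v hv => by
      by_cases h2 : v ∈ C
      · exact h v h2
      · rw [hw v hv h2]
        omega)
    rw [if_pos e1, barC_of_le h, e3]
    simp only [e2]
    ring

private lemma jk3_jI_le : jI K R C ≤ nI K R * nI K C := by
  rw [jI, Ideal.span_le]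
  rintro f ⟨i, hi, j, hj, rfl⟩
  rw [SetLike.mem_coe, br]
  have ha : ∀ (U : Finset V) (v : V), v ∈ U → va K v ∈ nI K U := fun U v hv =>
    Ideal.subset_span ⟨(v, false), hv, rfl⟩
  have hb : ∀ (U : Finset V) (v : V), v ∈ U → vb K v ∈ nI K U := fun U v hv =>
    Ideal.subset_span ⟨(v, true), hv, rfl⟩
  exact Ideal.sub_mem _ (Ideal.mul_mem_mul (ha R i hi) (hb C j hj))
    (Ideal.mul_mem_mul (hb R i hi) (ha C j hj))

open scoped Classical in
theorem sandwich (hRC : Disjoint R C) (hw : ∀ v, v ∉ R → v ∉ C → w v = 0)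
    {v : V} (hv : p - 1 ≤ w v) (hd : w.degree < 2 * p * (p - 1)) :
    (∑ v ∈ vS p R C w, mlt p v.degree (bar p (w - p • v))) + rr p (nI K R * nI K C) ⊤ w
        ≤ hh K p R C w ∧
      tt p (jI K R C) ⊤ w =
        (∑ v ∈ vS p R C w, mlt p v.degree (bar p (w - p • v))) + tt p (nI K R * nI K C) ⊤ w ∧
      hh K p R C w ≤ tt p (jI K R C) ⊤ w := by
  obtain ⟨h1, h2⟩ := tt_jI (K := K) hRC hw hd
  refine ⟨?_, ?_, hh_le_tt hv hd⟩
  · refine le_trans ?_ (rr_le_hh hv hd)
    rw [← h2]
    exact rr_ge p jk3_jI_le le_top ((good_nI R).mul (good_nI C)) good_top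
  · rw [← h1]
    exact tt_add_of_eq p jk3_jI_le le_top (good_jI R C) ((good_nI R).mul (good_nI C)) good_top hd
      (h1.trans h2.symm)

open scoped Classical in
theorem hh_eq (hRC : Disjoint R C) (hw : ∀ v, v ∉ R → v ∉ C → w v = 0)
    (hd : w.degree + 2 * p * (R.card + C.card) < 2 * p * (p - 1)) :
    hh K p R C w = hkS p R C w := by
  have hp := jk3_two_le (p := p)
  by_cases h : (∀ i ∈ R, w i ≤ p - 1) ∨ (∀ j ∈ C, w j ≤ p - 1)
  · exact hh_small hRC hw h
  rw [not_or] at h
  obtain ⟨h1, h2⟩ := h
  push Not at h1 h2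
  obtain ⟨i, hi, hwi⟩ := h1
  obtain ⟨j, hj, hwj⟩ := h2
  have hd' : w.degree < 2 * p * (p - 1) := lt_of_le_of_lt (Nat.le_add_right _ _) hd
  have hs : 1 ≤ (R.filter fun i => p ≤ w i).card :=
    Finset.card_pos.2 ⟨i, Finset.mem_filter.2 ⟨hi, by omega⟩⟩
  have hc : 1 ≤ (C.filter fun j => p ≤ w j).card :=
    Finset.card_pos.2 ⟨j, Finset.mem_filter.2 ⟨hj, by omega⟩⟩
  obtain ⟨hlo, htt, hup⟩ := sandwich (K := K) hRC hw (v := i) (by omega) hd'
  rw [htt] at hup
  by_cases hR : ∀ i ∈ R, w i ≤ 2 * p - 2
  · by_cases hC : ∀ j ∈ C, w j ≤ 2 * p - 2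
    · -- all small
      have hall : ∀ v, w v ≤ 2 * p - 2 := fun v => by
        by_cases h1 : v ∈ R
        · exact hR v h1
        · by_cases h2 : v ∈ C
          · exact hC v h2
          · rw [hw v h1 h2]
            omega
      have hle := caseC_le (K := K) hRC hw hall hs hc hd
      have hge := caseC_ge (K := K) hRC hw hall hs hc hd'
      rw [hkS, if_pos hR, if_pos hC, if_pos hall]
      by_cases s1 : (R.filter fun i => p ≤ w i).card = 1
      · by_cases c1 : (C.filter fun j => p ≤ w j).card = 1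
        · -- both one
          rw [if_pos (Or.inl s1)] at hge
          rw [if_pos s1, if_pos c1] at hle
          rw [if_pos ⟨hall, hs, hc, Or.inl s1⟩]
          have hij : i ≠ j := fun h => Finset.disjoint_left.1 hRC hi (h ▸ hj)
          have hunR : ∀ x ∈ R, x ≠ i → w x ≤ p - 1 := by
            intro x hx hxi
            by_contra hc'
            have hx1 : x ∈ R.filter fun i => p ≤ w i := Finset.mem_filter.2 ⟨hx, by omega⟩
            have hx2 : i ∈ R.filter fun i => p ≤ w i := Finset.mem_filter.2 ⟨hi, by omega⟩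
            exact hxi (Finset.card_le_one.1 s1.le x hx1 i hx2)
          have hunC : ∀ x ∈ C, x ≠ j → w x ≤ p - 1 := by
            intro x hx hxi
            by_contra hc'
            have hx1 : x ∈ C.filter fun i => p ≤ w i := Finset.mem_filter.2 ⟨hx, by omega⟩
            have hx2 : j ∈ C.filter fun i => p ≤ w i := Finset.mem_filter.2 ⟨hj, by omega⟩
            exact hxi (Finset.card_le_one.1 c1.le x hx1 j hx2)
          have hun : ∀ v, v ≠ i → v ≠ j → w v ≤ p - 1 := fun v hvi hvj => by
            by_cases h1 : v ∈ R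
            · exact hunR v h1 hvi
            · by_cases h2 : v ∈ C
              · exact hunC v h2 hvj
              · rw [hw v h1 h2]
                omega
          have hflip := fus_flip hp hij (by omega : p ≤ w i) (hall i) (by omega : p ≤ w j) (hall j)
            hun
          have hsub := hh_le_tt_sub (K := K) hRC hi hj (by omega : p ≤ w i) (by omega : p ≤ w j)
            (by
              intro v
              rw [Finsupp.tsub_apply, Finsupp.tsub_apply]
              by_cases hvi : v = i
              · subst hvi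
                rw [Finsupp.single_eq_same]
                have := hall v
                omega
              · by_cases hvj : v = j
                · subst hvj
                  rw [Finsupp.single_eq_same]
                  have := hall v
                  omega
                · have := hun v hvi hvj
                  omega) hd'
          rw [htt, ← hflip] at hsub
          linarith
        · rw [if_pos (Or.inl s1)] at hge
          rw [if_pos s1, if_neg c1] at hle
          rw [if_pos ⟨hall, hs, hc, Or.inl s1⟩]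
          linarith
      · by_cases c1 : (C.filter fun j => p ≤ w j).card = 1
        · rw [if_pos (Or.inr c1)] at hge
          rw [if_neg s1, if_pos c1] at hle
          rw [if_pos ⟨hall, hs, hc, Or.inr c1⟩]
          linarith
        · rw [if_neg (not_or.2 ⟨s1, c1⟩)] at hge
          rw [if_neg s1, if_neg c1] at hle
          rw [if_neg (fun h => (not_or.2 ⟨s1, c1⟩) h.2.2.2)]
          linarith
    · -- C big
      have hnall : ¬ ∀ v, w v ≤ 2 * p - 2 := fun h => hC fun j _ => h j
      obtain ⟨j', hj', hwj'⟩ : ∃ j ∈ C, 2 * p - 2 < w j := by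
        push Not at hC
        exact hC
      obtain ⟨ht, hr⟩ := caseB' (K := K) hRC hR hj' (by omega : 2 * p - 1 ≤ w j') hd'
      rw [hkS, if_pos hR, if_neg hC, if_neg hnall, if_neg (fun h => hnall h.1)]
      rw [hr] at hlo
      rw [ht] at hup
      linarith
  · have hnall : ¬ ∀ v, w v ≤ 2 * p - 2 := fun h => hR fun j _ => h j
    obtain ⟨i', hi', hwi'⟩ : ∃ i ∈ R, 2 * p - 2 < w i := by
      push Not at hR
      exact hR
    by_cases hC : ∀ j ∈ C, w j ≤ 2 * p - 2
    · obtain ⟨ht, hr⟩ := caseB (K := K) hRC hC hi' (by omega : 2 * p - 1 ≤ w i') hd'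
      rw [hkS, if_neg hR, if_pos hC, if_neg hnall, if_neg (fun h => hnall h.1)]
      rw [hr] at hlo
      rw [ht] at hup
      linarith
    · obtain ⟨j', hj', hwj'⟩ : ∃ j ∈ C, 2 * p - 2 < w j := by
        push Not at hC
        exact hC
      obtain ⟨ht, hr⟩ := caseA (K := K) hRC hi' (by omega : 2 * p - 1 ≤ w i') hj'
        (by omega : 2 * p - 1 ≤ w j') hd'
      rw [hkS, if_neg hR, if_neg hC, if_neg hnall, if_neg (fun h => hnall h.1)]
      rw [hr] at hlo
      rw [ht] at hup
      linarith

end HKDet
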