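import Pool.Agent.Lib.HKDet.KDefs
import Pool.Agent.Lib.FSig.CntAs

/-!
# KAs: asymptotics of sums of binomial coefficients

`As F a r` (`FSig/CntDefs.lean`): `F p = a p^r + O(p^(r-1))`; calculus in `FSig/CntAs.lean` (`As.add`, `As.sub`, `As.mul`, `As.sum`, `As.const_mul`, `As.choose`, `As.second`). Model: `FSig/CntA1As.lean` (the case `a = m + n`).
`ax m n p a K e = ∑_{i<K} (-1)^i binom(a,i) pb m n p (K - i) e`, `pb m n p k e = binom(k p + (m-2) + e, m+n-1)`.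
`ax_gen`: `As (fun p => ∑_{i<K} (-1)^i binom(a,i) binom((K-i) p + s, r)) (sp a r K) r`: `As.sum`, `As.const_mul`, `As.choose`; `((K - i : ℕ) : ℚ) = K - i` for `i < K`, the factor `1/r!` is taken out.
`ax0`: `r = m+n-1`, `s = m-2+e`. `ax1`: `pb (e+1) - pb e = binom(kp + (m-2) + e, m+n-2)` (Pascal, `m+n-1 = (m+n-2)+1`). `ax2`: `pb 2 - 2 pb 1 + pb 0 = binom(kp + (m-2), m+n-3)`.
`quad_As`: `f 1 ^ 2 - f 2 * f 0 = (f 2 - f 1) (f 1 - f 0) - f 1 (f 2 - 2 f 1 + f 0)`; `As.mul`: `(m+n-2) + (m+n-2) = 2(m+n)-4 = (m+n-1) + (m+n-3)`.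
`mix_As`: `As.second` with `f e = ax a K e`, `g e = ax a L e`, `f 2 g 0 - 2 f 1 g 1 + f 0 g 2`.
-/

namespace Pool.HKDet

open _root_.FSig Finset

/-- `∑_{i<K} (-1)^i binom(a,i) P((K-i)p - n + e - 1)` -/
def ax (m n p a K e : ℕ) : ℤ :=
  ∑ i ∈ range K, (-1) ^ i * (a.choose i : ℤ) * pb m n p (K - i) e

private theorem kas_gen (N K s r : ℕ) (F : ℕ → ℝ)
    (hF : ∀ p, F p = ∑ i ∈ range K, (-1) ^ i * (N.choose i : ℝ) *
      ((((K - i) * p + s).choose r : ℕ) : ℝ)) :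
    As F ((sp N r K : ℚ) : ℝ) r := by
  have h1 : As (fun p => ∑ i ∈ range K, ((-1) ^ i * (N.choose i : ℝ)) *
      ((((K - i) * p + s).choose r : ℕ) : ℝ))
      (∑ i ∈ range K, ((-1) ^ i * (N.choose i : ℝ)) *
        ((((K - i : ℕ) : ℝ)) ^ r / (r.factorial : ℝ))) r :=
    As.sum _ fun i _ => (As.choose (K - i) s r).const_mul _
  have e1 : (fun p => ∑ i ∈ range K, ((-1) ^ i * (N.choose i : ℝ)) *
      ((((K - i) * p + s).choose r : ℕ) : ℝ)) = F := by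
    funext p
    rw [hF p]
  have e2 : (∑ i ∈ range K, ((-1) ^ i * (N.choose i : ℝ)) *
        ((((K - i : ℕ) : ℝ)) ^ r / (r.factorial : ℝ))) = ((sp N r K : ℚ) : ℝ) := by
    unfold sp
    push_cast
    rw [Finset.sum_div]
    refine Finset.sum_congr rfl fun i hi => ?_
    rw [Nat.cast_sub (Finset.mem_range.1 hi).le]
    ring
  rw [e1, e2] at h1
  exact h1

private theorem kas_p1 (m n p k e : ℕ) (h : 2 ≤ m + n) :
    ((pb m n p k (e + 1) : ℤ) : ℝ) - ((pb m n p k e : ℤ) : ℝ) =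
      (((k * p + ((m - 2) + e)).choose (m + n - 2) : ℕ) : ℝ) := by
  have h1 : m + n - 1 = (m + n - 2) + 1 := by omega
  have h2 : k * p + (m - 2) + (e + 1) = (k * p + ((m - 2) + e)) + 1 := by ring
  have h3 : k * p + (m - 2) + e = k * p + ((m - 2) + e) := by ring
  unfold pb
  rw [h1, h2, h3, Nat.choose_succ_succ']
  push_cast
  ring

theorem al_eq_ax (m n p K e : ℕ) : al m n p K e = ax m n p (m + n) K e := by
  rfl

theorem ax0_As (m n a K e : ℕ) (hm : 3 ≤ m) (hn : 3 ≤ n) :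
    As (fun p => ((ax m n p a K e : ℤ) : ℝ)) ((sp a (m + n - 1) K : ℚ) : ℝ) (m + n - 1) := by
  refine kas_gen a K ((m - 2) + e) (m + n - 1) _ fun p => ?_
  unfold ax pb
  push_cast
  refine Finset.sum_congr rfl fun i _ => ?_
  rw [add_assoc]

theorem ax1_As (m n a K e : ℕ) (hm : 3 ≤ m) (hn : 3 ≤ n) :
    As (fun p => ((ax m n p a K (e + 1) : ℤ) : ℝ) - ((ax m n p a K e : ℤ) : ℝ))
      ((sp a (m + n - 2) K : ℚ) : ℝ) (m + n - 2) := by
  refine kas_gen a K ((m - 2) + e) (m + n - 2) _ fun p => ?_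
  unfold ax
  push_cast
  rw [← Finset.sum_sub_distrib]
  refine Finset.sum_congr rfl fun i _ => ?_
  rw [← mul_sub, kas_p1 m n p (K - i) e (by omega)]

theorem ax2_As (m n a K : ℕ) (hm : 3 ≤ m) (hn : 3 ≤ n) :
    As (fun p => ((ax m n p a K 2 : ℤ) : ℝ) - 2 * ((ax m n p a K 1 : ℤ) : ℝ)
        + ((ax m n p a K 0 : ℤ) : ℝ))
      ((sp a (m + n - 3) K : ℚ) : ℝ) (m + n - 3) := by
  refine kas_gen a K (m - 2) (m + n - 3) _ fun p => ?_
  unfold ax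
  push_cast
  rw [Finset.mul_sum, ← Finset.sum_sub_distrib, ← Finset.sum_add_distrib]
  refine Finset.sum_congr rfl fun i _ => ?_
  have h2 := kas_p1 m n p (K - i) 1 (by omega)
  have h1 := kas_p1 m n p (K - i) 0 (by omega)
  have e1 : m + n - 2 = (m + n - 3) + 1 := by omega
  have e2 : (K - i) * p + (m - 2 + 1) = ((K - i) * p + (m - 2)) + 1 := by ring
  have h3 : (((K - i) * p + (m - 2 + 1)).choose (m + n - 2) : ℝ) =
      (((K - i) * p + (m - 2)).choose (m + n - 3) : ℝ) +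
      (((K - i) * p + (m - 2 + 0)).choose (m + n - 2) : ℝ) := by
    rw [e2, e1, Nat.choose_succ_succ', add_zero]
    push_cast
    ring
  norm_num at h1 h2 h3 ⊢
  linear_combination (-1) ^ i * (a.choose i : ℝ) * (h2 - h1 + h3)

theorem quad_As (m n a K : ℕ) (hm : 3 ≤ m) (hn : 3 ≤ n) :
    As (fun p => ((ax m n p a K 1 * ax m n p a K 1 - ax m n p a K 2 * ax m n p a K 0 : ℤ) : ℝ))
      ((sp a (m + n - 2) K ^ 2 - sp a (m + n - 1) K * sp a (m + n - 3) K : ℚ) : ℝ)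
      (2 * (m + n) - 4) := by
  have e3 : 2 * (m + n) - 4 = (m + n - 2) + (m + n - 2) := by omega
  have e4 : 2 * (m + n) - 4 = (m + n - 1) + (m + n - 3) := by omega
  have h1 := (ax1_As m n a K 1 hm hn).mul (ax1_As m n a K 0 hm hn)
  have h2 := (ax0_As m n a K 1 hm hn).mul (ax2_As m n a K hm hn)
  rw [← e3] at h1
  rw [← e4] at h2
  have h := h1.sub h2
  have e5 : (fun p => ((((ax m n p a K (1 + 1) : ℤ) : ℝ) - ((ax m n p a K 1 : ℤ) : ℝ)) *
      (((ax m n p a K (0 + 1) : ℤ) : ℝ) - ((ax m n p a K 0 : ℤ) : ℝ))) -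
      ((ax m n p a K 1 : ℤ) : ℝ) * (((ax m n p a K 2 : ℤ) : ℝ) -
        2 * ((ax m n p a K 1 : ℤ) : ℝ) + ((ax m n p a K 0 : ℤ) : ℝ))) =
      fun p => ((ax m n p a K 1 * ax m n p a K 1 - ax m n p a K 2 * ax m n p a K 0 : ℤ) : ℝ) := by
    funext p
    push_cast
    ring
  have e6 : ((sp a (m + n - 2) K : ℚ) : ℝ) * ((sp a (m + n - 2) K : ℚ) : ℝ) -
      ((sp a (m + n - 1) K : ℚ) : ℝ) * ((sp a (m + n - 3) K : ℚ) : ℝ) =
      ((sp a (m + n - 2) K ^ 2 - sp a (m + n - 1) K * sp a (m + n - 3) K : ℚ) : ℝ) := by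
    push_cast
    ring
  rw [e6] at h
  rw [← e5]
  exact h

theorem mix_As (m n a K L : ℕ) (hm : 3 ≤ m) (hn : 3 ≤ n) :
    As (fun p => ((ax m n p a K 2 * ax m n p a L 0 - 2 * (ax m n p a K 1 * ax m n p a L 1)
        + ax m n p a K 0 * ax m n p a L 2 : ℤ) : ℝ))
      ((sp a (m + n - 3) K * sp a (m + n - 1) L - 2 * (sp a (m + n - 2) K * sp a (m + n - 2) L)
        + sp a (m + n - 1) K * sp a (m + n - 3) L : ℚ) : ℝ) (2 * (m + n) - 4) := by
  have e1 : m + n - 1 = (m + n - 3) + 2 := by omega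
  have e2 : m + n - 2 = (m + n - 3) + 1 := by omega
  have e3 : 2 * (m + n) - 4 = (m + n - 3) + (m + n - 3) + 2 := by omega
  have a0 : ∀ M, As (fun p => ((ax m n p a M 1 : ℤ) : ℝ)) ((sp a (m + n - 1) M : ℚ) : ℝ)
      ((m + n - 3) + 2) := by
    intro M
    have h := ax0_As m n a M 1 hm hn
    have h' : As (fun p => ((ax m n p a M 1 : ℤ) : ℝ)) ((sp a (m + n - 1) M : ℚ) : ℝ)
        (m + n - 1) := h
    rwa [e1.symm]
  have a1 : ∀ M e, As (fun p => ((ax m n p a M (e + 1) : ℤ) : ℝ) - ((ax m n p a M e : ℤ) : ℝ))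
      ((sp a (m + n - 2) M : ℚ) : ℝ) ((m + n - 3) + 1) := by
    intro M e
    have h := ax1_As m n a M e hm hn
    rwa [e2.symm]
  have h := As.second (a0 K) (a1 K 1) (a1 K 0) (ax2_As m n a K hm hn)
      (a0 L) (a1 L 1) (a1 L 0) (ax2_As m n a L hm hn)
  rw [← e3] at h
  have e5 : (fun p => ((ax m n p a K 2 : ℤ) : ℝ) * ((ax m n p a L 0 : ℤ) : ℝ) -
      2 * (((ax m n p a K 1 : ℤ) : ℝ) * ((ax m n p a L 1 : ℤ) : ℝ)) +
      ((ax m n p a K 0 : ℤ) : ℝ) * ((ax m n p a L 2 : ℤ) : ℝ)) =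
      fun p => ((ax m n p a K 2 * ax m n p a L 0 - 2 * (ax m n p a K 1 * ax m n p a L 1)
        + ax m n p a K 0 * ax m n p a L 2 : ℤ) : ℝ) := by
    funext p
    push_cast
    ring
  have e6 : ((sp a (m + n - 3) K : ℚ) : ℝ) * ((sp a (m + n - 1) L : ℚ) : ℝ) -
      2 * (((sp a (m + n - 2) K : ℚ) : ℝ) * ((sp a (m + n - 2) L : ℚ) : ℝ)) +
      ((sp a (m + n - 1) K : ℚ) : ℝ) * ((sp a (m + n - 3) L : ℚ) : ℝ) =
      ((sp a (m + n - 3) K * sp a (m + n - 1) L - 2 * (sp a (m + n - 2) K * sp a (m + n - 2) L)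
        + sp a (m + n - 1) K * sp a (m + n - 3) L : ℚ) : ℝ) := by
    push_cast
    ring
  rw [← e5, ← e6]
  exact h

end Pool.HKDet
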