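import Pool.Agent.Lib.HKDet.KF1

/-!
# KF2: the sum of the fusion corrections

Proof. `2p - 2 ≤ L = 2 (m+n) p`, so the sum is the sum over the `d ∈ bxF m n 0 (2p-2)` with `oneBig p d` (`Finset.sum_filter`). Split according to `A = {i | p ≤ d (inl i)}`, `B = {j | p ≤ d (inr j)}` (`Finset.sum_fiberwise`-style over `Finset.univ.powerset` or all `Finset (Fin m) × Finset (Fin n)`); `oneBig` depends only on `(A, B)`:
`1 ≤ |A|`, `1 ≤ |B|`, `|A| = 1 ∨ |B| = 1`. `fus_T`. The number of `A` with `|A| = s` is `binom(m, s)` (`Finset.sum_powerset_apply_card` : `∑_{A} f A.card = ∑_{s ≤ m} binom(m,s) f s`). So the sum is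
`∑_{s ≤ m} ∑_{c ≤ n} binom(m,s) binom(n,c) [1 ≤ s, 1 ≤ c, s = 1 ∨ c = 1] (-1)^(s+n+c) TT (n + c - s)`; the terms with `s = 1` give the first sum, those with `s ≥ 2`, `c = 1` the second.
-/

namespace Pool.HKDet

open _root_.FSig Finset

private def kf2Phi (m n p s c : ℕ) : ℤ :=
  if 1 ≤ s ∧ 1 ≤ c ∧ (s = 1 ∨ c = 1) then (-1) ^ (s + n + c) * TT m n p (n + c - s) else 0

private lemma kf2_step1 (m n p : ℕ) (hp : 2 * (m + n) < p) (f : (Vx m n → ℕ) → ℤ) (hmn : 1 ≤ m + n) :
    ∑ d ∈ bxF m n 0 (2 * (m + n) * p),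
      (if (∀ v, d v ≤ 2 * p - 2) ∧ oneBig p d then f d else 0) =
    ∑ d ∈ bxF m n 0 (2 * p - 2), (if oneBig p d then f d else 0) := by
  have h1 : (bxF m n 0 (2 * (m + n) * p)).filter (fun d => ∀ v, d v ≤ 2 * p - 2) =
      bxF m n 0 (2 * p - 2) := by
    ext d
    unfold bxF
    simp only [mem_filter, Fintype.mem_piFinset, mem_Icc]
    constructor
    · rintro ⟨⟨_, h2⟩, h3⟩
      exact ⟨fun v => ⟨Nat.zero_le _, h3 v⟩, h2⟩
    · rintro ⟨h2, h3⟩
      refine ⟨⟨fun v => ⟨Nat.zero_le _, (h2 v).2.trans ?_⟩, h3⟩, fun v => (h2 v).2⟩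
      have h4 : 2 * p ≤ 2 * (m + n) * p := Nat.mul_le_mul_right p (by omega)
      omega
  rw [← h1, Finset.sum_filter]
  refine Finset.sum_congr rfl fun d _ => ?_
  by_cases h2 : ∀ v, d v ≤ 2 * p - 2
  · simp only [h2, true_and, implies_true, if_true]
  · rw [if_neg (fun h => h2 h.1), if_neg h2]

private lemma kf2_step2 (m n p : ℕ) (hm : 3 ≤ m) (hn : 3 ≤ n) (hp : 2 * (m + n) < p) :
    ∑ d ∈ bxF m n 0 (2 * p - 2), (if oneBig p d then csw (gF p) (barF p d) else 0) =
      ∑ A : Finset (Fin m), ∑ B : Finset (Fin n), kf2Phi m n p A.card B.card := by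
  rw [← Finset.sum_fiberwise (bxF m n 0 (2 * p - 2)) (fun d : Vx m n → ℕ =>
    ((univ.filter fun i : Fin m => p ≤ d (Sum.inl i)),
      (univ.filter fun j : Fin n => p ≤ d (Sum.inr j)))), Fintype.sum_prod_type]
  refine Finset.sum_congr rfl fun A _ => Finset.sum_congr rfl fun B _ => ?_
  have h1 := fus_T m n p hm hn hp A B
  by_cases h : 1 ≤ A.card ∧ 1 ≤ B.card ∧ (A.card = 1 ∨ B.card = 1)
  · unfold kf2Phi
    rw [if_pos h, ← h1]
    refine Finset.sum_congr ?_ fun d hd => ?_
    · ext d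
      simp only [mem_filter, Prod.mk.injEq]
    · rw [mem_filter] at hd
      rw [if_pos]
      unfold oneBig
      rw [hd.2.1, hd.2.2]
      exact h
  · unfold kf2Phi
    rw [if_neg h]
    refine Finset.sum_eq_zero fun d hd => ?_
    rw [mem_filter, Prod.mk.injEq] at hd
    rw [if_neg]
    unfold oneBig
    rw [hd.2.1, hd.2.2]
    exact h

private lemma kf2_step3 (m n p : ℕ) :
    ∑ A : Finset (Fin m), ∑ B : Finset (Fin n), kf2Phi m n p A.card B.card =
      ∑ s ∈ range (m + 1), ∑ c ∈ range (n + 1),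
        (m.choose s : ℤ) * ((n.choose c : ℤ) * kf2Phi m n p s c) := by
  have h1 : ∀ s, ∑ B : Finset (Fin n), kf2Phi m n p s B.card =
      ∑ c ∈ range (n + 1), (n.choose c : ℤ) * kf2Phi m n p s c := by
    intro s
    have h2 := Finset.sum_powerset_apply_card (x := (univ : Finset (Fin n)))
      (fun c => kf2Phi m n p s c)
    rw [Finset.powerset_univ, Finset.card_univ, Fintype.card_fin] at h2
    rw [h2]
    refine Finset.sum_congr rfl fun c _ => ?_
    rw [nsmul_eq_mul]
  have h3 := Finset.sum_powerset_apply_card (x := (univ : Finset (Fin m)))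
    (fun s => ∑ c ∈ range (n + 1), (n.choose c : ℤ) * kf2Phi m n p s c)
  rw [Finset.powerset_univ, Finset.card_univ, Fintype.card_fin] at h3
  rw [Finset.sum_congr rfl fun A _ => h1 A.card, h3]
  refine Finset.sum_congr rfl fun s _ => ?_
  rw [nsmul_eq_mul, Finset.mul_sum]

private lemma kf2_phi (m n p s c : ℕ) : kf2Phi m n p s c =
    (if s = 1 then (if 1 ≤ c then (-1) ^ (1 + n + c) * TT m n p (n + c - 1) else 0) else 0) +
    (if 2 ≤ s then (if c = 1 then (-1) ^ (s + n + 1) * TT m n p (n + 1 - s) else 0) else 0) := by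
  unfold kf2Phi
  by_cases h1 : s = 1
  · subst h1
    rw [if_neg (show ¬ 2 ≤ 1 by omega), add_zero, if_pos rfl]
    by_cases h2 : 1 ≤ c
    · rw [if_pos h2, if_pos ⟨le_refl _, h2, Or.inl rfl⟩]
    · rw [if_neg h2, if_neg (fun h => h2 h.2.1)]
  · rw [if_neg h1, zero_add]
    by_cases h2 : 2 ≤ s
    · rw [if_pos h2]
      by_cases h3 : c = 1
      · subst h3
        rw [if_pos rfl, if_pos ⟨by omega, le_refl _, Or.inr rfl⟩]
      · rw [if_neg h3, if_neg]
        rintro ⟨_, _, h4 | h4⟩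
        · exact h1 h4
        · exact h3 h4
    · rw [if_neg h2, if_neg (fun h => by omega)]

theorem sumF (m n p : ℕ) (hm : 3 ≤ m) (hn : 3 ≤ n) (hp : 2 * (m + n) < p) :
    ∑ d ∈ bxF m n 0 (2 * (m + n) * p),
      (if (∀ v, d v ≤ 2 * p - 2) ∧ oneBig p d then csw (gF p) (barF p d) else 0) =
      m * (∑ c ∈ Icc 1 n, (n.choose c : ℤ) * ((-1) ^ (1 + n + c) * TT m n p (n + c - 1)))
        + n * (∑ s ∈ Icc 2 m, (m.choose s : ℤ) * ((-1) ^ (s + n + 1) * TT m n p (n + 1 - s))) := by
  rw [kf2_step1 m n p hp _ (by omega), kf2_step2 m n p hm hn hp, kf2_step3]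
  simp only [kf2_phi, mul_add, Finset.sum_add_distrib]
  congr 1
  · rw [Finset.sum_eq_single 1]
    · rw [Nat.choose_one_right, ← Finset.mul_sum]
      congr 1
      have h1 : Icc 1 n = (range (n + 1)).filter (fun c => 1 ≤ c) := by
        ext c
        simp only [mem_Icc, mem_filter, mem_range]
        omega
      rw [h1, Finset.sum_filter]
      refine Finset.sum_congr rfl fun c _ => ?_
      rw [if_pos rfl]
      split_ifs
      · rfl
      · rw [mul_zero]
    · intro s _ hs
      refine Finset.sum_eq_zero fun c _ => ?_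
      rw [if_neg hs, mul_zero, mul_zero]
    · intro h
      exact absurd (mem_range.2 (by omega)) h
  · have h1 : Icc 2 m = (range (m + 1)).filter (fun s => 2 ≤ s) := by
      ext c
      simp only [mem_Icc, mem_filter, mem_range]
      omega
    rw [h1, Finset.sum_filter, Finset.mul_sum]
    refine Finset.sum_congr rfl fun s _ => ?_
    by_cases h2 : 2 ≤ s
    · rw [if_pos h2, Finset.sum_eq_single 1]
      · rw [if_pos h2, if_pos rfl, Nat.choose_one_right]
        ring
      · intro c _ hc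
        rw [if_pos h2, if_neg hc, mul_zero, mul_zero]
      · intro h
        exact absurd (mem_range.2 (by omega)) h
    · rw [if_neg h2, mul_zero]
      refine Finset.sum_eq_zero fun c _ => ?_
      rw [if_neg h2, mul_zero, mul_zero]

end Pool.HKDet
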