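import Pool.Agent.Lib.HKDet.KP2
import Pool.Agent.Lib.FSig.CntD

/-!
# KP3: the sum of the mixed parts

Proof. For `v : Vx m n → ℕ` let `a = ∑_i v (inl i)`, `b = ∑_j v (inr j)`, so `∑ v = a + b`, `df v = a - b`. `(d, v)`, `v ∈ vset m n p d`, corresponds to `(v, d')`, `d' = d - p v ∈ [0,2p-2]^V`, `d = d' + p v`; `BalF d` iff `df d' = p (b - a)` iff `d' ∈ bxK m n p (p (b - a))`,
`v` has a row and a column in its support iff `1 ≤ a` and `1 ≤ b`; `d ≤ L = 2 (m+n) p` is a restriction on `(v, d')`; `v ∈ blw d` is automatic (`v ≤ p v ≤ d`). (Write the left side as a sum over `Finset.sigma` and use `Finset.sum_bij'` or `Finset.sum_nbij'` to the sigma type over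
`v ∈ Fintype.piFinset fun _ => range (L + 1)`, `1 ≤ a`, `1 ≤ b`, and `d' ∈ bxK ..` filtered by `∀ x, d' x + p * v x ≤ L`.)
By `sw_gM_zero` only the `v` with `a + 1 < n`, `b + 1 < m` contribute, and for these `d' x + p v x ≤ 2p - 2 + p (m + n) ≤ L` for all `d' ∈ bxK` (no restriction) and `v x ≤ L`. So the sum is `∑_v [1 ≤ a ≤ n - 2, 1 ≤ b ≤ m - 2] G a b`, `G a b` = right side of `sum_gM`.
The number of `v` with given `a`, `b` is `binom(a + m - 1, m - 1) * binom(b + n - 1, n - 1)` (stars and bars; e.g. `card_box` in `CntGF` with `p := a + 1`: only the term `i = 0`, or `Finset.Nat.card_piAntidiag`, `Finset.card_piAntidiag`). The additional terms of the right side are `0`: `a = n - 1`: empty sum over `l`;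
`b = m - 1`: `G a b = ∑_{d ∈ bxK} csw (gM ..) = 0` by `sum_gM`, `sw_gM_zero`. Finally `DD_al` with `K = n + b + l` and `K = n - a - l` (`l < n - a`): `DD (p (b + l) + e - 1) = al (n + b + l) e`, `DD (-(p (a + l)) + e - 1) = al (n - a - l) e`, `e = 0, 1, 2`.
-/

namespace Pool.HKDet

open _root_.FSig Finset

private def sa {m n : ℕ} (v : Vx m n → ℕ) : ℕ := ∑ i, v (Sum.inl i)

private def sb {m n : ℕ} (v : Vx m n → ℕ) : ℕ := ∑ j, v (Sum.inr j)

private lemma le_sa {m n : ℕ} (v : Vx m n → ℕ) (i : Fin m) : v (Sum.inl i) ≤ sa v :=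
  Finset.single_le_sum (f := fun i => v (Sum.inl i)) (fun _ _ => Nat.zero_le _) (mem_univ i)

private lemma le_sb {m n : ℕ} (v : Vx m n → ℕ) (j : Fin n) : v (Sum.inr j) ≤ sb v :=
  Finset.single_le_sum (f := fun j => v (Sum.inr j)) (fun _ _ => Nat.zero_le _) (mem_univ j)

private def Vs (m n : ℕ) : Finset (Vx m n → ℕ) :=
  (Fintype.piFinset fun _ => range (m + n)).filter fun v =>
    (1 ≤ sa v ∧ sa v < n) ∧ (1 ≤ sb v ∧ sb v < m)

private lemma mem_Vs {m n : ℕ} {v : Vx m n → ℕ} :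
    v ∈ Vs m n ↔ (1 ≤ sa v ∧ sa v < n) ∧ (1 ≤ sb v ∧ sb v < m) := by
  unfold Vs
  rw [mem_filter, Fintype.mem_piFinset]
  refine ⟨fun h => h.2, fun h => ⟨?_, h⟩⟩
  rintro (i | j)
  · rw [mem_range]
    have := le_sa v i
    omega
  · rw [mem_range]
    have := le_sb v j
    omega

private lemma mem_vs {m n p : ℕ} (hp : 1 ≤ p) {d v : Vx m n → ℕ} :
    v ∈ vset m n p d ↔
      (∀ x, p * v x ≤ d x ∧ d x - p * v x ≤ 2 * p - 2) ∧ 1 ≤ sa v ∧ 1 ≤ sb v := by
  unfold vset blw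
  rw [mem_filter, Fintype.mem_piFinset]
  have e1 : (∃ i : Fin m, v (Sum.inl i) ≠ 0) ↔ 1 ≤ sa v := by
    rw [Nat.one_le_iff_ne_zero, sa, Ne, Finset.sum_eq_zero_iff]
    simp
  have e2 : (∃ j : Fin n, v (Sum.inr j) ≠ 0) ↔ 1 ≤ sb v := by
    rw [Nat.one_le_iff_ne_zero, sb, Ne, Finset.sum_eq_zero_iff]
    simp
  rw [e1, e2]
  constructor
  · rintro ⟨-, h⟩
    exact h
  · intro h
    refine ⟨fun x => ?_, h⟩
    rw [mem_range]
    have h1 := (h.1 x).1
    have h2 : v x ≤ p * v x := Nat.le_mul_of_pos_left _ hp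
    omega

private lemma df_sub {m n p : ℕ} {d v : Vx m n → ℕ} (h : ∀ x, p * v x ≤ d x) :
    df (fun x => d x - p * v x) = df d + p * ((sb v : ℤ) - sa v) := by
  have e : ∀ x, ((d x - p * v x : ℕ) : ℤ) = (d x : ℤ) - (p : ℤ) * (v x : ℤ) := fun x => by
    rw [Nat.cast_sub (h x)]
    push_cast
    rfl
  unfold df sa sb
  simp only [e, Finset.sum_sub_distrib, ← Finset.mul_sum]
  push_cast
  ring

private lemma df_add {m n p : ℕ} (d v : Vx m n → ℕ) :
    df (fun x => d x + p * v x) = df d + p * ((sa v : ℤ) - sb v) := by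
  unfold df sa sb
  push_cast
  simp only [Finset.sum_add_distrib, ← Finset.mul_sum]
  ring

private lemma bal_iff {m n : ℕ} {d : Vx m n → ℕ} : BalF d ↔ df d = 0 := by
  unfold BalF df
  rw [sub_eq_zero]
  exact_mod_cast Iff.rfl

private lemma mem_bxF' {m n L : ℕ} {d : Vx m n → ℕ} :
    d ∈ bxF m n 0 L ↔ (∀ x, d x ≤ L) ∧ df d = 0 := by
  unfold bxF
  rw [mem_filter, Fintype.mem_piFinset, bal_iff]
  simp

private lemma mem_bxK' {m n p : ℕ} {κ : ℤ} {d : Vx m n → ℕ} :
    d ∈ bxK m n p κ ↔ (∀ x, d x < 2 * p - 1) ∧ df d = κ := by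
  unfold bxK
  rw [mem_filter, Fintype.mem_piFinset]
  simp

private lemma inner {m n p : ℕ} (hm : 3 ≤ m) (hn : 3 ≤ n) (hp : 2 * (m + n) < p)
    {v : Vx m n → ℕ} (hv : v ∈ Vs m n) (f : (Vx m n → ℕ) → ℤ) :
    ∑ d ∈ (bxF m n 0 (2 * (m + n) * p)).filter (fun d => v ∈ vset m n p d),
      f (fun x => d x - p * v x) =
    ∑ d ∈ bxK m n p ((p : ℤ) * ((sb v : ℤ) - sa v)), f d := by
  have hv' := mem_Vs.1 hv
  refine Finset.sum_nbij' (fun d x => d x - p * v x) (fun d x => d x + p * v x) ?_ ?_ ?_ ?_ ?_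
  · intro d hd
    rw [mem_filter, mem_bxF', mem_vs (by omega)] at hd
    obtain ⟨⟨h1, h2⟩, h3, -, -⟩ := hd
    rw [mem_bxK', df_sub fun x => (h3 x).1, h2, zero_add]
    refine ⟨fun x => ?_, rfl⟩
    have := (h3 x).2
    show d x - p * v x < 2 * p - 1
    omega
  · intro d hd
    rw [mem_bxK'] at hd
    rw [mem_filter, mem_bxF', mem_vs (by omega), df_add, hd.2]
    refine ⟨⟨fun x => ?_, by ring⟩, fun x => ?_, hv'.1.1, hv'.2.1⟩
    · have h1 := hd.1 x
      have h2 : v x ≤ m + n := by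
        rcases x with i | j
        · have := le_sa v i
          omega
        · have := le_sb v j
          omega
      have h3 : p * v x ≤ p * (m + n) := Nat.mul_le_mul_left p h2
      have h4 : 6 * p ≤ (m + n) * p := Nat.mul_le_mul_right p (by omega)
      have h5 : 2 * (m + n) * p = (m + n) * p + p * (m + n) := by ring
      show d x + p * v x ≤ 2 * (m + n) * p
      rw [h5]
      omega
    · have h1 := hd.1 x
      show p * v x ≤ d x + p * v x ∧ d x + p * v x - p * v x ≤ 2 * p - 2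
      omega
  · intro d hd
    rw [mem_filter, mem_bxF', mem_vs (by omega)] at hd
    obtain ⟨-, h3, -, -⟩ := hd
    funext x
    have := (h3 x).1
    show d x - p * v x + p * v x = d x
    omega
  · intro d _
    funext x
    show d x + p * v x - p * v x = d x
    omega
  · intro d _
    rfl

private lemma cnt (k s : ℕ) (hk : 1 ≤ k) :
    (((Fintype.piFinset fun _ : Fin k => range (s + 1)).filter
      (fun y => ∑ v, y v = s)).card : ℤ) = ((s + k - 1).choose (k - 1) : ℤ) := by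
  have h := card_box (Fin k) (by rw [Fintype.card_fin]; exact hk) (s + 1) s
  rw [Fintype.card_fin] at h
  rw [h, Finset.sum_eq_single 0]
  · simp
  · intro i _ hi
    rw [if_neg, mul_zero]
    have h1 : 1 ≤ i := Nat.one_le_iff_ne_zero.2 hi
    have h2 : (s + 1) * 1 ≤ (s + 1) * i := Nat.mul_le_mul_left _ h1
    omega
  · intro h0
    exact absurd (mem_range.2 (Nat.succ_pos k)) h0

private lemma cnt2 {m n : ℕ} (hm : 3 ≤ m) (hn : 3 ≤ n) {a b : ℕ} (ha : a ∈ Ico 1 n)
    (hb : b ∈ Ico 1 m) :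
    (((Vs m n).filter fun v => (sa v, sb v) = (a, b)).card : ℤ) =
      ((a + m - 1).choose (m - 1) : ℤ) * ((b + n - 1).choose (n - 1) : ℤ) := by
  rw [mem_Ico] at ha hb
  rw [← cnt m a (by omega), ← cnt n b (by omega), ← Nat.cast_mul, ← Finset.card_product]
  congr 1
  refine Finset.card_nbij' (fun v => (fun i => v (Sum.inl i), fun j => v (Sum.inr j)))
    (fun q => Sum.elim q.1 q.2) ?_ ?_ ?_ ?_
  · intro v hv
    rw [Finset.mem_coe, mem_filter, Prod.mk.injEq] at hv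
    obtain ⟨-, h1, h2⟩ := hv
    rw [Finset.mem_coe, mem_product, mem_filter, mem_filter, Fintype.mem_piFinset,
      Fintype.mem_piFinset]
    refine ⟨⟨fun i => ?_, h1⟩, fun j => ?_, h2⟩
    · rw [mem_range, ← h1]
      exact Nat.lt_succ_of_le (le_sa v i)
    · rw [mem_range, ← h2]
      exact Nat.lt_succ_of_le (le_sb v j)
  · rintro ⟨r, c⟩ hq
    rw [Finset.mem_coe, mem_product, mem_filter, mem_filter] at hq
    obtain ⟨⟨-, h1⟩, -, h2⟩ := hq
    have e1 : sa (Sum.elim r c : Vx m n → ℕ) = a := h1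
    have e2 : sb (Sum.elim r c : Vx m n → ℕ) = b := h2
    rw [Finset.mem_coe, mem_filter, mem_Vs]
    show ((1 ≤ sa (Sum.elim r c : Vx m n → ℕ) ∧ sa (Sum.elim r c : Vx m n → ℕ) < n) ∧
      (1 ≤ sb (Sum.elim r c : Vx m n → ℕ) ∧ sb (Sum.elim r c : Vx m n → ℕ) < m)) ∧
      (sa (Sum.elim r c : Vx m n → ℕ), sb (Sum.elim r c : Vx m n → ℕ)) = (a, b)
    rw [e1, e2]
    exact ⟨⟨ha, hb⟩, rfl⟩
  · intro v _
    funext x
    rcases x with i | j <;> rfl
  · intro q _
    rfl

theorem sumP (m n p : ℕ) (hm : 3 ≤ m) (hn : 3 ≤ n) (hp : 2 * (m + n) < p) :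
    ∑ d ∈ bxF m n 0 (2 * (m + n) * p), pmid m n p d =
      ∑ a ∈ Ico 1 n, ∑ b ∈ Ico 1 m,
        ((a + m - 1).choose (m - 1) : ℤ) * ((b + n - 1).choose (n - 1) : ℤ) *
          ∑ l ∈ Ico 1 (n - a),
            (al m n p (n + b + l) 2 * al m n p (n - a - l) 0
              - 2 * (al m n p (n + b + l) 1 * al m n p (n - a - l) 1)
              + al m n p (n + b + l) 0 * al m n p (n - a - l) 2) := by
  set F : (Vx m n → ℕ) → (Vx m n → ℕ) → ℤ := fun v d =>
    csw (gM p (sa v + sb v)) (barF p d) with hF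
  have e1 : ∀ d ∈ bxF m n 0 (2 * (m + n) * p), pmid m n p d =
      ∑ v ∈ (vset m n p d).filter (fun v => v ∈ Vs m n), F v (fun x => d x - p * v x) := by
    intro d hd
    unfold pmid
    rw [Finset.sum_filter]
    refine Finset.sum_congr rfl fun v hv => ?_
    have hs : ∑ x, v x = sa v + sb v := Fintype.sum_sum_type v
    rw [hs]
    rw [mem_bxF'] at hd
    rw [mem_vs (by omega)] at hv
    by_cases h : v ∈ Vs m n
    · rw [if_pos h]
    · rw [if_neg h]
      rw [mem_Vs] at h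
      refine sw_gM_zero m n p (sa v) (sb v) (by omega) (by omega) (by omega) ?_ _ ?_
      · by_contra h2
        rw [not_or, not_le, not_le] at h2
        exact h ⟨⟨hv.2.1, by omega⟩, hv.2.2, by omega⟩
      · rw [mem_bxK', df_sub fun x => (hv.1 x).1, hd.2, zero_add]
        refine ⟨fun x => ?_, rfl⟩
        have := (hv.1 x).2
        show d x - p * v x < 2 * p - 1
        omega
  rw [Finset.sum_congr rfl e1]
  have e2 : ∑ d ∈ bxF m n 0 (2 * (m + n) * p),
      ∑ v ∈ (vset m n p d).filter (fun v => v ∈ Vs m n), F v (fun x => d x - p * v x) =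
      ∑ v ∈ Vs m n, ∑ d ∈ (bxF m n 0 (2 * (m + n) * p)).filter (fun d => v ∈ vset m n p d),
        F v (fun x => d x - p * v x) := by
    refine Finset.sum_comm' fun d v => ?_
    rw [mem_filter, mem_filter]
    tauto
  rw [e2, Finset.sum_congr rfl fun v hv => inner hm hn hp hv (F v)]
  have e3 : ∀ v ∈ Vs m n, (sa v, sb v) ∈ Ico 1 n ×ˢ Ico 1 m := by
    intro v hv
    rw [mem_Vs] at hv
    rw [mem_product, mem_Ico, mem_Ico]
    exact hv
  rw [← Finset.sum_fiberwise_of_maps_to e3, Finset.sum_product]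
  refine Finset.sum_congr rfl fun a ha => Finset.sum_congr rfl fun b hb => ?_
  have e4 : ∀ v ∈ (Vs m n).filter (fun v => (sa v, sb v) = (a, b)),
      ∑ d ∈ bxK m n p ((p : ℤ) * ((sb v : ℤ) - sa v)), F v d =
      ∑ d ∈ bxK m n p ((p : ℤ) * ((b : ℤ) - a)), csw (gM p (a + b)) (barF p d) := by
    intro v hv
    rw [mem_filter, Prod.mk.injEq] at hv
    obtain ⟨-, h1, h2⟩ := hv
    simp only [hF]
    rw [h1, h2]
  rw [Finset.sum_congr rfl e4, Finset.sum_const, nsmul_eq_mul, cnt2 hm hn ha hb,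
    sum_gM m n p a b (by omega) (by omega) (by omega)]
  congr 1
  refine Finset.sum_congr rfl fun l hl => ?_
  obtain ⟨hl1, hl2⟩ := Finset.mem_Ico.1 hl
  have hsub : ((n - a - l : ℕ) : ℤ) = (n : ℤ) - a - l := by omega
  have a2 := DD_al m n p hm hn hp (n + b + l) 2 (by omega)
  have a1 := DD_al m n p hm hn hp (n + b + l) 1 (by omega)
  have a0 := DD_al m n p hm hn hp (n + b + l) 0 (by omega)
  have b2 := DD_al m n p hm hn hp (n - a - l) 2 (by omega)
  have b1 := DD_al m n p hm hn hp (n - a - l) 1 (by omega)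
  have b0 := DD_al m n p hm hn hp (n - a - l) 0 (by omega)
  rw [← a2, ← a1, ← a0, ← b2, ← b1, ← b0, hsub]
  push_cast
  have e1 : (p : ℤ) * ((n : ℤ) + b + l - n) + 2 - 1 = p * (b + l) + 1 := by ring
  have e2 : (p : ℤ) * ((n : ℤ) + b + l - n) + 1 - 1 = p * (b + l) := by ring
  have e3 : (p : ℤ) * ((n : ℤ) + b + l - n) + 0 - 1 = p * (b + l) - 1 := by ring
  have e4 : (p : ℤ) * ((n : ℤ) - a - l - n) + 2 - 1 = -(p * (a + l)) + 1 := by ring
  have e5 : (p : ℤ) * ((n : ℤ) - a - l - n) + 1 - 1 = -(p * (a + l)) := by ring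
  have e6 : (p : ℤ) * ((n : ℤ) - a - l - n) + 0 - 1 = -(p * (a + l)) - 1 := by ring
  rw [e1, e2, e3, e4, e5, e6]
  ring

end Pool.HKDet
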