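import Pool.Agent.Lib.HKDet.KDefs
import Pool.Agent.Lib.FSig.CntW
import Pool.Agent.Lib.FSig.CntD

/-!
# KZ: the sum with all vectors barred

Proof. As `2 p - 2 ≤ M p` the sum is the sum over `bxF m n 0 (2p-2)` of `csw gI (barF p d)` (`Finset.sum_filter`, the filtered sets agree). `pair_sum` with `g = gI`; `gI (2 k) = [k = 0] - [k = 1]`, so the double sum is
`∑∑ [df u + df u' = 0 ∧ df u = 0] - ∑∑ [df u + df u' = 0 ∧ df u = 1] = DD 0 * DD (-0) - DD 1 * DD (-1)` (`sum_pair_eq`). `DD_al` with `K = n`: `p * (n - n) + e - 1 = e - 1`.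
-/

namespace Pool.HKDet

open _root_.FSig Finset

theorem sumZ (m n p M : ℕ) (hm : 3 ≤ m) (hn : 3 ≤ n) (hp : 2 * (m + n) < p) (hM : 2 ≤ M) :
    ∑ d ∈ bxF m n 0 (M * p), (if ∀ v, d v ≤ 2 * p - 2 then csw gI (barF p d) else 0) =
      al m n p n 1 * al m n p n 1 - al m n p n 2 * al m n p n 0 := by
  have hMp : 2 * p - 2 ≤ M * p := by
    have : 2 * p ≤ M * p := Nat.mul_le_mul_right p hM
    omega
  have h1 : ∑ d ∈ bxF m n 0 (M * p), (if ∀ v, d v ≤ 2 * p - 2 then csw gI (barF p d) else 0) =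
      ∑ d ∈ bxF m n 0 (2 * p - 2), csw gI (barF p d) := by
    rw [← Finset.sum_filter]
    refine Finset.sum_congr ?_ fun _ _ => rfl
    ext d
    unfold bxF
    simp only [Finset.mem_filter, Fintype.mem_piFinset, Finset.mem_Icc]
    constructor
    · rintro ⟨⟨_, hB⟩, h⟩
      exact ⟨fun v => ⟨Nat.zero_le _, h v⟩, hB⟩
    · rintro ⟨h, hB⟩
      exact ⟨⟨fun v => ⟨Nat.zero_le _, (h v).2.trans hMp⟩, hB⟩, fun v => (h v).2⟩
  rw [h1, pair_sum m n p (by omega) gI]
  have h2 : ∀ u ∈ sq m n p, ∀ u' ∈ sq m n p,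
      (if df u + df u' = 0 then gI (2 * df u) else 0) =
        (if df u + df u' = 0 ∧ df u = 0 then (1 : ℤ) else 0) -
          if df u + df u' = 0 ∧ df u = 1 then (1 : ℤ) else 0 := by
    intro u _ u' _
    by_cases h : df u + df u' = 0
    · rw [if_pos h]
      have a1 : (2 * df u = 0) ↔ df u = 0 := by omega
      have a2 : (2 * df u = 2) ↔ df u = 1 := by omega
      unfold gI
      simp only [a1, a2, h, true_and]
    · rw [if_neg h]
      simp only [h, false_and, if_false, sub_zero]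
  rw [Finset.sum_congr rfl fun u hu => Finset.sum_congr rfl fun u' hu' => h2 u hu u' hu']
  simp only [Finset.sum_sub_distrib]
  rw [sum_pair_eq, sum_pair_eq]
  have d1 := DD_al m n p hm hn hp n 1 (by omega)
  have d2 := DD_al m n p hm hn hp n 2 (by omega)
  have d0 := DD_al m n p hm hn hp n 0 (by omega)
  have e1 : (p : ℤ) * ((n : ℤ) - n) + ((1 : ℕ) : ℤ) - 1 = 0 := by push_cast; ring
  have e2 : (p : ℤ) * ((n : ℤ) - n) + ((2 : ℕ) : ℤ) - 1 = 1 := by push_cast; ring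
  have e0 : (p : ℤ) * ((n : ℤ) - n) + ((0 : ℕ) : ℤ) - 1 = -1 := by push_cast; ring
  rw [e1] at d1
  rw [e2] at d2
  rw [e0] at d0
  rw [neg_zero, d1, d2, d0]

end Pool.HKDet
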