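import Pool.Agent.Lib.HKDet.KX3
import Pool.Agent.Lib.HKDet.KZ
import Pool.Agent.Lib.HKDet.KP3
import Pool.Agent.Lib.HKDet.KF2
import Pool.Agent.Lib.HKDet.KAs
import Pool.Agent.Lib.FSig.CntTAs

/-!
# KTot: assembly of the counting part

`hkTot_eq`: `hkTot` is the sum of the five sums (`Finset.sum_add_distrib`, `Finset.sum_sub_distrib`): `sumX` with `M = 2 (m+n)` and `DX_eq` (`B = 2 (m+n) p`, `e = 1, 2, 0`; the sums are `ax m n p n n e`), `sumY` (`DX n m`: `ax n m p m m e`; hypotheses `2 * (n + m) < p`), `sumZ` (`al = ax (m+n)`), `sumP`, `sumF`.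
`hkCount`: asymptotics term by term: `quad_As m n n n`, `quad_As n m m m` (exponents `2 * (n + m) - 4 = 2 * (m + n) - 4`, `sp m (n + m - 2) m`, ...: `Nat.add_comm`), `quad_As m n (m+n) n`, for the mixed part `mix_As m n (m+n) (n+b+l) (n-a-l)` and `As.sum`, `As.const_mul`, for the last part `TT_As`:
`(-1)^(1+n+c) * (-((-1)^(n+c-1) * Hc (m+n) (n+c-1)) / (2 (m+n-1)!^2)) = - Hc (m+n) (n+c-1) / (2 (m+n-1)!^2)` (`(1+n+c) + (n+c-1)` is even), and `(-1)^(s+n+1) (-1)^(n+1-s) = 1` if `s ≤ n + 1`; if `n + 1 < s`, `Hc (m+n) 0 = 0`.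
`As` gives a bound for all `p ≥ 1` for the explicit expression, which equals `hkTot m n p` for `2 (m + n) < p`: `|F p - a p^r| * p ≤ C p^r`, `p^r = p * p^(r-1)`, `r = 2(m+n)-4 ≥ 1`.
-/

namespace Pool.HKDet

open _root_.FSig Finset

private lemma ktot_DX (m n p B : ℕ) (hm : 3 ≤ m) (hn : 3 ≤ n) (hp : 2 * (m + n) < p)
    (hB : n * p ≤ B) :
    DX m n p B 0 * DX m n p B 0 - DX m n p B 1 * DX m n p B (-1) =
      ax m n p n n 1 * ax m n p n n 1 - ax m n p n n 2 * ax m n p n n 0 := by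
  have h0 := DX_eq m n p B hm hn hp hB 0 (by omega)
  have h1 := DX_eq m n p B hm hn hp hB 1 (by omega)
  have h2 := DX_eq m n p B hm hn hp hB 2 (by omega)
  rw [show (((0 : ℕ) : ℤ) - 1) = -1 by norm_num] at h0
  rw [show (((1 : ℕ) : ℤ) - 1) = 0 by norm_num] at h1
  rw [show (((2 : ℕ) : ℤ) - 1) = 1 by norm_num] at h2
  rw [h0, h1, h2]
  rfl

theorem hkTot_eq (m n p : ℕ) (hm : 3 ≤ m) (hn : 3 ≤ n) (hp : 2 * (m + n) < p) :
    hkTot m n p =
      (ax m n p n n 1 * ax m n p n n 1 - ax m n p n n 2 * ax m n p n n 0)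
      + (ax n m p m m 1 * ax n m p m m 1 - ax n m p m m 2 * ax n m p m m 0)
      - (ax m n p (m + n) n 1 * ax m n p (m + n) n 1 - ax m n p (m + n) n 2 * ax m n p (m + n) n 0)
      + (∑ a ∈ Ico 1 n, ∑ b ∈ Ico 1 m,
          ((a + m - 1).choose (m - 1) : ℤ) * ((b + n - 1).choose (n - 1) : ℤ) *
            ∑ l ∈ Ico 1 (n - a),
              (ax m n p (m + n) (n + b + l) 2 * ax m n p (m + n) (n - a - l) 0
                - 2 * (ax m n p (m + n) (n + b + l) 1 * ax m n p (m + n) (n - a - l) 1)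
                + ax m n p (m + n) (n + b + l) 0 * ax m n p (m + n) (n - a - l) 2))
      + (m * (∑ c ∈ Icc 1 n, (n.choose c : ℤ) * ((-1) ^ (1 + n + c) * TT m n p (n + c - 1)))
        + n * (∑ s ∈ Icc 2 m, (m.choose s : ℤ) * ((-1) ^ (s + n + 1) * TT m n p (n + 1 - s)))) := by
  have hX := sumX m n p (2 * (m + n)) (by omega) (by omega) (by omega)
  have hY := sumY m n p (2 * (m + n)) (by omega) (by omega) (by omega)
  have hZ := sumZ m n p (2 * (m + n)) hm hn hp (by omega)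
  have hP := sumP m n p hm hn hp
  have hF := sumF m n p hm hn hp
  rw [ktot_DX m n p _ hm hn hp (Nat.mul_le_mul_right p (by omega))] at hX
  rw [ktot_DX n m p _ hn hm (by omega) (Nat.mul_le_mul_right p (by omega))] at hY
  simp only [al_eq_ax] at hZ hP
  unfold hkTot hkw
  rw [Finset.sum_add_distrib, Finset.sum_add_distrib, Finset.sum_sub_distrib,
    Finset.sum_add_distrib, hX, hY, hZ, hP, hF]

private lemma ktot_congr {F G : ℕ → ℝ} {a b : ℝ} {r s : ℕ} (h : As F a r)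
    (hF : ∀ p, G p = F p) (ha : b = a) (hr : s = r) : As G b s := by
  have h1 : G = F := funext hF
  subst h1
  subst ha
  subst hr
  exact h

private lemma ktot_mid (m n : ℕ) (hm : 3 ≤ m) (hn : 3 ≤ n) :
    As (fun p => ((∑ a ∈ Ico 1 n, ∑ b ∈ Ico 1 m,
          ((a + m - 1).choose (m - 1) : ℤ) * ((b + n - 1).choose (n - 1) : ℤ) *
            ∑ l ∈ Ico 1 (n - a),
              (ax m n p (m + n) (n + b + l) 2 * ax m n p (m + n) (n - a - l) 0
                - 2 * (ax m n p (m + n) (n + b + l) 1 * ax m n p (m + n) (n - a - l) 1)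
                + ax m n p (m + n) (n + b + l) 0 * ax m n p (m + n) (n - a - l) 2) : ℤ) : ℝ))
      ((∑ a ∈ Ico 1 n, ∑ b ∈ Ico 1 m,
        ((a + m - 1).choose (m - 1) : ℚ) * ((b + n - 1).choose (n - 1) : ℚ) *
        ∑ l ∈ Ico 1 (n - a),
        (sp (m + n) (m + n - 3) (n + b + l) * sp (m + n) (m + n - 1) (n - a - l)
          - 2 * (sp (m + n) (m + n - 2) (n + b + l) * sp (m + n) (m + n - 2) (n - a - l))
          + sp (m + n) (m + n - 1) (n + b + l) * sp (m + n) (m + n - 3) (n - a - l)) : ℚ) : ℝ)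
      (2 * (m + n) - 4) := by
  have h := As.sum (Ico 1 n) fun a _ => As.sum (Ico 1 m) fun b _ =>
    As.const_mul (((a + m - 1).choose (m - 1) : ℝ) * ((b + n - 1).choose (n - 1) : ℝ))
      (As.sum (Ico 1 (n - a)) fun l _ => mix_As m n (m + n) (n + b + l) (n - a - l) hm hn)
  refine ktot_congr h (fun p => ?_) ?_ rfl
  · rw [Int.cast_sum]
    refine Finset.sum_congr rfl fun a _ => ?_
    rw [Int.cast_sum]
    refine Finset.sum_congr rfl fun b _ => ?_
    rw [Int.cast_mul, Int.cast_mul, Int.cast_natCast, Int.cast_natCast, Int.cast_sum]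
  · rw [Rat.cast_sum]
    refine Finset.sum_congr rfl fun a _ => ?_
    rw [Rat.cast_sum]
    refine Finset.sum_congr rfl fun b _ => ?_
    rw [Rat.cast_mul, Rat.cast_mul, Rat.cast_natCast, Rat.cast_natCast, Rat.cast_sum]

private lemma ktot_sign {a b : ℕ} (h : Even (a + b)) : ((-1 : ℚ)) ^ a * (-1) ^ b = 1 := by
  rw [← pow_add, h.neg_one_pow]

private lemma ktot_last (m n : ℕ) (hm : 3 ≤ m) (hn : 3 ≤ n) :
    As (fun p => ((m * (∑ c ∈ Icc 1 n, (n.choose c : ℤ) *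
          ((-1) ^ (1 + n + c) * TT m n p (n + c - 1)))
        + n * (∑ s ∈ Icc 2 m, (m.choose s : ℤ) *
          ((-1) ^ (s + n + 1) * TT m n p (n + 1 - s))) : ℤ) : ℝ))
      ((-((m * (∑ c ∈ Icc 1 n, (n.choose c : ℚ) * Hc (m + n) (n + c - 1))
      + n * (∑ s ∈ Icc 2 m, (m.choose s : ℚ) * Hc (m + n) (n + 1 - s))) /
    (2 * ((m + n - 1).factorial : ℚ) ^ 2)) : ℚ) : ℝ)
      (2 * (m + n) - 4) := by
  have h1 := As.const_mul (m : ℝ) (As.sum (Icc 1 n) fun c _ => As.const_mul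
    ((n.choose c : ℝ) * (-1) ^ (1 + n + c)) (TT_As m n (n + c - 1) hm hn))
  have h2 := As.const_mul (n : ℝ) (As.sum (Icc 2 m) fun s _ => As.const_mul
    ((m.choose s : ℝ) * (-1) ^ (s + n + 1)) (TT_As m n (n + 1 - s) hm hn))
  refine ktot_congr (As.add h1 h2) (fun p => ?_) ?_ rfl
  · rw [Int.cast_add, Int.cast_mul, Int.cast_mul, Int.cast_sum, Int.cast_sum, Int.cast_natCast,
      Int.cast_natCast]
    congr 2
    · refine Finset.sum_congr rfl fun c _ => ?_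
      rw [Int.cast_mul, Int.cast_mul, Int.cast_natCast, Int.cast_pow, Int.cast_neg, Int.cast_one,
        mul_assoc]
    · refine Finset.sum_congr rfl fun c _ => ?_
      rw [Int.cast_mul, Int.cast_mul, Int.cast_natCast, Int.cast_pow, Int.cast_neg, Int.cast_one,
        mul_assoc]
  · have h3 : ∀ c ∈ Icc 1 n, (n.choose c : ℚ) * (-1) ^ (1 + n + c) *
        (-((-1) ^ (n + c - 1) * Hc (m + n) (n + c - 1)) / (2 * ((m + n - 1).factorial : ℚ) ^ 2)) =
        -((n.choose c : ℚ) * Hc (m + n) (n + c - 1)) / (2 * ((m + n - 1).factorial : ℚ) ^ 2) := by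
      intro c hc
      rw [mem_Icc] at hc
      have h4 : ((-1 : ℚ)) ^ (1 + n + c) * (-1) ^ (n + c - 1) = 1 :=
        ktot_sign ⟨n + c, by omega⟩
      linear_combination (-((n.choose c : ℚ) * Hc (m + n) (n + c - 1)) /
        (2 * ((m + n - 1).factorial : ℚ) ^ 2)) * h4
    have h5 : ∀ s ∈ Icc 2 m, (m.choose s : ℚ) * (-1) ^ (s + n + 1) *
        (-((-1) ^ (n + 1 - s) * Hc (m + n) (n + 1 - s)) / (2 * ((m + n - 1).factorial : ℚ) ^ 2)) =
        -((m.choose s : ℚ) * Hc (m + n) (n + 1 - s)) / (2 * ((m + n - 1).factorial : ℚ) ^ 2) := by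
      intro s hs
      rw [mem_Icc] at hs
      by_cases hsn : s ≤ n + 1
      · have h4 : ((-1 : ℚ)) ^ (s + n + 1) * (-1) ^ (n + 1 - s) = 1 :=
          ktot_sign ⟨n + 1, by omega⟩
        linear_combination (-((m.choose s : ℚ) * Hc (m + n) (n + 1 - s)) /
          (2 * ((m + n - 1).factorial : ℚ) ^ 2)) * h4
      · have h6 : Hc (m + n) (n + 1 - s) = 0 := by
          rw [show n + 1 - s = 0 by omega]
          unfold Hc
          rw [Finset.Icc_eq_empty (by omega), Finset.sum_empty]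
        rw [h6]
        ring
    have h7 : (-((m * (∑ c ∈ Icc 1 n, (n.choose c : ℚ) * Hc (m + n) (n + c - 1))
      + n * (∑ s ∈ Icc 2 m, (m.choose s : ℚ) * Hc (m + n) (n + 1 - s))) /
    (2 * ((m + n - 1).factorial : ℚ) ^ 2)) : ℚ) =
      m * (∑ c ∈ Icc 1 n, (n.choose c : ℚ) * (-1) ^ (1 + n + c) *
        (-((-1) ^ (n + c - 1) * Hc (m + n) (n + c - 1)) / (2 * ((m + n - 1).factorial : ℚ) ^ 2)))
      + n * (∑ s ∈ Icc 2 m, (m.choose s : ℚ) * (-1) ^ (s + n + 1) *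
        (-((-1) ^ (n + 1 - s) * Hc (m + n) (n + 1 - s)) /
          (2 * ((m + n - 1).factorial : ℚ) ^ 2))) := by
      rw [Finset.sum_congr rfl h3, Finset.sum_congr rfl h5, ← Finset.sum_div, ← Finset.sum_div,
        Finset.sum_neg_distrib, Finset.sum_neg_distrib]
      ring
    rw [h7, Rat.cast_add, Rat.cast_mul, Rat.cast_mul, Rat.cast_sum, Rat.cast_sum,
      Rat.cast_natCast, Rat.cast_natCast]
    congr 2
    · refine Finset.sum_congr rfl fun c _ => ?_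
      rw [Rat.cast_mul, Rat.cast_mul, Rat.cast_natCast, Rat.cast_pow, Rat.cast_neg, Rat.cast_one]
    · refine Finset.sum_congr rfl fun c _ => ?_
      rw [Rat.cast_mul, Rat.cast_mul, Rat.cast_natCast, Rat.cast_pow, Rat.cast_neg, Rat.cast_one]

theorem hkCount (m n : ℕ) (hm : 3 ≤ m) (hn : 3 ≤ n) : ∃ C : ℝ, 0 ≤ C ∧ ∀ p : ℕ,
    2 * (m + n) < p →
      |(hkTot m n p : ℝ) - (lamHK m n : ℝ) * (p : ℝ) ^ (2 * (m + n) - 4)| ≤
        C * (p : ℝ) ^ (2 * (m + n) - 5) := by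
  have h1 := quad_As m n n n hm hn
  have h2 := quad_As n m m m hn hm
  rw [Nat.add_comm n m] at h2
  have h3 := quad_As m n (m + n) n hm hn
  have h4 := ktot_mid m n hm hn
  have h5 := ktot_last m n hm hn
  have h6 := As.add (As.add (As.sub (As.add h1 h2) h3) h4) h5
  obtain ⟨C, hC, h7⟩ := h6
  refine ⟨C, hC, fun p hp => ?_⟩
  have h8 := h7 p (by omega)
  have hp0 : (0 : ℝ) < (p : ℝ) := by
    have : 0 < p := by omega
    exact_mod_cast this
  have e1 : 2 * (m + n) - 4 = (2 * (m + n) - 5) + 1 := by omega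
  have e2 : (hkTot m n p : ℝ) =
      ((ax m n p n n 1 * ax m n p n n 1 - ax m n p n n 2 * ax m n p n n 0 : ℤ) : ℝ)
      + ((ax n m p m m 1 * ax n m p m m 1 - ax n m p m m 2 * ax n m p m m 0 : ℤ) : ℝ)
      - ((ax m n p (m + n) n 1 * ax m n p (m + n) n 1
          - ax m n p (m + n) n 2 * ax m n p (m + n) n 0 : ℤ) : ℝ)
      + ((∑ a ∈ Ico 1 n, ∑ b ∈ Ico 1 m,
          ((a + m - 1).choose (m - 1) : ℤ) * ((b + n - 1).choose (n - 1) : ℤ) *
            ∑ l ∈ Ico 1 (n - a),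
              (ax m n p (m + n) (n + b + l) 2 * ax m n p (m + n) (n - a - l) 0
                - 2 * (ax m n p (m + n) (n + b + l) 1 * ax m n p (m + n) (n - a - l) 1)
                + ax m n p (m + n) (n + b + l) 0 * ax m n p (m + n) (n - a - l) 2) : ℤ) : ℝ)
      + ((m * (∑ c ∈ Icc 1 n, (n.choose c : ℤ) * ((-1) ^ (1 + n + c) * TT m n p (n + c - 1)))
        + n * (∑ s ∈ Icc 2 m, (m.choose s : ℤ) *
          ((-1) ^ (s + n + 1) * TT m n p (n + 1 - s))) : ℤ) : ℝ) := by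
    rw [← Int.cast_add, ← Int.cast_sub, ← Int.cast_add, ← Int.cast_add, hkTot_eq m n p hm hn hp]
  have e3 : ((lamHK m n : ℚ) : ℝ) =
      ((sp n (m + n - 2) n ^ 2 - sp n (m + n - 1) n * sp n (m + n - 3) n : ℚ) : ℝ)
      + ((sp m (m + n - 2) m ^ 2 - sp m (m + n - 1) m * sp m (m + n - 3) m : ℚ) : ℝ)
      - ((sp (m + n) (m + n - 2) n ^ 2
          - sp (m + n) (m + n - 1) n * sp (m + n) (m + n - 3) n : ℚ) : ℝ)
      + ((∑ a ∈ Ico 1 n, ∑ b ∈ Ico 1 m,
        ((a + m - 1).choose (m - 1) : ℚ) * ((b + n - 1).choose (n - 1) : ℚ) *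
        ∑ l ∈ Ico 1 (n - a),
        (sp (m + n) (m + n - 3) (n + b + l) * sp (m + n) (m + n - 1) (n - a - l)
          - 2 * (sp (m + n) (m + n - 2) (n + b + l) * sp (m + n) (m + n - 2) (n - a - l))
          + sp (m + n) (m + n - 1) (n + b + l) * sp (m + n) (m + n - 3) (n - a - l)) : ℚ) : ℝ)
      + ((-((m * (∑ c ∈ Icc 1 n, (n.choose c : ℚ) * Hc (m + n) (n + c - 1))
      + n * (∑ s ∈ Icc 2 m, (m.choose s : ℚ) * Hc (m + n) (n + 1 - s))) /
    (2 * ((m + n - 1).factorial : ℚ) ^ 2)) : ℚ) : ℝ) := by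
    rw [← Rat.cast_add, ← Rat.cast_sub, ← Rat.cast_add, ← Rat.cast_add]
    unfold lamHK
    rw [sub_eq_add_neg]
  have h9 : |(hkTot m n p : ℝ) - (lamHK m n : ℝ) * (p : ℝ) ^ (2 * (m + n) - 4)| * (p : ℝ) ≤
      C * (p : ℝ) ^ (2 * (m + n) - 4) := by
    rw [e2, e3]
    exact h8
  have e4 : (p : ℝ) ^ (2 * (m + n) - 4) = (p : ℝ) ^ (2 * (m + n) - 5) * (p : ℝ) := by
    rw [e1, pow_succ]
  have h10 : |(hkTot m n p : ℝ) - (lamHK m n : ℝ) * (p : ℝ) ^ (2 * (m + n) - 4)| * (p : ℝ) ≤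
      C * (p : ℝ) ^ (2 * (m + n) - 5) * (p : ℝ) := by
    rw [mul_assoc, ← e4]
    exact h9
  exact le_of_mul_le_mul_right h10 hp0

end Pool.HKDet
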