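import Pool.Agent.Lib.HKDet.HD2
import Pool.Agent.Lib.HKDet.JK3
import Pool.Agent.Lib.HKDet.KTot

/-!
# HFin: the limit of the Hilbert–Kunz multiplicities of `R_{m,n,3}` for `p → ∞`
-/

namespace HKDet

open MvPolynomial FSig Pool.HKDet Filter Topology

private theorem hf_deg {m n L : ℕ} (d : Vx m n →₀ ℕ) (h : ∀ v, d v ≤ L) :
    d.degree ≤ (m + n) * L := by
  rw [Finsupp.degree_eq_sum]
  calc ∑ v, d v ≤ ∑ _v : Vx m n, L := Finset.sum_le_sum fun v _ => h v
    _ = (m + n) * L := by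
      rw [Finset.sum_const, Finset.card_univ, smul_eq_mul, Fintype.card_sum, Fintype.card_fin,
        Fintype.card_fin]

private theorem hf_box {m n L : ℕ} {d : Vx m n →₀ ℕ} (hd : d ∈ boxS m n 0 L) (v : Vx m n) :
    d v ≤ L := by
  classical
  unfold boxS at hd
  rw [Finset.mem_filter, Finset.mem_Icc] at hd
  exact hd.1.2 v

private theorem hf_off {m n : ℕ} (d : Vx m n →₀ ℕ) (v : Wx m n) (hR : v ∉ rowS m n)
    (hC : v ∉ colS m n) : emb d v = 0 := by
  rcases v with (i | j) | k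
  · exact absurd (Finset.mem_map.2 ⟨i, Finset.mem_univ _, rfl⟩) hR
  · exact absurd (Finset.mem_map.2 ⟨j, Finset.mem_univ _, rfl⟩) hC
  · exact emb_inr d k

theorem finrank_eq_hkTot (m n : ℕ) (K : Type*) [Field K] (p : ℕ) [Fact p.Prime] [CharP K p]
    (hp : (m + n) ^ 2 + (m + n) + 1 < p) :
    (Module.finrank K (Rp m n K ⧸ Ip m n K p) : ℤ) = hkTot m n p := by
  have hp1 : 1 ≤ p := by omega
  have hL : (m + n) * p ≤ 2 * (m + n) * p := by
    rw [mul_assoc]
    omega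
  rw [finrank_quot m n K p hL]
  unfold hkTot
  rw [← boxS_sum]
  refine Finset.sum_congr rfl fun d hd => ?_
  rw [← hh_emb K p d, ← hkS_emb hp1 d]
  refine hh_eq (disj_row_col m n) (fun v hR hC => hf_off d v hR hC) ?_
  rw [emb_degree]
  have h1 := hf_deg d (hf_box hd)
  have h2 : (rowS m n).card + (colS m n).card = m + n := by
    unfold rowS colS
    rw [Finset.card_map, Finset.card_map, Finset.card_univ, Finset.card_univ, Fintype.card_fin,
      Fintype.card_fin]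
  rw [h2]
  obtain ⟨r, rfl⟩ : ∃ r, p = (m + n) ^ 2 + (m + n) + 2 + r := ⟨p - ((m + n) ^ 2 + (m + n) + 2), by omega⟩
  have h3 : (m + n) ^ 2 + (m + n) + 2 + r - 1 = (m + n) ^ 2 + (m + n) + 1 + r := by omega
  rw [h3]
  set N := m + n
  set q := N ^ 2 + N + 2 + r with hq
  have hq0 : 0 < q := by omega
  calc d.degree + 2 * q * N ≤ N * (2 * N * q) + 2 * q * N := by omega
    _ = 2 * q * (N ^ 2 + N) := by ring
    _ < 2 * q * (N ^ 2 + N + 1 + r) := by
      apply Nat.mul_lt_mul_of_pos_left _ (by omega)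
      omega

private theorem hf_small (x lam P q : ℝ) (hx0 : 0 ≤ x) (hq1 : 1 ≤ q) {p : ℝ} (hp : 1 ≤ p)
    (hpP : p ≤ P) {M : ℝ} (hxM : x ≤ M) : |x / q - lam| ≤ (M + |lam|) * P / p := by
  have h1 : |x / q - lam| ≤ M + |lam| := by
    refine (abs_sub _ _).trans ?_
    have : |x / q| ≤ M := by
      rw [abs_of_nonneg (by positivity)]
      exact (div_le_self hx0 hq1).trans hxM
    linarith
  refine h1.trans ?_
  rw [le_div_iff₀ (by linarith)]
  have h2 : 0 ≤ M + |lam| := by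
    have := abs_nonneg lam
    linarith [hx0.trans hxM]
  exact mul_le_mul_of_nonneg_left hpP h2

theorem result'.{u} (m n : ℕ) (hm : 3 ≤ m) (hn : 3 ≤ n) : ∃ C : ℝ, ∀ (p : ℕ) [Fact p.Prime]
    (K : Type u) [Field K] [CharP K p] [PerfectRing K p],
      (∀ e : ℕ, Pool.FSig.hkLen (L3 m n K) (p ^ e) ≠ ⊤) ∧ ∃ s : ℝ,
      Tendsto (fun e : ℕ => ((Pool.FSig.hkLen (L3 m n K) (p ^ e)).toNat : ℝ) /
        (p : ℝ) ^ (e * (2 * (m + n) - 4))) atTop (𝓝 s) ∧
      |s - (lamHK m n : ℝ)| ≤ C / p := by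
  obtain ⟨C₁, h1⟩ := Pool.FSig.hkGeneral.{u} m n hm hn
  obtain ⟨C₂, hC₂, h2⟩ := hkCount m n hm hn
  set P0 : ℕ := (m + n) ^ 2 + (m + n) + 1 with hP0
  set C₃ : ℝ := ((P0 : ℝ) ^ (m * n) + |(lamHK m n : ℝ)|) * P0 with hC₃
  have hC₃0 : 0 ≤ C₃ := by positivity
  refine ⟨C₁ + C₂ + C₃, ?_⟩
  intro p _ K _ _ _
  obtain ⟨ht, s, hs, hs1⟩ := h1 p K
  refine ⟨ht, s, hs, ?_⟩
  have hpp : (1 : ℝ) ≤ p := by exact_mod_cast (Fact.out : p.Prime).one_lt.le
  have hp0 : (0 : ℝ) < p := by linarith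
  set x : ℝ := (Module.finrank K (Rp m n K ⧸ Ip m n K p) : ℝ) with hx
  have hs2 : |s - x / (p : ℝ) ^ (2 * (m + n) - 4)| ≤ C₁ / p := hs1
  have key : |x / (p : ℝ) ^ (2 * (m + n) - 4) - (lamHK m n : ℝ)| ≤ (C₂ + C₃) / p := by
    by_cases hp : P0 < p
    · have h3 : 2 * (m + n) < p := by
        have : (m + n) * (m + n) ≥ 2 * (m + n) := Nat.mul_le_mul_right _ (by omega)
        have h4 : (m + n) ^ 2 = (m + n) * (m + n) := sq _
        omega
      have h4 := h2 p h3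
      have h5 : x = (hkTot m n p : ℝ) := by
        have h6 := finrank_eq_hkTot m n K p hp
        rw [hx]
        exact_mod_cast h6
      rw [h5]
      have hpow : (0 : ℝ) < (p : ℝ) ^ (2 * (m + n) - 4) := by positivity
      have e1 : (hkTot m n p : ℝ) / (p : ℝ) ^ (2 * (m + n) - 4) - (lamHK m n : ℝ) =
          ((hkTot m n p : ℝ) - (lamHK m n : ℝ) * (p : ℝ) ^ (2 * (m + n) - 4)) /
            (p : ℝ) ^ (2 * (m + n) - 4) := by
        field_simp
      rw [e1, abs_div, abs_of_pos hpow, div_le_div_iff₀ hpow hp0]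
      have e2 : (p : ℝ) ^ (2 * (m + n) - 4) = (p : ℝ) ^ (2 * (m + n) - 5) * p := by
        rw [← pow_succ]
        congr 1
        omega
      calc |(hkTot m n p : ℝ) - (lamHK m n : ℝ) * (p : ℝ) ^ (2 * (m + n) - 4)| * p
          ≤ C₂ * (p : ℝ) ^ (2 * (m + n) - 5) * p := by gcongr
        _ = C₂ * (p : ℝ) ^ (2 * (m + n) - 4) := by rw [e2]; ring
        _ ≤ (C₂ + C₃) * (p : ℝ) ^ (2 * (m + n) - 4) := by
          gcongr
          linarith
    · have h3 : p ≤ P0 := by omega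
      have h4 : x ≤ (P0 : ℝ) ^ (m * n) := by
        have h5 : Module.finrank K (Rp m n K ⧸ Ip m n K p) ≤ p ^ (m * n) :=
          finrank_quot_le m n K p
        have h6 : p ^ (m * n) ≤ P0 ^ (m * n) := Nat.pow_le_pow_left h3 _
        rw [hx]
        exact_mod_cast h5.trans h6
      have h5 : |x / (p : ℝ) ^ (2 * (m + n) - 4) - (lamHK m n : ℝ)| ≤ C₃ / p := by
        rw [hC₃]
        exact hf_small x (lamHK m n : ℝ) P0 _ (Nat.cast_nonneg _) (one_le_pow₀ hpp) hpp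
          (by exact_mod_cast h3) h4
      refine h5.trans ?_
      gcongr
      linarith
  calc |s - (lamHK m n : ℝ)| = |(s - x / (p : ℝ) ^ (2 * (m + n) - 4)) +
        (x / (p : ℝ) ^ (2 * (m + n) - 4) - (lamHK m n : ℝ))| := by ring_nf
    _ ≤ C₁ / p + (C₂ + C₃) / p := (abs_add_le _ _).trans (add_le_add hs2 key)
    _ = (C₁ + C₂ + C₃) / p := by ring

end HKDet
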