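import Pool.Agent.Lib.FSig.HKGen

/-!
# Module HKOne: `ℓ(L / m_L^[p])` for `L = L3 m n K` is the dimension of `Rp / (x_ij^p)`

Same proof as in `Pool/Agent/Lib/FSig/HKGen.lean` (the private lemmas are copied).
-/

namespace Pool.FSig

open Filter Topology

/-- evaluation at the origin as an algebra map -/
private noncomputable def hkoneE (m n : ℕ) (K : Type*) [Field K] :
    _root_.FSig.R3 m n K →ₐ[K] K :=
  { _root_.FSig.ev0 m n K with
    commutes' := by
      intro r
      have h1 : algebraMap K (_root_.FSig.R3 m n K) r =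
          Ideal.Quotient.mk (_root_.FSig.I3 m n K) (MvPolynomial.C r) := rfl
      show _root_.FSig.ev0 m n K (algebraMap K (_root_.FSig.R3 m n K) r) = _
      rw [h1, _root_.FSig.ev0, Ideal.Quotient.lift_mk, MvPolynomial.constantCoeff_C]
      rfl }

private theorem hkoneE_coe (m n : ℕ) (K : Type*) [Field K] :
    ((hkoneE m n K : _root_.FSig.R3 m n K →ₐ[K] K) : _root_.FSig.R3 m n K →+* K) =
      _root_.FSig.ev0 m n K := rfl

private theorem hkone_xg_eq (m n : ℕ) (K : Type*) [Field K] (k : Fin (m * n)) :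
    xg m n K k = Ideal.Quotient.mk (_root_.FSig.I3 m n K)
      (MvPolynomial.X (finProdFinEquiv.symm k)) := by
  unfold xg xR
  rw [dif_pos ⟨(finProdFinEquiv.symm k).1.2, (finProdFinEquiv.symm k).2.2⟩]

private theorem hkoneE_xg (m n : ℕ) (K : Type*) [Field K] (k : Fin (m * n)) :
    hkoneE m n K (xg m n K k) = 0 := by
  show _root_.FSig.ev0 m n K (xg m n K k) = 0
  rw [hkone_xg_eq, _root_.FSig.ev0, Ideal.Quotient.lift_mk, MvPolynomial.constantCoeff_X]

private theorem hkone_jT_mk (m n : ℕ) (K : Type*) [Field K]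
    (f : MvPolynomial (Fin m × Fin n) K) :
    jT m n K (Ideal.Quotient.mk (_root_.FSig.I3 m n K) f) = _root_.FSig.toT m n K f := rfl

/-- `R3` and `Rp` are isomorphic -/
private noncomputable def hkoneEquiv (m n : ℕ) (K : Type*) [Field K] :
    _root_.FSig.R3 m n K ≃ₐ[K] _root_.FSig.Rp m n K :=
  AlgEquiv.ofBijective ((jT m n K).codRestrict (_root_.FSig.Rp m n K) (by
      intro x
      obtain ⟨f, rfl⟩ := Ideal.Quotient.mk_surjective x
      exact ⟨f, (hkone_jT_mk m n K f).symm⟩))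
    ⟨by
      intro x y hxy
      have h := congrArg Subtype.val hxy
      exact jT_injective m n K h, by
      rintro ⟨y, f, rfl⟩
      exact ⟨Ideal.Quotient.mk _ f, Subtype.ext (hkone_jT_mk m n K f)⟩⟩

private theorem hkoneEquiv_xg (m n : ℕ) (K : Type*) [Field K] (k : Fin (m * n)) :
    hkoneEquiv m n K (xg m n K k) =
      xRp m n K (finProdFinEquiv.symm k).1 (finProdFinEquiv.symm k).2 := by
  apply Subtype.ext
  rw [hkone_xg_eq]
  exact hkone_jT_mk m n K _

private theorem hkone_finrank (m n : ℕ) (hm : 2 ≤ m) (hn : 2 ≤ n) (K : Type*) [Field K] (p : ℕ)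
    [Fact p.Prime] [CharP K p] :
    hk ((hkoneE m n K : _root_.FSig.R3 m n K →ₐ[K] K) : _root_.FSig.R3 m n K →+* K) (p ^ 1) =
      Module.finrank K (_root_.FSig.Rp m n K ⧸
          Ideal.span (Set.range fun ij : Fin m × Fin n => xRp m n K ij.1 ij.2 ^ p)) := by
  have h1 := frobPow_eq p (xg m n K) (isChart_jQ m n hm hn K).gen (hkoneE m n K)
    (hkoneE_xg m n K) 1
  unfold hk
  rw [h1]
  have h2 : (Ideal.span (Set.range fun ij : Fin m × Fin n => xRp m n K ij.1 ij.2 ^ p)) =
      (Ideal.span (Set.range fun k => xg m n K k ^ (p ^ 1))).map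
        ((hkoneEquiv m n K : _root_.FSig.R3 m n K ≃ₐ[K] _root_.FSig.Rp m n K) :
          _root_.FSig.R3 m n K →+* _root_.FSig.Rp m n K) := by
    rw [Ideal.map_span]
    congr 1
    ext z
    constructor
    · rintro ⟨ij, rfl⟩
      refine ⟨xg m n K (finProdFinEquiv ij) ^ (p ^ 1), ⟨finProdFinEquiv ij, rfl⟩, ?_⟩
      have h3 := hkoneEquiv_xg m n K (finProdFinEquiv ij)
      rw [Equiv.symm_apply_apply] at h3
      show hkoneEquiv m n K _ = _
      rw [map_pow, h3, pow_one]
    · rintro ⟨_, ⟨k, rfl⟩, rfl⟩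
      refine ⟨finProdFinEquiv.symm k, ?_⟩
      have h3 := hkoneEquiv_xg m n K k
      show _ = hkoneEquiv m n K _
      rw [map_pow, h3, pow_one]
  exact (Ideal.quotientEquivAlg _ _ (hkoneEquiv m n K) h2).toLinearEquiv.finrank_eq


theorem hkLen_one (m n : ℕ) (hm : 3 ≤ m) (hn : 3 ≤ n) (p : ℕ) [Fact p.Prime]
    (K : Type*) [Field K] [CharP K p] :
    hkLen (_root_.FSig.L3 m n K) p = ((Module.finrank K (_root_.FSig.Rp m n K ⧸
          Ideal.span (Set.range fun ij : Fin m × Fin n => xRp m n K ij.1 ij.2 ^ p)) : ℕ) : ℕ∞) := by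
  have hm2 : 2 ≤ m := by omega
  have hn2 : 2 ≤ n := by omega
  have hp2 : 2 ≤ p := (Fact.out : p.Prime).two_le
  have hch := isChart_jQ m n hm2 hn2 K
  have hprime : (RingHom.ker ((hkoneE m n K : _root_.FSig.R3 m n K →ₐ[K] K) :
      _root_.FSig.R3 m n K →+* K)).IsPrime := _root_.FSig.irr_isPrime m n K
  have hloc : IsLocalization.AtPrime (_root_.FSig.L3 m n K)
      (RingHom.ker ((hkoneE m n K : _root_.FSig.R3 m n K →ₐ[K] K) :
      _root_.FSig.R3 m n K →+* K)) :=
    (inferInstance : IsLocalization.AtPrime (_root_.FSig.L3 m n K) (_root_.FSig.irr m n K))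
  have h1 := length_loc (L := _root_.FSig.L3 m n K) (xg m n K) hch.gen (hkoneE m n K)
      (hkoneE_xg m n K) p 1
      (spanMod_frob hch (hkoneE m n K) (hkoneE_xg m n K) (p ^ 1) (Nat.one_le_pow _ _ (by omega)))
  have h2 := hkone_finrank m n hm2 hn2 K p
  rw [h2, pow_one] at h1
  exact h1

end Pool.FSig
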