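import Pool.Agent.Lib.HKDet.KDefs

/-!
# Module HKVal: values of `lamHK`
-/

namespace Pool.HKDet

theorem lamHK_33 : lamHK 3 3 = 49 / 32 := by decide +kernel
theorem lamHK_34 : lamHK 3 4 = 10009 / 4800 := by decide +kernel
theorem lamHK_44 : lamHK 4 4 = 36131 / 12960 := by decide +kernel
theorem lamHK_35 : lamHK 3 5 = 726863 / 241920 := by decide +kernel

end Pool.HKDet
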