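import Pool.Agent.Lib.FSig.CntDefs

/-!
# MP_05de8f_ag, Q1 (Hilbert–Kunz multiplicity of `R_{m,n,3}`): definitions of the counting part

Papers (team store): `MP_05de8f_paper97.md`. `V = Vx m n = Fin m ⊕ Fin n`, multidegrees are functions `d : Vx m n → ℕ`.

* `barFC p d`, `barFR p d`: the function `d` with the values at the columns (at the rows) replaced by `min (x, 2p-2-x)`.
* `gM p b`: the weight function with `∑_{q ≤ x} gM p b (|x| - 2 |q|) = mult_b (x)`: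
  `gM p b w = ∑_{l ≥ 1} ([w = p (b + 2 l) - 2] - 2 [w = p (b + 2 l)] + [w = p (b + 2 l) + 2])`.
* `vset m n p d`: the functions `v` with a row and a column in their support such that `0 ≤ d - p v ≤ 2p-2`.
* `hkw m n p d`: the dimension of the component of multidegree `d` of `R / m^[p]` (`d` balanced, `p` large), formula (W) of the paper.
* `hkTot m n p`: the sum over all balanced `d` with entries `≤ 2 (m + n) p`; it is `ℓ (R / m^[p])`.
* `lamHK m n`: the limit of the Hilbert–Kunz multiplicities for `p → ∞`.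
-/

namespace Pool.HKDet

open _root_.FSig Finset

/-- `d` with the entries at the columns replaced by `min (x, 2p-2-x)` -/
def barFC {m n : ℕ} (p : ℕ) (d : Vx m n → ℕ) : Vx m n → ℕ :=
  Sum.elim (fun i => d (Sum.inl i)) (fun j => min (d (Sum.inr j)) (2 * p - 2 - d (Sum.inr j)))

/-- `d` with the entries at the rows replaced by `min (x, 2p-2-x)` -/
def barFR {m n : ℕ} (p : ℕ) (d : Vx m n → ℕ) : Vx m n → ℕ :=
  Sum.elim (fun i => min (d (Sum.inl i)) (2 * p - 2 - d (Sum.inl i))) (fun j => d (Sum.inr j))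

/-- `∑_{l ≥ 1} ([j = p (b + 2 l) - 2] - 2 [j = p (b + 2 l)] + [j = p (b + 2 l) + 2])` -/
def gM (p b : ℕ) (j : ℤ) : ℤ :=
  (if (2 * p : ℤ) ∣ j + 2 - p * b ∧ (p : ℤ) * (b + 2) ≤ j + 2 then 1 else 0)
    - 2 * (if (2 * p : ℤ) ∣ j - p * b ∧ (p : ℤ) * (b + 2) ≤ j then 1 else 0)
    + (if (2 * p : ℤ) ∣ j - 2 - p * b ∧ (p : ℤ) * (b + 2) ≤ j - 2 then 1 else 0)

/-- the possible degrees of the `p`-th powers in a mixed piece -/
def vset (m n p : ℕ) (d : Vx m n → ℕ) : Finset (Vx m n → ℕ) :=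
  (blw d).filter fun v => (∀ x, p * v x ≤ d x ∧ d x - p * v x ≤ 2 * p - 2) ∧
    (∃ i, v (Sum.inl i) ≠ 0) ∧ (∃ j, v (Sum.inr j) ≠ 0)

/-- `s, c ≥ 1` and (`s = 1` or `c = 1`), where `s` and `c` are the numbers of rows and columns with `d ≥ p` -/
def oneBig {m n : ℕ} (p : ℕ) (d : Vx m n → ℕ) : Prop :=
  1 ≤ (univ.filter fun i : Fin m => p ≤ d (Sum.inl i)).card ∧
  1 ≤ (univ.filter fun j : Fin n => p ≤ d (Sum.inr j)).card ∧
  ((univ.filter fun i : Fin m => p ≤ d (Sum.inl i)).card = 1 ∨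
    (univ.filter fun j : Fin n => p ≤ d (Sum.inr j)).card = 1)

instance {m n p : ℕ} (d : Vx m n → ℕ) : Decidable (oneBig p d) :=
  inferInstanceAs (Decidable (_ ∧ _ ∧ (_ ∨ _)))

/-- the mixed part of `hkw` -/
def pmid (m n p : ℕ) (d : Vx m n → ℕ) : ℤ :=
  ∑ v ∈ vset m n p d, csw (gM p (∑ x, v x)) (barF p fun x => d x - p * v x)

/-- the dimension of the component of multidegree `d` of `R / m^[p]` -/
def hkw (m n p : ℕ) (d : Vx m n → ℕ) : ℤ :=
  (if ∀ j, d (Sum.inr j) ≤ 2 * p - 2 then csw gI (barFC p d) else 0)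
    + (if ∀ i, d (Sum.inl i) ≤ 2 * p - 2 then csw gI (barFR p d) else 0)
    - (if ∀ v, d v ≤ 2 * p - 2 then csw gI (barF p d) else 0)
    + pmid m n p d
    + (if (∀ v, d v ≤ 2 * p - 2) ∧ oneBig p d then csw (gF p) (barF p d) else 0)

/-- the length of `R / m^[p]` for large `p` -/
def hkTot (m n p : ℕ) : ℤ := ∑ d ∈ bxF m n 0 (2 * (m + n) * p), hkw m n p d

/-- `(1/r!) ∑_{i<k} (-1)^i binom(a,i) (k-i)^r` -/
def sp (a r k : ℕ) : ℚ :=
  (∑ i ∈ range k, (-1) ^ i * (a.choose i : ℚ) * ((k : ℚ) - i) ^ r) / (r.factorial : ℚ)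

/-- The limit of the Hilbert–Kunz multiplicities of `R_{m,n,3}` for `p → ∞`. -/
def lamHK (m n : ℕ) : ℚ :=
  (sp n (m + n - 2) n ^ 2 - sp n (m + n - 1) n * sp n (m + n - 3) n)
  + (sp m (m + n - 2) m ^ 2 - sp m (m + n - 1) m * sp m (m + n - 3) m)
  - (sp (m + n) (m + n - 2) n ^ 2 - sp (m + n) (m + n - 1) n * sp (m + n) (m + n - 3) n)
  + (∑ a ∈ Ico 1 n, ∑ b ∈ Ico 1 m, ((a + m - 1).choose (m - 1) : ℚ) * ((b + n - 1).choose (n - 1) : ℚ) *
      ∑ l ∈ Ico 1 (n - a),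
        (sp (m + n) (m + n - 3) (n + b + l) * sp (m + n) (m + n - 1) (n - a - l)
          - 2 * (sp (m + n) (m + n - 2) (n + b + l) * sp (m + n) (m + n - 2) (n - a - l))
          + sp (m + n) (m + n - 1) (n + b + l) * sp (m + n) (m + n - 3) (n - a - l)))
  - (m * (∑ c ∈ Icc 1 n, (n.choose c : ℚ) * Hc (m + n) (n + c - 1))
      + n * (∑ s ∈ Icc 2 m, (m.choose s : ℚ) * Hc (m + n) (n + 1 - s))) /
    (2 * ((m + n - 1).factorial : ℚ) ^ 2)

end Pool.HKDet
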