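import Pool.Agent.Lib.HKDet.JDefs
import Pool.Agent.Lib.HKDet.KDefs
import Pool.Agent.Lib.FSig.CntBr

/-!
# HVx: from multidegrees on `Wx m n = Vx m n ⊕ ℕ` (rows, columns, spare vectors) to functions on `Vx m n`

PROOFS.
* `emb_inl`, `emb_inr`: `Finsupp.mapDomain_apply` (injective), `Finsupp.mapDomain_of_notMem_range`. `emb_add`, `emb_degree`: `Finsupp.mapDomain_add`, `Finsupp.degree_eq_sum`-like (or `Finsupp.degree` of `mapDomain`).
* `exists_emb`: a multidegree with `v (inr k) = 0` for all `k` is `emb` of its restriction (`Finsupp.comapDomain` or `Finsupp.equivFunOnFinite.symm fun x => v (inl x)`).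
* `swS_emb`: `sw_eq` (`CntBr`): `csw g ⇑d = ∑_{q ∈ Icc 0 d} g (|d| - 2|q|)`; `q ↦ emb q` is a bijection from `Icc 0 d` to `Icc 0 (emb d)` (`exists_emb`), degrees agree.
* `hkS_emb`: term by term. `barC p C (emb d) = emb d'` with `⇑d' = barFC p ⇑d` (`Finsupp.ext`, cases `inl (inl i)`, `inl (inr j)`, `inr k`; unfold `barC`: value `if v ∈ C then min .. else ..`), in the same way for rows and for `bar` (`barF`). `invN = swS hI` (`invN_swS`), `hI = gI`; `fus p = swS (hF p)` (`fus_swS`), `hF = gF`; `hM p b = gM p b` (`cM`: the two conditions in the other order).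
  The conditions `∀ j ∈ C, ..` run through the columns (`Finset.mem_map`), `∀ v, (emb d) v ≤ 2p-2` iff `∀ x, d x ≤ 2p-2` (`(emb d) (inr k) = 0`). `vS p R C (emb d)` corresponds to `vset m n p ⇑d` under `v' ↦ emb v'` (`exists_emb`: `v ≤ emb d`), `emb d - p • emb v' = emb (d - p • v')`. `oneB ↔ oneBig`: the filtered sets have the same cardinality
  (`Finset.card_map`, `Finset.filter_map`).
-/

namespace HKDet

open FSig Pool.HKDet

/-- rows, columns, spare vectors -/
abbrev Wx (m n : ℕ) : Type := Vx m n ⊕ ℕ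

/-- extension by zero -/
noncomputable def emb {m n : ℕ} (d : Vx m n →₀ ℕ) : Wx m n →₀ ℕ := d.mapDomain Sum.inl

/-- the rows -/
def rowS (m n : ℕ) : Finset (Wx m n) :=
  Finset.univ.map ⟨fun i : Fin m => Sum.inl (Sum.inl i), fun _ _ h => by simpa using h⟩

/-- the columns -/
def colS (m n : ℕ) : Finset (Wx m n) :=
  Finset.univ.map ⟨fun j : Fin n => Sum.inl (Sum.inr j), fun _ _ h => by simpa using h⟩


theorem emb_inl {m n : ℕ} (d : Vx m n →₀ ℕ) (x : Vx m n) : emb d (Sum.inl x) = d x := by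
  unfold emb
  exact Finsupp.mapDomain_apply Sum.inl_injective d x

theorem emb_inr {m n : ℕ} (d : Vx m n →₀ ℕ) (k : ℕ) : emb d (Sum.inr k) = 0 := by
  unfold emb
  refine Finsupp.mapDomain_of_notMem_range d _ ?_
  rintro ⟨x, hx⟩
  cases hx

theorem emb_add {m n : ℕ} (d e : Vx m n →₀ ℕ) : emb (d + e) = emb d + emb e := by
  unfold emb
  exact Finsupp.mapDomain_add

theorem emb_degree {m n : ℕ} (d : Vx m n →₀ ℕ) : (emb d).degree = d.degree := by
  classical
  unfold emb
  induction d using Finsupp.induction_linear with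
  | zero => simp
  | add f g hf hg => rw [Finsupp.mapDomain_add, map_add, map_add, hf, hg]
  | single x k => rw [Finsupp.mapDomain_single, Finsupp.degree_single, Finsupp.degree_single]

theorem emb_injective {m n : ℕ} : Function.Injective (emb : (Vx m n →₀ ℕ) → (Wx m n →₀ ℕ)) := by
  intro a b h
  ext x
  rw [← emb_inl a x, ← emb_inl b x, h]

theorem exists_emb {m n : ℕ} {v : Wx m n →₀ ℕ} (hv : ∀ k, v (Sum.inr k) = 0) :
    ∃ d : Vx m n →₀ ℕ, emb d = v := by
  refine ⟨Finsupp.equivFunOnFinite.symm fun x => v (Sum.inl x), ?_⟩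
  ext x
  rcases x with x | k
  · rw [emb_inl]
    rfl
  · rw [emb_inr, hv]

private theorem emb_le {m n : ℕ} {d e : Vx m n →₀ ℕ} : emb d ≤ emb e ↔ d ≤ e := by
  constructor
  · intro h x
    have := h (Sum.inl x)
    rwa [emb_inl, emb_inl] at this
  · intro h x
    rcases x with x | k
    · rw [emb_inl, emb_inl]
      exact h x
    · rw [emb_inr, emb_inr]

private theorem le_emb {m n : ℕ} {v : Wx m n →₀ ℕ} {d : Vx m n →₀ ℕ} (h : v ≤ emb d) :
    ∃ e : Vx m n →₀ ℕ, emb e = v ∧ e ≤ d := by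
  obtain ⟨e, rfl⟩ := exists_emb (v := v) (fun k => by
    have := h (Sum.inr k)
    rw [emb_inr] at this
    omega)
  exact ⟨e, rfl, emb_le.1 h⟩

private theorem mem_Icc_inst {α : Type*} [Preorder α] (inst : LocallyFiniteOrder α) {a b x : α} :
    x ∈ @Finset.Icc α _ inst a b ↔ a ≤ x ∧ x ≤ b := Finset.mem_Icc

theorem swS_emb {m n : ℕ} (g : ℤ → ℤ) (d : Vx m n →₀ ℕ) : swS g (emb d) = csw g ⇑d := by
  classical
  rw [sw_eq]
  unfold swS
  symm
  refine Finset.sum_bij (fun q _ => emb q) ?_ ?_ ?_ ?_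
  · intro q hq
    rw [mem_Icc_inst] at hq ⊢
    exact ⟨fun _ => Nat.zero_le _, emb_le.2 hq.2⟩
  · intro a _ b _ h
    exact emb_injective h
  · intro v hv
    rw [mem_Icc_inst] at hv
    obtain ⟨e, he, hle⟩ := le_emb hv.2
    exact ⟨e, Finset.mem_Icc.2 ⟨fun _ => Nat.zero_le _, hle⟩, he⟩
  · intro q _
    rw [emb_degree, emb_degree]

theorem disj_row_col (m n : ℕ) : Disjoint (rowS m n) (colS m n) := by
  rw [Finset.disjoint_left]
  intro x hx hy
  unfold rowS at hx
  unfold colS at hy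
  rw [Finset.mem_map] at hx hy
  obtain ⟨i, -, hi⟩ := hx
  obtain ⟨j, -, hj⟩ := hy
  rw [← hi] at hj
  change (Sum.inl (Sum.inr j) : Wx m n) = Sum.inl (Sum.inl i) at hj
  cases hj

private theorem mem_rowS {m n : ℕ} {x : Wx m n} : x ∈ rowS m n ↔ ∃ i : Fin m, Sum.inl (Sum.inl i) = x := by
  unfold rowS
  rw [Finset.mem_map]
  constructor
  · rintro ⟨i, -, hi⟩
    exact ⟨i, hi⟩
  · rintro ⟨i, hi⟩
    exact ⟨i, Finset.mem_univ _, hi⟩

private theorem mem_colS {m n : ℕ} {x : Wx m n} : x ∈ colS m n ↔ ∃ j : Fin n, Sum.inl (Sum.inr j) = x := by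
  unfold colS
  rw [Finset.mem_map]
  constructor
  · rintro ⟨i, -, hi⟩
    exact ⟨i, hi⟩
  · rintro ⟨i, hi⟩
    exact ⟨i, Finset.mem_univ _, hi⟩

private theorem barC_pos {V : Type*} (p : ℕ) (inst : DecidableEq V) (C : Finset V) (d : V →₀ ℕ)
    (v : V) (h : v ∈ C) : @barC V p inst C d v = min (d v) (2 * p - 2 - d v) := by
  have h1 : @barC V p inst C d v = if v ∈ C then min (d v) (2 * p - 2 - d v) else d v := rfl
  rw [h1, if_pos h]

private theorem barC_neg {V : Type*} (p : ℕ) (inst : DecidableEq V) (C : Finset V) (d : V →₀ ℕ)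
    (v : V) (h : v ∉ C) : @barC V p inst C d v = d v := by
  have h1 : @barC V p inst C d v = if v ∈ C then min (d v) (2 * p - 2 - d v) else d v := rfl
  rw [h1, if_neg h]

private theorem barC_col {m n : ℕ} (inst : DecidableEq (Wx m n)) (p : ℕ) (d : Vx m n →₀ ℕ) :
    @barC _ p inst (colS m n) (emb d) = emb (Finsupp.equivFunOnFinite.symm (barFC p ⇑d)) := by
  ext x
  rcases x with (i | j) | k
  · rw [barC_neg, emb_inl, emb_inl]
    · rfl
    · rw [mem_colS]
      rintro ⟨j, hj⟩
      cases hj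
  · rw [barC_pos _ _ _ _ _ (mem_colS.2 ⟨j, rfl⟩), emb_inl, emb_inl]
    rfl
  · rw [barC_neg, emb_inr, emb_inr]
    rw [mem_colS]
    rintro ⟨j, hj⟩
    cases hj

private theorem barC_row {m n : ℕ} (inst : DecidableEq (Wx m n)) (p : ℕ) (d : Vx m n →₀ ℕ) :
    @barC _ p inst (rowS m n) (emb d) = emb (Finsupp.equivFunOnFinite.symm (barFR p ⇑d)) := by
  ext x
  rcases x with (i | j) | k
  · rw [barC_pos _ _ _ _ _ (mem_rowS.2 ⟨i, rfl⟩), emb_inl, emb_inl]
    rfl
  · rw [barC_neg, emb_inl, emb_inl]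
    · rfl
    · rw [mem_rowS]
      rintro ⟨j, hj⟩
      cases hj
  · rw [barC_neg, emb_inr, emb_inr]
    rw [mem_rowS]
    rintro ⟨j, hj⟩
    cases hj

private theorem bar_emb {m n : ℕ} (p : ℕ) (d : Vx m n →₀ ℕ) :
    bar p (emb d) = emb (bar p d) := by
  ext x
  unfold bar
  rw [Finsupp.mapRange_apply]
  rcases x with x | k
  · rw [emb_inl, emb_inl, Finsupp.mapRange_apply]
  · rw [emb_inr, emb_inr]
    exact Nat.zero_min _

private theorem all_emb {m n : ℕ} (d : Vx m n →₀ ℕ) (c : ℕ) :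
    (∀ v, emb d v ≤ c) ↔ ∀ x, d x ≤ c := by
  constructor
  · intro h x
    have := h (Sum.inl x)
    rwa [emb_inl] at this
  · intro h v
    rcases v with x | k
    · rw [emb_inl]
      exact h x
    · rw [emb_inr]
      exact Nat.zero_le _

private theorem card_row {m n : ℕ} (d : Vx m n →₀ ℕ) (p : ℕ) (inst : DecidablePred fun i => p ≤ emb d i) :
    (@Finset.filter _ (fun i => p ≤ emb d i) inst (rowS m n)).card =
      (Finset.univ.filter fun i : Fin m => p ≤ d (Sum.inl i)).card := by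
  classical
  symm
  refine Finset.card_bij (fun i _ => Sum.inl (Sum.inl i)) ?_ ?_ ?_
  · intro i hi
    rw [Finset.mem_filter] at hi ⊢
    refine ⟨mem_rowS.2 ⟨i, rfl⟩, ?_⟩
    rw [emb_inl]
    exact hi.2
  · intro a _ b _ h
    simpa using h
  · intro x hx
    rw [Finset.mem_filter, mem_rowS] at hx
    obtain ⟨⟨i, rfl⟩, h⟩ := hx
    rw [emb_inl] at h
    exact ⟨i, Finset.mem_filter.2 ⟨Finset.mem_univ _, h⟩, rfl⟩

private theorem card_col {m n : ℕ} (d : Vx m n →₀ ℕ) (p : ℕ) (inst : DecidablePred fun i => p ≤ emb d i) :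
    (@Finset.filter _ (fun i => p ≤ emb d i) inst (colS m n)).card =
      (Finset.univ.filter fun j : Fin n => p ≤ d (Sum.inr j)).card := by
  classical
  symm
  refine Finset.card_bij (fun i _ => Sum.inl (Sum.inr i)) ?_ ?_ ?_
  · intro i hi
    rw [Finset.mem_filter] at hi ⊢
    refine ⟨mem_colS.2 ⟨i, rfl⟩, ?_⟩
    rw [emb_inl]
    exact hi.2
  · intro a _ b _ h
    simpa using h
  · intro x hx
    rw [Finset.mem_filter, mem_colS] at hx
    obtain ⟨⟨i, rfl⟩, h⟩ := hx
    rw [emb_inl] at h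
    exact ⟨i, Finset.mem_filter.2 ⟨Finset.mem_univ _, h⟩, rfl⟩

private theorem oneB_emb {m n : ℕ} (d : Vx m n →₀ ℕ) (p : ℕ) :
    oneB p (rowS m n) (colS m n) (emb d) ↔ oneBig p ⇑d := by
  unfold oneB oneBig
  rw [card_row, card_col]

private theorem hM_eq (p b : ℕ) : hM p b = gM p b := by
  funext j
  unfold hM cM gM
  simp only [and_comm]

private theorem mid_emb {m n p : ℕ} (d : Vx m n →₀ ℕ) :
    ∑ v ∈ vS p (rowS m n) (colS m n) (emb d), mlt p v.degree (bar p (emb d - p • v)) =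
      pmid m n p ⇑d := by
  classical
  unfold pmid
  symm
  refine Finset.sum_bij (fun v _ => emb (Finsupp.equivFunOnFinite.symm v)) ?_ ?_ ?_ ?_
  · intro v hv
    unfold vset blw at hv
    rw [Finset.mem_filter, Fintype.mem_piFinset] at hv
    obtain ⟨h1, h2, ⟨i, hi⟩, j, hj⟩ := hv
    unfold vS
    rw [Finset.mem_filter, mem_Icc_inst]
    refine ⟨⟨fun _ => Nat.zero_le _, emb_le.2 fun x => ?_⟩, ?_, ⟨Sum.inl (Sum.inl i),
      mem_rowS.2 ⟨i, rfl⟩, ?_⟩, Sum.inl (Sum.inr j), mem_colS.2 ⟨j, rfl⟩, ?_⟩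
    · have := Finset.mem_range.1 (h1 x)
      change v x ≤ d x
      omega
    · intro x
      rcases x with x | k
      · rw [emb_inl, emb_inl]
        exact h2 x
      · rw [emb_inr, emb_inr]
        exact ⟨by omega, by omega⟩
    · rw [emb_inl]
      exact hi
    · rw [emb_inl]
      exact hj
  · intro a _ b _ h
    exact Finsupp.equivFunOnFinite.symm.injective (emb_injective h)
  · intro w hw
    unfold vS at hw
    rw [Finset.mem_filter, mem_Icc_inst] at hw
    obtain ⟨⟨-, h1⟩, h2, ⟨i, hi, hi'⟩, j, hj, hj'⟩ := hw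
    obtain ⟨e, rfl, hle⟩ := le_emb h1
    obtain ⟨i, rfl⟩ := mem_rowS.1 hi
    obtain ⟨j, rfl⟩ := mem_colS.1 hj
    rw [emb_inl] at hi' hj'
    refine ⟨⇑e, ?_, ?_⟩
    · unfold vset blw
      rw [Finset.mem_filter, Fintype.mem_piFinset]
      refine ⟨fun x => Finset.mem_range.2 (Nat.lt_succ_of_le (hle x)), fun x => ?_, ⟨i, hi'⟩,
        j, hj'⟩
      have := h2 (Sum.inl x)
      rw [emb_inl, emb_inl] at this
      exact this
    · congr 1
      exact Finsupp.equivFunOnFinite.symm_apply_apply e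
  · intro v _
    have e1 : emb d - p • emb (Finsupp.equivFunOnFinite.symm v) =
        emb (d - p • Finsupp.equivFunOnFinite.symm v) := by
      ext x
      rcases x with x | k
      · rw [emb_inl, Finsupp.tsub_apply, Finsupp.smul_apply, emb_inl, emb_inl, Finsupp.tsub_apply,
          Finsupp.smul_apply]
      · rw [emb_inr, Finsupp.tsub_apply, Finsupp.smul_apply, emb_inr, emb_inr]
        simp
    unfold mlt
    rw [e1, bar_emb, swS_emb, coe_bar, emb_degree, Finsupp.degree_eq_sum, hM_eq]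
    rfl

theorem hkS_emb {m n p : ℕ} (hp : 1 ≤ p) (d : Vx m n →₀ ℕ) :
    hkS p (rowS m n) (colS m n) (emb d) = hkw m n p ⇑d := by
  classical
  unfold hkS hkw
  rw [mid_emb]
  congr 1
  · congr 1
    congr 1
    · congr 1
      · refine if_congr ?_ ?_ rfl
        · constructor
          · intro h j
            have := h _ (mem_colS.2 ⟨j, rfl⟩)
            rwa [emb_inl] at this
          · intro h x hx
            obtain ⟨j, rfl⟩ := mem_colS.1 hx
            rw [emb_inl]
            exact h j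
        · rw [barC_col, invN_swS, swS_emb]
          rfl
      · refine if_congr ?_ ?_ rfl
        · constructor
          · intro h j
            have := h _ (mem_rowS.2 ⟨j, rfl⟩)
            rwa [emb_inl] at this
          · intro h x hx
            obtain ⟨j, rfl⟩ := mem_rowS.1 hx
            rw [emb_inl]
            exact h j
        · rw [barC_row, invN_swS, swS_emb]
          rfl
    · refine if_congr (all_emb d _) ?_ rfl
      rw [bar_emb, invN_swS, swS_emb, coe_bar]
      rfl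
  · refine if_congr (and_congr (all_emb d _) (oneB_emb d p)) ?_ rfl
    rw [bar_emb, fus_swS, swS_emb, coe_bar]
    rfl

end HKDet
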