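import Pool.Agent.Lib.HKDet.JDefs
import Pool.Agent.Lib.HKDet.FrOp
import Pool.Agent.Lib.FSig.OpsGr

/-!
# JA: `T` is free over the subring of polynomials in the `p`-th powers, with the box monomials as a basis

PROOFS.
* `md_apply`: additive in `μ` (`Finsupp.mapDomain_add`), `Finsupp.induction_linear`, `Finsupp.mapDomain_single`. `md_add`, `md_smul`: `Finsupp.mapDomain_add`, `Finsupp.mapDomain_smul`. The rest by `md_apply`, `Finsupp.ext`.
* `mem_S_md`: `mem_S_iff` and `md_apply`.
* `coeff_kap`: both sides are linear in `f`, so `f = monomial μ c` (`MvPolynomial.induction_on'` or `Finsupp`-style `as_sum`; the values of `kap` on monomials: `Module.Basis.constr_basis`, `monomial μ c = c • monomial μ 1`). If `μ = p • ν + β` the condition holds and `divp p (μ - β) = ν`; if the condition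
  holds, `μ - β = p • divp p (μ - β)`, so `μ = p • ν + β` with `ν = divp p (μ - β)`. Hence both sides are `c` if `μ = p • ν + β` and `0` otherwise.
* `kap_mul_expand`: linear in `a` and in `g`: `a = monomial μ 1`, `g = monomial ν 1`, `a * expand p g = monomial (μ + p • ν) 1` (`expand_monomial`-type lemma). As `β x < p`: `β x ≤ μ x + p ν x` and `p ∣ μ x + p ν x - β x` iff `β x ≤ μ x` and `p ∣ μ x - β x` (both say `μ x % p = β x`), and then
  `divp p (μ + p • ν - β) = divp p (μ - β) + ν`. (Or use `coeff_kap` and `coeff_mul`.)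
* `exists_sum_kap`: `s` = image of the support of `f` under `μ ↦ μ.mapRange (· % p)`. Compare coefficients at `μ`: `coeff μ (monomial β 1 * expand p g)` is `coeff ((μ - β)/p) g` if `β ≤ μ` and `p ∣ μ - β`, else `0`; for small `β` this means `β = μ % p`, and `coeff (μ / p) (kap p β f) = coeff μ f` (`coeff_kap`).
* `mem_Fr_iff`: `←` by `exists_sum_kap` (`expand p (kap p β f)` is in the image of `J`). `→`: the `f` with `kap p β f ∈ J` for all small `β` form an additive group which contains `a * expand p g`, `g ∈ J` (`kap_mul_expand`); `Ideal.map` is the span of the `expand p g`: `Submodule.span_induction` with smul by `a`, or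
  `Ideal.mem_map_iff`-like: every element of `Ideal.span S` is a finite sum of `a * s` (`Submodule.mem_span_iff_exists_finset_subset` / `Submodule.span_induction` for the predicate (for all `b`, `b * f` satisfies the condition)).
* `Fr_inf`: `mem_Fr_iff`. `Fr_sup`: `Ideal.map_sup`.
* `md_kap`: `coeff_kap`, `mem_S_iff` for `p • ν + β`, `md_add`, `md_smul`.
* `kap_homog`: if some `e` satisfies `p • e + md β = d` all `ν` in the support have `md ν = e` (`p • md ν = p • e`); otherwise `kap p β f = 0`.
-/

namespace HKDet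

open MvPolynomial FSig

variable {V : Type*} {K : Type*} [Field K] {p : ℕ}

theorem md_apply (μ : V × Bool →₀ ℕ) (v : V) : md μ v = μ (v, false) + μ (v, true) := by
  classical
  unfold md
  induction μ using Finsupp.induction_linear with
  | zero => simp
  | add f g hf hg =>
    rw [Finsupp.mapDomain_add, Finsupp.add_apply, hf, hg, Finsupp.add_apply, Finsupp.add_apply]
    ring
  | single x n =>
    rw [Finsupp.mapDomain_single]
    obtain ⟨u, b⟩ := x
    cases b <;> by_cases h : u = v <;> simp [Finsupp.single_apply, h]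

theorem md_add (μ ν : V × Bool →₀ ℕ) : md (μ + ν) = md μ + md ν := Finsupp.mapDomain_add

theorem md_smul (n : ℕ) (μ : V × Bool →₀ ℕ) : md (n • μ) = n • md μ := by
  ext v
  rw [Finsupp.smul_apply, md_apply, md_apply, Finsupp.smul_apply, Finsupp.smul_apply, smul_eq_mul,
    smul_eq_mul, smul_eq_mul, mul_add]

theorem md_single (x : V × Bool) (n : ℕ) : md (Finsupp.single x n) = Finsupp.single x.1 n :=
  Finsupp.mapDomain_single

theorem md_mono {μ ν : V × Bool →₀ ℕ} (h : μ ≤ ν) : md μ ≤ md ν := by
  intro v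
  rw [md_apply, md_apply]
  exact add_le_add (h _) (h _)

theorem md_eq_zero {μ : V × Bool →₀ ℕ} : md μ = 0 ↔ μ = 0 := by
  constructor
  · intro h
    ext ⟨v, b⟩
    have h1 := DFunLike.congr_fun h v
    rw [md_apply, Finsupp.zero_apply] at h1
    rw [Finsupp.zero_apply]
    cases b <;> omega
  · intro h
    ext v
    rw [md_apply, h]
    simp

theorem divp_apply (μ : V × Bool →₀ ℕ) (x : V × Bool) : divp p μ x = μ x / p := rfl

theorem mem_S_md {d : V →₀ ℕ} {w : ℤ} {f : T V K} :
    f ∈ S K d w ↔ ∀ μ, coeff μ f ≠ 0 → md μ = d ∧ wtm μ = w := by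
  rw [mem_S_iff]
  refine forall_congr' fun μ => imp_congr_right fun _ => and_congr_left fun _ => ?_
  rw [Finsupp.ext_iff]
  exact forall_congr' fun v => by rw [md_apply]

private lemma JA_cond {b m : ℕ} (hb : b < p) : (b ≤ m ∧ p ∣ m - b) ↔ m % p = b := by
  constructor
  · rintro ⟨h1, k, hk⟩
    have h2 : m = p * k + b := by omega
    rw [h2, Nat.mul_add_mod, Nat.mod_eq_of_lt hb]
  · intro h
    subst h
    exact ⟨Nat.mod_le _ _, Nat.dvd_sub_mod _⟩

open scoped Classical in
private lemma JA_kap_mon (β μ : V × Bool →₀ ℕ) (c : K) :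
    kap p β (monomial μ c) = if ∀ x, β x ≤ μ x ∧ p ∣ μ x - β x then
      monomial (divp p (μ - β)) c else 0 := by
  have h1 : (monomial μ c : T V K) = c • basisMonomials (V × Bool) K μ := by
    rw [coe_basisMonomials]
    simp only
    rw [smul_monomial, smul_eq_mul, mul_one]
  rw [h1, map_smul]
  unfold kap
  rw [Module.Basis.constr_basis]
  split_ifs
  · rw [smul_monomial, smul_eq_mul, mul_one]
  · rw [smul_zero]

theorem coeff_kap (hp : 0 < p) (β ν : V × Bool →₀ ℕ) (f : T V K) :
    coeff ν (kap p β f) = coeff (p • ν + β) f := by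
  classical
  refine MvPolynomial.induction_on' f ?_ ?_
  · intro μ c
    rw [JA_kap_mon, coeff_monomial]
    split_ifs with h1 h2 h2
    · subst h2
      rw [coeff_monomial, if_pos]
      ext x
      rw [divp_apply, Finsupp.tsub_apply, Finsupp.add_apply, Finsupp.smul_apply, smul_eq_mul,
        Nat.add_sub_cancel, Nat.mul_div_cancel_left _ hp]
    · rw [coeff_monomial, if_neg]
      intro h3
      apply h2
      ext x
      obtain ⟨h4, k, hk⟩ := h1 x
      have h5 := DFunLike.congr_fun h3 x
      rw [divp_apply, Finsupp.tsub_apply, hk, Nat.mul_div_cancel_left _ hp] at h5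
      rw [Finsupp.add_apply, Finsupp.smul_apply, smul_eq_mul, ← h5]
      omega
    · exfalso
      apply h1
      intro x
      rw [h2, Finsupp.add_apply, Finsupp.smul_apply, smul_eq_mul, Nat.add_sub_cancel]
      exact ⟨Nat.le_add_left _ _, dvd_mul_right _ _⟩
    · exact coeff_zero _
  · intro f g hf hg
    rw [map_add, coeff_add, coeff_add, hf, hg]

theorem kap_mul_expand (hp : 0 < p) {β : V × Bool →₀ ℕ} (hβ : ∀ x, β x < p) (a g : T V K) :
    kap p β (a * expand p g) = kap p β a * g := by
  classical
  refine MvPolynomial.induction_on' a ?_ ?_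
  · intro μ c
    refine MvPolynomial.induction_on' g ?_ ?_
    · intro ν d
      rw [expand_monomial, monomial_mul, JA_kap_mon, JA_kap_mon]
      have h1 : (∀ x, β x ≤ (μ + p • ν) x ∧ p ∣ (μ + p • ν) x - β x) ↔
          ∀ x, β x ≤ μ x ∧ p ∣ μ x - β x := by
        refine forall_congr' fun x => ?_
        rw [JA_cond (hβ x), JA_cond (hβ x), Finsupp.add_apply, Finsupp.smul_apply, smul_eq_mul,
          Nat.add_mul_mod_self_left]
      by_cases h2 : ∀ x, β x ≤ μ x ∧ p ∣ μ x - β x
      · rw [if_pos (h1.2 h2), if_pos h2, monomial_mul]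
        have h3 : divp p (μ + p • ν - β) = divp p (μ - β) + ν := by
          ext x
          rw [Finsupp.add_apply, divp_apply, divp_apply, Finsupp.tsub_apply, Finsupp.tsub_apply,
            Finsupp.add_apply, Finsupp.smul_apply, smul_eq_mul]
          have h4 := (h2 x).1
          rw [show μ x + p * ν x - β x = (μ x - β x) + p * ν x by omega,
            Nat.add_mul_div_left _ _ hp]
        rw [h3]
      · rw [if_neg (fun h => h2 (h1.1 h)), if_neg h2, zero_mul]
    · intro f g hf hg
      rw [map_add, mul_add, map_add, hf, hg, mul_add]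
  · intro f h hf hh
    rw [add_mul, map_add, map_add, hf, hh, add_mul]

theorem exists_sum_kap (hp : 0 < p) (f : T V K) : ∃ s : Finset (V × Bool →₀ ℕ),
    (∀ β ∈ s, ∀ x, β x < p) ∧ f = ∑ β ∈ s, monomial β (1 : K) * expand p (kap p β f) := by
  classical
  let rd : (V × Bool →₀ ℕ) → (V × Bool →₀ ℕ) := fun μ => μ.mapRange (· % p) (Nat.zero_mod p)
  have hrd : ∀ μ x, rd μ x = μ x % p := fun _ _ => rfl
  refine ⟨f.support.image rd, ?_, ?_⟩
  · intro β hβ x
    rw [Finset.mem_image] at hβ
    obtain ⟨μ, _, rfl⟩ := hβ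
    rw [hrd]
    exact Nat.mod_lt _ hp
  · have key : ∀ μ ∈ f.support, ∀ c : K, ∑ β ∈ f.support.image rd,
        monomial β (1 : K) * expand p (kap p β (monomial μ c)) = monomial μ c := by
      intro μ hμ c
      rw [Finset.sum_eq_single (rd μ)]
      · rw [JA_kap_mon, if_pos, expand_monomial, monomial_mul, one_mul]
        · have h3 : rd μ + p • divp p (μ - rd μ) = μ := by
            ext x
            rw [Finsupp.add_apply, Finsupp.smul_apply, smul_eq_mul, divp_apply,
              Finsupp.tsub_apply, hrd]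
            have h4 : μ x - μ x % p = p * (μ x / p) := by
              have := Nat.div_add_mod (μ x) p
              omega
            rw [h4, Nat.mul_div_cancel_left _ hp]
            exact Nat.mod_add_div _ _
          rw [h3]
        · intro x
          rw [JA_cond (by rw [hrd]; exact Nat.mod_lt _ hp), hrd]
      · intro β hβ hne
        rw [Finset.mem_image] at hβ
        obtain ⟨μ', _, rfl⟩ := hβ
        rw [JA_kap_mon, if_neg, map_zero, mul_zero]
        intro h
        apply hne
        ext x
        have h1 := (JA_cond (p := p) (by rw [hrd]; exact Nat.mod_lt _ hp)).1 (h x)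
        rw [← h1, hrd]
      · intro h
        exact absurd (Finset.mem_image_of_mem rd hμ) h
    have e1 : ∑ β ∈ f.support.image rd, monomial β (1 : K) * expand p (kap p β f)
        = ∑ β ∈ f.support.image rd, ∑ μ ∈ f.support,
          monomial β (1 : K) * expand p (kap p β (monomial μ (coeff μ f))) := by
      refine Finset.sum_congr rfl fun β _ => ?_
      conv_lhs => rw [← support_sum_monomial_coeff f]
      rw [map_sum, map_sum, Finset.mul_sum]
    rw [e1, Finset.sum_comm, Finset.sum_congr rfl fun μ hμ => key μ hμ _,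
      support_sum_monomial_coeff]

theorem mem_Fr_iff (hp : 0 < p) {J : Ideal (T V K)} {f : T V K} :
    f ∈ Fr p J ↔ ∀ β : V × Bool →₀ ℕ, (∀ x, β x < p) → kap p β f ∈ J := by
  constructor
  · intro hf
    have key : ∀ b β, (∀ x, β x < p) → kap p β (b * f) ∈ J := by
      unfold Fr Ideal.map at hf
      refine Submodule.span_induction (p := fun f _ => ∀ b β, (∀ x, β x < p) →
        kap p β (b * f) ∈ J) ?_ ?_ ?_ ?_ hf
      · rintro _ ⟨g, hg, rfl⟩ b β hβ
        have h1 := kap_mul_expand hp hβ b g
        rw [show b * (expand p : T V K →ₐ[K] T V K) g = b * expand p g from rfl, h1]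
        exact Ideal.mul_mem_left _ _ hg
      · intro b β _
        rw [mul_zero, map_zero]
        exact zero_mem _
      · intro x y _ _ hx hy b β hβ
        rw [mul_add, map_add]
        exact add_mem (hx b β hβ) (hy b β hβ)
      · intro a x _ hx b β hβ
        rw [smul_eq_mul, ← mul_assoc]
        exact hx (b * a) β hβ
    intro β hβ
    have h2 := key 1 β hβ
    rwa [one_mul] at h2
  · intro h
    obtain ⟨s, hs, hf⟩ := exists_sum_kap hp f
    rw [hf]
    refine sum_mem fun β hβ => Ideal.mul_mem_left _ _ ?_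
    exact Ideal.mem_map_of_mem _ (h β (hs β hβ))

theorem Fr_inf (hp : 0 < p) (I J : Ideal (T V K)) : Fr p (I ⊓ J) = Fr p I ⊓ Fr p J := by
  ext f
  rw [Ideal.mem_inf, mem_Fr_iff hp, mem_Fr_iff hp, mem_Fr_iff hp]
  constructor
  · intro h
    exact ⟨fun β hβ => (Ideal.mem_inf.1 (h β hβ)).1, fun β hβ => (Ideal.mem_inf.1 (h β hβ)).2⟩
  · rintro ⟨h1, h2⟩ β hβ
    exact Ideal.mem_inf.2 ⟨h1 β hβ, h2 β hβ⟩

theorem md_kap (hp : 0 < p) {d : V →₀ ℕ} {w : ℤ} {f : T V K} (hf : f ∈ S K d w)
    (β ν : V × Bool →₀ ℕ) (h : coeff ν (kap p β f) ≠ 0) : p • md ν + md β = d := by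
  rw [coeff_kap hp] at h
  rw [← (mem_S_md.1 hf _ h).1, md_add, md_smul]

theorem kap_homog (hp : 0 < p) {d : V →₀ ℕ} {w : ℤ} {f : T V K} (hf : f ∈ S K d w)
    (β : V × Bool →₀ ℕ) : ∃ e : V →₀ ℕ, ∀ ν, coeff ν (kap p β f) ≠ 0 → md ν = e ∧ p • e ≤ d := by
  by_cases hex : ∃ ν0, coeff ν0 (kap p β f) ≠ 0
  · obtain ⟨ν0, h0⟩ := hex
    have h1 := md_kap hp hf β ν0 h0
    refine ⟨md ν0, fun ν hν => ⟨?_, ?_⟩⟩
    · have h2 := md_kap hp hf β ν hν
      rw [← h1] at h2
      have h3 := add_right_cancel h2
      ext v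
      have h4 := DFunLike.congr_fun h3 v
      rw [Finsupp.smul_apply, Finsupp.smul_apply, smul_eq_mul, smul_eq_mul] at h4
      exact Nat.eq_of_mul_eq_mul_left hp h4
    · rw [← h1]
      exact le_self_add
  · exact ⟨0, fun ν hν => absurd ⟨ν, hν⟩ hex⟩

end HKDet
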