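import Pool.Agent.Lib.HKDet.JA

/-!
# JB: ideals spanned by monomials with multidegree in an upper set

PROOFS.
* `mem_mI`: `mem_ideal_span_monomial_image`: `f ∈ mI 𝒰` iff every `μ` in the support of `f` is `≥` some `ν` with `md ν ∈ 𝒰`; `md_mono` and `𝒰` an upper set.
* `good_mI`: `hom`: the monomials of a component are monomials of `f` (`coeff_weightedHomogeneousComponent`). `E`, `F`: `f ∈ mI 𝒰` is a sum of monomials `monomial μ c` with `md μ ∈ 𝒰`; `monomial μ c ∈ S K (md μ) (wtm μ)` and `E_mem_S`, so the monomials of `E K k (monomial μ c)` have the same `md` (`mem_S_md`).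
* `mem_Fr_mI`: `mem_Fr_iff`, `mem_mI`, `coeff_kap`: `μ = p • divp p μ + β`, `β = μ.mapRange (· % p)`.
* `nI_eq_mI`: `f ∈ nI K U` iff every monomial of `f` contains a variable `x` with `x.1 ∈ U` (`mem_ideal_span_X_image`); `md μ u ≠ 0` iff `μ (u, false) ≠ 0` or `μ (u, true) ≠ 0`.
* `nI_mul_nI`: `≤`: products of two monomials; `≥`: a monomial `μ` with `md μ i ≠ 0`, `md μ j ≠ 0`, `i ≠ j` (`R`, `C` disjoint), is a multiple of `X x * X y`, `x.1 = i`, `y.1 = j`, `x ≠ y`.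
* `nI_inf_nI`: `mem_mI`. `nI_sup_nI`: `Ideal.span_union`-like. `nI_pow`: monomials: `⊆`: products of `b` elements; induction on `b`: a monomial `μ` with `md μ o ≥ b + 1` is `X x * X^μ'`, `x.1 = o`, `md μ' o ≥ b`.
* `Fs_congr`: by symmetry one inclusion. Let `f ∈ S K d w`, `kap p β f ∈ J ⊔ mI 𝒰` for all small `β` (`mem_Fr_iff`). By `kap_homog` all monomials of `g = kap p β f` have the multidegree `e`, `p • e ≤ d` (if `g ≠ 0`). Write `g = j + m`, `j ∈ J`, `m ∈ mI 𝒰` (`Submodule.mem_sup`) and take the sum of the components of multidegree `e`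
  (all weights; these are finitely many, `exists_sum_component`; `J` is `Good`, so the components of `j` are in `J`): `g = j_e + m_e`. If `m_e ≠ 0`, then `e ∈ 𝒰`, so `e ∈ 𝒰'` and `m_e ∈ mI 𝒰'` (all its monomials have `md = e`). So `g ∈ J ⊔ mI 𝒰'`. (Simplification: if `e ∈ 𝒰` then `e ∈ 𝒰'` and `g ∈ mI 𝒰'`
  directly by `mem_mI`; if `e ∉ 𝒰` then `m_e = 0` and `g = j_e ∈ J`.)
* `Fs_bot_congr`, `Fs_mI_empty`: special cases (`J = ⊥`; `𝒰' = ∅`, `mI ∅ = ⊥`).
-/

namespace HKDet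

open MvPolynomial FSig

variable {V : Type*} {K : Type*} [Field K] {p : ℕ}

theorem mem_mI {𝒰 : Set (V →₀ ℕ)} (h : IsUpperSet 𝒰) {f : T V K} :
    f ∈ mI K 𝒰 ↔ ∀ μ, coeff μ f ≠ 0 → md μ ∈ 𝒰 := by
  unfold mI
  rw [mem_ideal_span_monomial_image]
  constructor
  · intro h1 μ hμ
    obtain ⟨ν, hν, hle⟩ := h1 μ (mem_support_iff.2 hμ)
    exact h (md_mono hle) hν
  · intro h1 μ hμ
    exact ⟨μ, h1 μ (mem_support_iff.1 hμ), le_refl _⟩

theorem good_mI {𝒰 : Set (V →₀ ℕ)} (h : IsUpperSet 𝒰) : Good (mI K 𝒰) := by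
  classical
  have hmon : ∀ (D : T V K →ₗ[K] T V K) (s : ℤ),
      (∀ (d : V →₀ ℕ) (w : ℤ) (f : T V K), f ∈ S K d w → D f ∈ S K d (w + s)) →
      ∀ f ∈ mI K 𝒰, D f ∈ mI K 𝒰 := by
    intro D s hD f hf
    rw [mem_mI h] at hf
    have e1 : D f = ∑ μ ∈ f.support, D (monomial μ (coeff μ f)) := by
      conv_lhs => rw [f.as_sum]
      rw [map_sum]
    rw [e1]
    refine Ideal.sum_mem _ fun μ hμ => ?_
    rw [mem_support_iff] at hμ
    have h1 : (monomial μ (coeff μ f) : T V K) ∈ S K (md μ) (wtm μ) :=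
      monomial_mem_S K _ (fun v => (md_apply μ v).symm) rfl
    rw [mem_mI h]
    intro ν hν
    rw [((mem_S_md).1 (hD _ _ _ h1) ν hν).1]
    exact hf μ hμ
  refine ⟨?_, ?_, ?_⟩
  · intro f hf i
    rw [mem_mI h] at hf ⊢
    intro μ hμ
    rw [coeff_weightedHomogeneousComponent] at hμ
    apply hf μ
    intro h0
    apply hμ
    rw [h0, ite_self]
  · intro k f hf
    exact hmon (FSig.E K k) (2 * k) (fun d w f hf => E_mem_S K hf k) f hf
  · intro k f hf
    exact hmon (FSig.F K k) (-(2 * k)) (fun d w f hf => F_mem_S K hf k) f hf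

theorem mem_Fr_mI (hp : 0 < p) {𝒰 : Set (V →₀ ℕ)} (h : IsUpperSet 𝒰) {f : T V K} :
    f ∈ Fr p (mI K 𝒰) ↔ ∀ μ, coeff μ f ≠ 0 → md (divp p μ) ∈ 𝒰 := by
  rw [mem_Fr_iff hp]
  constructor
  · intro h1 μ hμ
    have h2 : p • divp p μ + μ.mapRange (· % p) (Nat.zero_mod p) = μ := by
      ext x
      rw [Finsupp.add_apply, Finsupp.smul_apply, divp_apply, Finsupp.mapRange_apply, smul_eq_mul]
      exact Nat.div_add_mod _ _
    have h3 := h1 (μ.mapRange (· % p) (Nat.zero_mod p)) (fun x => by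
      rw [Finsupp.mapRange_apply]
      exact Nat.mod_lt _ hp)
    rw [mem_mI h] at h3
    apply h3
    rw [coeff_kap hp, h2]
    exact hμ
  · intro h1 β hβ
    rw [mem_mI h]
    intro ν hν
    rw [coeff_kap hp] at hν
    have h2 := h1 _ hν
    have h3 : divp p (p • ν + β) = ν := by
      ext x
      rw [divp_apply, Finsupp.add_apply, Finsupp.smul_apply, smul_eq_mul, Nat.mul_add_div hp,
        Nat.div_eq_of_lt (hβ x), add_zero]
    rwa [h3] at h2

theorem mI_mono {𝒰 𝒰' : Set (V →₀ ℕ)} (h : 𝒰 ⊆ 𝒰') : mI K 𝒰 ≤ mI K 𝒰' := by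
  unfold mI
  exact Ideal.span_mono (Set.image_mono fun μ hμ => h hμ)

private theorem up_ex (U : Finset V) : IsUpperSet {v : V →₀ ℕ | ∃ u ∈ U, v u ≠ 0} := by
  rintro a b hab ⟨u, hu, hne⟩
  refine ⟨u, hu, ?_⟩
  have := hab u
  omega

private theorem ex_var {μ : V × Bool →₀ ℕ} {u : V} (h : md μ u ≠ 0) :
    ∃ x : V × Bool, x.1 = u ∧ μ x ≠ 0 := by
  rw [md_apply] at h
  by_cases h1 : μ (u, false) = 0
  · exact ⟨(u, true), rfl, by omega⟩
  · exact ⟨(u, false), rfl, h1⟩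

private theorem md_ne {μ : V × Bool →₀ ℕ} {x : V × Bool} (h : μ x ≠ 0) : md μ x.1 ≠ 0 := by
  rw [md_apply]
  obtain ⟨u, b⟩ := x
  cases b
  · change μ (u, false) + μ (u, true) ≠ 0
    omega
  · change μ (u, false) + μ (u, true) ≠ 0
    omega

theorem nI_eq_mI (U : Finset V) : nI K U = mI K {v | ∃ u ∈ U, v u ≠ 0} := by
  ext f
  rw [mem_mI (up_ex U)]
  unfold nI
  rw [mem_ideal_span_X_image]
  constructor
  · intro h μ hμ
    obtain ⟨x, hx, hne⟩ := h μ (mem_support_iff.2 hμ)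
    exact ⟨x.1, hx, md_ne hne⟩
  · intro h μ hμ
    obtain ⟨u, hu, hne⟩ := h μ (mem_support_iff.1 hμ)
    obtain ⟨x, rfl, hx⟩ := ex_var hne
    exact ⟨x, hu, hx⟩

private theorem split_one {μ : V × Bool →₀ ℕ} {x : V × Bool} (h : μ x ≠ 0) :
    ∃ μ', μ = μ' + Finsupp.single x 1 := by
  refine ⟨μ - Finsupp.single x 1, ?_⟩
  rw [tsub_add_cancel_of_le]
  rw [Finsupp.single_le_iff]
  omega

theorem nI_mul_nI {R C : Finset V} (h : Disjoint R C) :
    nI K R * nI K C = mI K {v | (∃ i ∈ R, v i ≠ 0) ∧ ∃ j ∈ C, v j ≠ 0} := by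
  classical
  apply le_antisymm
  · unfold nI mI
    rw [Ideal.span_mul_span', Ideal.span_le]
    rintro _ ⟨_, ⟨x, hx, rfl⟩, _, ⟨y, hy, rfl⟩, rfl⟩
    refine Ideal.subset_span ⟨Finsupp.single x 1 + Finsupp.single y 1, ⟨⟨x.1, hx, ?_⟩, y.1, hy, ?_⟩,
      ?_⟩
    · rw [md_add, md_single, md_single, Finsupp.add_apply, Finsupp.single_eq_same]
      omega
    · rw [md_add, md_single, md_single, Finsupp.add_apply, Finsupp.single_eq_same]
      omega
    · change monomial (Finsupp.single x 1 + Finsupp.single y 1) (1 : K) =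
        monomial (Finsupp.single x 1) (1 : K) * monomial (Finsupp.single y 1) (1 : K)
      rw [monomial_mul, one_mul]
  · unfold mI
    rw [Ideal.span_le]
    rintro _ ⟨μ, ⟨⟨i, hi, hmi⟩, j, hj, hmj⟩, rfl⟩
    obtain ⟨x, rfl, hx⟩ := ex_var hmi
    obtain ⟨y, rfl, hy⟩ := ex_var hmj
    have hxy : x.1 ≠ y.1 := fun e => (Finset.disjoint_left.1 h hi) (e ▸ hj)
    have hne : y ≠ x := fun e => hxy (by rw [e])
    obtain ⟨μ', rfl⟩ := split_one hx
    have hy' : μ' y ≠ 0 := by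
      rw [Finsupp.add_apply, Finsupp.single_apply, if_neg (Ne.symm hne), add_zero] at hy
      exact hy
    obtain ⟨μ'', rfl⟩ := split_one hy'
    have e1 : (monomial (μ'' + Finsupp.single y 1 + Finsupp.single x 1) (1 : K) : T V K) =
        monomial μ'' (1 : K) * (X x * X y) := by
      unfold X
      rw [monomial_mul, monomial_mul, one_mul, one_mul, add_assoc,
        add_comm (Finsupp.single y 1)]
    change (monomial (μ'' + Finsupp.single y 1 + Finsupp.single x 1) (1 : K) : T V K) ∈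
      nI K R * nI K C
    rw [e1]
    exact Ideal.mul_mem_left _ _ (Ideal.mul_mem_mul (Ideal.subset_span ⟨x, hi, rfl⟩)
      (Ideal.subset_span ⟨y, hj, rfl⟩))

theorem nI_inf_nI {R C : Finset V} (h : Disjoint R C) :
    nI K R ⊓ nI K C = nI K R * nI K C := by
  have hup : IsUpperSet {v : V →₀ ℕ | (∃ i ∈ R, v i ≠ 0) ∧ ∃ j ∈ C, v j ≠ 0} := by
    rintro a b hab ⟨h1, h2⟩
    exact ⟨up_ex R hab h1, up_ex C hab h2⟩
  rw [nI_mul_nI h]
  ext f
  rw [Ideal.mem_inf, nI_eq_mI, nI_eq_mI, mem_mI (up_ex R), mem_mI (up_ex C), mem_mI hup]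
  constructor
  · rintro ⟨h1, h2⟩ μ hμ
    exact ⟨h1 μ hμ, h2 μ hμ⟩
  · intro h1
    exact ⟨fun μ hμ => (h1 μ hμ).1, fun μ hμ => (h1 μ hμ).2⟩

theorem nI_sup_nI [DecidableEq V] (R C : Finset V) : nI K R ⊔ nI K C = nI K (R ∪ C) := by
  unfold nI
  rw [← Ideal.span_union, ← Set.image_union]
  congr 2
  ext x
  simp

private theorem up_pow (o : V) (b : ℕ) : IsUpperSet {v : V →₀ ℕ | b ≤ v o} := by
  intro v w hvw hv
  exact le_trans hv (hvw o)

theorem nI_pow (o : V) (b : ℕ) : nI K {o} ^ b = mI K {v | b ≤ v o} := by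
  classical
  induction b with
  | zero =>
    rw [pow_zero, Ideal.one_eq_top]
    symm
    rw [Ideal.eq_top_iff_one, mem_mI (up_pow o 0)]
    intro μ _
    exact Nat.zero_le _
  | succ b ih =>
    rw [pow_succ, ih]
    apply le_antisymm
    · unfold mI nI
      rw [Ideal.span_mul_span', Ideal.span_le]
      rintro _ ⟨_, ⟨μ, hμ, rfl⟩, _, ⟨x, hx, rfl⟩, rfl⟩
      refine Ideal.subset_span ⟨μ + Finsupp.single x 1, ?_, ?_⟩
      · have hx' : x.1 = o := by simpa using hx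
        change b + 1 ≤ md (μ + Finsupp.single x 1) o
        rw [md_add, md_single, hx', Finsupp.add_apply, Finsupp.single_eq_same]
        have : b ≤ md μ o := hμ
        omega
      · change monomial (μ + Finsupp.single x 1) (1 : K) =
          monomial μ (1 : K) * monomial (Finsupp.single x 1) (1 : K)
        rw [monomial_mul, one_mul]
    · conv_lhs => unfold mI
      rw [Ideal.span_le]
      rintro _ ⟨μ, hμ, rfl⟩
      have hμ' : b + 1 ≤ md μ o := hμ
      obtain ⟨x, hxo, hx⟩ := ex_var (μ := μ) (u := o) (by omega)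
      obtain ⟨μ', rfl⟩ := split_one hx
      have e1 : (monomial (μ' + Finsupp.single x 1) (1 : K) : T V K) =
          monomial μ' (1 : K) * X x := by
        unfold X
        rw [monomial_mul, one_mul]
      change (monomial (μ' + Finsupp.single x 1) (1 : K) : T V K) ∈
        mI K {v | b ≤ v o} * nI K {o}
      rw [e1]
      refine Ideal.mul_mem_mul (Ideal.subset_span ⟨μ', ?_, rfl⟩) (Ideal.subset_span ⟨x, ?_, rfl⟩)
      · change b ≤ md μ' o
        rw [md_add, md_single, hxo, Finsupp.add_apply, Finsupp.single_eq_same] at hμ'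
        omega
      · change x.1 ∈ ({o} : Finset V)
        rw [Finset.mem_singleton]
        exact hxo

private theorem Fs_le (hp : 0 < p) {J : Ideal (T V K)} (hJ : Good J) {𝒰 𝒰' : Set (V →₀ ℕ)}
    (h : IsUpperSet 𝒰) (h' : IsUpperSet 𝒰') {d : V →₀ ℕ}
    (hd : ∀ v, p • v ≤ d → v ∈ 𝒰 → v ∈ 𝒰') (w : ℤ) :
    Fs p (J ⊔ mI K 𝒰) d w ≤ Fs p (J ⊔ mI K 𝒰') d w := by
  classical
  rintro f ⟨h1, h2⟩
  refine ⟨?_, h2⟩
  have h1' : f ∈ Fr p (J ⊔ mI K 𝒰) := h1
  change f ∈ Fr p (J ⊔ mI K 𝒰')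
  rw [mem_Fr_iff hp] at h1' ⊢
  intro β hβ
  have h3 := h1' β hβ
  obtain ⟨e, he⟩ := kap_homog hp h2 β
  by_cases h0 : kap p β f = 0
  · rw [h0]
    exact Ideal.zero_mem _
  have hpe : p • e ≤ d := by
    obtain ⟨ν, hν⟩ := MvPolynomial.ne_zero_iff.1 h0
    exact (he ν hν).2
  by_cases heU : e ∈ 𝒰
  · apply Ideal.mem_sup_right
    rw [mem_mI h']
    intro ν hν
    rw [(he ν hν).1]
    exact hd e hpe heU
  · apply Ideal.mem_sup_left
    obtain ⟨j, hj, m, hm, hjm⟩ := Submodule.mem_sup.1 h3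
    rw [mem_mI h] at hm
    obtain ⟨s, hs⟩ := exists_sum_component K j
    have hkey : kap p β f = ∑ i ∈ s.filter fun i => i.1 = e,
        weightedHomogeneousComponent (gr (V := V)) i j := by
      ext ν
      rw [coeff_sum]
      by_cases hν : md ν = e
      · have hm0 : coeff ν m = 0 := by
          by_contra hne
          apply heU
          rw [← hν]
          exact hm ν hne
        rw [← hjm, coeff_add, hm0, add_zero]
        conv_lhs => rw [hs]
        rw [coeff_sum, Finset.sum_filter]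
        refine Finset.sum_congr rfl fun i _ => ?_
        split_ifs with hi
        · rfl
        · by_contra hne
          apply hi
          have h5 := component_mem K j i.1 i.2
          rw [← hν]
          exact ((mem_S_md.1 h5 ν hne).1).symm
      · have hz : coeff ν (kap p β f) = 0 := by
          by_contra hne
          exact hν (he ν hne).1
        rw [hz]
        symm
        refine Finset.sum_eq_zero fun i hi => ?_
        by_contra hne
        apply hν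
        have h5 := component_mem K j i.1 i.2
        rw [(mem_S_md.1 h5 ν hne).1]
        exact (Finset.mem_filter.1 hi).2
    rw [hkey]
    exact Ideal.sum_mem _ fun i _ => hJ.hom j hj i

/-- only the multidegrees `v` with `p v ≤ d` matter -/
theorem Fs_congr (hp : 0 < p) {J : Ideal (T V K)} (hJ : Good J) {𝒰 𝒰' : Set (V →₀ ℕ)}
    (h : IsUpperSet 𝒰) (h' : IsUpperSet 𝒰') {d : V →₀ ℕ}
    (hd : ∀ v, p • v ≤ d → (v ∈ 𝒰 ↔ v ∈ 𝒰')) (w : ℤ) :
    Fs p (J ⊔ mI K 𝒰) d w = Fs p (J ⊔ mI K 𝒰') d w :=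
  le_antisymm (Fs_le hp hJ h h' (fun v hv => (hd v hv).1) w)
    (Fs_le hp hJ h' h (fun v hv => (hd v hv).2) w)

private theorem good_bot : Good (⊥ : Ideal (T V K)) := by
  refine ⟨?_, ?_, ?_⟩
  · intro f hf i
    rw [Ideal.mem_bot] at hf
    rw [hf, map_zero]
    exact Ideal.zero_mem _
  · intro k f hf
    rw [Ideal.mem_bot] at hf
    rw [hf, map_zero]
    exact Ideal.zero_mem _
  · intro k f hf
    rw [Ideal.mem_bot] at hf
    rw [hf, map_zero]
    exact Ideal.zero_mem _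

theorem Fs_bot_congr (hp : 0 < p) {𝒰 𝒰' : Set (V →₀ ℕ)}
    (h : IsUpperSet 𝒰) (h' : IsUpperSet 𝒰') {d : V →₀ ℕ}
    (hd : ∀ v, p • v ≤ d → (v ∈ 𝒰 ↔ v ∈ 𝒰')) (w : ℤ) :
    Fs p (mI K 𝒰) d w = Fs p (mI K 𝒰') d w := by
  have h1 := Fs_congr hp (good_bot (V := V) (K := K)) h h' hd w
  rwa [bot_sup_eq, bot_sup_eq] at h1

theorem Fs_mI_empty (hp : 0 < p) {J : Ideal (T V K)} (hJ : Good J) {𝒰 : Set (V →₀ ℕ)}
    (h : IsUpperSet 𝒰) {d : V →₀ ℕ} (hd : ∀ v, p • v ≤ d → v ∉ 𝒰) (w : ℤ) :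
    Fs p (J ⊔ mI K 𝒰) d w = Fs p J d w := by
  have h1 := Fs_congr hp hJ h (isUpperSet_empty (α := V →₀ ℕ))
    (fun v hv => ⟨fun hm => absurd hm (hd v hv), fun hm => hm.elim⟩) w
  have h2 : mI K (∅ : Set (V →₀ ℕ)) = ⊥ := by
    unfold mI
    simp
  rwa [h2, sup_bot_eq] at h1

end HKDet
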