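import Pool.Agent.Lib.HKDet.JA

/-!
# JC: merging all vectors; the ideal of the brackets `[i j]` in mixed degrees

PROOFS.
* `na_add`, ..: `Finsupp.sum_add_index'`. `na_add_nb`: `(md μ).degree = na μ + nb μ`; `wtm_eq`: induction on `μ` (`Finsupp.induction_linear`).
* `mu_monomial`: `rename_monomial`; `μ.mapDomain (fun x => ((), x.2)) = single ((), false) (na μ) + single ((), true) (nb μ)` (additive in `μ`; check on `single x n`).
* `mu_E`, `mu_F`: `(Polynomial.mapAlgHom-like map of mu) ∘ Et = Et ∘ mu` (both are algebra maps, check on the generators `Et_va`, `Et_vb`: `MvPolynomial.algHom_ext`), take coefficients.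
* `exists_msel`: induction on `v` (`Finsupp.induction_linear` or `induction on v.degree`): for `v = v' + single u 1` and `i ≤ |v|`: if `i ≤ |v'|` add one letter `b_u` to a monomial for `(v', i)`, otherwise (`i = |v'| + 1`) add `a_u` to one for `(v', i - 1)`. `msel_spec`: `Exists.choose_spec`.
* `mem_jI_iff`. `→`: `mu` is an algebra map and kills `br i j` (`a b - b a = 0`), so it kills the ideal. `←`: Let `J = jI K R C`, `v` supported on `R ∪ C` with `v i0 ≠ 0`, `v j0 ≠ 0`.
  (1) For two monomials `μ`, `ν` of multidegree `v` with `na μ = na ν` we have `X^μ - X^ν ∈ J`. Induction on the distance `∑_x |μ x - ν x|` (or `∑_u |μ (u,false) - ν (u,false)|`): if `μ ≠ ν` there are vectors `u, u'` in the support of `v` with `μ (u, false) > ν (u, false)`, `μ (u', false) < ν (u', false)`, so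
  `X^μ` is divisible by `a_u b_u'` (`μ (u', true) > 0`). EXCHANGE: `a_u b_u' Y ≡ b_u a_u' Y` mod `J` for the rest `Y` (`X^μ = a_u b_u' Y`): if one of `u, u'` is in `R` and the other in `C`: the difference is `± br Y`. If both are in `R`: `Y` is divisible by `a_j` or `b_j` for `j = j0`
  (`j0 ≠ u, u'` as `R`, `C` are disjoint): `a_u b_u' a_j - b_u a_u' a_j = a_u (b_u' a_j - a_u' b_j) + a_u' (a_u b_j - b_u a_j) = - a_u [u' j] + a_u' [u j]`, and `a_u b_u' b_j - b_u a_u' b_j = b_u' [u j] - b_u [u' j]`. Both in `C`: in the same way with `i0`.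
  (2) `f = ∑_μ c_μ X^μ`, choose for every `k` one monomial `m_k` with `na = k`: `f ≡ ∑_k (∑_{na μ = k} c_μ) m_k` mod `J`, and the inner sum is the coefficient of `a^k b^(|v|-k)` in `mu f = 0` (`mu_monomial`). So `f ∈ J`.
* `mem_bot_iff`: `f = x a_i + y b_i`, `mu f = x a + y b`.
* `kerI_le`: generators.
-/

namespace HKDet

open MvPolynomial FSig

variable {V : Type*} {K : Type*} [Field K]

theorem na_add (μ ν : V × Bool →₀ ℕ) : na (μ + ν) = na μ + na ν := by
  classical
  unfold na
  rw [Finsupp.sum_add_index']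
  · intro x
    split_ifs <;> rfl
  · intro x a b
    split_ifs <;> rfl

theorem nb_add (μ ν : V × Bool →₀ ℕ) : nb (μ + ν) = nb μ + nb ν := by
  classical
  unfold nb
  rw [Finsupp.sum_add_index']
  · intro x
    split_ifs <;> rfl
  · intro x a b
    split_ifs <;> rfl

private theorem jc_na_zero : na (0 : V × Bool →₀ ℕ) = 0 := Finsupp.sum_zero_index
private theorem jc_nb_zero : nb (0 : V × Bool →₀ ℕ) = 0 := Finsupp.sum_zero_index
private theorem jc_na_single (x : V × Bool) (n : ℕ) :
    na (Finsupp.single x n) = if x.2 then 0 else n := by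
  unfold na
  rw [Finsupp.sum_single_index (by split_ifs <;> rfl)]
private theorem jc_nb_single (x : V × Bool) (n : ℕ) :
    nb (Finsupp.single x n) = if x.2 then n else 0 := by
  unfold nb
  rw [Finsupp.sum_single_index (by split_ifs <;> rfl)]

private theorem jc_mapDomain (μ : V × Bool →₀ ℕ) :
    μ.mapDomain (fun x : V × Bool => ((), x.2)) =
      Finsupp.single ((), false) (na μ) + Finsupp.single ((), true) (nb μ) := by
  induction μ using Finsupp.induction_linear with
  | zero =>
    rw [Finsupp.mapDomain_zero, jc_na_zero, jc_nb_zero, Finsupp.single_zero, Finsupp.single_zero,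
      add_zero]
  | add f g hf hg =>
    rw [Finsupp.mapDomain_add, hf, hg, na_add, nb_add, Finsupp.single_add, Finsupp.single_add]
    abel
  | single x n =>
    rw [Finsupp.mapDomain_single, jc_na_single, jc_nb_single]
    obtain ⟨v, b⟩ := x
    cases b
    · simp
    · simp

theorem na_smul (n : ℕ) (μ : V × Bool →₀ ℕ) : na (n • μ) = n * na μ := by
  induction n with
  | zero => rw [zero_smul, jc_na_zero, zero_mul]
  | succ n ih => rw [succ_nsmul, na_add, ih, Nat.succ_mul]

theorem nb_smul (n : ℕ) (μ : V × Bool →₀ ℕ) : nb (n • μ) = n * nb μ := by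
  induction n with
  | zero => rw [zero_smul, jc_nb_zero, zero_mul]
  | succ n ih => rw [succ_nsmul, nb_add, ih, Nat.succ_mul]

theorem na_add_nb (μ : V × Bool →₀ ℕ) : na μ + nb μ = (md μ).degree := by
  induction μ using Finsupp.induction_linear with
  | zero =>
    rw [jc_na_zero, jc_nb_zero, md_eq_zero.2 rfl, map_zero, add_zero]
  | add f g hf hg =>
    rw [na_add, nb_add, md_add, map_add, ← hf, ← hg]
    ring
  | single x n =>
    rw [jc_na_single, jc_nb_single, md_single, Finsupp.degree_single]
    split_ifs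
    · rw [zero_add]
    · rw [add_zero]

theorem wtm_eq (μ : V × Bool →₀ ℕ) : wtm μ = (na μ : ℤ) - nb μ := by
  induction μ using Finsupp.induction_linear with
  | zero =>
    rw [jc_na_zero, jc_nb_zero]
    simp [wtm]
  | add f g hf hg =>
    have h1 : wtm (f + g) = wtm f + wtm g := by
      classical
      unfold wtm
      rw [Finsupp.sum_add_index']
      · intro x
        split_ifs <;> simp
      · intro x a b
        split_ifs
        · push_cast
          ring
        · push_cast
          ring
    rw [h1, hf, hg, na_add, nb_add]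
    push_cast
    ring
  | single x n =>
    rw [jc_na_single, jc_nb_single]
    unfold wtm
    rw [Finsupp.sum_single_index (by split_ifs <;> simp)]
    split_ifs
    · simp
    · simp

theorem mu_monomial (μ : V × Bool →₀ ℕ) (c : K) :
    mu (monomial μ c) = monomial (Finsupp.single ((), false) (na μ) +
      Finsupp.single ((), true) (nb μ)) c := by
  have key : μ.mapDomain (fun x : V × Bool => ((), x.2)) =
      Finsupp.single ((), false) (na μ) + Finsupp.single ((), true) (nb μ) := by
    exact jc_mapDomain μ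
  unfold mu
  rw [rename_monomial, key]

private theorem jc_mu_X (x : V × Bool) : mu (X x : T V K) = X ((), x.2) := by
  unfold mu
  rw [rename_X]

theorem mu_E (k : ℕ) (f : T V K) : mu (E K k f) = E K k (mu f) := by
  have h : (Polynomial.mapAlgHom (mu : T V K →ₐ[K] T Unit K)).comp (Et K) = (Et K).comp mu := by
    apply MvPolynomial.algHom_ext
    rintro ⟨v, b⟩
    rw [AlgHom.comp_apply, AlgHom.comp_apply, jc_mu_X]
    cases b
    · have h1 := Et_va K v
      have h2 := Et_va K ()
      unfold va at h1 h2
      rw [h1, h2]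
      simp [jc_mu_X]
    · have h1 := Et_vb K v
      have h2 := Et_vb K ()
      unfold va vb at h1 h2
      rw [h1, h2]
      simp [jc_mu_X]
  have h1 := congrArg (fun g => (g f).coeff k) h
  simp only [AlgHom.comp_apply, Polynomial.coe_mapAlgHom, Polynomial.coeff_map] at h1
  exact h1

theorem mu_F (k : ℕ) (f : T V K) : mu (F K k f) = F K k (mu f) := by
  have h : (Polynomial.mapAlgHom (mu : T V K →ₐ[K] T Unit K)).comp (Ft K) = (Ft K).comp mu := by
    apply MvPolynomial.algHom_ext
    rintro ⟨v, b⟩
    rw [AlgHom.comp_apply, AlgHom.comp_apply, jc_mu_X]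
    cases b
    · have h1 := Ft_va K v
      have h2 := Ft_va K ()
      unfold va vb at h1 h2
      rw [h1, h2]
      simp [jc_mu_X]
    · have h1 := Ft_vb K v
      have h2 := Ft_vb K ()
      unfold vb at h1 h2
      rw [h1, h2]
      simp [jc_mu_X]
  have h1 := congrArg (fun g => (g f).coeff k) h
  simp only [AlgHom.comp_apply, Polynomial.coe_mapAlgHom, Polynomial.coeff_map] at h1
  exact h1

private theorem jc_split (μ : V × Bool →₀ ℕ) {x : V × Bool} (h : 1 ≤ μ x) :
    ∃ ν, μ = ν + Finsupp.single x 1 := by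
  refine ⟨μ - Finsupp.single x 1, ?_⟩
  rw [tsub_add_cancel_of_le]
  exact Finsupp.single_le_iff.2 h

private theorem jc_exists_true (μ : V × Bool →₀ ℕ) (h : 1 ≤ nb μ) : ∃ u, 1 ≤ μ (u, true) := by
  by_contra hcon
  push Not at hcon
  have h1 : nb μ = 0 := by
    unfold nb
    refine Finset.sum_eq_zero fun x _ => ?_
    obtain ⟨v, b⟩ := x
    cases b
    · rfl
    · have := hcon v
      show μ (v, true) = 0
      omega
  omega

theorem exists_msel (v : V →₀ ℕ) {i : ℕ} (hi : i ≤ v.degree) :
    ∃ μ : V × Bool →₀ ℕ, md μ = v ∧ na μ = i := by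
  induction i with
  | zero =>
    refine ⟨v.mapDomain (fun u => (u, true)), ?_, ?_⟩
    · unfold md
      rw [← Finsupp.mapDomain_comp]
      exact Finsupp.mapDomain_id
    · induction v using Finsupp.induction_linear with
      | zero => rw [Finsupp.mapDomain_zero, jc_na_zero]
      | add f g hf hg =>
        rw [Finsupp.mapDomain_add, na_add, hf (Nat.zero_le _), hg (Nat.zero_le _)]
      | single u n =>
        rw [Finsupp.mapDomain_single, jc_na_single]
        rfl
  | succ i ih =>
    obtain ⟨μ, h1, h2⟩ := ih (by omega)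
    have h3 := na_add_nb μ
    rw [h1, h2] at h3
    obtain ⟨u, hu⟩ := jc_exists_true μ (by omega)
    obtain ⟨ν, hν⟩ := jc_split μ hu
    refine ⟨ν + Finsupp.single (u, false) 1, ?_, ?_⟩
    · rw [md_add, md_single, ← h1, hν, md_add, md_single]
    · rw [na_add, jc_na_single, ← h2, hν, na_add, jc_na_single]
      simp

theorem msel_spec (v : V →₀ ℕ) {i : ℕ} (hi : i ≤ v.degree) :
    md (msel v i) = v ∧ na (msel v i) = i ∧ nb (msel v i) = v.degree - i := by
  have h := exists_msel v hi
  have h1 : md (msel v i) = v ∧ na (msel v i) = i := by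
    unfold msel
    rw [dif_pos h]
    exact h.choose_spec
  refine ⟨h1.1, h1.2, ?_⟩
  have h2 := na_add_nb (msel v i)
  rw [h1.1, h1.2] at h2
  omega

private theorem jc_gt {μ ν : V × Bool →₀ ℕ} (hmd : md μ = md ν) (hna : na μ = na ν)
    (hne : μ ≠ ν) : ∃ u, ν (u, false) < μ (u, false) := by
  classical
  by_contra hcon
  push Not at hcon
  apply hne
  have hm : ∀ u, μ (u, false) + μ (u, true) = ν (u, false) + ν (u, true) := by
    intro u
    rw [← md_apply, ← md_apply, hmd]
  have h1 : na μ = ∑ x ∈ μ.support ∪ ν.support, if x.2 then 0 else μ x :=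
    Finsupp.sum_of_support_subset μ Finset.subset_union_left _ (fun x _ => by
      split_ifs <;> rfl)
  have h2 : na ν = ∑ x ∈ μ.support ∪ ν.support, if x.2 then 0 else ν x :=
    Finsupp.sum_of_support_subset ν Finset.subset_union_right _ (fun x _ => by
      split_ifs <;> rfl)
  have hle : ∀ x ∈ μ.support ∪ ν.support, (if x.2 then 0 else μ x) ≤ (if x.2 then 0 else ν x) := by
    rintro ⟨u, b⟩ _
    cases b
    · exact hcon u
    · exact le_refl 0
  rw [h1, h2] at hna
  have h3 := (Finset.sum_eq_sum_iff_of_le hle).1 hna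
  have h4 : ∀ u, μ (u, false) = ν (u, false) := by
    intro u
    by_cases hu : (u, false) ∈ μ.support ∪ ν.support
    · exact h3 (u, false) hu
    · rw [Finset.mem_union, not_or, Finsupp.notMem_support_iff, Finsupp.notMem_support_iff] at hu
      rw [hu.1, hu.2]
  ext ⟨u, b⟩
  cases b
  · exact h4 u
  · have h5 := hm u
    have h6 := h4 u
    omega

private theorem jc_mono_add (μ : V × Bool →₀ ℕ) (x : V × Bool) :
    (monomial (μ + Finsupp.single x 1) (1 : K) : T V K) = monomial μ 1 * X x := by
  rw [X, monomial_mul, one_mul]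

/-- exchange with the help of a third vector -/
private theorem jc_third {J : Ideal (T V K)} {u u' j : V} (h1 : br K u j ∈ J)
    (h2 : br K u' j ∈ J) (c : Bool) : br K u u' * X (j, c) ∈ J := by
  cases c
  · have e : br K u u' * X (j, false) = va K u' * br K u j - va K u * br K u' j := by
      unfold br va vb
      ring
    rw [e]
    exact J.sub_mem (J.mul_mem_left _ h1) (J.mul_mem_left _ h2)
  · have e : br K u u' * X (j, true) = vb K u' * br K u j - vb K u * br K u' j := by
      unfold br va vb
      ring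
    rw [e]
    exact J.sub_mem (J.mul_mem_left _ h1) (J.mul_mem_left _ h2)

private theorem jc_third' {J : Ideal (T V K)} {u u' j : V} (h1 : br K u j ∈ J)
    (h2 : br K u' j ∈ J) {ρ : V × Bool →₀ ℕ} (hρ : 1 ≤ md ρ j) :
    br K u u' * monomial ρ 1 ∈ J := by
  rw [md_apply] at hρ
  obtain ⟨c, hc⟩ : ∃ c, 1 ≤ ρ (j, c) := by
    by_cases h : 1 ≤ ρ (j, false)
    · exact ⟨false, h⟩
    · exact ⟨true, by omega⟩
  obtain ⟨ν, rfl⟩ := jc_split ρ hc
  rw [jc_mono_add, mul_comm (monomial ν (1 : K)), ← mul_assoc]
  exact J.mul_mem_right _ (jc_third h1 h2 c)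

private theorem jc_swap (u u' : V) : br K u u' = - br K u' u := by
  unfold br
  ring

/-- the exchange of letters -/
private theorem jc_exch {R C : Finset V} (hRC : Disjoint R C) {v : V →₀ ℕ}
    (hv : ∀ x, v x ≠ 0 → x ∈ R ∨ x ∈ C) (hi : ∃ i ∈ R, v i ≠ 0) (hj : ∃ j ∈ C, v j ≠ 0)
    {u u' : V} {ρ : V × Bool →₀ ℕ}
    (h : md ρ + Finsupp.single u 1 + Finsupp.single u' 1 = v) :
    br K u u' * monomial ρ 1 ∈ jI K R C := by
  classical
  have hRJ : ∀ i ∈ R, ∀ j ∈ C, br K i j ∈ jI K R C := fun i hi j hj =>
    Ideal.subset_span ⟨i, hi, j, hj, rfl⟩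
  have hCJ : ∀ i ∈ C, ∀ j ∈ R, br K i j ∈ jI K R C := by
    intro i hi j hj
    rw [jc_swap]
    exact (jI K R C).neg_mem (hRJ j hj i hi)
  have hu : v u ≠ 0 := by
    rw [← h, Finsupp.add_apply, Finsupp.add_apply, Finsupp.single_eq_same]
    omega
  have hu' : v u' ≠ 0 := by
    rw [← h, Finsupp.add_apply, Finsupp.single_eq_same]
    omega
  have hthird : ∀ j, v j ≠ 0 → j ≠ u → j ≠ u' → 1 ≤ md ρ j := by
    intro j hj h1 h2
    rw [← h, Finsupp.add_apply, Finsupp.add_apply, Finsupp.single_eq_of_ne h1,
      Finsupp.single_eq_of_ne h2] at hj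
    omega
  have hne : ∀ i ∈ R, ∀ j ∈ C, i ≠ j := fun i hi j hj hij =>
    Finset.disjoint_left.1 hRC hi (hij ▸ hj)
  obtain ⟨i0, hi0, hi0'⟩ := hi
  obtain ⟨j0, hj0, hj0'⟩ := hj
  rcases hv u hu with h1 | h1 <;> rcases hv u' hu' with h2 | h2
  · exact jc_third' (hRJ u h1 j0 hj0) (hRJ u' h2 j0 hj0)
      (hthird j0 hj0' (hne u h1 j0 hj0).symm (hne u' h2 j0 hj0).symm)
  · exact (jI K R C).mul_mem_right _ (hRJ u h1 u' h2)
  · exact (jI K R C).mul_mem_right _ (hCJ u h1 u' h2)
  · exact jc_third' (hCJ u h1 i0 hi0) (hCJ u' h2 i0 hi0)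
      (hthird i0 hi0' (hne i0 hi0 u h1) (hne i0 hi0 u' h2))

/-- monomials with the same multidegree and the same number of letters `a` are congruent -/
private theorem jc_cong {R C : Finset V} (hRC : Disjoint R C) {v : V →₀ ℕ}
    (hv : ∀ x, v x ≠ 0 → x ∈ R ∨ x ∈ C) (hi : ∃ i ∈ R, v i ≠ 0) (hj : ∃ j ∈ C, v j ≠ 0)
    (n : ℕ) : ∀ μ ν : V × Bool →₀ ℕ, md μ = v → md ν = v → na μ = na ν →
      (μ - ν).degree ≤ n → (monomial μ (1 : K) - monomial ν 1 : T V K) ∈ jI K R C := by
  classical
  induction n with
  | zero =>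
    intro μ ν hμ hν hna hn
    by_cases hne : μ = ν
    · rw [hne, sub_self]
      exact (jI K R C).zero_mem
    · exfalso
      obtain ⟨u, hu⟩ := jc_gt (hμ.trans hν.symm) hna hne
      have h1 : (μ - ν).degree = 0 := Nat.le_zero.1 hn
      rw [Finsupp.degree_eq_zero_iff] at h1
      have h2 := DFunLike.congr_fun h1 (u, false)
      rw [Finsupp.tsub_apply, Finsupp.zero_apply] at h2
      omega
  | succ n ih =>
    intro μ ν hμ hν hna hn
    by_cases hne : μ = ν
    · rw [hne, sub_self]
      exact (jI K R C).zero_mem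
    obtain ⟨u, hu⟩ := jc_gt (hμ.trans hν.symm) hna hne
    obtain ⟨u', hu'⟩ := jc_gt (hν.trans hμ.symm) hna.symm (Ne.symm hne)
    have hm : ∀ w, μ (w, false) + μ (w, true) = ν (w, false) + ν (w, true) := by
      intro w
      rw [← md_apply, ← md_apply, hμ, hν]
    have hmu := hm u
    have hmu' := hm u'
    have huu' : u ≠ u' := by
      rintro rfl
      omega
    obtain ⟨ρ1, hρ1⟩ := jc_split μ (x := (u, false)) (by omega)
    have h3 : 1 ≤ ρ1 (u', true) := by
      have h4 := DFunLike.congr_fun hρ1 (u', true)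
      rw [Finsupp.add_apply, Finsupp.single_eq_of_ne (by simp)] at h4
      omega
    obtain ⟨ρ, hρ⟩ := jc_split ρ1 h3
    have hμρ : μ = ρ + Finsupp.single (u', true) 1 + Finsupp.single (u, false) 1 := by
      rw [hρ1, hρ]
    set μ' : V × Bool →₀ ℕ := ρ + Finsupp.single (u', false) 1 + Finsupp.single (u, true) 1
      with hμ'
    have hmd' : md μ' = v := by
      rw [← hμ, hμρ, hμ', md_add, md_add, md_add, md_add, md_single, md_single, md_single,
        md_single]
    have hna' : na μ' = na ν := by
      rw [← hna, hμρ, hμ', na_add, na_add, na_add, na_add, jc_na_single, jc_na_single,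
        jc_na_single, jc_na_single]
      simp
    have hdiff : (monomial μ (1 : K) - monomial μ' 1 : T V K) ∈ jI K R C := by
      have e : (monomial μ (1 : K) - monomial μ' 1 : T V K) = br K u u' * monomial ρ 1 := by
        rw [hμρ, hμ', jc_mono_add, jc_mono_add, jc_mono_add, jc_mono_add]
        unfold br va vb
        ring
      rw [e]
      refine jc_exch hRC hv hi hj ?_
      rw [← hμ, hμρ, md_add, md_add, md_single, md_single]
      abel
    have hlt : (μ' - ν) + Finsupp.single (u, false) 1 ≤ μ - ν := by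
      rw [Finsupp.le_def]
      rintro ⟨w, b⟩
      rw [Finsupp.add_apply, Finsupp.tsub_apply, Finsupp.tsub_apply, hμ', hμρ, Finsupp.add_apply,
        Finsupp.add_apply, Finsupp.add_apply, Finsupp.add_apply]
      have e1 : μ (w, b) = ρ (w, b) + (Finsupp.single (u', true) 1 : V × Bool →₀ ℕ) (w, b) +
          (Finsupp.single (u, false) 1 : V × Bool →₀ ℕ) (w, b) := by
        rw [hμρ, Finsupp.add_apply, Finsupp.add_apply]
      by_cases hwu : w = u
      · subst hwu
        cases b
        · have a1 : (Finsupp.single (u', true) 1 : V × Bool →₀ ℕ) (w, false) = 0 :=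
            Finsupp.single_eq_of_ne (by simp)
          have a2 : (Finsupp.single (w, false) 1 : V × Bool →₀ ℕ) (w, false) = 1 :=
            Finsupp.single_eq_same
          have a3 : (Finsupp.single (u', false) 1 : V × Bool →₀ ℕ) (w, false) = 0 :=
            Finsupp.single_eq_of_ne (by simp [huu'])
          have a4 : (Finsupp.single (w, true) 1 : V × Bool →₀ ℕ) (w, false) = 0 :=
            Finsupp.single_eq_of_ne (by simp)
          rw [a1, a2] at e1
          rw [a1, a2, a3, a4]
          omega
        · have a1 : (Finsupp.single (u', true) 1 : V × Bool →₀ ℕ) (w, true) = 0 :=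
            Finsupp.single_eq_of_ne (by simp [huu'])
          have a2 : (Finsupp.single (w, false) 1 : V × Bool →₀ ℕ) (w, true) = 0 :=
            Finsupp.single_eq_of_ne (by simp)
          have a3 : (Finsupp.single (u', false) 1 : V × Bool →₀ ℕ) (w, true) = 0 :=
            Finsupp.single_eq_of_ne (by simp)
          have a4 : (Finsupp.single (w, true) 1 : V × Bool →₀ ℕ) (w, true) = 1 :=
            Finsupp.single_eq_same
          rw [a1, a2] at e1
          rw [a1, a2, a3, a4]
          omega
      · by_cases hwu' : w = u'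
        · subst hwu'
          cases b
          · have a1 : (Finsupp.single (w, true) 1 : V × Bool →₀ ℕ) (w, false) = 0 :=
              Finsupp.single_eq_of_ne (by simp)
            have a2 : (Finsupp.single (u, false) 1 : V × Bool →₀ ℕ) (w, false) = 0 :=
              Finsupp.single_eq_of_ne (by simp [hwu])
            have a3 : (Finsupp.single (w, false) 1 : V × Bool →₀ ℕ) (w, false) = 1 :=
              Finsupp.single_eq_same
            have a4 : (Finsupp.single (u, true) 1 : V × Bool →₀ ℕ) (w, false) = 0 :=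
              Finsupp.single_eq_of_ne (by simp)
            rw [a1, a2] at e1
            rw [a1, a2, a3, a4]
            omega
          · have a1 : (Finsupp.single (w, true) 1 : V × Bool →₀ ℕ) (w, true) = 1 :=
              Finsupp.single_eq_same
            have a2 : (Finsupp.single (u, false) 1 : V × Bool →₀ ℕ) (w, true) = 0 :=
              Finsupp.single_eq_of_ne (by simp)
            have a3 : (Finsupp.single (w, false) 1 : V × Bool →₀ ℕ) (w, true) = 0 :=
              Finsupp.single_eq_of_ne (by simp)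
            have a4 : (Finsupp.single (u, true) 1 : V × Bool →₀ ℕ) (w, true) = 0 :=
              Finsupp.single_eq_of_ne (by simp [hwu])
            rw [a1, a2] at e1
            rw [a1, a2, a3, a4]
            omega
        · have a : ∀ z : V, w ≠ z → ∀ c : Bool,
              (Finsupp.single (z, c) 1 : V × Bool →₀ ℕ) (w, b) = 0 := fun z hz c =>
            Finsupp.single_eq_of_ne (by simp [hz])
          rw [a _ hwu', a _ hwu, a _ hwu', a _ hwu]
          omega
    have hdeg := Finsupp.degree_mono hlt
    rw [map_add, Finsupp.degree_single] at hdeg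
    have h5 := ih μ' ν hmd' hν hna' (by omega)
    have h6 := (jI K R C).add_mem hdiff h5
    rwa [sub_add_sub_cancel] at h6

/-- the section of `mu` in multidegree `v` -/
private noncomputable def jc_sec (K : Type*) [Field K] (v : V →₀ ℕ) : T Unit K →ₗ[K] T V K :=
  (basisMonomials (Unit × Bool) K).constr K fun κ => monomial (msel v (κ ((), false))) (1 : K)

private theorem jc_sec_mu (v : V →₀ ℕ) (μ : V × Bool →₀ ℕ) (c : K) :
    jc_sec K v (mu (monomial μ c)) = monomial (msel v (na μ)) c := by
  have h1 : ∀ κ : Unit × Bool →₀ ℕ, jc_sec K v (monomial κ (1 : K)) =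
      monomial (msel v (κ ((), false))) (1 : K) := by
    intro κ
    have h2 : (monomial κ (1 : K) : T Unit K) = basisMonomials (Unit × Bool) K κ := by
      rw [coe_basisMonomials]
    rw [h2]
    unfold jc_sec
    rw [Module.Basis.constr_basis]
  have h3 : ∀ κ : Unit × Bool →₀ ℕ, (monomial κ c : T Unit K) = c • monomial κ (1 : K) := by
    intro κ
    rw [smul_monomial, smul_eq_mul, mul_one]
  rw [mu_monomial, h3, map_smul, h1, smul_monomial, smul_eq_mul, mul_one]
  congr 2
  rw [Finsupp.add_apply, Finsupp.single_eq_same, Finsupp.single_eq_of_ne (by simp), add_zero]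

private theorem jc_sub_sec (v : V →₀ ℕ) (f : T V K) :
    f - jc_sec K v (mu f) = ∑ μ ∈ f.support,
      coeff μ f • (monomial μ (1 : K) - monomial (msel v (na μ)) 1) := by
  conv_lhs => rw [f.as_sum]
  rw [map_sum, map_sum, ← Finset.sum_sub_distrib]
  refine Finset.sum_congr rfl fun μ _ => ?_
  rw [jc_sec_mu, smul_sub, smul_monomial, smul_monomial, smul_eq_mul, mul_one]

theorem mem_jI_iff {R C : Finset V} (hRC : Disjoint R C) {v : V →₀ ℕ}
    (hv : ∀ x, v x ≠ 0 → x ∈ R ∨ x ∈ C) (hi : ∃ i ∈ R, v i ≠ 0) (hj : ∃ j ∈ C, v j ≠ 0)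
    {f : T V K} (hf : ∀ μ, coeff μ f ≠ 0 → md μ = v) : f ∈ jI K R C ↔ mu f = 0 := by
  classical
  constructor
  · intro h
    have h1 : jI K R C ≤ RingHom.ker (mu : T V K →ₐ[K] T Unit K) := by
      unfold jI
      rw [Ideal.span_le]
      rintro _ ⟨i, _, j, _, rfl⟩
      rw [SetLike.mem_coe, RingHom.mem_ker]
      unfold br va vb
      rw [map_sub, map_mul, map_mul, jc_mu_X, jc_mu_X, jc_mu_X, jc_mu_X]
      ring
    exact h1 h
  · intro h
    have h1 := jc_sub_sec v f
    rw [h, map_zero, sub_zero] at h1
    rw [h1]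
    refine (jI K R C).sum_mem fun μ hμ => ?_
    rw [mem_support_iff] at hμ
    have h2 := hf μ hμ
    have h3 : na μ ≤ v.degree := by
      rw [← h2, ← na_add_nb]
      exact Nat.le_add_right _ _
    obtain ⟨h4, h5, -⟩ := msel_spec v h3
    have h6 := jc_cong (K := K) hRC hv hi hj _ μ (msel v (na μ)) h2 h4 h5.symm le_rfl
    rw [← C_mul']
    exact (jI K R C).mul_mem_left _ h6

theorem mem_bot_iff (i : V) {f : T V K} (hf : ∀ μ, coeff μ f ≠ 0 → md μ = Finsupp.single i 1) :
    f ∈ (⊥ : Ideal (T V K)) ↔ mu f = 0 := by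
  classical
  rw [Ideal.mem_bot]
  constructor
  · intro h
    rw [h, map_zero]
  · intro h
    have h1 := jc_sub_sec (Finsupp.single i 1) f
    rw [h, map_zero, sub_zero] at h1
    rw [h1]
    refine Finset.sum_eq_zero fun μ hμ => ?_
    rw [mem_support_iff] at hμ
    have h2 := hf μ hμ
    have h3 : na μ ≤ (Finsupp.single i 1 : V →₀ ℕ).degree := by
      rw [← h2, ← na_add_nb]
      exact Nat.le_add_right _ _
    obtain ⟨h4, h5, -⟩ := msel_spec (Finsupp.single i 1) h3
    have h6 : μ = msel (Finsupp.single i 1) (na μ) := by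
      by_contra hne
      obtain ⟨u, hu⟩ := jc_gt (h2.trans h4.symm) h5.symm hne
      obtain ⟨u', hu'⟩ := jc_gt (h4.trans h2.symm) h5 (Ne.symm hne)
      have hmu : ∀ w, μ (w, false) + μ (w, true) = (Finsupp.single i 1 : V →₀ ℕ) w := fun w => by
        rw [← md_apply, h2]
      have hms : ∀ w, msel (Finsupp.single i 1) (na μ) (w, false) +
          msel (Finsupp.single i 1) (na μ) (w, true) = (Finsupp.single i 1 : V →₀ ℕ) w :=
        fun w => by rw [← md_apply, h4]
      have a1 := hmu u
      have a2 := hms u'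
      have hui : u = i := by
        by_contra hcon
        rw [Finsupp.single_eq_of_ne hcon] at a1
        omega
      have hui' : u' = i := by
        by_contra hcon
        rw [Finsupp.single_eq_of_ne hcon] at a2
        omega
      rw [hui] at hu
      rw [hui'] at hu'
      omega
    rw [← h6, sub_self, smul_zero]

theorem kerI_le {J : Ideal (T V K)} {v : V →₀ ℕ}
    (h : ∀ f : T V K, (∀ μ, coeff μ f ≠ 0 → md μ = v) → (f ∈ J ↔ mu f = 0)) : kerI K v ≤ J := by
  unfold kerI
  rw [Ideal.span_le]
  rintro f ⟨h1, h2⟩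
  exact (h f h1).2 h2

end HKDet
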