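import Pool.Agent.Lib.HKDet.JB
import Pool.Agent.Lib.HKDet.JC
import Pool.Agent.Lib.FSig.OpsPow

/-!
# JD1: the map `theta`, first part (values, commutation with `E k`, `F k`)

`b = v.degree`. Everything is linear, so it is checked on monomials.
PROOFS.
* `E_expand`: `f ↦ coefficient of t^k`: linear in `f`; on a monomial `expand p (monomial μ c) = c • (monomial μ 1)^p` and `E_pow` (`OpsPow`): `E k ((X^μ)^p) = (E (k/p) X^μ)^p` if `p ∣ k`, else `0`; and `(E j X^μ)^p = expand p (E j X^μ)`, because the coefficients of `E j X^μ` are natural numbers, which are fixed by `x ↦ x^p` in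
  characteristic `p`. Cleaner: the algebra maps `T → T[t]`, `f ↦ Et (expand p f)` and `f ↦ (Et f` with `expand p` applied to the coefficients and `t ↦ t^p)` agree on the generators (`(b + t a)^p = b^p + t^p a^p`, `add_pow_char`), take the coefficient of `t^k` (`Polynomial.coeff_expand`).
* `theta_mul_expand`: `y = monomial μ 1` with `md μ o = 0`, `z = monomial ν 1` with `md ν = single o b`: `y * expand p z = monomial (μ + p • ν) 1`, the condition in `theta p v o` holds, erasing the two entries at `o` gives `μ`, and `μ.. (o,false)/p = ν (o,false)`. `theta 1 v o z = monomial (msel v (ν (o, false))) 1`.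
* `mem_Fs_o`: `nI_pow`, `mem_Fr_mI`, `mem_S_md`: `b ≤ ⌊μ (o,false)/p⌋ + ⌊μ (o,true)/p⌋` and `μ (o,false) + μ (o,true) = p b` iff both entries are divisible by `p` (given the sum).
* `mu_theta_one`, `md_theta_one`: on monomials: `msel_spec`, `mu_monomial` (`i = ν (o,false) ≤ b`).
* `theta_E`: by `mem_Fs_o` `f` is a combination of monomials `y * expand p z` as above (`μ = μ' + p ν`). `E k (y * expand p z) = ∑_{i ≤ k/p} E (k - p i) y * expand p (E i z)` (`E_mul`, `E_expand`), all terms are again of the form of `theta_mul_expand` (`E_mem_S` for the multidegrees), so the difference is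
  `∑_i E (k - p i) y * expand p (theta 1 v o (E i z) - E i (theta 1 v o z))` and the polynomial in brackets has multidegree `v` and is killed by `mu` (`mu_theta_one`, `mu_E`), so it is in `kerI K v`. The same for `F`.
-/

namespace HKDet

open MvPolynomial FSig

variable {V : Type*} {K : Type*} [Field K] {p : ℕ} [Fact p.Prime] [CharP K p]

omit [Fact p.Prime] [CharP K p] in
private theorem span_ind {Q : (V × Bool →₀ ℕ) → Prop} {C : T V K → Prop} (h0 : C 0)
    (hadd : ∀ f g, C f → C g → C (f + g)) (hm : ∀ μ c, Q μ → C (monomial μ c)) {f : T V K}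
    (hf : ∀ μ, coeff μ f ≠ 0 → Q μ) : C f := by
  rw [← support_sum_monomial_coeff f]
  exact Finset.sum_induction _ C hadd h0 fun μ hμ => hm μ _ (hf μ (mem_support_iff.1 hμ))

omit [Fact p.Prime] [CharP K p] in
private theorem theta_monomial (q : ℕ) (v : V →₀ ℕ) (o : V) (μ : V × Bool →₀ ℕ) (c : K)
    (h : q ∣ μ (o, false) ∧ q ∣ μ (o, true) ∧ μ (o, false) + μ (o, true) = q * v.degree) :
    theta q v o (monomial μ c) =
      monomial ((μ.erase (o, false)).erase (o, true) + q • msel v (μ (o, false) / q)) c := by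
  have h1 : monomial μ c = c • (basisMonomials (V × Bool) K) μ := by
    rw [coe_basisMonomials, smul_monomial, smul_eq_mul, mul_one]
  rw [h1, map_smul]
  unfold theta
  rw [Module.Basis.constr_basis, if_pos h, smul_monomial, smul_eq_mul, mul_one]

private theorem era_o (μ : V × Bool →₀ ℕ) (o : V) (b : Bool) :
    ((μ.erase (o, false)).erase (o, true)) (o, b) = 0 := by
  cases b with
  | true => rw [Finsupp.erase_same]
  | false => rw [Finsupp.erase_ne (by simp), Finsupp.erase_same]

private theorem era_ne (μ : V × Bool →₀ ℕ) {o : V} {x : V × Bool} (h : x.1 ≠ o) :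
    ((μ.erase (o, false)).erase (o, true)) x = μ x := by
  rw [Finsupp.erase_ne, Finsupp.erase_ne]
  · rintro rfl
    exact h rfl
  · rintro rfl
    exact h rfl

private theorem md_single_zero {ν : V × Bool →₀ ℕ} {o : V} {b : ℕ}
    (h : md ν = Finsupp.single o b) {x : V × Bool} (hx : x.1 ≠ o) : ν x = 0 := by
  have h1 := md_apply ν x.1
  rw [h, Finsupp.single_eq_of_ne hx] at h1
  rcases x with ⟨u, c⟩
  cases c
  · change ν (u, false) = 0
    change 0 = ν (u, false) + ν (u, true) at h1
    omega
  · change ν (u, true) = 0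
    change 0 = ν (u, false) + ν (u, true) at h1
    omega

private theorem md_single_sum {ν : V × Bool →₀ ℕ} {o : V} {b : ℕ}
    (h : md ν = Finsupp.single o b) : ν (o, false) + ν (o, true) = b := by
  have h1 := md_apply ν o
  rw [h, Finsupp.single_eq_same] at h1
  exact h1.symm

private theorem era_single {ν : V × Bool →₀ ℕ} {o : V} {b : ℕ}
    (h : md ν = Finsupp.single o b) : (ν.erase (o, false)).erase (o, true) = 0 := by
  ext x
  by_cases hx : x.1 = o
  · obtain ⟨u, c⟩ := x
    change u = o at hx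
    subst hx
    rw [era_o]
    rfl
  · rw [era_ne ν hx, md_single_zero h hx]
    rfl

omit [Fact p.Prime] [CharP K p] in
private theorem theta_one_monomial (v : V →₀ ℕ) (o : V) {ν : V × Bool →₀ ℕ} (c : K)
    (h : md ν = Finsupp.single o v.degree) :
    theta 1 v o (monomial ν c) = monomial (msel v (ν (o, false))) c := by
  rw [theta_monomial 1 v o ν c ⟨one_dvd _, one_dvd _, by rw [md_single_sum h, one_mul]⟩,
    era_single h, zero_add, one_smul, Nat.div_one]

omit [CharP K p] in
theorem theta_mul_expand (v : V →₀ ℕ) (o : V) {y z : T V K} (hy : ∀ μ, coeff μ y ≠ 0 → md μ o = 0)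
    (hz : ∀ μ, coeff μ z ≠ 0 → md μ = Finsupp.single o v.degree) :
    theta p v o (y * expand p z) = y * expand p (theta 1 v o z) := by
  have hp : 0 < p := (Fact.out : p.Prime).pos
  refine span_ind (Q := fun μ => md μ o = 0)
    (C := fun y => theta p v o (y * expand p z) = y * expand p (theta 1 v o z)) ?_ ?_ ?_ hy
  · rw [zero_mul, zero_mul, map_zero]
  · intro f g hf hg
    rw [add_mul, add_mul, map_add, hf, hg]
  intro μ c hμ
  refine span_ind (Q := fun μ => md μ = Finsupp.single o v.degree)
    (C := fun z => theta p v o (monomial μ c * expand p z) =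
      monomial μ c * expand p (theta 1 v o z)) ?_ ?_ ?_ hz
  · rw [map_zero, mul_zero, map_zero, map_zero, map_zero, mul_zero]
  · intro f g hf hg
    rw [map_add, mul_add, map_add, hf, hg, map_add, map_add, mul_add]
  intro ν e hν
  have h1 : μ (o, false) = 0 ∧ μ (o, true) = 0 := by
    rw [md_apply] at hμ
    omega
  have h2 : ∀ b, (μ + p • ν) (o, b) = p * ν (o, b) := by
    intro b
    rw [Finsupp.add_apply, Finsupp.smul_apply, smul_eq_mul]
    cases b
    · rw [h1.1, zero_add]
    · rw [h1.2, zero_add]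
  rw [expand_monomial, monomial_mul, theta_one_monomial v o e hν, expand_monomial, monomial_mul,
    theta_monomial p v o _ _ ⟨?_, ?_, ?_⟩]
  · have h3 : ((μ + p • ν).erase (o, false)).erase (o, true) = μ := by
      ext x
      by_cases hx : x.1 = o
      · obtain ⟨u, b⟩ := x
        change u = o at hx
        subst hx
        rw [era_o]
        cases b
        · exact h1.1.symm
        · exact h1.2.symm
      · rw [era_ne _ hx, Finsupp.add_apply, Finsupp.smul_apply, md_single_zero hν hx, smul_zero,
          add_zero]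
    rw [h2, Nat.mul_div_cancel_left _ hp, h3]
  · rw [h2]
    exact dvd_mul_right _ _
  · rw [h2]
    exact dvd_mul_right _ _
  · rw [h2, h2, ← mul_add, md_single_sum hν]

omit [CharP K p] in
theorem mem_Fs_o {o : V} {b : ℕ} {d : V →₀ ℕ} (hd : d o = 0) {w : ℤ} {f : T V K} :
    f ∈ Fs p (nI K {o} ^ b) (d + Finsupp.single o (p * b)) w ↔
      f ∈ S K (d + Finsupp.single o (p * b)) w ∧
        ∀ μ, coeff μ f ≠ 0 → p ∣ μ (o, false) ∧ p ∣ μ (o, true) := by
  have hp : 0 < p := (Fact.out : p.Prime).pos
  have hU : IsUpperSet {v : V →₀ ℕ | b ≤ v o} := by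
    intro x y hxy hx
    exact le_trans hx (hxy o)
  have h1 : f ∈ Fs p (nI K {o} ^ b) (d + Finsupp.single o (p * b)) w ↔
      f ∈ Fr p (nI K {o} ^ b) ∧ f ∈ S K (d + Finsupp.single o (p * b)) w := Iff.rfl
  rw [h1, nI_pow, mem_Fr_mI hp hU, and_comm]
  refine and_congr_right fun hS => ?_
  refine forall_congr' fun μ => ?_
  refine imp_congr_right fun hμ => ?_
  have h2 := (mem_S_md.1 hS μ hμ).1
  have h3 : μ (o, false) + μ (o, true) = p * b := by
    rw [← md_apply, h2, Finsupp.add_apply, hd, Finsupp.single_eq_same, zero_add]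
  change b ≤ md (divp p μ) o ↔ _
  rw [md_apply, divp_apply, divp_apply]
  have e1 := Nat.div_add_mod (μ (o, false)) p
  have e2 := Nat.div_add_mod (μ (o, true)) p
  rw [Nat.dvd_iff_mod_eq_zero, Nat.dvd_iff_mod_eq_zero]
  generalize μ (o, false) / p = x1 at *
  generalize μ (o, true) / p = x2 at *
  constructor
  · intro h4
    have h5 : p * b ≤ p * (x1 + x2) := Nat.mul_le_mul_left p h4
    rw [mul_add] at h5
    omega
  · rintro ⟨h4, h5⟩
    have h6 : p * b = p * (x1 + x2) := by
      rw [mul_add]
      omega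
    exact (Nat.eq_of_mul_eq_mul_left hp h6).le

theorem mu_theta_one (v : V →₀ ℕ) (o : V) {z : T V K}
    (hz : ∀ μ, coeff μ z ≠ 0 → md μ = Finsupp.single o v.degree) :
    mu (theta 1 v o z) = mu z := by
  refine span_ind (Q := fun μ => md μ = Finsupp.single o v.degree)
    (C := fun z => mu (theta 1 v o z) = mu z) ?_ ?_ ?_ hz
  · rw [map_zero, map_zero]
  · intro f g hf hg
    rw [map_add, map_add, map_add, hf, hg]
  intro ν c hν
  have h1 := md_single_sum hν
  obtain ⟨-, h2, h3⟩ := msel_spec v (i := ν (o, false)) (by omega)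
  have h4 : ν = Finsupp.single (o, false) (ν (o, false)) + Finsupp.single (o, true) (ν (o, true)) := by
    ext x
    by_cases hx : x.1 = o
    · obtain ⟨u, b⟩ := x
      change u = o at hx
      subst hx
      cases b <;> simp
    · rw [md_single_zero hν hx, Finsupp.add_apply,
        Finsupp.single_eq_of_ne (fun h => hx (congrArg Prod.fst h)),
        Finsupp.single_eq_of_ne (fun h => hx (congrArg Prod.fst h)), add_zero]
  have h5 : na ν = ν (o, false) := by
    unfold na
    conv_lhs => rw [h4]
    rw [Finsupp.sum_add_index' (by intro x; simp) (by intro x a b; split_ifs <;> simp),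
      Finsupp.sum_single_index (by simp), Finsupp.sum_single_index (by simp)]
    simp
  have h6 : nb ν = ν (o, true) := by
    unfold nb
    conv_lhs => rw [h4]
    rw [Finsupp.sum_add_index' (by intro x; simp) (by intro x a b; split_ifs <;> simp),
      Finsupp.sum_single_index (by simp), Finsupp.sum_single_index (by simp)]
    simp
  have h7 : v.degree - ν (o, false) = ν (o, true) := by omega
  rw [theta_one_monomial v o c hν, mu_monomial, mu_monomial, h2, h3, h5, h6, h7]

theorem md_theta_one (v : V →₀ ℕ) (o : V) {z : T V K}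
    (hz : ∀ μ, coeff μ z ≠ 0 → md μ = Finsupp.single o v.degree) :
    ∀ μ, coeff μ (theta 1 v o z) ≠ 0 → md μ = v := by
  classical
  refine span_ind (Q := fun μ => md μ = Finsupp.single o v.degree)
    (C := fun z => ∀ μ, coeff μ (theta 1 v o z) ≠ 0 → md μ = v) ?_ ?_ ?_ hz
  · intro μ hμ
    rw [map_zero, coeff_zero] at hμ
    exact absurd rfl hμ
  · intro f g hf hg μ hμ
    rw [map_add, coeff_add] at hμ
    by_cases h : coeff μ (theta 1 v o f) = 0
    · rw [h, zero_add] at hμ
      exact hg μ hμ
    · exact hf μ h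
  intro ν c hν μ hμ
  rw [theta_one_monomial v o c hν, coeff_monomial] at hμ
  have h1 : msel v (ν (o, false)) = μ := by
    by_contra h
    rw [if_neg h] at hμ
    exact hμ rfl
  rw [← h1]
  have h2 := md_single_sum hν
  exact (msel_spec v (i := ν (o, false)) (by omega)).1

omit [Fact p.Prime] [CharP K p] in
private theorem monomial_mem_S (μ : V × Bool →₀ ℕ) (c : K) :
    (monomial μ c : T V K) ∈ S K (md μ) (wtm μ) := by
  classical
  rw [mem_S_md]
  intro ν hν
  rw [coeff_monomial] at hν
  have h1 : μ = ν := by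
    by_contra h
    rw [if_neg h] at hν
    exact hν rfl
  rw [h1]
  exact ⟨rfl, rfl⟩

omit [Fact p.Prime] [CharP K p] in
private theorem md_E {e : V →₀ ℕ} {f : T V K} (hf : ∀ μ, coeff μ f ≠ 0 → md μ = e) (k : ℕ) :
    ∀ μ, coeff μ (E K k f) ≠ 0 → md μ = e := by
  refine span_ind (Q := fun μ => md μ = e)
    (C := fun f => ∀ μ, coeff μ (E K k f) ≠ 0 → md μ = e) ?_ ?_ ?_ hf
  · intro μ hμ
    rw [map_zero, coeff_zero] at hμ
    exact absurd rfl hμ
  · intro f g hf hg μ hμ
    rw [map_add, coeff_add] at hμ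
    by_cases h : coeff μ (E K k f) = 0
    · rw [h, zero_add] at hμ
      exact hg μ hμ
    · exact hf μ h
  intro ν c hν μ hμ
  have h1 := E_mem_S K (monomial_mem_S ν c) k
  rw [← hν]
  exact (mem_S_md.1 h1 μ hμ).1

private theorem theta_E_mono (v : V →₀ ℕ) {o : V} {y z : T V K}
    {md_y : V →₀ ℕ} (hy : ∀ μ, coeff μ y ≠ 0 → md μ = md_y) (hmy : md_y o = 0)
    (hz : ∀ μ, coeff μ z ≠ 0 → md μ = Finsupp.single o v.degree) (k : ℕ) :
    theta p v o (E K k (y * expand p z)) - E K k (theta p v o (y * expand p z)) ∈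
      Fr p (kerI K v) := by
  rw [theta_mul_expand v o (fun μ h => by rw [hy μ h]; exact hmy) hz, E_mul, E_mul, map_sum,
    ← Finset.sum_sub_distrib]
  refine Ideal.sum_mem _ fun ij _ => ?_
  rw [E_expand, E_expand]
  split_ifs with h
  · rw [theta_mul_expand v o (fun μ h => by rw [md_E hy _ μ h]; exact hmy) (md_E hz _),
      ← mul_sub, ← map_sub]
    refine Ideal.mul_mem_left _ _ ?_
    refine Ideal.mem_map_of_mem _ (Ideal.subset_span ⟨?_, ?_⟩)
    · intro μ hμ
      rw [coeff_sub] at hμ
      by_cases h1 : coeff μ (theta 1 v o (E K (ij.2 / p) z)) = 0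
      · rw [h1, zero_sub, neg_ne_zero] at hμ
        exact md_E (md_theta_one v o hz) _ μ hμ
      · exact md_theta_one v o (md_E hz _) μ h1
    · rw [map_sub, mu_theta_one v o (md_E hz _), mu_E, mu_E, mu_theta_one v o hz, sub_self]
  · simp only [mul_zero, map_zero, sub_zero]
    exact Submodule.zero_mem _

theorem theta_E (v : V →₀ ℕ) {o : V} {d : V →₀ ℕ} (hd : d o = 0) {w : ℤ} {f : T V K}
    (hf : f ∈ Fs p (nI K {o} ^ v.degree) (d + Finsupp.single o (p * v.degree)) w) (k : ℕ) :
    theta p v o (E K k f) - E K k (theta p v o f) ∈ Fr p (kerI K v) := by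
  have hp : 0 < p := (Fact.out : p.Prime).pos
  rw [mem_Fs_o hd] at hf
  obtain ⟨h1, h2⟩ := hf
  refine span_ind (Q := fun μ => md μ = d + Finsupp.single o (p * v.degree) ∧
      p ∣ μ (o, false) ∧ p ∣ μ (o, true))
    (C := fun f => theta p v o (E K k f) - E K k (theta p v o f) ∈ Fr p (kerI K v)) ?_ ?_ ?_
    (f := f) (fun μ hμ => ⟨(mem_S_md.1 h1 μ hμ).1, h2 μ hμ⟩)
  · rw [map_zero, map_zero, map_zero, sub_zero]
    exact Submodule.zero_mem _
  · intro f g hf hg
    have h3 : theta p v o (E K k (f + g)) - E K k (theta p v o (f + g)) =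
        (theta p v o (E K k f) - E K k (theta p v o f)) +
          (theta p v o (E K k g) - E K k (theta p v o g)) := by
      rw [map_add, map_add, map_add, map_add]
      ring
    rw [h3]
    exact Ideal.add_mem _ hf hg
  rintro μ c ⟨hμ1, ⟨x1, hx1⟩, ⟨x2, hx2⟩⟩
  obtain ⟨ν, hν⟩ : ∃ ν, ν = Finsupp.single ((o, false) : V × Bool) x1 +
      Finsupp.single ((o, true) : V × Bool) x2 := ⟨_, rfl⟩
  obtain ⟨μ', hμ'⟩ : ∃ μ', μ' = (μ.erase (o, false)).erase (o, true) := ⟨_, rfl⟩
  have h4 : x1 + x2 = v.degree := by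
    have h5 := md_apply μ o
    rw [hμ1, Finsupp.add_apply, hd, Finsupp.single_eq_same, zero_add, hx1, hx2, ← mul_add] at h5
    exact (Nat.eq_of_mul_eq_mul_left hp h5).symm
  have h5' : μ = μ' + p • ν := by
    rw [hμ', hν]
    ext x
    rw [Finsupp.add_apply, Finsupp.smul_apply, Finsupp.add_apply, smul_eq_mul]
    by_cases hx : x.1 = o
    · obtain ⟨u, b⟩ := x
      change u = o at hx
      subst hx
      rw [era_o]
      cases b
      · rw [Finsupp.single_eq_same, Finsupp.single_eq_of_ne (by simp), hx1]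
        ring
      · rw [Finsupp.single_eq_same, Finsupp.single_eq_of_ne (by simp), hx2]
        ring
    · rw [era_ne _ hx, Finsupp.single_eq_of_ne (fun h => hx (congrArg Prod.fst h)),
        Finsupp.single_eq_of_ne (fun h => hx (congrArg Prod.fst h))]
      ring
  have h5 : monomial μ c = (monomial μ' c * expand p (monomial ν 1) : T V K) := by
    rw [expand_monomial, monomial_mul, mul_one, ← h5']
  have h6 : md ν = Finsupp.single o v.degree := by
    rw [hν, md_add, md_single, md_single, ← Finsupp.single_add, h4]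
  have h7 : md μ' o = 0 := by
    rw [md_apply, hμ', era_o, era_o]
  rw [h5]
  refine theta_E_mono v (md_y := md μ') ?_ h7 ?_ k
  · intro μ1 hμ1
    classical
    rw [coeff_monomial] at hμ1
    by_cases h : μ' = μ1
    · rw [h]
    · rw [if_neg h] at hμ1
      exact absurd rfl hμ1
  · intro μ1 hμ1
    classical
    rw [coeff_monomial] at hμ1
    by_cases h : ν = μ1
    · rw [← h, h6]
    · rw [if_neg h] at hμ1
      exact absurd rfl hμ1

omit [Fact p.Prime] [CharP K p] in
private theorem md_F {e : V →₀ ℕ} {f : T V K} (hf : ∀ μ, coeff μ f ≠ 0 → md μ = e) (k : ℕ) :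
    ∀ μ, coeff μ (F K k f) ≠ 0 → md μ = e := by
  refine span_ind (Q := fun μ => md μ = e)
    (C := fun f => ∀ μ, coeff μ (F K k f) ≠ 0 → md μ = e) ?_ ?_ ?_ hf
  · intro μ hμ
    rw [map_zero, coeff_zero] at hμ
    exact absurd rfl hμ
  · intro f g hf hg μ hμ
    rw [map_add, coeff_add] at hμ
    by_cases h : coeff μ (F K k f) = 0
    · rw [h, zero_add] at hμ
      exact hg μ hμ
    · exact hf μ h
  intro ν c hν μ hμ
  have h1 := F_mem_S K (monomial_mem_S ν c) k
  rw [← hν]
  exact (mem_S_md.1 h1 μ hμ).1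

private theorem theta_F_mono (v : V →₀ ℕ) {o : V} {y z : T V K}
    {md_y : V →₀ ℕ} (hy : ∀ μ, coeff μ y ≠ 0 → md μ = md_y) (hmy : md_y o = 0)
    (hz : ∀ μ, coeff μ z ≠ 0 → md μ = Finsupp.single o v.degree) (k : ℕ) :
    theta p v o (F K k (y * expand p z)) - F K k (theta p v o (y * expand p z)) ∈
      Fr p (kerI K v) := by
  rw [theta_mul_expand v o (fun μ h => by rw [hy μ h]; exact hmy) hz, F_mul, F_mul, map_sum,
    ← Finset.sum_sub_distrib]
  refine Ideal.sum_mem _ fun ij _ => ?_
  rw [F_expand, F_expand]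
  split_ifs with h
  · rw [theta_mul_expand v o (fun μ h => by rw [md_F hy _ μ h]; exact hmy) (md_F hz _),
      ← mul_sub, ← map_sub]
    refine Ideal.mul_mem_left _ _ ?_
    refine Ideal.mem_map_of_mem _ (Ideal.subset_span ⟨?_, ?_⟩)
    · intro μ hμ
      rw [coeff_sub] at hμ
      by_cases h1 : coeff μ (theta 1 v o (F K (ij.2 / p) z)) = 0
      · rw [h1, zero_sub, neg_ne_zero] at hμ
        exact md_F (md_theta_one v o hz) _ μ hμ
      · exact md_theta_one v o (md_F hz _) μ h1
    · rw [map_sub, mu_theta_one v o (md_F hz _), mu_F, mu_F, mu_theta_one v o hz, sub_self]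
  · simp only [mul_zero, map_zero, sub_zero]
    exact Submodule.zero_mem _

theorem theta_F (v : V →₀ ℕ) {o : V} {d : V →₀ ℕ} (hd : d o = 0) {w : ℤ} {f : T V K}
    (hf : f ∈ Fs p (nI K {o} ^ v.degree) (d + Finsupp.single o (p * v.degree)) w) (k : ℕ) :
    theta p v o (F K k f) - F K k (theta p v o f) ∈ Fr p (kerI K v) := by
  have hp : 0 < p := (Fact.out : p.Prime).pos
  rw [mem_Fs_o hd] at hf
  obtain ⟨h1, h2⟩ := hf
  refine span_ind (Q := fun μ => md μ = d + Finsupp.single o (p * v.degree) ∧
      p ∣ μ (o, false) ∧ p ∣ μ (o, true))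
    (C := fun f => theta p v o (F K k f) - F K k (theta p v o f) ∈ Fr p (kerI K v)) ?_ ?_ ?_
    (f := f) (fun μ hμ => ⟨(mem_S_md.1 h1 μ hμ).1, h2 μ hμ⟩)
  · rw [map_zero, map_zero, map_zero, sub_zero]
    exact Submodule.zero_mem _
  · intro f g hf hg
    have h3 : theta p v o (F K k (f + g)) - F K k (theta p v o (f + g)) =
        (theta p v o (F K k f) - F K k (theta p v o f)) +
          (theta p v o (F K k g) - F K k (theta p v o g)) := by
      rw [map_add, map_add, map_add, map_add]
      ring
    rw [h3]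
    exact Ideal.add_mem _ hf hg
  rintro μ c ⟨hμ1, ⟨x1, hx1⟩, ⟨x2, hx2⟩⟩
  obtain ⟨ν, hν⟩ : ∃ ν, ν = Finsupp.single ((o, false) : V × Bool) x1 +
      Finsupp.single ((o, true) : V × Bool) x2 := ⟨_, rfl⟩
  obtain ⟨μ', hμ'⟩ : ∃ μ', μ' = (μ.erase (o, false)).erase (o, true) := ⟨_, rfl⟩
  have h4 : x1 + x2 = v.degree := by
    have h5 := md_apply μ o
    rw [hμ1, Finsupp.add_apply, hd, Finsupp.single_eq_same, zero_add, hx1, hx2, ← mul_add] at h5
    exact (Nat.eq_of_mul_eq_mul_left hp h5).symm
  have h5' : μ = μ' + p • ν := by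
    rw [hμ', hν]
    ext x
    rw [Finsupp.add_apply, Finsupp.smul_apply, Finsupp.add_apply, smul_eq_mul]
    by_cases hx : x.1 = o
    · obtain ⟨u, b⟩ := x
      change u = o at hx
      subst hx
      rw [era_o]
      cases b
      · rw [Finsupp.single_eq_same, Finsupp.single_eq_of_ne (by simp), hx1]
        ring
      · rw [Finsupp.single_eq_same, Finsupp.single_eq_of_ne (by simp), hx2]
        ring
    · rw [era_ne _ hx, Finsupp.single_eq_of_ne (fun h => hx (congrArg Prod.fst h)),
        Finsupp.single_eq_of_ne (fun h => hx (congrArg Prod.fst h))]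
      ring
  have h5 : monomial μ c = (monomial μ' c * expand p (monomial ν 1) : T V K) := by
    rw [expand_monomial, monomial_mul, mul_one, ← h5']
  have h6 : md ν = Finsupp.single o v.degree := by
    rw [hν, md_add, md_single, md_single, ← Finsupp.single_add, h4]
  have h7 : md μ' o = 0 := by
    rw [md_apply, hμ', era_o, era_o]
  rw [h5]
  refine theta_F_mono v (md_y := md μ') ?_ h7 ?_ k
  · intro μ1 hμ1
    classical
    rw [coeff_monomial] at hμ1
    by_cases h : μ' = μ1
    · rw [h]
    · rw [if_neg h] at hμ1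
      exact absurd rfl hμ1
  · intro μ1 hμ1
    classical
    rw [coeff_monomial] at hμ1
    by_cases h : ν = μ1
    · rw [← h, h6]
    · rw [if_neg h] at hμ1
      exact absurd rfl hμ1

end HKDet
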