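import Pool.Agent.Lib.HKDet.JD1
import Pool.Agent.Lib.HKDet.Core

/-!
# JD2: the map `theta`, second part (image and kernel)

`b = v.degree`, `J` a good ideal with `J_v = ker mu` (hypothesis `hJ`), `𝒰` an upper set with `v ∈ 𝒰`, `𝒰 \ {v}` an upper set. The pieces: `Q = nI {o}^b` in degree `d + p b e_o` against `J ⊔ mI 𝒰` modulo `J ⊔ mI (𝒰 \ {v})` in degree `d + p v`.
For `f ∈ Fs p (nI {o}^b) (d + p b e_o) w` (`mem_Fs_o`): `f = ∑ c_μ X^μ`, `μ = μ' + p i (o,false) + p (b-i) (o,true)`, `md μ' = d`, and `theta p v o f = ∑ c_μ X^(μ' + p • m_i)`, `m_i = msel v i`.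
PROOFS.
* `theta_mem_S`: `md (μ' + p • m_i) = d + p • v`, `wtm = wtm μ' + p (i - (b - i)) = wtm μ` (`msel_spec`, `wtm_eq`, `na_add`, ..).
* `theta_mem_Q`: `md (divp p (μ' + p • m_i)) ≥ v`, so it is in `𝒰` (`mem_Fr_mI`), and `mI 𝒰 ≤ J ⊔ mI 𝒰` (`Fr_mono`).
* `theta_mem_iff`. For small `β` (all exponents `< p`) `kap p β (theta f) = ∑_{μ : μ' ≥ β, μ' ≡ β} c_μ X^((μ' - β)/p + m_i)` (`coeff_kap`, or `kap_mul_expand`). The terms with `μ' ≠ β` have `md = v + (something ≠ 0) ∈ 𝒰 \ {v}`, so they are in `mI (𝒰 \ {v})`. The terms with `μ' = β` give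
  `g_β = ∑_{i ≤ b} c_(β + o-part i) X^(m_i)`, of multidegree `v`. So (`mem_Fr_iff`) `theta f ∈ Fr (J ⊔ mI (𝒰 \ {v}))` iff for all small `β`: `g_β ∈ J ⊔ mI (𝒰 \ {v})`, iff `g_β ∈ J` (write `g_β = j + m`; take the components of multidegree `v`: `m` has none, `J` is `Good`), iff `mu g_β = 0` (`hJ`), iff all `c_(β + o-part i) = 0`
  (`mu X^(m_i) = a^i b^(b-i)`, different monomials). That is: no monomial `μ` of `f` has all its exponents outside `o` `< p`, iff every monomial `μ` of `f` has an entry `μ x ≥ p`, `x.1 ≠ o`; then `x.1 ∈ U` (`hU`, `mem_S_md`), and the entries at `o` have `b ≤ ..` by `mem_Fs_o`: this is `f ∈ Fr (nI U * nI {o}^b)`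
  (`nI_mul_nI` for the disjoint sets `U`, `{o}` is for exponent one; use `nI_eq_mI`, `nI_pow` and: `mI {v' | ∃ u ∈ U, v' u ≠ 0} * mI {v' | b ≤ v' o} = mI {both}` as `o ∉ U`, same proof as `nI_mul_nI`; then `mem_Fr_mI`).
* `theta_surj`. `g ∈ Fs (J ⊔ mI 𝒰) (d + p • v) w`: `Fr_sup`, so `g = g1 + g2`, `g1 ∈ Fr J`, `g2 ∈ Fr (mI 𝒰)`, and taking components (`component_mem_Fr` in `Core`) both in `S K (d + p • v) w`. `g1 ∈ Fr (J ⊔ ..)`: nothing to do. `g2 = ∑ c_μ X^μ` with `md (divp p μ) ∈ 𝒰`. If `md (divp p μ) ≠ v` then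
  `X^μ ∈ Fr (mI (𝒰 \ {v}))`. If `md (divp p μ) = v`, `ν = divp p μ`, `β = μ - p • ν`, `md β = d`, `i = na ν ≤ b`: `X^ν - X^(m_i)` has multidegree `v` and is killed by `mu`, so it is in `J` (`hJ`) and `X^μ - X^β * expand p (X^(m_i)) ∈ Fr J`; and `X^β * expand p (X^(m_i)) = theta (X^(β + p i (o,false) + p (b-i) (o,true)))`
  (`theta_mul_expand`), where this monomial is in `Fs p (nI {o}^b) (d + p b e_o) w`.
-/

namespace HKDet

open MvPolynomial FSig

variable {V : Type*} {K : Type*} [Field K] {p : ℕ} [Fact p.Prime] [CharP K p]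

private noncomputable def JD2_er (o : V) (μ : V × Bool →₀ ℕ) : V × Bool →₀ ℕ :=
  (μ.erase (o, false)).erase (o, true)

private lemma JD2_er_ne {o : V} (μ : V × Bool →₀ ℕ) {x : V × Bool} (hx : x.1 ≠ o) :
    JD2_er o μ x = μ x := by
  unfold JD2_er
  rw [Finsupp.erase_ne, Finsupp.erase_ne]
  · rintro rfl
    exact hx rfl
  · rintro rfl
    exact hx rfl

private lemma JD2_er_o (o : V) (μ : V × Bool →₀ ℕ) (c : Bool) : JD2_er o μ (o, c) = 0 := by
  unfold JD2_er
  cases c with
  | true => rw [Finsupp.erase_same]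
  | false =>
    rw [Finsupp.erase_ne (by simp), Finsupp.erase_same]

private lemma JD2_split (o : V) (μ : V × Bool →₀ ℕ) :
    μ = JD2_er o μ + Finsupp.single (o, false) (μ (o, false)) +
      Finsupp.single (o, true) (μ (o, true)) := by
  classical
  ext x
  obtain ⟨y, c⟩ := x
  rw [Finsupp.add_apply, Finsupp.add_apply]
  by_cases hy : y = o
  · subst hy
    rw [JD2_er_o]
    cases c with
    | true =>
      rw [Finsupp.single_eq_of_ne (by simp), Finsupp.single_eq_same]
      omega
    | false =>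
      rw [Finsupp.single_eq_same, Finsupp.single_eq_of_ne (by simp)]
      omega
  · rw [JD2_er_ne μ (show ((y, c) : V × Bool).1 ≠ o from hy), Finsupp.single_eq_of_ne,
      Finsupp.single_eq_of_ne]
    · omega
    · intro h
      exact hy (congrArg Prod.fst h)
    · intro h
      exact hy (congrArg Prod.fst h)

private lemma JD2_theta_monomial (v : V →₀ ℕ) (o : V) (μ : V × Bool →₀ ℕ) (c : K) :
    theta p v o (monomial μ c) =
      open scoped Classical in
      if p ∣ μ (o, false) ∧ p ∣ μ (o, true) ∧ μ (o, false) + μ (o, true) = p * v.degree then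
      monomial (JD2_er o μ + p • msel v (μ (o, false) / p)) c else 0 := by
  classical
  have h1 : monomial μ c = c • basisMonomials (V × Bool) K μ := by
    rw [coe_basisMonomials, smul_monomial, smul_eq_mul, mul_one]
  unfold theta
  rw [h1, map_smul, Module.Basis.constr_basis]
  split_ifs
  · rw [smul_monomial, smul_eq_mul, mul_one]
    rfl
  · rw [smul_zero]

/-- the data of a monomial of `Fs` -/
private lemma JD2_data {v : V →₀ ℕ} {o : V} {d : V →₀ ℕ} (hd : d o = 0) {w : ℤ}
    {μ : V × Bool →₀ ℕ} (h1 : md μ = d + Finsupp.single o (p * v.degree)) (h2 : wtm μ = w)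
    (h3 : p ∣ μ (o, false)) (h4 : p ∣ μ (o, true)) :
    μ (o, false) + μ (o, true) = p * v.degree ∧ md (JD2_er o μ) = d ∧
      ∃ i ≤ v.degree, μ (o, false) = p * i ∧ μ (o, false) / p = i ∧
        μ (o, true) = p * (v.degree - i) ∧
        md (JD2_er o μ + p • msel v i) = d + p • v ∧ wtm (JD2_er o μ + p • msel v i) = w := by
  classical
  have hp : 0 < p := (Fact.out : p.Prime).pos
  have hsum : μ (o, false) + μ (o, true) = p * v.degree := by
    rw [← md_apply, h1, Finsupp.add_apply, hd, Finsupp.single_eq_same, zero_add]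
  have hmd : md (JD2_er o μ) = d := by
    have h5 := congrArg md (JD2_split o μ)
    rw [md_add, md_add, md_single, md_single, h1, add_assoc, ← Finsupp.single_add, hsum] at h5
    exact (add_right_cancel h5).symm
  obtain ⟨i, hi⟩ := h3
  obtain ⟨j, hj⟩ := h4
  have hij : i + j = v.degree := by
    rw [hi, hj, ← mul_add] at hsum
    exact Nat.eq_of_mul_eq_mul_left hp hsum
  have hiv : i ≤ v.degree := by omega
  have hjv : j = v.degree - i := by omega
  refine ⟨hsum, hmd, i, hiv, hi, by rw [hi, Nat.mul_div_cancel_left i hp], by rw [hj, hjv], ?_, ?_⟩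
  · rw [md_add, md_smul, hmd, (msel_spec v hiv).1]
  · have h6 := h2
    rw [wtm_eq] at h6 ⊢
    have h7 : na μ = na (JD2_er o μ) + p * i := by
      have h8 := congrArg na (JD2_split o μ)
      rw [na_add, na_add] at h8
      rw [h8, hi]
      have g1 : na (Finsupp.single ((o, false) : V × Bool) (p * i)) = p * i := by
        unfold na
        rw [Finsupp.sum_single_index] <;> simp
      have g2 : na (Finsupp.single ((o, true) : V × Bool) (μ (o, true))) = 0 := by
        unfold na
        rw [Finsupp.sum_single_index] <;> simp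
      rw [g1, g2, add_zero]
    have h9 : nb μ = nb (JD2_er o μ) + p * j := by
      have h8 := congrArg nb (JD2_split o μ)
      rw [nb_add, nb_add] at h8
      rw [h8, hj]
      have g1 : nb (Finsupp.single ((o, false) : V × Bool) (μ (o, false))) = 0 := by
        unfold nb
        rw [Finsupp.sum_single_index] <;> simp
      have g2 : nb (Finsupp.single ((o, true) : V × Bool) (p * j)) = p * j := by
        unfold nb
        rw [Finsupp.sum_single_index] <;> simp
      rw [g1, g2, add_zero]
    rw [na_add, nb_add, na_smul, nb_smul, (msel_spec v hiv).2.1, (msel_spec v hiv).2.2, ← hjv]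
    rw [h7, h9] at h6
    exact h6

private lemma JD2_sum (f : T V K) (v : V →₀ ℕ) (o : V) :
    theta p v o f = ∑ μ ∈ f.support, theta p v o (monomial μ (coeff μ f)) := by
  conv_lhs => rw [as_sum f]
  rw [map_sum]

private lemma JD2_mem {o : V} {v d : V →₀ ℕ} (hd : d o = 0) {w : ℤ} {f : T V K}
    (hf : f ∈ Fs p (nI K {o} ^ v.degree) (d + Finsupp.single o (p * v.degree)) w) :
    ∀ μ, coeff μ f ≠ 0 → md μ = d + Finsupp.single o (p * v.degree) ∧ wtm μ = w ∧
      p ∣ μ (o, false) ∧ p ∣ μ (o, true) := by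
  rw [mem_Fs_o hd] at hf
  intro μ hμ
  obtain ⟨h1, h2⟩ := mem_S_md.1 hf.1 μ hμ
  exact ⟨h1, h2, hf.2 μ hμ⟩

private lemma JD2_theta_term {o : V} {v d : V →₀ ℕ} (hd : d o = 0) {w : ℤ}
    {μ : V × Bool →₀ ℕ} (c : K) (h : md μ = d + Finsupp.single o (p * v.degree) ∧ wtm μ = w ∧
      p ∣ μ (o, false) ∧ p ∣ μ (o, true)) :
    theta p v o (monomial μ c) = monomial (JD2_er o μ + p • msel v (μ (o, false) / p)) c := by
  obtain ⟨h1, h2, h3, h4⟩ := h
  rw [JD2_theta_monomial, if_pos ⟨h3, h4, (JD2_data hd h1 h2 h3 h4).1⟩]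

theorem theta_mem_S (v : V →₀ ℕ) {o : V} {d : V →₀ ℕ} (hd : d o = 0) {w : ℤ} {f : T V K}
    (hf : f ∈ Fs p (nI K {o} ^ v.degree) (d + Finsupp.single o (p * v.degree)) w) :
    theta p v o f ∈ S K (d + p • v) w := by
  rw [JD2_sum]
  refine Submodule.sum_mem _ fun μ hμ => ?_
  have h := JD2_mem hd hf μ (mem_support_iff.1 hμ)
  rw [JD2_theta_term hd _ h]
  obtain ⟨_, _, i, _, _, hi, _, h5, h6⟩ := JD2_data (v := v) hd h.1 h.2.1 h.2.2.1 h.2.2.2
  rw [hi]
  refine monomial_mem_S K _ (fun x => ?_) h6
  rw [← md_apply, h5]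

private lemma JD2_divp_add (α ν : V × Bool →₀ ℕ) :
    divp p (α + p • ν) = divp p α + ν := by
  have hp : 0 < p := (Fact.out : p.Prime).pos
  ext x
  rw [Finsupp.add_apply, divp_apply, divp_apply, Finsupp.add_apply, Finsupp.smul_apply,
    smul_eq_mul, Nat.add_mul_div_left _ _ hp]

private lemma JD2_Fr_le {I J : Ideal (T V K)} (h : I ≤ J) : Fr p I ≤ Fr p J := Ideal.map_mono h

private lemma JD2_mono_mem {𝒰 : Set (V →₀ ℕ)} (h : IsUpperSet 𝒰) {μ : V × Bool →₀ ℕ}
    (hμ : md (divp p μ) ∈ 𝒰) (c : K) : monomial μ c ∈ Fr p (mI K 𝒰) := by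
  classical
  have hp : 0 < p := (Fact.out : p.Prime).pos
  rw [mem_Fr_mI hp h]
  intro μ' hμ'
  rw [coeff_monomial] at hμ'
  split_ifs at hμ' with h1
  · rw [← h1]
    exact hμ
  · exact absurd rfl hμ'

theorem theta_mem_Q {J : Ideal (T V K)} {𝒰 : Set (V →₀ ℕ)} (h𝒰 : IsUpperSet 𝒰) {v : V →₀ ℕ}
    (hv : v ∈ 𝒰) {o : V} {d : V →₀ ℕ} (hd : d o = 0) {w : ℤ} {f : T V K}
    (hf : f ∈ Fs p (nI K {o} ^ v.degree) (d + Finsupp.single o (p * v.degree)) w) :
    theta p v o f ∈ Fs p (J ⊔ mI K 𝒰) (d + p • v) w := by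
  refine ⟨?_, theta_mem_S v hd hf⟩
  show theta p v o f ∈ Fr p (J ⊔ mI K 𝒰)
  rw [JD2_sum]
  refine Ideal.sum_mem _ fun μ hμ => ?_
  have h := JD2_mem hd hf μ (mem_support_iff.1 hμ)
  rw [JD2_theta_term hd _ h]
  obtain ⟨_, _, i, hi0, _, hi, _, h5, h6⟩ := JD2_data (v := v) hd h.1 h.2.1 h.2.2.1 h.2.2.2
  rw [hi]
  refine JD2_Fr_le (le_sup_right : mI K 𝒰 ≤ J ⊔ mI K 𝒰) (JD2_mono_mem h𝒰 ?_ _)
  rw [JD2_divp_add, md_add, (msel_spec v hi0).1]
  exact h𝒰 (le_add_of_nonneg_left (zero_le)) hv

/-- elements of multidegree `v` of `J ⊔ mI (𝒰 \ {v})` are in `J` -/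
private lemma JD2_mem_J {J : Ideal (T V K)} (hJg : Good J) {𝒰 : Set (V →₀ ℕ)} {v : V →₀ ℕ}
    (h𝒰' : IsUpperSet (𝒰 \ {v})) {G : T V K} (hG : ∀ μ, coeff μ G ≠ 0 → md μ = v)
    (h : G ∈ J ⊔ mI K (𝒰 \ {v})) : G ∈ J := by
  classical
  obtain ⟨j, hj, m, hm, hjm⟩ := Submodule.mem_sup.1 h
  obtain ⟨s, hs⟩ := exists_sum_component K j
  have hj' : ∑ i ∈ s with i.1 = v, weightedHomogeneousComponent (gr (V := V)) i j ∈ J :=
    Ideal.sum_mem _ fun i _ => hJg.hom j hj i
  have hcomp : ∀ i μ, coeff μ (weightedHomogeneousComponent (gr (V := V)) i j) ≠ 0 →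
      md μ = i.1 := by
    intro i μ hμ
    exact (mem_S_md.1 (component_mem K j i.1 i.2) μ hμ).1
  have hGe : G = ∑ i ∈ s with i.1 = v, weightedHomogeneousComponent (gr (V := V)) i j := by
    ext μ
    rw [coeff_sum]
    by_cases hμ : md μ = v
    · have h1 : coeff μ m = 0 := by
        by_contra hne
        have := (mem_mI h𝒰').1 hm μ hne
        exact this.2 hμ
      have h2 : coeff μ G = coeff μ j := by
        rw [← hjm, coeff_add, h1, add_zero]
      have h3 : coeff μ j = ∑ i ∈ s, coeff μ (weightedHomogeneousComponent (gr (V := V)) i j) := by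
        conv_lhs => rw [hs]
        rw [coeff_sum]
      rw [h2, h3, Finset.sum_filter]
      refine Finset.sum_congr rfl fun i _ => ?_
      split_ifs with hi
      · rfl
      · by_contra hne
        exact hi ((hcomp i μ hne).symm.trans hμ)
    · have h1 : coeff μ G = 0 := by
        by_contra hne
        exact hμ (hG μ hne)
      rw [h1]
      symm
      refine Finset.sum_eq_zero fun i hi => ?_
      by_contra hne
      exact hμ ((hcomp i μ hne).trans (Finset.mem_filter.1 hi).2)
  rw [hGe]
  exact hj'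

private lemma JD2_kap_monomial (β μ : V × Bool →₀ ℕ) (c : K) :
    kap p β (monomial μ c) = open scoped Classical in
      if ∀ x, β x ≤ μ x ∧ p ∣ μ x - β x then monomial (divp p (μ - β)) c else 0 := by
  classical
  have h1 : monomial μ c = c • basisMonomials (V × Bool) K μ := by
    rw [coe_basisMonomials, smul_monomial, smul_eq_mul, mul_one]
  unfold kap
  rw [h1, map_smul, Module.Basis.constr_basis]
  split_ifs
  · rw [smul_monomial, smul_eq_mul, mul_one]
  · rw [smul_zero]

private lemma JD2_zero {J : Ideal (T V K)} (hJg : Good J) {𝒰 : Set (V →₀ ℕ)}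
    {v : V →₀ ℕ} (h𝒰' : IsUpperSet (𝒰 \ {v}))
    (hJ : ∀ f : T V K, (∀ μ, coeff μ f ≠ 0 → md μ = v) → (f ∈ J ↔ mu f = 0))
    {o : V} {d : V →₀ ℕ} (hd : d o = 0) {w : ℤ} {g : T V K}
    (hg : ∀ μ, coeff μ g ≠ 0 → md μ = d + Finsupp.single o (p * v.degree) ∧ wtm μ = w ∧
      p ∣ μ (o, false) ∧ p ∣ μ (o, true))
    (hs : ∀ μ, coeff μ g ≠ 0 → ∀ x : V × Bool, x.1 ≠ o → μ x < p)
    (h : theta p v o g ∈ Fr p (J ⊔ mI K (𝒰 \ {v}))) : g = 0 := by
  classical
  have hp : 0 < p := (Fact.out : p.Prime).pos
  by_contra hne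
  obtain ⟨μ0, hμ0⟩ := (ne_zero_iff).1 hne
  have hsm : ∀ μ, coeff μ g ≠ 0 → ∀ x, JD2_er o μ x < p := by
    intro μ hμ x
    by_cases hx : x.1 = o
    · obtain ⟨y, c⟩ := x
      obtain rfl : y = o := hx
      rw [JD2_er_o]
      exact hp
    · rw [JD2_er_ne μ hx]
      exact hs μ hμ x hx
  set β := JD2_er o μ0 with hβ
  have hβs : ∀ x, β x < p := hsm μ0 hμ0
  have hk := (mem_Fr_iff hp).1 h β hβs
  have hsum : kap p β (theta p v o g) = ∑ μ ∈ g.support with JD2_er o μ = β,
      monomial (msel v (μ (o, false) / p)) (coeff μ g) := by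
    rw [JD2_sum, map_sum, Finset.sum_filter]
    refine Finset.sum_congr rfl fun μ hμ => ?_
    have hμ' := mem_support_iff.1 hμ
    rw [JD2_theta_term hd _ (hg μ hμ'), JD2_kap_monomial]
    split_ifs with h1 h2 h2
    · have hdv : ∀ m : V × Bool →₀ ℕ, divp p (p • m) = m := by
        intro m
        ext x
        rw [divp_apply, Finsupp.smul_apply, smul_eq_mul, Nat.mul_div_cancel_left _ hp]
      rw [h2, add_tsub_cancel_left, hdv]
    · exfalso
      apply h2
      ext x
      obtain ⟨h3, h4⟩ := h1 x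
      rw [Finsupp.add_apply, Finsupp.smul_apply, smul_eq_mul] at h3 h4
      have h5 : (JD2_er o μ x + p * (msel v (μ (o, false) / p)) x) % p = JD2_er o μ x := by
        rw [Nat.add_mul_mod_self_left, Nat.mod_eq_of_lt (hsm μ hμ' x)]
      have h6 : (JD2_er o μ x + p * (msel v (μ (o, false) / p)) x) % p = β x := by
        obtain ⟨k, hk⟩ := h4
        have h7 : JD2_er o μ x + p * (msel v (μ (o, false) / p)) x = β x + p * k := by omega
        rw [h7, Nat.add_mul_mod_self_left, Nat.mod_eq_of_lt (hβs x)]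
      rw [← h5, h6]
    · exfalso
      apply h1
      intro x
      rw [Finsupp.add_apply, Finsupp.smul_apply, smul_eq_mul, h2]
      refine ⟨Nat.le_add_right _ _, ?_⟩
      rw [Nat.add_sub_cancel_left]
      exact Dvd.intro _ rfl
    · rfl
  have hmdG : ∀ μ, coeff μ (kap p β (theta p v o g)) ≠ 0 → md μ = v := by
    intro ν hν
    rw [hsum, coeff_sum] at hν
    obtain ⟨μ, hμ, hne⟩ := Finset.exists_ne_zero_of_sum_ne_zero hν
    rw [coeff_monomial] at hne
    split_ifs at hne with h1
    · rw [← h1]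
      have hμ' := mem_support_iff.1 (Finset.mem_filter.1 hμ).1
      obtain ⟨g1, g2, g3, g4⟩ := hg μ hμ'
      obtain ⟨_, _, i, hi0, _, hi, _⟩ := JD2_data (v := v) hd g1 g2 g3 g4
      rw [hi]
      exact (msel_spec v hi0).1
    · exact absurd rfl hne
  have hGJ := JD2_mem_J hJg h𝒰' hmdG hk
  have hmu := (hJ _ hmdG).1 hGJ
  rw [hsum, map_sum] at hmu
  obtain ⟨g1, g2, g3, g4⟩ := hg μ0 hμ0
  obtain ⟨_, _, i, hi0, hi1, hi, hi2, _⟩ := JD2_data (v := v) hd g1 g2 g3 g4
  have hcoef := congrArg (coeff (Finsupp.single ((), false) i +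
      Finsupp.single ((), true) (v.degree - i))) hmu
  rw [coeff_sum, coeff_zero, Finset.sum_eq_single μ0] at hcoef
  · rw [mu_monomial, hi, (msel_spec v hi0).2.1, (msel_spec v hi0).2.2, coeff_monomial,
      if_pos rfl] at hcoef
    exact hμ0 hcoef
  · intro μ hμ hne'
    obtain ⟨hμs, hμe⟩ := Finset.mem_filter.1 hμ
    obtain ⟨k1, k2, k3, k4⟩ := hg μ (mem_support_iff.1 hμs)
    obtain ⟨_, _, i', hi0', hi1', hi', hi2', _⟩ := JD2_data (v := v) hd k1 k2 k3 k4
    rw [mu_monomial, hi', (msel_spec v hi0').2.1, (msel_spec v hi0').2.2, coeff_monomial, if_neg]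
    intro h7
    apply hne'
    have h8 : i' = i := by
      have := DFunLike.congr_fun h7 ((), false)
      rw [Finsupp.add_apply, Finsupp.add_apply, Finsupp.single_eq_same, Finsupp.single_eq_same,
        Finsupp.single_eq_of_ne (by simp), Finsupp.single_eq_of_ne (by simp)] at this
      exact this
    rw [JD2_split o μ, JD2_split o μ0, hμe, hi1, hi1', hi2, hi2', h8]
  · intro h7
    exact absurd (Finset.mem_filter.2 ⟨mem_support_iff.2 hμ0, (rfl : JD2_er o μ0 = β)⟩) h7

private lemma JD2_upper (U : Finset V) : IsUpperSet {v : V →₀ ℕ | ∃ u ∈ U, v u ≠ 0} := by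
  rintro a b hab ⟨u, hu, hne⟩
  refine ⟨u, hu, fun h => hne ?_⟩
  have := hab u
  omega

theorem theta_mem_iff {J : Ideal (T V K)} (hJg : Good J) {𝒰 : Set (V →₀ ℕ)} (h𝒰 : IsUpperSet 𝒰)
    {v : V →₀ ℕ} (hv : v ∈ 𝒰) (h𝒰' : IsUpperSet (𝒰 \ {v}))
    (hJ : ∀ f : T V K, (∀ μ, coeff μ f ≠ 0 → md μ = v) → (f ∈ J ↔ mu f = 0))
    {U : Finset V} {o : V} (ho : o ∉ U) {d : V →₀ ℕ} (hU : ∀ x, x ∉ U → d x = 0) {w : ℤ} {f : T V K}
    (hf : f ∈ Fs p (nI K {o} ^ v.degree) (d + Finsupp.single o (p * v.degree)) w) :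
    theta p v o f ∈ Fr p (J ⊔ mI K (𝒰 \ {v})) ↔ f ∈ Fr p (nI K U * nI K {o} ^ v.degree) := by
  classical
  have hp : 0 < p := (Fact.out : p.Prime).pos
  have hd : d o = 0 := hU o ho
  have hmem := JD2_mem hd hf
  -- the condition on monomials
  have hR : f ∈ Fr p (nI K U * nI K {o} ^ v.degree) ↔
      ∀ μ, coeff μ f ≠ 0 → ∃ x : V × Bool, x.1 ≠ o ∧ p ≤ μ x := by
    constructor
    · intro h μ hμ
      have hle : nI K U * nI K {o} ^ v.degree ≤ nI K U := Ideal.mul_le_left
      have h1 : f ∈ Fr p (nI K U) := JD2_Fr_le hle h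
      rw [nI_eq_mI, mem_Fr_mI hp (JD2_upper U)] at h1
      obtain ⟨u, hu, hne⟩ := h1 μ hμ
      have huo : u ≠ o := fun h => ho (h ▸ hu)
      rw [md_apply, divp_apply, divp_apply] at hne
      by_cases h2 : μ (u, false) / p = 0
      · have h3 : μ (u, true) / p ≠ 0 := by omega
        refine ⟨(u, true), huo, ?_⟩
        by_contra h4
        exact h3 (Nat.div_eq_of_lt (by omega))
      · refine ⟨(u, false), huo, ?_⟩
        by_contra h4
        exact h2 (Nat.div_eq_of_lt (by omega))
    · intro h
      rw [as_sum f]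
      refine Ideal.sum_mem _ fun μ hμ => ?_
      have hμ' := mem_support_iff.1 hμ
      obtain ⟨x, hxo, hx⟩ := h μ hμ'
      obtain ⟨g1, g2, g3, g4⟩ := hmem μ hμ'
      obtain ⟨_, _, i, hi0, hi1, hi, hi2, _⟩ := JD2_data (v := v) hd g1 g2 g3 g4
      have hxU : x.1 ∈ U := by
        by_contra hxU
        have h1 := hU x.1 hxU
        have h2 : md μ x.1 = 0 := by
          rw [g1, Finsupp.add_apply, h1, Finsupp.single_eq_of_ne hxo, add_zero]
        rw [md_apply] at h2
        have h3 : μ x = 0 := by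
          obtain ⟨y, c⟩ := x
          cases c with
          | true => exact (by simpa using (Nat.add_eq_zero_iff.1 h2).2)
          | false => exact (by simpa using (Nat.add_eq_zero_iff.1 h2).1)
        omega
      have hle : p • (Finsupp.single x 1 + (Finsupp.single (o, false) i +
          Finsupp.single (o, true) (v.degree - i))) ≤ μ := by
        intro y
        rw [Finsupp.smul_apply, Finsupp.add_apply, Finsupp.add_apply, smul_eq_mul]
        by_cases hy1 : y = x
        · subst hy1
          rw [Finsupp.single_eq_same, Finsupp.single_eq_of_ne, Finsupp.single_eq_of_ne]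
          · simpa using hx
          · intro h
            exact hxo (congrArg Prod.fst h)
          · intro h
            exact hxo (congrArg Prod.fst h)
        · rw [Finsupp.single_eq_of_ne hy1]
          by_cases hy2 : y = (o, false)
          · subst hy2
            rw [Finsupp.single_eq_same, Finsupp.single_eq_of_ne (by simp), hi1]
            simp
          · rw [Finsupp.single_eq_of_ne hy2]
            by_cases hy3 : y = (o, true)
            · subst hy3
              rw [Finsupp.single_eq_same, hi2]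
              simp
            · rw [Finsupp.single_eq_of_ne hy3]
              simp
      obtain ⟨ρ, hρ⟩ := exists_add_of_le hle
      have hmon : monomial μ (coeff μ f) = monomial ρ (coeff μ f) *
          expand p (monomial (Finsupp.single x 1 + (Finsupp.single (o, false) i +
          Finsupp.single (o, true) (v.degree - i))) (1 : K)) := by
        rw [expand_monomial, monomial_mul, mul_one, add_comm ρ, ← hρ]
      rw [hmon]
      refine Ideal.mul_mem_left _ _ (Ideal.mem_map_of_mem _ ?_)
      have hm2 : (monomial (Finsupp.single x 1 + (Finsupp.single (o, false) i +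
          Finsupp.single (o, true) (v.degree - i))) (1 : K) : T V K) =
          X x * monomial (Finsupp.single (o, false) i +
          Finsupp.single (o, true) (v.degree - i)) (1 : K) := by
        rw [X, monomial_mul, mul_one]
      rw [hm2]
      refine Ideal.mul_mem_mul (Ideal.subset_span ⟨x, hxU, rfl⟩) ?_
      rw [nI_pow, mem_mI]
      · intro ν hν
        rw [coeff_monomial] at hν
        split_ifs at hν with h5
        · show v.degree ≤ md ν o
          rw [← h5, md_add, md_single, md_single, Finsupp.add_apply, Finsupp.single_eq_same,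
            Finsupp.single_eq_same]
          omega
        · exact absurd rfl hν
      · intro a b hab ha
        exact le_trans (show v.degree ≤ a o from ha) (hab o)
  rw [hR]
  -- decomposition of f
  set A : (V × Bool →₀ ℕ) → Prop := fun μ => ∃ x : V × Bool, x.1 ≠ o ∧ p ≤ μ x with hA
  set f1 : T V K := ∑ μ ∈ f.support with A μ, monomial μ (coeff μ f) with hf1
  set f2 : T V K := ∑ μ ∈ f.support with ¬ A μ, monomial μ (coeff μ f) with hf2
  have hff : f = f1 + f2 := by
    conv_lhs => rw [as_sum f]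
    exact (Finset.sum_filter_add_sum_filter_not _ _ _).symm
  have hc2 : ∀ μ, coeff μ f2 = if A μ then 0 else coeff μ f := by
    intro μ
    rw [hf2, coeff_sum]
    simp only [coeff_monomial]
    rw [Finset.sum_ite_eq']
    simp only [Finset.mem_filter, mem_support_iff]
    by_cases h1 : A μ
    · simp [h1]
    · by_cases h2 : coeff μ f = 0
      · simp [h2]
      · simp [h1, h2]
  have hθ1 : theta p v o f1 ∈ Fr p (J ⊔ mI K (𝒰 \ {v})) := by
    rw [hf1, map_sum]
    refine Ideal.sum_mem _ fun μ hμ => ?_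
    obtain ⟨hμs, x, hxo, hx⟩ := Finset.mem_filter.1 hμ
    have h := hmem μ (mem_support_iff.1 hμs)
    rw [JD2_theta_term hd _ h]
    obtain ⟨g1, g2, g3, g4⟩ := h
    obtain ⟨_, _, i, hi0, hi1, hi, hi2, _⟩ := JD2_data (v := v) hd g1 g2 g3 g4
    rw [hi]
    refine JD2_Fr_le (le_sup_right : mI K (𝒰 \ {v}) ≤ J ⊔ mI K (𝒰 \ {v})) (JD2_mono_mem h𝒰' ?_ _)
    rw [JD2_divp_add, md_add, (msel_spec v hi0).1]
    refine ⟨h𝒰 (le_add_of_nonneg_left (zero_le)) hv, ?_⟩
    intro h7
    have h8 : md (divp p (JD2_er o μ)) = 0 := by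
      have h7' : md (divp p (JD2_er o μ)) + v = v := h7
      exact add_eq_right.1 h7'
    rw [md_eq_zero] at h8
    have h9 := DFunLike.congr_fun h8 x
    rw [divp_apply, JD2_er_ne μ hxo, Finsupp.zero_apply] at h9
    have : 0 < μ x / p := Nat.div_pos hx hp
    omega
  constructor
  · intro h μ hμ
    have h2 : theta p v o f2 ∈ Fr p (J ⊔ mI K (𝒰 \ {v})) := by
      have : theta p v o f2 = theta p v o f - theta p v o f1 := by
        rw [hff, map_add]
        ring
      rw [this]
      exact Ideal.sub_mem _ h hθ1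
    have h3 : f2 = 0 := by
      refine JD2_zero hJg h𝒰' hJ hd (w := w) ?_ ?_ h2
      · intro ν hν
        rw [hc2] at hν
        split_ifs at hν with h4
        · exact absurd rfl hν
        · exact hmem ν hν
      · intro ν hν x hx
        rw [hc2] at hν
        split_ifs at hν with h4
        · exact absurd rfl hν
        · by_contra h5
          exact h4 ⟨x, hx, by omega⟩
    by_contra h4
    have h5 := hc2 μ
    rw [h3, coeff_zero, if_neg h4] at h5
    exact hμ h5.symm
  · intro h
    have h3 : f2 = 0 := by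
      ext μ
      rw [hc2, coeff_zero]
      split_ifs with h4
      · rfl
      · by_contra h5
        exact h4 (h μ h5)
    rw [hff, h3, add_zero]
    exact hθ1

theorem theta_surj {J : Ideal (T V K)} (hJg : Good J) {𝒰 : Set (V →₀ ℕ)} (h𝒰 : IsUpperSet 𝒰)
    {v : V →₀ ℕ} (hv : v ∈ 𝒰) (h𝒰' : IsUpperSet (𝒰 \ {v}))
    (hJ : ∀ f : T V K, (∀ μ, coeff μ f ≠ 0 → md μ = v) → (f ∈ J ↔ mu f = 0))
    {o : V} {d : V →₀ ℕ} (hd : d o = 0) {w : ℤ} {g : T V K}
    (hg : g ∈ Fs p (J ⊔ mI K 𝒰) (d + p • v) w) :
    ∃ f ∈ Fs p (nI K {o} ^ v.degree) (d + Finsupp.single o (p * v.degree)) w,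
      g - theta p v o f ∈ Fr p (J ⊔ mI K (𝒰 \ {v})) := by
  classical
  have hp : 0 < p := (Fact.out : p.Prime).pos
  obtain ⟨hg1, hg2⟩ := hg
  have hg1' : g ∈ Fr p (J ⊔ mI K 𝒰) := hg1
  have hsup : Fr p (J ⊔ mI K 𝒰) = Fr p J ⊔ Fr p (mI K 𝒰) := Ideal.map_sup _ _ _
  rw [hsup] at hg1'
  obtain ⟨a, ha, b, hb, hab⟩ := Submodule.mem_sup.1 hg1'
  have hgc : weightedHomogeneousComponent (gr (V := V)) (d + p • v, w) g = g :=
    by rw [weightedHomogeneousComponent_of_mem hg2, if_pos rfl]
  set a' := weightedHomogeneousComponent (gr (V := V)) (d + p • v, w) a with ha'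
  set b' := weightedHomogeneousComponent (gr (V := V)) (d + p • v, w) b with hb'
  have hab' : g = a' + b' := by
    rw [← hgc, ← hab, map_add]
  have haF : a' ∈ Fr p J := component_mem_Fr p hJg ha _
  have hbF : b' ∈ Fr p (mI K 𝒰) := component_mem_Fr p (good_mI h𝒰) hb _
  have hbS : b' ∈ S K (d + p • v) w := component_mem K b _ _
  have haT : a' ∈ Fr p (J ⊔ mI K (𝒰 \ {v})) := JD2_Fr_le le_sup_left haF
  -- the monomials of b'
  have key : ∀ s : Finset (V × Bool →₀ ℕ), s ⊆ b'.support →
      ∃ f ∈ Fs p (nI K {o} ^ v.degree) (d + Finsupp.single o (p * v.degree)) w,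
        (∑ μ ∈ s, monomial μ (coeff μ b')) - theta p v o f ∈ Fr p (J ⊔ mI K (𝒰 \ {v})) := by
    intro s
    induction s using Finset.induction_on with
    | empty =>
      intro _
      refine ⟨0, Submodule.zero_mem _, ?_⟩
      rw [Finset.sum_empty, map_zero, sub_zero]
      exact Ideal.zero_mem _
    | insert μ s hμs ih =>
      intro hs
      obtain ⟨f, hf, hft⟩ := ih fun x hx => hs (Finset.mem_insert_of_mem hx)
      have hμ' := mem_support_iff.1 (hs (Finset.mem_insert_self μ s))
      rw [Finset.sum_insert hμs]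
      have hμU := (mem_Fr_mI hp h𝒰).1 hbF μ hμ'
      obtain ⟨hmd, hwt⟩ := mem_S_md.1 hbS μ hμ'
      by_cases hνv : md (divp p μ) = v
      · set ν := divp p μ with hν
        set i := na ν with hi
        set β : V × Bool →₀ ℕ := μ.mapRange (· % p) (Nat.zero_mod p) with hβ
        have hμβ : μ = β + p • ν := by
          ext x
          rw [Finsupp.add_apply, Finsupp.smul_apply, smul_eq_mul, hβ, Finsupp.mapRange_apply, hν,
            divp_apply]
          exact (Nat.mod_add_div _ _).symm
        have hiv : i + nb ν = v.degree := by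
          rw [hi, na_add_nb, hνv]
        have hiv' : i ≤ v.degree := by omega
        have hmdβ : md β = d := by
          have h1 := hmd
          rw [hμβ, md_add, md_smul, hνv] at h1
          exact add_right_cancel h1
        have hβo : ∀ c, β (o, c) = 0 := by
          intro c
          have h1 : md β o = 0 := by rw [hmdβ, hd]
          rw [md_apply] at h1
          cases c with
          | true => omega
          | false => omega
        set κ := β + Finsupp.single (o, false) (p * i) +
          Finsupp.single (o, true) (p * (v.degree - i)) with hκ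
        have hκf : κ (o, false) = p * i := by
          rw [hκ, Finsupp.add_apply, Finsupp.add_apply, hβo, Finsupp.single_eq_same,
            Finsupp.single_eq_of_ne (by simp), zero_add, add_zero]
        have hκt : κ (o, true) = p * (v.degree - i) := by
          rw [hκ, Finsupp.add_apply, Finsupp.add_apply, hβo, Finsupp.single_eq_same,
            Finsupp.single_eq_of_ne (by simp), zero_add, zero_add]
        have hκe : JD2_er o κ = β := by
          ext x
          obtain ⟨y, c⟩ := x
          by_cases hy : y = o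
          · subst hy
            rw [JD2_er_o, hβo]
          · rw [JD2_er_ne κ (show ((y, c) : V × Bool).1 ≠ o from hy), hκ, Finsupp.add_apply,
              Finsupp.add_apply, Finsupp.single_eq_of_ne, Finsupp.single_eq_of_ne]
            · omega
            · intro h
              exact hy (congrArg Prod.fst h)
            · intro h
              exact hy (congrArg Prod.fst h)
        have hmdκ : md κ = d + Finsupp.single o (p * v.degree) := by
          rw [hκ, md_add, md_add, md_single, md_single, hmdβ, add_assoc, ← Finsupp.single_add,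
            ← mul_add, show i + (v.degree - i) = v.degree by omega]
        have hwtκ : wtm κ = w := by
          have g1 : na (Finsupp.single ((o, false) : V × Bool) (p * i)) = p * i := by
            unfold na
            rw [Finsupp.sum_single_index] <;> simp
          have g2 : na (Finsupp.single ((o, true) : V × Bool) (p * (v.degree - i))) = 0 := by
            unfold na
            rw [Finsupp.sum_single_index] <;> simp
          have g3 : nb (Finsupp.single ((o, false) : V × Bool) (p * i)) = 0 := by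
            unfold nb
            rw [Finsupp.sum_single_index] <;> simp
          have g4 : nb (Finsupp.single ((o, true) : V × Bool) (p * (v.degree - i))) =
              p * (v.degree - i) := by
            unfold nb
            rw [Finsupp.sum_single_index] <;> simp
          rw [← hwt, wtm_eq, wtm_eq, hκ, na_add, na_add, nb_add, nb_add, g1, g2, g3, g4, hμβ,
            na_add, nb_add, na_smul, nb_smul, ← hi, show v.degree - i = nb ν by omega, add_zero,
            add_zero]
        have hdat : md κ = d + Finsupp.single o (p * v.degree) ∧ wtm κ = w ∧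
            p ∣ κ (o, false) ∧ p ∣ κ (o, true) :=
          ⟨hmdκ, hwtκ, by rw [hκf]; exact Dvd.intro _ rfl, by rw [hκt]; exact Dvd.intro _ rfl⟩
        refine ⟨monomial κ (coeff μ b') + f, Submodule.add_mem _ ?_ hf, ?_⟩
        · rw [mem_Fs_o hd]
          refine ⟨monomial_mem_S K _ (fun x => ?_) hwtκ, ?_⟩
          · rw [← md_apply, hmdκ]
          · intro ρ hρ
            rw [coeff_monomial] at hρ
            split_ifs at hρ with h5
            · rw [← h5]
              exact hdat.2.2
            · exact absurd rfl hρ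
        · rw [map_add, JD2_theta_term hd _ hdat, hκe, hκf, Nat.mul_div_cancel_left i hp]
          have h5 : monomial μ (coeff μ b') - monomial (β + p • msel v i) (coeff μ b') ∈
              Fr p (J ⊔ mI K (𝒰 \ {v})) := by
            have h6 : (monomial ν (1 : K) - monomial (msel v i) (1 : K) : T V K) ∈ J := by
              rw [hJ]
              · rw [map_sub, mu_monomial, mu_monomial, (msel_spec v hiv').2.1,
                  (msel_spec v hiv').2.2, ← hi, show nb ν = v.degree - i by omega, sub_self]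
              · intro ρ hρ
                rw [coeff_sub, coeff_monomial, coeff_monomial] at hρ
                split_ifs at hρ with h7 h8 h8
                · rw [← h7]; exact hνv
                · rw [← h7]; exact hνv
                · rw [← h8]; exact (msel_spec v hiv').1
                · exact absurd (sub_self _) hρ
            have h7 : (monomial μ (coeff μ b') - monomial (β + p • msel v i) (coeff μ b') : T V K)
                = monomial β (coeff μ b') *
                  expand p (monomial ν (1 : K) - monomial (msel v i) (1 : K)) := by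
              rw [map_sub, expand_monomial, expand_monomial, mul_sub, monomial_mul, monomial_mul,
                mul_one, ← hμβ]
            rw [h7]
            exact JD2_Fr_le le_sup_left (Ideal.mul_mem_left _ _ (Ideal.mem_map_of_mem _ h6))
          have h8 := Ideal.add_mem _ h5 hft
          convert h8 using 1
          ring
      · refine ⟨f, hf, ?_⟩
        have h5 : monomial μ (coeff μ b') ∈ Fr p (J ⊔ mI K (𝒰 \ {v})) :=
          JD2_Fr_le le_sup_right (JD2_mono_mem h𝒰' ⟨hμU, hνv⟩ _)
        have h8 := Ideal.add_mem _ h5 hft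
        convert h8 using 1
        ring
  obtain ⟨f, hf, hft⟩ := key b'.support (Finset.Subset.refl _)
  refine ⟨f, hf, ?_⟩
  rw [← as_sum b'] at hft
  have h8 := Ideal.add_mem _ haT hft
  convert h8 using 1
  rw [hab']
  ring

end HKDet
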