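import Pool.Agent.Lib.HKDet.Defs

/-!
# MP_05de8f_ag, Q1: definitions for section 3 of `MP_05de8f_paper97.md` (helper29)

* `md μ` : the multidegree of a monomial exponent `μ : V × Bool →₀ ℕ` (`md μ v = μ (v, false) + μ (v, true)`).
* `divp p μ` : `μ` divided by `p` (entrywise, rounded down).
* `kap p β` : coefficient of the box monomial `β` (all exponents `< p`) in the decomposition `f = ∑_β X^β · expand p (kap p β f)`.
* `mI 𝒰` : the ideal spanned by the monomials with multidegree in the upper set `𝒰`.
* `na μ`, `nb μ` : the numbers of letters `a`, `b` of the monomial `μ`.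
* `mu` : the algebra map `T V K → T Unit K`, `a_v ↦ a`, `b_v ↦ b` (all vectors merged).
* `msel v i` : a monomial exponent of multidegree `v` with exactly `i` letters `a`.
* `theta p v o` : replaces `(a_o^i b_o^(b-i))^p`, `b = |v|`, by the `p`-th power of the monomial `msel v i`.
* `kerI v` : the ideal generated by the polynomials of multidegree `v` killed by `mu`.
* `vS p R C w` : the multidegrees `v` with a row and a column in the support and `0 ≤ w - p v ≤ 2p-2`.
* `mm p R C w` : the component of multidegree `w` of `∑ [i j]^p Inv`; `hh p R C w` the dimension of `Inv_w / mm`.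
* `hkS p R C w` : formula (W) of the paper.
-/

namespace HKDet

open MvPolynomial FSig

variable {V : Type*} {K : Type*} [Field K] (p : ℕ)

/-- multidegree of a monomial -/
noncomputable def md (μ : V × Bool →₀ ℕ) : V →₀ ℕ := μ.mapDomain Prod.fst

/-- entrywise division by `p` -/
noncomputable def divp (μ : V × Bool →₀ ℕ) : V × Bool →₀ ℕ := μ.mapRange (· / p) (Nat.zero_div p)

open scoped Classical in
/-- the coefficient of `X^β` over the `p`-th powers: `kap p β (X^μ) = X^((μ-β)/p)` if `μ ≥ β`, `μ ≡ β` mod `p`, and `0` otherwise -/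
noncomputable def kap (β : V × Bool →₀ ℕ) : T V K →ₗ[K] T V K :=
  (basisMonomials (V × Bool) K).constr K fun μ =>
    if ∀ x, β x ≤ μ x ∧ p ∣ μ x - β x then monomial (divp p (μ - β)) (1 : K) else 0

/-- the ideal spanned by the monomials with multidegree in `𝒰` -/
noncomputable def mI (K : Type*) [Field K] (𝒰 : Set (V →₀ ℕ)) : Ideal (T V K) :=
  Ideal.span ((fun μ => monomial μ (1 : K)) '' {μ | md μ ∈ 𝒰})

/-- the number of letters `a` -/
noncomputable def na (μ : V × Bool →₀ ℕ) : ℕ := μ.sum fun x n => if x.2 then 0 else n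

/-- the number of letters `b` -/
noncomputable def nb (μ : V × Bool →₀ ℕ) : ℕ := μ.sum fun x n => if x.2 then n else 0

/-- all vectors merged -/
noncomputable def mu : T V K →ₐ[K] T Unit K := rename fun x => ((), x.2)

open scoped Classical in
/-- a monomial of multidegree `v` with `i` letters `a` -/
noncomputable def msel (v : V →₀ ℕ) (i : ℕ) : V × Bool →₀ ℕ :=
  if h : ∃ μ : V × Bool →₀ ℕ, md μ = v ∧ na μ = i then h.choose else 0

open scoped Classical in
/-- replaces `(a_o^i b_o^(b-i))^p` by the `p`-th power of the monomial `msel v i` -/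
noncomputable def theta (v : V →₀ ℕ) (o : V) : T V K →ₗ[K] T V K :=
  (basisMonomials (V × Bool) K).constr K fun μ =>
    if p ∣ μ (o, false) ∧ p ∣ μ (o, true) ∧ μ (o, false) + μ (o, true) = p * v.degree then
      monomial ((μ.erase (o, false)).erase (o, true) + p • msel v (μ (o, false) / p)) (1 : K) else 0

/-- the ideal generated by the polynomials of multidegree `v` killed by `mu` -/
noncomputable def kerI (K : Type*) [Field K] (v : V →₀ ℕ) : Ideal (T V K) :=
  Ideal.span {f | (∀ μ, coeff μ f ≠ 0 → md μ = v) ∧ mu f = 0}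

open scoped Classical in
/-- the degrees of the `p`-th powers in the mixed pieces -/
noncomputable def vS (R C : Finset V) (w : V →₀ ℕ) : Finset (V →₀ ℕ) :=
  (Finset.Icc 0 w).filter fun v => (∀ x, p * v x ≤ w x ∧ w x - p * v x ≤ 2 * p - 2) ∧
    (∃ i ∈ R, v i ≠ 0) ∧ (∃ j ∈ C, v j ≠ 0)

/-- the component of multidegree `w` of `∑ [i j]^p Inv` -/
noncomputable def mm (K : Type*) [Field K] (p : ℕ) (R C : Finset V) (w : V →₀ ℕ) :
    Submodule K (T V K) :=
  Submodule.span K {f | ∃ i ∈ R, ∃ j ∈ C, ∃ e : V →₀ ℕ, ∃ g ∈ IS K e,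
    e + Finsupp.single i p + Finsupp.single j p = w ∧ f = br K i j ^ p * g}

/-- the dimension of the component of multidegree `w` of `R / m^[p]` -/
noncomputable def hh (K : Type*) [Field K] (p : ℕ) (R C : Finset V) (w : V →₀ ℕ) : ℤ :=
  (Module.finrank K (IS K w) : ℤ) - Module.finrank K (mm K p R C w)

open scoped Classical in
/-- `s, c ≥ 1` and (`s = 1` or `c = 1`) -/
def oneB (p : ℕ) (R C : Finset V) (w : V →₀ ℕ) : Prop :=
  1 ≤ (R.filter fun i => p ≤ w i).card ∧ 1 ≤ (C.filter fun j => p ≤ w j).card ∧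
    ((R.filter fun i => p ≤ w i).card = 1 ∨ (C.filter fun j => p ≤ w j).card = 1)

open scoped Classical in
/-- formula (W) -/
noncomputable def hkS (p : ℕ) (R C : Finset V) (w : V →₀ ℕ) : ℤ :=
  (if ∀ j ∈ C, w j ≤ 2 * p - 2 then invN (barC p C w) else 0)
    + (if ∀ i ∈ R, w i ≤ 2 * p - 2 then invN (barC p R w) else 0)
    - (if ∀ v, w v ≤ 2 * p - 2 then invN (bar p w) else 0)
    + (∑ v ∈ vS p R C w, mlt p v.degree (bar p (w - p • v)))
    + (if (∀ v, w v ≤ 2 * p - 2) ∧ oneB p R C w then fus p (bar p w) else 0)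

end HKDet
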