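import Pool.Agent.Lib.HKDet.JD2

/-!
# JE: one piece

`tt_theta`, `rr_theta`: the map `theta p v o` identifies the module `(nI U * nI {o}^b, nI {o}^b)` in degree `d + p b e_o` with `(J ⊔ mI (𝒰 \ {v}), J ⊔ mI 𝒰)` in degree `d + p v`: `theta_mem_Q`, `theta_mem_iff`, `theta_surj` for all weights `w`, `theta_E`, `theta_F` (`kerI_le`: `Fr (kerI v) ≤ Fr (J ⊔ ..)`), for the transport lemma of `Core`/`TR`.
(Direct proof without it: `tt p P Q d = finrank (Fs Q d 0) - finrank (Fs P d 0 ⊔ gS Q d)` is the dimension of `Fs Q d 0 / (Fs P d 0 ⊔ gS Q d)`; `theta` induces a linear map between these quotients for the two sides which is surjective by `theta_surj` and injective: if `theta f ∈ Fs P' ⊔ gS Q'`, lift the elements of `Fs Q'` by `theta_surj` and use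
`theta_E`, `theta_F` for `k = 1, p`: `theta f ∈ theta (gS Q) + Fs P'`, so `theta (f - g) ∈ Fs P'`, `f - g ∈ Fs P`. For `rr`: `NrmL (theta f) - theta (NrmL f) ∈ Fr P'`, as `NrmL` is a polynomial in the operators `E k`, `F k`, `k ∈ {p-1, p}`.)
`piece_eq`: choose `o ∉ U` (`Infinite.exists_notMem_finset`). If all `d x ≤ 2p-2`: `tt_theta`, `rr_theta`, `tt_piece`, `rr_piece` (`v.degree ≠ 0`; `(bar p d).degree + p * v.degree ≤ (d + p • v).degree`). If `d x ≥ 2p-1` for some `x`: the two ideals have the same `Fs` in degree `d + p • v` for all weights: a monomial `μ`, `md μ = d + p • v`, `v' = md (divp p μ) ∈ 𝒰`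
with `v' = v` has `β = μ - p • divp p μ`, `md β = d`, all entries of `β` are `≤ p-1`, so `d x ≤ 2p-2`, a contradiction: so `v' ∈ 𝒰 \ {v}` (`Fr_sup`, `mem_Fr_mI`, components as in `theta_surj`). Then `tt = 0`: `gS p Q d ≤ Fs p Q d 0` (`E_mem_Fr`, `F_mem_Fr`), and `rr = 0`: `NrmL_mem_Fs`.
-/

namespace HKDet

open MvPolynomial FSig

variable {V : Type*} {K : Type*} [Field K] {p : ℕ} [Fact p.Prime] [CharP K p]

private theorem je_transport {J : Ideal (T V K)} (hJg : Good J) {𝒰 : Set (V →₀ ℕ)}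
    (h𝒰 : IsUpperSet 𝒰) {v : V →₀ ℕ} (hv : v ∈ 𝒰) (h𝒰' : IsUpperSet (𝒰 \ {v}))
    (hJ : ∀ f : T V K, (∀ μ, coeff μ f ≠ 0 → md μ = v) → (f ∈ J ↔ mu f = 0))
    {U : Finset V} {o : V} (ho : o ∉ U) {d : V →₀ ℕ} (hU : ∀ x, x ∉ U → d x = 0) :
    tt p (nI K U * nI K {o} ^ v.degree) (nI K {o} ^ v.degree)
        (d + Finsupp.single o (p * v.degree)) =
      tt p (J ⊔ mI K (𝒰 \ {v})) (J ⊔ mI K 𝒰) (d + p • v) ∧
    rr p (nI K U * nI K {o} ^ v.degree) (nI K {o} ^ v.degree)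
        (d + Finsupp.single o (p * v.degree)) =
      rr p (J ⊔ mI K (𝒰 \ {v})) (J ⊔ mI K 𝒰) (d + p • v) := by
  have hd : d o = 0 := hU o ho
  have hle : Fr p (kerI K v) ≤ Fr p (J ⊔ mI K (𝒰 \ {v})) :=
    Fr_mono p ((kerI_le hJ).trans le_sup_left)
  have hgQ : Good (nI K {o} ^ v.degree : Ideal (T V K)) := (good_nI {o}).pow _
  refine transport p Ideal.mul_le_right (sup_le_sup_left (mI_mono Set.sdiff_subset) J) hgQ
    (hJg.sup (good_mI h𝒰')) (hJg.sup (good_mI h𝒰)) (theta p v o) ?_ ?_ ?_ ?_ ?_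
  · intro w x hx
    exact theta_mem_Q h𝒰 hv hd hx
  · intro w y hy
    obtain ⟨f, hf, hf2⟩ := theta_surj hJg h𝒰 hv h𝒰' hJ hd hy
    refine ⟨f, hf, Submodule.mem_inf.2 ⟨hf2, ?_⟩⟩
    exact Submodule.sub_mem _ (Submodule.mem_inf.1 hy).2 (theta_mem_S v hd hf)
  · intro x hx
    have h1 := theta_mem_iff hJg h𝒰 hv h𝒰' hJ ho hU hx
    constructor
    · intro h
      exact Submodule.mem_inf.2 ⟨h1.1 (Submodule.mem_inf.1 h).1, (Submodule.mem_inf.1 hx).2⟩
    · intro h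
      exact Submodule.mem_inf.2 ⟨h1.2 (Submodule.mem_inf.1 h).1, theta_mem_S v hd hx⟩
  · intro k w x hx
    refine Submodule.mem_inf.2 ⟨hle (theta_E v hd hx k), ?_⟩
    exact Submodule.sub_mem _ (theta_mem_S v hd (Fs_E p hgQ hx k))
      (E_mem_S K (theta_mem_S v hd hx) k)
  · intro k w x hx
    refine Submodule.mem_inf.2 ⟨hle (theta_F v hd hx k), ?_⟩
    exact Submodule.sub_mem _ (theta_mem_S v hd (Fs_F p hgQ hx k))
      (F_mem_S K (theta_mem_S v hd hx) k)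

theorem tt_theta {J : Ideal (T V K)} (hJg : Good J) {𝒰 : Set (V →₀ ℕ)} (h𝒰 : IsUpperSet 𝒰)
    {v : V →₀ ℕ} (hv : v ∈ 𝒰) (h𝒰' : IsUpperSet (𝒰 \ {v}))
    (hJ : ∀ f : T V K, (∀ μ, coeff μ f ≠ 0 → md μ = v) → (f ∈ J ↔ mu f = 0))
    {U : Finset V} {o : V} (ho : o ∉ U) {d : V →₀ ℕ} (hU : ∀ x, x ∉ U → d x = 0) :
    tt p (J ⊔ mI K (𝒰 \ {v})) (J ⊔ mI K 𝒰) (d + p • v) =
      tt p (nI K U * nI K {o} ^ v.degree) (nI K {o} ^ v.degree)
        (d + Finsupp.single o (p * v.degree)) :=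
  (je_transport hJg h𝒰 hv h𝒰' hJ ho hU).1.symm

theorem rr_theta {J : Ideal (T V K)} (hJg : Good J) {𝒰 : Set (V →₀ ℕ)} (h𝒰 : IsUpperSet 𝒰)
    {v : V →₀ ℕ} (hv : v ∈ 𝒰) (h𝒰' : IsUpperSet (𝒰 \ {v}))
    (hJ : ∀ f : T V K, (∀ μ, coeff μ f ≠ 0 → md μ = v) → (f ∈ J ↔ mu f = 0))
    {U : Finset V} {o : V} (ho : o ∉ U) {d : V →₀ ℕ} (hU : ∀ x, x ∉ U → d x = 0) :
    rr p (J ⊔ mI K (𝒰 \ {v})) (J ⊔ mI K 𝒰) (d + p • v) =
      rr p (nI K U * nI K {o} ^ v.degree) (nI K {o} ^ v.degree)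
        (d + Finsupp.single o (p * v.degree)) :=
  (je_transport hJg h𝒰 hv h𝒰' hJ ho hU).2.symm

private theorem je_Fs {J : Ideal (T V K)} (hJg : Good J) {𝒰 : Set (V →₀ ℕ)}
    (h𝒰 : IsUpperSet 𝒰) {v : V →₀ ℕ} (h𝒰' : IsUpperSet (𝒰 \ {v})) {d : V →₀ ℕ} {x : V}
    (hx : 2 * p - 2 < d x) (w : ℤ) :
    Fs p (J ⊔ mI K (𝒰 \ {v})) (d + p • v) w = Fs p (J ⊔ mI K 𝒰) (d + p • v) w := by
  classical
  have hp : 0 < p := (Fact.out : p.Prime).pos
  refine le_antisymm (Fs_mono p (sup_le_sup_left (mI_mono Set.sdiff_subset) J) _ _) ?_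
  intro f hf
  obtain ⟨h1, h2⟩ := Submodule.mem_inf.1 hf
  refine Submodule.mem_inf.2 ⟨?_, h2⟩
  have h1' : f ∈ Fr p (J ⊔ mI K 𝒰) := h1
  rw [Fr_sup, Submodule.mem_sup] at h1'
  obtain ⟨f1, hf1, f2, hf2, rfl⟩ := h1'
  have h3 : f1 + f2 = weightedHomogeneousComponent (gr (V := V)) (d + p • v, w) f1 +
      weightedHomogeneousComponent (gr (V := V)) (d + p • v, w) f2 := by
    rw [← map_add]
    have h4 : (f1 + f2).IsWeightedHomogeneous (gr (V := V)) (d + p • v, w) :=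
      (mem_weightedHomogeneousSubmodule _ _ _ _).1 h2
    exact (h4.weightedHomogeneousComponent_same).symm
  have g1 := component_mem_Fr p hJg hf1 (d + p • v, w)
  have g2 := component_mem_Fr p (good_mI h𝒰) hf2 (d + p • v, w)
  have g3 : weightedHomogeneousComponent (gr (V := V)) (d + p • v, w) f2 ∈
      Fr p (mI K (𝒰 \ {v})) := by
    rw [mem_Fr_mI hp h𝒰']
    intro μ hμ
    refine ⟨(mem_Fr_mI hp h𝒰).1 g2 μ hμ, ?_⟩
    intro hv'
    have hv'' : md (divp p μ) = v := hv'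
    have hS : weightedHomogeneousComponent (gr (V := V)) (d + p • v, w) f2 ∈ S K (d + p • v) w :=
      weightedHomogeneousComponent_mem _ _ _
    have h5 := (mem_S_md.1 hS μ hμ).1
    have h6 := DFunLike.congr_fun h5 x
    have h7 := DFunLike.congr_fun hv'' x
    rw [md_apply, divp_apply, divp_apply] at h7
    rw [md_apply, Finsupp.add_apply, Finsupp.smul_apply, smul_eq_mul, ← h7] at h6
    have h8 := Nat.div_add_mod (μ (x, false)) p
    have h9 := Nat.div_add_mod (μ (x, true)) p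
    have h10 := Nat.mod_lt (μ (x, false)) hp
    have h11 := Nat.mod_lt (μ (x, true)) hp
    rw [mul_add] at h6
    omega
  have h12 : f1 + f2 ∈ Fr p (J ⊔ mI K (𝒰 \ {v})) := by
    rw [Fr_sup, h3]
    exact Submodule.add_mem_sup g1 g3
  exact h12

open scoped Classical in
theorem piece_eq [Infinite V] {J : Ideal (T V K)} (hJg : Good J) {𝒰 : Set (V →₀ ℕ)}
    (h𝒰 : IsUpperSet 𝒰) {v : V →₀ ℕ} (hv : v ∈ 𝒰) (h𝒰' : IsUpperSet (𝒰 \ {v}))
    (hJ : ∀ f : T V K, (∀ μ, coeff μ f ≠ 0 → md μ = v) → (f ∈ J ↔ mu f = 0))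
    (hv0 : v ≠ 0) {d : V →₀ ℕ} (hd : (d + p • v).degree < 2 * p * (p - 1)) :
    tt p (J ⊔ mI K (𝒰 \ {v})) (J ⊔ mI K 𝒰) (d + p • v) =
        (if ∀ x, d x ≤ 2 * p - 2 then mlt p v.degree (bar p d) else 0) ∧
    rr p (J ⊔ mI K (𝒰 \ {v})) (J ⊔ mI K 𝒰) (d + p • v) =
        (if ∀ x, d x ≤ 2 * p - 2 then mlt p v.degree (bar p d) else 0) := by
  by_cases hs : ∀ x, d x ≤ 2 * p - 2
  · rw [if_pos hs]
    obtain ⟨o, ho⟩ := Infinite.exists_notMem_finset d.support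
    have hU : ∀ x, x ∉ d.support → d x = 0 := fun x hx => Finsupp.notMem_support_iff.1 hx
    have hb : v.degree ≠ 0 := by
      intro h
      exact hv0 ((Finsupp.degree_eq_zero_iff v).1 h)
    have hd' : (bar p d).degree + p * v.degree < 2 * p * (p - 1) := by
      have h1 : bar p d ≤ d := by
        intro x
        unfold bar
        rw [Finsupp.mapRange_apply]
        exact min_le_left _ _
      have h2 : (bar p d).degree ≤ d.degree := Finsupp.degree_mono h1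
      have h3 : (d + p • v).degree = d.degree + p * v.degree := by
        rw [map_add, map_nsmul, smul_eq_mul]
      omega
    rw [tt_theta hJg h𝒰 hv h𝒰' hJ ho hU, rr_theta hJg h𝒰 hv h𝒰' hJ ho hU,
      tt_piece p ho hU hs _ hd', rr_piece p ho hU hs _ hd', if_neg hb, add_zero]
    exact ⟨rfl, rfl⟩
  · rw [if_neg hs]
    push Not at hs
    obtain ⟨x, hx⟩ := hs
    have hF := je_Fs (K := K) (p := p) hJg h𝒰 h𝒰' hx 0
    have hgP : Good (J ⊔ mI K (𝒰 \ {v})) := hJg.sup (good_mI h𝒰')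
    have hgQ : Good (J ⊔ mI K 𝒰) := hJg.sup (good_mI h𝒰)
    constructor
    · unfold tt
      rw [hF, sup_eq_left.2 (gS_le p hgQ _), sub_self]
    · unfold rr
      have h1 : (Fs p (J ⊔ mI K 𝒰) (d + p • v) 0).map (NrmL p) ≤
          Fs p (J ⊔ mI K (𝒰 \ {v})) (d + p • v) 0 := by
        rw [← hF, Submodule.map_le_iff_le_comap]
        intro y hy
        exact NrmL_mem_Fs p hgP hy
      rw [sup_eq_left.2 h1, sub_self]

end HKDet
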