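import Pool.Agent.Lib.HKDet.JE

/-!
# JF: the mixed part `(jI R C, nI R * nI C)` in degree `w` is filtered by pieces

PROOF. `R`, `C` disjoint, `w` supported on `R ∪ C`, `J = jI K R C`, `𝒰₀ = {v | (∃ i ∈ R, v i ≠ 0) ∧ ∃ j ∈ C, v j ≠ 0}` (an upper set), `nI R * nI C = mI 𝒰₀` (`nI_mul_nI`), `J ≤ mI 𝒰₀`. `𝒱 = {v ∈ 𝒰₀ | p • v ≤ w}` is finite (`v ≤ w`).
CLAIM. For every finite set `W ⊆ 𝒱` such that `𝒰₀ \ W` is an upper set: `tt p (J ⊔ mI (𝒰₀ \ W)) (J ⊔ mI 𝒰₀) w = ∑_{v ∈ W} c v`, and the same for `rr`, where `c v = if ∀ x, (w - p • v) x ≤ 2p-2 then mlt p v.degree (bar p (w - p • v)) else 0`.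
Induction on the number of elements of `W`. `W = ∅`: the two ideals are equal (`tt P P = 0`: `gS p Q w ≤ Fs p Q w 0`; `rr P P = 0`: `NrmL_mem_Fs`). Otherwise let `v ∈ W` be of maximal degree, `W' = W \ {v}`, `𝒰 = 𝒰₀ \ W' = (𝒰₀ \ W) ∪ {v}`: an upper set (`y > v` has larger degree, so `y ∉ W`, `y ∈ 𝒰₀ \ W`), and `𝒰 \ {v} = 𝒰₀ \ W`.
`P = J ⊔ mI (𝒰 \ {v}) ≤ P' = J ⊔ mI 𝒰 ≤ Q = J ⊔ mI 𝒰₀`, all good (`Good.sup`, `good_jI`, `good_mI`). `piece_eq` with `d = w - p • v` (`d + p • v = w` as `p • v ≤ w`): `tt p P P' w = rr p P P' w = c v` (`hJ` is `mem_jI_iff`: `v ∈ 𝒰₀` is supported on `R ∪ C` since `p • v ≤ w`). `v ≠ 0`.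
`tt_add_of_eq`: `tt P Q = tt P P' + tt P' Q`, and `tt P' Q`, `rr P' Q` by induction. For `rr`: `rr_ge`: `rr P P' + rr P' Q ≤ rr P Q ≤ tt P Q` (`rr_le_tt`) `= ∑`, and the left side is the same sum.
End: `W = 𝒱`: `𝒰₀ \ 𝒱` is an upper set (`p • v ≤ p • v'`), it contains no `v` with `p • v ≤ w`, so `Fs p (J ⊔ mI (𝒰₀ \ 𝒱)) w z = Fs p J w z` (`Fs_mI_empty`), and `J ⊔ mI 𝒰₀ = mI 𝒰₀`; `tt` and `rr` depend only on the `Fs`. Finally `∑_{v ∈ 𝒱} c v = ∑_{v ∈ vS p R C w} mlt ..`: `vS` is the subset of `𝒱` where the condition holds.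
-/

/-!
# JF: the mixed part `(jI R C, nI R * nI C)` in degree `w` is filtered by pieces

PROOF. `R`, `C` disjoint, `w` supported on `R ∪ C`, `J = jI K R C`, `𝒰₀ = {v | (∃ i ∈ R, v i ≠ 0) ∧ ∃ j ∈ C, v j ≠ 0}` (an upper set), `nI R * nI C = mI 𝒰₀` (`nI_mul_nI`), `J ≤ mI 𝒰₀`. `𝒱 = {v ∈ 𝒰₀ | p • v ≤ w}` is finite (`v ≤ w`).
CLAIM. For every finite set `W ⊆ 𝒱` such that `𝒰₀ \ W` is an upper set: `tt p (J ⊔ mI (𝒰₀ \ W)) (J ⊔ mI 𝒰₀) w = ∑_{v ∈ W} c v`, and the same for `rr`, where `c v = if ∀ x, (w - p • v) x ≤ 2p-2 then mlt p v.degree (bar p (w - p • v)) else 0`.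
Induction on the number of elements of `W`. `W = ∅`: the two ideals are equal (`tt P P = 0`: `gS p Q w ≤ Fs p Q w 0`; `rr P P = 0`: `NrmL_mem_Fs`). Otherwise let `v ∈ W` be of maximal degree, `W' = W \ {v}`, `𝒰 = 𝒰₀ \ W' = (𝒰₀ \ W) ∪ {v}`: an upper set (`y > v` has larger degree, so `y ∉ W`, `y ∈ 𝒰₀ \ W`), and `𝒰 \ {v} = 𝒰₀ \ W`.
`P = J ⊔ mI (𝒰 \ {v}) ≤ P' = J ⊔ mI 𝒰 ≤ Q = J ⊔ mI 𝒰₀`, all good (`Good.sup`, `good_jI`, `good_mI`). `piece_eq` with `d = w - p • v` (`d + p • v = w` as `p • v ≤ w`): `tt p P P' w = rr p P P' w = c v` (`hJ` is `mem_jI_iff`: `v ∈ 𝒰₀` is supported on `R ∪ C` since `p • v ≤ w`). `v ≠ 0`.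
`tt_add_of_eq`: `tt P Q = tt P P' + tt P' Q`, and `tt P' Q`, `rr P' Q` by induction. For `rr`: `rr_ge`: `rr P P' + rr P' Q ≤ rr P Q ≤ tt P Q` (`rr_le_tt`) `= ∑`, and the left side is the same sum.
End: `W = 𝒱`: `𝒰₀ \ 𝒱` is an upper set (`p • v ≤ p • v'`), it contains no `v` with `p • v ≤ w`, so `Fs p (J ⊔ mI (𝒰₀ \ 𝒱)) w z = Fs p J w z` (`Fs_mI_empty`), and `J ⊔ mI 𝒰₀ = mI 𝒰₀`; `tt` and `rr` depend only on the `Fs`. Finally `∑_{v ∈ 𝒱} c v = ∑_{v ∈ vS p R C w} mlt ..`: `vS` is the subset of `𝒱` where the condition holds.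
-/

namespace HKDet

open MvPolynomial FSig

variable {V : Type*} {K : Type*} [Field K] {p : ℕ} [Fact p.Prime] [CharP K p]

private def JF_U (R C : Finset V) : Set (V →₀ ℕ) :=
  {v | (∃ i ∈ R, v i ≠ 0) ∧ ∃ j ∈ C, v j ≠ 0}

private theorem JF_upper (R C : Finset V) : IsUpperSet (JF_U R C) := by
  rintro y z hyz ⟨⟨i, hi, h1⟩, ⟨j, hj, h2⟩⟩
  have h3 : y i ≤ z i := hyz i
  have h4 : y j ≤ z j := hyz j
  exact ⟨⟨i, hi, by omega⟩, ⟨j, hj, by omega⟩⟩

private theorem JF_le {R C : Finset V} (hRC : Disjoint R C) : jI K R C ≤ mI K (JF_U R C) := by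
  have h1 : mI K (JF_U R C) = nI K R * nI K C := (nI_mul_nI hRC).symm
  rw [h1]
  unfold jI
  rw [Ideal.span_le]
  rintro f ⟨i, hi, j, hj, rfl⟩
  have hai : va K i ∈ nI K R := Ideal.subset_span ⟨(i, false), hi, rfl⟩
  have hbi : vb K i ∈ nI K R := Ideal.subset_span ⟨(i, true), hi, rfl⟩
  have haj : va K j ∈ nI K C := Ideal.subset_span ⟨(j, false), hj, rfl⟩
  have hbj : vb K j ∈ nI K C := Ideal.subset_span ⟨(j, true), hj, rfl⟩
  have h2 := Ideal.mul_mem_mul hai hbj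
  have h3 := Ideal.mul_mem_mul hbi haj
  show br K i j ∈ nI K R * nI K C
  unfold br
  exact Ideal.sub_mem _ h2 h3

open scoped Classical in
/-- the contribution of `v` -/
private noncomputable def JF_c (p : ℕ) (w v : V →₀ ℕ) : ℤ :=
  if ∀ x, (w - p • v) x ≤ 2 * p - 2 then mlt p v.degree (bar p (w - p • v)) else 0

open scoped Classical in
/-- the finite set `𝒱` -/
private noncomputable def JF_V (p : ℕ) (R C : Finset V) (w : V →₀ ℕ) : Finset (V →₀ ℕ) :=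
  (Finset.Icc 0 w).filter fun v => v ∈ JF_U R C ∧ p • v ≤ w

private theorem JF_tt_self {P : Ideal (T V K)} (hP : Good P) (w : V →₀ ℕ) : tt p P P w = 0 := by
  unfold tt
  rw [sup_eq_left.2 (gS_le p hP w), sub_self]

private theorem JF_rr_self {P : Ideal (T V K)} (hP : Good P) (w : V →₀ ℕ) : rr p P P w = 0 := by
  unfold rr
  have h1 : (Fs p P w 0).map (NrmL p) ≤ Fs p P w 0 := by
    rintro _ ⟨f, hf, rfl⟩
    exact NrmL_mem_Fs p hP hf
  rw [sup_eq_left.2 h1, sub_self]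

private theorem JF_claim [Infinite V] {R C : Finset V} (hRC : Disjoint R C) {w : V →₀ ℕ}
    (hw : ∀ v, v ∉ R → v ∉ C → w v = 0) (hd : w.degree < 2 * p * (p - 1)) (n : ℕ) :
    ∀ W : Finset (V →₀ ℕ), W.card = n → W ⊆ JF_V p R C w →
      IsUpperSet (JF_U R C \ (W : Set (V →₀ ℕ))) →
      tt p (jI K R C ⊔ mI K (JF_U R C \ (W : Set (V →₀ ℕ)))) (jI K R C ⊔ mI K (JF_U R C)) w =
        ∑ v ∈ W, JF_c p w v ∧
      rr p (jI K R C ⊔ mI K (JF_U R C \ (W : Set (V →₀ ℕ)))) (jI K R C ⊔ mI K (JF_U R C)) w =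
        ∑ v ∈ W, JF_c p w v := by
  classical
  have hp : 0 < p := (Fact.out : p.Prime).pos
  have hgQ : Good (jI K R C ⊔ mI K (JF_U R C)) := (good_jI R C).sup (good_mI (JF_upper R C))
  induction n with
  | zero =>
    intro W hW _ _
    rw [Finset.card_eq_zero] at hW
    subst hW
    rw [Finset.coe_empty, Set.sdiff_empty, Finset.sum_empty]
    exact ⟨JF_tt_self hgQ w, JF_rr_self hgQ w⟩
  | succ n ih =>
    intro W hW hWV hup
    have hne : W.Nonempty := Finset.card_pos.1 (by omega)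
    obtain ⟨v, hv, hmax⟩ := Finset.exists_max_image W (fun v => v.degree) hne
    have hvV := hWV hv
    unfold JF_V at hvV
    rw [Finset.mem_filter] at hvV
    obtain ⟨-, hvU, hvw⟩ := hvV
    -- the next set
    have hup' : IsUpperSet (JF_U R C \ ((W.erase v : Finset (V →₀ ℕ)) : Set (V →₀ ℕ))) := by
      rintro y z hyz ⟨hy, hyW⟩
      refine ⟨JF_upper R C hyz hy, fun hz => ?_⟩
      have hz' := Finset.mem_erase.1 (Finset.mem_coe.1 hz)
      by_cases hyW' : y ∈ W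
      · have hyv : y = v := by
          by_contra hne'
          exact hyW (Finset.mem_coe.2 (Finset.mem_erase.2 ⟨hne', hyW'⟩))
        subst hyv
        have h1 := hmax z hz'.2
        apply hz'.1
        have h2 : z = y + (z - y) := (add_tsub_cancel_of_le hyz).symm
        have h3 : z.degree = y.degree + (z - y).degree := by
          conv_lhs => rw [h2]
          rw [map_add]
        have h4 : (z - y).degree = 0 := by omega
        rw [Finsupp.degree_eq_zero_iff] at h4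
        rw [h2, h4, add_zero]
      · exact (hup hyz ⟨hy, fun h => hyW' (Finset.mem_coe.1 h)⟩).2 (Finset.mem_coe.2 hz'.2)
    have hset : (JF_U R C \ ((W.erase v : Finset (V →₀ ℕ)) : Set (V →₀ ℕ))) \ {v} =
        JF_U R C \ (W : Set (V →₀ ℕ)) := by
      ext y
      simp only [Set.mem_sdiff, Finset.mem_coe, Finset.mem_erase, Set.mem_singleton_iff]
      constructor
      · rintro ⟨⟨h1, h2⟩, h3⟩
        exact ⟨h1, fun h4 => h2 ⟨h3, h4⟩⟩
      · rintro ⟨h1, h2⟩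
        refine ⟨⟨h1, fun h3 => h2 h3.2⟩, ?_⟩
        rintro rfl
        exact h2 hv
    have hvU' : v ∈ JF_U R C \ ((W.erase v : Finset (V →₀ ℕ)) : Set (V →₀ ℕ)) :=
      ⟨hvU, fun h => (Finset.mem_erase.1 (Finset.mem_coe.1 h)).1 rfl⟩
    have hvRC : ∀ x, v x ≠ 0 → x ∈ R ∨ x ∈ C := by
      intro x hx
      by_contra hcon
      push Not at hcon
      have h1 : p * v x ≤ w x := hvw x
      rw [hw x hcon.1 hcon.2] at h1
      have h2 := Nat.mul_pos hp (Nat.pos_of_ne_zero hx)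
      omega
    have hv0 : v ≠ 0 := by
      obtain ⟨⟨i, -, hi⟩, -⟩ := hvU
      rintro rfl
      exact hi rfl
    have hdw : w - p • v + p • v = w := tsub_add_cancel_of_le hvw
    have hpc := piece_eq (p := p) (good_jI (K := K) R C) hup' hvU' (by rw [hset]; exact hup)
      (fun f hf => mem_jI_iff hRC hvRC hvU.1 hvU.2 hf) hv0 (d := w - p • v)
      (by rw [hdw]; exact hd)
    rw [hset, hdw] at hpc
    obtain ⟨hp1, hp2⟩ := hpc
    obtain ⟨ih1, ih2⟩ := ih (W.erase v) (by rw [Finset.card_erase_of_mem hv]; omega)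
      ((Finset.erase_subset v W).trans hWV) hup'
    have hc : JF_c p w v = if ∀ x, (w - p • v) x ≤ 2 * p - 2 then
      mlt p v.degree (bar p (w - p • v)) else 0 := rfl
    have hsum : ∑ y ∈ W, JF_c p w y = JF_c p w v + ∑ y ∈ W.erase v, JF_c p w y :=
      (Finset.add_sum_erase W (fun y => JF_c p w y) hv).symm
    have hle1 : jI K R C ⊔ mI K (JF_U R C \ (W : Set (V →₀ ℕ))) ≤
        jI K R C ⊔ mI K (JF_U R C \ ((W.erase v : Finset (V →₀ ℕ)) : Set (V →₀ ℕ))) := by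
      refine sup_le_sup_left (mI_mono ?_) _
      rw [← hset]
      exact Set.sdiff_subset
    have hle2 : jI K R C ⊔ mI K (JF_U R C \ ((W.erase v : Finset (V →₀ ℕ)) : Set (V →₀ ℕ))) ≤
        jI K R C ⊔ mI K (JF_U R C) :=
      sup_le_sup_left (mI_mono Set.sdiff_subset) _
    have hgP : Good (jI K R C ⊔ mI K (JF_U R C \ (W : Set (V →₀ ℕ)))) :=
      (good_jI R C).sup (good_mI hup)
    have hgP' : Good (jI K R C ⊔
        mI K (JF_U R C \ ((W.erase v : Finset (V →₀ ℕ)) : Set (V →₀ ℕ)))) :=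
      (good_jI R C).sup (good_mI hup')
    have htt := tt_add_of_eq p hle1 hle2 hgP hgP' hgQ hd (hp1.trans hp2.symm)
    have hrr := rr_ge p (d := w) hle1 hle2 hgP' hgQ
    have hrt := rr_le_tt p (d := w) (hle1.trans hle2) hgP hgQ hd
    have hT : tt p (jI K R C ⊔ mI K (JF_U R C \ (W : Set (V →₀ ℕ))))
        (jI K R C ⊔ mI K (JF_U R C)) w = ∑ v ∈ W, JF_c p w v := by
      rw [htt, hp1, ih1, hsum, hc]
    refine ⟨hT, le_antisymm (hT ▸ hrt) ?_⟩
    rw [hsum, hc, ← hp2, ← ih2]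
    exact hrr

theorem tt_jI [Infinite V] {R C : Finset V} (hRC : Disjoint R C) {w : V →₀ ℕ}
    (hw : ∀ v, v ∉ R → v ∉ C → w v = 0) (hd : w.degree < 2 * p * (p - 1)) :
    tt p (jI K R C) (nI K R * nI K C) w =
        ∑ v ∈ vS p R C w, mlt p v.degree (bar p (w - p • v)) ∧
    rr p (jI K R C) (nI K R * nI K C) w =
        ∑ v ∈ vS p R C w, mlt p v.degree (bar p (w - p • v)) := by
  classical
  have hp : 0 < p := (Fact.out : p.Prime).pos
  have hV : ∀ v, v ∈ JF_V p R C w ↔ v ∈ JF_U R C ∧ p • v ≤ w := by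
    intro v
    unfold JF_V
    rw [Finset.mem_filter, Finset.mem_Icc]
    constructor
    · exact fun h => h.2
    · intro h
      refine ⟨⟨fun x => Nat.zero_le _, fun x => ?_⟩, h⟩
      have h1 : p * v x ≤ w x := h.2 x
      have h2 : v x ≤ p * v x := Nat.le_mul_of_pos_left _ hp
      omega
  have hup : IsUpperSet (JF_U R C \ (JF_V p R C w : Set (V →₀ ℕ))) := by
    rintro y z hyz ⟨hy, hyV⟩
    refine ⟨JF_upper R C hyz hy, fun hz => hyV ?_⟩
    rw [Finset.mem_coe, hV] at hz ⊢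
    refine ⟨hy, fun x => ?_⟩
    have h1 : p * z x ≤ w x := hz.2 x
    have h2 : y x ≤ z x := hyz x
    exact (Nat.mul_le_mul_left p h2).trans h1
  obtain ⟨h1, h2⟩ := JF_claim (K := K) hRC hw hd _ (JF_V p R C w) rfl (Finset.Subset.refl _) hup
  have hFs : Fs p (jI K R C ⊔ mI K (JF_U R C \ (JF_V p R C w : Set (V →₀ ℕ)))) w 0 =
      Fs p (jI K R C) w 0 := by
    refine Fs_mI_empty hp (good_jI R C) hup (fun v hv hvU => ?_) 0
    exact hvU.2 (Finset.mem_coe.2 ((hV v).2 ⟨hvU.1, hv⟩))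
  have hQ : jI K R C ⊔ mI K (JF_U R C) = nI K R * nI K C := by
    rw [sup_eq_right.2 (JF_le hRC)]
    exact (nI_mul_nI hRC).symm
  have hS : ∑ v ∈ JF_V p R C w, JF_c p w v =
      ∑ v ∈ vS p R C w, mlt p v.degree (bar p (w - p • v)) := by
    have hvS : vS p R C w =
        (JF_V p R C w).filter fun v => ∀ x, (w - p • v) x ≤ 2 * p - 2 := by
      ext v
      rw [Finset.mem_filter, hV]
      unfold vS
      rw [Finset.mem_filter, Finset.mem_Icc]
      constructor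
      · rintro ⟨-, h3, h4, h5⟩
        exact ⟨⟨⟨h4, h5⟩, fun x => (h3 x).1⟩, fun x => (h3 x).2⟩
      · rintro ⟨⟨⟨h4, h5⟩, h6⟩, h7⟩
        refine ⟨⟨fun x => Nat.zero_le _, fun x => ?_⟩, fun x => ⟨h6 x, h7 x⟩, h4, h5⟩
        have h8 : p * v x ≤ w x := h6 x
        have h9 : v x ≤ p * v x := Nat.le_mul_of_pos_left _ hp
        omega
    rw [hvS, Finset.sum_filter]
    rfl
  unfold tt at h1 ⊢
  unfold rr at h2 ⊢
  rw [hFs, hQ, hS] at h1 h2
  exact ⟨h1, h2⟩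

end HKDet
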