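import Pool.Agent.Lib.HKDet.JE

/-!
# JJ: `tt = rr` for the pair `(nI C, nI C ⊔ nI R)` if exactly one entry in `R` is `≥ p`

PROOF. `piece_eq` with `J = ⊥` (`good_bot`; `hJ` is `mem_bot_iff`), `𝒰 = {v | ∃ u ∈ R ∪ C, v u ≠ 0}`, `v = single i 1`, `d = w - single i p` (`p • single i 1 = single i p`, `d + p • v = w` since `p ≤ w i`). `𝒰` is an upper set; `𝒰 \ {single i 1}` too: if `x ∈ 𝒰`, `x ≠ single i 1`, `x ≤ y = single i 1` then `x = 0` or `x = single i 1`, a contradiction.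
So `tt p (mI (𝒰 \ {v})) (mI 𝒰) w = rr p (mI (𝒰 \ {v})) (mI 𝒰) w` (`bot_sup_eq`). `mI 𝒰 = nI K (R ∪ C) = nI K C ⊔ nI K R` (`nI_eq_mI`, `nI_sup_nI`, `sup_comm`).
`Fs p (mI (𝒰 \ {v})) w z = Fs p (nI K C) w z` for all `z` by `Fs_bot_congr` with `𝒰' = {v' | ∃ j ∈ C, v' j ≠ 0}` (`nI_eq_mI`): let `p • v' ≤ w`. If `v' j ≠ 0`, `j ∈ C`: `v' ∈ 𝒰`, `v' ≠ single i 1` as `i ∉ C`. Conversely `v' ∈ 𝒰`, `v' ≠ single i 1`: if `v' j = 0` for all `j ∈ C` then `v' x = 0` for all `x ≠ i`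
(`x ∈ R`: `p v' x ≤ w x ≤ p - 1`; `x ∉ R ∪ C`: `w x = 0`) and `p v' i ≤ w i ≤ 2p - 2` gives `v' i ≤ 1`, so `v' = 0` or `single i 1`, a contradiction. `tt` and `rr` only depend on the spaces `Fs p P w z`, `Fs p Q w z` (unfold).
-/

namespace HKDet

open MvPolynomial FSig

variable {V : Type*} {K : Type*} [Field K] {p : ℕ} [Fact p.Prime] [CharP K p]

private theorem jj_upper (U : Finset V) : IsUpperSet {v : V →₀ ℕ | ∃ u ∈ U, v u ≠ 0} := by
  rintro x y hxy ⟨u, hu, hx⟩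
  refine ⟨u, hu, ?_⟩
  have h1 : x u ≤ y u := hxy u
  omega

private theorem jj_single {U : Finset V} {i : V} {x : V →₀ ℕ} (h1 : ∀ j, j ≠ i → x j = 0)
    (h2 : x i ≤ 1) (h3 : ∃ u ∈ U, x u ≠ 0) : x = Finsupp.single i 1 := by
  obtain ⟨u, _, hu⟩ := h3
  have hui : u = i := by
    by_contra hc
    exact hu (h1 u hc)
  rw [hui] at hu
  ext j
  by_cases hj : j = i
  · rw [hj, Finsupp.single_eq_same]
    omega
  · rw [h1 j hj, Finsupp.single_eq_of_ne hj]

private theorem jj_congr {P P' Q : Ideal (T V K)} {d : V →₀ ℕ}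
    (h : ∀ z, Fs p P d z = Fs p P' d z) : tt p P Q d = tt p P' Q d ∧ rr p P Q d = rr p P' Q d := by
  unfold tt rr
  rw [h]
  exact ⟨rfl, rfl⟩

theorem tt_eq_rr_one [Infinite V] {R C : Finset V} (hRC : Disjoint R C) {w : V →₀ ℕ}
    (hw : ∀ v, v ∉ R → v ∉ C → w v = 0) {i : V} (hi : i ∈ R) (hi1 : p ≤ w i)
    (hi2 : w i ≤ 2 * p - 2) (hs : ∀ x ∈ R, x ≠ i → w x ≤ p - 1)
    (hd : w.degree < 2 * p * (p - 1)) :
    tt p (nI K C) (nI K C ⊔ nI K R) w = rr p (nI K C) (nI K C ⊔ nI K R) w := by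
  classical
  have hp : 0 < p := (Fact.out : p.Prime).pos
  have hiC : i ∉ C := Finset.disjoint_left.1 hRC hi
  set 𝒰 : Set (V →₀ ℕ) := {v | ∃ u ∈ R ∪ C, v u ≠ 0} with h𝒰def
  have h𝒰 : IsUpperSet 𝒰 := jj_upper (R ∪ C)
  have hv : Finsupp.single i 1 ∈ 𝒰 := by
    refine ⟨i, Finset.mem_union_left _ hi, ?_⟩
    rw [Finsupp.single_eq_same]
    exact one_ne_zero
  have h𝒰' : IsUpperSet (𝒰 \ {Finsupp.single i 1}) := by
    rintro x y hxy ⟨hx, hx1⟩
    refine ⟨h𝒰 hxy hx, ?_⟩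
    intro hy
    apply hx1
    have hy' : y = Finsupp.single i 1 := hy
    rw [hy'] at hxy
    refine jj_single ?_ ?_ hx
    · intro j hj
      have h1 : x j ≤ (Finsupp.single i 1 : V →₀ ℕ) j := hxy j
      rw [Finsupp.single_eq_of_ne hj] at h1
      omega
    · have h1 : x i ≤ (Finsupp.single i 1 : V →₀ ℕ) i := hxy i
      rw [Finsupp.single_eq_same] at h1
      exact h1
  have hv0 : (Finsupp.single i 1 : V →₀ ℕ) ≠ 0 := by
    intro h
    have h1 := DFunLike.congr_fun h i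
    rw [Finsupp.single_eq_same, Finsupp.zero_apply] at h1
    exact one_ne_zero h1
  have hle : p • (Finsupp.single i 1 : V →₀ ℕ) ≤ w := by
    intro x
    rw [Finsupp.smul_apply, smul_eq_mul]
    by_cases hx : x = i
    · rw [hx, Finsupp.single_eq_same, mul_one]
      exact hi1
    · rw [Finsupp.single_eq_of_ne hx, mul_zero]
      exact Nat.zero_le _
  have hdw : w - p • (Finsupp.single i 1 : V →₀ ℕ) + p • (Finsupp.single i 1 : V →₀ ℕ) = w :=
    tsub_add_cancel_of_le hle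
  have key := piece_eq (K := K) (p := p) (J := ⊥) good_bot h𝒰 hv h𝒰'
    (fun f hf => mem_bot_iff i hf) hv0 (d := w - p • (Finsupp.single i 1 : V →₀ ℕ))
    (by rw [hdw]; exact hd)
  rw [hdw, bot_sup_eq, bot_sup_eq] at key
  have hQ : mI K 𝒰 = nI K C ⊔ nI K R := by
    rw [h𝒰def, ← nI_eq_mI, ← nI_sup_nI, sup_comm]
  rw [hQ] at key
  have hF : ∀ z, Fs p (nI K C) w z = Fs p (mI K (𝒰 \ {Finsupp.single i 1})) w z := by
    intro z
    rw [nI_eq_mI]
    refine Fs_bot_congr hp (jj_upper C) h𝒰' ?_ z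
    intro v' hv'
    have hx : ∀ x, p * v' x ≤ w x := by
      intro x
      have h1 : (p • v') x ≤ w x := hv' x
      rw [Finsupp.smul_apply, smul_eq_mul] at h1
      exact h1
    constructor
    · rintro ⟨j, hj, hvj⟩
      refine ⟨⟨j, Finset.mem_union_right _ hj, hvj⟩, ?_⟩
      intro hc
      have hc' : v' = Finsupp.single i 1 := hc
      rw [hc', Finsupp.single_eq_of_ne] at hvj
      · exact hvj rfl
      · intro hji
        rw [hji] at hj
        exact hiC hj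
    · rintro ⟨h1, h2⟩
      by_contra hc
      apply h2
      have hC : ∀ j ∈ C, v' j = 0 := by
        intro j hj
        by_contra hcj
        exact hc ⟨j, hj, hcj⟩
      refine jj_single ?_ ?_ h1
      · intro x hxi
        have h3 := hx x
        by_cases hxR : x ∈ R
        · have h4 := hs x hxR hxi
          by_contra h5
          have h6 : 1 ≤ v' x := Nat.one_le_iff_ne_zero.2 h5
          have h7 : p * 1 ≤ p * v' x := Nat.mul_le_mul_left p h6
          omega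
        · by_cases hxC : x ∈ C
          · exact hC x hxC
          · rw [hw x hxR hxC] at h3
            have h4 : p * v' x = 0 := Nat.le_zero.1 h3
            rcases Nat.mul_eq_zero.1 h4 with h5 | h5
            · omega
            · exact h5
      · have h3 := hx i
        by_contra h5
        have h6 : 2 ≤ v' i := by omega
        have h7 : p * 2 ≤ p * v' i := Nat.mul_le_mul_left p h6
        omega
  obtain ⟨c1, c2⟩ := jj_congr (Q := nI K C ⊔ nI K R) hF
  rw [c1, c2]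
  exact key.1.trans key.2.symm

end HKDet
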