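import Pool.Agent.Lib.HKDet.KDefs
import Pool.Agent.Lib.FSig.CntT4
import Pool.Agent.Lib.FSig.CntBd1

/-!
# KF1: the fusion sum over the `d` with given sets of large rows and columns

`sw_gF_edge`: `sw_split` at `v` (`FSig/CntBd1.lean`): the inner function `∑_{x < p} gF p (j + p - 1 - 2 x)` telescopes (`Finset.sum_range_sub'`) to `[2p ∣ j + p - 1] - [2p ∣ j - p - 1] = 0`.
`fus_T`. Let `s = A.card`, `c = B.card`. By `sw_gF_edge` the `d` with `barF p d v = p - 1`, i.e. `d v = p - 1`, for some `v` contribute `0`. For the other `d` the function `x = barF p d` has values in `[0, p-2]`, and `d v = 2p-2 - x v` for `v` in `A` or `B`, `d v = x v` otherwise: a bijection between these `d` and the `x` in `[0,p-2]^V` with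
`∑_{rows not A} x - ∑_{rows A} x = ∑_{cols not B} x - ∑_{cols B} x + (2p-2)(c - s)`, i.e. `sd σ x = κ`, `κ = (2p-2) (c - s)`, `σ (inl i) = (i ∈ A)`, `σ (inr j) = (j ∉ B)`; `#{v | σ v} = s + (n - c) =: r`.
`κ + r (p - 2) = (n + c - s) p - 2 n`. If `s < n + c`: `fus_sum2` with `c := n + c - s`, parity: `(n + c - s) - (s + n - c) = 2 (c - s)`. `(-1)^r = (-1)^(s + n + c)`.
If `n + c ≤ s`: there is no `x`: `sd σ x ≥ - r (p-2)` and `κ + r (p-2) = (n + c - s) p - 2n < 0`; and `TT m n p 0 = 0`.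
-/

namespace Pool.HKDet

open _root_.FSig Finset

private theorem kf_tel {V : Type*} [Fintype V] [DecidableEq V] (F : ℤ → ℤ) (d : V → ℕ) (v : V) :
    csw (fun j => F j - F (j - 2)) d
      = csw (fun j => F (j + (d v : ℤ)) - F (j - (d v : ℤ) - 2)) (Function.update d v 0) := by
  rw [sw_split _ d v]
  rw [← sw_sum (range (d v + 1))
    (fun x j => F (j + ((d v : ℤ) - 2 * (x : ℤ))) - F (j + ((d v : ℤ) - 2 * (x : ℤ)) - 2))]
  congr 1
  funext j
  have h := Finset.sum_range_sub' (fun x : ℕ => F (j + ((d v : ℤ) - 2 * (x : ℤ)))) (d v + 1)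
  have h1 : ∀ x ∈ range (d v + 1),
      F (j + ((d v : ℤ) - 2 * (x : ℤ))) - F (j + ((d v : ℤ) - 2 * (x : ℤ)) - 2)
      = F (j + ((d v : ℤ) - 2 * (x : ℤ))) - F (j + ((d v : ℤ) - 2 * ((x + 1 : ℕ) : ℤ))) := by
    intro x _
    have : j + ((d v : ℤ) - 2 * (x : ℤ)) - 2 = j + ((d v : ℤ) - 2 * ((x + 1 : ℕ) : ℤ)) := by
      push_cast
      ring
    rw [this]
  rw [Finset.sum_congr rfl h1, h]
  congr 2
  all_goals
    push_cast
    ring

theorem sw_gF_edge {V : Type*} [Fintype V] [DecidableEq V] (p : ℕ) (hp : 1 ≤ p) (x : V → ℕ)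
    (v : V) (hv : x v = p - 1) : csw (gF p) x = 0 := by
  obtain ⟨F, hF⟩ : ∃ F : ℤ → ℤ, F = fun j => if (2 * p : ℤ) ∣ j then (1 : ℤ) else 0 := ⟨_, rfl⟩
  have h1 : gF p = fun j => F j - F (j - 2) := by
    funext j
    rw [hF]
    rfl
  rw [h1, kf_tel F x v]
  have h2 : (fun j => F (j + (x v : ℤ)) - F (j - (x v : ℤ) - 2)) = fun _ => (0 : ℤ) := by
    funext j
    rw [hv, hF, sub_eq_zero]
    beta_reduce
    have h3 : ((2 * p : ℤ) ∣ j + ((p - 1 : ℕ) : ℤ)) ↔ ((2 * p : ℤ) ∣ j - ((p - 1 : ℕ) : ℤ) - 2) := by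
      rw [Nat.cast_sub hp, Nat.cast_one]
      have h4 : j + ((p : ℤ) - 1) = (j - ((p : ℤ) - 1) - 2) + 2 * p := by ring
      rw [h4]
      exact dvd_add_self_right
    by_cases h5 : (2 * p : ℤ) ∣ j + ((p - 1 : ℕ) : ℤ)
    · rw [if_pos h5, if_pos (h3.1 h5)]
    · rw [if_neg h5, if_neg fun h => h5 (h3.2 h)]
  rw [h2]
  unfold csw
  exact Finset.sum_const_zero

/-- the signs -/
private def kfs {m n : ℕ} (A : Finset (Fin m)) (B : Finset (Fin n)) : Vx m n → Bool :=
  Sum.elim (fun i => decide (i ∈ A)) (fun j => decide (j ∉ B))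

/-- the large entries -/
private def kfb {m n : ℕ} (A : Finset (Fin m)) (B : Finset (Fin n)) : Vx m n → Bool :=
  Sum.elim (fun i => decide (i ∈ A)) (fun j => decide (j ∈ B))

private theorem kfs_card {m n : ℕ} (A : Finset (Fin m)) (B : Finset (Fin n)) :
    (univ.filter fun v : Vx m n => kfs A B v).card = A.card + (n - B.card) := by
  rw [card_filter, Fintype.sum_sum_type]
  unfold kfs
  simp only [Sum.elim_inl, Sum.elim_inr, decide_eq_true_eq]
  rw [← card_filter, ← card_filter]
  congr 1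
  · congr 1
    ext i
    simp
  · have : (univ.filter fun j : Fin n => j ∉ B) = Bᶜ := by
      ext j
      simp
    rw [this, card_compl, Fintype.card_fin]

private theorem kfs_sd {m n p : ℕ} (A : Finset (Fin m)) (B : Finset (Fin n)) (hp : 1 ≤ p)
    (x d : Vx m n → ℕ) (hd : ∀ v, d v ≤ 2 * p - 2)
    (hx : ∀ v, x v = if kfb A B v then 2 * p - 2 - d v else d v) :
    sd (kfs A B) x = (∑ i, (d (Sum.inl i) : ℤ) - ∑ j, (d (Sum.inr j) : ℤ)) +
      (2 * (p : ℤ) - 2) * ((B.card : ℤ) - A.card) := by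
  unfold sd
  rw [Fintype.sum_sum_type]
  have h1 : ∀ i, (if kfs A B (Sum.inl i) then -(x (Sum.inl i) : ℤ) else (x (Sum.inl i) : ℤ)) =
      (d (Sum.inl i) : ℤ) - (if i ∈ A then (2 * (p : ℤ) - 2) else 0) := by
    intro i
    have h2 := hd (Sum.inl i)
    rw [hx (Sum.inl i)]
    unfold kfs kfb
    simp only [Sum.elim_inl, decide_eq_true_eq]
    split_ifs
    · rw [Nat.cast_sub h2, Nat.cast_sub (by omega)]
      push_cast
      ring
    · ring
  have h3 : ∀ j, (if kfs A B (Sum.inr j) then -(x (Sum.inr j) : ℤ) else (x (Sum.inr j) : ℤ)) =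
      -(d (Sum.inr j) : ℤ) + (if j ∈ B then (2 * (p : ℤ) - 2) else 0) := by
    intro j
    have h2 := hd (Sum.inr j)
    rw [hx (Sum.inr j)]
    unfold kfs kfb
    simp only [Sum.elim_inr, decide_eq_true_eq]
    by_cases hj : j ∈ B
    · rw [if_pos hj, if_neg (not_not.2 hj), if_pos hj, Nat.cast_sub h2, Nat.cast_sub (by omega)]
      push_cast
      ring
    · rw [if_neg hj, if_pos hj, if_neg hj]
      ring
  rw [sum_congr rfl fun i _ => h1 i, sum_congr rfl fun j _ => h3 j, sum_sub_distrib,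
    sum_add_distrib, sum_neg_distrib]
  have h4 : ∑ i : Fin m, (if i ∈ A then (2 * (p : ℤ) - 2) else 0) = A.card * (2 * (p : ℤ) - 2) := by
    rw [← sum_filter]
    rw [sum_const, nsmul_eq_mul]
    congr 3
    ext i
    simp
  have h5 : ∑ j : Fin n, (if j ∈ B then (2 * (p : ℤ) - 2) else 0) = B.card * (2 * (p : ℤ) - 2) := by
    rw [← sum_filter]
    rw [sum_const, nsmul_eq_mul]
    congr 3
    ext i
    simp
  rw [h4, h5]
  ring

private theorem kf_key (m n p : ℕ) (hp : 2 ≤ p)
    (A : Finset (Fin m)) (B : Finset (Fin n)) :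
    ∑ d ∈ (bxF m n 0 (2 * p - 2)).filter (fun d =>
        (univ.filter fun i : Fin m => p ≤ d (Sum.inl i)) = A ∧
        (univ.filter fun j : Fin n => p ≤ d (Sum.inr j)) = B), csw (gF p) (barF p d) =
      ∑ x ∈ (Fintype.piFinset fun _ : Vx m n => range (p - 1)).filter
        (fun x => sd (kfs A B) x = (2 * (p : ℤ) - 2) * ((B.card : ℤ) - A.card)),
        csw (gF p) x := by
  rw [← sum_filter_of_ne (p := fun d : Vx m n → ℕ => ∀ v, d v ≠ p - 1)]
  swap
  · intro d _ hne v hv
    apply hne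
    refine sw_gF_edge p (by omega) _ v ?_
    unfold barF
    rw [hv]
    omega
  have hbar : ∀ d : Vx m n → ℕ, (∀ v, d v ≤ 2 * p - 2) → (∀ v, d v ≠ p - 1) →
      (univ.filter fun i : Fin m => p ≤ d (Sum.inl i)) = A →
      (univ.filter fun j : Fin n => p ≤ d (Sum.inr j)) = B →
      ∀ v, (barF p d v = if kfb A B v then 2 * p - 2 - d v else d v) ∧
        ((kfb A B v = true) ↔ p ≤ d v) := by
    intro d h1 h2 h3 h4 v
    have h5 : (kfb A B v = true) ↔ p ≤ d v := by
      rcases v with i | j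
      · unfold kfb
        rw [Sum.elim_inl, decide_eq_true_eq, ← h3]
        simp
      · unfold kfb
        rw [Sum.elim_inr, decide_eq_true_eq, ← h4]
        simp
    refine ⟨?_, h5⟩
    have a1 := h1 v
    have a2 := h2 v
    unfold barF
    by_cases h6 : p ≤ d v
    · rw [if_pos (h5.2 h6)]
      omega
    · rw [if_neg fun h => h6 (h5.1 h)]
      omega
  refine sum_bij' (fun d _ => barF p d)
    (fun x _ => fun v => if kfb A B v then 2 * p - 2 - x v else x v) ?_ ?_ ?_ ?_ ?_
  · intro d hd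
    rw [mem_filter, mem_filter] at hd
    obtain ⟨⟨hb, h3, h4⟩, h2⟩ := hd
    unfold bxF at hb
    rw [mem_filter, Fintype.mem_piFinset] at hb
    have h1 : ∀ v, d v ≤ 2 * p - 2 := fun v => (mem_Icc.1 (hb.1 v)).2
    have h5 := hbar d h1 h2 h3 h4
    rw [mem_filter, Fintype.mem_piFinset]
    refine ⟨fun v => ?_, ?_⟩
    · rw [mem_range]
      have a1 := h1 v
      have a2 := h2 v
      unfold barF
      omega
    · rw [kfs_sd A B (by omega) (barF p d) d h1 fun v => (h5 v).1]
      have h6 := hb.2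
      unfold BalF at h6
      have h7 : ∑ i, (d (Sum.inl i) : ℤ) = ∑ j, (d (Sum.inr j) : ℤ) := by exact_mod_cast h6
      rw [h7]
      ring
  · intro x hx
    rw [mem_filter, Fintype.mem_piFinset] at hx
    obtain ⟨hx1, hx2⟩ := hx
    have hx3 : ∀ v, x v ≤ p - 2 := fun v => by
      have := mem_range.1 (hx1 v)
      omega
    rw [mem_filter, mem_filter]
    unfold bxF
    rw [mem_filter, Fintype.mem_piFinset]
    have hd : ∀ v, (if kfb A B v then 2 * p - 2 - x v else x v) ≤ 2 * p - 2 := fun v => by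
      have := hx3 v
      split_ifs <;> omega
    refine ⟨⟨⟨fun v => ?_, ?_⟩, ?_, ?_⟩, ?_⟩
    · rw [mem_Icc]
      exact ⟨Nat.zero_le _, hd v⟩
    · have h1 := kfs_sd A B (by omega) x (fun v => if kfb A B v then 2 * p - 2 - x v else x v)
        hd (fun v => by
          have := hx3 v
          split_ifs <;> omega)
      rw [hx2] at h1
      unfold BalF
      have h2 : ∑ i, (((if kfb A B (Sum.inl i) then 2 * p - 2 - x (Sum.inl i) else
          x (Sum.inl i) : ℕ)) : ℤ) = ∑ j, (((if kfb A B (Sum.inr j) then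
          2 * p - 2 - x (Sum.inr j) else x (Sum.inr j) : ℕ)) : ℤ) := by linarith
      exact_mod_cast h2
    · ext i
      have := hx3 (Sum.inl i)
      simp only [mem_filter, mem_univ, true_and, kfb, Sum.elim_inl, decide_eq_true_eq]
      by_cases hi : i ∈ A
      · rw [if_pos hi]
        exact ⟨fun _ => hi, fun _ => by omega⟩
      · rw [if_neg hi]
        exact ⟨fun h => by omega, fun h => absurd h hi⟩
    · ext j
      have := hx3 (Sum.inr j)
      simp only [mem_filter, mem_univ, true_and, kfb, Sum.elim_inr, decide_eq_true_eq]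
      by_cases hj : j ∈ B
      · rw [if_pos hj]
        exact ⟨fun _ => hj, fun _ => by omega⟩
      · rw [if_neg hj]
        exact ⟨fun h => by omega, fun h => absurd h hj⟩
    · intro v
      have := hx3 v
      beta_reduce
      split_ifs <;> omega
  · intro d hd
    rw [mem_filter, mem_filter] at hd
    obtain ⟨⟨hb, h3, h4⟩, h2⟩ := hd
    unfold bxF at hb
    rw [mem_filter, Fintype.mem_piFinset] at hb
    have h1 : ∀ v, d v ≤ 2 * p - 2 := fun v => (mem_Icc.1 (hb.1 v)).2
    funext v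
    have h5 := hbar d h1 h2 h3 h4 v
    have a1 := h1 v
    rw [h5.1]
    split_ifs <;> omega
  · intro x hx
    rw [mem_filter, Fintype.mem_piFinset] at hx
    obtain ⟨hx1, hx2⟩ := hx
    funext v
    have := mem_range.1 (hx1 v)
    unfold barF
    beta_reduce
    split_ifs <;> omega
  · intro d _
    rfl

theorem fus_T (m n p : ℕ) (hm : 3 ≤ m) (hn : 3 ≤ n) (hp : 2 * (m + n) < p)
    (A : Finset (Fin m)) (B : Finset (Fin n)) :
    ∑ d ∈ (bxF m n 0 (2 * p - 2)).filter (fun d =>
        (univ.filter fun i : Fin m => p ≤ d (Sum.inl i)) = A ∧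
        (univ.filter fun j : Fin n => p ≤ d (Sum.inr j)) = B), csw (gF p) (barF p d) =
      (-1) ^ (A.card + n + B.card) * TT m n p (n + B.card - A.card) := by
  rw [kf_key m n p (by omega) A B]
  have hBn : B.card ≤ n := by
    have := card_le_univ B
    rwa [Fintype.card_fin] at this
  have hr : ((A.card + (n - B.card) : ℕ) : ℤ) = (A.card : ℤ) + n - B.card := by
    push_cast [Nat.cast_sub hBn]
    ring
  by_cases hs : A.card < n + B.card
  · have h := fus_sum2 m n p hm hn hp (kfs A B) ((2 * (p : ℤ) - 2) * ((B.card : ℤ) - A.card))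
      (n + B.card - A.card) (by omega)
      (by
        rw [kfs_card, hr, Nat.cast_sub hs.le]
        push_cast
        ring)
      (by
        rw [kfs_card, hr, Nat.cast_sub hs.le]
        refine ⟨(B.card : ℤ) - A.card, ?_⟩
        push_cast
        ring)
    rw [h, kfs_card]
    congr 1
    have h2 : A.card + n + B.card = (A.card + (n - B.card)) + 2 * B.card := by omega
    rw [h2, pow_add (-1 : ℤ) (A.card + (n - B.card)) (2 * B.card), pow_mul (-1 : ℤ) 2, neg_one_sq,
      one_pow, mul_one]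
  · have h0 : n + B.card - A.card = 0 := by omega
    have h1 : TT m n p 0 = 0 := by
      unfold TT
      rw [range_zero, sum_empty]
    rw [h0, h1, mul_zero]
    refine sum_eq_zero fun x hx => ?_
    exfalso
    rw [mem_filter, Fintype.mem_piFinset] at hx
    obtain ⟨hx1, hx2⟩ := hx
    have h3 : ∀ v, (if kfs A B v then -((p : ℤ) - 2) else 0) ≤
        (if kfs A B v then -(x v : ℤ) else (x v : ℤ)) := by
      intro v
      have := mem_range.1 (hx1 v)
      split_ifs <;> omega
    have h4 : ∑ v, (if kfs A B v then -((p : ℤ) - 2) else 0) ≤ sd (kfs A B) x :=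
      sum_le_sum fun v _ => h3 v
    rw [← sum_filter, sum_const, nsmul_eq_mul, kfs_card, hr, hx2] at h4
    have h5 : (n : ℤ) + B.card ≤ A.card := by
      push Not at hs
      exact_mod_cast hs
    have h6 : (3 : ℤ) ≤ n := by exact_mod_cast hn
    have h7 : (0 : ℤ) ≤ p := Int.natCast_nonneg _
    nlinarith

end Pool.HKDet
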