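import Pool.Agent.Lib.HKDet.KDefs
import Pool.Agent.Lib.FSig.CntPair

/-!
# KP1: pairs `(d, q)` with unbalanced `d`

`pair_sum'` is `FSig.pair_sum` (file `FSig/CntPair.lean`, copy the proof) for the functions `d` with row sum minus column sum `κ` instead of `0`.

Proof. `(d, q) ↦ (s, t)`, `s = min d (p-1) - q`, `t = d - s` is a bijection from `{(d, q) : d ≤ 2p-2, q ≤ barF p d}` to `[0,p-1]^2` at every vector, and `barF p d - 2 q = s - t`. `u = s` on the rows, `t` on the columns, `u' = t` on the rows, `s` on the columns.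
`df d = ∑_rows (s + t) - ∑_cols (s + t) = df u + df u'` and `wq (barF p d) q = ∑ (s - t) = df u - df u'`.
-/

namespace Pool.HKDet

open _root_.FSig Finset

/-- functions with values in `[0, 2p-2]` with row sum minus column sum `κ` -/
def bxK (m n p : ℕ) (κ : ℤ) : Finset (Vx m n → ℕ) :=
  (Fintype.piFinset fun _ => range (2 * p - 1)).filter fun d => df d = κ

private def kpS {m n : ℕ} (p : ℕ) (d q : Vx m n → ℕ) (v : Vx m n) : ℕ := min (d v) (p - 1) - q v

private def kpU {m n : ℕ} (s t : Vx m n → ℕ) : Vx m n → ℕ :=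
  Sum.elim (fun i => s (Sum.inl i)) (fun j => t (Sum.inr j))

private theorem kpU_inl {m n : ℕ} (s t : Vx m n → ℕ) (i) : kpU s t (Sum.inl i) = s (Sum.inl i) := rfl

private theorem kpU_inr {m n : ℕ} (s t : Vx m n → ℕ) (i) : kpU s t (Sum.inr i) = t (Sum.inr i) := rfl

theorem pair_sum' (m n p : ℕ) (hp : 1 ≤ p) (κ : ℤ) (g : ℤ → ℤ) :
    ∑ d ∈ bxK m n p κ, csw g (barF p d) =
      ∑ u ∈ sq m n p, ∑ u' ∈ sq m n p,
        if df u + df u' = κ then g (df u - df u') else 0 := by
  classical
  rw [← Finset.sum_product', ← Finset.sum_filter]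
  simp only [csw]
  rw [Finset.sum_sigma']
  refine Finset.sum_nbij'
    (fun x => (kpU (kpS p x.1 x.2) (fun v => x.1 v - kpS p x.1 x.2 v),
      kpU (fun v => x.1 v - kpS p x.1 x.2 v) (kpS p x.1 x.2)))
    (fun y => ⟨fun v => y.1 v + y.2 v,
      fun v => min (y.1 v + y.2 v) (p - 1) - kpU y.1 y.2 v⟩) ?_ ?_ ?_ ?_ ?_
  · rintro ⟨d, q⟩ h
    simp only [Finset.mem_sigma, bxK, Finset.mem_filter, Fintype.mem_piFinset, blw,
      Finset.mem_range, barF] at h
    obtain ⟨⟨h1, h2⟩, h3⟩ := h
    simp only [Finset.mem_filter, Finset.mem_product, _root_.FSig.sq, Fintype.mem_piFinset, Finset.mem_range]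
    refine ⟨⟨?_, ?_⟩, ?_⟩
    · rintro (i | j)
      · rw [kpU_inl]; have := h1 (Sum.inl i); have := h3 (Sum.inl i); unfold kpS; omega
      · rw [kpU_inr]; have := h1 (Sum.inr j); have := h3 (Sum.inr j); unfold kpS; omega
    · rintro (i | j)
      · rw [kpU_inl]; have := h1 (Sum.inl i); have := h3 (Sum.inl i); unfold kpS; omega
      · rw [kpU_inr]; have := h1 (Sum.inr j); have := h3 (Sum.inr j); unfold kpS; omega
    · simp only [df] at h2
      simp only [df, kpU_inl, kpU_inr]
      have e1 : ∑ i, ((kpS p d q (Sum.inl i) : ℕ) : ℤ) +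
          ∑ i, ((d (Sum.inl i) - kpS p d q (Sum.inl i) : ℕ) : ℤ) =
          ∑ i, (d (Sum.inl i) : ℤ) := by
        rw [← Finset.sum_add_distrib]
        refine Finset.sum_congr rfl fun i _ => ?_
        unfold kpS
        omega
      have e2 : ∑ i, ((kpS p d q (Sum.inr i) : ℕ) : ℤ) +
          ∑ i, ((d (Sum.inr i) - kpS p d q (Sum.inr i) : ℕ) : ℤ) =
          ∑ i, (d (Sum.inr i) : ℤ) := by
        rw [← Finset.sum_add_distrib]
        refine Finset.sum_congr rfl fun i _ => ?_
        unfold kpS
        omega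
      linarith
  · rintro ⟨u, u'⟩ h
    simp only [Finset.mem_filter, Finset.mem_product, _root_.FSig.sq, Fintype.mem_piFinset,
      Finset.mem_range] at h
    obtain ⟨⟨h1, h2⟩, h3⟩ := h
    simp only [Finset.mem_sigma, bxK, Finset.mem_filter, Fintype.mem_piFinset, blw,
      Finset.mem_range, barF]
    refine ⟨⟨?_, ?_⟩, ?_⟩
    · intro v
      have := h1 v; have := h2 v; omega
    · simp only [df] at h3 ⊢
      have e1 : ∑ i, ((u (Sum.inl i) + u' (Sum.inl i) : ℕ) : ℤ) =
          ∑ i, (u (Sum.inl i) : ℤ) + ∑ i, (u' (Sum.inl i) : ℤ) := by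
        rw [← Finset.sum_add_distrib]
        exact Finset.sum_congr rfl fun i _ => by push_cast; ring
      have e2 : ∑ i, ((u (Sum.inr i) + u' (Sum.inr i) : ℕ) : ℤ) =
          ∑ i, (u (Sum.inr i) : ℤ) + ∑ i, (u' (Sum.inr i) : ℤ) := by
        rw [← Finset.sum_add_distrib]
        exact Finset.sum_congr rfl fun i _ => by push_cast; ring
      rw [e1, e2]
      linarith
    · rintro (i | j)
      · rw [kpU_inl]; have := h1 (Sum.inl i); have := h2 (Sum.inl i); omega
      · rw [kpU_inr]; have := h1 (Sum.inr j); have := h2 (Sum.inr j); omega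
  · rintro ⟨d, q⟩ h
    simp only [Finset.mem_sigma, bxK, Finset.mem_filter, Fintype.mem_piFinset, blw,
      Finset.mem_range, barF] at h
    obtain ⟨⟨h1, h2⟩, h3⟩ := h
    have hd : (fun v => kpU (kpS p d q) (fun v => d v - kpS p d q v) v +
        kpU (fun v => d v - kpS p d q v) (kpS p d q) v) = d := by
      funext v
      rcases v with i | j
      · rw [kpU_inl, kpU_inl]; unfold kpS; omega
      · rw [kpU_inr, kpU_inr]; unfold kpS; omega
    have hq : (fun v => min (kpU (kpS p d q) (fun v => d v - kpS p d q v) v +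
        kpU (fun v => d v - kpS p d q v) (kpS p d q) v) (p - 1) -
        kpU (kpU (kpS p d q) (fun v => d v - kpS p d q v))
          (kpU (fun v => d v - kpS p d q v) (kpS p d q)) v) = q := by
      funext v
      have hv := congrFun hd v
      rw [hv]
      rcases v with i | j
      · rw [kpU_inl, kpU_inl]
        have := h1 (Sum.inl i); have := h3 (Sum.inl i); unfold kpS; omega
      · rw [kpU_inr, kpU_inr]
        have := h1 (Sum.inr j); have := h3 (Sum.inr j); unfold kpS; omega
    simp only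
    rw [hq, hd]
  · rintro ⟨u, u'⟩ h
    simp only [Finset.mem_filter, Finset.mem_product, _root_.FSig.sq, Fintype.mem_piFinset,
      Finset.mem_range] at h
    obtain ⟨⟨h1, h2⟩, h3⟩ := h
    refine Prod.ext ?_ ?_
    · funext v
      rcases v with i | j
      · simp only [kpU_inl, kpS]
        have := h1 (Sum.inl i); have := h2 (Sum.inl i); omega
      · simp only [kpU_inr, kpS]
        have := h1 (Sum.inr j); have := h2 (Sum.inr j); omega
    · funext v
      rcases v with i | j
      · simp only [kpU_inl, kpS]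
        have := h1 (Sum.inl i); have := h2 (Sum.inl i); omega
      · simp only [kpU_inr, kpS]
        have := h1 (Sum.inr j); have := h2 (Sum.inr j); omega
  · rintro ⟨d, q⟩ h
    simp only [Finset.mem_sigma, bxK, Finset.mem_filter, Fintype.mem_piFinset, blw,
      Finset.mem_range, barF] at h
    obtain ⟨⟨h1, h2⟩, h3⟩ := h
    congr 1
    simp only [df, wq, barF, kpU_inl, kpU_inr]
    rw [Fintype.sum_sum_type]
    have e0 : ∀ v, (((min (d v) (2 * p - 2 - d v) : ℕ) : ℤ) - 2 * (q v : ℤ)) =
        2 * ((kpS p d q v : ℕ) : ℤ) - (d v : ℤ) := by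
      intro v
      have := h1 v; have := h3 v
      unfold kpS
      omega
    have e1 : ∀ v, (((d v - kpS p d q v : ℕ)) : ℤ) = (d v : ℤ) - ((kpS p d q v : ℕ) : ℤ) := by
      intro v
      unfold kpS
      omega
    simp only [e0, e1, Finset.sum_sub_distrib, ← Finset.mul_sum]
    linarith

end Pool.HKDet
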