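import Pool.Agent.Lib.HKDet.KP1
import Pool.Agent.Lib.FSig.CntW

/-!
# KP2: the sum of `gM`

Proof. `pair_sum'` with `κ = p (b - a)`, `g = gM p (a + b)`. Let `k = df u`, `df u' = κ - k`, `j = df u - df u' = 2 k - κ`. For every integer `c`: `2p ∣ j + 2 c - p (a + b)` and `p (a + b + 2) ≤ j + 2 c` iff `2 k + 2 c - p (b - a) = p (a + b) + 2 p l` with `l ≥ 1`, iff `k + c = p (b + l)` with `l ≥ 1`.
(`c = 1, 0, -1` in the three terms of `gM`.) As `u' ∈ sq m n p`, `df u' ≥ -n (p - 1)` (`df_lower`), and `df u' = p (b - a) - k = -p (a + l) + c ≥ -n (p-1)` forces `p (a + l) ≤ n (p - 1) + 1 < n p` (`n ≥ 2`), so `a + l < n`, `l < n - a`. So for all pairs with `df u + df u' = κ`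
`gM p (a+b) (df u - df u') = ∑_{l ∈ Ico 1 (n - a)} ([k = p (b + l) - 1] - 2 [k = p (b + l)] + [k = p (b + l) + 1])` (for given `k` at most one `l`; both sides vanish if there is none; if `n ≤ a` the right side is the empty sum and the left side vanishes).
Exchange the sums; `∑_{u, u'} [df u + df u' = κ ∧ df u = k] = DD k * DD (κ - k)` (compare `sum_pair_eq`), `κ - (p (b + l) + c) = -p (a + l) - c`.
`sw_gM_zero` (direct): let `x = barF p d`, `q ≤ x`, `j = wq x q ≤ ∑_rows x + ∑_cols x`. As `x v ≤ d v` and `x v ≤ 2p-2 - d v`: `j ≤ ∑_rows (2p-2 - d) + ∑_cols d = m (2p-2) - p (b - a)` and `j ≤ ∑_rows d + ∑_cols (2p-2 - d) = n (2p-2) + p (b - a)`.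
If `gM p (a+b) j ≠ 0` then `p (a + b + 2) ≤ j + 2`, so `p (b + 1) ≤ m (p - 1) + 1 < m p` and `p (a + 1) ≤ n (p - 1) + 1 < n p` (`m, n ≥ 2`), so `b + 1 < m`, `a + 1 < n`.
-/

namespace Pool.HKDet

open _root_.FSig Finset

private theorem kp_pair (m n p : ℕ) (κ k : ℤ) :
    (∑ u ∈ sq m n p, ∑ u' ∈ sq m n p, if df u + df u' = κ ∧ df u = k then (1 : ℤ) else 0) =
      DD m n p k * DD m n p (κ - k) := by
  have h : ∀ c : ℤ, DD m n p c = ∑ u ∈ sq m n p, if df u = c then (1 : ℤ) else 0 := by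
    intro c
    unfold DD
    rw [Finset.sum_boole]
  rw [h, h, Finset.sum_mul_sum]
  refine Finset.sum_congr rfl fun u _ => Finset.sum_congr rfl fun u' _ => ?_
  by_cases h1 : df u = k
  · by_cases h2 : df u' = κ - k
    · rw [if_pos h1, if_pos h2, if_pos ⟨by omega, h1⟩, one_mul]
    · rw [if_neg h2, mul_zero, if_neg]
      rintro ⟨h3, -⟩
      omega
  · rw [if_neg h1, zero_mul, if_neg fun h3 => h1 h3.2]

private theorem kp_ind (n p a b : ℕ) (hn : 2 ≤ n) (hp : 3 ≤ p) (K J : ℤ)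
    (hJ : J = 2 * K - (p : ℤ) * ((b : ℤ) - a))
    (hK : -((n : ℤ) * ((p : ℤ) - 1)) - 1 ≤ (p : ℤ) * ((b : ℤ) - a) - K) :
    (if (2 * p : ℤ) ∣ J - p * ((a + b : ℕ) : ℤ) ∧ (p : ℤ) * (((a + b : ℕ) : ℤ) + 2) ≤ J
      then (1 : ℤ) else 0) =
      ∑ l ∈ Ico 1 (n - a), if K = (p : ℤ) * (b + l) then (1 : ℤ) else 0 := by
  have hp' : (0 : ℤ) < p := by exact_mod_cast (by omega : 0 < p)
  have hn' : (2 : ℤ) ≤ n := by exact_mod_cast hn
  subst hJ
  push_cast
  by_cases hc : (2 * p : ℤ) ∣ 2 * K - (p : ℤ) * ((b : ℤ) - a) - p * (a + b) ∧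
      (p : ℤ) * ((a : ℤ) + b + 2) ≤ 2 * K - (p : ℤ) * ((b : ℤ) - a)
  · rw [if_pos hc]
    obtain ⟨⟨t, ht⟩, h2⟩ := hc
    have hKt : K = (p : ℤ) * (b + t) := by linarith
    have ht1 : 1 ≤ t := by
      by_contra hlt
      have h3 : (p : ℤ) * t ≤ (p : ℤ) * 0 := mul_le_mul_of_nonneg_left (by omega) hp'.le
      nlinarith
    have ht2 : (a : ℤ) + t < n := by
      have h3 : (p : ℤ) * (a + t) < (p : ℤ) * n := by nlinarith
      exact lt_of_mul_lt_mul_left h3 hp'.le
    rw [Finset.sum_eq_single t.toNat]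
    · rw [if_pos]
      rw [hKt, Int.toNat_of_nonneg (by omega)]
    · intro l _ hl
      rw [if_neg]
      intro h5
      rw [hKt] at h5
      have h6 := mul_left_cancel₀ hp'.ne' h5
      omega
    · intro h5
      exfalso
      apply h5
      rw [Finset.mem_Ico]
      omega
  · rw [if_neg hc]
    symm
    refine Finset.sum_eq_zero fun l hl => ?_
    rw [if_neg]
    intro h5
    apply hc
    have hl1 : (1 : ℤ) ≤ l := by exact_mod_cast (Finset.mem_Ico.1 hl).1
    refine ⟨⟨l, ?_⟩, ?_⟩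
    · rw [h5]
      ring
    · rw [h5]
      nlinarith

theorem sum_gM (m n p a b : ℕ) (hm : 2 ≤ m) (hn : 2 ≤ n) (hp : 3 ≤ p) :
    ∑ d ∈ bxK m n p ((p : ℤ) * ((b : ℤ) - a)), csw (gM p (a + b)) (barF p d) =
      ∑ l ∈ Ico 1 (n - a),
        (DD m n p ((p : ℤ) * (b + l) - 1) * DD m n p (-((p : ℤ) * (a + l)) + 1)
          - 2 * (DD m n p ((p : ℤ) * (b + l)) * DD m n p (-((p : ℤ) * (a + l))))
          + DD m n p ((p : ℤ) * (b + l) + 1) * DD m n p (-((p : ℤ) * (a + l)) - 1)) := by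
  rw [pair_sum' m n p (by omega)]
  have e1 : ∀ u ∈ sq m n p, ∀ u' ∈ sq m n p,
      (if df u + df u' = (p : ℤ) * ((b : ℤ) - a) then gM p (a + b) (df u - df u') else 0) =
      ∑ l ∈ Ico 1 (n - a),
        ((if df u + df u' = (p : ℤ) * ((b : ℤ) - a) ∧ df u = (p : ℤ) * (b + l) - 1
            then (1 : ℤ) else 0)
          - 2 * (if df u + df u' = (p : ℤ) * ((b : ℤ) - a) ∧ df u = (p : ℤ) * (b + l)
            then (1 : ℤ) else 0)
          + (if df u + df u' = (p : ℤ) * ((b : ℤ) - a) ∧ df u = (p : ℤ) * (b + l) + 1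
            then (1 : ℤ) else 0)) := by
    intro u hu u' hu'
    by_cases h : df u + df u' = (p : ℤ) * ((b : ℤ) - a)
    · rw [if_pos h]
      have h2 := df_lower hu'
      have i1 := kp_ind n p a b hn hp (df u + 1) (df u - df u' + 2) (by linarith) (by linarith)
      have i2 := kp_ind n p a b hn hp (df u) (df u - df u') (by linarith) (by linarith)
      have i3 := kp_ind n p a b hn hp (df u - 1) (df u - df u' - 2) (by linarith) (by linarith)
      unfold gM
      rw [i1, i2, i3]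
      simp only [h, true_and]
      rw [Finset.mul_sum, ← Finset.sum_sub_distrib, ← Finset.sum_add_distrib]
      refine Finset.sum_congr rfl fun l _ => ?_
      have a1 : (df u + 1 = (p : ℤ) * (b + l)) ↔ df u = (p : ℤ) * (b + l) - 1 := by
        constructor <;> intro h <;> linarith
      have a2 : (df u - 1 = (p : ℤ) * (b + l)) ↔ df u = (p : ℤ) * (b + l) + 1 := by
        constructor <;> intro h <;> linarith
      simp only [a1, a2]
    · rw [if_neg h]
      symm
      refine Finset.sum_eq_zero fun l _ => ?_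
      simp only [h, false_and, if_false, mul_zero, add_zero, sub_zero]
  rw [Finset.sum_congr rfl fun u hu => Finset.sum_congr rfl fun u' hu' => e1 u hu u' hu']
  rw [Finset.sum_congr rfl fun u _ => Finset.sum_comm, Finset.sum_comm]
  refine Finset.sum_congr rfl fun l _ => ?_
  simp only [Finset.sum_sub_distrib, Finset.sum_add_distrib, ← Finset.mul_sum]
  rw [kp_pair, kp_pair, kp_pair]
  have c1 : (p : ℤ) * ((b : ℤ) - a) - ((p : ℤ) * (b + l) - 1) = -((p : ℤ) * (a + l)) + 1 := by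
    ring
  have c2 : (p : ℤ) * ((b : ℤ) - a) - (p : ℤ) * (b + l) = -((p : ℤ) * (a + l)) := by
    ring
  have c3 : (p : ℤ) * ((b : ℤ) - a) - ((p : ℤ) * (b + l) + 1) = -((p : ℤ) * (a + l)) - 1 := by
    ring
  rw [c1, c2, c3]

private theorem gM_zero (p B : ℕ) (j : ℤ) (h : j + 2 < (p : ℤ) * ((B : ℤ) + 2)) :
    gM p B j = 0 := by
  unfold gM
  rw [if_neg fun h' => absurd h'.2 (by linarith), if_neg fun h' => absurd h'.2 (by linarith),
    if_neg fun h' => absurd h'.2 (by linarith)]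
  norm_num

/-- every single term vanishes if `a` or `b` is large -/
theorem sw_gM_zero (m n p a b : ℕ) (hm : 2 ≤ m) (hn : 2 ≤ n) (hp : 3 ≤ p)
    (hab : n ≤ a + 1 ∨ m ≤ b + 1) (d : Vx m n → ℕ) (hd : d ∈ bxK m n p ((p : ℤ) * ((b : ℤ) - a))) :
    csw (gM p (a + b)) (barF p d) = 0 := by
  have hp' : (0 : ℤ) < p := by exact_mod_cast (by omega : 0 < p)
  unfold csw
  refine Finset.sum_eq_zero fun q _ => gM_zero _ _ _ ?_
  unfold bxK at hd
  rw [Finset.mem_filter, Fintype.mem_piFinset] at hd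
  obtain ⟨h1, h2⟩ := hd
  have hd1 : ∀ v, d v ≤ 2 * p - 2 := by
    intro v
    have := Finset.mem_range.1 (h1 v)
    omega
  unfold df at h2
  have hw : wq (barF p d) q ≤ ∑ i, ((barF p d (Sum.inl i) : ℕ) : ℤ) +
      ∑ j, ((barF p d (Sum.inr j) : ℕ) : ℤ) := by
    unfold wq
    rw [← Fintype.sum_sum_type (fun v => ((barF p d v : ℕ) : ℤ))]
    refine Finset.sum_le_sum fun v _ => ?_
    have : (0 : ℤ) ≤ (q v : ℤ) := Int.natCast_nonneg _
    linarith
  push_cast
  rcases hab with hab | hab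
  · have b1 : ∑ i, ((barF p d (Sum.inl i) : ℕ) : ℤ) ≤ ∑ i, (d (Sum.inl i) : ℤ) := by
      refine Finset.sum_le_sum fun v _ => ?_
      unfold barF
      have := hd1 (Sum.inl v)
      omega
    have b2 : ∑ j, ((barF p d (Sum.inr j) : ℕ) : ℤ) ≤
        (n : ℤ) * (2 * p - 2) - ∑ j, (d (Sum.inr j) : ℤ) := by
      have b3 : ∑ j, ((barF p d (Sum.inr j) : ℕ) : ℤ) ≤
          ∑ j : Fin n, ((2 * (p : ℤ) - 2) - (d (Sum.inr j) : ℤ)) := by
        refine Finset.sum_le_sum fun v _ => ?_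
        unfold barF
        have := hd1 (Sum.inr v)
        omega
      rw [Finset.sum_sub_distrib, Finset.sum_const, Finset.card_univ, Fintype.card_fin,
        nsmul_eq_mul] at b3
      exact b3
    have hab' : (n : ℤ) ≤ a + 1 := by exact_mod_cast hab
    have hn' : (2 : ℤ) ≤ n := by exact_mod_cast hn
    have b4 : (p : ℤ) * n ≤ (p : ℤ) * (a + 1) := mul_le_mul_of_nonneg_left hab' hp'.le
    nlinarith
  · have b1 : ∑ j, ((barF p d (Sum.inr j) : ℕ) : ℤ) ≤ ∑ j, (d (Sum.inr j) : ℤ) := by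
      refine Finset.sum_le_sum fun v _ => ?_
      unfold barF
      have := hd1 (Sum.inr v)
      omega
    have b2 : ∑ i, ((barF p d (Sum.inl i) : ℕ) : ℤ) ≤
        (m : ℤ) * (2 * p - 2) - ∑ i, (d (Sum.inl i) : ℤ) := by
      have b3 : ∑ i, ((barF p d (Sum.inl i) : ℕ) : ℤ) ≤
          ∑ i : Fin m, ((2 * (p : ℤ) - 2) - (d (Sum.inl i) : ℤ)) := by
        refine Finset.sum_le_sum fun v _ => ?_
        unfold barF
        have := hd1 (Sum.inl v)
        omega
      rw [Finset.sum_sub_distrib, Finset.sum_const, Finset.card_univ, Fintype.card_fin,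
        nsmul_eq_mul] at b3
      exact b3
    have hab' : (m : ℤ) ≤ b + 1 := by exact_mod_cast hab
    have hm' : (2 : ℤ) ≤ m := by exact_mod_cast hm
    have b4 : (p : ℤ) * m ≤ (p : ℤ) * (b + 1) := mul_le_mul_of_nonneg_left hab' hp'.le
    nlinarith

end Pool.HKDet
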