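import Pool.Agent.Lib.HKDet.KDefs
import Pool.Agent.Lib.FSig.CntGF

/-!
# KX1: the number of `u` with row sum minus column sum `k`, rows unbounded

`DX m n p B k` is the number of `u : Vx m n → ℕ` with `u (inl i) ≤ B`, `u (inr j) ≤ p - 1` and `df u = k`.

Proof of `DX_eq`. Let `N = m + n`, `s = n p - n + e - 1` (a natural number). Reflect the columns, `u (inr j) ↦ p - 1 - u (inr j)`: `DX m n p B (e - 1)` is the number of `y` with `y (inl i) ≤ B`, `y (inr j) ≤ p - 1` and `∑ y = s`
(compare `DD_box` in `FSig/CntD.lean`). Split `y = Sum.elim a b` (`Fintype.sum_sum_type`; bijection `y ↦ (y ∘ inl, y ∘ inr)`): the number is `∑_{(x, z) ∈ antidiagonal s} #{a : Fin m → [0,B], ∑ a = x} * #{b : Fin n → [0,p-1], ∑ b = z}`.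
`card_box` (in `CntGF`, with `p := B + 1` for the rows): as `x ≤ s ≤ n p ≤ B` only the term `i = 0` is present and the first factor is `binom(x + m - 1, m - 1)`; the second factor is `∑_{i ≤ n} (-1)^i binom(n,i) [p i ≤ z] binom(z - p i + n - 1, n - 1)`.
Exchange the sums: for `p i ≤ s` `∑_{x + z = s, p i ≤ z} binom(x + m - 1, m - 1) binom(z - p i + n - 1, n - 1) = binom(s - p i + N - 1, N - 1)` (coefficients of `(1-X)^{-m} (1-X)^{-n} = (1-X)^{-(m+n)}`: `PowerSeries.invOneSubPow`,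
or coefficient-wise with power series as in `CntGF`; alternatively avoid the convolution: the whole count is the coefficient of `X^s` in `A_(B+1)^m A_p^n`, `A_L = ∑_{k<L} X^k`, and `A_p = (1 - X^p) * A`, `A = ∑ X^k`, and `A_(B+1)` may be replaced by `A`, as `s ≤ B`; then `coeff_gf` with `c = 1`, `N := n`, `G = A^(m+n)`).
`p i ≤ s` iff `i < n` (`i = n`: `p n > n p - n + e - 1`, since `e ≤ 2 < n + 1`; `i < n`: `p ≥ n`). Finally `s - p i + N - 1 = (n - i) p + (m - 2) + e`, so the term is `pb m n p (n - i) e`; the sum over `range (n + 1)` is the sum over `range n`, the term `i = n` being `0`.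
-/

namespace Pool.HKDet

open _root_.FSig Finset

/-- rows in `[0, B]`, columns in `[0, p-1]` -/
def cubeX (m n p B : ℕ) : Finset (Vx m n → ℕ) :=
  Fintype.piFinset fun v : Vx m n => Sum.elim (fun _ => range (B + 1)) (fun _ => range p) v

/-- the number of `u` with rows in `[0, B]`, columns in `[0, p-1]`, row sum minus column sum `k` -/
def DX (m n p B : ℕ) (k : ℤ) : ℤ := (((cubeX m n p B).filter fun u => df u = k).card : ℤ)

private lemma kx1_gf (V : Type*) [Fintype V] [DecidableEq V] (L : V → ℕ) (s : ℕ) :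
    (((Fintype.piFinset fun v : V => range (L v)).filter (fun y => ∑ v, y v = s)).card : ℤ) =
      PowerSeries.coeff s (∏ v, PowerSeries.mk fun k => if k < L v then (1 : ℤ) else 0) := by
  have h1 : ∀ v : V, (PowerSeries.mk fun k => if k < L v then (1 : ℤ) else 0) =
      ((∑ k ∈ range (L v), Polynomial.X ^ k : Polynomial ℤ) : PowerSeries ℤ) := by
    intro v
    ext n
    rw [PowerSeries.coeff_mk, Polynomial.coeff_coe, Polynomial.finsetSum_coeff]
    simp only [Polynomial.coeff_X_pow]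
    rw [Finset.sum_ite_eq]
    simp only [Finset.mem_range]
  have h3 : (∏ v, PowerSeries.mk fun k => if k < L v then (1 : ℤ) else 0) =
      ((∏ v, ∑ k ∈ range (L v), Polynomial.X ^ k : Polynomial ℤ) : PowerSeries ℤ) := by
    rw [Finset.prod_congr rfl fun v _ => h1 v]
    exact (map_prod (Polynomial.coeToPowerSeries.ringHom (R := ℤ)) _ _).symm
  rw [h3, Polynomial.coeff_coe]
  have h2 : (∏ v, ∑ k ∈ range (L v), Polynomial.X ^ k : Polynomial ℤ) =
      ∑ y ∈ Fintype.piFinset fun v : V => range (L v), Polynomial.X ^ (∑ v, y v) := by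
    rw [Finset.prod_univ_sum]
    refine Finset.sum_congr rfl fun y _ => ?_
    rw [Finset.prod_pow_eq_pow_sum]
  rw [h2, Polynomial.finsetSum_coeff]
  simp only [Polynomial.coeff_X_pow]
  rw [Finset.card_filter]
  push_cast
  refine Finset.sum_congr rfl fun y _ => ?_
  by_cases h : ∑ v, y v = s
  · rw [if_pos h, if_pos h.symm]
  · rw [if_neg h, if_neg (fun h' => h h'.symm)]

private lemma kx1_series (p : ℕ) :
    (PowerSeries.mk fun k => if k < p then (1 : ℤ) else 0) =
      (1 - PowerSeries.C (1 : ℤ) * PowerSeries.X ^ p) * PowerSeries.mk 1 := by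
  ext n
  rw [map_one, one_mul, sub_mul, one_mul, map_sub, PowerSeries.coeff_mk, PowerSeries.coeff_mk,
    PowerSeries.coeff_X_pow_mul']
  by_cases h : p ≤ n
  · rw [if_neg (not_lt.mpr h), if_pos h]
    simp
  · rw [if_pos (not_le.mp h), if_neg h]
    simp

private def kx1_rf {m n : ℕ} (p : ℕ) (u : Vx m n → ℕ) : Vx m n → ℕ :=
  Sum.elim (fun i => u (Sum.inl i)) fun j => p - 1 - u (Sum.inr j)

private lemma kx1_mem {m n p B : ℕ} {u : Vx m n → ℕ} :
    u ∈ cubeX m n p B ↔ (∀ i, u (Sum.inl i) < B + 1) ∧ ∀ j, u (Sum.inr j) < p := by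
  unfold cubeX
  rw [Fintype.mem_piFinset]
  constructor
  · intro h
    exact ⟨fun i => Finset.mem_range.1 (h (Sum.inl i)), fun j => Finset.mem_range.1 (h (Sum.inr j))⟩
  · rintro ⟨h1, h2⟩ (i | j)
    · exact Finset.mem_range.2 (h1 i)
    · exact Finset.mem_range.2 (h2 j)

private lemma kx1_rf_mem {m n p B : ℕ} {u : Vx m n → ℕ} (hp : 1 ≤ p) (hu : u ∈ cubeX m n p B) :
    kx1_rf p u ∈ cubeX m n p B := by
  rw [kx1_mem] at hu ⊢
  refine ⟨fun i => hu.1 i, fun j => ?_⟩
  show p - 1 - u (Sum.inr j) < p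
  omega

private lemma kx1_rf_rf {m n p B : ℕ} {u : Vx m n → ℕ} (hu : u ∈ cubeX m n p B) :
    kx1_rf p (kx1_rf p u) = u := by
  rw [kx1_mem] at hu
  funext v
  rcases v with i | j
  · rfl
  · show p - 1 - (p - 1 - u (Sum.inr j)) = u (Sum.inr j)
    have := hu.2 j
    omega

private lemma kx1_sum {m n p B : ℕ} {u : Vx m n → ℕ} (hu : u ∈ cubeX m n p B) :
    ((∑ v, kx1_rf p u v : ℕ) : ℤ) = df u + n * ((p : ℤ) - 1) := by
  rw [kx1_mem] at hu
  rw [Fintype.sum_sum_type]
  push_cast
  have e1 : ∑ j : Fin n, ((kx1_rf p u (Sum.inr j) : ℕ) : ℤ) =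
      ∑ j : Fin n, (((p : ℤ) - 1) - (u (Sum.inr j) : ℤ)) := by
    refine Finset.sum_congr rfl fun j _ => ?_
    show ((p - 1 - u (Sum.inr j) : ℕ) : ℤ) = _
    have := hu.2 j
    omega
  rw [e1, Finset.sum_sub_distrib, Finset.sum_const, Finset.card_univ, Fintype.card_fin,
    nsmul_eq_mul]
  unfold df
  have e2 : ∑ i : Fin m, ((kx1_rf p u (Sum.inl i) : ℕ) : ℤ) =
      ∑ i : Fin m, (u (Sum.inl i) : ℤ) := rfl
  rw [e2]
  ring

private lemma kx1_box (m n p B s : ℕ) (hp : 1 ≤ p) (k : ℤ) (hs : (s : ℤ) = k + n * (p - 1)) :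
    DX m n p B k = (((cubeX m n p B).filter fun y => ∑ v, y v = s).card : ℤ) := by
  unfold DX
  congr 1
  refine Finset.card_nbij' (kx1_rf p) (kx1_rf p) ?_ ?_ ?_ ?_
  · intro u hu
    rw [Finset.mem_coe, Finset.mem_filter] at hu ⊢
    refine ⟨kx1_rf_mem hp hu.1, ?_⟩
    have := kx1_sum hu.1
    rw [hu.2] at this
    have h2 : ((∑ v, kx1_rf p u v : ℕ) : ℤ) = (s : ℤ) := by rw [this, hs]
    exact_mod_cast h2
  · intro u hu
    rw [Finset.mem_coe, Finset.mem_filter] at hu ⊢
    refine ⟨kx1_rf_mem hp hu.1, ?_⟩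
    have := kx1_sum (kx1_rf_mem hp hu.1)
    rw [kx1_rf_rf hu.1, hu.2] at this
    linarith
  · intro u hu
    rw [Finset.mem_coe, Finset.mem_filter] at hu
    exact kx1_rf_rf hu.1
  · intro u hu
    rw [Finset.mem_coe, Finset.mem_filter] at hu
    exact kx1_rf_rf hu.1

private lemma kx1_count (m n p B s : ℕ) (hm : 3 ≤ m) (hs : s ≤ B) :
    (((cubeX m n p B).filter fun y => ∑ v, y v = s).card : ℤ) =
      ∑ i ∈ range (n + 1), (-1) ^ i * (n.choose i : ℤ) *
        (if p * i ≤ s then ((s - p * i + (m + n) - 1).choose (m + n - 1) : ℤ) else 0) := by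
  have e0 : cubeX m n p B = Fintype.piFinset fun v : Vx m n =>
      range (Sum.elim (fun _ : Fin m => B + 1) (fun _ : Fin n => p) v) := by
    unfold cubeX
    congr 1
    funext v
    rcases v with i | j
    · rfl
    · rfl
  rw [e0, kx1_gf]
  have e1 : (∏ v : Vx m n, PowerSeries.mk fun k =>
      if k < Sum.elim (fun _ : Fin m => B + 1) (fun _ : Fin n => p) v then (1 : ℤ) else 0) =
      (PowerSeries.mk fun k => if k < B + 1 then (1 : ℤ) else 0) ^ m *
      (PowerSeries.mk fun k => if k < p then (1 : ℤ) else 0) ^ n := by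
    rw [Fintype.prod_sum_type]
    have g1 : (∏ _i : Fin m, PowerSeries.mk fun k => if k < B + 1 then (1 : ℤ) else 0) =
        (PowerSeries.mk fun k => if k < B + 1 then (1 : ℤ) else 0) ^ m := by
      rw [Finset.prod_const, Finset.card_univ, Fintype.card_fin]
    have g2 : (∏ _i : Fin n, PowerSeries.mk fun k => if k < p then (1 : ℤ) else 0) =
        (PowerSeries.mk fun k => if k < p then (1 : ℤ) else 0) ^ n := by
      rw [Finset.prod_const, Finset.card_univ, Fintype.card_fin]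
    rw [← g1, ← g2]
    rfl
  rw [e1, kx1_series, kx1_series, mul_pow, mul_assoc, coeff_gf]
  rw [Finset.sum_eq_single 0]
  · rw [pow_zero, Nat.choose_zero_right, Nat.cast_one, pow_zero, mul_one, mul_one, one_mul,
      mul_zero, if_pos (Nat.zero_le _), Nat.sub_zero]
    have e2 : (PowerSeries.mk 1 : PowerSeries ℤ) ^ m *
        ((1 - PowerSeries.C (1 : ℤ) * PowerSeries.X ^ p) * PowerSeries.mk 1) ^ n =
        (1 - PowerSeries.C (1 : ℤ) * PowerSeries.X ^ p) ^ n * (PowerSeries.mk 1) ^ (m + n) := by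
      rw [mul_pow, pow_add]
      ring
    rw [e2, coeff_gf]
    refine Finset.sum_congr rfl fun i _ => ?_
    rw [one_pow, mul_one]
    congr 1
    split_ifs with h
    · obtain ⟨d, hd⟩ : ∃ d, m + n = d + 1 := ⟨m + n - 1, by omega⟩
      rw [hd, PowerSeries.mk_one_pow_eq_mk_choose_add, PowerSeries.coeff_mk]
      congr 2
      omega
    · rfl
  · intro i _ hi
    have h1 : ¬ (B + 1) * i ≤ s := by
      have : B + 1 ≤ (B + 1) * i := Nat.le_mul_of_pos_right _ (Nat.pos_of_ne_zero hi)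
      omega
    rw [if_neg h1, mul_zero]
  · intro h
    exact absurd (Finset.mem_range.2 (Nat.succ_pos m)) h

theorem DX_eq (m n p B : ℕ) (hm : 3 ≤ m) (hn : 3 ≤ n) (hp : 2 * (m + n) < p) (hB : n * p ≤ B)
    (e : ℕ) (he : e ≤ 2) :
    DX m n p B ((e : ℤ) - 1) =
      ∑ i ∈ range n, (-1) ^ i * (n.choose i : ℤ) * pb m n p (n - i) e := by
  have hpn : p ≤ n * p := Nat.le_mul_of_pos_left p (by omega)
  have hle : n + 1 ≤ n * p + e := by omega
  have hs : (((n * p + e - (n + 1) : ℕ)) : ℤ) = ((e : ℤ) - 1) + n * (p - 1) := by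
    rw [Nat.cast_sub hle]
    push_cast
    ring
  rw [kx1_box m n p B (n * p + e - (n + 1)) (by omega) _ hs,
    kx1_count m n p B (n * p + e - (n + 1)) hm (by omega), Finset.sum_range_succ]
  have hlast : ¬ p * n ≤ n * p + e - (n + 1) := by
    rw [Nat.mul_comm p n]
    omega
  rw [if_neg hlast, mul_zero, add_zero]
  refine Finset.sum_congr rfl fun i hi => ?_
  rw [Finset.mem_range] at hi
  have h1 : p * i + p ≤ n * p := by
    calc p * i + p = (i + 1) * p := by ring
      _ ≤ n * p := Nat.mul_le_mul_right p hi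
  rw [if_pos (by omega)]
  unfold pb
  congr 3
  have h2 : (n - i) * p = n * p - p * i := by
    rw [Nat.sub_mul, Nat.mul_comm i p]
  rw [h2]
  omega

end Pool.HKDet
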