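import Pool.Agent.Lib.HKDet.KX1

/-!
# KX2: the sum with barred columns

Proof. The same bijection as in `FSig/CntPair.lean` (`pair_sum`, copy it), but at the rows without bar. Left side = sum over pairs `(d, q)`, `q ≤ barFC p d`. Put at a row `s = d - q`, `t = q`, at a column `s = min d (p-1) - q`, `t = d - s`
(inverse: `d = s + t`, `q = t` at a row, `q = min (s+t) (p-1) - s` at a column; at a column `(s, t)` runs through `[0,p-1]^2`), and `barFC p d - 2 q = s - t` at every vector.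
Put `u = s` on the rows and `t` on the columns, `u' = t` on the rows and `s` on the columns. Then `BalF d ↔ df u + df u' = 0` and `wq (barFC p d) q = df u - df u' = 2 df u`. So the left side is
`∑_{u, u' ∈ cubeX m n p (M p)} [∀ i, u (inl i) + u' (inl i) ≤ M p] [df u + df u' = 0] gI (2 df u)`, and `gI (2 k) = [k = 0] - [k = 1]`.
If `df u = k`, `df u' = -k`, `k ∈ {0, 1}`, then `∑_i u (inl i) = k + ∑_j u (inr j) ≤ 1 + n (p - 1)` and `∑_i u' (inl i) ≤ n (p-1)`, so `u (inl i) + u' (inl i) ≤ 2 n (p - 1) + 1 ≤ 2 n p ≤ M p` (`n ≥ 1`): the condition holds automatically.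
The number of pairs with `df u = k`, `df u' = -k` is `DX k * DX (-k)`.
-/

/-!
# KX2: the sum with barred columns

Proof. The same bijection as in `FSig/CntPair.lean` (`pair_sum`, copy it), but at the rows without bar. Left side = sum over pairs `(d, q)`, `q ≤ barFC p d`. Put at a row `s = d - q`, `t = q`, at a column `s = min d (p-1) - q`, `t = d - s`
(inverse: `d = s + t`, `q = t` at a row, `q = min (s+t) (p-1) - s` at a column; at a column `(s, t)` runs through `[0,p-1]^2`), and `barFC p d - 2 q = s - t` at every vector.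
Put `u = s` on the rows and `t` on the columns, `u' = t` on the rows and `s` on the columns. Then `BalF d ↔ df u + df u' = 0` and `wq (barFC p d) q = df u - df u' = 2 df u`. So the left side is
`∑_{u, u' ∈ cubeX m n p (M p)} [∀ i, u (inl i) + u' (inl i) ≤ M p] [df u + df u' = 0] gI (2 df u)`, and `gI (2 k) = [k = 0] - [k = 1]`.
If `df u = k`, `df u' = -k`, `k ∈ {0, 1}`, then `∑_i u (inl i) = k + ∑_j u (inr j) ≤ 1 + n (p - 1)` and `∑_i u' (inl i) ≤ n (p-1)`, so `u (inl i) + u' (inl i) ≤ 2 n (p - 1) + 1 ≤ 2 n p ≤ M p` (`n ≥ 1`): the condition holds automatically.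
The number of pairs with `df u = k`, `df u' = -k` is `DX k * DX (-k)`.
-/

namespace Pool.HKDet

open _root_.FSig Finset

private def kxS {m n : ℕ} (p : ℕ) (d q : Vx m n → ℕ) : Vx m n → ℕ :=
  Sum.elim (fun i => d (Sum.inl i) - q (Sum.inl i))
    (fun j => min (d (Sum.inr j)) (p - 1) - q (Sum.inr j))

private theorem kxS_inl {m n : ℕ} (p : ℕ) (d q : Vx m n → ℕ) (i) :
    kxS p d q (Sum.inl i) = d (Sum.inl i) - q (Sum.inl i) := rfl

private theorem kxS_inr {m n : ℕ} (p : ℕ) (d q : Vx m n → ℕ) (j) :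
    kxS p d q (Sum.inr j) = min (d (Sum.inr j)) (p - 1) - q (Sum.inr j) := rfl

private def kxU {m n : ℕ} (s t : Vx m n → ℕ) : Vx m n → ℕ :=
  Sum.elim (fun i => s (Sum.inl i)) (fun j => t (Sum.inr j))

private theorem kxU_inl {m n : ℕ} (s t : Vx m n → ℕ) (i) : kxU s t (Sum.inl i) = s (Sum.inl i) := rfl

private theorem kxU_inr {m n : ℕ} (s t : Vx m n → ℕ) (i) : kxU s t (Sum.inr i) = t (Sum.inr i) := rfl

private def kxQ {m n : ℕ} (p : ℕ) (u u' : Vx m n → ℕ) : Vx m n → ℕ :=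
  Sum.elim (fun i => u' (Sum.inl i))
    (fun j => min (u (Sum.inr j) + u' (Sum.inr j)) (p - 1) - u' (Sum.inr j))

private theorem kxQ_inl {m n : ℕ} (p : ℕ) (u u' : Vx m n → ℕ) (i) :
    kxQ p u u' (Sum.inl i) = u' (Sum.inl i) := rfl

private theorem kxQ_inr {m n : ℕ} (p : ℕ) (u u' : Vx m n → ℕ) (j) :
    kxQ p u u' (Sum.inr j) =
      min (u (Sum.inr j) + u' (Sum.inr j)) (p - 1) - u' (Sum.inr j) := rfl

private theorem kx_barR {m n : ℕ} (p : ℕ) (d : Vx m n → ℕ) (i) :
    barFC p d (Sum.inl i) = d (Sum.inl i) := rfl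

private theorem kx_barC {m n : ℕ} (p : ℕ) (d : Vx m n → ℕ) (j) :
    barFC p d (Sum.inr j) = min (d (Sum.inr j)) (2 * p - 2 - d (Sum.inr j)) := rfl

private theorem kx_mem {m n p B : ℕ} {u : Vx m n → ℕ} : u ∈ cubeX m n p B ↔
    (∀ i, u (Sum.inl i) ≤ B) ∧ ∀ j, u (Sum.inr j) < p := by
  unfold cubeX
  rw [Fintype.mem_piFinset]
  constructor
  · intro h
    refine ⟨fun i => ?_, fun j => ?_⟩
    · have := h (Sum.inl i)
      simp only [Sum.elim_inl, Finset.mem_range] at this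
      omega
    · have := h (Sum.inr j)
      simpa only [Sum.elim_inr, Finset.mem_range] using this
  · rintro ⟨h1, h2⟩ (i | j)
    · simp only [Sum.elim_inl, Finset.mem_range]
      have := h1 i
      omega
    · simp only [Sum.elim_inr, Finset.mem_range]
      exact h2 j

private theorem kx_blw {m n : ℕ} {d q : Vx m n → ℕ} {p : ℕ} : q ∈ blw (barFC p d) ↔
    (∀ i, q (Sum.inl i) ≤ d (Sum.inl i)) ∧
      ∀ j, q (Sum.inr j) ≤ min (d (Sum.inr j)) (2 * p - 2 - d (Sum.inr j)) := by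
  unfold blw
  rw [Fintype.mem_piFinset]
  constructor
  · intro h
    refine ⟨fun i => ?_, fun j => ?_⟩
    · have := h (Sum.inl i)
      rw [kx_barR, Finset.mem_range] at this
      omega
    · have := h (Sum.inr j)
      rw [kx_barC, Finset.mem_range] at this
      omega
  · rintro ⟨h1, h2⟩ (i | j)
    · rw [kx_barR, Finset.mem_range]
      have := h1 i
      omega
    · rw [kx_barC, Finset.mem_range]
      have := h2 j
      omega

private theorem kx_step (m n p B : ℕ) (hp : 1 ≤ p) (g : ℤ → ℤ) :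
    ∑ d ∈ bxF m n 0 B, (if ∀ j, d (Sum.inr j) ≤ 2 * p - 2 then csw g (barFC p d) else 0) =
      ∑ y ∈ ((cubeX m n p B ×ˢ cubeX m n p B).filter fun y =>
        (∀ i, y.1 (Sum.inl i) + y.2 (Sum.inl i) ≤ B) ∧
          (∀ j, y.1 (Sum.inr j) + y.2 (Sum.inr j) ≤ B) ∧ df y.1 + df y.2 = 0),
        g (2 * df y.1) := by
  classical
  rw [← Finset.sum_filter]
  simp only [csw]
  rw [Finset.sum_sigma']
  refine Finset.sum_nbij'
    (fun x => (kxU (kxS p x.1 x.2) (fun v => x.1 v - kxS p x.1 x.2 v),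
      kxU (fun v => x.1 v - kxS p x.1 x.2 v) (kxS p x.1 x.2)))
    (fun y => ⟨fun v => y.1 v + y.2 v, kxQ p y.1 y.2⟩) ?_ ?_ ?_ ?_ ?_
  · rintro ⟨d, q⟩ h
    simp only [Finset.mem_sigma, bxF, Finset.mem_filter, Fintype.mem_piFinset, Finset.mem_Icc] at h
    obtain ⟨⟨⟨h1, h2⟩, h4⟩, h3⟩ := h
    rw [kx_blw] at h3
    obtain ⟨h3, h5⟩ := h3
    simp only [Finset.mem_filter, Finset.mem_product, kx_mem]
    refine ⟨⟨⟨fun i => ?_, fun j => ?_⟩, ⟨fun i => ?_, fun j => ?_⟩⟩, fun i => ?_, fun j => ?_, ?_⟩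
    · rw [kxU_inl, kxS_inl]; have := h1 (Sum.inl i); omega
    · rw [kxU_inr, kxS_inr]; have := h4 j; have := h5 j; omega
    · rw [kxU_inl, kxS_inl]; have := h1 (Sum.inl i); have := h3 i; omega
    · rw [kxU_inr, kxS_inr]; have := h4 j; have := h5 j; omega
    · rw [kxU_inl, kxU_inl, kxS_inl]; have := h1 (Sum.inl i); have := h3 i; omega
    · rw [kxU_inr, kxU_inr, kxS_inr]; have := h1 (Sum.inr j); have := h5 j; omega
    · unfold BalF at h2
      simp only [df, kxU_inl, kxU_inr]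
      have e1 : ∑ i, ((kxS p d q (Sum.inl i) : ℕ) : ℤ) +
          ∑ i, ((d (Sum.inl i) - kxS p d q (Sum.inl i) : ℕ) : ℤ) =
          ((∑ i, d (Sum.inl i) : ℕ) : ℤ) := by
        rw [← Finset.sum_add_distrib, Nat.cast_sum]
        refine Finset.sum_congr rfl fun i _ => ?_
        rw [kxS_inl]
        omega
      have e2 : ∑ i, ((kxS p d q (Sum.inr i) : ℕ) : ℤ) +
          ∑ i, ((d (Sum.inr i) - kxS p d q (Sum.inr i) : ℕ) : ℤ) =
          ((∑ i, d (Sum.inr i) : ℕ) : ℤ) := by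
        rw [← Finset.sum_add_distrib, Nat.cast_sum]
        refine Finset.sum_congr rfl fun i _ => ?_
        rw [kxS_inr]
        omega
      have e3 : ((∑ i, d (Sum.inl i) : ℕ) : ℤ) = ((∑ i, d (Sum.inr i) : ℕ) : ℤ) := by rw [h2]
      linarith
  · rintro ⟨u, u'⟩ h
    simp only [Finset.mem_filter, Finset.mem_product, kx_mem] at h
    obtain ⟨⟨⟨h1, h2⟩, ⟨h3, h4⟩⟩, h5, h5', h6⟩ := h
    simp only [Finset.mem_sigma, bxF, Finset.mem_filter, Fintype.mem_piFinset, Finset.mem_Icc]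
    refine ⟨⟨⟨?_, ?_⟩, ?_⟩, ?_⟩
    · rintro (i | j)
      · exact ⟨Nat.zero_le _, h5 i⟩
      · exact ⟨Nat.zero_le _, h5' j⟩
    · unfold BalF
      simp only [df] at h6
      have e1 : ((∑ i, (u (Sum.inl i) + u' (Sum.inl i)) : ℕ) : ℤ) =
          ∑ i, (u (Sum.inl i) : ℤ) + ∑ i, (u' (Sum.inl i) : ℤ) := by
        rw [Nat.cast_sum, ← Finset.sum_add_distrib]
        exact Finset.sum_congr rfl fun i _ => by push_cast; ring
      have e2 : ((∑ i, (u (Sum.inr i) + u' (Sum.inr i)) : ℕ) : ℤ) =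
          ∑ i, (u (Sum.inr i) : ℤ) + ∑ i, (u' (Sum.inr i) : ℤ) := by
        rw [Nat.cast_sum, ← Finset.sum_add_distrib]
        exact Finset.sum_congr rfl fun i _ => by push_cast; ring
      have e3 : ((∑ i, (u (Sum.inl i) + u' (Sum.inl i)) : ℕ) : ℤ) =
          ((∑ i, (u (Sum.inr i) + u' (Sum.inr i)) : ℕ) : ℤ) := by
        rw [e1, e2]; linarith
      exact_mod_cast e3
    · intro j
      have := h2 j; have := h4 j; omega
    · rw [kx_blw]
      refine ⟨fun i => ?_, fun j => ?_⟩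
      · rw [kxQ_inl]; omega
      · rw [kxQ_inr]; have := h2 j; have := h4 j; omega
  · rintro ⟨d, q⟩ h
    simp only [Finset.mem_sigma, bxF, Finset.mem_filter, Fintype.mem_piFinset, Finset.mem_Icc] at h
    obtain ⟨⟨⟨h1, h2⟩, h4⟩, h3⟩ := h
    rw [kx_blw] at h3
    obtain ⟨h3, h5⟩ := h3
    have hd : (fun v => kxU (kxS p d q) (fun v => d v - kxS p d q v) v +
        kxU (fun v => d v - kxS p d q v) (kxS p d q) v) = d := by
      funext v
      rcases v with i | j
      · rw [kxU_inl, kxU_inl, kxS_inl]; omega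
      · rw [kxU_inr, kxU_inr, kxS_inr]; omega
    have hq : kxQ p (kxU (kxS p d q) (fun v => d v - kxS p d q v))
        (kxU (fun v => d v - kxS p d q v) (kxS p d q)) = q := by
      funext v
      rcases v with i | j
      · rw [kxQ_inl, kxU_inl, kxS_inl]
        have := h3 i; omega
      · rw [kxQ_inr, kxU_inr, kxU_inr, kxS_inr]
        have := h4 j; have := h5 j; omega
    simp only
    rw [hq, hd]
  · rintro ⟨u, u'⟩ h
    simp only [Finset.mem_filter, Finset.mem_product, kx_mem] at h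
    obtain ⟨⟨⟨h1, h2⟩, ⟨h3, h4⟩⟩, h5, h5', h6⟩ := h
    refine Prod.ext ?_ ?_
    · funext v
      rcases v with i | j
      · simp only [kxU_inl, kxS_inl, kxQ_inl]
        omega
      · simp only [kxU_inr, kxS_inr, kxQ_inr]
        have := h2 j; have := h4 j; omega
    · funext v
      rcases v with i | j
      · simp only [kxU_inl, kxS_inl, kxQ_inl]
        omega
      · simp only [kxU_inr, kxS_inr, kxQ_inr]
        have := h2 j; have := h4 j; omega
  · rintro ⟨d, q⟩ h
    simp only [Finset.mem_sigma, bxF, Finset.mem_filter, Fintype.mem_piFinset, Finset.mem_Icc] at h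
    obtain ⟨⟨⟨h1, h2⟩, h4⟩, h3⟩ := h
    rw [kx_blw] at h3
    obtain ⟨h3, h5⟩ := h3
    congr 1
    unfold BalF at h2
    simp only [df, wq, kxU_inl, kxU_inr]
    rw [Fintype.sum_sum_type]
    have e0 : ∀ i, (((barFC p d (Sum.inl i) : ℕ) : ℤ) - 2 * (q (Sum.inl i) : ℤ)) =
        2 * ((kxS p d q (Sum.inl i) : ℕ) : ℤ) - (d (Sum.inl i) : ℤ) := by
      intro i
      rw [kx_barR, kxS_inl]
      have := h3 i
      omega
    have e0' : ∀ j, (((barFC p d (Sum.inr j) : ℕ) : ℤ) - 2 * (q (Sum.inr j) : ℤ)) =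
        2 * ((kxS p d q (Sum.inr j) : ℕ) : ℤ) - (d (Sum.inr j) : ℤ) := by
      intro j
      rw [kx_barC, kxS_inr]
      have := h4 j; have := h5 j
      omega
    have e1 : ∀ i, (((d (Sum.inr i) - kxS p d q (Sum.inr i) : ℕ)) : ℤ) =
        (d (Sum.inr i) : ℤ) - ((kxS p d q (Sum.inr i) : ℕ) : ℤ) := by
      intro i
      rw [kxS_inr]
      omega
    simp only [e0, e0', e1, Finset.sum_sub_distrib, ← Finset.mul_sum]
    have e3 : (∑ i, (d (Sum.inl i) : ℤ)) = (∑ i, (d (Sum.inr i) : ℤ)) := by exact_mod_cast h2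
    linarith

private theorem kx_row {m n p B : ℕ} {u : Vx m n → ℕ} {k : ℤ} (hp : 1 ≤ p)
    (hu : u ∈ cubeX m n p B) (hk : df u = k) (i : Fin m) :
    (u (Sum.inl i) : ℤ) ≤ k + n * ((p : ℤ) - 1) := by
  rw [kx_mem] at hu
  have h1 : (u (Sum.inl i) : ℤ) ≤ ∑ i, (u (Sum.inl i) : ℤ) :=
    Finset.single_le_sum (f := fun i => (u (Sum.inl i) : ℤ)) (fun i _ => Int.natCast_nonneg _)
      (Finset.mem_univ i)
  have h2 : ∑ j : Fin n, (u (Sum.inr j) : ℤ) ≤ n * ((p : ℤ) - 1) := by
    have := Finset.sum_le_card_nsmul (Finset.univ : Finset (Fin n))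
      (fun j => (u (Sum.inr j) : ℤ)) ((p : ℤ) - 1) (fun j _ => by
        have := hu.2 j
        push_cast
        omega)
    rwa [Finset.card_univ, Fintype.card_fin, nsmul_eq_mul] at this
  unfold df at hk
  linarith

private theorem kx_fil (m n p M : ℕ) (hn : 1 ≤ n) (hp : 1 ≤ p) (hM : 2 * n ≤ M) (k : ℤ)
    (hk0 : 0 ≤ k) (hk1 : k ≤ 1) :
    (((cubeX m n p (M * p) ×ˢ cubeX m n p (M * p)).filter fun y =>
        (∀ i, y.1 (Sum.inl i) + y.2 (Sum.inl i) ≤ M * p) ∧
          (∀ j, y.1 (Sum.inr j) + y.2 (Sum.inr j) ≤ M * p) ∧ df y.1 + df y.2 = 0).filter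
            fun y => df y.1 = k) =
      ((cubeX m n p (M * p)).filter fun u => df u = k) ×ˢ
        ((cubeX m n p (M * p)).filter fun u => df u = -k) := by
  ext ⟨u, u'⟩
  simp only [Finset.mem_filter, Finset.mem_product]
  have hMp : 2 * n * p ≤ M * p := Nat.mul_le_mul_right p hM
  have hMp' : (2 : ℤ) * n * p ≤ M * p := by exact_mod_cast hMp
  have hnp : (p : ℤ) ≤ n * p := by
    have : (1 : ℤ) ≤ n := by exact_mod_cast hn
    have hp' : (0 : ℤ) ≤ p := Int.natCast_nonneg _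
    nlinarith
  constructor
  · rintro ⟨⟨⟨h1, h2⟩, -, -, h3⟩, h4⟩
    exact ⟨⟨h1, h4⟩, h2, by linarith⟩
  · rintro ⟨⟨h1, h4⟩, h2, h3⟩
    refine ⟨⟨⟨h1, h2⟩, fun i => ?_, fun j => ?_, by linarith⟩, h4⟩
    · have e1 := kx_row hp h1 h4 i
      have e2 := kx_row hp h2 h3 i
      have e3 : ((u (Sum.inl i) + u' (Sum.inl i) : ℕ) : ℤ) ≤ ((M * p : ℕ) : ℤ) := by
        push_cast
        have hn' : (1 : ℤ) ≤ n := by exact_mod_cast hn
        nlinarith
      exact_mod_cast e3
    · rw [kx_mem] at h1 h2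
      have e1 := h1.2 j
      have e2 := h2.2 j
      have e3 : ((u (Sum.inr j) + u' (Sum.inr j) : ℕ) : ℤ) ≤ ((M * p : ℕ) : ℤ) := by
        push_cast
        have e1' : (u (Sum.inr j) : ℤ) < p := by exact_mod_cast e1
        have e2' : (u' (Sum.inr j) : ℤ) < p := by exact_mod_cast e2
        linarith
      exact_mod_cast e3

theorem sumX (m n p M : ℕ) (hn : 1 ≤ n) (hp : 1 ≤ p) (hM : 2 * n ≤ M) :
    ∑ d ∈ bxF m n 0 (M * p), (if ∀ j, d (Sum.inr j) ≤ 2 * p - 2 then csw gI (barFC p d) else 0) =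
      DX m n p (M * p) 0 * DX m n p (M * p) 0 - DX m n p (M * p) 1 * DX m n p (M * p) (-1) := by
  classical
  rw [kx_step m n p (M * p) hp gI]
  have h1 : ∀ k : ℤ, gI (2 * k) = (if k = 0 then 1 else 0) - (if k = 1 then 1 else 0) := by
    intro k
    unfold gI
    congr 1
    · congr 1
      exact propext ⟨fun h => by omega, fun h => by omega⟩
    · congr 1
      exact propext ⟨fun h => by omega, fun h => by omega⟩
  simp only [h1, Finset.sum_sub_distrib]
  rw [← Finset.sum_filter, ← Finset.sum_filter, Finset.sum_const, Finset.sum_const,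
    nsmul_one, nsmul_one, kx_fil m n p M hn hp hM 0 le_rfl (by norm_num),
    kx_fil m n p M hn hp hM 1 (by norm_num) le_rfl, Finset.card_product, Finset.card_product,
    neg_zero]
  unfold DX
  push_cast
  ring

end Pool.HKDet
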