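import Pool.Agent.Lib.HKDet.KX2

/-!
# KX3: the sum with barred rows

Proof. Exchange rows and columns: `d ↦ d ∘ Sum.swap` is a bijection from `bxF m n 0 L` to `bxF n m 0 L` (`BalF` is symmetric), the condition on the rows becomes the condition on the columns, `barFR p d ∘ Sum.swap = barFC p (d ∘ Sum.swap)`
and `csw g (d ∘ e) = csw g d` for an equivalence `e` (reindex `q ↦ q ∘ e`, `Equiv.sum_comp`; `wq (d ∘ e) (q ∘ e) = wq d q`). Then `sumX` for `(n, m)`.
-/

namespace Pool.HKDet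

open _root_.FSig Finset

theorem sw_swap {m n : ℕ} (g : ℤ → ℤ) (d : Vx m n → ℕ) :
    csw g (fun v : Vx n m => d v.swap) = csw g d := by
  unfold csw
  refine sum_nbij' (fun q (w : Vx m n) => q w.swap) (fun q (v : Vx n m) => q v.swap) ?_ ?_ ?_ ?_ ?_
  · intro q hq
    unfold blw at hq ⊢
    rw [Fintype.mem_piFinset] at hq ⊢
    intro w
    have h1 := hq w.swap
    beta_reduce at h1
    rwa [Sum.swap_swap] at h1
  · intro q hq
    unfold blw at hq ⊢
    rw [Fintype.mem_piFinset] at hq ⊢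
    intro v
    exact hq v.swap
  · intro q _
    funext v
    beta_reduce
    rw [Sum.swap_swap]
  · intro q _
    funext w
    beta_reduce
    rw [Sum.swap_swap]
  · intro q _
    congr 1
    unfold wq
    rw [← Equiv.sum_comp (Equiv.sumComm (Fin n) (Fin m))
      (fun w : Vx m n => ((d w : ℤ) - 2 * (q w.swap : ℤ)))]
    refine sum_congr rfl fun v _ => ?_
    rw [Equiv.sumComm_apply, Sum.swap_swap]

private theorem kx3_bar {m n : ℕ} (p : ℕ) (d : Vx m n → ℕ) :
    (fun v : Vx n m => barFR p d v.swap) = barFC p (fun v : Vx n m => d v.swap) := by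
  funext v
  cases v <;> rfl

private theorem kx3_mem {m n L : ℕ} {d : Vx m n → ℕ} (hd : d ∈ bxF m n 0 L) :
    (fun v : Vx n m => d v.swap) ∈ bxF n m 0 L := by
  unfold bxF at hd ⊢
  rw [mem_filter, Fintype.mem_piFinset] at hd ⊢
  refine ⟨fun v => hd.1 v.swap, ?_⟩
  have h1 := hd.2
  unfold BalF at h1 ⊢
  exact h1.symm

theorem sumY (m n p M : ℕ) (hm : 1 ≤ m) (hp : 1 ≤ p) (hM : 2 * m ≤ M) :
    ∑ d ∈ bxF m n 0 (M * p), (if ∀ i, d (Sum.inl i) ≤ 2 * p - 2 then csw gI (barFR p d) else 0) =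
      DX n m p (M * p) 0 * DX n m p (M * p) 0 - DX n m p (M * p) 1 * DX n m p (M * p) (-1) := by
  rw [← sumX n m p M hm hp hM]
  refine sum_nbij' (fun d (v : Vx n m) => d v.swap) (fun d (w : Vx m n) => d w.swap) ?_ ?_ ?_ ?_ ?_
  · intro d hd
    exact kx3_mem hd
  · intro d hd
    exact kx3_mem hd
  · intro d _
    funext w
    beta_reduce
    rw [Sum.swap_swap]
  · intro d _
    funext v
    beta_reduce
    rw [Sum.swap_swap]
  · intro d _
    rw [← kx3_bar, sw_swap]
    rfl

end Pool.HKDet
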