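import Mathlib

/-!
# Module LA: two numbers attached to `P ≤ Q` in a vector space (only Mathlib)

`tA P Q G = dim Q - dim (P + G)` (dimension of `Q / (P + G)`), `rA ν P Q = dim (P + ν Q) - dim P` (rank of `ν` on `Q / P`).
Everything is finite-dimensional: all spaces are contained in `Q` with `[FiniteDimensional K Q]` (use `Submodule.finiteDimensional_of_le`,
`Submodule.finrank_mono`, `Submodule.finrank_sup_add_finrank_inf_eq`).

PROOFS.
* `tA_nonneg`: `P ⊔ G ≤ Q`. `rA_nonneg`: `P ≤ P ⊔ ν Q` (`finrank_mono`, the space `P ⊔ Q.map ν` is finite-dimensional).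
* `tA_le`: to show `dim (P' + G) + dim (P + G') ≤ dim (P + G) + dim P'`. `(P + G) + P' = P' + G`, `P + G' ≤ (P + G) ∩ P'`; `finrank_sup_add_finrank_inf_eq (P ⊔ G) P'`.
* `rA_ge`: `dim (P + ν P') + dim (P' + ν Q) ≤ dim (P + ν Q) + dim P'`: `(P + ν Q) + P' = P' + ν Q`, `P + ν P' ≤ (P + ν Q) ∩ P'` (`ν P' ≤ P'`).
* `rA_le_tA`: the linear map `Q → X / P`, `x ↦ ν x mod P` has kernel containing `P + G` and range of dimension `dim (P + ν Q) - dim P`. In Lean: let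
  `g : Q →ₗ X ⧸ P := P.mkQ ∘ ν ∘ Q.subtype`; `finrank range g = rA` (`range g = ((P ⊔ Q.map ν).map P.mkQ)`, `Submodule.finrank_map..`/`finrank_quotient_add_finrank`),
  `finrank range g + finrank ker g = finrank Q`, `(P ⊔ G).comap Q.subtype ≤ ker g`.
* `tA_eq_rA`: if moreover `x ∈ Q`, `ν x ∈ P` implies `x ∈ P + G` then `ker g` is exactly the comap of `P ⊔ G`, so equality.
* `mem_of_tA_eq_rA`: conversely, if `tA P Q G = rA ν P Q` then `x ∈ Q`, `ν x ∈ P` implies `x ∈ P ⊔ G` (the inclusion of the comap in `ker g` is an equality of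
  finite-dimensional spaces of the same dimension).
* `tA_add_of_eq`: `tA P P' G' = rA ν P P'`: `(P + G) ∩ P' = P + G'`: if `x = y + g ∈ P'`, `y ∈ P`, `g ∈ G`, then `ν x = ν y + 0 ∈ P`, so `x ∈ P + G'` by the previous item. Then
  `dim (P'+G) + dim (P+G') = dim (P+G) + dim P'`.
* `tA_add_of_inf`: `(P + G) ∩ P' = P + G'` is the hypothesis; the same dimension count.
* `tA_transport`, `rA_transport`: `θ` induces a linear isomorphism `Q / P → Q' / P'` which maps `(P+G)/P` onto `(P'+G')/P'` and `(P + ν Q)/P` (here `ν Q ≤ Q`) onto `(P' + ν' Q')/P'`.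
  In Lean compare dimensions: for a subspace `A` with `P ≤ A ≤ Q` put `A' = P' ⊔ A.map θ`; then `dim A - dim P = dim A' - dim P'` (the map `A → A'/P'` is onto with kernel `P`);
  apply to `A = Q`, `A = P ⊔ G`, `A = P ⊔ Q.map ν`.
-/

namespace HKDet

open Module

section

variable {K X : Type*} [Field K] [AddCommGroup X] [Module K X]

/-- dimension of `Q / (P + G)` -/
noncomputable def tA (P Q G : Submodule K X) : ℤ := (finrank K Q : ℤ) - finrank K ↥(P ⊔ G)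

/-- rank of `ν` on `Q / P` -/
noncomputable def rA (ν : X →ₗ[K] X) (P Q : Submodule K X) : ℤ :=
  (finrank K ↥(P ⊔ Q.map ν) : ℤ) - finrank K P

private theorem la_rn {Y : Type*} [AddCommGroup Y] [Module K Y] (f : X →ₗ[K] Y)
    (S : Submodule K X) [FiniteDimensional K S] :
    finrank K ↥(S.map f) + finrank K ↥(S ⊓ LinearMap.ker f) = finrank K S := by
  have h := LinearMap.finrank_range_add_finrank_ker (f.domRestrict S)
  have h1 : LinearMap.range (f.domRestrict S) = S.map f := LinearMap.range_domRestrict S f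
  have h2 : LinearMap.ker (f.domRestrict S) = (S ⊓ LinearMap.ker f).comap S.subtype := by
    ext x
    simp [LinearMap.mem_ker, LinearMap.domRestrict_apply]
  have h3 : finrank K ↥((S ⊓ LinearMap.ker f).comap S.subtype) =
      finrank K ↥(S ⊓ LinearMap.ker f) :=
    LinearEquiv.finrank_eq (Submodule.comapSubtypeEquivOfLe inf_le_left)
  rw [h1, h2, h3] at h
  exact h

private theorem la_mk (P B : Submodule K X) [FiniteDimensional K P] [FiniteDimensional K B] :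
    finrank K ↥(B.map P.mkQ) + finrank K P = finrank K ↥(P ⊔ B) := by
  have h := la_rn P.mkQ (P ⊔ B)
  have h1 : (P ⊔ B).map P.mkQ = B.map P.mkQ := by
    rw [Submodule.map_sup]
    have : P.map P.mkQ = ⊥ := by
      rw [eq_bot_iff]
      rintro _ ⟨x, hx, rfl⟩
      rw [Submodule.mem_bot, Submodule.mkQ_apply, Submodule.Quotient.mk_eq_zero]
      exact hx
    rw [this, bot_sup_eq]
  have h2 : (P ⊔ B) ⊓ LinearMap.ker P.mkQ = P := by
    rw [Submodule.ker_mkQ]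
    exact inf_eq_right.mpr le_sup_left
  rw [h1, h2] at h
  exact h

private theorem la_rA (ν : X →ₗ[K] X) (P Q : Submodule K X) [FiniteDimensional K P]
    [FiniteDimensional K Q] :
    rA ν P Q + finrank K ↥(Q ⊓ P.comap ν) = finrank K Q := by
  have h := la_rn (P.mkQ.comp ν) Q
  have h1 : Q.map (P.mkQ.comp ν) = (Q.map ν).map P.mkQ := Submodule.map_comp _ _ _
  have h2 : Q ⊓ LinearMap.ker (P.mkQ.comp ν) = Q ⊓ P.comap ν := by
    rw [LinearMap.ker_comp, Submodule.ker_mkQ]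
  rw [h1, h2] at h
  have h3 := la_mk P (Q.map ν)
  unfold rA
  omega

private theorem la_fd {A Q : Submodule K X} [FiniteDimensional K Q] (h : A ≤ Q) :
    FiniteDimensional K A := Submodule.finiteDimensional_of_le h

theorem tA_nonneg {P Q G : Submodule K X} [FiniteDimensional K Q] (h : P ≤ Q) (hG : G ≤ Q) :
    0 ≤ tA P Q G := by
  have := Submodule.finrank_mono (R := K) (sup_le h hG)
  unfold tA
  omega

theorem rA_nonneg (ν : X →ₗ[K] X) {P Q : Submodule K X} [FiniteDimensional K P]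
    [FiniteDimensional K Q] : 0 ≤ rA ν P Q := by
  have := Submodule.finrank_mono (R := K) (le_sup_left : P ≤ P ⊔ Q.map ν)
  unfold rA
  omega

theorem tA_le {P P' Q G' G : Submodule K X} [FiniteDimensional K Q] (h1 : P ≤ P') (h2 : P' ≤ Q)
    (hG' : G' ≤ P') (hG : G ≤ Q) (hGG : G' ≤ G) : tA P Q G ≤ tA P P' G' + tA P' Q G := by
  have := la_fd h2
  have := la_fd (h1.trans h2)
  have := la_fd hG
  have e := Submodule.finrank_sup_add_finrank_inf_eq (P ⊔ G) P'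
  have e1 : (P ⊔ G) ⊔ P' = P' ⊔ G := by
    apply le_antisymm
    · exact sup_le (sup_le (h1.trans le_sup_left) le_sup_right) le_sup_left
    · exact sup_le le_sup_right (le_sup_right.trans le_sup_left)
  have e2 : P ⊔ G' ≤ (P ⊔ G) ⊓ P' :=
    le_inf (sup_le le_sup_left (hGG.trans le_sup_right)) (sup_le h1 hG')
  have : FiniteDimensional K ↥((P ⊔ G) ⊓ P') := la_fd inf_le_right
  have e3 := Submodule.finrank_mono (R := K) e2
  rw [e1] at e
  unfold tA
  omega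

theorem rA_ge (ν : X →ₗ[K] X) {P P' Q : Submodule K X} [FiniteDimensional K Q] (h1 : P ≤ P')
    (h2 : P' ≤ Q) (hν : ∀ x ∈ P', ν x ∈ P') : rA ν P P' + rA ν P' Q ≤ rA ν P Q := by
  have := la_fd h2
  have := la_fd (h1.trans h2)
  have e := Submodule.finrank_sup_add_finrank_inf_eq (P ⊔ Q.map ν) P'
  have e1 : (P ⊔ Q.map ν) ⊔ P' = P' ⊔ Q.map ν := by
    apply le_antisymm
    · exact sup_le (sup_le (h1.trans le_sup_left) le_sup_right) le_sup_left
    · exact sup_le le_sup_right (le_sup_right.trans le_sup_left)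
  have e2 : P ⊔ P'.map ν ≤ (P ⊔ Q.map ν) ⊓ P' := by
    refine le_inf (sup_le le_sup_left ((Submodule.map_mono h2).trans le_sup_right)) (sup_le h1 ?_)
    rintro _ ⟨x, hx, rfl⟩
    exact hν x hx
  have : FiniteDimensional K ↥((P ⊔ Q.map ν) ⊓ P') := la_fd inf_le_right
  have e3 := Submodule.finrank_mono (R := K) e2
  rw [e1] at e
  unfold rA
  omega

private theorem la_le (ν : X →ₗ[K] X) {P Q G : Submodule K X} (h : P ≤ Q)
    (hG : G ≤ Q) (hP : ∀ x ∈ P, ν x ∈ P) (h0 : ∀ x ∈ G, ν x = 0) :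
    P ⊔ G ≤ Q ⊓ P.comap ν := by
  refine le_inf (sup_le h hG) (sup_le (fun x hx => hP x hx) fun x hx => ?_)
  show ν x ∈ P
  rw [h0 x hx]
  exact P.zero_mem

theorem rA_le_tA (ν : X →ₗ[K] X) {P Q G : Submodule K X} [FiniteDimensional K Q] (h : P ≤ Q)
    (hG : G ≤ Q) (hP : ∀ x ∈ P, ν x ∈ P) (h0 : ∀ x ∈ G, ν x = 0) : rA ν P Q ≤ tA P Q G := by
  have := la_fd h
  have e := la_rA ν P Q
  have : FiniteDimensional K ↥(Q ⊓ P.comap ν) := la_fd inf_le_left
  have e1 := Submodule.finrank_mono (R := K) (la_le ν h hG hP h0)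
  unfold tA
  omega

theorem tA_eq_rA (ν : X →ₗ[K] X) {P Q G : Submodule K X} [FiniteDimensional K Q] (h : P ≤ Q)
    (hG : G ≤ Q) (hP : ∀ x ∈ P, ν x ∈ P) (h0 : ∀ x ∈ G, ν x = 0)
    (hinj : ∀ x ∈ Q, ν x ∈ P → x ∈ P ⊔ G) : tA P Q G = rA ν P Q := by
  have := la_fd h
  have e := la_rA ν P Q
  have e1 : Q ⊓ P.comap ν = P ⊔ G :=
    le_antisymm (fun x hx => hinj x hx.1 hx.2) (la_le ν h hG hP h0)
  rw [e1] at e
  unfold tA
  omega

theorem mem_of_tA_eq_rA (ν : X →ₗ[K] X) {P Q G : Submodule K X} [FiniteDimensional K Q]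
    (h : P ≤ Q) (hG : G ≤ Q) (hP : ∀ x ∈ P, ν x ∈ P) (h0 : ∀ x ∈ G, ν x = 0)
    (heq : tA P Q G = rA ν P Q) {x : X} (hx : x ∈ Q) (hx0 : ν x ∈ P) : x ∈ P ⊔ G := by
  have := la_fd h
  have e := la_rA ν P Q
  have : FiniteDimensional K ↥(Q ⊓ P.comap ν) := la_fd inf_le_left
  have e2 : finrank K ↥(P ⊔ G) = finrank K ↥(Q ⊓ P.comap ν) := by
    unfold tA at heq
    omega
  have e1 : P ⊔ G = Q ⊓ P.comap ν :=
    Submodule.eq_of_le_of_finrank_eq (la_le ν h hG hP h0) e2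
  rw [e1]
  exact ⟨hx, hx0⟩

private theorem la_inf {P P' Q G' G : Submodule K X} [FiniteDimensional K Q]
    (h1 : P ≤ P') (h2 : P' ≤ Q) (hG' : G' ≤ P') (hG : G ≤ Q) (hGG : G' ≤ G)
    (h : ∀ x ∈ P', x ∈ P ⊔ G → x ∈ P ⊔ G') : tA P Q G = tA P P' G' + tA P' Q G := by
  have := la_fd h2
  have := la_fd (h1.trans h2)
  have := la_fd hG
  have e := Submodule.finrank_sup_add_finrank_inf_eq (P ⊔ G) P'
  have e1 : (P ⊔ G) ⊔ P' = P' ⊔ G := by
    apply le_antisymm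
    · exact sup_le (sup_le (h1.trans le_sup_left) le_sup_right) le_sup_left
    · exact sup_le le_sup_right (le_sup_right.trans le_sup_left)
  have e2 : (P ⊔ G) ⊓ P' = P ⊔ G' := by
    apply le_antisymm
    · exact fun x hx => h x hx.2 hx.1
    · exact le_inf (sup_le le_sup_left (hGG.trans le_sup_right)) (sup_le h1 hG')
  rw [e1, e2] at e
  unfold tA
  omega

theorem tA_add_of_eq (ν : X →ₗ[K] X) {P P' Q G' G : Submodule K X} [FiniteDimensional K Q]
    (h1 : P ≤ P') (h2 : P' ≤ Q) (hG' : G' ≤ P') (hG : G ≤ Q) (hGG : G' ≤ G)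
    (hP : ∀ x ∈ P, ν x ∈ P) (h0 : ∀ x ∈ G, ν x = 0) (heq : tA P P' G' = rA ν P P') :
    tA P Q G = tA P P' G' + tA P' Q G := by
  have := la_fd h2
  refine la_inf h1 h2 hG' hG hGG fun x hx hxG => ?_
  refine mem_of_tA_eq_rA ν h1 hG' hP (fun y hy => h0 y (hGG hy)) heq hx ?_
  obtain ⟨y, hy, g, hg, rfl⟩ := Submodule.mem_sup.mp hxG
  rw [map_add, h0 g hg, add_zero]
  exact hP y hy

theorem tA_add_of_inf {P P' Q G' G : Submodule K X} [FiniteDimensional K Q]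
    (h1 : P ≤ P') (h2 : P' ≤ Q) (hG' : G' ≤ P') (hG : G ≤ Q) (hGG : G' ≤ G)
    (h : ∀ x ∈ P', x ∈ P ⊔ G → x ∈ P ⊔ G') : tA P Q G = tA P P' G' + tA P' Q G :=
  la_inf h1 h2 hG' hG hGG h

end

section transport

variable {K X X' : Type*} [Field K] [AddCommGroup X] [Module K X] [AddCommGroup X'] [Module K X']

private theorem la_tr (θ : X →ₗ[K] X') {P Q : Submodule K X} {P' Q' : Submodule K X'}
    [FiniteDimensional K Q] [FiniteDimensional K Q'] (h' : P' ≤ Q')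
    (hk : ∀ x ∈ Q, (θ x ∈ P' ↔ x ∈ P)) {A : Submodule K X} (hPA : P ≤ A) (hA : A ≤ Q) :
    finrank K ↥(P' ⊔ A.map θ) + finrank K P = finrank K A + finrank K P' := by
  have := la_fd hA
  have := la_fd h'
  have e := la_rn (P'.mkQ.comp θ) A
  have h1 : A.map (P'.mkQ.comp θ) = (A.map θ).map P'.mkQ := Submodule.map_comp _ _ _
  have h2 : A ⊓ LinearMap.ker (P'.mkQ.comp θ) = P := by
    rw [LinearMap.ker_comp, Submodule.ker_mkQ]
    apply le_antisymm
    · exact fun x hx => (hk x (hA hx.1)).mp hx.2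
    · exact fun x hx => ⟨hPA hx, (hk x (hA (hPA hx))).mpr hx⟩
  rw [h1, h2] at e
  have e2 := la_mk P' (A.map θ)
  omega

private theorem la_P (θ : X →ₗ[K] X') {P Q : Submodule K X} {P' : Submodule K X'} (h : P ≤ Q)
    (hk : ∀ x ∈ Q, (θ x ∈ P' ↔ x ∈ P)) : P.map θ ≤ P' := by
  rintro _ ⟨x, hx, rfl⟩
  exact (hk x (h hx)).mpr hx

private theorem la_Q (θ : X →ₗ[K] X') {Q : Submodule K X} {P' Q' : Submodule K X'} (h' : P' ≤ Q')
    (hQ : ∀ x ∈ Q, θ x ∈ Q') (hs : ∀ y ∈ Q', ∃ x ∈ Q, y - θ x ∈ P') : P' ⊔ Q.map θ = Q' := by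
  apply le_antisymm
  · refine sup_le h' ?_
    rintro _ ⟨x, hx, rfl⟩
    exact hQ x hx
  · intro y hy
    obtain ⟨x, hx, hxy⟩ := hs y hy
    rw [show y = (y - θ x) + θ x by abel]
    exact Submodule.add_mem_sup hxy (Submodule.mem_map_of_mem hx)

theorem tA_transport (θ : X →ₗ[K] X') {P Q G : Submodule K X} {P' Q' G' : Submodule K X'}
    [FiniteDimensional K Q] [FiniteDimensional K Q'] (h : P ≤ Q) (h' : P' ≤ Q') (hG : G ≤ Q)
    (hQ : ∀ x ∈ Q, θ x ∈ Q') (hs : ∀ y ∈ Q', ∃ x ∈ Q, y - θ x ∈ P')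
    (hk : ∀ x ∈ Q, (θ x ∈ P' ↔ x ∈ P)) (hGG : P' ⊔ G' = P' ⊔ G.map θ) : tA P Q G = tA P' Q' G' := by
  have e1 := la_tr θ h' hk h le_rfl
  have e2 := la_tr θ h' hk (le_sup_left : P ≤ P ⊔ G) (sup_le h hG)
  have e3 : P' ⊔ (P ⊔ G).map θ = P' ⊔ G' := by
    rw [hGG, Submodule.map_sup, ← sup_assoc, sup_eq_left.mpr (la_P θ h hk)]
  rw [la_Q θ h' hQ hs] at e1
  rw [e3] at e2
  unfold tA
  omega

theorem rA_transport (θ : X →ₗ[K] X') (ν : X →ₗ[K] X) (ν' : X' →ₗ[K] X') {P Q : Submodule K X}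
    {P' Q' : Submodule K X'} [FiniteDimensional K Q] [FiniteDimensional K Q'] (h : P ≤ Q)
    (h' : P' ≤ Q') (hν : ∀ x ∈ Q, ν x ∈ Q) (hν' : ∀ y ∈ P', ν' y ∈ P')
    (hQ : ∀ x ∈ Q, θ x ∈ Q') (hs : ∀ y ∈ Q', ∃ x ∈ Q, y - θ x ∈ P')
    (hk : ∀ x ∈ Q, (θ x ∈ P' ↔ x ∈ P)) (hc : ∀ x ∈ Q, θ (ν x) - ν' (θ x) ∈ P') :
    rA ν P Q = rA ν' P' Q' := by
  have hνQ : Q.map ν ≤ Q := by
    rintro _ ⟨x, hx, rfl⟩
    exact hν x hx
  have e2 := la_tr θ h' hk (le_sup_left : P ≤ P ⊔ Q.map ν) (sup_le h hνQ)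
  have e3 : P' ⊔ (P ⊔ Q.map ν).map θ = P' ⊔ Q'.map ν' := by
    rw [Submodule.map_sup, ← sup_assoc, sup_eq_left.mpr (la_P θ h hk)]
    apply le_antisymm
    · refine sup_le le_sup_left ?_
      rintro _ ⟨_, ⟨x, hx, rfl⟩, rfl⟩
      rw [show θ (ν x) = (θ (ν x) - ν' (θ x)) + ν' (θ x) by abel]
      exact Submodule.add_mem_sup (hc x hx) (Submodule.mem_map_of_mem (hQ x hx))
    · refine sup_le le_sup_left ?_
      rintro _ ⟨y, hy, rfl⟩
      obtain ⟨x, hx, hxy⟩ := hs y hy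
      have e : ν' y = (ν' (y - θ x) - (θ (ν x) - ν' (θ x))) + θ (ν x) := by
        rw [map_sub]
        abel
      rw [e]
      exact Submodule.add_mem_sup (P'.sub_mem (hν' _ hxy) (hc x hx))
        (Submodule.mem_map_of_mem (Submodule.mem_map_of_mem hx))
  rw [e3] at e2
  unfold rA
  omega

end transport

end HKDet
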