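import Pool.Agent.Lib.HKDet.KTot
import Pool.Agent.Lib.HKDet.KDefs

/-!
# Module LenV: the explicit length of `R/m^[p]` and its value for `m = n = 3`

`lenHK m n p` is the right side of `hkTot_eq`; for `m = n = 3` it is `(735 p^8 - 282 p^6 + 15 p^4 + 12 p^2) / 480`.
-/

namespace Pool.HKDet

open _root_.FSig Finset

/-- the length of `R/m^[p]`, `R = R_{m,n,3}`, `p > (m+n)^2+(m+n)+1` -/
def lenHK (m n p : ℕ) : ℤ :=
  (ax m n p n n 1 * ax m n p n n 1 - ax m n p n n 2 * ax m n p n n 0)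
  + (ax n m p m m 1 * ax n m p m m 1 - ax n m p m m 2 * ax n m p m m 0)
  - (ax m n p (m + n) n 1 * ax m n p (m + n) n 1 - ax m n p (m + n) n 2 * ax m n p (m + n) n 0)
  + (∑ a ∈ Ico 1 n, ∑ b ∈ Ico 1 m,
      ((a + m - 1).choose (m - 1) : ℤ) * ((b + n - 1).choose (n - 1) : ℤ) *
        ∑ l ∈ Ico 1 (n - a),
          (ax m n p (m + n) (n + b + l) 2 * ax m n p (m + n) (n - a - l) 0
            - 2 * (ax m n p (m + n) (n + b + l) 1 * ax m n p (m + n) (n - a - l) 1)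
            + ax m n p (m + n) (n + b + l) 0 * ax m n p (m + n) (n - a - l) 2))
  + (m * (∑ c ∈ Icc 1 n, (n.choose c : ℤ) * ((-1) ^ (1 + n + c) * TT m n p (n + c - 1)))
    + n * (∑ s ∈ Icc 2 m, (m.choose s : ℤ) * ((-1) ^ (s + n + 1) * TT m n p (n + 1 - s))))

private theorem choose5 (x : ℕ) (hx : 5 ≤ x) :
    (x.choose 5 : ℚ) = (x : ℚ) * (x - 1) * (x - 2) * (x - 3) * (x - 4) / 120 := by
  obtain ⟨y, rfl⟩ := Nat.exists_eq_add_of_le' hx
  have h := Nat.descFactorial_eq_factorial_mul_choose (y + 5) 5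
  have e1 : y + 5 - 1 = y + 4 := by omega
  have e2 : y + 5 - 2 = y + 3 := by omega
  have e3 : y + 5 - 3 = y + 2 := by omega
  have e4 : y + 5 - 4 = y + 1 := by omega
  have e0 : y + 5 - 0 = y + 5 := by omega
  have f5 : Nat.factorial 5 = 120 := rfl
  simp only [Nat.descFactorial_succ, Nat.descFactorial_zero, e0, e1, e2, e3, e4, f5] at h
  have g := congrArg (Nat.cast : ℕ → ℚ) h
  push_cast at g ⊢
  linarith

private theorem pb33 (p k e : ℕ) (hk : 1 ≤ k) (hp : 12 < p) : (pb 3 3 p k e : ℚ) =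
    ((k : ℚ) * p + 1 + e) * ((k : ℚ) * p + e) * ((k : ℚ) * p + e - 1) * ((k : ℚ) * p + e - 2) *
      ((k : ℚ) * p + e - 3) / 120 := by
  have h1 : p ≤ k * p := Nat.le_mul_of_pos_left p hk
  unfold pb
  rw [Int.cast_natCast, choose5 _ (by omega)]
  push_cast
  ring

private theorem icc13 (f : ℕ → ℤ) : ∑ c ∈ Icc 1 3, f c = f 1 + f 2 + f 3 := by
  rw [show (Icc 1 3 : Finset ℕ) = {1, 2, 3} from rfl, Finset.sum_insert (by decide),
    Finset.sum_insert (by decide), Finset.sum_singleton]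
  ring

private theorem icc23 (f : ℕ → ℤ) : ∑ c ∈ Icc 2 3, f c = f 2 + f 3 := by
  rw [show (Icc 2 3 : Finset ℕ) = {2, 3} from rfl, Finset.sum_insert (by decide),
    Finset.sum_singleton]

private theorem ico13 (f : ℕ → ℤ) : ∑ c ∈ Ico 1 3, f c = f 1 + f 2 := by
  rw [show (Ico 1 3 : Finset ℕ) = {1, 2} from rfl, Finset.sum_insert (by decide),
    Finset.sum_singleton]

private theorem ico12 (f : ℕ → ℤ) : ∑ c ∈ Ico 1 2, f c = f 1 := by
  rw [show (Ico 1 2 : Finset ℕ) = {1} from rfl, Finset.sum_singleton]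

private theorem ico11 (f : ℕ → ℤ) : ∑ c ∈ Ico 1 1, f c = 0 := by
  rw [show (Ico 1 1 : Finset ℕ) = ∅ from rfl, Finset.sum_empty]

theorem lenHK_33 (p : ℕ) (hp : 12 < p) :
    480 * lenHK 3 3 p = 735 * (p : ℤ) ^ 8 - 282 * (p : ℤ) ^ 6 + 15 * (p : ℤ) ^ 4 + 12 * (p : ℤ) ^ 2 := by
  have key : ((480 * lenHK 3 3 p : ℤ) : ℚ) =
      ((735 * (p : ℤ) ^ 8 - 282 * (p : ℤ) ^ 6 + 15 * (p : ℤ) ^ 4 + 12 * (p : ℤ) ^ 2 : ℤ) : ℚ) := by
    unfold lenHK
    rw [icc13, icc23, ico13, ico13, ico13]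
    simp only [show 3 - 1 = 2 from rfl, show 3 - 2 = 1 from rfl, ico12, ico11]
    have c30 : Nat.choose 3 0 = 1 := rfl
    have c31 : Nat.choose 3 1 = 3 := rfl
    have c32 : Nat.choose 3 2 = 3 := rfl
    have c33 : Nat.choose 3 3 = 1 := rfl
    have c42 : Nat.choose 4 2 = 6 := rfl
    have c0 : Nat.choose 6 0 = 1 := rfl
    have c1 : Nat.choose 6 1 = 6 := rfl
    have c2 : Nat.choose 6 2 = 15 := rfl
    have c3 : Nat.choose 6 3 = 20 := rfl
    have c4 : Nat.choose 6 4 = 15 := rfl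
    have c5 : Nat.choose 6 5 = 6 := rfl
    unfold ax TT
    simp only [Nat.reduceAdd, Nat.reduceSub, Nat.reduceMul]
    simp only [Finset.sum_Ico_succ_top (show 1 ≤ 5 by norm_num),
      Finset.sum_Ico_succ_top (show 1 ≤ 4 by norm_num),
      Finset.sum_Ico_succ_top (show 1 ≤ 3 by norm_num),
      Finset.sum_Ico_succ_top (show 1 ≤ 2 by norm_num),
      Finset.sum_Ico_succ_top (show 1 ≤ 1 by norm_num), Finset.sum_range_succ,
      Finset.sum_range_zero, Finset.Ico_self, Finset.sum_empty, Nat.reduceAdd, Nat.reduceSub,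
      Nat.reduceMul, c0, c1, c2, c3, c4, c5, c30, c31, c32, c33, c42]
    push_cast
    have q10 := pb33 p 1 0 (by norm_num) hp
    have q11 := pb33 p 1 1 (by norm_num) hp
    have q12 := pb33 p 1 2 (by norm_num) hp
    have q20 := pb33 p 2 0 (by norm_num) hp
    have q21 := pb33 p 2 1 (by norm_num) hp
    have q22 := pb33 p 2 2 (by norm_num) hp
    have q30 := pb33 p 3 0 (by norm_num) hp
    have q31 := pb33 p 3 1 (by norm_num) hp
    have q32 := pb33 p 3 2 (by norm_num) hp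
    have q40 := pb33 p 4 0 (by norm_num) hp
    have q41 := pb33 p 4 1 (by norm_num) hp
    have q42 := pb33 p 4 2 (by norm_num) hp
    have q50 := pb33 p 5 0 (by norm_num) hp
    have q51 := pb33 p 5 1 (by norm_num) hp
    have q52 := pb33 p 5 2 (by norm_num) hp
    have q60 := pb33 p 6 0 (by norm_num) hp
    have q61 := pb33 p 6 1 (by norm_num) hp
    have q62 := pb33 p 6 2 (by norm_num) hp
    push_cast at q10 q11 q12 q20 q21 q22 q30 q31 q32 q40 q41 q42 q50 q51 q52 q60 q61 q62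
    simp only [q10, q11, q12, q20, q21, q22, q30, q31, q32, q40, q41, q42, q50, q51, q52, q60, q61,
      q62]
    ring
  exact_mod_cast key

end Pool.HKDet
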