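import Pool.Agent.Lib.HKDet.FrOp

/-!
# Module RnE: substitution of vectors

`rn g : T V K → T V' K`, `v ↦ g v` for `g : V → V'` (`rename (Prod.map g id)`).

PROOFS.
* `E_rn`: `Et (rn g f) = (rn g applied to the coefficients of Et f)`: algebra maps which agree on the generators; or `MvPolynomial.induction_on` with `E_mul`. `F_rn` same.
* `rn_mem_S`: monomials: `rename` maps `x^μ` to `x^(μ.mapDomain)`; degree `d.mapDomain g`, same weight (`S_induction`).
* `rn_Inv`: from `E_rn`, `mem_Inv_iff`. `rn_expand`: `rename` and `expand` commute (generators). `rn_Fr`: `f ∈ Fr p J`, `J.map (rn g) ≤ J'` ⟹ `rn g f ∈ Fr p J'`.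
-/

namespace HKDet

open MvPolynomial FSig Finset

variable {V V' : Type*} {K : Type*} [Field K]

/-- substitution of vectors -/
noncomputable def rn (K : Type*) [Field K] (g : V → V') : T V K →ₐ[K] T V' K := rename (Prod.map g id)

private theorem rn_X (g : V → V') (v : V) (b : Bool) : rn K g (X (v, b)) = X (g v, b) := by
  unfold rn
  rw [rename_X]
  rfl

theorem rn_va (g : V → V') (v : V) : rn K g (va K v) = va K (g v) := rn_X g v false
theorem rn_vb (g : V → V') (v : V) : rn K g (vb K v) = vb K (g v) := rn_X g v true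
theorem rn_br (g : V → V') (v w : V) : rn K g (br K v w) = br K (g v) (g w) := by
  unfold br
  rw [map_sub, map_mul, map_mul, rn_va, rn_vb, rn_va, rn_vb]

private theorem Et_rn (g : V → V') (f : T V K) :
    Et K (rn K g f) = Polynomial.mapAlgHom (rn K g) (Et K f) := by
  have h : (Et K).comp (rn K g) = (Polynomial.mapAlgHom (rn K g)).comp (Et K) := by
    apply MvPolynomial.algHom_ext
    rintro ⟨v, b⟩
    show Et K (rn K g (X (v, b))) = Polynomial.mapAlgHom _ (Et K (X (v, b)))
    rw [rn_X]
    cases b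
    · show Et K (va K (g v)) = Polynomial.mapAlgHom _ (Et K (va K v))
      rw [Et_va, Et_va]
      simp [rn_va]
    · show Et K (vb K (g v)) = Polynomial.mapAlgHom _ (Et K (vb K v))
      rw [Et_vb, Et_vb]
      simp [rn_va, rn_vb]
  exact congrArg (fun g : T V K →ₐ[K] Polynomial (T V' K) => g f) h

private theorem Ft_rn (g : V → V') (f : T V K) :
    Ft K (rn K g f) = Polynomial.mapAlgHom (rn K g) (Ft K f) := by
  have h : (Ft K).comp (rn K g) = (Polynomial.mapAlgHom (rn K g)).comp (Ft K) := by
    apply MvPolynomial.algHom_ext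
    rintro ⟨v, b⟩
    show Ft K (rn K g (X (v, b))) = Polynomial.mapAlgHom _ (Ft K (X (v, b)))
    rw [rn_X]
    cases b
    · show Ft K (va K (g v)) = Polynomial.mapAlgHom _ (Ft K (va K v))
      rw [Ft_va, Ft_va]
      simp [rn_va, rn_vb]
    · show Ft K (vb K (g v)) = Polynomial.mapAlgHom _ (Ft K (vb K v))
      rw [Ft_vb, Ft_vb]
      simp [rn_vb]
  exact congrArg (fun g : T V K →ₐ[K] Polynomial (T V' K) => g f) h

theorem E_rn (g : V → V') (k : ℕ) (f : T V K) : E K k (rn K g f) = rn K g (E K k f) := by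
  rw [E_apply, E_apply, Et_rn]
  simp
theorem F_rn (g : V → V') (k : ℕ) (f : T V K) : F K k (rn K g f) = rn K g (F K k f) := by
  rw [F_apply, F_apply, Ft_rn]
  simp

private theorem weight_map (g : V → V') (μ : V × Bool →₀ ℕ) :
    Finsupp.weight (gr (V := V')) (μ.mapDomain (Prod.map g id)) =
      ((Finsupp.weight (gr (V := V)) μ).1.mapDomain g, (Finsupp.weight (gr (V := V)) μ).2) := by
  induction μ using Finsupp.induction_linear with
  | zero =>
    simp
    rfl
  | add f h hf hh =>
    rw [Finsupp.mapDomain_add, map_add, hf, hh, map_add, Prod.fst_add, Prod.snd_add,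
      Finsupp.mapDomain_add]
    rfl
  | single x n =>
    rw [Finsupp.mapDomain_single, Finsupp.weight_apply, Finsupp.weight_apply,
      Finsupp.sum_single_index (h := fun i c => c • gr i) (zero_smul ℕ _),
      Finsupp.sum_single_index (h := fun i c => c • gr i) (zero_smul ℕ _)]
    unfold gr
    simp [Finsupp.mapDomain_single]

theorem rn_mem_S (g : V → V') {d : V →₀ ℕ} {w : ℤ} {f : T V K} (hf : f ∈ S K d w) :
    rn K g f ∈ S K (d.mapDomain g) w := by
  unfold S at hf ⊢
  rw [mem_weightedHomogeneousSubmodule] at hf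
  rw [f.as_sum, map_sum]
  refine Submodule.sum_mem _ ?_
  intro μ hμ
  rw [mem_support_iff] at hμ
  unfold rn
  rw [rename_monomial, mem_weightedHomogeneousSubmodule]
  apply isWeightedHomogeneous_monomial
  rw [weight_map, hf hμ]

theorem rn_Inv (g : V → V') {f : T V K} (hf : f ∈ Inv (V := V) K) : rn K g f ∈ Inv (V := V') K := by
  rw [mem_Inv_iff] at hf ⊢
  intro k hk
  obtain ⟨h1, h2⟩ := hf k hk
  rw [E_rn, F_rn, h1, h2, map_zero]
  exact ⟨rfl, rfl⟩

theorem rn_expand (p : ℕ) (g : V → V') (f : T V K) : rn K g (expand p f) = expand p (rn K g f) := by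
  have h : (rn K g).comp (expand p) = (expand p).comp (rn K g) := by
    apply MvPolynomial.algHom_ext
    rintro ⟨v, b⟩
    show rn K g (expand p (X (v, b))) = expand p (rn K g (X (v, b)))
    rw [expand_X, map_pow, rn_X, expand_X]
  exact congrArg (fun g : T V K →ₐ[K] T V' K => g f) h

theorem rn_Fr (p : ℕ) (g : V → V') {J : Ideal (T V K)} {J' : Ideal (T V' K)}
    (h : J.map (rn K g) ≤ J') {f : T V K} (hf : f ∈ Fr p J) : rn K g f ∈ Fr p J' := by
  have h1 : Fr p J ≤ (Fr p J').comap (rn K g) := by
    unfold Fr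
    rw [Ideal.map_le_iff_le_comap]
    intro x hx
    rw [Ideal.mem_comap, Ideal.mem_comap]
    rw [rn_expand]
    exact Ideal.mem_map_of_mem _ (h (Ideal.mem_map_of_mem _ hx))
  exact h1 hf

end HKDet
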