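import Pool.Agent.Lib.HKDet.Defs

/-!
# Module SpA: polarisation operators on `T V K`

`pol i j = a_j ∂/∂a_i + b_j ∂/∂b_i` (replace a vector `i` by the vector `j`), `omg i j = ∂²/∂a_i∂b_j - ∂²/∂b_i∂a_j`.

PROOFS (`(v, false)` is `a_v`, `(v, true)` is `b_v`).
* CHAIN RULE `pderiv_E`: `∂_{b_v} (E k x) = E k (∂_{b_v} x)`, `∂_{a_v} (E (k+1) x) = E (k+1) (∂_{a_v} x) + E k (∂_{b_v} x)`, `∂_{a_v} (E 0 x) = E 0 (∂_{a_v} x)`; induction on `x` (`MvPolynomial.induction_on`), for all `k`: for a
  product `x * y` use `E_mul` and the Leibniz rule (`pderiv_mul`); for variables `E_va`, `E_vb`, `E_one_vb`, `E_zero`, `pderiv_X`. (It is enough to treat products `x * X u`.) The `F` rules are the mirror image: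
  `∂_{a_v} (F k x) = F k (∂_{a_v} x)`, `∂_{b_v} (F (k+1) x) = F (k+1) (∂_{b_v} x) + F k (∂_{a_v} x)`; (or through `sw`).
* `pol_E`: `E k (a_j u + b_j v) = a_j E k u + b_j E k v + a_j E (k-1) v` (`E_mul`; only `E 0`, `E 1` of `b_j` are nonzero), and `pol (E k x) = a_j (E k ∂_a x + E (k-1) ∂_b x) + b_j E k ∂_b x`.
* `omg_E`: two applications of the chain rule: `∂_{a_i} ∂_{b_j} E k x = E k ∂_{a_i}∂_{b_j} x + E (k-1) ∂_{b_i} ∂_{b_j} x`, `∂_{b_i} ∂_{a_j} E k x = E k ∂_{b_i} ∂_{a_j} x + E (k-1) ∂_{b_i} ∂_{b_j} x`; `pderiv` commute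
  (`MvPolynomial.pderiv_pderiv_comm`-type lemma: on monomials, or `Derivation` commutator is zero on variables).
-/

namespace HKDet

open MvPolynomial FSig

variable {V : Type*} [DecidableEq V] {K : Type*} [Field K]

/-- replace one vector `i` by `j` -/
noncomputable def pol (i j : V) : T V K →ₗ[K] T V K :=
  (LinearMap.mulLeft K (va K j)).comp (pderiv (i, false) : Derivation K (T V K) (T V K)).toLinearMap +
    (LinearMap.mulLeft K (vb K j)).comp (pderiv (i, true) : Derivation K (T V K) (T V K)).toLinearMap

/-- the operator `∂²/∂a_i∂b_j - ∂²/∂b_i∂a_j` -/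
noncomputable def omg (i j : V) : T V K →ₗ[K] T V K :=
  (pderiv (i, false) : Derivation K (T V K) (T V K)).toLinearMap.comp
      (pderiv (j, true) : Derivation K (T V K) (T V K)).toLinearMap -
    (pderiv (i, true) : Derivation K (T V K) (T V K)).toLinearMap.comp
      (pderiv (j, false) : Derivation K (T V K) (T V K)).toLinearMap

theorem pol_apply (i j : V) (x : T V K) :
    pol i j x = va K j * pderiv (i, false) x + vb K j * pderiv (i, true) x := rfl
theorem omg_apply (i j : V) (x : T V K) :
    omg i j x = pderiv (i, false) (pderiv (j, true) x) - pderiv (i, true) (pderiv (j, false) x) :=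
  rfl

private structure GG (G : ℕ → T V K →ₗ[K] T V K) (s : Bool) : Prop where
  zero : ∀ x, G 0 x = x
  cst : ∀ k c, G (k + 1) (C c) = 0
  fix : ∀ k x w, G k (x * X (w, !s)) = G k x * X (w, !s)
  mov : ∀ k x w, G (k + 1) (x * X (w, s)) = G (k + 1) x * X (w, s) + G k x * X (w, !s)

omit [DecidableEq V] in
private lemma gE : GG (V := V) (K := K) (fun k => E K k) true where
  zero := E_zero K
  cst := fun k c => E_C K (k + 1) (by omega) c
  fix := by
    intro k x w
    have h : (X (w, !true) : T V K) = va K w := rfl
    rw [h, E_mul, Finset.Nat.sum_antidiagonal_eq_sum_range_succ (fun i j => E K i x * E K j (va K w)),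
      Finset.sum_range_succ, Nat.sub_self, E_zero, Finset.sum_eq_zero, zero_add]
    intro i hi
    rw [Finset.mem_range] at hi
    rw [E_va K (k - i) (by omega), mul_zero]
  mov := by
    intro k x w
    have h : (X (w, true) : T V K) = vb K w := rfl
    have h' : (X (w, !true) : T V K) = va K w := rfl
    rw [h, h', E_mul, Finset.Nat.sum_antidiagonal_eq_sum_range_succ (fun i j => E K i x * E K j (vb K w)),
      Finset.sum_range_succ, Nat.sub_self, E_zero, Finset.sum_range_succ, Finset.sum_eq_zero,
      Nat.add_sub_cancel_left, E_one_vb]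
    · ring
    · intro i hi
      rw [Finset.mem_range] at hi
      rw [E_vb K (k + 1 - i) (by omega), mul_zero]

omit [DecidableEq V] in
private lemma gF : GG (V := V) (K := K) (fun k => F K k) false where
  zero := F_zero K
  cst := fun k c => F_C K (k + 1) (by omega) c
  fix := by
    intro k x w
    have h : (X (w, !false) : T V K) = vb K w := rfl
    rw [h, F_mul, Finset.Nat.sum_antidiagonal_eq_sum_range_succ (fun i j => F K i x * F K j (vb K w)),
      Finset.sum_range_succ, Nat.sub_self, F_zero, Finset.sum_eq_zero, zero_add]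
    intro i hi
    rw [Finset.mem_range] at hi
    rw [F_vb K (k - i) (by omega), mul_zero]
  mov := by
    intro k x w
    have h : (X (w, false) : T V K) = va K w := rfl
    have h' : (X (w, !false) : T V K) = vb K w := rfl
    rw [h, h', F_mul, Finset.Nat.sum_antidiagonal_eq_sum_range_succ (fun i j => F K i x * F K j (va K w)),
      Finset.sum_range_succ, Nat.sub_self, F_zero, Finset.sum_range_succ, Finset.sum_eq_zero,
      Nat.add_sub_cancel_left, F_one_va]
    · ring
    · intro i hi
      rw [Finset.mem_range] at hi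
      rw [F_va K (k + 1 - i) (by omega), mul_zero]

private lemma pdX (x y : V × Bool) :
    pderiv x (X y : T V K) = if x = y then 1 else 0 := by
  by_cases h : x = y
  · subst h
    rw [pderiv_X_self, if_pos rfl]
  · rw [pderiv_X_of_ne (Ne.symm h), if_neg h]

omit [DecidableEq V] in
private lemma g_ite (G : T V K →ₗ[K] T V K) (f : T V K) (P : Prop) [Decidable P] :
    G (f * (if P then 1 else 0)) = G f * (if P then 1 else 0) := by
  split_ifs
  · rw [mul_one, mul_one]
  · rw [mul_zero, mul_zero, map_zero]

omit [DecidableEq V] in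
private lemma ne_not (s : Bool) (v w : V) : (v, s) ≠ (w, !s) := by
  intro h
  have := (Prod.ext_iff.1 h).2
  cases s <;> simp at this

private lemma chA {G : ℕ → T V K →ₗ[K] T V K} {s : Bool} (h : GG G s) (v : V) (x : T V K) :
    ∀ k, pderiv (v, s) (G k x) = G k (pderiv (v, s) x) := by
  induction x using MvPolynomial.induction_on with
  | C c =>
    intro k
    cases k with
    | zero => rw [h.zero, h.zero]
    | succ k => rw [h.cst, pderiv_C, map_zero, map_zero]
  | add f g hf hg =>
    intro k
    simp only [map_add, hf, hg]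
  | mul_X f u hf =>
    intro k
    obtain ⟨w, e⟩ := u
    by_cases he : e = s
    · subst he
      cases k with
      | zero => rw [h.zero, h.zero]
      | succ k =>
        rw [h.mov, map_add, pderiv_mul, pderiv_mul, hf, hf, pderiv_mul (f := f), map_add, h.mov,
          pdX, pdX, if_neg (ne_not e v w), g_ite]
        ring
    · have he' : e = !s := by
        cases e <;> cases s <;> simp_all
      subst he'
      rw [h.fix, pderiv_mul, hf, pderiv_mul (f := f), map_add, h.fix, pdX, g_ite]

private lemma chB {G : ℕ → T V K →ₗ[K] T V K} {s : Bool} (h : GG G s) (v : V) (x : T V K) :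
    ∀ k, pderiv (v, !s) (G (k + 1) x) =
      G (k + 1) (pderiv (v, !s) x) + G k (pderiv (v, s) x) := by
  induction x using MvPolynomial.induction_on with
  | C c =>
    intro k
    rw [h.cst, pderiv_C, pderiv_C, map_zero, map_zero, map_zero, add_zero]
  | add f g hf hg =>
    intro k
    simp only [map_add, hf, hg]
    ring
  | mul_X f u hf =>
    intro k
    obtain ⟨w, e⟩ := u
    by_cases he : e = s
    · subst he
      have hne : (v, !e) ≠ (w, e) := by
        intro h
        exact ne_not e w v h.symm
      have hiff : ((v, !e) = (w, !e)) ↔ ((v, e) = (w, e)) := by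
        rw [Prod.mk.injEq, Prod.mk.injEq]
        simp
      rw [h.mov, map_add, pderiv_mul, pderiv_mul, hf k, pderiv_mul (f := f), map_add, h.mov,
        pdX, if_neg hne, pdX, pderiv_mul (f := f), map_add, pdX, g_ite, mul_zero, mul_zero,
        map_zero]
      simp only [hiff]
      cases k with
      | zero =>
        simp only [h.zero]
        ring
      | succ k =>
        rw [hf k, h.mov]
        ring
    · have he' : e = !s := by
        cases e <;> cases s <;> simp_all
      subst he'
      rw [h.fix, pderiv_mul, hf, pderiv_mul (f := f), map_add, h.fix, pdX, g_ite,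
        pderiv_mul (f := f), map_add, h.fix, pdX, if_neg (ne_not s v w), mul_zero, map_zero]
      ring

private lemma polG {G : ℕ → T V K →ₗ[K] T V K} {s : Bool} (h : GG G s) (i j : V) (k : ℕ)
    (x : T V K) :
    pderiv (i, s) (G k x) * X (j, s) + pderiv (i, !s) (G k x) * X (j, !s) =
      G k (pderiv (i, s) x * X (j, s) + pderiv (i, !s) x * X (j, !s)) := by
  cases k with
  | zero => rw [h.zero, h.zero]
  | succ k =>
    rw [chA h, chB h, map_add, h.mov, h.fix]
    ring

private lemma omgG {G : ℕ → T V K →ₗ[K] T V K} {s : Bool} (h : GG G s) (i j : V) (k : ℕ)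
    (x : T V K) :
    pderiv (i, !s) (pderiv (j, s) (G k x)) - pderiv (i, s) (pderiv (j, !s) (G k x)) =
      G k (pderiv (i, !s) (pderiv (j, s) x) - pderiv (i, s) (pderiv (j, !s) x)) := by
  cases k with
  | zero => rw [h.zero, h.zero]
  | succ k =>
    rw [chA h, chB h, chB h, map_add, chA h, chA h, map_sub]
    ring

theorem pol_E (i j : V) (k : ℕ) (x : T V K) : pol i j (E K k x) = E K k (pol i j x) := by
  have h := polG gE i j k x
  rw [pol_apply, pol_apply]
  have e1 : ∀ y : T V K, va K j * pderiv (i, false) y + vb K j * pderiv (i, true) y =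
      pderiv (i, true) y * X (j, true) + pderiv (i, !true) y * X (j, !true) := by
    intro y
    show X (j, false) * pderiv (i, false) y + X (j, true) * pderiv (i, true) y =
      pderiv (i, true) y * X (j, true) + pderiv (i, false) y * X (j, false)
    ring
  rw [e1, e1]
  exact h
theorem pol_F (i j : V) (k : ℕ) (x : T V K) : pol i j (F K k x) = F K k (pol i j x) := by
  have h := polG gF i j k x
  rw [pol_apply, pol_apply]
  have e1 : ∀ y : T V K, va K j * pderiv (i, false) y + vb K j * pderiv (i, true) y =
      pderiv (i, false) y * X (j, false) + pderiv (i, !false) y * X (j, !false) := by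
    intro y
    show X (j, false) * pderiv (i, false) y + X (j, true) * pderiv (i, true) y =
      pderiv (i, false) y * X (j, false) + pderiv (i, true) y * X (j, true)
    ring
  rw [e1, e1]
  exact h
theorem omg_E (i j : V) (k : ℕ) (x : T V K) : omg i j (E K k x) = E K k (omg i j x) :=
  omgG gE i j k x
theorem omg_F (i j : V) (k : ℕ) (x : T V K) : omg i j (F K k x) = F K k (omg i j x) := by
  have h := congrArg Neg.neg (omgG gF i j k x)
  rw [← map_neg, neg_sub, neg_sub] at h
  exact h

end HKDet
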